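import Pool.Agent.Lib.H98S.Ord

/-! # H98S, finite facts, file OF: facts without an order (families of conditions on five points) -/

namespace H53P

variable {V : Type*} (T : Table V)

/-- `w` is before `z` on the edge `x y` (both rays cross the edge) -/
def Table.bef (a x y w z : V) : Bool :=
  ((((T.X w y a x ^^ T.X w y x z) ^^ T.X w y z a) && ((T.X w a x y ^^ T.X w a y z) ^^ T.X w a z x)) ^^ T.X a w x z)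

variable {T} in
theorem Table.n5 (T : Table V) {l : List V} (h : l.Nodup) {p q r s t : V}
    (hs : List.Sublist [p, q, r, s, t] l) : T.Ok5 p q r s t := by
  have h1 : [p, q, r, s, t].Nodup := h.sublist hs
  simp only [List.nodup_cons, List.mem_cons, List.not_mem_nil, not_or, or_false, not_false_iff,
    List.nodup_nil, and_true] at h1
  obtain ⟨⟨a1, a2, a3, a4⟩, ⟨a5, a6, a7⟩, ⟨a8, a9⟩, a10⟩ := h1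
  exact T.ok5 a1 a2 a3 a4 a5 a6 a7 a8 a9 a10

/-- conditions on five points -/
def okA0 (b0 b1 b2 b3 b4 b5 b6 b7 b8 b9 b10 b11 b12 b13 b14 : Bool) : Bool :=
  ((((b6 ^^ b9) ^^ b2) ^^ b5) ^^ b12) && ok5 b0 b1 b2 b3 b4 b5 b6 b7 b8 b9 b10 b11 b12 b13 b14

/-- conditions on five points -/
def Table.OkA0 (p0 p1 p2 p3 p4 : V) : Prop :=
  okA0 (T.X p0 p1 p2 p3) (T.X p0 p2 p1 p3) (T.X p0 p3 p1 p2) (T.X p0 p1 p2 p4) (T.X p0 p2 p1 p4) (T.X p0 p4 p1 p2) (T.X p0 p1 p3 p4) (T.X p0 p3 p1 p4) (T.X p0 p4 p1 p3) (T.X p0 p2 p3 p4) (T.X p0 p3 p2 p4) (T.X p0 p4 p2 p3) (T.X p1 p2 p3 p4) (T.X p1 p3 p2 p4) (T.X p1 p4 p2 p3) = true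

/-- conditions on five points -/
def okA2 (b0 b1 b2 b3 b4 b5 b6 b7 b8 b9 b10 b11 b12 b13 b14 : Bool) : Bool :=
  ((((b0 ^^ b11) ^^ b4) ^^ b7) ^^ b14) && ok5 b0 b1 b2 b3 b4 b5 b6 b7 b8 b9 b10 b11 b12 b13 b14

/-- conditions on five points -/
def Table.OkA2 (p0 p1 p2 p3 p4 : V) : Prop :=
  okA2 (T.X p0 p1 p2 p3) (T.X p0 p2 p1 p3) (T.X p0 p3 p1 p2) (T.X p0 p1 p2 p4) (T.X p0 p2 p1 p4) (T.X p0 p4 p1 p2) (T.X p0 p1 p3 p4) (T.X p0 p3 p1 p4) (T.X p0 p4 p1 p3) (T.X p0 p2 p3 p4) (T.X p0 p3 p2 p4) (T.X p0 p4 p2 p3) (T.X p1 p2 p3 p4) (T.X p1 p3 p2 p4) (T.X p1 p4 p2 p3) = true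

/-- conditions on five points -/
def okg (b0 b1 b2 b3 b4 b5 b6 b7 b8 b9 b10 b11 b12 b13 b14 : Bool) : Bool :=
  b2 && (!(b5 && ((((b3 ^^ b13) ^^ b10) && ((b5 ^^ b11) ^^ b8)) ^^ b8)) && ok5 b0 b1 b2 b3 b4 b5 b6 b7 b8 b9 b10 b11 b12 b13 b14)

/-- conditions on five points -/
def Table.Okg (p0 p1 p2 p3 p4 : V) : Prop :=
  okg (T.X p0 p1 p2 p3) (T.X p0 p2 p1 p3) (T.X p0 p3 p1 p2) (T.X p0 p1 p2 p4) (T.X p0 p2 p1 p4) (T.X p0 p4 p1 p2) (T.X p0 p1 p3 p4) (T.X p0 p3 p1 p4) (T.X p0 p4 p1 p3) (T.X p0 p2 p3 p4) (T.X p0 p3 p2 p4) (T.X p0 p4 p2 p3) (T.X p1 p2 p3 p4) (T.X p1 p3 p2 p4) (T.X p1 p4 p2 p3) = true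

/-- conditions on five points -/
def okb (b0 b1 b2 b3 b4 b5 b6 b7 b8 b9 b10 b11 b12 b13 b14 : Bool) : Bool :=
  b2 && (b5 && (((((b0 ^^ b14) ^^ b11) && ((b2 ^^ b10) ^^ b7)) ^^ b7) && ok5 b0 b1 b2 b3 b4 b5 b6 b7 b8 b9 b10 b11 b12 b13 b14))

/-- conditions on five points -/
def Table.Okb (p0 p1 p2 p3 p4 : V) : Prop :=
  okb (T.X p0 p1 p2 p3) (T.X p0 p2 p1 p3) (T.X p0 p3 p1 p2) (T.X p0 p1 p2 p4) (T.X p0 p2 p1 p4) (T.X p0 p4 p1 p2) (T.X p0 p1 p3 p4) (T.X p0 p3 p1 p4) (T.X p0 p4 p1 p3) (T.X p0 p2 p3 p4) (T.X p0 p3 p2 p4) (T.X p0 p4 p2 p3) (T.X p1 p2 p3 p4) (T.X p1 p3 p2 p4) (T.X p1 p4 p2 p3) = true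

/-- conditions on five points -/
def okn (b0 b1 b2 b3 b4 b5 b6 b7 b8 b9 b10 b11 b12 b13 b14 : Bool) : Bool :=
  b2 && (b5 && (!((((b0 ^^ b14) ^^ b11) && ((b2 ^^ b10) ^^ b7)) ^^ b7) && ok5 b0 b1 b2 b3 b4 b5 b6 b7 b8 b9 b10 b11 b12 b13 b14))

/-- conditions on five points -/
def Table.Okn (p0 p1 p2 p3 p4 : V) : Prop :=
  okn (T.X p0 p1 p2 p3) (T.X p0 p2 p1 p3) (T.X p0 p3 p1 p2) (T.X p0 p1 p2 p4) (T.X p0 p2 p1 p4) (T.X p0 p4 p1 p2) (T.X p0 p1 p3 p4) (T.X p0 p3 p1 p4) (T.X p0 p4 p1 p3) (T.X p0 p2 p3 p4) (T.X p0 p3 p2 p4) (T.X p0 p4 p2 p3) (T.X p1 p2 p3 p4) (T.X p1 p3 p2 p4) (T.X p1 p4 p2 p3) = true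

theorem Table.ax0 (p0 p1 p2 p3 p4 : V) : T.alt p0 p1 p2 p3 p4 =
    ((((T.X p0 p1 p3 p4 ^^ T.X p0 p2 p3 p4) ^^ T.X p0 p3 p1 p2) ^^ T.X p0 p4 p1 p2) ^^ T.X p1 p2 p3 p4) := by
  unfold Table.alt altX
  rw [T.xs4 p1 p2 p0 p3, T.xs4 p1 p2 p0 p4]

variable {T} in
theorem Table.okA0 (T : Table V) {p0 p1 p2 p3 p4 : V} (h : T.Ok5 p0 p1 p2 p3 p4) (ha : T.alt p0 p1 p2 p3 p4 = true) :
    T.OkA0 p0 p1 p2 p3 p4 := by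
  rw [T.ax0] at ha
  exact and_i ha h

theorem Table.ax1 (p0 p1 p2 p3 p4 : V) : T.alt p0 p1 p3 p2 p4 =
    ((((T.X p0 p1 p2 p4 ^^ T.X p0 p3 p2 p4) ^^ T.X p0 p2 p1 p3) ^^ T.X p0 p4 p1 p3) ^^ T.X p1 p3 p2 p4) := by
  unfold Table.alt altX
  rw [T.xs4 p1 p3 p0 p2, T.xs4 p1 p3 p0 p4]

variable {T} in
theorem Table.okA1 (T : Table V) {p0 p1 p2 p3 p4 : V} (h : T.Ok5 p0 p1 p2 p3 p4) (ha : T.alt p0 p1 p3 p2 p4 = true) :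
    T.Ok5a p0 p1 p2 p3 p4 := by
  rw [T.ax1] at ha
  exact and_i ha h

theorem Table.ax2 (p0 p1 p2 p3 p4 : V) : T.alt p0 p1 p4 p2 p3 =
    ((((T.X p0 p1 p2 p3 ^^ T.X p0 p4 p2 p3) ^^ T.X p0 p2 p1 p4) ^^ T.X p0 p3 p1 p4) ^^ T.X p1 p4 p2 p3) := by
  unfold Table.alt altX
  rw [T.xs4 p1 p4 p0 p2, T.xs4 p1 p4 p0 p3]

variable {T} in
theorem Table.okA2 (T : Table V) {p0 p1 p2 p3 p4 : V} (h : T.Ok5 p0 p1 p2 p3 p4) (ha : T.alt p0 p1 p4 p2 p3 = true) :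
    T.OkA2 p0 p1 p2 p3 p4 := by
  rw [T.ax2] at ha
  exact and_i ha h

theorem b_ae1 : ∀ b0 b1 b2 b3 b4 b5 b6 b7 b8 b9 b10 b11 b12 b13 b14 : Bool, ok5 b0 b1 b2 b3 b4 b5 b6 b7 b8 b9 b10 b11 b12 b13 b14 = true →
    ((((b6 ^^ b9) ^^ b2) ^^ b5) ^^ b12) = false → ((((b3 ^^ b10) ^^ b1) ^^ b8) ^^ b13) = false → ((((b0 ^^ b11) ^^ b4) ^^ b7) ^^ b14) = false → False := by
  decide +kernel

theorem b_ae01 : ∀ b0 b1 b2 b3 b4 b5 b6 b7 b8 b9 b10 b11 b12 b13 b14 : Bool, ok5 b0 b1 b2 b3 b4 b5 b6 b7 b8 b9 b10 b11 b12 b13 b14 = true →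
    ((((b6 ^^ b9) ^^ b2) ^^ b5) ^^ b12) = true → ((((b3 ^^ b10) ^^ b1) ^^ b8) ^^ b13) = true → False := by
  decide +kernel

theorem b_ae02 : ∀ b0 b1 b2 b3 b4 b5 b6 b7 b8 b9 b10 b11 b12 b13 b14 : Bool, ok5 b0 b1 b2 b3 b4 b5 b6 b7 b8 b9 b10 b11 b12 b13 b14 = true →
    ((((b6 ^^ b9) ^^ b2) ^^ b5) ^^ b12) = true → ((((b0 ^^ b11) ^^ b4) ^^ b7) ^^ b14) = true → False := by
  decide +kernel

theorem b_ae12 : ∀ b0 b1 b2 b3 b4 b5 b6 b7 b8 b9 b10 b11 b12 b13 b14 : Bool, ok5 b0 b1 b2 b3 b4 b5 b6 b7 b8 b9 b10 b11 b12 b13 b14 = true →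
    ((((b3 ^^ b10) ^^ b1) ^^ b8) ^^ b13) = true → ((((b0 ^^ b11) ^^ b4) ^^ b7) ^^ b14) = true → False := by
  decide +kernel

variable {T} in
theorem Table.ae1 (T : Table V) {p0 p1 p2 p3 p4 : V} (h : T.Ok5 p0 p1 p2 p3 p4) (h0 : T.alt p0 p1 p2 p3 p4 = false)
    (h1 : T.alt p0 p1 p3 p2 p4 = false) (h2 : T.alt p0 p1 p4 p2 p3 = false) : False := by
  rw [T.ax0] at h0
  rw [T.ax1] at h1
  rw [T.ax2] at h2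
  exact b_ae1 _ _ _ _ _ _ _ _ _ _ _ _ _ _ _ h h0 h1 h2

variable {T} in
theorem Table.ae01 (T : Table V) {p0 p1 p2 p3 p4 : V} (h : T.Ok5 p0 p1 p2 p3 p4) (h1 : T.alt p0 p1 p2 p3 p4 = true)
    (h2 : T.alt p0 p1 p3 p2 p4 = true) : False := by
  rw [T.ax0] at h1
  rw [T.ax1] at h2
  exact b_ae01 _ _ _ _ _ _ _ _ _ _ _ _ _ _ _ h h1 h2

variable {T} in
theorem Table.ae02 (T : Table V) {p0 p1 p2 p3 p4 : V} (h : T.Ok5 p0 p1 p2 p3 p4) (h1 : T.alt p0 p1 p2 p3 p4 = true)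
    (h2 : T.alt p0 p1 p4 p2 p3 = true) : False := by
  rw [T.ax0] at h1
  rw [T.ax2] at h2
  exact b_ae02 _ _ _ _ _ _ _ _ _ _ _ _ _ _ _ h h1 h2

variable {T} in
theorem Table.ae12 (T : Table V) {p0 p1 p2 p3 p4 : V} (h : T.Ok5 p0 p1 p2 p3 p4) (h1 : T.alt p0 p1 p3 p2 p4 = true)
    (h2 : T.alt p0 p1 p4 p2 p3 = true) : False := by
  rw [T.ax1] at h1
  rw [T.ax2] at h2
  exact b_ae12 _ _ _ _ _ _ _ _ _ _ _ _ _ _ _ h h1 h2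

theorem Table.bg (p0 p1 p2 p3 p4 : V) : T.bef p0 p1 p2 p4 p3 =
    ((((T.X p0 p1 p2 p4 ^^ T.X p1 p3 p2 p4) ^^ T.X p0 p3 p2 p4) && ((T.X p0 p4 p1 p2 ^^ T.X p0 p4 p2 p3) ^^ T.X p0 p4 p1 p3)) ^^ T.X p0 p4 p1 p3) := by
  unfold Table.bef
  rw [T.xs6 p4 p2 p0 p1, T.xs6 p4 p2 p1 p3, T.xs7 p4 p2 p3 p0, T.xs1 p4 p0 p1 p2, T.xs1 p4 p0 p2 p3, T.xs3 p4 p0 p3 p1]

theorem Table.bb (p0 p1 p2 p3 p4 : V) : T.bef p0 p1 p2 p3 p4 =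
    ((((T.X p0 p1 p2 p3 ^^ T.X p1 p4 p2 p3) ^^ T.X p0 p4 p2 p3) && ((T.X p0 p3 p1 p2 ^^ T.X p0 p3 p2 p4) ^^ T.X p0 p3 p1 p4)) ^^ T.X p0 p3 p1 p4) := by
  unfold Table.bef
  rw [T.xs6 p3 p2 p0 p1, T.xs6 p3 p2 p1 p4, T.xs7 p3 p2 p4 p0, T.xs1 p3 p0 p1 p2, T.xs1 p3 p0 p2 p4, T.xs3 p3 p0 p4 p1]

end H53P
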