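import Pool.Agent.Lib.H98S.OF

/-! # H98S, finite facts, file SP: the rotation at the pole of five points -/

namespace H53P

variable {V : Type*} (T : Table V)

theorem Table.as1 (u a b c d : V) : T.alt u a b c d = T.alt u b a c d := by
  unfold Table.alt altX
  rw [T.xs1 a b u c, T.xs1 a b u d, T.xs1 a b c d]
  generalize T.X u a c d = x
  generalize T.X u b c d = y
  generalize T.X b a u c = z
  generalize T.X b a u d = w
  generalize T.X b a c d = v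
  revert x y z w v
  decide

theorem Table.as4 (u a b c d : V) : T.alt u a b c d = T.alt u c d a b := by
  unfold Table.alt altX
  rw [T.xs4 c d u a, T.xs4 c d u b, T.xs4 c d a b, T.xs4 a b u c, T.xs4 a b u d]
  generalize T.X u a c d = x
  generalize T.X u b c d = y
  generalize T.X u c a b = z
  generalize T.X u d a b = w
  generalize T.X a b c d = v
  revert x y z w v
  decide

theorem Table.as2 (u a b c d : V) : T.alt u a b c d = T.alt u a b d c := by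
  rw [T.as4 u a b c d, T.as1 u c d a b, T.as4 u d c a b]

theorem Table.apar {a p q r s t : V} (pa : p ≠ a) (qa : q ≠ a) (ra : r ≠ a) (sa : s ≠ a)
    (ta : t ≠ a) (pq : p ≠ q) (pr : p ≠ r) (ps : p ≠ s) (pt : p ≠ t) (qr : q ≠ r) (qs : q ≠ s)
    (qt : q ≠ t) (rs : r ≠ s) (rt : r ≠ t) (st : s ≠ t) :
    (!((T.alt a p q r s ^^ T.alt a p q s t) ^^ T.alt a p q r t)) = true := by
  obtain ⟨ρ, -, hi, hr⟩ := T.rot a p pa.symm
  unfold Table.alt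
  rw [hr p q r s pa qa ra sa pq pr ps qr qs rs, hr p q s t pa qa sa ta pq ps pt qs qt st,
    hr p q r t pa qa ra ta pq pr pt qr qt rt]
  generalize btw (ρ p) (ρ q) (ρ r) = x
  generalize btw (ρ p) (ρ q) (ρ s) = y
  generalize btw (ρ p) (ρ q) (ρ t) = z
  revert x y z
  decide

/-- the conditions on the 15 alternations of five points -/
def sp5 (b0 b1 b2 b3 b4 b5 b6 b7 b8 b9 b10 b11 b12 b13 b14 : Bool) : Bool :=
  ((b0 ^^ b1) ^^ b2) && (!(b0 && b1) && (((b3 ^^ b4) ^^ b5) && (!(b3 && b4) && (((b6 ^^ b7) ^^ b8) && (!(b6 && b7) && (((b9 ^^ b10) ^^ b11) && (!(b9 && b10) && (((b12 ^^ b13) ^^ b14) && (!(b12 && b13) && (!((b0 ^^ b6) ^^ b3) && (!((b1 ^^ b9) ^^ b4) && (!((b2 ^^ b10) ^^ b7) && (!((b5 ^^ b11) ^^ b8) && (!((b2 ^^ b12) ^^ b5) && (!((b1 ^^ b13) ^^ b8) && (!((b4 ^^ b14) ^^ b7) && (!((b0 ^^ b14) ^^ b11) && (!((b3 ^^ b13) ^^ b10) && (!((b6 ^^ b12) ^^ b9))))))))))))))))))))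

/-- the conditions on the 15 alternations of five points -/
def Table.Sp5 (a p0 p1 p2 p3 p4 : V) : Prop :=
  sp5 (T.alt a p0 p1 p2 p3) (T.alt a p0 p2 p1 p3) (T.alt a p0 p3 p1 p2) (T.alt a p0 p1 p2 p4) (T.alt a p0 p2 p1 p4) (T.alt a p0 p4 p1 p2) (T.alt a p0 p1 p3 p4) (T.alt a p0 p3 p1 p4) (T.alt a p0 p4 p1 p3) (T.alt a p0 p2 p3 p4) (T.alt a p0 p3 p2 p4) (T.alt a p0 p4 p2 p3) (T.alt a p1 p2 p3 p4) (T.alt a p1 p3 p2 p4) (T.alt a p1 p4 p2 p3) = true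

variable {T} in
theorem Table.sp5 (T : Table V) {l : List V} (h : l.Nodup) {a p0 p1 p2 p3 p4 : V}
    (hs : List.Sublist [a, p0, p1, p2, p3, p4] l) : T.Sp5 a p0 p1 p2 p3 p4 := by
  have h1 : [a, p0, p1, p2, p3, p4].Nodup := h.sublist hs
  simp only [List.nodup_cons, List.mem_cons, List.not_mem_nil, not_or, or_false, not_false_iff,
    List.nodup_nil, and_true] at h1
  obtain ⟨⟨a0, a1, a2, a3, a4⟩, ⟨h01, h02, h03, h04⟩, ⟨h12, h13, h14⟩, ⟨h23, h24⟩, h34⟩ := h1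
  unfold Table.Sp5 H53P.sp5
  have r0 := T.rot3 (u := a) (Ne.symm a0) (Ne.symm a1) (Ne.symm a2) (Ne.symm a3) h01 h02 h03 h12 h13 h23
  have c0 := r0.1
  have c1 := r0.2
  have r1 := T.rot3 (u := a) (Ne.symm a0) (Ne.symm a1) (Ne.symm a2) (Ne.symm a4) h01 h02 h04 h12 h14 h24
  have c2 := r1.1
  have c3 := r1.2
  have r2 := T.rot3 (u := a) (Ne.symm a0) (Ne.symm a1) (Ne.symm a3) (Ne.symm a4) h01 h03 h04 h13 h14 h34
  have c4 := r2.1
  have c5 := r2.2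
  have r3 := T.rot3 (u := a) (Ne.symm a0) (Ne.symm a2) (Ne.symm a3) (Ne.symm a4) h02 h03 h04 h23 h24 h34
  have c6 := r3.1
  have c7 := r3.2
  have r4 := T.rot3 (u := a) (Ne.symm a1) (Ne.symm a2) (Ne.symm a3) (Ne.symm a4) h12 h13 h14 h23 h24 h34
  have c8 := r4.1
  have c9 := r4.2
  have c10 := T.apar (Ne.symm a0) (Ne.symm a1) (Ne.symm a2) (Ne.symm a3) (Ne.symm a4) h01 h02 h03 h04 h12 h13 h14 h23 h24 h34
  have c11 := T.apar (Ne.symm a0) (Ne.symm a2) (Ne.symm a1) (Ne.symm a3) (Ne.symm a4) h02 h01 h03 h04 (Ne.symm h12) h23 h24 h13 h14 h34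
  have c12 := T.apar (Ne.symm a0) (Ne.symm a3) (Ne.symm a1) (Ne.symm a2) (Ne.symm a4) h03 h01 h02 h04 (Ne.symm h13) (Ne.symm h23) h34 h12 h14 h24
  have c13 := T.apar (Ne.symm a0) (Ne.symm a4) (Ne.symm a1) (Ne.symm a2) (Ne.symm a3) h04 h01 h02 h03 (Ne.symm h14) (Ne.symm h24) (Ne.symm h34) h12 h13 h23
  have c14 := T.apar (Ne.symm a1) (Ne.symm a2) (Ne.symm a0) (Ne.symm a3) (Ne.symm a4) h12 (Ne.symm h01) h13 h14 (Ne.symm h02) h23 h24 h03 h04 h34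
  rw [T.as4 a p1 p2 p0 p3, T.as4 a p1 p2 p0 p4] at c14
  have c15 := T.apar (Ne.symm a1) (Ne.symm a3) (Ne.symm a0) (Ne.symm a2) (Ne.symm a4) h13 (Ne.symm h01) h12 h14 (Ne.symm h03) (Ne.symm h23) h34 h02 h04 h24
  rw [T.as4 a p1 p3 p0 p2, T.as4 a p1 p3 p0 p4] at c15
  have c16 := T.apar (Ne.symm a1) (Ne.symm a4) (Ne.symm a0) (Ne.symm a2) (Ne.symm a3) h14 (Ne.symm h01) h12 h13 (Ne.symm h04) (Ne.symm h24) (Ne.symm h34) h02 h03 h23
  rw [T.as4 a p1 p4 p0 p2, T.as4 a p1 p4 p0 p3] at c16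
  have c17 := T.apar (Ne.symm a2) (Ne.symm a3) (Ne.symm a0) (Ne.symm a1) (Ne.symm a4) h23 (Ne.symm h02) (Ne.symm h12) h24 (Ne.symm h03) (Ne.symm h13) h34 h01 h04 h14
  rw [T.as4 a p2 p3 p0 p1, T.as4 a p2 p3 p1 p4, T.as4 a p2 p3 p0 p4] at c17
  have c18 := T.apar (Ne.symm a2) (Ne.symm a4) (Ne.symm a0) (Ne.symm a1) (Ne.symm a3) h24 (Ne.symm h02) (Ne.symm h12) h23 (Ne.symm h04) (Ne.symm h14) (Ne.symm h34) h01 h03 h13
  rw [T.as4 a p2 p4 p0 p1, T.as4 a p2 p4 p1 p3, T.as4 a p2 p4 p0 p3] at c18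
  have c19 := T.apar (Ne.symm a3) (Ne.symm a4) (Ne.symm a0) (Ne.symm a1) (Ne.symm a2) h34 (Ne.symm h03) (Ne.symm h13) (Ne.symm h23) (Ne.symm h04) (Ne.symm h14) (Ne.symm h24) h01 h02 h12
  rw [T.as4 a p3 p4 p0 p1, T.as4 a p3 p4 p1 p2, T.as4 a p3 p4 p0 p2] at c19
  exact and_i c0 (and_i c1 (and_i c2 (and_i c3 (and_i c4 (and_i c5 (and_i c6 (and_i c7 (and_i c8 (and_i c9 (and_i c10 (and_i c11 (and_i c12 (and_i c13 (and_i c14 (and_i c15 (and_i c16 (and_i c17 (and_i c18 c19))))))))))))))))))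

end H53P
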