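import Pool.Agent.Lib.H98S.Rot

/-! # H98S, finite facts, file Ord: rotations as real functions -/

namespace H53P

variable {V : Type*} {T : Table V}

/-- `ρ` describes the rotation at `a` (cut at one place) -/
def Table.Ord (T : Table V) (a : V) (ρ : V → ℝ) : Prop :=
  (∀ x y, x ≠ a → y ≠ a → ρ x = ρ y → x = y) ∧
  ∀ p q x y, p ≠ a → q ≠ a → x ≠ a → y ≠ a → p ≠ q → p ≠ x → p ≠ y → q ≠ x → q ≠ y → x ≠ y →
    T.alt a p q x y = (btw (ρ p) (ρ q) (ρ x) ^^ btw (ρ p) (ρ q) (ρ y))

theorem Table.ord_exists (T : Table V) {a w : V} (h : a ≠ w) :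
    ∃ ρ, T.Ord a ρ ∧ ∀ x, x ≠ a → x ≠ w → ρ w < ρ x := by
  obtain ⟨ρ, h1, h2, h3⟩ := T.rot a w h
  exact ⟨ρ, ⟨h2, h3⟩, h1⟩

theorem Table.RotL.sub {a : V} {l l' : List V} (h : T.RotL a l) (hs : List.Sublist l' l) :
    T.RotL a l' :=
  ⟨h.1.sublist (hs.cons_cons a), fun p q r s h1 => h.2 p q r s (h1.trans hs)⟩

theorem Table.Ord.rotL {a : V} {ρ : V → ℝ} (h : T.Ord a ρ) {l : List V}
    (hl : (l.map ρ).IsChain (· < ·)) (ha : ∀ z ∈ l, z ≠ a) : T.RotL a l := by
  have hp : (l.map ρ).Pairwise (· < ·) := List.isChain_iff_pairwise.1 hl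
  have hp' : l.Pairwise (fun x y => ρ x < ρ y) := List.pairwise_map.1 hp
  have hn : l.Nodup := hp'.imp (fun {x y} h1 h2 => by rw [h2] at h1; exact lt_irrefl _ h1)
  refine ⟨List.nodup_cons.2 ⟨fun h1 => ha a h1 rfl, hn⟩, ?_⟩
  intro p q r s hs
  have h1 : [p, q, r, s].Pairwise (fun x y => ρ x < ρ y) := hp'.sublist hs
  have h2 : [p, q, r, s].Nodup := hn.sublist hs
  simp only [List.pairwise_cons, List.mem_cons, List.not_mem_nil, or_false, forall_eq_or_imp,
    forall_eq] at h1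
  obtain ⟨⟨pq, pr, ps⟩, ⟨qr, qs⟩, rs, -⟩ := h1
  simp only [List.nodup_cons, List.mem_cons, List.not_mem_nil, not_or, or_false, not_false_iff,
    List.nodup_nil, and_true] at h2
  obtain ⟨⟨npq, npr, nps⟩, ⟨nqr, nqs⟩, nrs⟩ := h2
  have mem : ∀ z, z ∈ [p, q, r, s] → z ≠ a := fun z hz => ha z (hs.subset hz)
  have hpa := mem p (by simp)
  have hqa := mem q (by simp)
  have hra := mem r (by simp)
  have hsa := mem s (by simp)
  rw [h.2 p r q s hpa hra hqa hsa npr npq nps (Ne.symm nqr) nrs nqs]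
  have e1 : btw (ρ p) (ρ r) (ρ q) = true := by
    unfold btw
    simp [pq, qr]
  have e2 : btw (ρ p) (ρ r) (ρ s) = false := by
    unfold btw
    have h3 : ¬ (ρ s < ρ r) := not_lt.2 rs.le
    have h4 : ¬ (ρ s < ρ p) := not_lt.2 ps.le
    simp [h3, h4]
  rw [e1, e2]
  rfl

/-- the shifted coordinate -/
noncomputable def shf (c t : ℝ) : ℝ := Real.arctan t + (if t < c then 4 else 0)

theorem shf_lt_same1 {c s t : ℝ} (hs : c ≤ s) (ht : c ≤ t) : shf c s < shf c t ↔ s < t := by
  unfold shf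
  rw [if_neg (not_lt.2 hs), if_neg (not_lt.2 ht), add_zero, add_zero]
  exact Real.arctan_strictMono.lt_iff_lt

theorem shf_lt_same2 {c s t : ℝ} (hs : s < c) (ht : t < c) : shf c s < shf c t ↔ s < t := by
  unfold shf
  rw [if_pos hs, if_pos ht, add_lt_add_iff_right]
  exact Real.arctan_strictMono.lt_iff_lt

theorem shf_lt_diff {c s t : ℝ} (hs : c ≤ s) (ht : t < c) : shf c s < shf c t := by
  unfold shf
  rw [if_neg (not_lt.2 hs), if_pos ht]
  have h1 := Real.arctan_lt_pi_div_two s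
  have h2 := Real.neg_pi_div_two_lt_arctan t
  have h3 := Real.pi_lt_four
  linarith

theorem shf_inj {c s t : ℝ} (h : shf c s = shf c t) : s = t := by
  rcases lt_or_ge s c with h1 | h1 <;> rcases lt_or_ge t c with h2 | h2
  · rcases lt_trichotomy s t with h3 | h3 | h3
    · exact absurd h ((shf_lt_same2 h1 h2).2 h3).ne
    · exact h3
    · exact absurd h ((shf_lt_same2 h2 h1).2 h3).ne'
  · exact absurd h (shf_lt_diff h2 h1).ne'
  · exact absurd h (shf_lt_diff h1 h2).ne
  · rcases lt_trichotomy s t with h3 | h3 | h3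
    · exact absurd h ((shf_lt_same1 h1 h2).2 h3).ne
    · exact h3
    · exact absurd h ((shf_lt_same1 h2 h1).2 h3).ne'

theorem shf_btw {c p q z : ℝ} (hpq : p ≠ q) (hpz : p ≠ z) (hqz : q ≠ z) :
    btw (shf c p) (shf c q) (shf c z) = (btw p q z ^^ (decide (p < c) ^^ decide (q < c))) := by
  have key : ∀ s t : ℝ, s ≠ t → (decide (shf c s < shf c t)) =
      (decide (s < t) ^^ (decide (s < c) ^^ decide (t < c))) := by
    intro s t hst
    rcases lt_or_ge s c with h1 | h1 <;> rcases lt_or_ge t c with h2 | h2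
    · rw [decide_eq_true h1, decide_eq_true h2]
      simp only [Bool.xor_self, Bool.xor_false]
      exact decide_eq_decide.2 (shf_lt_same2 h1 h2)
    · have h3 : s < t := lt_of_lt_of_le h1 h2
      rw [decide_eq_true h1, decide_eq_false (not_lt.2 h2), decide_eq_true h3,
        decide_eq_false (not_lt.2 (shf_lt_diff h2 h1).le)]
      rfl
    · have h3 : t < s := lt_of_lt_of_le h2 h1
      rw [decide_eq_true h2, decide_eq_false (not_lt.2 h1), decide_eq_false (not_lt.2 h3.le),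
        decide_eq_true (shf_lt_diff h1 h2)]
      rfl
    · rw [decide_eq_false (not_lt.2 h1), decide_eq_false (not_lt.2 h2)]
      simp only [Bool.xor_self, Bool.xor_false]
      exact decide_eq_decide.2 (shf_lt_same1 h1 h2)
  have e : ∀ p q z : ℝ, p ≠ q → p ≠ z → q ≠ z →
      btw p q z = (decide (p < z) ^^ decide (q < z)) := by
    intro p q z h1 h2 h3
    unfold btw
    rcases lt_or_gt_of_ne h2 with a2 | a2 <;> rcases lt_or_gt_of_ne h3 with a3 | a3 <;>
    simp [a2, a3, not_lt.2 a2.le, not_lt.2 a3.le]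
  rw [e _ _ _ (fun h => hpq (shf_inj h)) (fun h => hpz (shf_inj h)) (fun h => hqz (shf_inj h)),
    e p q z hpq hpz hqz, key p z hpz, key q z hqz]
  generalize decide (p < z) = b1
  generalize decide (q < z) = b2
  generalize decide (p < c) = b3
  generalize decide (q < c) = b4
  generalize decide (z < c) = b5
  revert b1 b2 b3 b4 b5
  decide

theorem Table.Ord.shift {a : V} {ρ : V → ℝ} (h : T.Ord a ρ) (c : ℝ) :
    T.Ord a (fun x => shf c (ρ x)) := by
  refine ⟨fun x y hx hy hxy => h.1 x y hx hy (shf_inj hxy), ?_⟩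
  intro p q x y hp hq hx hy h1 h2 h3 h4 h5 h6
  have ne : ∀ s t, s ≠ a → t ≠ a → s ≠ t → ρ s ≠ ρ t := fun s t hs ht hst h7 =>
    hst (h.1 s t hs ht h7)
  rw [h.2 p q x y hp hq hx hy h1 h2 h3 h4 h5 h6,
    shf_btw (ne p q hp hq h1) (ne p x hp hx h2) (ne q x hq hx h4),
    shf_btw (ne p q hp hq h1) (ne p y hp hy h3) (ne q y hq hy h5)]
  generalize btw (ρ p) (ρ q) (ρ x) = b1
  generalize btw (ρ p) (ρ q) (ρ y) = b2
  generalize decide (ρ p < c) = b3
  generalize decide (ρ q < c) = b4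
  revert b1 b2 b3 b4
  decide

theorem bcontra {b : Bool} (h1 : b = true) (h2 : b = false) : False := by
  rw [h1] at h2
  cases h2

theorem adj_f {a u p q : V} (h : T.adj a u p q = false) :
    T.X a p u q = false ∧ T.X a q u p = false := by
  unfold Table.adj at h
  exact Bool.or_eq_false_iff.1 h

theorem adj_t {a u p q : V} (h : T.adj a u p q = true) (h1 : T.X a p u q = false)
    (h2 : T.X a q u p = false) : False := by
  unfold Table.adj at h
  rw [h1, h2] at h
  cases h

end H53P
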