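import Pool.Agent.Lib.H98S.PQ

/-! # H98S, finite facts, file PF: the finite facts of H38Q in sorted form (generated from resolution proofs) -/

set_option linter.unusedVariables false

open H53P

namespace H98Q

variable {V : Type*} {T : Table V}

theorem q_tot {u v x y c : V} (hL : T.RotL u [v, x, y, c])
    (h1 : T.X u v x c = true)
    (h2 : T.X u v y c = true)
    (fxc1 : T.X u x v c = false)
    (fxc2 : T.X u c v x = false)
    (fyc1 : T.X u y v c = false)
    (fyc2 : T.X u c v y = false)
    (h7 : T.X u x v y = false)
    (h8 : T.X u y v x = false)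
    (h9 : T.X v x y c = false)
    (h10 : T.X u x y c = false) : False := by
  have g5 := c5a_4676_64 (hL.four (.cons_cons _ (.cons_cons _ (.cons_cons _ (.cons_cons _ (List.nil_sublist _))))))
  exact g5 h8 h2 h10 h9

theorem q_al_N1_N1_xyz {u v x y z c : V} (hL : T.RotL u [v, x, y, z, c])
    (e1 : T.X u v x c = true)
    (e2 : T.X u v y c = true)
    (e3 : T.X u v z c = true)
    (fxc1 : T.X u x v c = false)
    (fxc2 : T.X u c v x = false)
    (fyc1 : T.X u y v c = false)
    (fyc2 : T.X u c v y = false)
    (fzc1 : T.X u z v c = false)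
    (fzc2 : T.X u c v z = false)
    (p0 : T.X u x v y = false)
    (p1 : T.X u y v x = false)
    (p2 : T.X v x y c = true)
    (q0 : T.X u y v z = false)
    (q1 : T.X u z v y = false)
    (q2 : T.X v y z c = true)
    (r0 : T.X u x v z = false → T.X u z v x = false → T.X v x z c = true → False) : False := by
  have g11 := c5a_4676_64 (hL.four (.cons_cons _ (.cons_cons _ (.cons _ (.cons_cons _ (.cons_cons _ (List.nil_sublist _)))))))
  have g12 := c5a_4620_4616 (hL.four (.cons_cons _ (.cons_cons _ (.cons_cons _ (.cons _ (.cons_cons _ (List.nil_sublist _)))))))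
  have g13 := c5a_402_16 (hL.four (.cons_cons _ (.cons_cons _ (.cons_cons _ (.cons_cons _ (List.nil_sublist _))))))
  have g14 := c5a_4620_4616 (hL.four (.cons_cons _ (.cons _ (.cons_cons _ (.cons_cons _ (.cons_cons _ (List.nil_sublist _)))))))
  have g15 := c5a_294_32 (hL.four (.cons_cons _ (.cons_cons _ (.cons_cons _ (.cons_cons _ (List.nil_sublist _))))))
  have g16 := c5a_5128_5128 (hL.four (.cons_cons _ (.cons _ (.cons_cons _ (.cons_cons _ (.cons_cons _ (List.nil_sublist _)))))))
  have g17 := c5a_1608_64 (hL.four (.cons _ (.cons_cons _ (.cons_cons _ (.cons_cons _ (.cons_cons _ (List.nil_sublist _)))))))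
  have s18 : T.X u z v x = false → T.X u x z c = false → T.X v x z c = false → False := fun n1 n2 n3 => by
    exact g11 n1 e3 n2 n3
  have s19 : T.X u x y c = true → False := fun n1 => by
    exact g12 p1 e1 n1 p2
  have s20 : T.X u x v z = true → False := fun n1 => by
    exact g13 p0 n1 q0 q1
  have s21 : T.X u y z c = true → False := fun n1 => by
    exact g14 q1 e2 n1 q2
  have s22 : T.X u z v x = true → False := fun n1 => by
    exact g15 p0 p1 n1 q1
  have s23 : T.X v x z c = true → False := fun n1 => by
    have u1 : T.X u z v x = false := bf (fun t => s22 t)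
    have u2 : T.X u x v z = false := bf (fun t => s20 t)
    exact r0 u2 u1 n1
  have s24 : T.X u x z c = false → False := fun n1 => by
    have u1 : T.X u z v x = false := bf (fun t => s22 t)
    have u2 : T.X v x z c = false := bf (fun t => s23 t)
    exact s18 u1 n1 u2
  have s25 : T.X u z y c = true → False := fun n1 => by
    exact g16 e2 n1 q2
  have u1 : T.X u x y c = false := bf (fun t => s19 t)
  have u2 : T.X u x z c = true := bt (fun t => s24 t)
  have u3 : T.X u y z c = false := bf (fun t => s21 t)
  have u4 : T.X u z y c = false := bf (fun t => s25 t)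
  exact g17 u1 u2 u3 u4

theorem q_al_N1_Sa_xzy {u v x z y c : V} (hL : T.RotL u [v, x, z, y, c])
    (e1 : T.X u v x c = true)
    (e2 : T.X u v y c = true)
    (e3 : T.X u v z c = true)
    (fxc1 : T.X u x v c = false)
    (fxc2 : T.X u c v x = false)
    (fyc1 : T.X u y v c = false)
    (fyc2 : T.X u c v y = false)
    (fzc1 : T.X u z v c = false)
    (fzc2 : T.X u c v z = false)
    (p0 : T.X u x v y = false)
    (p1 : T.X u y v x = false)
    (p2 : T.X v x y c = true)
    (q0 : T.X u z v y = true)
    (r0 : T.X u x v z = false → T.X u z v x = false → T.X v x z c = true → False) : False := by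
  have g9 := c5a_4620_4616 (hL.four (.cons_cons _ (.cons_cons _ (.cons _ (.cons_cons _ (.cons_cons _ (List.nil_sublist _)))))))
  have g10 := c5a_578_66 (hL.four (.cons_cons _ (.cons _ (.cons_cons _ (.cons_cons _ (.cons_cons _ (List.nil_sublist _)))))))
  have g11 := c5a_146_130 (hL.four (.cons_cons _ (.cons_cons _ (.cons_cons _ (.cons_cons _ (List.nil_sublist _))))))
  have g12 := c5a_180_132 (hL.four (.cons_cons _ (.cons_cons _ (.cons_cons _ (.cons_cons _ (List.nil_sublist _))))))
  have g13 := c5a_4676_64 (hL.four (.cons_cons _ (.cons_cons _ (.cons_cons _ (.cons _ (.cons_cons _ (List.nil_sublist _)))))))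
  have g14 := c5a_584_520 (hL.four (.cons _ (.cons_cons _ (.cons_cons _ (.cons_cons _ (.cons_cons _ (List.nil_sublist _)))))))
  have s15 : T.X u x y c = true → False := fun n1 => by
    exact g9 p1 e1 n1 p2
  have s16 : T.X u z y c = false → False := fun n1 => by
    exact g10 q0 e2 n1
  have s17 : T.X u x v z = true → False := fun n1 => by
    exact g11 n1 p0 q0
  have s18 : T.X u z v x = true → False := fun n1 => by
    exact g12 n1 p0 p1 q0
  have s19 : T.X v x z c = true → False := fun n1 => by
    have u1 : T.X u z v x = false := bf (fun t => s18 t)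
    have u2 : T.X u x v z = false := bf (fun t => s17 t)
    exact r0 u2 u1 n1
  have s20 : T.X u x z c = false → False := fun n1 => by
    have u1 : T.X u z v x = false := bf (fun t => s18 t)
    have u3 : T.X v x z c = false := bf (fun t => s19 t)
    exact g13 u1 e3 n1 u3
  have u1 : T.X u x z c = true := bt (fun t => s20 t)
  have u2 : T.X u x y c = false := bf (fun t => s15 t)
  have u3 : T.X u z y c = true := bt (fun t => s16 t)
  exact g14 u1 u2 u3

theorem q_al_N1_Sa_zxy {u v z x y c : V} (hL : T.RotL u [v, z, x, y, c])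
    (e1 : T.X u v x c = true)
    (e2 : T.X u v y c = true)
    (e3 : T.X u v z c = true)
    (fxc1 : T.X u x v c = false)
    (fxc2 : T.X u c v x = false)
    (fyc1 : T.X u y v c = false)
    (fyc2 : T.X u c v y = false)
    (fzc1 : T.X u z v c = false)
    (fzc2 : T.X u c v z = false)
    (p0 : T.X u x v y = false)
    (p1 : T.X u y v x = false)
    (p2 : T.X v x y c = true)
    (q0 : T.X u z v y = true)
    (r1 : T.X u z v x = false)
    (r2 : T.X u x v z = true → T.X u z x c = false → T.X u x z c = true → False) : False := by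
  have g5 := c5a_402_16 (hL.four (.cons_cons _ (.cons_cons _ (.cons_cons _ (.cons_cons _ (List.nil_sublist _))))))
  exact g5 r1 q0 p0 p1

theorem q_al_N1_Sb02_xzy {u v x z y c : V} (hL : T.RotL u [v, x, z, y, c])
    (e1 : T.X u v x c = true)
    (e2 : T.X u v y c = true)
    (e3 : T.X u v z c = true)
    (fxc1 : T.X u x v c = false)
    (fxc2 : T.X u c v x = false)
    (fyc1 : T.X u y v c = false)
    (fyc2 : T.X u c v y = false)
    (fzc1 : T.X u z v c = false)
    (fzc2 : T.X u c v z = false)
    (p0 : T.X u x v y = false)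
    (p1 : T.X u y v x = false)
    (p2 : T.X v x y c = true)
    (q0 : T.X u y v z = true)
    (q1 : T.X u z y c = false)
    (q2 : T.X u y z c = true)
    (r0 : T.X u x v z = false → T.X u z v x = false → T.X v x z c = true → False) : False := by
  have g9 := c5a_4620_4616 (hL.four (.cons_cons _ (.cons_cons _ (.cons _ (.cons_cons _ (.cons_cons _ (List.nil_sublist _)))))))
  have g10 := c5a_4676_64 (hL.four (.cons_cons _ (.cons_cons _ (.cons_cons _ (.cons _ (.cons_cons _ (List.nil_sublist _)))))))
  have g11 := c5a_306_258 (hL.four (.cons_cons _ (.cons_cons _ (.cons_cons _ (.cons_cons _ (List.nil_sublist _))))))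
  have g12 := c5a_292_260 (hL.four (.cons_cons _ (.cons_cons _ (.cons_cons _ (.cons_cons _ (List.nil_sublist _))))))
  have g13 := c5a_1097_1032 (hL.four (.cons _ (.cons_cons _ (.cons_cons _ (.cons_cons _ (.cons_cons _ (List.nil_sublist _)))))))
  have g14 := c5a_5128_5128 (hL.four (.cons_cons _ (.cons_cons _ (.cons _ (.cons_cons _ (.cons_cons _ (List.nil_sublist _)))))))
  have g15 := c5a_1161_1033 (hL.four (.cons _ (.cons_cons _ (.cons_cons _ (.cons_cons _ (.cons_cons _ (List.nil_sublist _)))))))
  have s16 : T.X u x y c = true → False := fun n1 => by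
    exact g9 p1 e1 n1 p2
  have s17 : T.X u z v x = false → T.X u x z c = false → T.X v x z c = false → False := fun n1 n2 n3 => by
    exact g10 n1 e3 n2 n3
  have s18 : T.X u x v z = true → False := fun n1 => by
    exact g11 n1 p0 p1 q0
  have s19 : T.X u z v x = true → False := fun n1 => by
    exact g12 n1 p1 q0
  have s20 : T.X v x z c = true → False := fun n1 => by
    have u1 : T.X u z v x = false := bf (fun t => s19 t)
    have u2 : T.X u x v z = false := bf (fun t => s18 t)
    exact r0 u2 u1 n1
  have s21 : T.X u x z c = false → False := fun n1 => by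
    have u1 : T.X u z v x = false := bf (fun t => s19 t)
    have u2 : T.X v x z c = false := bf (fun t => s20 t)
    exact s17 u1 n1 u2
  have s22 : T.X u x z y = false → False := fun n1 => by
    have u1 : T.X u x z c = true := bt (fun t => s21 t)
    have u2 : T.X u x y c = false := bf (fun t => s16 t)
    exact g13 n1 u1 u2 q2
  have s23 : T.X u y x c = true → False := fun n1 => by
    exact g14 e1 n1 p2
  have u1 : T.X u x z y = true := bt (fun t => s22 t)
  have u2 : T.X u x z c = true := bt (fun t => s21 t)
  have u3 : T.X u y x c = false := bf (fun t => s23 t)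
  exact g15 u1 u2 u3 q2

theorem q_al_N1_Sb02_zxy {u v z x y c : V} (hL : T.RotL u [v, z, x, y, c])
    (e1 : T.X u v x c = true)
    (e2 : T.X u v y c = true)
    (e3 : T.X u v z c = true)
    (fxc1 : T.X u x v c = false)
    (fxc2 : T.X u c v x = false)
    (fyc1 : T.X u y v c = false)
    (fyc2 : T.X u c v y = false)
    (fzc1 : T.X u z v c = false)
    (fzc2 : T.X u c v z = false)
    (p0 : T.X u x v y = false)
    (p1 : T.X u y v x = false)
    (p2 : T.X v x y c = true)
    (q0 : T.X u y v z = true)
    (q1 : T.X u z y c = false)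
    (q2 : T.X u y z c = true)
    (r1 : T.X u z v x = false)
    (r2 : T.X u x v z = true → T.X u z x c = false → T.X u x z c = true → False) : False := by
  have g9 := c5a_1176_128 (hL.four (.cons _ (.cons_cons _ (.cons_cons _ (.cons_cons _ (.cons_cons _ (List.nil_sublist _)))))))
  have g10 := c5a_294_32 (hL.four (.cons_cons _ (.cons_cons _ (.cons_cons _ (.cons_cons _ (List.nil_sublist _))))))
  have g11 := c5a_9224_1032 (hL.four (.cons_cons _ (.cons_cons _ (.cons _ (.cons_cons _ (.cons_cons _ (List.nil_sublist _)))))))
  have g12 := c5_648_648 (hL.five (.cons_cons _ (.cons_cons _ (.cons_cons _ (.cons_cons _ (.cons_cons _ (List.nil_sublist _)))))))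
  have g13 := c5a_5128_5128 (hL.four (.cons_cons _ (.cons _ (.cons_cons _ (.cons_cons _ (.cons_cons _ (List.nil_sublist _)))))))
  have g14 := c5a_4612_516 (hL.four (.cons_cons _ (.cons_cons _ (.cons_cons _ (.cons _ (.cons_cons _ (List.nil_sublist _)))))))
  have s15 : T.X u z x c = false → T.X u x z c = false → T.X u y x c = false → False := fun n1 n2 n3 => by
    exact g9 n1 n2 q2 n3
  have s16 : T.X u x v z = false → False := fun n1 => by
    exact g10 r1 n1 q0 p1
  have s17 : T.X v y z c = false → False := fun n1 => by
    exact g11 e3 q2 n1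
  have s18 : T.X v z x c = true → False := fun n1 => by
    have u1 : T.X v y z c = true := bt (fun t => s17 t)
    exact g12 n1 u1 p2
  have s19 : T.X u y x c = true → False := fun n1 => by
    exact g13 e1 n1 p2
  have s20 : T.X u z x c = true → False := fun n1 => by
    have u1 : T.X u x v z = true := bt (fun t => s16 t)
    have u2 : T.X v z x c = false := bf (fun t => s18 t)
    exact g14 u1 n1 u2
  have s21 : T.X u x z c = true → False := fun n1 => by
    have u1 : T.X u z x c = false := bf (fun t => s20 t)
    have u2 : T.X u x v z = true := bt (fun t => s16 t)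
    exact r2 u2 u1 n1
  have u1 : T.X u z x c = false := bf (fun t => s20 t)
  have u2 : T.X u x z c = false := bf (fun t => s21 t)
  have u3 : T.X u y x c = false := bf (fun t => s19 t)
  exact s15 u1 u2 u3

theorem q_al_Sa_N1_yxz {u v y x z c : V} (hL : T.RotL u [v, y, x, z, c])
    (e1 : T.X u v x c = true)
    (e2 : T.X u v y c = true)
    (e3 : T.X u v z c = true)
    (fxc1 : T.X u x v c = false)
    (fxc2 : T.X u c v x = false)
    (fyc1 : T.X u y v c = false)
    (fyc2 : T.X u c v y = false)
    (fzc1 : T.X u z v c = false)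
    (fzc2 : T.X u c v z = false)
    (p0 : T.X u y v x = true)
    (q0 : T.X u y v z = false)
    (q1 : T.X u z v y = false)
    (q2 : T.X v y z c = true)
    (r0 : T.X u x v z = false → T.X u z v x = false → T.X v x z c = true → False) : False := by
  have g9 := c5a_584_520 (hL.four (.cons _ (.cons_cons _ (.cons_cons _ (.cons_cons _ (.cons_cons _ (List.nil_sublist _)))))))
  have g10 := c5a_578_66 (hL.four (.cons_cons _ (.cons_cons _ (.cons_cons _ (.cons _ (.cons_cons _ (List.nil_sublist _)))))))
  have g11 := c5a_146_130 (hL.four (.cons_cons _ (.cons_cons _ (.cons_cons _ (.cons_cons _ (List.nil_sublist _))))))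
  have g12 := c5a_306_258 (hL.four (.cons_cons _ (.cons_cons _ (.cons_cons _ (.cons_cons _ (List.nil_sublist _))))))
  have g13 := c5a_4676_64 (hL.four (.cons_cons _ (.cons _ (.cons_cons _ (.cons_cons _ (.cons_cons _ (List.nil_sublist _)))))))
  have g14 := c5a_4620_4616 (hL.four (.cons_cons _ (.cons_cons _ (.cons _ (.cons_cons _ (.cons_cons _ (List.nil_sublist _)))))))
  have s15 : T.X u y x c = false → False := fun n1 => by
    exact g10 p0 e1 n1
  have s16 : T.X u x v z = true → False := fun n1 => by
    exact g11 p0 q0 n1
  have s17 : T.X u z v x = true → False := fun n1 => by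
    exact g12 p0 q0 q1 n1
  have s18 : T.X v x z c = true → False := fun n1 => by
    have u1 : T.X u z v x = false := bf (fun t => s17 t)
    have u2 : T.X u x v z = false := bf (fun t => s16 t)
    exact r0 u2 u1 n1
  have s19 : T.X u x z c = false → False := fun n1 => by
    have u1 : T.X u z v x = false := bf (fun t => s17 t)
    have u3 : T.X v x z c = false := bf (fun t => s18 t)
    exact g13 u1 e3 n1 u3
  have s20 : T.X u y z c = false → False := fun n1 => by
    have u1 : T.X u x z c = true := bt (fun t => s19 t)
    have u2 : T.X u y x c = true := bt (fun t => s15 t)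
    exact g9 u2 n1 u1
  have u3 : T.X u y z c = true := bt (fun t => s20 t)
  exact g14 q1 e2 u3 q2

theorem q_al_Sa_N1_yzx {u v y z x c : V} (hL : T.RotL u [v, y, z, x, c])
    (e1 : T.X u v x c = true)
    (e2 : T.X u v y c = true)
    (e3 : T.X u v z c = true)
    (fxc1 : T.X u x v c = false)
    (fxc2 : T.X u c v x = false)
    (fyc1 : T.X u y v c = false)
    (fyc2 : T.X u c v y = false)
    (fzc1 : T.X u z v c = false)
    (fzc2 : T.X u c v z = false)
    (p0 : T.X u y v x = true)
    (q0 : T.X u y v z = false)
    (q1 : T.X u z v y = false)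
    (q2 : T.X v y z c = true)
    (r1 : T.X u z v x = false)
    (r2 : T.X u x v z = true → T.X u z x c = false → T.X u x z c = true → False) : False := by
  have g9 := c5a_4612_516 (hL.four (.cons_cons _ (.cons _ (.cons_cons _ (.cons_cons _ (.cons_cons _ (List.nil_sublist _)))))))
  have g10 := c5a_402_16 (hL.four (.cons_cons _ (.cons_cons _ (.cons_cons _ (.cons_cons _ (List.nil_sublist _))))))
  have g11 := c5a_4620_4616 (hL.four (.cons_cons _ (.cons_cons _ (.cons_cons _ (.cons _ (.cons_cons _ (List.nil_sublist _)))))))
  have g12 := c5_648_648 (hL.five (.cons_cons _ (.cons_cons _ (.cons_cons _ (.cons_cons _ (.cons_cons _ (List.nil_sublist _)))))))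
  have g13 := c5a_578_66 (hL.four (.cons_cons _ (.cons_cons _ (.cons _ (.cons_cons _ (.cons_cons _ (List.nil_sublist _)))))))
  have g14 := c5a_8202_10 (hL.four (.cons_cons _ (.cons_cons _ (.cons _ (.cons_cons _ (.cons_cons _ (List.nil_sublist _)))))))
  have g15 := c5a_1608_64 (hL.four (.cons _ (.cons_cons _ (.cons_cons _ (.cons_cons _ (.cons_cons _ (List.nil_sublist _)))))))
  have s16 : T.X u x v z = false → False := fun n1 => by
    exact g10 q0 p0 r1 n1
  have s17 : T.X u y z c = true → False := fun n1 => by
    exact g11 q1 e2 n1 q2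
  have s18 : T.X v x y c = true → T.X v z x c = true → False := fun n1 n2 => by
    exact g12 q2 n1 n2
  have s19 : T.X u y x c = false → False := fun n1 => by
    exact g13 p0 e1 n1
  have s20 : T.X v x y c = false → False := fun n1 => by
    exact g14 p0 e2 n1
  have s21 : T.X v z x c = true → False := fun n1 => by
    have u1 : T.X v x y c = true := bt (fun t => s20 t)
    exact s18 u1 n1
  have s22 : T.X u z x c = true → False := fun n1 => by
    have u1 : T.X v z x c = false := bf (fun t => s21 t)
    have u2 : T.X u x v z = true := bt (fun t => s16 t)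
    exact g9 u2 n1 u1
  have s23 : T.X u x z c = true → False := fun n1 => by
    have u1 : T.X u z x c = false := bf (fun t => s22 t)
    have u2 : T.X u x v z = true := bt (fun t => s16 t)
    exact r2 u2 u1 n1
  have u1 : T.X u y z c = false := bf (fun t => s17 t)
  have u2 : T.X u y x c = true := bt (fun t => s19 t)
  have u3 : T.X u z x c = false := bf (fun t => s22 t)
  have u4 : T.X u x z c = false := bf (fun t => s23 t)
  exact g15 u1 u2 u3 u4

theorem q_al_Sa_Sa_zyx {u v z y x c : V} (hL : T.RotL u [v, z, y, x, c])
    (e1 : T.X u v x c = true)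
    (e2 : T.X u v y c = true)
    (e3 : T.X u v z c = true)
    (fxc1 : T.X u x v c = false)
    (fxc2 : T.X u c v x = false)
    (fyc1 : T.X u y v c = false)
    (fyc2 : T.X u c v y = false)
    (fzc1 : T.X u z v c = false)
    (fzc2 : T.X u c v z = false)
    (p0 : T.X u y v x = true)
    (q0 : T.X u z v y = true)
    (r1 : T.X u z v x = false)
    (r2 : T.X u x v z = true → T.X u z x c = false → T.X u x z c = true → False) : False := by
  have g4 := c5a_146_130 (hL.four (.cons_cons _ (.cons_cons _ (.cons_cons _ (.cons_cons _ (List.nil_sublist _))))))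
  exact g4 q0 r1 p0

theorem q_al_Sa_Sb02_zyx {u v z y x c : V} (hL : T.RotL u [v, z, y, x, c])
    (e1 : T.X u v x c = true)
    (e2 : T.X u v y c = true)
    (e3 : T.X u v z c = true)
    (fxc1 : T.X u x v c = false)
    (fxc2 : T.X u c v x = false)
    (fyc1 : T.X u y v c = false)
    (fyc2 : T.X u c v y = false)
    (fzc1 : T.X u z v c = false)
    (fzc2 : T.X u c v z = false)
    (p0 : T.X u y v x = true)
    (q0 : T.X u y v z = true)
    (q1 : T.X u z y c = false)
    (q2 : T.X u y z c = true)
    (r1 : T.X u z v x = false)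
    (r2 : T.X u x v z = true → T.X u z x c = false → T.X u x z c = true → False) : False := by
  have g9 := c5a_9224_1032 (hL.four (.cons_cons _ (.cons_cons _ (.cons_cons _ (.cons _ (.cons_cons _ (List.nil_sublist _)))))))
  have g10 := c5a_578_66 (hL.four (.cons_cons _ (.cons _ (.cons_cons _ (.cons_cons _ (.cons_cons _ (List.nil_sublist _)))))))
  have g11 := c5a_5_5 (hL.four (.cons_cons _ (.cons_cons _ (.cons_cons _ (.cons_cons _ (List.nil_sublist _))))))
  have g12 := c5a_16529_128 (hL.four (.cons_cons _ (.cons_cons _ (.cons_cons _ (.cons_cons _ (List.nil_sublist _))))))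
  have g13 := c5a_8202_10 (hL.four (.cons_cons _ (.cons _ (.cons_cons _ (.cons_cons _ (.cons_cons _ (List.nil_sublist _)))))))
  have g14 := c5a_4612_516 (hL.four (.cons_cons _ (.cons_cons _ (.cons _ (.cons_cons _ (.cons_cons _ (List.nil_sublist _)))))))
  have g15 := c5a_720_528 (hL.four (.cons _ (.cons_cons _ (.cons_cons _ (.cons_cons _ (.cons_cons _ (List.nil_sublist _)))))))
  have g16 := c5_1104_1104 (hL.five (.cons_cons _ (.cons_cons _ (.cons_cons _ (.cons_cons _ (.cons_cons _ (List.nil_sublist _)))))))
  have g17 := c5a_16420_16388 (hL.four (.cons_cons _ (.cons_cons _ (.cons_cons _ (.cons_cons _ (List.nil_sublist _))))))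
  have s18 : T.X v y z c = false → False := fun n1 => by
    exact g9 e3 q2 n1
  have s19 : T.X u y x c = false → False := fun n1 => by
    exact g10 p0 e1 n1
  have s20 : T.X u v z y = true → False := fun n1 => by
    exact g11 n1 q0
  have s21 : T.X v x z y = false → False := fun n1 => by
    have u1 : T.X u v z y = false := bf (fun t => s20 t)
    exact g12 u1 r1 p0 n1
  have s22 : T.X v x y c = false → False := fun n1 => by
    exact g13 p0 e2 n1
  have s23 : T.X u z x c = false → T.X u x z c = false → False := fun n1 n2 => by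
    have u2 : T.X u y x c = true := bt (fun t => s19 t)
    exact g15 q2 n1 n2 u2
  have s24 : T.X v z x c = true → False := fun n1 => by
    have u1 : T.X v y z c = true := bt (fun t => s18 t)
    have u2 : T.X v x y c = true := bt (fun t => s22 t)
    exact g16 u1 n1 u2
  have s25 : T.X u x v z = false → False := fun n1 => by
    have u2 : T.X v x z y = true := bt (fun t => s21 t)
    exact g17 q0 n1 u2
  have s26 : T.X u z x c = true → False := fun n1 => by
    have u1 : T.X u x v z = true := bt (fun t => s25 t)
    have u2 : T.X v z x c = false := bf (fun t => s24 t)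
    exact g14 u1 n1 u2
  have s27 : T.X u x z c = true → False := fun n1 => by
    have u1 : T.X u z x c = false := bf (fun t => s26 t)
    have u2 : T.X u x v z = true := bt (fun t => s25 t)
    exact r2 u2 u1 n1
  have u1 : T.X u z x c = false := bf (fun t => s26 t)
  have u2 : T.X u x z c = false := bf (fun t => s27 t)
  exact s23 u1 u2

theorem q_al_Sb02_N1_yxz {u v y x z c : V} (hL : T.RotL u [v, y, x, z, c])
    (e1 : T.X u v x c = true)
    (e2 : T.X u v y c = true)
    (e3 : T.X u v z c = true)
    (fxc1 : T.X u x v c = false)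
    (fxc2 : T.X u c v x = false)
    (fyc1 : T.X u y v c = false)
    (fyc2 : T.X u c v y = false)
    (fzc1 : T.X u z v c = false)
    (fzc2 : T.X u c v z = false)
    (p0 : T.X u x v y = true)
    (p1 : T.X u y x c = false)
    (p2 : T.X u x y c = true)
    (q0 : T.X u y v z = false)
    (q1 : T.X u z v y = false)
    (q2 : T.X v y z c = true)
    (r0 : T.X u x v z = false → T.X u z v x = false → T.X v x z c = true → False) : False := by
  have g9 := c5a_292_260 (hL.four (.cons_cons _ (.cons_cons _ (.cons_cons _ (.cons_cons _ (List.nil_sublist _))))))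
  have g10 := c5a_5128_5128 (hL.four (.cons_cons _ (.cons_cons _ (.cons _ (.cons_cons _ (.cons_cons _ (List.nil_sublist _)))))))
  have g11 := c5a_5_5 (hL.four (.cons_cons _ (.cons_cons _ (.cons_cons _ (.cons_cons _ (List.nil_sublist _))))))
  have g12 := c5a_4620_4616 (hL.four (.cons_cons _ (.cons_cons _ (.cons _ (.cons_cons _ (.cons_cons _ (List.nil_sublist _)))))))
  have g13 := c5a_16529_128 (hL.four (.cons_cons _ (.cons_cons _ (.cons_cons _ (.cons_cons _ (List.nil_sublist _))))))
  have g14 := c5a_16420_16388 (hL.four (.cons_cons _ (.cons_cons _ (.cons_cons _ (.cons_cons _ (List.nil_sublist _))))))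
  have g15 := c5a_4676_64 (hL.four (.cons_cons _ (.cons _ (.cons_cons _ (.cons_cons _ (.cons_cons _ (List.nil_sublist _)))))))
  have g16 := c5a_720_528 (hL.four (.cons _ (.cons_cons _ (.cons_cons _ (.cons_cons _ (.cons_cons _ (List.nil_sublist _)))))))
  have s17 : T.X u z v x = true → False := fun n1 => by
    exact g9 p0 q1 n1
  have s18 : T.X u z y c = true → False := fun n1 => by
    exact g10 e2 n1 q2
  have s19 : T.X u v y x = true → False := fun n1 => by
    exact g11 n1 p0
  have s20 : T.X u y z c = true → False := fun n1 => by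
    exact g12 q1 e2 n1 q2
  have s21 : T.X u x v z = true → T.X v z y x = false → False := fun n1 n2 => by
    have u1 : T.X u v y x = false := bf (fun t => s19 t)
    exact g13 u1 q0 n1 n2
  have s22 : T.X v z y x = true → False := fun n1 => by
    exact g14 p0 q1 n1
  have s23 : T.X u x v z = true → False := fun n1 => by
    have u1 : T.X v z y x = false := bf (fun t => s22 t)
    exact s21 n1 u1
  have s24 : T.X v x z c = true → False := fun n1 => by
    have u1 : T.X u x v z = false := bf (fun t => s23 t)
    have u2 : T.X u z v x = false := bf (fun t => s17 t)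
    exact r0 u1 u2 n1
  have s25 : T.X u x z c = false → False := fun n1 => by
    have u1 : T.X u z v x = false := bf (fun t => s17 t)
    have u3 : T.X v x z c = false := bf (fun t => s24 t)
    exact g15 u1 e3 n1 u3
  have u2 : T.X u y z c = false := bf (fun t => s20 t)
  have u3 : T.X u z y c = false := bf (fun t => s18 t)
  have u4 : T.X u x z c = true := bt (fun t => s25 t)
  exact g16 p2 u2 u3 u4

theorem q_al_Sb02_N1_yzx {u v y z x c : V} (hL : T.RotL u [v, y, z, x, c])
    (e1 : T.X u v x c = true)
    (e2 : T.X u v y c = true)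
    (e3 : T.X u v z c = true)
    (fxc1 : T.X u x v c = false)
    (fxc2 : T.X u c v x = false)
    (fyc1 : T.X u y v c = false)
    (fyc2 : T.X u c v y = false)
    (fzc1 : T.X u z v c = false)
    (fzc2 : T.X u c v z = false)
    (p0 : T.X u x v y = true)
    (p1 : T.X u y x c = false)
    (p2 : T.X u x y c = true)
    (q0 : T.X u y v z = false)
    (q1 : T.X u z v y = false)
    (q2 : T.X v y z c = true)
    (r1 : T.X u z v x = false)
    (r2 : T.X u x v z = true → T.X u z x c = false → T.X u x z c = true → False) : False := by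
  have g8 := c5a_294_32 (hL.four (.cons_cons _ (.cons_cons _ (.cons_cons _ (.cons_cons _ (List.nil_sublist _))))))
  have g9 := c5a_5128_5128 (hL.four (.cons_cons _ (.cons_cons _ (.cons_cons _ (.cons _ (.cons_cons _ (List.nil_sublist _)))))))
  have g10 := c5a_4620_4616 (hL.four (.cons_cons _ (.cons_cons _ (.cons_cons _ (.cons _ (.cons_cons _ (List.nil_sublist _)))))))
  have g11 := c5a_1176_128 (hL.four (.cons _ (.cons_cons _ (.cons_cons _ (.cons_cons _ (.cons_cons _ (List.nil_sublist _)))))))
  have g12 := c5a_642_640 (hL.four (.cons _ (.cons_cons _ (.cons_cons _ (.cons_cons _ (.cons_cons _ (List.nil_sublist _)))))))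
  have g13 := c5a_1060_1056 (hL.four (.cons_cons _ (.cons_cons _ (.cons_cons _ (.cons_cons _ (List.nil_sublist _))))))
  have s14 : T.X u x v z = false → False := fun n1 => by
    exact g8 q0 q1 p0 n1
  have s15 : T.X u z y c = true → False := fun n1 => by
    exact g9 e2 n1 q2
  have s16 : T.X u y z c = true → False := fun n1 => by
    exact g10 q1 e2 n1 q2
  have s17 : T.X u x z c = false → False := fun n1 => by
    have u1 : T.X u y z c = false := bf (fun t => s16 t)
    have u2 : T.X u z y c = false := bf (fun t => s15 t)
    exact g11 u1 u2 p2 n1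
  have s18 : T.X u z x c = false → False := fun n1 => by
    have u1 : T.X u x z c = true := bt (fun t => s17 t)
    have u2 : T.X u x v z = true := bt (fun t => s14 t)
    exact r2 u2 n1 u1
  have s19 : T.X u z y x = false → False := fun n1 => by
    have u2 : T.X u z x c = true := bt (fun t => s18 t)
    exact g12 n1 p2 u2
  have u3 : T.X u z y x = true := bt (fun t => s19 t)
  exact g13 q1 p0 u3

theorem q_al_Sb02_Sa_zyx {u v z y x c : V} (hL : T.RotL u [v, z, y, x, c])
    (e1 : T.X u v x c = true)
    (e2 : T.X u v y c = true)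
    (e3 : T.X u v z c = true)
    (fxc1 : T.X u x v c = false)
    (fxc2 : T.X u c v x = false)
    (fyc1 : T.X u y v c = false)
    (fyc2 : T.X u c v y = false)
    (fzc1 : T.X u z v c = false)
    (fzc2 : T.X u c v z = false)
    (p0 : T.X u x v y = true)
    (p1 : T.X u y x c = false)
    (p2 : T.X u x y c = true)
    (q0 : T.X u z v y = true)
    (r1 : T.X u z v x = false)
    (r2 : T.X u x v z = true → T.X u z x c = false → T.X u x z c = true → False) : False := by
  have g7 := c5a_578_66 (hL.four (.cons_cons _ (.cons_cons _ (.cons_cons _ (.cons _ (.cons_cons _ (List.nil_sublist _)))))))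
  have g8 := c5a_786_258 (hL.four (.cons_cons _ (.cons_cons _ (.cons_cons _ (.cons_cons _ (List.nil_sublist _))))))
  have g9 := c5a_306_258 (hL.four (.cons_cons _ (.cons_cons _ (.cons_cons _ (.cons_cons _ (List.nil_sublist _))))))
  have g10 := c5a_1161_1033 (hL.four (.cons _ (.cons_cons _ (.cons_cons _ (.cons_cons _ (.cons_cons _ (List.nil_sublist _)))))))
  have g11 := c5a_1089_1089 (hL.four (.cons _ (.cons_cons _ (.cons_cons _ (.cons_cons _ (.cons_cons _ (List.nil_sublist _)))))))
  have s12 : T.X u z y c = false → False := fun n1 => by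
    exact g7 q0 e2 n1
  have s13 : T.X u z y x = false → False := fun n1 => by
    exact g8 q0 r1 p0 n1
  have s14 : T.X u x v z = false → False := fun n1 => by
    exact g9 q0 r1 n1 p0
  have s15 : T.X u x z c = false → False := fun n1 => by
    have u1 : T.X u z y x = true := bt (fun t => s13 t)
    have u2 : T.X u z y c = true := bt (fun t => s12 t)
    exact g10 u1 u2 n1 p2
  have s16 : T.X u z x c = false → False := fun n1 => by
    have u1 : T.X u x z c = true := bt (fun t => s15 t)
    have u2 : T.X u x v z = true := bt (fun t => s14 t)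
    exact r2 u2 n1 u1
  have u1 : T.X u z y x = true := bt (fun t => s13 t)
  have u2 : T.X u z x c = true := bt (fun t => s16 t)
  exact g11 u1 u2 p2

theorem q_al_Sb02_Sb02_zyx {u v z y x c : V} (hL : T.RotL u [v, z, y, x, c])
    (e1 : T.X u v x c = true)
    (e2 : T.X u v y c = true)
    (e3 : T.X u v z c = true)
    (fxc1 : T.X u x v c = false)
    (fxc2 : T.X u c v x = false)
    (fyc1 : T.X u y v c = false)
    (fyc2 : T.X u c v y = false)
    (fzc1 : T.X u z v c = false)
    (fzc2 : T.X u c v z = false)
    (p0 : T.X u x v y = true)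
    (p1 : T.X u y x c = false)
    (p2 : T.X u x y c = true)
    (q0 : T.X u y v z = true)
    (q1 : T.X u z y c = false)
    (q2 : T.X u y z c = true)
    (r1 : T.X u z v x = false)
    (r2 : T.X u x v z = true → T.X u z x c = false → T.X u x z c = true → False) : False := by
  have g7 := c5a_292_260 (hL.four (.cons_cons _ (.cons_cons _ (.cons_cons _ (.cons_cons _ (List.nil_sublist _))))))
  have g8 := c5a_1168_1040 (hL.four (.cons _ (.cons_cons _ (.cons_cons _ (.cons_cons _ (.cons_cons _ (List.nil_sublist _)))))))
  have g9 := c5a_592_80 (hL.four (.cons _ (.cons_cons _ (.cons_cons _ (.cons_cons _ (.cons_cons _ (List.nil_sublist _)))))))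
  have s10 : T.X u x v z = false → False := fun n1 => by
    exact g7 q0 n1 p0
  have s11 : T.X u x z c = false → False := fun n1 => by
    exact g8 q2 n1 p2
  have s12 : T.X u z x c = false → False := fun n1 => by
    have u1 : T.X u x z c = true := bt (fun t => s11 t)
    have u2 : T.X u x v z = true := bt (fun t => s10 t)
    exact r2 u2 n1 u1
  have u2 : T.X u z x c = true := bt (fun t => s12 t)
  exact g9 q2 u2 p1

theorem q_be_N2_N2_zyx {u v z y x c : V} (hL : T.RotL u [v, z, y, x, c])
    (e1 : T.X u v x c = true)
    (e2 : T.X u v y c = true)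
    (e3 : T.X u v z c = true)
    (fxc1 : T.X u x v c = false)
    (fxc2 : T.X u c v x = false)
    (fyc1 : T.X u y v c = false)
    (fyc2 : T.X u c v y = false)
    (fzc1 : T.X u z v c = false)
    (fzc2 : T.X u c v z = false)
    (p0 : T.X u x v y = false)
    (p1 : T.X u y v x = false)
    (p2 : T.X u y x c = true)
    (q0 : T.X u y v z = false)
    (q1 : T.X u z v y = false)
    (q2 : T.X u z y c = true)
    (r0 : T.X u x v z = false → T.X u z v x = false → T.X u z x c = true → False)
    (r1 : T.X u z v x = false)
    (r2 : T.X u x v z = true → T.X u z x c = true → T.X u x z c = false → False) : False := by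
  have g8 := c5a_584_520 (hL.four (.cons _ (.cons_cons _ (.cons_cons _ (.cons_cons _ (.cons_cons _ (List.nil_sublist _)))))))
  have g9 := c5a_294_32 (hL.four (.cons_cons _ (.cons_cons _ (.cons_cons _ (.cons_cons _ (List.nil_sublist _))))))
  have s10 : T.X u z x c = false → False := fun n1 => by
    exact g8 q2 n1 p2
  have s11 : T.X u x v z = false → False := fun n1 => by
    have u1 : T.X u z x c = true := bt (fun t => s10 t)
    exact r0 n1 r1 u1
  have u3 : T.X u x v z = true := bt (fun t => s11 t)
  exact g9 q1 q0 u3 p0

theorem q_be_N2_Sa_zyx {u v z y x c : V} (hL : T.RotL u [v, z, y, x, c])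
    (e1 : T.X u v x c = true)
    (e2 : T.X u v y c = true)
    (e3 : T.X u v z c = true)
    (fxc1 : T.X u x v c = false)
    (fxc2 : T.X u c v x = false)
    (fyc1 : T.X u y v c = false)
    (fyc2 : T.X u c v y = false)
    (fzc1 : T.X u z v c = false)
    (fzc2 : T.X u c v z = false)
    (p0 : T.X u x v y = false)
    (p1 : T.X u y v x = false)
    (p2 : T.X u y x c = true)
    (q0 : T.X u z v y = true)
    (r0 : T.X u x v z = false → T.X u z v x = false → T.X u z x c = true → False)
    (r1 : T.X u z v x = false)
    (r2 : T.X u x v z = true → T.X u z x c = true → T.X u x z c = false → False) : False := by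
  have g7 := c5a_1536_1536 (hL.four (.cons_cons _ (.cons_cons _ (.cons _ (.cons_cons _ (.cons_cons _ (List.nil_sublist _)))))))
  have g8 := c5a_578_66 (hL.four (.cons_cons _ (.cons_cons _ (.cons_cons _ (.cons _ (.cons_cons _ (List.nil_sublist _)))))))
  have g9 := c5a_584_520 (hL.four (.cons _ (.cons_cons _ (.cons_cons _ (.cons_cons _ (.cons_cons _ (List.nil_sublist _)))))))
  have s10 : T.X u z y c = false → False := fun n1 => by
    exact g8 q0 e2 n1
  have s11 : T.X u z x c = false → False := fun n1 => by
    have u1 : T.X u z y c = true := bt (fun t => s10 t)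
    exact g9 u1 n1 p2
  have s12 : T.X u x v z = false → False := fun n1 => by
    have u1 : T.X u z x c = true := bt (fun t => s11 t)
    exact r0 n1 r1 u1
  have s13 : T.X u x z c = true → False := fun n1 => by
    have u1 : T.X u z x c = true := bt (fun t => s11 t)
    exact g7 u1 n1
  have u1 : T.X u x v z = true := bt (fun t => s12 t)
  have u2 : T.X u x z c = false := bf (fun t => s13 t)
  have u3 : T.X u z x c = true := bt (fun t => s11 t)
  exact r2 u1 u3 u2

theorem q_be_N2_Sb20_zyx {u v z y x c : V} (hL : T.RotL u [v, z, y, x, c])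
    (e1 : T.X u v x c = true)
    (e2 : T.X u v y c = true)
    (e3 : T.X u v z c = true)
    (fxc1 : T.X u x v c = false)
    (fxc2 : T.X u c v x = false)
    (fyc1 : T.X u y v c = false)
    (fyc2 : T.X u c v y = false)
    (fzc1 : T.X u z v c = false)
    (fzc2 : T.X u c v z = false)
    (p0 : T.X u x v y = false)
    (p1 : T.X u y v x = false)
    (p2 : T.X u y x c = true)
    (q0 : T.X u y v z = true)
    (q1 : T.X u z y c = true)
    (q2 : T.X u y z c = false)
    (r0 : T.X u x v z = false → T.X u z v x = false → T.X u z x c = true → False)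
    (r1 : T.X u z v x = false)
    (r2 : T.X u x v z = true → T.X u z x c = true → T.X u x z c = false → False) : False := by
  have g6 := c5a_584_520 (hL.four (.cons _ (.cons_cons _ (.cons_cons _ (.cons_cons _ (.cons_cons _ (List.nil_sublist _)))))))
  have g7 := c5a_1536_1536 (hL.four (.cons_cons _ (.cons_cons _ (.cons _ (.cons_cons _ (.cons_cons _ (List.nil_sublist _)))))))
  have s8 : T.X u z x c = false → False := fun n1 => by
    exact g6 q1 n1 p2
  have s9 : T.X u x v z = false → False := fun n1 => by
    have u1 : T.X u z x c = true := bt (fun t => s8 t)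
    exact r0 n1 r1 u1
  have s10 : T.X u x z c = false → False := fun n1 => by
    have u1 : T.X u x v z = true := bt (fun t => s9 t)
    have u2 : T.X u z x c = true := bt (fun t => s8 t)
    exact r2 u1 u2 n1
  have u1 : T.X u z x c = true := bt (fun t => s8 t)
  have u2 : T.X u x z c = true := bt (fun t => s10 t)
  exact g7 u1 u2

theorem q_be_Sa_N2_zyx {u v z y x c : V} (hL : T.RotL u [v, z, y, x, c])
    (e1 : T.X u v x c = true)
    (e2 : T.X u v y c = true)
    (e3 : T.X u v z c = true)
    (fxc1 : T.X u x v c = false)
    (fxc2 : T.X u c v x = false)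
    (fyc1 : T.X u y v c = false)
    (fyc2 : T.X u c v y = false)
    (fzc1 : T.X u z v c = false)
    (fzc2 : T.X u c v z = false)
    (p0 : T.X u y v x = true)
    (q0 : T.X u y v z = false)
    (q1 : T.X u z v y = false)
    (q2 : T.X u z y c = true)
    (r0 : T.X u x v z = false → T.X u z v x = false → T.X u z x c = true → False)
    (r1 : T.X u z v x = false)
    (r2 : T.X u x v z = true → T.X u z x c = true → T.X u x z c = false → False) : False := by
  have g7 := c5a_164_160 (hL.four (.cons_cons _ (.cons_cons _ (.cons_cons _ (.cons_cons _ (List.nil_sublist _))))))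
  have g8 := c5a_584_520 (hL.four (.cons _ (.cons_cons _ (.cons_cons _ (.cons_cons _ (.cons_cons _ (List.nil_sublist _)))))))
  have g9 := c5a_578_66 (hL.four (.cons_cons _ (.cons _ (.cons_cons _ (.cons_cons _ (.cons_cons _ (List.nil_sublist _)))))))
  have s10 : T.X u x v z = true → False := fun n1 => by
    exact g7 q0 n1 p0
  have s11 : T.X u z x c = true → False := fun n1 => by
    have u1 : T.X u x v z = false := bf (fun t => s10 t)
    exact r0 u1 r1 n1
  have s12 : T.X u y x c = true → False := fun n1 => by
    have u2 : T.X u z x c = false := bf (fun t => s11 t)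
    exact g8 q2 u2 n1
  have u3 : T.X u y x c = false := bf (fun t => s12 t)
  exact g9 p0 e1 u3

theorem q_be_Sa_Sa_zyx {u v z y x c : V} (hL : T.RotL u [v, z, y, x, c])
    (e1 : T.X u v x c = true)
    (e2 : T.X u v y c = true)
    (e3 : T.X u v z c = true)
    (fxc1 : T.X u x v c = false)
    (fxc2 : T.X u c v x = false)
    (fyc1 : T.X u y v c = false)
    (fyc2 : T.X u c v y = false)
    (fzc1 : T.X u z v c = false)
    (fzc2 : T.X u c v z = false)
    (p0 : T.X u y v x = true)
    (q0 : T.X u z v y = true)
    (r0 : T.X u x v z = false → T.X u z v x = false → T.X u z x c = true → False)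
    (r1 : T.X u z v x = false)
    (r2 : T.X u x v z = true → T.X u z x c = true → T.X u x z c = false → False) : False := by
  have g4 := c5a_146_130 (hL.four (.cons_cons _ (.cons_cons _ (.cons_cons _ (.cons_cons _ (List.nil_sublist _))))))
  exact g4 q0 r1 p0

theorem q_be_Sa_Sb20_zyx {u v z y x c : V} (hL : T.RotL u [v, z, y, x, c])
    (e1 : T.X u v x c = true)
    (e2 : T.X u v y c = true)
    (e3 : T.X u v z c = true)
    (fxc1 : T.X u x v c = false)
    (fxc2 : T.X u c v x = false)
    (fyc1 : T.X u y v c = false)
    (fyc2 : T.X u c v y = false)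
    (fzc1 : T.X u z v c = false)
    (fzc2 : T.X u c v z = false)
    (p0 : T.X u y v x = true)
    (q0 : T.X u y v z = true)
    (q1 : T.X u z y c = true)
    (q2 : T.X u y z c = false)
    (r0 : T.X u x v z = false → T.X u z v x = false → T.X u z x c = true → False)
    (r1 : T.X u z v x = false)
    (r2 : T.X u x v z = true → T.X u z x c = true → T.X u x z c = false → False) : False := by
  have g7 := c5a_1156_132 (hL.four (.cons_cons _ (.cons_cons _ (.cons_cons _ (.cons_cons _ (List.nil_sublist _))))))
  have g8 := c5a_138_138 (hL.four (.cons _ (.cons_cons _ (.cons_cons _ (.cons_cons _ (.cons_cons _ (List.nil_sublist _)))))))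
  have g9 := c5a_578_66 (hL.four (.cons_cons _ (.cons _ (.cons_cons _ (.cons_cons _ (.cons_cons _ (List.nil_sublist _)))))))
  have g10 := c5a_5_5 (hL.four (.cons_cons _ (.cons_cons _ (.cons_cons _ (.cons_cons _ (List.nil_sublist _))))))
  have g11 := c5a_16529_128 (hL.four (.cons_cons _ (.cons_cons _ (.cons_cons _ (.cons_cons _ (List.nil_sublist _))))))
  have g12 := c5a_584_520 (hL.four (.cons _ (.cons_cons _ (.cons_cons _ (.cons_cons _ (.cons_cons _ (List.nil_sublist _)))))))
  have g13 := c5a_16420_16388 (hL.four (.cons_cons _ (.cons_cons _ (.cons_cons _ (.cons_cons _ (List.nil_sublist _))))))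
  have s14 : T.X u y z x = false → False := fun n1 => by
    exact g7 q0 p0 n1
  have s15 : T.X u x z c = true → False := fun n1 => by
    have u1 : T.X u y z x = true := bt (fun t => s14 t)
    exact g8 u1 q1 n1
  have s16 : T.X u y x c = false → False := fun n1 => by
    exact g9 p0 e1 n1
  have s17 : T.X u v z y = true → False := fun n1 => by
    exact g10 n1 q0
  have s18 : T.X v x z y = false → False := fun n1 => by
    have u1 : T.X u v z y = false := bf (fun t => s17 t)
    exact g11 u1 r1 p0 n1
  have s19 : T.X u z x c = false → False := fun n1 => by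
    have u2 : T.X u y x c = true := bt (fun t => s16 t)
    exact g12 q1 n1 u2
  have s20 : T.X u x v z = true → False := fun n1 => by
    have u1 : T.X u z x c = true := bt (fun t => s19 t)
    have u2 : T.X u x z c = false := bf (fun t => s15 t)
    exact r2 n1 u1 u2
  have u2 : T.X u x v z = false := bf (fun t => s20 t)
  have u3 : T.X v x z y = true := bt (fun t => s18 t)
  exact g13 q0 u2 u3

theorem q_be_Sb20_N2_zyx {u v z y x c : V} (hL : T.RotL u [v, z, y, x, c])
    (e1 : T.X u v x c = true)
    (e2 : T.X u v y c = true)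
    (e3 : T.X u v z c = true)
    (fxc1 : T.X u x v c = false)
    (fxc2 : T.X u c v x = false)
    (fyc1 : T.X u y v c = false)
    (fyc2 : T.X u c v y = false)
    (fzc1 : T.X u z v c = false)
    (fzc2 : T.X u c v z = false)
    (p0 : T.X u x v y = true)
    (p1 : T.X u y x c = true)
    (p2 : T.X u x y c = false)
    (q0 : T.X u y v z = false)
    (q1 : T.X u z v y = false)
    (q2 : T.X u z y c = true)
    (r0 : T.X u x v z = false → T.X u z v x = false → T.X u z x c = true → False)
    (r1 : T.X u z v x = false)
    (r2 : T.X u x v z = true → T.X u z x c = true → T.X u x z c = false → False) : False := by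
  have g6 := c5a_584_520 (hL.four (.cons _ (.cons_cons _ (.cons_cons _ (.cons_cons _ (.cons_cons _ (List.nil_sublist _)))))))
  have g7 := c5a_1536_1536 (hL.four (.cons_cons _ (.cons_cons _ (.cons _ (.cons_cons _ (.cons_cons _ (List.nil_sublist _)))))))
  have s8 : T.X u z x c = false → False := fun n1 => by
    exact g6 q2 n1 p1
  have s9 : T.X u x v z = false → False := fun n1 => by
    have u1 : T.X u z x c = true := bt (fun t => s8 t)
    exact r0 n1 r1 u1
  have s10 : T.X u x z c = false → False := fun n1 => by
    have u1 : T.X u x v z = true := bt (fun t => s9 t)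
    have u2 : T.X u z x c = true := bt (fun t => s8 t)
    exact r2 u1 u2 n1
  have u1 : T.X u z x c = true := bt (fun t => s8 t)
  have u2 : T.X u x z c = true := bt (fun t => s10 t)
  exact g7 u1 u2

theorem q_be_Sb20_Sa_zyx {u v z y x c : V} (hL : T.RotL u [v, z, y, x, c])
    (e1 : T.X u v x c = true)
    (e2 : T.X u v y c = true)
    (e3 : T.X u v z c = true)
    (fxc1 : T.X u x v c = false)
    (fxc2 : T.X u c v x = false)
    (fyc1 : T.X u y v c = false)
    (fyc2 : T.X u c v y = false)
    (fzc1 : T.X u z v c = false)
    (fzc2 : T.X u c v z = false)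
    (p0 : T.X u x v y = true)
    (p1 : T.X u y x c = true)
    (p2 : T.X u x y c = false)
    (q0 : T.X u z v y = true)
    (r0 : T.X u x v z = false → T.X u z v x = false → T.X u z x c = true → False)
    (r1 : T.X u z v x = false)
    (r2 : T.X u x v z = true → T.X u z x c = true → T.X u x z c = false → False) : False := by
  have g6 := c5a_306_258 (hL.four (.cons_cons _ (.cons_cons _ (.cons_cons _ (.cons_cons _ (List.nil_sublist _))))))
  have g7 := c5a_786_258 (hL.four (.cons_cons _ (.cons_cons _ (.cons_cons _ (.cons_cons _ (List.nil_sublist _))))))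
  have g8 := c5a_577_513 (hL.four (.cons _ (.cons_cons _ (.cons_cons _ (.cons_cons _ (.cons_cons _ (List.nil_sublist _)))))))
  have g9 := c5a_192_192 (hL.four (.cons _ (.cons_cons _ (.cons_cons _ (.cons_cons _ (.cons_cons _ (List.nil_sublist _)))))))
  have s10 : T.X u x v z = false → False := fun n1 => by
    exact g6 q0 r1 n1 p0
  have s11 : T.X u z y x = false → False := fun n1 => by
    exact g7 q0 r1 p0 n1
  have s12 : T.X u z x c = false → False := fun n1 => by
    have u1 : T.X u z y x = true := bt (fun t => s11 t)
    exact g8 u1 n1 p1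
  have s13 : T.X u x z c = false → False := fun n1 => by
    have u1 : T.X u z x c = true := bt (fun t => s12 t)
    have u2 : T.X u x v z = true := bt (fun t => s10 t)
    exact r2 u2 u1 n1
  have u1 : T.X u z x c = true := bt (fun t => s12 t)
  have u2 : T.X u x z c = true := bt (fun t => s13 t)
  exact g9 u1 u2

theorem q_be_Sb20_Sb20_zyx {u v z y x c : V} (hL : T.RotL u [v, z, y, x, c])
    (e1 : T.X u v x c = true)
    (e2 : T.X u v y c = true)
    (e3 : T.X u v z c = true)
    (fxc1 : T.X u x v c = false)
    (fxc2 : T.X u c v x = false)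
    (fyc1 : T.X u y v c = false)
    (fyc2 : T.X u c v y = false)
    (fzc1 : T.X u z v c = false)
    (fzc2 : T.X u c v z = false)
    (p0 : T.X u x v y = true)
    (p1 : T.X u y x c = true)
    (p2 : T.X u x y c = false)
    (q0 : T.X u y v z = true)
    (q1 : T.X u z y c = true)
    (q2 : T.X u y z c = false)
    (r0 : T.X u x v z = false → T.X u z v x = false → T.X u z x c = true → False)
    (r1 : T.X u z v x = false)
    (r2 : T.X u x v z = true → T.X u z x c = true → T.X u x z c = false → False) : False := by
  have g6 := c5a_292_260 (hL.four (.cons_cons _ (.cons_cons _ (.cons_cons _ (.cons_cons _ (List.nil_sublist _))))))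
  have g7 := c5a_584_520 (hL.four (.cons _ (.cons_cons _ (.cons_cons _ (.cons_cons _ (.cons_cons _ (List.nil_sublist _)))))))
  have g8 := c5a_192_192 (hL.four (.cons _ (.cons_cons _ (.cons_cons _ (.cons_cons _ (.cons_cons _ (List.nil_sublist _)))))))
  have s9 : T.X u x v z = false → False := fun n1 => by
    exact g6 q0 n1 p0
  have s10 : T.X u z x c = false → False := fun n1 => by
    exact g7 q1 n1 p1
  have s11 : T.X u x z c = false → False := fun n1 => by
    have u1 : T.X u z x c = true := bt (fun t => s10 t)
    have u2 : T.X u x v z = true := bt (fun t => s9 t)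
    exact r2 u2 u1 n1
  have u1 : T.X u z x c = true := bt (fun t => s10 t)
  have u2 : T.X u x z c = true := bt (fun t => s11 t)
  exact g8 u1 u2

theorem q_ga_Sb0_Sb0_xyz {u v x y z c : V} (hL : T.RotL u [v, x, y, z, c])
    (e1 : T.X u v x c = true)
    (e2 : T.X u v y c = true)
    (e3 : T.X u v z c = true)
    (fxc1 : T.X u x v c = false)
    (fxc2 : T.X u c v x = false)
    (fyc1 : T.X u y v c = false)
    (fyc2 : T.X u c v y = false)
    (fzc1 : T.X u z v c = false)
    (fzc2 : T.X u c v z = false)
    (p0 : T.X u y v x = true)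
    (p1 : T.X u y x c = false)
    (p2 : T.X u x y c = false)
    (q0 : T.X u z v y = true)
    (q1 : T.X u z y c = false)
    (q2 : T.X u y z c = false)
    (r0 : T.X u z v x = true → T.X u z x c = false → T.X u x z c = false → False) : False := by
  have g8 := c5a_292_260 (hL.four (.cons_cons _ (.cons_cons _ (.cons_cons _ (.cons_cons _ (List.nil_sublist _))))))
  have g9 := c5a_1608_64 (hL.four (.cons _ (.cons_cons _ (.cons_cons _ (.cons_cons _ (.cons_cons _ (List.nil_sublist _)))))))
  have g10 := c5a_1176_128 (hL.four (.cons _ (.cons_cons _ (.cons_cons _ (.cons_cons _ (.cons_cons _ (List.nil_sublist _)))))))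
  have s11 : T.X u z v x = false → False := fun n1 => by
    exact g8 p0 n1 q0
  have s12 : T.X u x z c = true → False := fun n1 => by
    exact g9 p2 n1 q2 q1
  have s13 : T.X u z x c = false → False := fun n1 => by
    have u1 : T.X u x z c = false := bf (fun t => s12 t)
    have u2 : T.X u z v x = true := bt (fun t => s11 t)
    exact r0 u2 n1 u1
  have u3 : T.X u z x c = true := bt (fun t => s13 t)
  exact g10 p2 p1 u3 q1

theorem q_sep_ab {u v x a b : V} (hL : T.RotL u [v, x, a, b])
    (hS : T.OkS1 u v x a b)
    (e1 : T.X u v x a = true)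
    (e2 : T.X u v x b = true)
    (fxa1 : T.X u x v a = false)
    (fxa2 : T.X u a v x = false)
    (fxb1 : T.X u x v b = false)
    (fxb2 : T.X u b v x = false) : False := by
  have g3 := cS1_73_9 hS
  have g4 := c5a_8257_8257 (hL.four (.cons_cons _ (.cons_cons _ (.cons_cons _ (.cons_cons _ (List.nil_sublist _))))))
  have g5 := cS1_9225_9 hS
  have g6 := c5a_1089_1089 (hL.four (.cons_cons _ (.cons_cons _ (.cons_cons _ (.cons_cons _ (List.nil_sublist _))))))
  have s7 : T.X u v a b = false → False := fun n1 => by
    exact g3 e1 e2 n1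
  have s8 : T.X v a x b = true → False := fun n1 => by
    have u2 : T.X u v a b = true := bt (fun t => s7 t)
    exact g4 e1 u2 n1
  have s9 : T.X u a x b = false → False := fun n1 => by
    have u3 : T.X v a x b = false := bf (fun t => s8 t)
    exact g5 e1 e2 n1 u3
  have u2 : T.X u v a b = true := bt (fun t => s7 t)
  have u3 : T.X u a x b = true := bt (fun t => s9 t)
  exact g6 e1 u2 u3

theorem q_m1_ab {u v y x a b : V} (hL : T.RotL u [v, y, x, a, b])
    (hS : T.OkS2 u v x a b)
    (e1 : T.X u v x a = true)
    (e2 : T.X u v x b = true)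
    (fxa1 : T.X u x v a = false)
    (fxa2 : T.X u a v x = false)
    (fxb1 : T.X u x v b = false)
    (fxb2 : T.X u b v x = false)
    (fya1 : T.X u y v a = false)
    (fya2 : T.X u a v y = false)
    (fyb1 : T.X u y v b = false)
    (fyb2 : T.X u b v y = false)
    (a1 : T.X u x v y = false)
    (a2 : T.X u y v x = false)
    (h1 : T.X u y x b = true)
    (h2 : T.X u y x a = false) : False := by
  have g6 := c5a_2057_2056 (hL.four (.cons _ (.cons_cons _ (.cons_cons _ (.cons_cons _ (.cons_cons _ (List.nil_sublist _)))))))
  have g7 := cS2_18433_16385 hS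
  have g8 := c5a_2305_257 (hL.four (.cons_cons _ (.cons _ (.cons_cons _ (.cons_cons _ (.cons_cons _ (List.nil_sublist _)))))))
  have g9 := c5a_18497_65 (hL.four (.cons_cons _ (.cons _ (.cons_cons _ (.cons_cons _ (.cons_cons _ (List.nil_sublist _)))))))
  have g10 := c5a_1097_1032 (hL.four (.cons _ (.cons_cons _ (.cons_cons _ (.cons_cons _ (.cons_cons _ (List.nil_sublist _)))))))
  have g11 := c5a_834_512 (hL.four (.cons_cons _ (.cons_cons _ (.cons _ (.cons_cons _ (.cons_cons _ (List.nil_sublist _)))))))
  have g12 := c5a_9481_8201 (hL.four (.cons_cons _ (.cons _ (.cons_cons _ (.cons_cons _ (.cons_cons _ (List.nil_sublist _)))))))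
  have g13 := cS2_10505_9 hS
  have s14 : T.X u b x a = true → False := fun n1 => by
    exact g6 h2 h1 n1
  have s15 : T.X v b x a = true → False := fun n1 => by
    have u2 : T.X u b x a = false := bf (fun t => s14 t)
    exact g7 e1 u2 n1
  have s16 : T.X u b v a = true → False := fun n1 => by
    have u2 : T.X u b x a = false := bf (fun t => s14 t)
    exact g8 e1 n1 u2
  have s17 : T.X u v a b = true → False := fun n1 => by
    have u2 : T.X u b x a = false := bf (fun t => s14 t)
    have u3 : T.X v b x a = false := bf (fun t => s15 t)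
    exact g9 e1 n1 u2 u3
  have s18 : T.X u y a b = false → T.X u a x b = true → False := fun n1 n2 => by
    exact g10 h2 h1 n1 n2
  have s19 : T.X u y a b = true → False := fun n1 => by
    have u2 : T.X u v a b = false := bf (fun t => s17 t)
    have u3 : T.X u b v a = false := bf (fun t => s16 t)
    exact g11 fya1 u2 u3 n1
  have s20 : T.X u a x b = true → False := fun n1 => by
    have u1 : T.X u y a b = false := bf (fun t => s19 t)
    exact s18 u1 n1
  have s21 : T.X v a x b = true → False := fun n1 => by
    have u3 : T.X u b v a = false := bf (fun t => s16 t)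
    have u4 : T.X u a x b = false := bf (fun t => s20 t)
    exact g12 e1 e2 u3 u4 n1
  have u3 : T.X u b v a = false := bf (fun t => s16 t)
  have u4 : T.X u b x a = false := bf (fun t => s14 t)
  have u5 : T.X v a x b = false := bf (fun t => s21 t)
  exact g13 e1 e2 u3 u4 u5

theorem q_m1p_ab {u v y x a b : V} (hL : T.RotL u [v, y, x, a, b])
    (hS : T.OkS2 u v x a b)
    (e1 : T.X u v x a = true)
    (e2 : T.X u v x b = true)
    (fxa1 : T.X u x v a = false)
    (fxa2 : T.X u a v x = false)
    (fxb1 : T.X u x v b = false)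
    (fxb2 : T.X u b v x = false)
    (fya1 : T.X u y v a = false)
    (fya2 : T.X u a v y = false)
    (fyb1 : T.X u y v b = false)
    (fyb2 : T.X u b v y = false)
    (a1 : T.X u x v y = false)
    (a2 : T.X u y v x = false)
    (h1 : T.X v y x a = true)
    (h2 : T.X v y x b = false) : False := by
  have g8 := c5a_4678_4672 (hL.four (.cons_cons _ (.cons_cons _ (.cons_cons _ (.cons_cons _ (List.nil_sublist _))))))
  have g9 := c5a_2057_2056 (hL.four (.cons _ (.cons_cons _ (.cons_cons _ (.cons_cons _ (.cons_cons _ (List.nil_sublist _)))))))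
  have g10 := c5a_1097_1032 (hL.four (.cons _ (.cons_cons _ (.cons_cons _ (.cons_cons _ (.cons_cons _ (List.nil_sublist _)))))))
  have g11 := c5a_4676_64 (hL.four (.cons_cons _ (.cons_cons _ (.cons_cons _ (.cons _ (.cons_cons _ (List.nil_sublist _)))))))
  have g12 := c5a_2305_257 (hL.four (.cons_cons _ (.cons _ (.cons_cons _ (.cons_cons _ (.cons_cons _ (List.nil_sublist _)))))))
  have g13 := c5a_9481_8201 (hL.four (.cons_cons _ (.cons _ (.cons_cons _ (.cons_cons _ (.cons_cons _ (List.nil_sublist _)))))))
  have g14 := cS2_10505_9 hS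
  have g15 := c5a_834_512 (hL.four (.cons_cons _ (.cons_cons _ (.cons _ (.cons_cons _ (.cons_cons _ (List.nil_sublist _)))))))
  have g16 := cS2_18433_16385 hS
  have g17 := c5a_18497_65 (hL.four (.cons_cons _ (.cons _ (.cons_cons _ (.cons_cons _ (.cons_cons _ (List.nil_sublist _)))))))
  have s18 : T.X u y x a = true → False := fun n1 => by
    exact g8 a2 a1 e1 n1 h1
  have s19 : T.X u y x b = true → T.X u b x a = true → False := fun n1 n2 => by
    have u1 : T.X u y x a = false := bf (fun t => s18 t)
    exact g9 u1 n1 n2
  have s20 : T.X u y x b = true → T.X u y a b = false → T.X u a x b = true → False := fun n1 n2 n3 => by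
    have u1 : T.X u y x a = false := bf (fun t => s18 t)
    exact g10 u1 n1 n2 n3
  have s21 : T.X u y x b = false → False := fun n1 => by
    exact g11 a1 e2 n1 h2
  have s22 : T.X u b x a = true → False := fun n1 => by
    have u1 : T.X u y x b = true := bt (fun t => s21 t)
    exact s19 u1 n1
  have s23 : T.X u b v a = true → False := fun n1 => by
    have u2 : T.X u b x a = false := bf (fun t => s22 t)
    exact g12 e1 n1 u2
  have s24 : T.X u a x b = false → T.X v a x b = true → False := fun n1 n2 => by
    have u3 : T.X u b v a = false := bf (fun t => s23 t)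
    exact g13 e1 e2 u3 n1 n2
  have s25 : T.X v a x b = false → False := fun n1 => by
    have u3 : T.X u b v a = false := bf (fun t => s23 t)
    have u4 : T.X u b x a = false := bf (fun t => s22 t)
    exact g14 e1 e2 u3 u4 n1
  have s26 : T.X u a x b = false → False := fun n1 => by
    have u1 : T.X v a x b = true := bt (fun t => s25 t)
    exact s24 n1 u1
  have s27 : T.X u y a b = false → False := fun n1 => by
    have u1 : T.X u a x b = true := bt (fun t => s26 t)
    have u2 : T.X u y x b = true := bt (fun t => s21 t)
    exact s20 u2 n1 u1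
  have s28 : T.X u v a b = false → False := fun n1 => by
    have u2 : T.X u b v a = false := bf (fun t => s23 t)
    have u3 : T.X u y a b = true := bt (fun t => s27 t)
    exact g15 fya1 n1 u2 u3
  have s29 : T.X v b x a = true → False := fun n1 => by
    have u2 : T.X u b x a = false := bf (fun t => s22 t)
    exact g16 e1 u2 n1
  have u2 : T.X u v a b = true := bt (fun t => s28 t)
  have u3 : T.X u b x a = false := bf (fun t => s22 t)
  have u4 : T.X v b x a = false := bf (fun t => s29 t)
  exact g17 e1 u2 u3 u4

theorem q_m2_ab {u v x y a b : V} (hL : T.RotL u [v, x, y, a, b])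
    (hS : T.OkS2 u v x a b)
    (e1 : T.X u v x a = true)
    (e2 : T.X u v x b = true)
    (fxa1 : T.X u x v a = false)
    (fxa2 : T.X u a v x = false)
    (fxb1 : T.X u x v b = false)
    (fxb2 : T.X u b v x = false)
    (fya1 : T.X u y v a = false)
    (fya2 : T.X u a v y = false)
    (fyb1 : T.X u y v b = false)
    (fyb2 : T.X u b v y = false)
    (a1 : T.X u y v x = true)
    (h1 : T.X u y x a = true)
    (h2 : T.X u y x b = false) : False := by
  have g6 := c5a_5_5 (hL.four (.cons_cons _ (.cons_cons _ (.cons_cons _ (.cons_cons _ (List.nil_sublist _))))))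
  have g7 := c5a_18561_1 (hL.four (.cons_cons _ (.cons_cons _ (.cons _ (.cons_cons _ (.cons_cons _ (List.nil_sublist _)))))))
  have g8 := c5a_306_258 (hL.four (.cons _ (.cons_cons _ (.cons_cons _ (.cons_cons _ (.cons_cons _ (List.nil_sublist _)))))))
  have g9 := c5a_2057_2056 (hL.four (.cons_cons _ (.cons_cons _ (.cons_cons _ (.cons _ (.cons_cons _ (List.nil_sublist _)))))))
  have g10 := c5a_146_130 (hL.four (.cons _ (.cons_cons _ (.cons_cons _ (.cons_cons _ (.cons_cons _ (List.nil_sublist _)))))))
  have g11 := cS2_18433_16385 hS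
  have g12 := cS2_3201_129 hS
  have s13 : T.X u v x y = true → False := fun n1 => by
    exact g6 n1 a1
  have s14 : T.X u a v b = false → T.X u b x a = false → T.X v b x a = false → False := fun n1 n2 n3 => by
    exact g7 e1 n1 n2 n3
  have s15 : T.X u b x y = false → T.X u b x a = true → False := fun n1 n2 => by
    exact g8 h1 h2 n1 n2
  have s16 : T.X u b x y = true → False := fun n1 => by
    have u1 : T.X u v x y = false := bf (fun t => s13 t)
    exact g9 u1 e2 n1
  have s17 : T.X u b x a = true → False := fun n1 => by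
    have u1 : T.X u b x y = false := bf (fun t => s16 t)
    exact s15 u1 n1
  have s18 : T.X u a x b = true → False := fun n1 => by
    exact g10 h1 h2 n1
  have s19 : T.X v b x a = true → False := fun n1 => by
    have u2 : T.X u b x a = false := bf (fun t => s17 t)
    exact g11 e1 u2 n1
  have s20 : T.X u a v b = false → False := fun n1 => by
    have u1 : T.X v b x a = false := bf (fun t => s19 t)
    have u2 : T.X u b x a = false := bf (fun t => s17 t)
    exact s14 n1 u2 u1
  have u2 : T.X u a v b = true := bt (fun t => s20 t)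
  have u3 : T.X u a x b = false := bf (fun t => s18 t)
  have u4 : T.X u b x a = false := bf (fun t => s17 t)
  exact g12 e1 u2 u3 u4

theorem q_m3_ab {u v y x a b : V} (hL : T.RotL u [v, y, x, a, b])
    (hS : T.OkS2 u v x a b)
    (e1 : T.X u v x a = true)
    (e2 : T.X u v x b = true)
    (fxa1 : T.X u x v a = false)
    (fxa2 : T.X u a v x = false)
    (fxb1 : T.X u x v b = false)
    (fxb2 : T.X u b v x = false)
    (fya1 : T.X u y v a = false)
    (fya2 : T.X u a v y = false)
    (fyb1 : T.X u y v b = false)
    (fyb2 : T.X u b v y = false)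
    (a1 : T.X u x v y = true)
    (h1 : T.X u y x b = true)
    (h2 : T.X u y x a = false) : False := by
  have g6 := c5a_2057_2056 (hL.four (.cons _ (.cons_cons _ (.cons_cons _ (.cons_cons _ (.cons_cons _ (List.nil_sublist _)))))))
  have g7 := c5a_2305_257 (hL.four (.cons_cons _ (.cons _ (.cons_cons _ (.cons_cons _ (.cons_cons _ (List.nil_sublist _)))))))
  have g8 := c5a_5_5 (hL.four (.cons_cons _ (.cons_cons _ (.cons_cons _ (.cons_cons _ (List.nil_sublist _))))))
  have g9 := c5a_2113_2112 (hL.four (.cons_cons _ (.cons_cons _ (.cons_cons _ (.cons_cons _ (List.nil_sublist _))))))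
  have g10 := cS2_10505_9 hS
  have g11 := c5a_9481_8201 (hL.four (.cons_cons _ (.cons _ (.cons_cons _ (.cons_cons _ (.cons_cons _ (List.nil_sublist _)))))))
  have g12 := c5a_1037_1032 (hL.four (.cons _ (.cons_cons _ (.cons_cons _ (.cons_cons _ (.cons_cons _ (List.nil_sublist _)))))))
  have s13 : T.X u b x a = true → False := fun n1 => by
    exact g6 h2 h1 n1
  have s14 : T.X u b v a = true → False := fun n1 => by
    have u2 : T.X u b x a = false := bf (fun t => s13 t)
    exact g7 e1 n1 u2
  have s15 : T.X u v y x = true → False := fun n1 => by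
    exact g8 n1 a1
  have s16 : T.X u a y x = true → False := fun n1 => by
    have u1 : T.X u v y x = false := bf (fun t => s15 t)
    exact g9 u1 e1 n1
  have s17 : T.X v a x b = false → False := fun n1 => by
    have u3 : T.X u b v a = false := bf (fun t => s14 t)
    have u4 : T.X u b x a = false := bf (fun t => s13 t)
    exact g10 e1 e2 u3 u4 n1
  have s18 : T.X u a x b = false → False := fun n1 => by
    have u3 : T.X u b v a = false := bf (fun t => s14 t)
    have u4 : T.X v a x b = true := bt (fun t => s17 t)
    exact g11 e1 e2 u3 n1 u4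
  have u2 : T.X u a y x = false := bf (fun t => s16 t)
  have u4 : T.X u a x b = true := bt (fun t => s18 t)
  exact g12 h2 u2 h1 u4

theorem q_sep_ba {u v x b a : V} (hL : T.RotL u [v, x, b, a])
    (hS : T.OkS1 u v x b a)
    (e1 : T.X u v x a = true)
    (e2 : T.X u v x b = true)
    (fxa1 : T.X u x v a = false)
    (fxa2 : T.X u a v x = false)
    (fxb1 : T.X u x v b = false)
    (fxb2 : T.X u b v x = false) : False := by
  have g3 := cS1_73_9 hS
  have g4 := c5a_8257_8257 (hL.four (.cons_cons _ (.cons_cons _ (.cons_cons _ (.cons_cons _ (List.nil_sublist _))))))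
  have g5 := cS1_9225_9 hS
  have g6 := c5a_1089_1089 (hL.four (.cons_cons _ (.cons_cons _ (.cons_cons _ (.cons_cons _ (List.nil_sublist _))))))
  have s7 : T.X u v b a = false → False := fun n1 => by
    exact g3 e2 e1 n1
  have s8 : T.X v b x a = true → False := fun n1 => by
    have u2 : T.X u v b a = true := bt (fun t => s7 t)
    exact g4 e2 u2 n1
  have s9 : T.X u b x a = false → False := fun n1 => by
    have u3 : T.X v b x a = false := bf (fun t => s8 t)
    exact g5 e2 e1 n1 u3
  have u2 : T.X u v b a = true := bt (fun t => s7 t)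
  have u3 : T.X u b x a = true := bt (fun t => s9 t)
  exact g6 e2 u2 u3

theorem q_m1_ba {u v y x b a : V} (hL : T.RotL u [v, y, x, b, a])
    (hS : T.OkS3 u v x b a)
    (e1 : T.X u v x a = true)
    (e2 : T.X u v x b = true)
    (fxa1 : T.X u x v a = false)
    (fxa2 : T.X u a v x = false)
    (fxb1 : T.X u x v b = false)
    (fxb2 : T.X u b v x = false)
    (fya1 : T.X u y v a = false)
    (fya2 : T.X u a v y = false)
    (fyb1 : T.X u y v b = false)
    (fyb2 : T.X u b v y = false)
    (a1 : T.X u x v y = false)
    (a2 : T.X u y v x = false)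
    (h1 : T.X u y x b = true)
    (h2 : T.X u y x a = false) : False := by
  have g5 := c5a_18568_18440 (hL.four (.cons_cons _ (.cons _ (.cons_cons _ (.cons_cons _ (.cons_cons _ (List.nil_sublist _)))))))
  have g6 := c5a_18561_1 (hL.four (.cons_cons _ (.cons _ (.cons_cons _ (.cons_cons _ (.cons_cons _ (List.nil_sublist _)))))))
  have g7 := c5a_17416_17416 (hL.four (.cons_cons _ (.cons _ (.cons_cons _ (.cons_cons _ (.cons_cons _ (List.nil_sublist _)))))))
  have g8 := cS3_18433_2049 hS
  have g9 := c5a_3081_1 (hL.four (.cons _ (.cons_cons _ (.cons_cons _ (.cons_cons _ (.cons_cons _ (List.nil_sublist _)))))))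
  have g10 := cS3_17544_16520 hS
  have g11 := cS3_17537_1153 hS
  have s12 : T.X u b v a = false → T.X u a x b = true → T.X v a x b = true → False := fun n1 n2 n3 => by
    exact g5 e1 n1 n2 n3
  have s13 : T.X u b v a = false → T.X u a x b = false → T.X v a x b = false → False := fun n1 n2 n3 => by
    exact g6 e2 n1 n2 n3
  have s14 : T.X u b x a = true → T.X v a x b = true → False := fun n1 n2 => by
    exact g7 e1 n1 n2
  have s15 : T.X u a x b = true → T.X v a x b = false → False := fun n1 n2 => by
    exact g8 e2 n1 n2
  have s16 : T.X u b x a = false → T.X u a x b = false → False := fun n1 n2 => by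
    exact g9 h1 h2 n1 n2
  have s17 : T.X u b v a = true → T.X u b x a = false → T.X v a x b = true → False := fun n1 n2 n3 => by
    exact g10 e1 n1 n2 n3
  have s18 : T.X u b v a = true → T.X u b x a = true → T.X v a x b = false → False := fun n1 n2 n3 => by
    exact g11 e2 n1 n2 n3
  have s19 : T.X v a x b = true → False := fun n1 => by
    have u1 : T.X u b x a = false := bf (fun t => s14 t n1)
    have u2 : T.X u a x b = true := bt (fun t => s16 u1 t)
    have u3 : T.X u b v a = false := bf (fun t => s17 t u1 n1)
    exact s12 u3 u2 n1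
  have s20 : T.X u a x b = true → False := fun n1 => by
    have u1 : T.X v a x b = false := bf (fun t => s19 t)
    exact s15 n1 u1
  have s21 : T.X u b v a = false → False := fun n1 => by
    have u1 : T.X v a x b = false := bf (fun t => s19 t)
    have u2 : T.X u a x b = false := bf (fun t => s20 t)
    exact s13 n1 u2 u1
  have s22 : T.X u b x a = false → False := fun n1 => by
    have u1 : T.X u a x b = false := bf (fun t => s20 t)
    exact s16 n1 u1
  have u1 : T.X u b v a = true := bt (fun t => s21 t)
  have u2 : T.X u b x a = true := bt (fun t => s22 t)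
  have u3 : T.X v a x b = false := bf (fun t => s19 t)
  exact s18 u1 u2 u3

theorem q_m1p_ba {u v y x b a : V} (hL : T.RotL u [v, y, x, b, a])
    (hS : T.OkS3 u v x b a)
    (e1 : T.X u v x a = true)
    (e2 : T.X u v x b = true)
    (fxa1 : T.X u x v a = false)
    (fxa2 : T.X u a v x = false)
    (fxb1 : T.X u x v b = false)
    (fxb2 : T.X u b v x = false)
    (fya1 : T.X u y v a = false)
    (fya2 : T.X u a v y = false)
    (fyb1 : T.X u y v b = false)
    (fyb2 : T.X u b v y = false)
    (a1 : T.X u x v y = false)
    (a2 : T.X u y v x = false)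
    (h1 : T.X v y x a = true)
    (h2 : T.X v y x b = false) : False := by
  have g7 := c5a_18561_1 (hL.four (.cons_cons _ (.cons _ (.cons_cons _ (.cons_cons _ (.cons_cons _ (List.nil_sublist _)))))))
  have g8 := c5a_4678_4672 (hL.four (.cons_cons _ (.cons_cons _ (.cons_cons _ (.cons _ (.cons_cons _ (List.nil_sublist _)))))))
  have g9 := c5a_4676_64 (hL.four (.cons_cons _ (.cons_cons _ (.cons_cons _ (.cons_cons _ (List.nil_sublist _))))))
  have g10 := cS3_18433_2049 hS
  have g11 := c5a_18568_18440 (hL.four (.cons_cons _ (.cons _ (.cons_cons _ (.cons_cons _ (.cons_cons _ (List.nil_sublist _)))))))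
  have g12 := c5a_3081_1 (hL.four (.cons _ (.cons_cons _ (.cons_cons _ (.cons_cons _ (.cons_cons _ (List.nil_sublist _)))))))
  have g13 := c5a_17416_17416 (hL.four (.cons_cons _ (.cons _ (.cons_cons _ (.cons_cons _ (.cons_cons _ (List.nil_sublist _)))))))
  have g14 := cS3_17537_1153 hS
  have g15 := cS3_17544_16520 hS
  have s16 : T.X u b v a = false → T.X u a x b = false → T.X v a x b = false → False := fun n1 n2 n3 => by
    exact g7 e2 n1 n2 n3
  have s17 : T.X u y x a = true → False := fun n1 => by
    exact g8 a2 a1 e1 n1 h1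
  have s18 : T.X u y x b = false → False := fun n1 => by
    exact g9 a1 e2 n1 h2
  have s19 : T.X u a x b = true → T.X v a x b = false → False := fun n1 n2 => by
    exact g10 e2 n1 n2
  have s20 : T.X u b v a = false → T.X u a x b = true → T.X v a x b = true → False := fun n1 n2 n3 => by
    exact g11 e1 n1 n2 n3
  have s21 : T.X u b x a = false → T.X u a x b = false → False := fun n1 n2 => by
    have u1 : T.X u y x b = true := bt (fun t => s18 t)
    have u2 : T.X u y x a = false := bf (fun t => s17 t)
    exact g12 u1 u2 n1 n2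
  have s22 : T.X u b x a = true → T.X v a x b = true → False := fun n1 n2 => by
    exact g13 e1 n1 n2
  have s23 : T.X u b v a = true → T.X u b x a = true → T.X v a x b = false → False := fun n1 n2 n3 => by
    exact g14 e2 n1 n2 n3
  have s24 : T.X u b v a = true → T.X u b x a = false → T.X v a x b = true → False := fun n1 n2 n3 => by
    exact g15 e1 n1 n2 n3
  have s25 : T.X v a x b = true → False := fun n1 => by
    have u1 : T.X u b x a = false := bf (fun t => s22 t n1)
    have u2 : T.X u a x b = true := bt (fun t => s21 u1 t)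
    have u3 : T.X u b v a = false := bf (fun t => s24 t u1 n1)
    exact s20 u3 u2 n1
  have s26 : T.X u a x b = true → False := fun n1 => by
    have u1 : T.X v a x b = false := bf (fun t => s25 t)
    exact s19 n1 u1
  have s27 : T.X u b v a = false → False := fun n1 => by
    have u1 : T.X u a x b = false := bf (fun t => s26 t)
    have u2 : T.X v a x b = false := bf (fun t => s25 t)
    exact s16 n1 u1 u2
  have s28 : T.X u b x a = false → False := fun n1 => by
    have u1 : T.X u a x b = false := bf (fun t => s26 t)
    exact s21 n1 u1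
  have u1 : T.X u b x a = true := bt (fun t => s28 t)
  have u2 : T.X u b v a = true := bt (fun t => s27 t)
  have u3 : T.X v a x b = false := bf (fun t => s25 t)
  exact s23 u2 u1 u3

theorem q_m2_ba {u v x y b a : V} (hL : T.RotL u [v, x, y, b, a])
    (hS : T.OkS3 u v x b a)
    (e1 : T.X u v x a = true)
    (e2 : T.X u v x b = true)
    (fxa1 : T.X u x v a = false)
    (fxa2 : T.X u a v x = false)
    (fxb1 : T.X u x v b = false)
    (fxb2 : T.X u b v x = false)
    (fya1 : T.X u y v a = false)
    (fya2 : T.X u a v y = false)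
    (fyb1 : T.X u y v b = false)
    (fyb2 : T.X u b v y = false)
    (a1 : T.X u y v x = true)
    (h1 : T.X u y x a = true)
    (h2 : T.X u y x b = false) : False := by
  have g5 := c5a_18568_18440 (hL.four (.cons_cons _ (.cons_cons _ (.cons _ (.cons_cons _ (.cons_cons _ (List.nil_sublist _)))))))
  have g6 := cS3_18433_2049 hS
  have g7 := c5a_2305_257 (hL.four (.cons_cons _ (.cons_cons _ (.cons _ (.cons_cons _ (.cons_cons _ (List.nil_sublist _)))))))
  have g8 := cS3_2177_2177 hS
  have g9 := c5a_9224_1032 (hL.four (.cons_cons _ (.cons_cons _ (.cons _ (.cons_cons _ (.cons_cons _ (List.nil_sublist _)))))))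
  have g10 := c5a_402_16 (hL.four (.cons _ (.cons_cons _ (.cons_cons _ (.cons_cons _ (.cons_cons _ (List.nil_sublist _)))))))
  have g11 := cS3_8449_8193 hS
  have s12 : T.X u b v a = false → T.X u a x b = true → T.X v a x b = true → False := fun n1 n2 n3 => by
    exact g5 e1 n1 n2 n3
  have s13 : T.X u a x b = true → T.X v a x b = false → False := fun n1 n2 => by
    exact g6 e2 n1 n2
  have s14 : T.X u a v b = true → T.X u a x b = false → False := fun n1 n2 => by
    exact g7 e2 n1 n2
  have s15 : T.X u b v a = true → T.X u a x b = true → False := fun n1 n2 => by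
    exact g8 e2 n1 n2
  have s16 : T.X u b x a = true → T.X v b x a = false → False := fun n1 n2 => by
    exact g9 e1 n1 n2
  have s17 : T.X u b x a = false → T.X u a x b = false → False := fun n1 n2 => by
    exact g10 h2 h1 n1 n2
  have s18 : T.X u a v b = false → T.X v b x a = true → False := fun n1 n2 => by
    exact g11 e2 n1 n2
  have s19 : T.X u a x b = true → T.X v a x b = true → False := fun n1 n2 => by
    have u1 : T.X u b v a = true := bt (fun t => s12 t n1 n2)
    exact s15 u1 n1
  have s20 : T.X u a x b = false → False := fun n1 => by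
    have u1 : T.X u a v b = false := bf (fun t => s14 t n1)
    have u2 : T.X u b x a = true := bt (fun t => s17 t n1)
    have u3 : T.X v b x a = false := bf (fun t => s18 u1 t)
    exact s16 u2 u3
  have s21 : T.X v a x b = true → False := fun n1 => by
    have u1 : T.X u a x b = true := bt (fun t => s20 t)
    exact s19 u1 n1
  have u1 : T.X u a x b = true := bt (fun t => s20 t)
  have u2 : T.X v a x b = false := bf (fun t => s21 t)
  exact s13 u1 u2

theorem q_m3_ba {u v y x b a : V} (hL : T.RotL u [v, y, x, b, a])
    (hS : T.OkS3 u v x b a)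
    (e1 : T.X u v x a = true)
    (e2 : T.X u v x b = true)
    (fxa1 : T.X u x v a = false)
    (fxa2 : T.X u a v x = false)
    (fxb1 : T.X u x v b = false)
    (fxb2 : T.X u b v x = false)
    (fya1 : T.X u y v a = false)
    (fya2 : T.X u a v y = false)
    (fyb1 : T.X u y v b = false)
    (fyb2 : T.X u b v y = false)
    (a1 : T.X u x v y = true)
    (h1 : T.X u y x b = true)
    (h2 : T.X u y x a = false) : False := by
  have g5 := c5a_18561_1 (hL.four (.cons_cons _ (.cons _ (.cons_cons _ (.cons_cons _ (.cons_cons _ (List.nil_sublist _)))))))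
  have g6 := cS3_17537_1153 hS
  have g7 := c5a_16648_16648 (hL.four (.cons_cons _ (.cons _ (.cons_cons _ (.cons_cons _ (.cons_cons _ (List.nil_sublist _)))))))
  have g8 := cS3_18433_2049 hS
  have g9 := c5a_17416_17416 (hL.four (.cons_cons _ (.cons _ (.cons_cons _ (.cons_cons _ (.cons_cons _ (List.nil_sublist _)))))))
  have g10 := c5a_3081_1 (hL.four (.cons _ (.cons_cons _ (.cons_cons _ (.cons_cons _ (.cons_cons _ (List.nil_sublist _)))))))
  have g11 := cS3_2312_2056 hS
  have s12 : T.X u b v a = false → T.X u a x b = false → T.X v a x b = false → False := fun n1 n2 n3 => by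
    exact g5 e2 n1 n2 n3
  have s13 : T.X u b v a = true → T.X u b x a = true → T.X v a x b = false → False := fun n1 n2 n3 => by
    exact g6 e2 n1 n2 n3
  have s14 : T.X u a v b = true → T.X v a x b = true → False := fun n1 n2 => by
    exact g7 e1 n1 n2
  have s15 : T.X u a x b = true → T.X v a x b = false → False := fun n1 n2 => by
    exact g8 e2 n1 n2
  have s16 : T.X u b x a = true → T.X v a x b = true → False := fun n1 n2 => by
    exact g9 e1 n1 n2
  have s17 : T.X u b x a = false → T.X u a x b = false → False := fun n1 n2 => by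
    exact g10 h1 h2 n1 n2
  have s18 : T.X u a v b = false → T.X u a x b = true → False := fun n1 n2 => by
    exact g11 e1 n1 n2
  have s19 : T.X v a x b = true → False := fun n1 => by
    have u1 : T.X u a v b = false := bf (fun t => s14 t n1)
    have u2 : T.X u b x a = false := bf (fun t => s16 t n1)
    have u3 : T.X u a x b = false := bf (fun t => s18 u1 t)
    exact s17 u2 u3
  have s20 : T.X u a x b = true → False := fun n1 => by
    have u1 : T.X v a x b = false := bf (fun t => s19 t)
    exact s15 n1 u1
  have s21 : T.X u b v a = false → False := fun n1 => by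
    have u1 : T.X u a x b = false := bf (fun t => s20 t)
    have u2 : T.X v a x b = false := bf (fun t => s19 t)
    exact s12 n1 u1 u2
  have s22 : T.X u b x a = false → False := fun n1 => by
    have u1 : T.X u a x b = false := bf (fun t => s20 t)
    exact s17 n1 u1
  have u1 : T.X u b x a = true := bt (fun t => s22 t)
  have u2 : T.X u b v a = true := bt (fun t => s21 t)
  have u3 : T.X v a x b = false := bf (fun t => s19 t)
  exact s13 u2 u1 u3

theorem q_or1 {u v x a b : V} (hL : T.RotL u [v, x, a, b])
    (hS : T.OkV1 u v x a b)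
    (fxa1 : T.X u x v a = false)
    (fxa2 : T.X u a v x = false)
    (fxb1 : T.X u x v b = false)
    (fxb2 : T.X u b v x = false)
    (h1 : T.X u a v b = false)
    (h2 : T.X u b v a = false) : False := by
  have g6 := cV1_18721_2049 hS
  have g7 := c5a_18561_1 (hL.four (.cons_cons _ (.cons_cons _ (.cons_cons _ (.cons_cons _ (List.nil_sublist _))))))
  have g8 := c5a_16771_16384 (hL.four (.cons_cons _ (.cons_cons _ (.cons_cons _ (.cons_cons _ (List.nil_sublist _))))))
  have g9 := c5a_2307_2048 (hL.four (.cons_cons _ (.cons_cons _ (.cons_cons _ (.cons_cons _ (List.nil_sublist _))))))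
  have g10 := cV1_16529_16385 hS
  have g11 := cV1_18721_0 hS
  have s12 : T.X u v x a = true → T.X u b x a = true → T.X v b x a = false → False := fun n1 n2 n3 => by
    exact g6 n1 fxb2 h2 n2 n3
  have s13 : T.X u v x a = true → T.X u b x a = false → T.X v b x a = false → False := fun n1 n2 n3 => by
    exact g7 n1 h1 n2 n3
  have s14 : T.X u v x a = false → T.X v b x a = true → False := fun n1 n2 => by
    exact g8 n1 fxa1 h1 h2 n2
  have s15 : T.X u v x a = false → T.X u b x a = true → False := fun n1 n2 => by
    exact g9 n1 fxa1 h2 n2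
  have s16 : T.X u v x a = true → T.X v b x a = true → False := fun n1 n2 => by
    exact g10 n1 fxb1 h1 n2
  have s17 : T.X u v x a = false → T.X u b x a = false → T.X v b x a = false → False := fun n1 n2 n3 => by
    exact g11 n1 fxb2 h2 n2 n3
  have s18 : T.X v b x a = true → False := fun n1 => by
    have u1 : T.X u v x a = true := bt (fun t => s14 t n1)
    exact s16 u1 n1
  have s19 : T.X u b x a = true → False := fun n1 => by
    have u1 : T.X v b x a = false := bf (fun t => s18 t)
    have u2 : T.X u v x a = false := bf (fun t => s12 t n1 u1)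
    exact s15 u2 n1
  have s20 : T.X u v x a = true → False := fun n1 => by
    have u1 : T.X u b x a = false := bf (fun t => s19 t)
    have u2 : T.X v b x a = false := bf (fun t => s18 t)
    exact s13 n1 u1 u2
  have u1 : T.X u v x a = false := bf (fun t => s20 t)
  have u2 : T.X u b x a = false := bf (fun t => s19 t)
  have u3 : T.X v b x a = false := bf (fun t => s18 t)
  exact s17 u1 u2 u3

theorem q_or2 {u v x a b : V} (hL : T.RotL u [v, x, a, b])
    (hS : T.OkV2 u v x a b)
    (fxa1 : T.X u x v a = false)
    (fxa2 : T.X u a v x = false)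
    (fxb1 : T.X u x v b = false)
    (fxb2 : T.X u b v x = false)
    (h1 : T.X u a v b = true) : False := by
  have g5 := c5a_2307_2048 (hL.four (.cons_cons _ (.cons_cons _ (.cons_cons _ (.cons_cons _ (List.nil_sublist _))))))
  have g6 := cV2_18465_16384 hS
  have g7 := cV2_18689_1 hS
  have g8 := cV2_2209_2177 hS
  have g9 := cV2_384_384 hS
  have g10 := c5a_16529_128 (hL.four (.cons_cons _ (.cons_cons _ (.cons_cons _ (.cons_cons _ (List.nil_sublist _))))))
  have g11 := c5a_18577_16513 (hL.four (.cons_cons _ (.cons_cons _ (.cons_cons _ (.cons_cons _ (List.nil_sublist _))))))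
  have s12 : T.X u v x a = false → T.X u b v a = false → T.X u b x a = true → False := fun n1 n2 n3 => by
    exact g5 n1 fxa1 n2 n3
  have s13 : T.X u v x a = false → T.X u b x a = false → T.X v b x a = true → False := fun n1 n2 n3 => by
    exact g6 n1 fxb2 n2 n3
  have s14 : T.X u v x a = true → T.X u b x a = true → False := fun n1 n2 => by
    exact g8 n1 fxb2 h1 n2
  have s15 : T.X u b v a = true → False := fun n1 => by
    exact g9 h1 n1
  have s16 : T.X u v x a = false → T.X v b x a = false → False := fun n1 n2 => by
    exact g10 n1 fxb1 h1 n2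
  have s17 : T.X u v x a = true → T.X u b x a = false → T.X v b x a = true → False := fun n1 n2 n3 => by
    exact g11 n1 fxb1 h1 n2 n3
  have s18 : T.X u b x a = true → False := fun n1 => by
    have u1 : T.X u b v a = false := bf (fun t => s15 t)
    have u2 : T.X u v x a = false := bf (fun t => s14 t n1)
    exact s12 u2 u1 n1
  have s19 : T.X v b x a = true → False := fun n1 => by
    have u1 : T.X u b x a = false := bf (fun t => s18 t)
    have u2 : T.X u v x a = false := bf (fun t => s17 t u1 n1)
    exact s13 u2 u1 n1
  have s20 : T.X u v x a = false → False := fun n1 => by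
    have u1 : T.X v b x a = false := bf (fun t => s19 t)
    exact s16 n1 u1
  have u1 : T.X v b x a = false := bf (fun t => s19 t)
  have u2 : T.X u v x a = true := bt (fun t => s20 t)
  have u3 : T.X u b v a = false := bf (fun t => s15 t)
  have u4 : T.X u b x a = false := bf (fun t => s18 t)
  exact g7 u2 u3 u4 u1

theorem q_or3 {u v x a b : V} (hL : T.RotL u [v, x, a, b])
    (hS : T.OkV2 u v x a b)
    (fxa1 : T.X u x v a = false)
    (fxa2 : T.X u a v x = false)
    (fxb1 : T.X u x v b = false)
    (fxb2 : T.X u b v x = false)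
    (h1 : T.X u b v a = true) : False := by
  have g4 := c5a_2305_257 (hL.four (.cons_cons _ (.cons_cons _ (.cons_cons _ (.cons_cons _ (List.nil_sublist _))))))
  have g5 := c5a_10243_10240 (hL.four (.cons_cons _ (.cons_cons _ (.cons_cons _ (.cons_cons _ (List.nil_sublist _))))))
  have g6 := cV2_8488_256 hS
  have g7 := cV2_2337_256 hS
  have g8 := cV2_10529_10497 hS
  have g9 := c5a_8456_264 (hL.four (.cons_cons _ (.cons_cons _ (.cons_cons _ (.cons_cons _ (List.nil_sublist _))))))
  have s10 : T.X u v x a = true → T.X u b x a = false → False := fun n1 n2 => by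
    exact g4 n1 h1 n2
  have s11 : T.X u v x a = false → T.X u b x a = true → T.X v a x b = true → False := fun n1 n2 n3 => by
    exact g5 n1 fxa1 n2 n3
  have s12 : T.X u v x b = false → T.X v a x b = false → False := fun n1 n2 => by
    exact g6 n1 fxb2 h1 n2
  have s13 : T.X u v x a = false → T.X u b x a = false → False := fun n1 n2 => by
    exact g7 n1 fxb2 h1 n2
  have s14 : T.X u v x a = true → T.X u b x a = true → T.X v a x b = true → False := fun n1 n2 n3 => by
    exact g8 n1 fxb2 h1 n2 n3
  have s15 : T.X u v x b = true → T.X v a x b = false → False := fun n1 n2 => by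
    exact g9 n1 h1 n2
  have s16 : T.X u b x a = true → T.X v a x b = true → False := fun n1 n2 => by
    have u1 : T.X u v x a = true := bt (fun t => s11 t n1 n2)
    exact s14 u1 n1 n2
  have s17 : T.X u b x a = false → False := fun n1 => by
    have u1 : T.X u v x a = false := bf (fun t => s10 t n1)
    exact s13 u1 n1
  have s18 : T.X v a x b = true → False := fun n1 => by
    have u1 : T.X u b x a = true := bt (fun t => s17 t)
    exact s16 u1 n1
  have s19 : T.X u v x b = false → False := fun n1 => by
    have u1 : T.X v a x b = false := bf (fun t => s18 t)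
    exact s12 n1 u1
  have u1 : T.X u v x b = true := bt (fun t => s19 t)
  have u2 : T.X v a x b = false := bf (fun t => s18 t)
  exact s15 u1 u2

theorem q_x_N1_N1 {u v x y a b : V} (hL : T.RotL u [v, x, y, a, b])
    (e1 : T.X u v x a = true)
    (e2 : T.X u v y b = true)
    (fxa1 : T.X u x v a = false)
    (fxa2 : T.X u a v x = false)
    (fxb1 : T.X u x v b = false)
    (fxb2 : T.X u b v x = false)
    (fya1 : T.X u y v a = false)
    (fya2 : T.X u a v y = false)
    (fyb1 : T.X u y v b = false)
    (fyb2 : T.X u b v y = false)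
    (p0 : T.X u x v y = false)
    (p1 : T.X u y v x = false)
    (p2 : T.X v x y b = true)
    (q0 : T.X u a v b = false)
    (q1 : T.X u b v a = false)
    (q2 : T.X u b x a = true)
    (r : T.X x a y b = true) : False := by
  have g11 := c5a_4678_4672 (hL.four (.cons_cons _ (.cons_cons _ (.cons_cons _ (.cons _ (.cons_cons _ (List.nil_sublist _)))))))
  have g12 := c5a_1164_1032 (hL.four (.cons_cons _ (.cons _ (.cons_cons _ (.cons_cons _ (.cons_cons _ (List.nil_sublist _)))))))
  have g13 := c5a_9482_8448 (hL.four (.cons _ (.cons_cons _ (.cons_cons _ (.cons_cons _ (.cons_cons _ (List.nil_sublist _)))))))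
  have g14 := c5a_1164_1032 (hL.four (.cons_cons _ (.cons_cons _ (.cons_cons _ (.cons_cons _ (List.nil_sublist _))))))
  have s15 : T.X u x y b = true → False := fun n1 => by
    exact g11 p0 p1 e2 n1 p2
  have s16 : T.X u a y b = true → False := fun n1 => by
    exact g12 fya2 e2 q0 n1
  have s17 : T.X u y x a = false → False := fun n1 => by
    have u1 : T.X u x y b = false := bf (fun t => s15 t)
    have u3 : T.X u a y b = false := bf (fun t => s16 t)
    exact g13 n1 u1 q2 u3 r
  have u4 : T.X u y x a = true := bt (fun t => s17 t)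
  exact g14 p1 e1 fya1 u4

theorem q_x_N1_N2 {u v x y b a : V} (hL : T.RotL u [v, x, y, b, a])
    (e1 : T.X u v x a = true)
    (e2 : T.X u v y b = true)
    (fxa1 : T.X u x v a = false)
    (fxa2 : T.X u a v x = false)
    (fxb1 : T.X u x v b = false)
    (fxb2 : T.X u b v x = false)
    (fya1 : T.X u y v a = false)
    (fya2 : T.X u a v y = false)
    (fyb1 : T.X u y v b = false)
    (fyb2 : T.X u b v y = false)
    (p0 : T.X u x v y = false)
    (p1 : T.X u y v x = false)
    (p2 : T.X v x y b = true)
    (q0 : T.X u a v b = false)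
    (q1 : T.X u b v a = false)
    (q2 : T.X v a y b = true)
    (r : T.X x a y b = true) : False := by
  have g11 := c5a_1164_1032 (hL.four (.cons_cons _ (.cons_cons _ (.cons_cons _ (.cons _ (.cons_cons _ (List.nil_sublist _)))))))
  have g12 := c5a_18450_16386 (hL.four (.cons _ (.cons_cons _ (.cons_cons _ (.cons_cons _ (.cons_cons _ (List.nil_sublist _)))))))
  have g13 := c5a_1164_1032 (hL.four (.cons_cons _ (.cons_cons _ (.cons _ (.cons_cons _ (.cons_cons _ (List.nil_sublist _)))))))
  have g14 := c5a_18577_18433 (hL.four (.cons_cons _ (.cons _ (.cons_cons _ (.cons_cons _ (.cons_cons _ (List.nil_sublist _)))))))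
  have g15 := c5a_4678_4672 (hL.four (.cons_cons _ (.cons_cons _ (.cons_cons _ (.cons_cons _ (List.nil_sublist _))))))
  have g16 := c5a_18704_16640 (hL.four (.cons _ (.cons_cons _ (.cons_cons _ (.cons_cons _ (.cons_cons _ (List.nil_sublist _)))))))
  have g17 := c5a_16771_16384 (hL.four (.cons _ (.cons_cons _ (.cons_cons _ (.cons_cons _ (.cons_cons _ (List.nil_sublist _)))))))
  have s18 : T.X u y x a = true → False := fun n1 => by
    exact g11 p1 e1 fya1 n1
  have s19 : T.X u y x b = true → T.X u a y b = false → False := fun n1 n2 => by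
    have u1 : T.X u y x a = false := bf (fun t => s18 t)
    exact g12 n1 u1 n2 r
  have s20 : T.X u b x a = true → False := fun n1 => by
    exact g13 fxb2 e1 q1 n1
  have s21 : T.X u a y b = true → False := fun n1 => by
    exact g14 e2 fya1 q1 n1 q2
  have s22 : T.X u y x b = true → False := fun n1 => by
    have u1 : T.X u a y b = false := bf (fun t => s21 t)
    exact s19 n1 u1
  have s23 : T.X u x y b = true → False := fun n1 => by
    exact g15 p0 p1 e2 n1 p2
  have s24 : T.X u a x b = true → False := fun n1 => by
    have u1 : T.X u y x a = false := bf (fun t => s18 t)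
    have u2 : T.X u a y b = false := bf (fun t => s21 t)
    exact g16 u1 n1 u2 r
  have u1 : T.X u x y b = false := bf (fun t => s23 t)
  have u2 : T.X u y x b = false := bf (fun t => s22 t)
  have u3 : T.X u b x a = false := bf (fun t => s20 t)
  have u4 : T.X u a x b = false := bf (fun t => s24 t)
  exact g17 u1 u2 u3 u4 r

theorem q_x_N1_Sa {u v x y a b : V} (hL : T.RotL u [v, x, y, a, b])
    (e1 : T.X u v x a = true)
    (e2 : T.X u v y b = true)
    (fxa1 : T.X u x v a = false)
    (fxa2 : T.X u a v x = false)
    (fxb1 : T.X u x v b = false)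
    (fxb2 : T.X u b v x = false)
    (fya1 : T.X u y v a = false)
    (fya2 : T.X u a v y = false)
    (fyb1 : T.X u y v b = false)
    (fyb2 : T.X u b v y = false)
    (p0 : T.X u x v y = false)
    (p1 : T.X u y v x = false)
    (p2 : T.X v x y b = true)
    (q0 : T.X u b v a = true)
    (r : T.X x a y b = true) : False := by
  have g9 := c5a_1288_1288 (hL.four (.cons_cons _ (.cons _ (.cons_cons _ (.cons_cons _ (.cons_cons _ (List.nil_sublist _)))))))
  have g10 := c5a_4678_4672 (hL.four (.cons_cons _ (.cons_cons _ (.cons_cons _ (.cons _ (.cons_cons _ (List.nil_sublist _)))))))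
  have g11 := c5a_1164_1032 (hL.four (.cons_cons _ (.cons_cons _ (.cons_cons _ (.cons_cons _ (List.nil_sublist _))))))
  have g12 := c5a_2305_257 (hL.four (.cons_cons _ (.cons_cons _ (.cons _ (.cons_cons _ (.cons_cons _ (List.nil_sublist _)))))))
  have g13 := c5a_9482_8448 (hL.four (.cons _ (.cons_cons _ (.cons_cons _ (.cons_cons _ (.cons_cons _ (List.nil_sublist _)))))))
  have s14 : T.X u a y b = true → False := fun n1 => by
    exact g9 e2 q0 n1
  have s15 : T.X u x y b = true → False := fun n1 => by
    exact g10 p0 p1 e2 n1 p2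
  have s16 : T.X u y x a = true → False := fun n1 => by
    exact g11 p1 e1 fya1 n1
  have s17 : T.X u b x a = false → False := fun n1 => by
    exact g12 e1 q0 n1
  have u1 : T.X u y x a = false := bf (fun t => s16 t)
  have u2 : T.X u x y b = false := bf (fun t => s15 t)
  have u3 : T.X u b x a = true := bt (fun t => s17 t)
  have u4 : T.X u a y b = false := bf (fun t => s14 t)
  exact g13 u1 u2 u3 u4 r

theorem q_x_N1_Sb0 {u v x y b a : V} (hL : T.RotL u [v, x, y, b, a])
    (e1 : T.X u v x a = true)
    (e2 : T.X u v y b = true)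
    (fxa1 : T.X u x v a = false)
    (fxa2 : T.X u a v x = false)
    (fxb1 : T.X u x v b = false)
    (fxb2 : T.X u b v x = false)
    (fya1 : T.X u y v a = false)
    (fya2 : T.X u a v y = false)
    (fyb1 : T.X u y v b = false)
    (fyb2 : T.X u b v y = false)
    (p0 : T.X u x v y = false)
    (p1 : T.X u y v x = false)
    (p2 : T.X v x y b = true)
    (q0 : T.X u b v a = true)
    (q1 : T.X v a y b = false)
    (q2 : T.X v b x a = false)
    (r : T.X x a y b = true) : False := by
  have g11 := c5a_1164_1032 (hL.four (.cons_cons _ (.cons_cons _ (.cons_cons _ (.cons _ (.cons_cons _ (List.nil_sublist _)))))))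
  have g12 := c5a_18450_16386 (hL.four (.cons _ (.cons_cons _ (.cons_cons _ (.cons_cons _ (.cons_cons _ (List.nil_sublist _)))))))
  have g13 := c5a_9224_1032 (hL.four (.cons_cons _ (.cons_cons _ (.cons _ (.cons_cons _ (.cons_cons _ (List.nil_sublist _)))))))
  have g14 := c5a_18560_2176 (hL.four (.cons_cons _ (.cons _ (.cons_cons _ (.cons_cons _ (.cons_cons _ (List.nil_sublist _)))))))
  have g15 := c5a_4678_4672 (hL.four (.cons_cons _ (.cons_cons _ (.cons_cons _ (.cons_cons _ (List.nil_sublist _))))))
  have g16 := c5a_18704_16640 (hL.four (.cons _ (.cons_cons _ (.cons_cons _ (.cons_cons _ (.cons_cons _ (List.nil_sublist _)))))))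
  have g17 := c5a_16771_16384 (hL.four (.cons _ (.cons_cons _ (.cons_cons _ (.cons_cons _ (.cons_cons _ (List.nil_sublist _)))))))
  have s18 : T.X u y x a = true → False := fun n1 => by
    exact g11 p1 e1 fya1 n1
  have s19 : T.X u y x b = true → T.X u a y b = false → False := fun n1 n2 => by
    have u1 : T.X u y x a = false := bf (fun t => s18 t)
    exact g12 n1 u1 n2 r
  have s20 : T.X u b x a = true → False := fun n1 => by
    exact g13 e1 n1 q2
  have s21 : T.X u a y b = true → False := fun n1 => by
    exact g14 q0 n1 q1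
  have s22 : T.X u y x b = true → False := fun n1 => by
    have u1 : T.X u a y b = false := bf (fun t => s21 t)
    exact s19 n1 u1
  have s23 : T.X u x y b = true → False := fun n1 => by
    exact g15 p0 p1 e2 n1 p2
  have s24 : T.X u a x b = true → False := fun n1 => by
    have u1 : T.X u y x a = false := bf (fun t => s18 t)
    have u2 : T.X u a y b = false := bf (fun t => s21 t)
    exact g16 u1 n1 u2 r
  have u1 : T.X u x y b = false := bf (fun t => s23 t)
  have u2 : T.X u y x b = false := bf (fun t => s22 t)
  have u3 : T.X u b x a = false := bf (fun t => s20 t)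
  have u4 : T.X u a x b = false := bf (fun t => s24 t)
  exact g17 u1 u2 u3 u4 r

theorem q_x_N1_Sb20 {u v x y a b : V} (hL : T.RotL u [v, x, y, a, b])
    (e1 : T.X u v x a = true)
    (e2 : T.X u v y b = true)
    (fxa1 : T.X u x v a = false)
    (fxa2 : T.X u a v x = false)
    (fxb1 : T.X u x v b = false)
    (fxb2 : T.X u b v x = false)
    (fya1 : T.X u y v a = false)
    (fya2 : T.X u a v y = false)
    (fyb1 : T.X u y v b = false)
    (fyb2 : T.X u b v y = false)
    (p0 : T.X u x v y = false)
    (p1 : T.X u y v x = false)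
    (p2 : T.X v x y b = true)
    (q0 : T.X u a v b = true)
    (q1 : T.X v a y b = true)
    (q2 : T.X v b x a = false)
    (r : T.X x a y b = true) : False := by
  have g11 := c5a_8329_8328 (hL.four (.cons_cons _ (.cons _ (.cons_cons _ (.cons_cons _ (.cons_cons _ (List.nil_sublist _)))))))
  have g12 := c5a_9345_8321 (hL.four (.cons_cons _ (.cons _ (.cons_cons _ (.cons_cons _ (.cons_cons _ (List.nil_sublist _)))))))
  have g13 := c5a_1164_1032 (hL.four (.cons_cons _ (.cons_cons _ (.cons_cons _ (.cons_cons _ (List.nil_sublist _))))))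
  have g14 := c5a_4678_4672 (hL.four (.cons_cons _ (.cons_cons _ (.cons_cons _ (.cons _ (.cons_cons _ (List.nil_sublist _)))))))
  have g15 := c5a_18560_2176 (hL.four (.cons_cons _ (.cons_cons _ (.cons _ (.cons_cons _ (.cons_cons _ (List.nil_sublist _)))))))
  have g16 := c5a_9482_9216 (hL.four (.cons _ (.cons_cons _ (.cons_cons _ (.cons_cons _ (.cons_cons _ (List.nil_sublist _)))))))
  have s17 : T.X u v y a = false → False := fun n1 => by
    exact g11 n1 e2 q0 q1
  have s18 : T.X u a y b = false → False := fun n1 => by
    have u1 : T.X u v y a = true := bt (fun t => s17 t)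
    exact g12 u1 q0 n1 q1
  have s19 : T.X u y x a = true → False := fun n1 => by
    exact g13 p1 e1 fya1 n1
  have s20 : T.X u x y b = true → False := fun n1 => by
    exact g14 p0 p1 e2 n1 p2
  have s21 : T.X u b x a = true → False := fun n1 => by
    exact g15 q0 n1 q2
  have u1 : T.X u y x a = false := bf (fun t => s19 t)
  have u2 : T.X u x y b = false := bf (fun t => s20 t)
  have u3 : T.X u b x a = false := bf (fun t => s21 t)
  have u4 : T.X u a y b = true := bt (fun t => s18 t)
  exact g16 u1 u2 u3 u4 r

theorem q_x_N1_Sb02 {u v x y a b : V} (hL : T.RotL u [v, x, y, a, b])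
    (e1 : T.X u v x a = true)
    (e2 : T.X u v y b = true)
    (fxa1 : T.X u x v a = false)
    (fxa2 : T.X u a v x = false)
    (fxb1 : T.X u x v b = false)
    (fxb2 : T.X u b v x = false)
    (fya1 : T.X u y v a = false)
    (fya2 : T.X u a v y = false)
    (fyb1 : T.X u y v b = false)
    (fyb2 : T.X u b v y = false)
    (p0 : T.X u x v y = false)
    (p1 : T.X u y v x = false)
    (p2 : T.X v x y b = true)
    (q0 : T.X u a v b = true)
    (q1 : T.X v a y b = false)
    (q2 : T.X v b x a = true)
    (r : T.X x a y b = true) : False := by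
  have g12 := c5a_18569_16521 (hL.four (.cons_cons _ (.cons_cons _ (.cons _ (.cons_cons _ (.cons_cons _ (List.nil_sublist _)))))))
  have g13 := c5a_9224_1032 (hL.four (.cons_cons _ (.cons _ (.cons_cons _ (.cons_cons _ (.cons_cons _ (List.nil_sublist _)))))))
  have g14 := c5a_1164_1032 (hL.four (.cons_cons _ (.cons_cons _ (.cons_cons _ (.cons_cons _ (List.nil_sublist _))))))
  have g15 := c5a_4678_4672 (hL.four (.cons_cons _ (.cons_cons _ (.cons_cons _ (.cons _ (.cons_cons _ (List.nil_sublist _)))))))
  have g16 := c5a_16537_16513 (hL.four (.cons_cons _ (.cons_cons _ (.cons _ (.cons_cons _ (.cons_cons _ (List.nil_sublist _)))))))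
  have g17 := c5a_9482_8448 (hL.four (.cons _ (.cons_cons _ (.cons_cons _ (.cons_cons _ (.cons_cons _ (List.nil_sublist _)))))))
  have s18 : T.X u v x b = true → T.X u b x a = false → False := fun n1 n2 => by
    exact g12 e1 n1 q0 n2 q2
  have s19 : T.X u a y b = true → False := fun n1 => by
    exact g13 e2 n1 q1
  have s20 : T.X u y x a = true → False := fun n1 => by
    exact g14 p1 e1 fya1 n1
  have s21 : T.X u x y b = true → False := fun n1 => by
    exact g15 p0 p1 e2 n1 p2
  have s22 : T.X u v x b = false → False := fun n1 => by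
    exact g16 e1 n1 fxb1 q0 q2
  have s23 : T.X u b x a = false → False := fun n1 => by
    have u1 : T.X u v x b = true := bt (fun t => s22 t)
    exact s18 u1 n1
  have u1 : T.X u y x a = false := bf (fun t => s20 t)
  have u2 : T.X u x y b = false := bf (fun t => s21 t)
  have u3 : T.X u b x a = true := bt (fun t => s23 t)
  have u4 : T.X u a y b = false := bf (fun t => s19 t)
  exact g17 u1 u2 u3 u4 r

theorem q_x_N2_N1 {u v y x a b : V} (hL : T.RotL u [v, y, x, a, b])
    (e1 : T.X u v x a = true)
    (e2 : T.X u v y b = true)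
    (fxa1 : T.X u x v a = false)
    (fxa2 : T.X u a v x = false)
    (fxb1 : T.X u x v b = false)
    (fxb2 : T.X u b v x = false)
    (fya1 : T.X u y v a = false)
    (fya2 : T.X u a v y = false)
    (fyb1 : T.X u y v b = false)
    (fyb2 : T.X u b v y = false)
    (p0 : T.X u x v y = false)
    (p1 : T.X u y v x = false)
    (p2 : T.X u y x a = true)
    (q0 : T.X u a v b = false)
    (q1 : T.X u b v a = false)
    (q2 : T.X u b x a = true)
    (r : T.X y b x a = true) : False := by
  have g9 := c5a_3072_3072 (hL.four (.cons_cons _ (.cons _ (.cons_cons _ (.cons_cons _ (.cons_cons _ (List.nil_sublist _)))))))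
  have g10 := c5a_1164_1032 (hL.four (.cons_cons _ (.cons_cons _ (.cons _ (.cons_cons _ (.cons_cons _ (List.nil_sublist _)))))))
  have g11 := c5a_1164_1032 (hL.four (.cons_cons _ (.cons_cons _ (.cons_cons _ (.cons _ (.cons_cons _ (List.nil_sublist _)))))))
  have g12 := c5a_17433_16385 (hL.four (.cons _ (.cons_cons _ (.cons_cons _ (.cons_cons _ (.cons_cons _ (List.nil_sublist _)))))))
  have g13 := c5a_18568_18440 (hL.four (.cons _ (.cons_cons _ (.cons_cons _ (.cons_cons _ (.cons_cons _ (List.nil_sublist _)))))))
  have s14 : T.X u a x b = true → False := fun n1 => by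
    exact g9 n1 q2
  have s15 : T.X u a y b = true → False := fun n1 => by
    exact g10 fya2 e2 q0 n1
  have s16 : T.X u x y b = true → False := fun n1 => by
    exact g11 p0 e2 fxb1 n1
  have s17 : T.X u y x b = false → False := fun n1 => by
    have u2 : T.X u x y b = false := bf (fun t => s16 t)
    have u3 : T.X u a x b = false := bf (fun t => s14 t)
    exact g12 p2 n1 u2 u3 r
  have u1 : T.X u y x b = true := bt (fun t => s17 t)
  have u2 : T.X u a y b = false := bf (fun t => s15 t)
  exact g13 u1 u2 q2 r

theorem q_x_N2_N2 {u v y x b a : V} (hL : T.RotL u [v, y, x, b, a])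
    (e1 : T.X u v x a = true)
    (e2 : T.X u v y b = true)
    (fxa1 : T.X u x v a = false)
    (fxa2 : T.X u a v x = false)
    (fxb1 : T.X u x v b = false)
    (fxb2 : T.X u b v x = false)
    (fya1 : T.X u y v a = false)
    (fya2 : T.X u a v y = false)
    (fyb1 : T.X u y v b = false)
    (fyb2 : T.X u b v y = false)
    (p0 : T.X u x v y = false)
    (p1 : T.X u y v x = false)
    (p2 : T.X u y x a = true)
    (q0 : T.X u a v b = false)
    (q1 : T.X u b v a = false)
    (q2 : T.X v a y b = true)
    (r : T.X y b x a = true) : False := by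
  have g11 := c5a_18577_18433 (hL.four (.cons_cons _ (.cons_cons _ (.cons _ (.cons_cons _ (.cons_cons _ (List.nil_sublist _)))))))
  have g12 := c5a_1164_1032 (hL.four (.cons_cons _ (.cons _ (.cons_cons _ (.cons_cons _ (.cons_cons _ (List.nil_sublist _)))))))
  have g13 := c5a_9482_8200 (hL.four (.cons _ (.cons_cons _ (.cons_cons _ (.cons_cons _ (.cons_cons _ (List.nil_sublist _)))))))
  have g14 := c5a_1164_1032 (hL.four (.cons_cons _ (.cons_cons _ (.cons_cons _ (.cons_cons _ (List.nil_sublist _))))))
  have s15 : T.X u a y b = true → False := fun n1 => by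
    exact g11 e2 fya1 q1 n1 q2
  have s16 : T.X u b x a = true → False := fun n1 => by
    exact g12 fxb2 e1 q1 n1
  have s17 : T.X u x y b = false → False := fun n1 => by
    have u2 : T.X u a y b = false := bf (fun t => s15 t)
    have u3 : T.X u b x a = false := bf (fun t => s16 t)
    exact g13 n1 p2 u2 u3 r
  have u4 : T.X u x y b = true := bt (fun t => s17 t)
  exact g14 p0 e2 fxb1 u4

theorem q_x_N2_Sa {u v y x a b : V} (hL : T.RotL u [v, y, x, a, b])
    (e1 : T.X u v x a = true)
    (e2 : T.X u v y b = true)
    (fxa1 : T.X u x v a = false)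
    (fxa2 : T.X u a v x = false)
    (fxb1 : T.X u x v b = false)
    (fxb2 : T.X u b v x = false)
    (fya1 : T.X u y v a = false)
    (fya2 : T.X u a v y = false)
    (fyb1 : T.X u y v b = false)
    (fyb2 : T.X u b v y = false)
    (p0 : T.X u x v y = false)
    (p1 : T.X u y v x = false)
    (p2 : T.X u y x a = true)
    (q0 : T.X u b v a = true)
    (r : T.X y b x a = true) : False := by
  have g8 := c5a_2305_257 (hL.four (.cons_cons _ (.cons _ (.cons_cons _ (.cons_cons _ (.cons_cons _ (List.nil_sublist _)))))))
  have g9 := c5a_18568_18440 (hL.four (.cons _ (.cons_cons _ (.cons_cons _ (.cons_cons _ (.cons_cons _ (List.nil_sublist _)))))))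
  have g10 := c5a_1164_1032 (hL.four (.cons_cons _ (.cons_cons _ (.cons_cons _ (.cons _ (.cons_cons _ (List.nil_sublist _)))))))
  have g11 := c5a_1288_1288 (hL.four (.cons_cons _ (.cons_cons _ (.cons _ (.cons_cons _ (.cons_cons _ (List.nil_sublist _)))))))
  have g12 := c5a_1281_1281 (hL.four (.cons_cons _ (.cons _ (.cons_cons _ (.cons_cons _ (.cons_cons _ (List.nil_sublist _)))))))
  have g13 := c5a_17433_16385 (hL.four (.cons _ (.cons_cons _ (.cons_cons _ (.cons_cons _ (.cons_cons _ (List.nil_sublist _)))))))
  have s14 : T.X u b x a = false → False := fun n1 => by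
    exact g8 e1 q0 n1
  have s15 : T.X u y x b = true → T.X u a y b = false → False := fun n1 n2 => by
    have u1 : T.X u b x a = true := bt (fun t => s14 t)
    exact g9 n1 n2 u1 r
  have s16 : T.X u x y b = true → False := fun n1 => by
    exact g10 p0 e2 fxb1 n1
  have s17 : T.X u a y b = true → False := fun n1 => by
    exact g11 e2 q0 n1
  have s18 : T.X u y x b = true → False := fun n1 => by
    have u1 : T.X u a y b = false := bf (fun t => s17 t)
    exact s15 n1 u1
  have s19 : T.X u a x b = true → False := fun n1 => by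
    exact g12 e1 q0 n1
  have u2 : T.X u y x b = false := bf (fun t => s18 t)
  have u3 : T.X u x y b = false := bf (fun t => s16 t)
  have u4 : T.X u a x b = false := bf (fun t => s19 t)
  exact g13 p2 u2 u3 u4 r

theorem q_x_N2_Sb0 {u v y x b a : V} (hL : T.RotL u [v, y, x, b, a])
    (e1 : T.X u v x a = true)
    (e2 : T.X u v y b = true)
    (fxa1 : T.X u x v a = false)
    (fxa2 : T.X u a v x = false)
    (fxb1 : T.X u x v b = false)
    (fxb2 : T.X u b v x = false)
    (fya1 : T.X u y v a = false)
    (fya2 : T.X u a v y = false)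
    (fyb1 : T.X u y v b = false)
    (fyb2 : T.X u b v y = false)
    (p0 : T.X u x v y = false)
    (p1 : T.X u y v x = false)
    (p2 : T.X u y x a = true)
    (q0 : T.X u b v a = true)
    (q1 : T.X v a y b = false)
    (q2 : T.X v b x a = false)
    (r : T.X y b x a = true) : False := by
  have g10 := c5a_18560_2176 (hL.four (.cons_cons _ (.cons_cons _ (.cons _ (.cons_cons _ (.cons_cons _ (List.nil_sublist _)))))))
  have g11 := c5a_9224_1032 (hL.four (.cons_cons _ (.cons _ (.cons_cons _ (.cons_cons _ (.cons_cons _ (List.nil_sublist _)))))))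
  have g12 := c5a_9482_8200 (hL.four (.cons _ (.cons_cons _ (.cons_cons _ (.cons_cons _ (.cons_cons _ (List.nil_sublist _)))))))
  have g13 := c5a_1164_1032 (hL.four (.cons_cons _ (.cons_cons _ (.cons_cons _ (.cons_cons _ (List.nil_sublist _))))))
  have s14 : T.X u a y b = true → False := fun n1 => by
    exact g10 q0 n1 q1
  have s15 : T.X u b x a = true → False := fun n1 => by
    exact g11 e1 n1 q2
  have s16 : T.X u x y b = false → False := fun n1 => by
    have u2 : T.X u a y b = false := bf (fun t => s14 t)
    have u3 : T.X u b x a = false := bf (fun t => s15 t)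
    exact g12 n1 p2 u2 u3 r
  have u4 : T.X u x y b = true := bt (fun t => s16 t)
  exact g13 p0 e2 fxb1 u4

theorem q_x_N2_Sb20 {u v y x a b : V} (hL : T.RotL u [v, y, x, a, b])
    (e1 : T.X u v x a = true)
    (e2 : T.X u v y b = true)
    (fxa1 : T.X u x v a = false)
    (fxa2 : T.X u a v x = false)
    (fxb1 : T.X u x v b = false)
    (fxb2 : T.X u b v x = false)
    (fya1 : T.X u y v a = false)
    (fya2 : T.X u a v y = false)
    (fyb1 : T.X u y v b = false)
    (fyb2 : T.X u b v y = false)
    (p0 : T.X u x v y = false)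
    (p1 : T.X u y v x = false)
    (p2 : T.X u y x a = true)
    (q0 : T.X u a v b = true)
    (q1 : T.X v a y b = true)
    (q2 : T.X v b x a = false)
    (r : T.X y b x a = true) : False := by
  have g9 := c5a_18560_2176 (hL.four (.cons_cons _ (.cons _ (.cons_cons _ (.cons_cons _ (.cons_cons _ (List.nil_sublist _)))))))
  have g10 := c5a_16537_16513 (hL.four (.cons _ (.cons_cons _ (.cons_cons _ (.cons_cons _ (.cons_cons _ (List.nil_sublist _)))))))
  have g11 := c5a_1164_1032 (hL.four (.cons_cons _ (.cons_cons _ (.cons_cons _ (.cons _ (.cons_cons _ (List.nil_sublist _)))))))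
  have g12 := c5a_8329_8328 (hL.four (.cons_cons _ (.cons_cons _ (.cons _ (.cons_cons _ (.cons_cons _ (List.nil_sublist _)))))))
  have g13 := c5a_9345_8321 (hL.four (.cons_cons _ (.cons_cons _ (.cons _ (.cons_cons _ (.cons_cons _ (List.nil_sublist _)))))))
  have g14 := c5a_18569_16521 (hL.four (.cons _ (.cons_cons _ (.cons_cons _ (.cons_cons _ (.cons_cons _ (List.nil_sublist _)))))))
  have s15 : T.X u b x a = true → False := fun n1 => by
    exact g9 q0 n1 q2
  have s16 : T.X u y x b = false → T.X u x y b = false → T.X u a y b = true → False := fun n1 n2 n3 => by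
    exact g10 p2 n1 n2 n3 r
  have s17 : T.X u x y b = true → False := fun n1 => by
    exact g11 p0 e2 fxb1 n1
  have s18 : T.X u v y a = false → False := fun n1 => by
    exact g12 n1 e2 q0 q1
  have s19 : T.X u a y b = false → False := fun n1 => by
    have u1 : T.X u v y a = true := bt (fun t => s18 t)
    exact g13 u1 q0 n1 q1
  have s20 : T.X u y x b = false → False := fun n1 => by
    have u1 : T.X u a y b = true := bt (fun t => s19 t)
    have u2 : T.X u x y b = false := bf (fun t => s17 t)
    exact s16 n1 u2 u1
  have u2 : T.X u y x b = true := bt (fun t => s20 t)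
  have u3 : T.X u a y b = true := bt (fun t => s19 t)
  have u4 : T.X u b x a = false := bf (fun t => s15 t)
  exact g14 p2 u2 u3 u4 r

theorem q_x_N2_Sb02 {u v y x a b : V} (hL : T.RotL u [v, y, x, a, b])
    (e1 : T.X u v x a = true)
    (e2 : T.X u v y b = true)
    (fxa1 : T.X u x v a = false)
    (fxa2 : T.X u a v x = false)
    (fxb1 : T.X u x v b = false)
    (fxb2 : T.X u b v x = false)
    (fya1 : T.X u y v a = false)
    (fya2 : T.X u a v y = false)
    (fyb1 : T.X u y v b = false)
    (fyb2 : T.X u b v y = false)
    (p0 : T.X u x v y = false)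
    (p1 : T.X u y v x = false)
    (p2 : T.X u y x a = true)
    (q0 : T.X u a v b = true)
    (q1 : T.X v a y b = false)
    (q2 : T.X v b x a = true)
    (r : T.X y b x a = true) : False := by
  have g10 := c5a_16537_16513 (hL.four (.cons_cons _ (.cons _ (.cons_cons _ (.cons_cons _ (.cons_cons _ (List.nil_sublist _)))))))
  have g11 := c5a_9224_1032 (hL.four (.cons_cons _ (.cons_cons _ (.cons _ (.cons_cons _ (.cons_cons _ (List.nil_sublist _)))))))
  have g12 := c5a_24576_24576 (hL.four (.cons_cons _ (.cons _ (.cons_cons _ (.cons_cons _ (.cons_cons _ (List.nil_sublist _)))))))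
  have g13 := c5a_9224_1032 (hL.four (.cons_cons _ (.cons _ (.cons_cons _ (.cons_cons _ (.cons_cons _ (List.nil_sublist _)))))))
  have g14 := c5a_1164_1032 (hL.four (.cons_cons _ (.cons_cons _ (.cons_cons _ (.cons _ (.cons_cons _ (List.nil_sublist _)))))))
  have g15 := c5a_18569_16521 (hL.four (.cons_cons _ (.cons _ (.cons_cons _ (.cons_cons _ (.cons_cons _ (List.nil_sublist _)))))))
  have g16 := c5a_17433_16385 (hL.four (.cons _ (.cons_cons _ (.cons_cons _ (.cons_cons _ (.cons_cons _ (List.nil_sublist _)))))))
  have g17 := c5a_18568_18440 (hL.four (.cons _ (.cons_cons _ (.cons_cons _ (.cons_cons _ (.cons_cons _ (List.nil_sublist _)))))))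
  have s18 : T.X u v x b = false → False := fun n1 => by
    exact g10 e1 n1 fxb1 q0 q2
  have s19 : T.X u a y b = true → False := fun n1 => by
    exact g11 e2 n1 q1
  have s20 : T.X v a x b = true → False := fun n1 => by
    exact g12 n1 q2
  have s21 : T.X u a x b = true → False := fun n1 => by
    have u1 : T.X u v x b = true := bt (fun t => s18 t)
    have u2 : T.X v a x b = false := bf (fun t => s20 t)
    exact g13 u1 n1 u2
  have s22 : T.X u x y b = true → False := fun n1 => by
    exact g14 p0 e2 fxb1 n1
  have s23 : T.X u b x a = false → False := fun n1 => by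
    have u2 : T.X u v x b = true := bt (fun t => s18 t)
    exact g15 e1 u2 q0 n1 q2
  have s24 : T.X u y x b = false → False := fun n1 => by
    have u2 : T.X u x y b = false := bf (fun t => s22 t)
    have u3 : T.X u a x b = false := bf (fun t => s21 t)
    exact g16 p2 n1 u2 u3 r
  have u1 : T.X u y x b = true := bt (fun t => s24 t)
  have u2 : T.X u a y b = false := bf (fun t => s19 t)
  have u3 : T.X u b x a = true := bt (fun t => s23 t)
  exact g17 u1 u2 u3 r

theorem q_x_Sa_N1 {u v y x a b : V} (hL : T.RotL u [v, y, x, a, b])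
    (e1 : T.X u v x a = true)
    (e2 : T.X u v y b = true)
    (fxa1 : T.X u x v a = false)
    (fxa2 : T.X u a v x = false)
    (fxb1 : T.X u x v b = false)
    (fxb2 : T.X u b v x = false)
    (fya1 : T.X u y v a = false)
    (fya2 : T.X u a v y = false)
    (fyb1 : T.X u y v b = false)
    (fyb2 : T.X u b v y = false)
    (p0 : T.X u y v x = true)
    (q0 : T.X u a v b = false)
    (q1 : T.X u b v a = false)
    (q2 : T.X u b x a = true)
    (r : T.X y b x a = true) : False := by
  have g8 := c5a_3072_3072 (hL.four (.cons_cons _ (.cons _ (.cons_cons _ (.cons_cons _ (.cons_cons _ (List.nil_sublist _)))))))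
  have g9 := c5a_18568_18440 (hL.four (.cons _ (.cons_cons _ (.cons_cons _ (.cons_cons _ (.cons_cons _ (List.nil_sublist _)))))))
  have g10 := c5a_578_66 (hL.four (.cons_cons _ (.cons_cons _ (.cons_cons _ (.cons_cons _ (List.nil_sublist _))))))
  have g11 := c5a_1034_1034 (hL.four (.cons_cons _ (.cons_cons _ (.cons_cons _ (.cons _ (.cons_cons _ (List.nil_sublist _)))))))
  have g12 := c5a_1164_1032 (hL.four (.cons_cons _ (.cons_cons _ (.cons _ (.cons_cons _ (.cons_cons _ (List.nil_sublist _)))))))
  have g13 := c5a_17433_16385 (hL.four (.cons _ (.cons_cons _ (.cons_cons _ (.cons_cons _ (.cons_cons _ (List.nil_sublist _)))))))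
  have s14 : T.X u a x b = true → False := fun n1 => by
    exact g8 n1 q2
  have s15 : T.X u y x b = true → T.X u a y b = false → False := fun n1 n2 => by
    exact g9 n1 n2 q2 r
  have s16 : T.X u y x a = false → False := fun n1 => by
    exact g10 p0 e1 n1
  have s17 : T.X u x y b = true → False := fun n1 => by
    exact g11 p0 e2 n1
  have s18 : T.X u a y b = true → False := fun n1 => by
    exact g12 fya2 e2 q0 n1
  have s19 : T.X u y x b = true → False := fun n1 => by
    have u1 : T.X u a y b = false := bf (fun t => s18 t)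
    exact s15 n1 u1
  have u1 : T.X u y x a = true := bt (fun t => s16 t)
  have u2 : T.X u y x b = false := bf (fun t => s19 t)
  have u3 : T.X u x y b = false := bf (fun t => s17 t)
  have u4 : T.X u a x b = false := bf (fun t => s14 t)
  exact g13 u1 u2 u3 u4 r

theorem q_x_Sa_N2 {u v y x b a : V} (hL : T.RotL u [v, y, x, b, a])
    (e1 : T.X u v x a = true)
    (e2 : T.X u v y b = true)
    (fxa1 : T.X u x v a = false)
    (fxa2 : T.X u a v x = false)
    (fxb1 : T.X u x v b = false)
    (fxb2 : T.X u b v x = false)
    (fya1 : T.X u y v a = false)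
    (fya2 : T.X u a v y = false)
    (fyb1 : T.X u y v b = false)
    (fyb2 : T.X u b v y = false)
    (p0 : T.X u y v x = true)
    (q0 : T.X u a v b = false)
    (q1 : T.X u b v a = false)
    (q2 : T.X v a y b = true)
    (r : T.X y b x a = true) : False := by
  have g9 := c5a_1164_1032 (hL.four (.cons_cons _ (.cons _ (.cons_cons _ (.cons_cons _ (.cons_cons _ (List.nil_sublist _)))))))
  have g10 := c5a_578_66 (hL.four (.cons_cons _ (.cons_cons _ (.cons_cons _ (.cons _ (.cons_cons _ (List.nil_sublist _)))))))
  have g11 := c5a_1034_1034 (hL.four (.cons_cons _ (.cons_cons _ (.cons_cons _ (.cons_cons _ (List.nil_sublist _))))))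
  have g12 := c5a_18577_18433 (hL.four (.cons_cons _ (.cons_cons _ (.cons _ (.cons_cons _ (.cons_cons _ (List.nil_sublist _)))))))
  have g13 := c5a_9482_8200 (hL.four (.cons _ (.cons_cons _ (.cons_cons _ (.cons_cons _ (.cons_cons _ (List.nil_sublist _)))))))
  have s14 : T.X u b x a = true → False := fun n1 => by
    exact g9 fxb2 e1 q1 n1
  have s15 : T.X u y x a = false → False := fun n1 => by
    exact g10 p0 e1 n1
  have s16 : T.X u x y b = true → False := fun n1 => by
    exact g11 p0 e2 n1
  have s17 : T.X u a y b = true → False := fun n1 => by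
    exact g12 e2 fya1 q1 n1 q2
  have u1 : T.X u x y b = false := bf (fun t => s16 t)
  have u2 : T.X u y x a = true := bt (fun t => s15 t)
  have u3 : T.X u a y b = false := bf (fun t => s17 t)
  have u4 : T.X u b x a = false := bf (fun t => s14 t)
  exact g13 u1 u2 u3 u4 r

theorem q_x_Sa_Sa {u v y x a b : V} (hL : T.RotL u [v, y, x, a, b])
    (e1 : T.X u v x a = true)
    (e2 : T.X u v y b = true)
    (fxa1 : T.X u x v a = false)
    (fxa2 : T.X u a v x = false)
    (fxb1 : T.X u x v b = false)
    (fxb2 : T.X u b v x = false)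
    (fya1 : T.X u y v a = false)
    (fya2 : T.X u a v y = false)
    (fyb1 : T.X u y v b = false)
    (fyb2 : T.X u b v y = false)
    (p0 : T.X u y v x = true)
    (q0 : T.X u b v a = true)
    (r : T.X y b x a = true) : False := by
  have g6 := c5a_578_66 (hL.four (.cons_cons _ (.cons_cons _ (.cons_cons _ (.cons_cons _ (List.nil_sublist _))))))
  have g7 := c5a_2305_257 (hL.four (.cons_cons _ (.cons _ (.cons_cons _ (.cons_cons _ (.cons_cons _ (List.nil_sublist _)))))))
  have g8 := c5a_1281_1281 (hL.four (.cons_cons _ (.cons _ (.cons_cons _ (.cons_cons _ (.cons_cons _ (List.nil_sublist _)))))))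
  have g9 := c5a_1288_1288 (hL.four (.cons_cons _ (.cons_cons _ (.cons _ (.cons_cons _ (.cons_cons _ (List.nil_sublist _)))))))
  have g10 := c5a_18568_18440 (hL.four (.cons _ (.cons_cons _ (.cons_cons _ (.cons_cons _ (.cons_cons _ (List.nil_sublist _)))))))
  have g11 := c5a_1034_1034 (hL.four (.cons_cons _ (.cons_cons _ (.cons_cons _ (.cons _ (.cons_cons _ (List.nil_sublist _)))))))
  have g12 := c5a_17433_16385 (hL.four (.cons _ (.cons_cons _ (.cons_cons _ (.cons_cons _ (.cons_cons _ (List.nil_sublist _)))))))
  have s13 : T.X u y x a = false → False := fun n1 => by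
    exact g6 p0 e1 n1
  have s14 : T.X u b x a = false → False := fun n1 => by
    exact g7 e1 q0 n1
  have s15 : T.X u a x b = true → False := fun n1 => by
    exact g8 e1 q0 n1
  have s16 : T.X u a y b = true → False := fun n1 => by
    exact g9 e2 q0 n1
  have s17 : T.X u y x b = true → False := fun n1 => by
    have u1 : T.X u a y b = false := bf (fun t => s16 t)
    have u2 : T.X u b x a = true := bt (fun t => s14 t)
    exact g10 n1 u1 u2 r
  have s18 : T.X u x y b = true → False := fun n1 => by
    exact g11 p0 e2 n1
  have u1 : T.X u y x a = true := bt (fun t => s13 t)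
  have u2 : T.X u y x b = false := bf (fun t => s17 t)
  have u3 : T.X u x y b = false := bf (fun t => s18 t)
  have u4 : T.X u a x b = false := bf (fun t => s15 t)
  exact g12 u1 u2 u3 u4 r

theorem q_x_Sa_Sb0 {u v y x b a : V} (hL : T.RotL u [v, y, x, b, a])
    (e1 : T.X u v x a = true)
    (e2 : T.X u v y b = true)
    (fxa1 : T.X u x v a = false)
    (fxa2 : T.X u a v x = false)
    (fxb1 : T.X u x v b = false)
    (fxb2 : T.X u b v x = false)
    (fya1 : T.X u y v a = false)
    (fya2 : T.X u a v y = false)
    (fyb1 : T.X u y v b = false)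
    (fyb2 : T.X u b v y = false)
    (p0 : T.X u y v x = true)
    (q0 : T.X u b v a = true)
    (q1 : T.X v a y b = false)
    (q2 : T.X v b x a = false)
    (r : T.X y b x a = true) : False := by
  have g8 := c5a_9224_1032 (hL.four (.cons_cons _ (.cons _ (.cons_cons _ (.cons_cons _ (.cons_cons _ (List.nil_sublist _)))))))
  have g9 := c5a_578_66 (hL.four (.cons_cons _ (.cons_cons _ (.cons_cons _ (.cons _ (.cons_cons _ (List.nil_sublist _)))))))
  have g10 := c5a_1034_1034 (hL.four (.cons_cons _ (.cons_cons _ (.cons_cons _ (.cons_cons _ (List.nil_sublist _))))))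
  have g11 := c5a_18560_2176 (hL.four (.cons_cons _ (.cons_cons _ (.cons _ (.cons_cons _ (.cons_cons _ (List.nil_sublist _)))))))
  have g12 := c5a_9482_8200 (hL.four (.cons _ (.cons_cons _ (.cons_cons _ (.cons_cons _ (.cons_cons _ (List.nil_sublist _)))))))
  have s13 : T.X u b x a = true → False := fun n1 => by
    exact g8 e1 n1 q2
  have s14 : T.X u y x a = false → False := fun n1 => by
    exact g9 p0 e1 n1
  have s15 : T.X u x y b = true → False := fun n1 => by
    exact g10 p0 e2 n1
  have s16 : T.X u a y b = true → False := fun n1 => by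
    exact g11 q0 n1 q1
  have u1 : T.X u x y b = false := bf (fun t => s15 t)
  have u2 : T.X u y x a = true := bt (fun t => s14 t)
  have u3 : T.X u a y b = false := bf (fun t => s16 t)
  have u4 : T.X u b x a = false := bf (fun t => s13 t)
  exact g12 u1 u2 u3 u4 r

theorem q_x_Sa_Sb20 {u v y x a b : V} (hL : T.RotL u [v, y, x, a, b])
    (e1 : T.X u v x a = true)
    (e2 : T.X u v y b = true)
    (fxa1 : T.X u x v a = false)
    (fxa2 : T.X u a v x = false)
    (fxb1 : T.X u x v b = false)
    (fxb2 : T.X u b v x = false)
    (fya1 : T.X u y v a = false)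
    (fya2 : T.X u a v y = false)
    (fyb1 : T.X u y v b = false)
    (fyb2 : T.X u b v y = false)
    (p0 : T.X u y v x = true)
    (q0 : T.X u a v b = true)
    (q1 : T.X v a y b = true)
    (q2 : T.X v b x a = false)
    (r : T.X y b x a = true) : False := by
  have g8 := c5a_1034_1034 (hL.four (.cons_cons _ (.cons_cons _ (.cons_cons _ (.cons _ (.cons_cons _ (List.nil_sublist _)))))))
  have g9 := c5a_18560_2176 (hL.four (.cons_cons _ (.cons _ (.cons_cons _ (.cons_cons _ (.cons_cons _ (List.nil_sublist _)))))))
  have g10 := c5a_8329_8328 (hL.four (.cons_cons _ (.cons_cons _ (.cons _ (.cons_cons _ (.cons_cons _ (List.nil_sublist _)))))))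
  have g11 := c5a_9345_8321 (hL.four (.cons_cons _ (.cons_cons _ (.cons _ (.cons_cons _ (.cons_cons _ (List.nil_sublist _)))))))
  have g12 := c5a_578_66 (hL.four (.cons_cons _ (.cons_cons _ (.cons_cons _ (.cons_cons _ (List.nil_sublist _))))))
  have g13 := c5a_16537_16513 (hL.four (.cons _ (.cons_cons _ (.cons_cons _ (.cons_cons _ (.cons_cons _ (List.nil_sublist _)))))))
  have g14 := c5a_18569_16521 (hL.four (.cons _ (.cons_cons _ (.cons_cons _ (.cons_cons _ (.cons_cons _ (List.nil_sublist _)))))))
  have s15 : T.X u x y b = true → False := fun n1 => by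
    exact g8 p0 e2 n1
  have s16 : T.X u b x a = true → False := fun n1 => by
    exact g9 q0 n1 q2
  have s17 : T.X u v y a = false → False := fun n1 => by
    exact g10 n1 e2 q0 q1
  have s18 : T.X u a y b = false → False := fun n1 => by
    have u1 : T.X u v y a = true := bt (fun t => s17 t)
    exact g11 u1 q0 n1 q1
  have s19 : T.X u y x a = false → False := fun n1 => by
    exact g12 p0 e1 n1
  have s20 : T.X u y x b = false → False := fun n1 => by
    have u1 : T.X u y x a = true := bt (fun t => s19 t)
    have u2 : T.X u x y b = false := bf (fun t => s15 t)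
    have u3 : T.X u a y b = true := bt (fun t => s18 t)
    exact g13 u1 n1 u2 u3 r
  have u1 : T.X u y x a = true := bt (fun t => s19 t)
  have u2 : T.X u y x b = true := bt (fun t => s20 t)
  have u3 : T.X u a y b = true := bt (fun t => s18 t)
  have u4 : T.X u b x a = false := bf (fun t => s16 t)
  exact g14 u1 u2 u3 u4 r

theorem q_x_Sa_Sb02 {u v y x a b : V} (hL : T.RotL u [v, y, x, a, b])
    (e1 : T.X u v x a = true)
    (e2 : T.X u v y b = true)
    (fxa1 : T.X u x v a = false)
    (fxa2 : T.X u a v x = false)
    (fxb1 : T.X u x v b = false)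
    (fxb2 : T.X u b v x = false)
    (fya1 : T.X u y v a = false)
    (fya2 : T.X u a v y = false)
    (fyb1 : T.X u y v b = false)
    (fyb2 : T.X u b v y = false)
    (p0 : T.X u y v x = true)
    (q0 : T.X u a v b = true)
    (q1 : T.X v a y b = false)
    (q2 : T.X v b x a = true)
    (r : T.X y b x a = true) : False := by
  have g9 := c5a_16537_16513 (hL.four (.cons_cons _ (.cons _ (.cons_cons _ (.cons_cons _ (.cons_cons _ (List.nil_sublist _)))))))
  have g10 := c5a_9224_1032 (hL.four (.cons_cons _ (.cons_cons _ (.cons _ (.cons_cons _ (.cons_cons _ (List.nil_sublist _)))))))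
  have g11 := c5a_578_66 (hL.four (.cons_cons _ (.cons_cons _ (.cons_cons _ (.cons _ (.cons_cons _ (List.nil_sublist _)))))))
  have g12 := c5a_18568_18440 (hL.four (.cons _ (.cons_cons _ (.cons_cons _ (.cons_cons _ (.cons_cons _ (List.nil_sublist _)))))))
  have g13 := c5a_18569_16521 (hL.four (.cons_cons _ (.cons _ (.cons_cons _ (.cons_cons _ (.cons_cons _ (List.nil_sublist _)))))))
  have s14 : T.X u v x b = false → False := fun n1 => by
    exact g9 e1 n1 fxb1 q0 q2
  have s15 : T.X u a y b = true → False := fun n1 => by
    exact g10 e2 n1 q1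
  have s16 : T.X u y x b = false → False := fun n1 => by
    have u2 : T.X u v x b = true := bt (fun t => s14 t)
    exact g11 p0 u2 n1
  have s17 : T.X u b x a = true → False := fun n1 => by
    have u1 : T.X u y x b = true := bt (fun t => s16 t)
    have u2 : T.X u a y b = false := bf (fun t => s15 t)
    exact g12 u1 u2 n1 r
  have u2 : T.X u v x b = true := bt (fun t => s14 t)
  have u4 : T.X u b x a = false := bf (fun t => s17 t)
  exact g13 e1 u2 q0 u4 q2

theorem q_x_Sb0_N1 {u v x y a b : V} (hL : T.RotL u [v, x, y, a, b])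
    (e1 : T.X u v x a = true)
    (e2 : T.X u v y b = true)
    (fxa1 : T.X u x v a = false)
    (fxa2 : T.X u a v x = false)
    (fxb1 : T.X u x v b = false)
    (fxb2 : T.X u b v x = false)
    (fya1 : T.X u y v a = false)
    (fya2 : T.X u a v y = false)
    (fyb1 : T.X u y v b = false)
    (fyb2 : T.X u b v y = false)
    (p0 : T.X u y v x = true)
    (p1 : T.X u y x a = false)
    (p2 : T.X u x y b = false)
    (q0 : T.X u a v b = false)
    (q1 : T.X u b v a = false)
    (q2 : T.X u b x a = true)
    (r : T.X x a y b = true) : False := by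
  have g8 := c5a_9482_8448 (hL.four (.cons _ (.cons_cons _ (.cons_cons _ (.cons_cons _ (.cons_cons _ (List.nil_sublist _)))))))
  have g9 := c5a_1164_1032 (hL.four (.cons_cons _ (.cons _ (.cons_cons _ (.cons_cons _ (.cons_cons _ (List.nil_sublist _)))))))
  have s10 : T.X u a y b = false → False := fun n1 => by
    exact g8 p1 p2 q2 n1 r
  have u4 : T.X u a y b = true := bt (fun t => s10 t)
  exact g9 fya2 e2 q0 u4

theorem q_x_Sb0_N2 {u v x y b a : V} (hL : T.RotL u [v, x, y, b, a])
    (e1 : T.X u v x a = true)
    (e2 : T.X u v y b = true)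
    (fxa1 : T.X u x v a = false)
    (fxa2 : T.X u a v x = false)
    (fxb1 : T.X u x v b = false)
    (fxb2 : T.X u b v x = false)
    (fya1 : T.X u y v a = false)
    (fya2 : T.X u a v y = false)
    (fyb1 : T.X u y v b = false)
    (fyb2 : T.X u b v y = false)
    (p0 : T.X u y v x = true)
    (p1 : T.X u y x a = false)
    (p2 : T.X u x y b = false)
    (q0 : T.X u a v b = false)
    (q1 : T.X u b v a = false)
    (q2 : T.X v a y b = true)
    (r : T.X x a y b = true) : False := by
  have g10 := c5a_1164_1032 (hL.four (.cons_cons _ (.cons_cons _ (.cons _ (.cons_cons _ (.cons_cons _ (List.nil_sublist _)))))))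
  have g11 := c5a_18577_18433 (hL.four (.cons_cons _ (.cons _ (.cons_cons _ (.cons_cons _ (.cons_cons _ (List.nil_sublist _)))))))
  have g12 := c5a_18450_16386 (hL.four (.cons _ (.cons_cons _ (.cons_cons _ (.cons_cons _ (.cons_cons _ (List.nil_sublist _)))))))
  have g13 := c5a_18704_16640 (hL.four (.cons _ (.cons_cons _ (.cons_cons _ (.cons_cons _ (.cons_cons _ (List.nil_sublist _)))))))
  have g14 := c5a_16771_16384 (hL.four (.cons _ (.cons_cons _ (.cons_cons _ (.cons_cons _ (.cons_cons _ (List.nil_sublist _)))))))
  have s15 : T.X u b x a = true → False := fun n1 => by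
    exact g10 fxb2 e1 q1 n1
  have s16 : T.X u a y b = true → False := fun n1 => by
    exact g11 e2 fya1 q1 n1 q2
  have s17 : T.X u y x b = true → False := fun n1 => by
    have u2 : T.X u a y b = false := bf (fun t => s16 t)
    exact g12 n1 p1 u2 r
  have s18 : T.X u a x b = true → False := fun n1 => by
    have u2 : T.X u a y b = false := bf (fun t => s16 t)
    exact g13 p1 n1 u2 r
  have u2 : T.X u y x b = false := bf (fun t => s17 t)
  have u3 : T.X u b x a = false := bf (fun t => s15 t)
  have u4 : T.X u a x b = false := bf (fun t => s18 t)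
  exact g14 p2 u2 u3 u4 r

theorem q_x_Sb0_Sa {u v x y a b : V} (hL : T.RotL u [v, x, y, a, b])
    (e1 : T.X u v x a = true)
    (e2 : T.X u v y b = true)
    (fxa1 : T.X u x v a = false)
    (fxa2 : T.X u a v x = false)
    (fxb1 : T.X u x v b = false)
    (fxb2 : T.X u b v x = false)
    (fya1 : T.X u y v a = false)
    (fya2 : T.X u a v y = false)
    (fyb1 : T.X u y v b = false)
    (fyb2 : T.X u b v y = false)
    (p0 : T.X u y v x = true)
    (p1 : T.X u y x a = false)
    (p2 : T.X u x y b = false)
    (q0 : T.X u b v a = true)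
    (r : T.X x a y b = true) : False := by
  have g7 := c5a_2305_257 (hL.four (.cons_cons _ (.cons_cons _ (.cons _ (.cons_cons _ (.cons_cons _ (List.nil_sublist _)))))))
  have g8 := c5a_9482_8448 (hL.four (.cons _ (.cons_cons _ (.cons_cons _ (.cons_cons _ (.cons_cons _ (List.nil_sublist _)))))))
  have g9 := c5a_1288_1288 (hL.four (.cons_cons _ (.cons _ (.cons_cons _ (.cons_cons _ (.cons_cons _ (List.nil_sublist _)))))))
  have s10 : T.X u b x a = false → False := fun n1 => by
    exact g7 e1 q0 n1
  have s11 : T.X u a y b = false → False := fun n1 => by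
    have u3 : T.X u b x a = true := bt (fun t => s10 t)
    exact g8 p1 p2 u3 n1 r
  have u3 : T.X u a y b = true := bt (fun t => s11 t)
  exact g9 e2 q0 u3

theorem q_x_Sb0_Sb0 {u v x y b a : V} (hL : T.RotL u [v, x, y, b, a])
    (e1 : T.X u v x a = true)
    (e2 : T.X u v y b = true)
    (fxa1 : T.X u x v a = false)
    (fxa2 : T.X u a v x = false)
    (fxb1 : T.X u x v b = false)
    (fxb2 : T.X u b v x = false)
    (fya1 : T.X u y v a = false)
    (fya2 : T.X u a v y = false)
    (fyb1 : T.X u y v b = false)
    (fyb2 : T.X u b v y = false)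
    (p0 : T.X u y v x = true)
    (p1 : T.X u y x a = false)
    (p2 : T.X u x y b = false)
    (q0 : T.X u b v a = true)
    (q1 : T.X v a y b = false)
    (q2 : T.X v b x a = false)
    (r : T.X x a y b = true) : False := by
  have g8 := c5a_9224_1032 (hL.four (.cons_cons _ (.cons_cons _ (.cons _ (.cons_cons _ (.cons_cons _ (List.nil_sublist _)))))))
  have g9 := c5a_18560_2176 (hL.four (.cons_cons _ (.cons _ (.cons_cons _ (.cons_cons _ (.cons_cons _ (List.nil_sublist _)))))))
  have g10 := c5a_18450_16386 (hL.four (.cons _ (.cons_cons _ (.cons_cons _ (.cons_cons _ (.cons_cons _ (List.nil_sublist _)))))))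
  have g11 := c5a_18704_16640 (hL.four (.cons _ (.cons_cons _ (.cons_cons _ (.cons_cons _ (.cons_cons _ (List.nil_sublist _)))))))
  have g12 := c5a_16771_16384 (hL.four (.cons _ (.cons_cons _ (.cons_cons _ (.cons_cons _ (.cons_cons _ (List.nil_sublist _)))))))
  have s13 : T.X u b x a = true → False := fun n1 => by
    exact g8 e1 n1 q2
  have s14 : T.X u a y b = true → False := fun n1 => by
    exact g9 q0 n1 q1
  have s15 : T.X u y x b = true → False := fun n1 => by
    have u2 : T.X u a y b = false := bf (fun t => s14 t)
    exact g10 n1 p1 u2 r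
  have s16 : T.X u a x b = true → False := fun n1 => by
    have u2 : T.X u a y b = false := bf (fun t => s14 t)
    exact g11 p1 n1 u2 r
  have u2 : T.X u y x b = false := bf (fun t => s15 t)
  have u3 : T.X u b x a = false := bf (fun t => s13 t)
  have u4 : T.X u a x b = false := bf (fun t => s16 t)
  exact g12 p2 u2 u3 u4 r

theorem q_x_Sb0_Sb20 {u v x y a b : V} (hL : T.RotL u [v, x, y, a, b])
    (e1 : T.X u v x a = true)
    (e2 : T.X u v y b = true)
    (fxa1 : T.X u x v a = false)
    (fxa2 : T.X u a v x = false)
    (fxb1 : T.X u x v b = false)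
    (fxb2 : T.X u b v x = false)
    (fya1 : T.X u y v a = false)
    (fya2 : T.X u a v y = false)
    (fyb1 : T.X u y v b = false)
    (fyb2 : T.X u b v y = false)
    (p0 : T.X u y v x = true)
    (p1 : T.X u y x a = false)
    (p2 : T.X u x y b = false)
    (q0 : T.X u a v b = true)
    (q1 : T.X v a y b = true)
    (q2 : T.X v b x a = false)
    (r : T.X x a y b = true) : False := by
  have g8 := c5a_8329_8328 (hL.four (.cons_cons _ (.cons _ (.cons_cons _ (.cons_cons _ (.cons_cons _ (List.nil_sublist _)))))))
  have g9 := c5a_9345_8321 (hL.four (.cons_cons _ (.cons _ (.cons_cons _ (.cons_cons _ (.cons_cons _ (List.nil_sublist _)))))))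
  have g10 := c5a_9482_9216 (hL.four (.cons _ (.cons_cons _ (.cons_cons _ (.cons_cons _ (.cons_cons _ (List.nil_sublist _)))))))
  have g11 := c5a_18560_2176 (hL.four (.cons_cons _ (.cons_cons _ (.cons _ (.cons_cons _ (.cons_cons _ (List.nil_sublist _)))))))
  have s12 : T.X u v y a = false → False := fun n1 => by
    exact g8 n1 e2 q0 q1
  have s13 : T.X u a y b = false → False := fun n1 => by
    have u1 : T.X u v y a = true := bt (fun t => s12 t)
    exact g9 u1 q0 n1 q1
  have s14 : T.X u b x a = false → False := fun n1 => by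
    have u3 : T.X u a y b = true := bt (fun t => s13 t)
    exact g10 p1 p2 n1 u3 r
  have u2 : T.X u b x a = true := bt (fun t => s14 t)
  exact g11 q0 u2 q2

theorem q_x_Sb0_Sb02 {u v x y a b : V} (hL : T.RotL u [v, x, y, a, b])
    (e1 : T.X u v x a = true)
    (e2 : T.X u v y b = true)
    (fxa1 : T.X u x v a = false)
    (fxa2 : T.X u a v x = false)
    (fxb1 : T.X u x v b = false)
    (fxb2 : T.X u b v x = false)
    (fya1 : T.X u y v a = false)
    (fya2 : T.X u a v y = false)
    (fyb1 : T.X u y v b = false)
    (fyb2 : T.X u b v y = false)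
    (p0 : T.X u y v x = true)
    (p1 : T.X u y x a = false)
    (p2 : T.X u x y b = false)
    (q0 : T.X u a v b = true)
    (q1 : T.X v a y b = false)
    (q2 : T.X v b x a = true)
    (r : T.X x a y b = true) : False := by
  have g10 := c5a_16537_16513 (hL.four (.cons_cons _ (.cons_cons _ (.cons _ (.cons_cons _ (.cons_cons _ (List.nil_sublist _)))))))
  have g11 := c5a_9224_1032 (hL.four (.cons_cons _ (.cons _ (.cons_cons _ (.cons_cons _ (.cons_cons _ (List.nil_sublist _)))))))
  have g12 := c5a_9482_8448 (hL.four (.cons _ (.cons_cons _ (.cons_cons _ (.cons_cons _ (.cons_cons _ (List.nil_sublist _)))))))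
  have g13 := c5a_18569_16521 (hL.four (.cons_cons _ (.cons_cons _ (.cons _ (.cons_cons _ (.cons_cons _ (List.nil_sublist _)))))))
  have s14 : T.X u v x b = false → False := fun n1 => by
    exact g10 e1 n1 fxb1 q0 q2
  have s15 : T.X u a y b = true → False := fun n1 => by
    exact g11 e2 n1 q1
  have s16 : T.X u b x a = true → False := fun n1 => by
    have u3 : T.X u a y b = false := bf (fun t => s15 t)
    exact g12 p1 p2 n1 u3 r
  have u2 : T.X u v x b = true := bt (fun t => s14 t)
  have u4 : T.X u b x a = false := bf (fun t => s16 t)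
  exact g13 e1 u2 q0 u4 q2

theorem q_x_Sb20_N1 {u v y x a b : V} (hL : T.RotL u [v, y, x, a, b])
    (e1 : T.X u v x a = true)
    (e2 : T.X u v y b = true)
    (fxa1 : T.X u x v a = false)
    (fxa2 : T.X u a v x = false)
    (fxb1 : T.X u x v b = false)
    (fxb2 : T.X u b v x = false)
    (fya1 : T.X u y v a = false)
    (fya2 : T.X u a v y = false)
    (fyb1 : T.X u y v b = false)
    (fyb2 : T.X u b v y = false)
    (p0 : T.X u x v y = true)
    (p1 : T.X u y x a = true)
    (p2 : T.X u x y b = false)
    (q0 : T.X u a v b = false)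
    (q1 : T.X u b v a = false)
    (q2 : T.X u b x a = true)
    (r : T.X y b x a = true) : False := by
  have g9 := c5a_3072_3072 (hL.four (.cons_cons _ (.cons _ (.cons_cons _ (.cons_cons _ (.cons_cons _ (List.nil_sublist _)))))))
  have g10 := c5a_556_516 (hL.four (.cons_cons _ (.cons_cons _ (.cons_cons _ (.cons_cons _ (List.nil_sublist _))))))
  have g11 := c5a_1161_1033 (hL.four (.cons_cons _ (.cons_cons _ (.cons _ (.cons_cons _ (.cons_cons _ (List.nil_sublist _)))))))
  have g12 := c5a_17433_16385 (hL.four (.cons _ (.cons_cons _ (.cons_cons _ (.cons_cons _ (.cons_cons _ (List.nil_sublist _)))))))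
  have g13 := c5a_18568_18440 (hL.four (.cons _ (.cons_cons _ (.cons_cons _ (.cons_cons _ (.cons_cons _ (List.nil_sublist _)))))))
  have s14 : T.X u a x b = true → False := fun n1 => by
    exact g9 n1 q2
  have s15 : T.X u v y a = false → False := fun n1 => by
    exact g10 p0 n1 fya2 p1
  have s16 : T.X u a y b = true → False := fun n1 => by
    have u1 : T.X u v y a = true := bt (fun t => s15 t)
    exact g11 u1 e2 q0 n1
  have s17 : T.X u y x b = false → False := fun n1 => by
    have u3 : T.X u a x b = false := bf (fun t => s14 t)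
    exact g12 p1 n1 p2 u3 r
  have u1 : T.X u y x b = true := bt (fun t => s17 t)
  have u2 : T.X u a y b = false := bf (fun t => s16 t)
  exact g13 u1 u2 q2 r

theorem q_x_Sb20_N2 {u v y x b a : V} (hL : T.RotL u [v, y, x, b, a])
    (e1 : T.X u v x a = true)
    (e2 : T.X u v y b = true)
    (fxa1 : T.X u x v a = false)
    (fxa2 : T.X u a v x = false)
    (fxb1 : T.X u x v b = false)
    (fxb2 : T.X u b v x = false)
    (fya1 : T.X u y v a = false)
    (fya2 : T.X u a v y = false)
    (fyb1 : T.X u y v b = false)
    (fyb2 : T.X u b v y = false)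
    (p0 : T.X u x v y = true)
    (p1 : T.X u y x a = true)
    (p2 : T.X u x y b = false)
    (q0 : T.X u a v b = false)
    (q1 : T.X u b v a = false)
    (q2 : T.X v a y b = true)
    (r : T.X y b x a = true) : False := by
  have g10 := c5a_556_516 (hL.four (.cons_cons _ (.cons_cons _ (.cons_cons _ (.cons _ (.cons_cons _ (List.nil_sublist _)))))))
  have g11 := c5a_1164_1032 (hL.four (.cons_cons _ (.cons _ (.cons_cons _ (.cons_cons _ (.cons_cons _ (List.nil_sublist _)))))))
  have g12 := c5a_9482_8200 (hL.four (.cons _ (.cons_cons _ (.cons_cons _ (.cons_cons _ (.cons_cons _ (List.nil_sublist _)))))))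
  have g13 := c5a_18568_18440 (hL.four (.cons_cons _ (.cons_cons _ (.cons _ (.cons_cons _ (.cons_cons _ (List.nil_sublist _)))))))
  have s14 : T.X u v y a = false → False := fun n1 => by
    exact g10 p0 n1 fya2 p1
  have s15 : T.X u b x a = true → False := fun n1 => by
    exact g11 fxb2 e1 q1 n1
  have s16 : T.X u a y b = false → False := fun n1 => by
    have u3 : T.X u b x a = false := bf (fun t => s15 t)
    exact g12 p2 p1 n1 u3 r
  have u1 : T.X u v y a = true := bt (fun t => s14 t)
  have u3 : T.X u a y b = true := bt (fun t => s16 t)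
  exact g13 u1 q1 u3 q2

theorem q_x_Sb20_Sa {u v y x a b : V} (hL : T.RotL u [v, y, x, a, b])
    (e1 : T.X u v x a = true)
    (e2 : T.X u v y b = true)
    (fxa1 : T.X u x v a = false)
    (fxa2 : T.X u a v x = false)
    (fxb1 : T.X u x v b = false)
    (fxb2 : T.X u b v x = false)
    (fya1 : T.X u y v a = false)
    (fya2 : T.X u a v y = false)
    (fyb1 : T.X u y v b = false)
    (fyb2 : T.X u b v y = false)
    (p0 : T.X u x v y = true)
    (p1 : T.X u y x a = true)
    (p2 : T.X u x y b = false)
    (q0 : T.X u b v a = true)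
    (r : T.X y b x a = true) : False := by
  have g7 := c5a_556_516 (hL.four (.cons_cons _ (.cons_cons _ (.cons_cons _ (.cons_cons _ (List.nil_sublist _))))))
  have g8 := c5a_16657_16641 (hL.four (.cons _ (.cons_cons _ (.cons_cons _ (.cons_cons _ (.cons_cons _ (List.nil_sublist _)))))))
  have g9 := c5a_2305_257 (hL.four (.cons_cons _ (.cons_cons _ (.cons _ (.cons_cons _ (.cons_cons _ (List.nil_sublist _)))))))
  have s10 : T.X u v y a = false → False := fun n1 => by
    exact g7 p0 n1 fya2 p1
  have s11 : T.X u b y a = true → False := fun n1 => by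
    exact g8 p1 p2 n1 r
  have u1 : T.X u v y a = true := bt (fun t => s10 t)
  have u3 : T.X u b y a = false := bf (fun t => s11 t)
  exact g9 u1 q0 u3

theorem q_x_Sb20_Sb0 {u v y x b a : V} (hL : T.RotL u [v, y, x, b, a])
    (e1 : T.X u v x a = true)
    (e2 : T.X u v y b = true)
    (fxa1 : T.X u x v a = false)
    (fxa2 : T.X u a v x = false)
    (fxb1 : T.X u x v b = false)
    (fxb2 : T.X u b v x = false)
    (fya1 : T.X u y v a = false)
    (fya2 : T.X u a v y = false)
    (fyb1 : T.X u y v b = false)
    (fyb2 : T.X u b v y = false)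
    (p0 : T.X u x v y = true)
    (p1 : T.X u y x a = true)
    (p2 : T.X u x y b = false)
    (q0 : T.X u b v a = true)
    (q1 : T.X v a y b = false)
    (q2 : T.X v b x a = false)
    (r : T.X y b x a = true) : False := by
  have g8 := c5a_18560_2176 (hL.four (.cons_cons _ (.cons_cons _ (.cons _ (.cons_cons _ (.cons_cons _ (List.nil_sublist _)))))))
  have g9 := c5a_9482_8200 (hL.four (.cons _ (.cons_cons _ (.cons_cons _ (.cons_cons _ (.cons_cons _ (List.nil_sublist _)))))))
  have g10 := c5a_9224_1032 (hL.four (.cons_cons _ (.cons _ (.cons_cons _ (.cons_cons _ (.cons_cons _ (List.nil_sublist _)))))))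
  have s11 : T.X u a y b = true → False := fun n1 => by
    exact g8 q0 n1 q1
  have s12 : T.X u b x a = false → False := fun n1 => by
    have u3 : T.X u a y b = false := bf (fun t => s11 t)
    exact g9 p2 p1 u3 n1 r
  have u2 : T.X u b x a = true := bt (fun t => s12 t)
  exact g10 e1 u2 q2

theorem q_x_Sb20_Sb20 {u v y x a b : V} (hL : T.RotL u [v, y, x, a, b])
    (e1 : T.X u v x a = true)
    (e2 : T.X u v y b = true)
    (fxa1 : T.X u x v a = false)
    (fxa2 : T.X u a v x = false)
    (fxb1 : T.X u x v b = false)
    (fxb2 : T.X u b v x = false)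
    (fya1 : T.X u y v a = false)
    (fya2 : T.X u a v y = false)
    (fyb1 : T.X u y v b = false)
    (fyb2 : T.X u b v y = false)
    (p0 : T.X u x v y = true)
    (p1 : T.X u y x a = true)
    (p2 : T.X u x y b = false)
    (q0 : T.X u a v b = true)
    (q1 : T.X v a y b = true)
    (q2 : T.X v b x a = false)
    (r : T.X y b x a = true) : False := by
  have g9 := c5a_18560_2176 (hL.four (.cons_cons _ (.cons _ (.cons_cons _ (.cons_cons _ (.cons_cons _ (List.nil_sublist _)))))))
  have g10 := c5a_556_516 (hL.four (.cons_cons _ (.cons_cons _ (.cons_cons _ (.cons_cons _ (List.nil_sublist _))))))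
  have g11 := c5a_9345_8321 (hL.four (.cons_cons _ (.cons_cons _ (.cons _ (.cons_cons _ (.cons_cons _ (List.nil_sublist _)))))))
  have g12 := c5a_18569_16521 (hL.four (.cons _ (.cons_cons _ (.cons_cons _ (.cons_cons _ (.cons_cons _ (List.nil_sublist _)))))))
  have g13 := c5a_16537_16513 (hL.four (.cons _ (.cons_cons _ (.cons_cons _ (.cons_cons _ (.cons_cons _ (List.nil_sublist _)))))))
  have s14 : T.X u b x a = true → False := fun n1 => by
    exact g9 q0 n1 q2
  have s15 : T.X u v y a = false → False := fun n1 => by
    exact g10 p0 n1 fya2 p1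
  have s16 : T.X u a y b = false → False := fun n1 => by
    have u1 : T.X u v y a = true := bt (fun t => s15 t)
    exact g11 u1 q0 n1 q1
  have s17 : T.X u y x b = true → False := fun n1 => by
    have u2 : T.X u a y b = true := bt (fun t => s16 t)
    have u3 : T.X u b x a = false := bf (fun t => s14 t)
    exact g12 p1 n1 u2 u3 r
  have u2 : T.X u y x b = false := bf (fun t => s17 t)
  have u4 : T.X u a y b = true := bt (fun t => s16 t)
  exact g13 p1 u2 p2 u4 r

theorem q_x_Sb20_Sb02 {u v y x a b : V} (hL : T.RotL u [v, y, x, a, b])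
    (e1 : T.X u v x a = true)
    (e2 : T.X u v y b = true)
    (fxa1 : T.X u x v a = false)
    (fxa2 : T.X u a v x = false)
    (fxb1 : T.X u x v b = false)
    (fxb2 : T.X u b v x = false)
    (fya1 : T.X u y v a = false)
    (fya2 : T.X u a v y = false)
    (fyb1 : T.X u y v b = false)
    (fyb2 : T.X u b v y = false)
    (p0 : T.X u x v y = true)
    (p1 : T.X u y x a = true)
    (p2 : T.X u x y b = false)
    (q0 : T.X u a v b = true)
    (q1 : T.X v a y b = false)
    (q2 : T.X v b x a = true)
    (r : T.X y b x a = true) : False := by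
  have g10 := c5a_9224_1032 (hL.four (.cons_cons _ (.cons _ (.cons_cons _ (.cons_cons _ (.cons_cons _ (List.nil_sublist _)))))))
  have g11 := c5a_24576_24576 (hL.four (.cons_cons _ (.cons _ (.cons_cons _ (.cons_cons _ (.cons_cons _ (List.nil_sublist _)))))))
  have g12 := c5a_16537_16513 (hL.four (.cons_cons _ (.cons _ (.cons_cons _ (.cons_cons _ (.cons_cons _ (List.nil_sublist _)))))))
  have g13 := c5a_18569_16521 (hL.four (.cons_cons _ (.cons _ (.cons_cons _ (.cons_cons _ (.cons_cons _ (List.nil_sublist _)))))))
  have g14 := c5a_18568_18440 (hL.four (.cons _ (.cons_cons _ (.cons_cons _ (.cons_cons _ (.cons_cons _ (List.nil_sublist _)))))))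
  have g15 := c5a_17433_16385 (hL.four (.cons _ (.cons_cons _ (.cons_cons _ (.cons_cons _ (.cons_cons _ (List.nil_sublist _)))))))
  have g16 := c5a_9224_1032 (hL.four (.cons_cons _ (.cons_cons _ (.cons _ (.cons_cons _ (.cons_cons _ (List.nil_sublist _)))))))
  have s17 : T.X v a x b = true → False := fun n1 => by
    exact g11 n1 q2
  have s18 : T.X u v x b = false → False := fun n1 => by
    exact g12 e1 n1 fxb1 q0 q2
  have s19 : T.X u a x b = true → False := fun n1 => by
    have u1 : T.X u v x b = true := bt (fun t => s18 t)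
    have u2 : T.X v a x b = false := bf (fun t => s17 t)
    exact g10 u1 n1 u2
  have s20 : T.X u b x a = false → False := fun n1 => by
    have u2 : T.X u v x b = true := bt (fun t => s18 t)
    exact g13 e1 u2 q0 n1 q2
  have s21 : T.X u y x b = true → T.X u a y b = false → False := fun n1 n2 => by
    have u1 : T.X u b x a = true := bt (fun t => s20 t)
    exact g14 n1 n2 u1 r
  have s22 : T.X u y x b = false → False := fun n1 => by
    have u3 : T.X u a x b = false := bf (fun t => s19 t)
    exact g15 p1 n1 p2 u3 r
  have s23 : T.X u a y b = false → False := fun n1 => by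
    have u1 : T.X u y x b = true := bt (fun t => s22 t)
    exact s21 u1 n1
  have u2 : T.X u a y b = true := bt (fun t => s23 t)
  exact g16 e2 u2 q1

theorem q_x_Sb02_N1 {u v y x a b : V} (hL : T.RotL u [v, y, x, a, b])
    (e1 : T.X u v x a = true)
    (e2 : T.X u v y b = true)
    (fxa1 : T.X u x v a = false)
    (fxa2 : T.X u a v x = false)
    (fxb1 : T.X u x v b = false)
    (fxb2 : T.X u b v x = false)
    (fya1 : T.X u y v a = false)
    (fya2 : T.X u a v y = false)
    (fyb1 : T.X u y v b = false)
    (fyb2 : T.X u b v y = false)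
    (p0 : T.X u x v y = true)
    (p1 : T.X u y x a = false)
    (p2 : T.X u x y b = true)
    (q0 : T.X u a v b = false)
    (q1 : T.X u b v a = false)
    (q2 : T.X u b x a = true)
    (r : T.X y b x a = true) : False := by
  have g8 := c5a_18577_18448 (hL.four (.cons _ (.cons_cons _ (.cons_cons _ (.cons_cons _ (.cons_cons _ (List.nil_sublist _)))))))
  have g9 := c5a_1164_1032 (hL.four (.cons_cons _ (.cons_cons _ (.cons _ (.cons_cons _ (.cons_cons _ (List.nil_sublist _)))))))
  have s10 : T.X u a y b = false → False := fun n1 => by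
    exact g8 p1 p2 n1 q2 r
  have u4 : T.X u a y b = true := bt (fun t => s10 t)
  exact g9 fya2 e2 q0 u4

theorem q_x_Sb02_N2 {u v y x b a : V} (hL : T.RotL u [v, y, x, b, a])
    (e1 : T.X u v x a = true)
    (e2 : T.X u v y b = true)
    (fxa1 : T.X u x v a = false)
    (fxa2 : T.X u a v x = false)
    (fxb1 : T.X u x v b = false)
    (fxb2 : T.X u b v x = false)
    (fya1 : T.X u y v a = false)
    (fya2 : T.X u a v y = false)
    (fyb1 : T.X u y v b = false)
    (fyb2 : T.X u b v y = false)
    (p0 : T.X u x v y = true)
    (p1 : T.X u y x a = false)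
    (p2 : T.X u x y b = true)
    (q0 : T.X u a v b = false)
    (q1 : T.X u b v a = false)
    (q2 : T.X v a y b = true)
    (r : T.X y b x a = true) : False := by
  have g10 := c5a_18577_18433 (hL.four (.cons_cons _ (.cons_cons _ (.cons _ (.cons_cons _ (.cons_cons _ (List.nil_sublist _)))))))
  have g11 := c5a_5_5 (hL.four (.cons_cons _ (.cons_cons _ (.cons_cons _ (.cons_cons _ (List.nil_sublist _))))))
  have g12 := c5a_1097_1032 (hL.four (.cons_cons _ (.cons_cons _ (.cons_cons _ (.cons_cons _ (List.nil_sublist _))))))
  have g13 := c5a_9482_8194 (hL.four (.cons _ (.cons_cons _ (.cons_cons _ (.cons_cons _ (.cons_cons _ (List.nil_sublist _)))))))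
  have g14 := c5a_1161_1033 (hL.four (.cons_cons _ (.cons _ (.cons_cons _ (.cons_cons _ (.cons_cons _ (List.nil_sublist _)))))))
  have s15 : T.X u a y b = true → False := fun n1 => by
    exact g10 e2 fya1 q1 n1 q2
  have s16 : T.X u v y x = true → False := fun n1 => by
    exact g11 n1 p0
  have s17 : T.X u v x b = false → False := fun n1 => by
    have u1 : T.X u v y x = false := bf (fun t => s16 t)
    exact g12 u1 e2 n1 p2
  have s18 : T.X u b x a = false → False := fun n1 => by
    have u3 : T.X u a y b = false := bf (fun t => s15 t)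
    exact g13 p2 p1 u3 n1 r
  have u1 : T.X u v x b = true := bt (fun t => s17 t)
  have u4 : T.X u b x a = true := bt (fun t => s18 t)
  exact g14 u1 e1 q1 u4

theorem q_x_Sb02_Sa {u v y x a b : V} (hL : T.RotL u [v, y, x, a, b])
    (e1 : T.X u v x a = true)
    (e2 : T.X u v y b = true)
    (fxa1 : T.X u x v a = false)
    (fxa2 : T.X u a v x = false)
    (fxb1 : T.X u x v b = false)
    (fxb2 : T.X u b v x = false)
    (fya1 : T.X u y v a = false)
    (fya2 : T.X u a v y = false)
    (fyb1 : T.X u y v b = false)
    (fyb2 : T.X u b v y = false)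
    (p0 : T.X u x v y = true)
    (p1 : T.X u y x a = false)
    (p2 : T.X u x y b = true)
    (q0 : T.X u b v a = true)
    (r : T.X y b x a = true) : False := by
  have g7 := c5a_1288_1288 (hL.four (.cons_cons _ (.cons_cons _ (.cons _ (.cons_cons _ (.cons_cons _ (List.nil_sublist _)))))))
  have g8 := c5a_18577_18448 (hL.four (.cons _ (.cons_cons _ (.cons_cons _ (.cons_cons _ (.cons_cons _ (List.nil_sublist _)))))))
  have g9 := c5a_2305_257 (hL.four (.cons_cons _ (.cons _ (.cons_cons _ (.cons_cons _ (.cons_cons _ (List.nil_sublist _)))))))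
  have s10 : T.X u a y b = true → False := fun n1 => by
    exact g7 e2 q0 n1
  have s11 : T.X u b x a = true → False := fun n1 => by
    have u3 : T.X u a y b = false := bf (fun t => s10 t)
    exact g8 p1 p2 u3 n1 r
  have u3 : T.X u b x a = false := bf (fun t => s11 t)
  exact g9 e1 q0 u3

theorem q_x_Sb02_Sb0 {u v y x b a : V} (hL : T.RotL u [v, y, x, b, a])
    (e1 : T.X u v x a = true)
    (e2 : T.X u v y b = true)
    (fxa1 : T.X u x v a = false)
    (fxa2 : T.X u a v x = false)
    (fxb1 : T.X u x v b = false)
    (fxb2 : T.X u b v x = false)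
    (fya1 : T.X u y v a = false)
    (fya2 : T.X u a v y = false)
    (fyb1 : T.X u y v b = false)
    (fyb2 : T.X u b v y = false)
    (p0 : T.X u x v y = true)
    (p1 : T.X u y x a = false)
    (p2 : T.X u x y b = true)
    (q0 : T.X u b v a = true)
    (q1 : T.X v a y b = false)
    (q2 : T.X v b x a = false)
    (r : T.X y b x a = true) : False := by
  have g8 := c5a_18560_2176 (hL.four (.cons_cons _ (.cons_cons _ (.cons _ (.cons_cons _ (.cons_cons _ (List.nil_sublist _)))))))
  have g9 := c5a_9482_8194 (hL.four (.cons _ (.cons_cons _ (.cons_cons _ (.cons_cons _ (.cons_cons _ (List.nil_sublist _)))))))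
  have g10 := c5a_9224_1032 (hL.four (.cons_cons _ (.cons _ (.cons_cons _ (.cons_cons _ (.cons_cons _ (List.nil_sublist _)))))))
  have s11 : T.X u a y b = true → False := fun n1 => by
    exact g8 q0 n1 q1
  have s12 : T.X u b x a = false → False := fun n1 => by
    have u3 : T.X u a y b = false := bf (fun t => s11 t)
    exact g9 p2 p1 u3 n1 r
  have u2 : T.X u b x a = true := bt (fun t => s12 t)
  exact g10 e1 u2 q2

theorem q_x_Sb02_Sb20 {u v y x a b : V} (hL : T.RotL u [v, y, x, a, b])
    (e1 : T.X u v x a = true)
    (e2 : T.X u v y b = true)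
    (fxa1 : T.X u x v a = false)
    (fxa2 : T.X u a v x = false)
    (fxb1 : T.X u x v b = false)
    (fxb2 : T.X u b v x = false)
    (fya1 : T.X u y v a = false)
    (fya2 : T.X u a v y = false)
    (fyb1 : T.X u y v b = false)
    (fyb2 : T.X u b v y = false)
    (p0 : T.X u x v y = true)
    (p1 : T.X u y x a = false)
    (p2 : T.X u x y b = true)
    (q0 : T.X u a v b = true)
    (q1 : T.X v a y b = true)
    (q2 : T.X v b x a = false)
    (r : T.X y b x a = true) : False := by
  have g8 := c5a_18560_2176 (hL.four (.cons_cons _ (.cons _ (.cons_cons _ (.cons_cons _ (.cons_cons _ (List.nil_sublist _)))))))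
  have g9 := c5a_8329_8328 (hL.four (.cons_cons _ (.cons_cons _ (.cons _ (.cons_cons _ (.cons_cons _ (List.nil_sublist _)))))))
  have g10 := c5a_9345_8321 (hL.four (.cons_cons _ (.cons_cons _ (.cons _ (.cons_cons _ (.cons_cons _ (List.nil_sublist _)))))))
  have g11 := c5a_16531_16528 (hL.four (.cons _ (.cons_cons _ (.cons_cons _ (.cons_cons _ (.cons_cons _ (List.nil_sublist _)))))))
  have g12 := c5a_18562_16514 (hL.four (.cons _ (.cons_cons _ (.cons_cons _ (.cons_cons _ (.cons_cons _ (List.nil_sublist _)))))))
  have s13 : T.X u b x a = true → False := fun n1 => by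
    exact g8 q0 n1 q2
  have s14 : T.X u v y a = false → False := fun n1 => by
    exact g9 n1 e2 q0 q1
  have s15 : T.X u a y b = false → False := fun n1 => by
    have u1 : T.X u v y a = true := bt (fun t => s14 t)
    exact g10 u1 q0 n1 q1
  have s16 : T.X u x y a = false → False := fun n1 => by
    have u3 : T.X u a y b = true := bt (fun t => s15 t)
    exact g11 p1 n1 p2 u3 r
  have u1 : T.X u x y a = true := bt (fun t => s16 t)
  have u2 : T.X u a y b = true := bt (fun t => s15 t)
  have u3 : T.X u b x a = false := bf (fun t => s13 t)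
  exact g12 u1 u2 u3 r

theorem q_x_Sb02_Sb02 {u v y x a b : V} (hL : T.RotL u [v, y, x, a, b])
    (e1 : T.X u v x a = true)
    (e2 : T.X u v y b = true)
    (fxa1 : T.X u x v a = false)
    (fxa2 : T.X u a v x = false)
    (fxb1 : T.X u x v b = false)
    (fxb2 : T.X u b v x = false)
    (fya1 : T.X u y v a = false)
    (fya2 : T.X u a v y = false)
    (fyb1 : T.X u y v b = false)
    (fyb2 : T.X u b v y = false)
    (p0 : T.X u x v y = true)
    (p1 : T.X u y x a = false)
    (p2 : T.X u x y b = true)
    (q0 : T.X u a v b = true)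
    (q1 : T.X v a y b = false)
    (q2 : T.X v b x a = true)
    (r : T.X y b x a = true) : False := by
  have g10 := c5a_9224_1032 (hL.four (.cons_cons _ (.cons_cons _ (.cons _ (.cons_cons _ (.cons_cons _ (List.nil_sublist _)))))))
  have g11 := c5a_5_5 (hL.four (.cons_cons _ (.cons_cons _ (.cons_cons _ (.cons_cons _ (List.nil_sublist _))))))
  have g12 := c5a_1097_1032 (hL.four (.cons_cons _ (.cons_cons _ (.cons_cons _ (.cons _ (.cons_cons _ (List.nil_sublist _)))))))
  have g13 := c5a_18577_18448 (hL.four (.cons _ (.cons_cons _ (.cons_cons _ (.cons_cons _ (.cons_cons _ (List.nil_sublist _)))))))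
  have g14 := c5a_18569_16521 (hL.four (.cons_cons _ (.cons _ (.cons_cons _ (.cons_cons _ (.cons_cons _ (List.nil_sublist _)))))))
  have s15 : T.X u a y b = true → False := fun n1 => by
    exact g10 e2 n1 q1
  have s16 : T.X u v y x = true → False := fun n1 => by
    exact g11 n1 p0
  have s17 : T.X u v x b = false → False := fun n1 => by
    have u1 : T.X u v y x = false := bf (fun t => s16 t)
    exact g12 u1 e2 n1 p2
  have s18 : T.X u b x a = true → False := fun n1 => by
    have u3 : T.X u a y b = false := bf (fun t => s15 t)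
    exact g13 p1 p2 u3 n1 r
  have u2 : T.X u v x b = true := bt (fun t => s17 t)
  have u4 : T.X u b x a = false := bf (fun t => s18 t)
  exact g14 e1 u2 q0 u4 q2

end H98Q
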