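import Pool.Agent.Lib.H53P.C0

/-! # H98S, finite facts, file K5: crossing tables on five points -/

namespace H53P

variable {V : Type*} (T : Table V)

theorem Table.xs1 (a b c d : V) : T.X a b c d = T.X b a c d := T.symm1 a b c d

theorem Table.xs2 (a b c d : V) : T.X a b c d = T.X a b d c := by
  rw [T.symm2 a b c d, T.symm1 c d a b, T.symm2 d c a b]

theorem Table.xs3 (a b c d : V) : T.X a b c d = T.X b a d c := by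
  rw [T.xs1 a b c d, T.xs2 b a c d]

theorem Table.xs4 (a b c d : V) : T.X a b c d = T.X c d a b := T.symm2 a b c d

theorem Table.xs5 (a b c d : V) : T.X a b c d = T.X d c a b := by
  rw [T.xs4 a b c d, T.xs1 c d a b]

theorem Table.xs6 (a b c d : V) : T.X a b c d = T.X c d b a := by
  rw [T.xs4 a b c d, T.xs2 c d a b]

theorem Table.xs7 (a b c d : V) : T.X a b c d = T.X d c b a := by
  rw [T.xs4 a b c d, T.xs3 c d a b]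

theorem Table.k4a (a b c d : V) : (!(T.X a b c d && T.X a c b d)) = true := by
  cases h : T.X a b c d with
  | false => rfl
  | true => rw [T.one a b c d h]; rfl

theorem Table.k4b (a b c d : V) : (!(T.X a b c d && T.X a d b c)) = true := by
  rw [T.xs2 a b c d]
  exact T.k4a a b d c

theorem Table.k4c (a b c d : V) : (!(T.X a c b d && T.X a d b c)) = true := by
  rw [T.xs2 a c b d, T.xs2 a d b c]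
  exact T.k4a a c d b

/-- exactly one of the three pairings of four different reals alternates -/
theorem alt3_real {w x y z : ℝ} (h1 : w ≠ x) (h2 : w ≠ y) (h3 : w ≠ z) (h4 : x ≠ y) (h5 : x ≠ z) (h6 : y ≠ z) :
    (((btw w x y ^^ btw w x z) ^^ (btw w y x ^^ btw w y z)) ^^ (btw w z x ^^ btw w z y)) = true ∧
    ((btw w x y ^^ btw w x z) && (btw w y x ^^ btw w y z)) = false := by
  unfold btw
  rcases lt_or_gt_of_ne h1 with a1 | a1 <;> rcases lt_or_gt_of_ne h2 with a2 | a2 <;>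
  rcases lt_or_gt_of_ne h3 with a3 | a3 <;> rcases lt_or_gt_of_ne h4 with a4 | a4 <;>
  rcases lt_or_gt_of_ne h5 with a5 | a5 <;> rcases lt_or_gt_of_ne h6 with a6 | a6 <;>
  first
  | (exfalso; linarith)
  | simp [a1, a2, a3, a4, a5, a6, not_lt.2 a1.le, not_lt.2 a2.le, not_lt.2 a3.le, not_lt.2 a4.le, not_lt.2 a5.le, not_lt.2 a6.le]

theorem Table.rot3 {u a b c d : V} (ha : a ≠ u) (hb : b ≠ u) (hc : c ≠ u) (hd : d ≠ u) (h1 : a ≠ b) (h2 : a ≠ c)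
    (h3 : a ≠ d) (h4 : b ≠ c) (h5 : b ≠ d) (h6 : c ≠ d) :
    (((altX T.X u a b c d ^^ altX T.X u a c b d) ^^ altX T.X u a d b c)) = true ∧
    (!(altX T.X u a b c d && altX T.X u a c b d)) = true := by
  obtain ⟨ρ, -, hi, hr⟩ := T.rot u a ha.symm
  rw [hr a b c d ha hb hc hd h1 h2 h3 h4 h5 h6, hr a c b d ha hc hb hd h2 h1 h3 h4.symm h6 h5,
    hr a d b c ha hd hb hc h3 h1 h2 h5.symm h6.symm h4]
  have h := @alt3_real (ρ a) (ρ b) (ρ c) (ρ d) (fun h => h1 (hi _ _ ha hb h)) (fun h => h2 (hi _ _ ha hc h))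
    (fun h => h3 (hi _ _ ha hd h)) (fun h => h4 (hi _ _ hb hc h)) (fun h => h5 (hi _ _ hb hd h)) (fun h => h6 (hi _ _ hc hd h))
  refine ⟨h.1, ?_⟩
  rw [h.2]
  rfl

theorem Table.sep5 {a b c x y : V} (h1 : a ≠ b) (h2 : b ≠ c) (h3 : c ≠ a) (hxa : x ≠ a) (hxb : x ≠ b) (hxc : x ≠ c)
    (hya : y ≠ a) (hyb : y ≠ b) (hyc : y ≠ c) :
    (!(((!T.X x a b c && !T.X y b c a) && ((T.X x y a b ^^ T.X x y b c) ^^ T.X x y c a)) && T.X x a y b)) = true := by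
  have f1 : T.X x a a b = false := by
    cases h : T.X x a a b with
    | false => rfl
    | true => exact absurd rfl (T.ne _ _ _ _ h).2.2.2.2.1
  have f2 : T.X x a c a = false := by
    cases h : T.X x a c a with
    | false => rfl
    | true => exact absurd rfl (T.ne _ _ _ _ h).2.2.2.2.2
  have f3 : T.X y b a b = false := by
    cases h : T.X y b a b with
    | false => rfl
    | true => exact absurd rfl (T.ne _ _ _ _ h).2.2.2.2.2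
  have f4 : T.X y b b c = false := by
    cases h : T.X y b b c with
    | false => rfl
    | true => exact absurd rfl (T.ne _ _ _ _ h).2.2.2.2.1
  have key := T.sep a b c h1 h2 h3 x y a b hxa hxb hxc hya hyb hyc f1
  cases g1 : T.X x a b c with
  | true => rfl
  | false =>
    cases g2 : T.X y b c a with
    | true => rfl
    | false =>
      cases g3 : ((T.X x y a b ^^ T.X x y b c) ^^ T.X x y c a) with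
      | false => rfl
      | true => rw [key g1 f2 f3 f4 g2 g3]; rfl

/-- the conditions on the 15 crossings of five points -/
def ok5 (b0 b1 b2 b3 b4 b5 b6 b7 b8 b9 b10 b11 b12 b13 b14 : Bool) : Bool :=
  (!(b0 && b1) && 
  (!(b0 && b2) && 
  (!(b1 && b2) && 
  (!(b3 && b4) && 
  (!(b3 && b5) && 
  (!(b4 && b5) && 
  (!(b6 && b7) && 
  (!(b6 && b8) && 
  (!(b7 && b8) && 
  (!(b9 && b10) && 
  (!(b9 && b11) && 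
  (!(b10 && b11) && 
  (!(b12 && b13) && 
  (!(b12 && b14) && 
  (!(b13 && b14) && 
  (((((((b6 ^^ b9) ^^ b2) ^^ b5) ^^ b12) ^^ ((((b3 ^^ b10) ^^ b1) ^^ b8) ^^ b13)) ^^ ((((b0 ^^ b11) ^^ b4) ^^ b7) ^^ b14)) && 
  (!(((((b6 ^^ b9) ^^ b2) ^^ b5) ^^ b12) && ((((b3 ^^ b10) ^^ b1) ^^ b8) ^^ b13)) && 
  (((((((b6 ^^ b12) ^^ b1) ^^ b4) ^^ b9) ^^ ((((b3 ^^ b13) ^^ b2) ^^ b7) ^^ b10)) ^^ ((((b0 ^^ b14) ^^ b5) ^^ b8) ^^ b11)) && 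
  (!(((((b6 ^^ b12) ^^ b1) ^^ b4) ^^ b9) && ((((b3 ^^ b13) ^^ b2) ^^ b7) ^^ b10)) && 
  (((((((b9 ^^ b12) ^^ b0) ^^ b3) ^^ b6) ^^ ((((b4 ^^ b14) ^^ b2) ^^ b10) ^^ b7)) ^^ ((((b1 ^^ b13) ^^ b5) ^^ b11) ^^ b8)) && 
  (!(((((b9 ^^ b12) ^^ b0) ^^ b3) ^^ b6) && ((((b4 ^^ b14) ^^ b2) ^^ b10) ^^ b7)) && 
  (((((((b10 ^^ b13) ^^ b0) ^^ b6) ^^ b3) ^^ ((((b7 ^^ b14) ^^ b1) ^^ b9) ^^ b4)) ^^ ((((b2 ^^ b12) ^^ b8) ^^ b11) ^^ b5)) && 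
  (!(((((b10 ^^ b13) ^^ b0) ^^ b6) ^^ b3) && ((((b7 ^^ b14) ^^ b1) ^^ b9) ^^ b4)) && 
  (((((((b11 ^^ b14) ^^ b3) ^^ b6) ^^ b0) ^^ ((((b8 ^^ b13) ^^ b4) ^^ b9) ^^ b1)) ^^ ((((b5 ^^ b12) ^^ b7) ^^ b10) ^^ b2)) && 
  (!(((((b11 ^^ b14) ^^ b3) ^^ b6) ^^ b0) && ((((b8 ^^ b13) ^^ b4) ^^ b9) ^^ b1)) && 
  (!(((!b2 && !b4) && ((b6 ^^ b12) ^^ b9)) && b7) && 
  (!(((!b2 && !b3) && ((b9 ^^ b12) ^^ b6)) && b10) && 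
  (!(((!b1 && !b5) && ((b6 ^^ b9) ^^ b12)) && b8) && 
  (!(((!b1 && !b3) && ((b12 ^^ b9) ^^ b6)) && b13) && 
  (!(((!b0 && !b5) && ((b9 ^^ b6) ^^ b12)) && b11) && 
  (!(((!b0 && !b4) && ((b12 ^^ b6) ^^ b9)) && b14) && 
  (!(((!b1 && !b7) && ((b3 ^^ b13) ^^ b10)) && b4) && 
  (!(((!b1 && !b6) && ((b10 ^^ b13) ^^ b3)) && b9) && 
  (!(((!b2 && !b8) && ((b3 ^^ b10) ^^ b13)) && b5) && 
  (!(((!b2 && !b6) && ((b13 ^^ b10) ^^ b3)) && b12) && 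
  (!(((!b0 && !b8) && ((b10 ^^ b3) ^^ b13)) && b11) && 
  (!(((!b0 && !b7) && ((b13 ^^ b3) ^^ b10)) && b14) && 
  (!(((!b4 && !b8) && ((b0 ^^ b14) ^^ b11)) && b1) && 
  (!(((!b4 && !b6) && ((b11 ^^ b14) ^^ b0)) && b9) && 
  (!(((!b5 && !b7) && ((b0 ^^ b11) ^^ b14)) && b2) && 
  (!(((!b5 && !b6) && ((b14 ^^ b11) ^^ b0)) && b12) && 
  (!(((!b3 && !b7) && ((b11 ^^ b0) ^^ b14)) && b10) && 
  (!(((!b3 && !b8) && ((b14 ^^ b0) ^^ b11)) && b13) && 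
  (!(((!b0 && !b10) && ((b4 ^^ b14) ^^ b7)) && b3) && 
  (!(((!b0 && !b9) && ((b7 ^^ b14) ^^ b4)) && b6) && 
  (!(((!b2 && !b11) && ((b4 ^^ b7) ^^ b14)) && b5) && 
  (!(((!b2 && !b9) && ((b14 ^^ b7) ^^ b4)) && b12) && 
  (!(((!b1 && !b11) && ((b7 ^^ b4) ^^ b14)) && b8) && 
  (!(((!b1 && !b10) && ((b14 ^^ b4) ^^ b7)) && b13) && 
  (!(((!b3 && !b11) && ((b1 ^^ b13) ^^ b8)) && b0) && 
  (!(((!b3 && !b9) && ((b8 ^^ b13) ^^ b1)) && b6) && 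
  (!(((!b5 && !b10) && ((b1 ^^ b8) ^^ b13)) && b2) && 
  (!(((!b5 && !b9) && ((b13 ^^ b8) ^^ b1)) && b12) && 
  (!(((!b4 && !b10) && ((b8 ^^ b1) ^^ b13)) && b7) && 
  (!(((!b4 && !b11) && ((b13 ^^ b1) ^^ b8)) && b14) && 
  (!(((!b6 && !b11) && ((b2 ^^ b12) ^^ b5)) && b0) && 
  (!(((!b6 && !b10) && ((b5 ^^ b12) ^^ b2)) && b3) && 
  (!(((!b8 && !b9) && ((b2 ^^ b5) ^^ b12)) && b1) && 
  (!(((!b8 && !b10) && ((b12 ^^ b5) ^^ b2)) && b13) && 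
  (!(((!b7 && !b9) && ((b5 ^^ b2) ^^ b12)) && b4) && 
  (!(((!b7 && !b11) && ((b12 ^^ b2) ^^ b5)) && b14) && 
  (!(((!b0 && !b13) && ((b5 ^^ b11) ^^ b8)) && b3) && 
  (!(((!b0 && !b12) && ((b8 ^^ b11) ^^ b5)) && b6) && 
  (!(((!b1 && !b14) && ((b5 ^^ b8) ^^ b11)) && b4) && 
  (!(((!b1 && !b12) && ((b11 ^^ b8) ^^ b5)) && b9) && 
  (!(((!b2 && !b14) && ((b8 ^^ b5) ^^ b11)) && b7) && 
  (!(((!b2 && !b13) && ((b11 ^^ b5) ^^ b8)) && b10) && 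
  (!(((!b3 && !b14) && ((b2 ^^ b10) ^^ b7)) && b0) && 
  (!(((!b3 && !b12) && ((b7 ^^ b10) ^^ b2)) && b6) && 
  (!(((!b4 && !b13) && ((b2 ^^ b7) ^^ b10)) && b1) && 
  (!(((!b4 && !b12) && ((b10 ^^ b7) ^^ b2)) && b9) && 
  (!(((!b5 && !b13) && ((b7 ^^ b2) ^^ b10)) && b8) && 
  (!(((!b5 && !b14) && ((b10 ^^ b2) ^^ b7)) && b11) && 
  (!(((!b6 && !b14) && ((b1 ^^ b9) ^^ b4)) && b0) && 
  (!(((!b6 && !b13) && ((b4 ^^ b9) ^^ b1)) && b3) && 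
  (!(((!b7 && !b12) && ((b1 ^^ b4) ^^ b9)) && b2) && 
  (!(((!b7 && !b13) && ((b9 ^^ b4) ^^ b1)) && b10) && 
  (!(((!b8 && !b12) && ((b4 ^^ b1) ^^ b9)) && b5) && 
  (!(((!b8 && !b14) && ((b9 ^^ b1) ^^ b4)) && b11) && 
  (!(((!b9 && !b13) && ((b0 ^^ b6) ^^ b3)) && b1) && 
  (!(((!b9 && !b14) && ((b3 ^^ b6) ^^ b0)) && b4) && 
  (!(((!b10 && !b12) && ((b0 ^^ b3) ^^ b6)) && b2) && 
  (!(((!b10 && !b14) && ((b6 ^^ b3) ^^ b0)) && b7) && 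
  (!(((!b11 && !b12) && ((b3 ^^ b0) ^^ b6)) && b5) && 
  !(((!b11 && !b13) && ((b6 ^^ b0) ^^ b3)) && b8)))))))))))))))))))))))))))))))))))))))))))))))))))))))))))))))))))))))))))))))))))))

theorem and_i {a b : Bool} (ha : a = true) (hb : b = true) : (a && b) = true := by rw [ha, hb]; rfl

/-- five different points satisfy the conditions -/
def Table.Ok5 (p0 p1 p2 p3 p4 : V) : Prop :=
  ok5 (T.X p0 p1 p2 p3) (T.X p0 p2 p1 p3) (T.X p0 p3 p1 p2) (T.X p0 p1 p2 p4) (T.X p0 p2 p1 p4) (T.X p0 p4 p1 p2) (T.X p0 p1 p3 p4) (T.X p0 p3 p1 p4) (T.X p0 p4 p1 p3) (T.X p0 p2 p3 p4) (T.X p0 p3 p2 p4) (T.X p0 p4 p2 p3) (T.X p1 p2 p3 p4) (T.X p1 p3 p2 p4) (T.X p1 p4 p2 p3) = true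

theorem Table.ok5 {p0 p1 p2 p3 p4 : V} (h01 : p0 ≠ p1) (h02 : p0 ≠ p2) (h03 : p0 ≠ p3) (h04 : p0 ≠ p4) (h12 : p1 ≠ p2) (h13 : p1 ≠ p3) (h14 : p1 ≠ p4) (h23 : p2 ≠ p3) (h24 : p2 ≠ p4) (h34 : p3 ≠ p4) :
    T.Ok5 p0 p1 p2 p3 p4 := by
  unfold Table.Ok5 H53P.ok5
  have c0 := T.k4a p0 p1 p2 p3
  have c1 := T.k4b p0 p1 p2 p3
  have c2 := T.k4c p0 p1 p2 p3
  have c3 := T.k4a p0 p1 p2 p4
  have c4 := T.k4b p0 p1 p2 p4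
  have c5 := T.k4c p0 p1 p2 p4
  have c6 := T.k4a p0 p1 p3 p4
  have c7 := T.k4b p0 p1 p3 p4
  have c8 := T.k4c p0 p1 p3 p4
  have c9 := T.k4a p0 p2 p3 p4
  have c10 := T.k4b p0 p2 p3 p4
  have c11 := T.k4c p0 p2 p3 p4
  have c12 := T.k4a p1 p2 p3 p4
  have c13 := T.k4b p1 p2 p3 p4
  have c14 := T.k4c p1 p2 p3 p4
  have c15 := (T.rot3 (h01.symm) (h02.symm) (h03.symm) (h04.symm) (h12) (h13) (h14) (h23) (h24) (h34)).1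
  unfold altX at c15
  rw [T.xs4 p1 p2 p0 p3, T.xs4 p1 p2 p0 p4, T.xs4 p1 p3 p0 p2, T.xs4 p1 p3 p0 p4, T.xs4 p1 p4 p0 p2, T.xs4 p1 p4 p0 p3] at c15
  have c16 := (T.rot3 (h01.symm) (h02.symm) (h03.symm) (h04.symm) (h12) (h13) (h14) (h23) (h24) (h34)).2
  unfold altX at c16
  rw [T.xs4 p1 p2 p0 p3, T.xs4 p1 p2 p0 p4, T.xs4 p1 p3 p0 p2, T.xs4 p1 p3 p0 p4] at c16
  have c17 := (T.rot3 (h01) (h12.symm) (h13.symm) (h14.symm) (h02) (h03) (h04) (h23) (h24) (h34)).1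
  unfold altX at c17
  rw [T.xs1 p1 p0 p3 p4, T.xs1 p1 p0 p2 p4, T.xs1 p1 p0 p2 p3] at c17
  have c18 := (T.rot3 (h01) (h12.symm) (h13.symm) (h14.symm) (h02) (h03) (h04) (h23) (h24) (h34)).2
  unfold altX at c18
  rw [T.xs1 p1 p0 p3 p4, T.xs1 p1 p0 p2 p4] at c18
  have c19 := (T.rot3 (h02) (h12) (h23.symm) (h24.symm) (h01) (h03) (h04) (h13) (h14) (h34)).1
  unfold altX at c19
  rw [T.xs1 p2 p0 p3 p4, T.xs1 p2 p1 p3 p4, T.xs1 p2 p0 p1 p4, T.xs4 p2 p3 p1 p4, T.xs2 p0 p3 p2 p1, T.xs1 p2 p0 p1 p3, T.xs4 p2 p4 p1 p3, T.xs2 p0 p4 p2 p1] at c19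
  have c20 := (T.rot3 (h02) (h12) (h23.symm) (h24.symm) (h01) (h03) (h04) (h13) (h14) (h34)).2
  unfold altX at c20
  rw [T.xs1 p2 p0 p3 p4, T.xs1 p2 p1 p3 p4, T.xs1 p2 p0 p1 p4, T.xs4 p2 p3 p1 p4, T.xs2 p0 p3 p2 p1] at c20
  have c21 := (T.rot3 (h03) (h13) (h23) (h34.symm) (h01) (h02) (h04) (h12) (h14) (h24)).1
  unfold altX at c21
  rw [T.xs1 p3 p0 p2 p4, T.xs1 p3 p1 p2 p4, T.xs2 p0 p1 p3 p2, T.xs1 p3 p0 p1 p4, T.xs6 p3 p2 p1 p4, T.xs2 p0 p2 p3 p1, T.xs1 p3 p0 p1 p2, T.xs4 p3 p4 p1 p2, T.xs2 p0 p4 p3 p1, T.xs2 p0 p4 p3 p2] at c21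
  have c22 := (T.rot3 (h03) (h13) (h23) (h34.symm) (h01) (h02) (h04) (h12) (h14) (h24)).2
  unfold altX at c22
  rw [T.xs1 p3 p0 p2 p4, T.xs1 p3 p1 p2 p4, T.xs2 p0 p1 p3 p2, T.xs1 p3 p0 p1 p4, T.xs6 p3 p2 p1 p4, T.xs2 p0 p2 p3 p1] at c22
  have c23 := (T.rot3 (h04) (h14) (h24) (h34) (h01) (h02) (h03) (h12) (h13) (h23)).1
  unfold altX at c23
  rw [T.xs1 p4 p0 p2 p3, T.xs1 p4 p1 p2 p3, T.xs2 p0 p1 p4 p2, T.xs2 p0 p1 p4 p3, T.xs1 p4 p0 p1 p3, T.xs6 p4 p2 p1 p3, T.xs2 p0 p2 p4 p1, T.xs2 p0 p2 p4 p3, T.xs1 p4 p0 p1 p2, T.xs6 p4 p3 p1 p2, T.xs2 p0 p3 p4 p1, T.xs2 p0 p3 p4 p2] at c23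
  have c24 := (T.rot3 (h04) (h14) (h24) (h34) (h01) (h02) (h03) (h12) (h13) (h23)).2
  unfold altX at c24
  rw [T.xs1 p4 p0 p2 p3, T.xs1 p4 p1 p2 p3, T.xs2 p0 p1 p4 p2, T.xs2 p0 p1 p4 p3, T.xs1 p4 p0 p1 p3, T.xs6 p4 p2 p1 p3, T.xs2 p0 p2 p4 p1, T.xs2 p0 p2 p4 p3] at c24
  have c25 := T.sep5 (h01) (h12) (h02.symm) (h03.symm) (h13.symm) (h23.symm) (h04.symm) (h14.symm) (h24.symm)
  rw [T.xs1 p3 p0 p1 p2, T.xs7 p4 p1 p2 p0, T.xs4 p3 p4 p0 p1, T.xs4 p3 p4 p1 p2, T.xs5 p3 p4 p2 p0, T.xs3 p3 p0 p4 p1] at c25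
  have c26 := T.sep5 (h02) (h12.symm) (h01.symm) (h03.symm) (h23.symm) (h13.symm) (h04.symm) (h24.symm) (h14.symm)
  rw [T.xs3 p3 p0 p2 p1, T.xs7 p4 p2 p1 p0, T.xs4 p3 p4 p0 p2, T.xs5 p3 p4 p2 p1, T.xs5 p3 p4 p1 p0, T.xs3 p3 p0 p4 p2] at c26
  have c27 := T.sep5 (h01.symm) (h02) (h12.symm) (h13.symm) (h03.symm) (h23.symm) (h14.symm) (h04.symm) (h24.symm)
  rw [T.xs6 p3 p1 p0 p2, T.xs3 p4 p0 p2 p1, T.xs5 p3 p4 p1 p0, T.xs4 p3 p4 p0 p2, T.xs5 p3 p4 p2 p1, T.xs7 p3 p1 p4 p0] at c27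
  have c28 := T.sep5 (h12) (h02.symm) (h01) (h13.symm) (h23.symm) (h03.symm) (h14.symm) (h24.symm) (h04.symm)
  rw [T.xs7 p3 p1 p2 p0, T.xs6 p4 p2 p0 p1, T.xs4 p3 p4 p1 p2, T.xs5 p3 p4 p2 p0, T.xs4 p3 p4 p0 p1, T.xs3 p3 p1 p4 p2] at c28
  have c29 := T.sep5 (h02.symm) (h01) (h12) (h23.symm) (h03.symm) (h13.symm) (h24.symm) (h04.symm) (h14.symm)
  rw [T.xs6 p3 p2 p0 p1, T.xs1 p4 p0 p1 p2, T.xs5 p3 p4 p2 p0, T.xs4 p3 p4 p0 p1, T.xs4 p3 p4 p1 p2, T.xs7 p3 p2 p4 p0] at c29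
  have c30 := T.sep5 (h12.symm) (h01.symm) (h02) (h23.symm) (h13.symm) (h03.symm) (h24.symm) (h14.symm) (h04.symm)
  rw [T.xs7 p3 p2 p1 p0, T.xs6 p4 p1 p0 p2, T.xs5 p3 p4 p2 p1, T.xs5 p3 p4 p1 p0, T.xs4 p3 p4 p0 p2, T.xs7 p3 p2 p4 p1] at c30
  have c31 := T.sep5 (h01) (h13) (h03.symm) (h02.symm) (h12.symm) (h23) (h04.symm) (h14.symm) (h34.symm)
  rw [T.xs1 p2 p0 p1 p3, T.xs7 p4 p1 p3 p0, T.xs4 p2 p4 p0 p1, T.xs4 p2 p4 p1 p3, T.xs5 p2 p4 p3 p0, T.xs3 p2 p0 p4 p1] at c31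
  have c32 := T.sep5 (h03) (h13.symm) (h01.symm) (h02.symm) (h23) (h12.symm) (h04.symm) (h34.symm) (h14.symm)
  rw [T.xs3 p2 p0 p3 p1, T.xs7 p4 p3 p1 p0, T.xs4 p2 p4 p0 p3, T.xs5 p2 p4 p3 p1, T.xs5 p2 p4 p1 p0, T.xs3 p2 p0 p4 p3] at c32
  have c33 := T.sep5 (h01.symm) (h03) (h13.symm) (h12.symm) (h02.symm) (h23) (h14.symm) (h04.symm) (h34.symm)
  rw [T.xs6 p2 p1 p0 p3, T.xs3 p4 p0 p3 p1, T.xs5 p2 p4 p1 p0, T.xs4 p2 p4 p0 p3, T.xs5 p2 p4 p3 p1, T.xs7 p2 p1 p4 p0] at c33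
  have c34 := T.sep5 (h13) (h03.symm) (h01) (h12.symm) (h23) (h02.symm) (h14.symm) (h34.symm) (h04.symm)
  rw [T.xs7 p2 p1 p3 p0, T.xs6 p4 p3 p0 p1, T.xs4 p2 p4 p1 p3, T.xs5 p2 p4 p3 p0, T.xs4 p2 p4 p0 p1, T.xs3 p2 p1 p4 p3] at c34
  have c35 := T.sep5 (h03.symm) (h01) (h13) (h23) (h02.symm) (h12.symm) (h34.symm) (h04.symm) (h14.symm)
  rw [T.xs4 p2 p3 p0 p1, T.xs1 p4 p0 p1 p3, T.xs5 p2 p4 p3 p0, T.xs4 p2 p4 p0 p1, T.xs4 p2 p4 p1 p3, T.xs5 p2 p3 p4 p0] at c35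
  have c36 := T.sep5 (h13.symm) (h01.symm) (h03) (h23) (h12.symm) (h02.symm) (h34.symm) (h14.symm) (h04.symm)
  rw [T.xs5 p2 p3 p1 p0, T.xs6 p4 p1 p0 p3, T.xs5 p2 p4 p3 p1, T.xs5 p2 p4 p1 p0, T.xs4 p2 p4 p0 p3, T.xs5 p2 p3 p4 p1] at c36
  have c37 := T.sep5 (h01) (h14) (h04.symm) (h02.symm) (h12.symm) (h24) (h03.symm) (h13.symm) (h34)
  rw [T.xs1 p2 p0 p1 p4, T.xs7 p3 p1 p4 p0, T.xs4 p2 p3 p0 p1, T.xs4 p2 p3 p1 p4, T.xs5 p2 p3 p4 p0, T.xs3 p2 p0 p3 p1] at c37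
  have c38 := T.sep5 (h04) (h14.symm) (h01.symm) (h02.symm) (h24) (h12.symm) (h03.symm) (h34) (h13.symm)
  rw [T.xs3 p2 p0 p4 p1, T.xs5 p3 p4 p1 p0, T.xs4 p2 p3 p0 p4, T.xs5 p2 p3 p4 p1, T.xs5 p2 p3 p1 p0, T.xs1 p2 p0 p3 p4] at c38
  have c39 := T.sep5 (h01.symm) (h04) (h14.symm) (h12.symm) (h02.symm) (h24) (h13.symm) (h03.symm) (h34)
  rw [T.xs6 p2 p1 p0 p4, T.xs3 p3 p0 p4 p1, T.xs5 p2 p3 p1 p0, T.xs4 p2 p3 p0 p4, T.xs5 p2 p3 p4 p1, T.xs7 p2 p1 p3 p0] at c39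
  have c40 := T.sep5 (h14) (h04.symm) (h01) (h12.symm) (h24) (h02.symm) (h13.symm) (h34) (h03.symm)
  rw [T.xs7 p2 p1 p4 p0, T.xs4 p3 p4 p0 p1, T.xs4 p2 p3 p1 p4, T.xs5 p2 p3 p4 p0, T.xs4 p2 p3 p0 p1, T.xs1 p2 p1 p3 p4] at c40
  have c41 := T.sep5 (h04.symm) (h01) (h14) (h24) (h02.symm) (h12.symm) (h34) (h03.symm) (h13.symm)
  rw [T.xs4 p2 p4 p0 p1, T.xs1 p3 p0 p1 p4, T.xs5 p2 p3 p4 p0, T.xs4 p2 p3 p0 p1, T.xs4 p2 p3 p1 p4, T.xs5 p2 p4 p3 p0] at c41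
  have c42 := T.sep5 (h14.symm) (h01.symm) (h04) (h24) (h12.symm) (h02.symm) (h34) (h13.symm) (h03.symm)
  rw [T.xs5 p2 p4 p1 p0, T.xs6 p3 p1 p0 p4, T.xs5 p2 p3 p4 p1, T.xs5 p2 p3 p1 p0, T.xs4 p2 p3 p0 p4, T.xs5 p2 p4 p3 p1] at c42
  have c43 := T.sep5 (h02) (h23) (h03.symm) (h01.symm) (h12) (h13) (h04.symm) (h24.symm) (h34.symm)
  rw [T.xs1 p1 p0 p2 p3, T.xs7 p4 p2 p3 p0, T.xs4 p1 p4 p0 p2, T.xs5 p1 p4 p3 p0, T.xs3 p1 p0 p4 p2] at c43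
  have c44 := T.sep5 (h03) (h23.symm) (h02.symm) (h01.symm) (h13) (h12) (h04.symm) (h34.symm) (h24.symm)
  rw [T.xs3 p1 p0 p3 p2, T.xs7 p4 p3 p2 p0, T.xs4 p1 p4 p0 p3, T.xs2 p1 p4 p3 p2, T.xs5 p1 p4 p2 p0, T.xs3 p1 p0 p4 p3] at c44
  have c45 := T.sep5 (h02.symm) (h03) (h23.symm) (h12) (h01.symm) (h13) (h24.symm) (h04.symm) (h34.symm)
  rw [T.xs4 p1 p2 p0 p3, T.xs3 p4 p0 p3 p2, T.xs5 p1 p4 p2 p0, T.xs4 p1 p4 p0 p3, T.xs2 p1 p4 p3 p2, T.xs5 p1 p2 p4 p0] at c45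
  have c46 := T.sep5 (h23) (h03.symm) (h02) (h12) (h13) (h01.symm) (h24.symm) (h34.symm) (h04.symm)
  rw [T.xs5 p1 p2 p3 p0, T.xs6 p4 p3 p0 p2, T.xs5 p1 p4 p3 p0, T.xs4 p1 p4 p0 p2, T.xs2 p1 p2 p4 p3] at c46
  have c47 := T.sep5 (h03.symm) (h02) (h23) (h13) (h01.symm) (h12) (h34.symm) (h04.symm) (h24.symm)
  rw [T.xs4 p1 p3 p0 p2, T.xs1 p4 p0 p2 p3, T.xs5 p1 p4 p3 p0, T.xs4 p1 p4 p0 p2, T.xs5 p1 p3 p4 p0] at c47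
  have c48 := T.sep5 (h23.symm) (h02.symm) (h03) (h13) (h12) (h01.symm) (h34.symm) (h24.symm) (h04.symm)
  rw [T.xs5 p1 p3 p2 p0, T.xs6 p4 p2 p0 p3, T.xs2 p1 p4 p3 p2, T.xs5 p1 p4 p2 p0, T.xs4 p1 p4 p0 p3, T.xs2 p1 p3 p4 p2] at c48
  have c49 := T.sep5 (h02) (h24) (h04.symm) (h01.symm) (h12) (h14) (h03.symm) (h23.symm) (h34)
  rw [T.xs1 p1 p0 p2 p4, T.xs7 p3 p2 p4 p0, T.xs4 p1 p3 p0 p2, T.xs5 p1 p3 p4 p0, T.xs3 p1 p0 p3 p2] at c49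
  have c50 := T.sep5 (h04) (h24.symm) (h02.symm) (h01.symm) (h14) (h12) (h03.symm) (h34) (h23.symm)
  rw [T.xs3 p1 p0 p4 p2, T.xs5 p3 p4 p2 p0, T.xs4 p1 p3 p0 p4, T.xs2 p1 p3 p4 p2, T.xs5 p1 p3 p2 p0, T.xs1 p1 p0 p3 p4] at c50
  have c51 := T.sep5 (h02.symm) (h04) (h24.symm) (h12) (h01.symm) (h14) (h23.symm) (h03.symm) (h34)
  rw [T.xs4 p1 p2 p0 p4, T.xs3 p3 p0 p4 p2, T.xs5 p1 p3 p2 p0, T.xs4 p1 p3 p0 p4, T.xs2 p1 p3 p4 p2, T.xs5 p1 p2 p3 p0] at c51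
  have c52 := T.sep5 (h24) (h04.symm) (h02) (h12) (h14) (h01.symm) (h23.symm) (h34) (h03.symm)
  rw [T.xs5 p1 p2 p4 p0, T.xs4 p3 p4 p0 p2, T.xs5 p1 p3 p4 p0, T.xs4 p1 p3 p0 p2] at c52
  have c53 := T.sep5 (h04.symm) (h02) (h24) (h14) (h01.symm) (h12) (h34) (h03.symm) (h23.symm)
  rw [T.xs4 p1 p4 p0 p2, T.xs1 p3 p0 p2 p4, T.xs5 p1 p3 p4 p0, T.xs4 p1 p3 p0 p2, T.xs5 p1 p4 p3 p0] at c53
  have c54 := T.sep5 (h24.symm) (h02.symm) (h04) (h14) (h12) (h01.symm) (h34) (h23.symm) (h03.symm)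
  rw [T.xs5 p1 p4 p2 p0, T.xs6 p3 p2 p0 p4, T.xs2 p1 p3 p4 p2, T.xs5 p1 p3 p2 p0, T.xs4 p1 p3 p0 p4, T.xs2 p1 p4 p3 p2] at c54
  have c55 := T.sep5 (h03) (h34) (h04.symm) (h01.symm) (h13) (h14) (h02.symm) (h23) (h24)
  rw [T.xs1 p1 p0 p3 p4, T.xs5 p2 p3 p4 p0, T.xs4 p1 p2 p0 p3, T.xs5 p1 p2 p4 p0, T.xs1 p1 p0 p2 p3] at c55
  have c56 := T.sep5 (h04) (h34.symm) (h03.symm) (h01.symm) (h14) (h13) (h02.symm) (h24) (h23)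
  rw [T.xs3 p1 p0 p4 p3, T.xs5 p2 p4 p3 p0, T.xs4 p1 p2 p0 p4, T.xs2 p1 p2 p4 p3, T.xs5 p1 p2 p3 p0, T.xs1 p1 p0 p2 p4] at c56
  have c57 := T.sep5 (h03.symm) (h04) (h34.symm) (h13) (h01.symm) (h14) (h23) (h02.symm) (h24)
  rw [T.xs4 p1 p3 p0 p4, T.xs3 p2 p0 p4 p3, T.xs5 p1 p2 p3 p0, T.xs4 p1 p2 p0 p4, T.xs2 p1 p2 p4 p3, T.xs5 p1 p3 p2 p0] at c57
  have c58 := T.sep5 (h34) (h04.symm) (h03) (h13) (h14) (h01.symm) (h23) (h24) (h02.symm)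
  rw [T.xs5 p1 p3 p4 p0, T.xs4 p2 p4 p0 p3, T.xs5 p1 p2 p4 p0, T.xs4 p1 p2 p0 p3] at c58
  have c59 := T.sep5 (h04.symm) (h03) (h34) (h14) (h01.symm) (h13) (h24) (h02.symm) (h23)
  rw [T.xs4 p1 p4 p0 p3, T.xs1 p2 p0 p3 p4, T.xs5 p1 p2 p4 p0, T.xs4 p1 p2 p0 p3, T.xs5 p1 p4 p2 p0] at c59
  have c60 := T.sep5 (h34.symm) (h03.symm) (h04) (h14) (h13) (h01.symm) (h24) (h23) (h02.symm)
  rw [T.xs5 p1 p4 p3 p0, T.xs4 p2 p3 p0 p4, T.xs2 p1 p2 p4 p3, T.xs5 p1 p2 p3 p0, T.xs4 p1 p2 p0 p4] at c60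
  have c61 := T.sep5 (h12) (h23) (h13.symm) (h01) (h02) (h03) (h14.symm) (h24.symm) (h34.symm)
  rw [T.xs7 p4 p2 p3 p1, T.xs2 p0 p4 p3 p1, T.xs2 p0 p1 p4 p2] at c61
  have c62 := T.sep5 (h13) (h23.symm) (h12.symm) (h01) (h03) (h02) (h14.symm) (h34.symm) (h24.symm)
  rw [T.xs2 p0 p1 p3 p2, T.xs7 p4 p3 p2 p1, T.xs2 p0 p4 p3 p2, T.xs2 p0 p4 p2 p1, T.xs2 p0 p1 p4 p3] at c62
  have c63 := T.sep5 (h12.symm) (h13) (h23.symm) (h02) (h01) (h03) (h24.symm) (h14.symm) (h34.symm)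
  rw [T.xs3 p4 p1 p3 p2, T.xs2 p0 p4 p2 p1, T.xs2 p0 p4 p3 p2, T.xs2 p0 p2 p4 p1] at c63
  have c64 := T.sep5 (h23) (h13.symm) (h12) (h02) (h03) (h01) (h24.symm) (h34.symm) (h14.symm)
  rw [T.xs2 p0 p2 p3 p1, T.xs6 p4 p3 p1 p2, T.xs2 p0 p4 p3 p1, T.xs2 p0 p2 p4 p3] at c64
  have c65 := T.sep5 (h13.symm) (h12) (h23) (h03) (h01) (h02) (h34.symm) (h14.symm) (h24.symm)
  rw [T.xs1 p4 p1 p2 p3, T.xs2 p0 p4 p3 p1, T.xs2 p0 p3 p4 p1] at c65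
  have c66 := T.sep5 (h23.symm) (h12.symm) (h13) (h03) (h02) (h01) (h34.symm) (h24.symm) (h14.symm)
  rw [T.xs2 p0 p3 p2 p1, T.xs6 p4 p2 p1 p3, T.xs2 p0 p4 p3 p2, T.xs2 p0 p4 p2 p1, T.xs2 p0 p3 p4 p2] at c66
  have c67 := T.sep5 (h12) (h24) (h14.symm) (h01) (h02) (h04) (h13.symm) (h23.symm) (h34)
  rw [T.xs7 p3 p2 p4 p1, T.xs2 p0 p3 p4 p1, T.xs2 p0 p1 p3 p2] at c67
  have c68 := T.sep5 (h14) (h24.symm) (h12.symm) (h01) (h04) (h02) (h13.symm) (h34) (h23.symm)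
  rw [T.xs2 p0 p1 p4 p2, T.xs5 p3 p4 p2 p1, T.xs2 p0 p3 p4 p2, T.xs2 p0 p3 p2 p1] at c68
  have c69 := T.sep5 (h12.symm) (h14) (h24.symm) (h02) (h01) (h04) (h23.symm) (h13.symm) (h34)
  rw [T.xs3 p3 p1 p4 p2, T.xs2 p0 p3 p2 p1, T.xs2 p0 p3 p4 p2, T.xs2 p0 p2 p3 p1] at c69
  have c70 := T.sep5 (h24) (h14.symm) (h12) (h02) (h04) (h01) (h23.symm) (h34) (h13.symm)
  rw [T.xs2 p0 p2 p4 p1, T.xs4 p3 p4 p1 p2, T.xs2 p0 p3 p4 p1] at c70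
  have c71 := T.sep5 (h14.symm) (h12) (h24) (h04) (h01) (h02) (h34) (h13.symm) (h23.symm)
  rw [T.xs1 p3 p1 p2 p4, T.xs2 p0 p3 p4 p1, T.xs2 p0 p4 p3 p1] at c71
  have c72 := T.sep5 (h24.symm) (h12.symm) (h14) (h04) (h02) (h01) (h34) (h23.symm) (h13.symm)
  rw [T.xs2 p0 p4 p2 p1, T.xs6 p3 p2 p1 p4, T.xs2 p0 p3 p4 p2, T.xs2 p0 p3 p2 p1, T.xs2 p0 p4 p3 p2] at c72
  have c73 := T.sep5 (h13) (h34) (h14.symm) (h01) (h03) (h04) (h12.symm) (h23) (h24)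
  rw [T.xs5 p2 p3 p4 p1, T.xs2 p0 p2 p4 p1] at c73
  have c74 := T.sep5 (h14) (h34.symm) (h13.symm) (h01) (h04) (h03) (h12.symm) (h24) (h23)
  rw [T.xs2 p0 p1 p4 p3, T.xs5 p2 p4 p3 p1, T.xs2 p0 p2 p4 p3, T.xs2 p0 p2 p3 p1] at c74
  have c75 := T.sep5 (h13.symm) (h14) (h34.symm) (h03) (h01) (h04) (h23) (h12.symm) (h24)
  rw [T.xs3 p2 p1 p4 p3, T.xs2 p0 p2 p3 p1, T.xs2 p0 p2 p4 p3, T.xs2 p0 p3 p2 p1] at c75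
  have c76 := T.sep5 (h34) (h14.symm) (h13) (h03) (h04) (h01) (h23) (h24) (h12.symm)
  rw [T.xs2 p0 p3 p4 p1, T.xs4 p2 p4 p1 p3, T.xs2 p0 p2 p4 p1] at c76
  have c77 := T.sep5 (h14.symm) (h13) (h34) (h04) (h01) (h03) (h24) (h12.symm) (h23)
  rw [T.xs1 p2 p1 p3 p4, T.xs2 p0 p2 p4 p1, T.xs2 p0 p4 p2 p1] at c77
  have c78 := T.sep5 (h34.symm) (h13.symm) (h14) (h04) (h03) (h01) (h24) (h23) (h12.symm)
  rw [T.xs2 p0 p4 p3 p1, T.xs4 p2 p3 p1 p4, T.xs2 p0 p2 p4 p3, T.xs2 p0 p2 p3 p1] at c78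
  have c79 := T.sep5 (h23) (h34) (h24.symm) (h02) (h03) (h04) (h12) (h13) (h14)
  rw [T.xs2 p1 p3 p4 p2, T.xs2 p0 p1 p4 p2] at c79
  have c80 := T.sep5 (h24) (h34.symm) (h23.symm) (h02) (h04) (h03) (h12) (h14) (h13)
  rw [T.xs2 p0 p2 p4 p3, T.xs2 p1 p4 p3 p2, T.xs2 p0 p1 p4 p3, T.xs2 p0 p1 p3 p2] at c80
  have c81 := T.sep5 (h23.symm) (h24) (h34.symm) (h03) (h02) (h04) (h13) (h12) (h14)
  rw [T.xs2 p1 p2 p4 p3, T.xs2 p0 p1 p3 p2, T.xs2 p0 p1 p4 p3] at c81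
  have c82 := T.sep5 (h34) (h24.symm) (h23) (h03) (h04) (h02) (h13) (h14) (h12)
  rw [T.xs2 p0 p3 p4 p2, T.xs2 p0 p1 p4 p2] at c82
  have c83 := T.sep5 (h24.symm) (h23) (h34) (h04) (h02) (h03) (h14) (h12) (h13)
  rw [T.xs2 p0 p1 p4 p2] at c83
  have c84 := T.sep5 (h34.symm) (h23.symm) (h24) (h04) (h03) (h02) (h14) (h13) (h12)
  rw [T.xs2 p0 p4 p3 p2, T.xs2 p0 p1 p4 p3, T.xs2 p0 p1 p3 p2] at c84
  exact and_i c0 (and_i c1 (and_i c2 (and_i c3 (and_i c4 (and_i c5 (and_i c6 (and_i c7 (and_i c8 (and_i c9 (and_i c10 (and_i c11 (and_i c12 (and_i c13 (and_i c14 (and_i c15 (and_i c16 (and_i c17 (and_i c18 (and_i c19 (and_i c20 (and_i c21 (and_i c22 (and_i c23 (and_i c24 (and_i c25 (and_i c26 (and_i c27 (and_i c28 (and_i c29 (and_i c30 (and_i c31 (and_i c32 (and_i c33 (and_i c34 (and_i c35 (and_i c36 (and_i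 c37 (and_i c38 (and_i c39 (and_i c40 (and_i c41 (and_i c42 (and_i c43 (and_i c44 (and_i c45 (and_i c46 (and_i c47 (and_i c48 (and_i c49 (and_i c50 (and_i c51 (and_i c52 (and_i c53 (and_i c54 (and_i c55 (and_i c56 (and_i c57 (and_i c58 (and_i c59 (and_i c60 (and_i c61 (and_i c62 (and_i c63 (and_i c64 (and_i c65 (and_i c66 (and_i c67 (and_i c68 (and_i c69 (and_i c70 (and_i c71 (and_i c72 (and_i c73 (and_i c74 (and_i c75 (and_i c76 (and_i c77 (and_i c78 (and_i c79 (and_i c80 (and_i c81 (and_i c82 (and_i c83 (c84))))))))))))))))))))))))))))))))))))))))))))))))))))))))))))))))))))))))))))))))))))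

end H53P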