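import Pool.Agent.Lib.H98S.FCI
import Pool.Agent.Lib.H38E.Defs
import Pool.Agent.Lib.H63P.CG

/-! # H98S, file BR: bridge to the definitions of H38E (`H38E.Al`, `H38E.cr`, `H38E.xx`) -/

namespace H53P

variable {V : Type} {T : Table V} {a : V} {ρ : V → ℝ}

theorem cr_eq (h : T.Ord a ρ) : H38E.cr h = (fun x y z => cr T a x y z) := by
  funext x y z
  exact propext ⟨fun h1 => h1.2, fun h1 => ⟨(cr_ne (T := T) (a := a) (x := x) (y := y) (z := z) h1).1, h1⟩⟩

theorem fc_e [Fintype V] (h : T.Ord a ρ) : H63P.FC (H38E.cr h) (H38E.xx h) := by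
  classical
  rw [cr_eq h]
  exact al_fc h

/-- modules A and C together -/
theorem hyp_e [Fintype V] (h : T.Ord a ρ) {β K R : ℕ} (hβ : Fintype.card (H38E.Al h) ≤ 2 ^ β)
    (hK : 1 ≤ K) (hR : 1 ≤ R) : H38P.Hyp (H38E.cr h) (H38E.xx h) K (R ^ 2) R
      ((2 * K + 2 * (K * R) ^ 2) * β + K) := by
  refine ⟨H38E.cr_symm h, H38E.xx_symm h, ?_, ?_, ?_, H63P.gm (fc_e h) K R β hβ hK hR⟩
  · rw [cr_eq h]
    intro x y z w nxy nzw xz xw yz yw h1 h2 h3 h4
    exact al_loc h x y z w nxy nzw xz xw yz yw h1 h2 h3 h4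
  · rw [cr_eq h]
    intro g g' _ hrf z hz x y ox oy h0
    have hz' := (Finset.mem_filter.1 hz).2
    exact al_deti h g g' hrf z hz'.1 hz'.2 x y ox oy h0
  · rw [cr_eq h]
    intro g g' _ hrf z oz x hx y hy h0
    have hx' := (Finset.mem_filter.1 hx).2
    have hy' := (Finset.mem_filter.1 hy).2
    exact al_deto h g g' hrf z oz x hx'.1 hx'.2 y hy'.1 hy'.2 h0

end H53P
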