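import Pool.Agent.Lib.H98S.RAYF
import Pool.Agent.Lib.H98S.BR
import Pool.Agent.Lib.H97B.B0

/-! # H98S, file RAY: tables satisfy the finite facts of module B (`H97B.Ray`) -/

namespace H53P

theorem b_tot : ∀ b0 b1 b3 b4 b6 b7 b8 b9 b10 b11 b12 b13 b14 : Bool, ok5 b0 b1 true b3 b4 true b6 b7 b8 b9 b10 b11 b12 b13 b14 = true →
    (((((b0 ^^ b14) ^^ b11) && ((true ^^ b10) ^^ b7)) ^^ b7) ^^ ((((b3 ^^ b13) ^^ b10) && ((true ^^ b11) ^^ b8)) ^^ b8)) = true := by
  decide +kernel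

theorem b_sector : ∀ b0 b1 b3 b4 b5 b6 b7 b9 b10 b11 b12 b13 b14 : Bool, okg b0 b1 true b3 b4 b5 b6 b7 true b9 b10 b11 b12 b13 b14 = true →
    ((((b3 ^^ b10) ^^ b1) ^^ true) ^^ b13) = true → False := by
  decide +kernel

variable {V : Type} {T : Table V} {a : V}

theorem Table.tot_x {x y w z : V} (h : T.Ok5 a x y w z) (h1 : T.X a w x y = true)
    (h2 : T.X a z x y = true) : (T.bef a x y w z ^^ T.bef a x y z w) = true := by
  rw [T.bb a x y w z, T.bg a x y w z, h1, h2]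
  unfold Table.Ok5 at h
  rw [h1, h2] at h
  exact b_tot _ _ _ _ _ _ _ _ _ _ _ _ _ h

theorem Table.sector_x {x y z t : V} (h : T.Okg a x y z t) (h1 : T.X a z x y = true)
    (h2 : T.X a t x z = true) (h3 : T.alt a x z y t = true) : False := by
  rw [T.ax1, h2] at h3
  unfold Table.Okg at h
  rw [h1, h2] at h
  exact b_sector _ _ _ _ _ _ _ _ _ _ _ _ _ h h3

theorem Table.okg_i {x y z w : V} (h : T.Ok5 a x y z w) (h1 : T.X a z x y = true)
    (hg : T.X a w x y = true → T.bef a x y w z = false) : T.Okg a x y z w := by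
  unfold Table.Okg okg
  refine and_i h1 (and_i ?_ h)
  rw [← T.bg a x y z w]
  cases h2 : T.X a w x y with
  | false => rfl
  | true => rw [hg h2]; rfl

theorem Table.okb_i {x y w z : V} (h : T.Ok5 a x y w z) (h1 : T.X a w x y = true)
    (h2 : T.X a z x y = true) (hb : T.bef a x y w z = true) : T.Okb a x y w z := by
  unfold Table.Okb okb
  rw [T.bb] at hb
  exact and_i h1 (and_i h2 (and_i hb h))

theorem Table.okn_i {x y w z : V} (h : T.Ok5 a x y w z) (h1 : T.X a w x y = true)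
    (h2 : T.X a z x y = true) (hb : T.bef a x y w z = false) : T.Okn a x y w z := by
  unfold Table.Okn okn
  rw [T.bb] at hb
  refine and_i h1 (and_i h2 (and_i ?_ h))
  rw [hb]
  rfl

/-- the order of the rays along an edge -/
def be (T : Table V) (a : V) (x y w z : Al a) : Prop := T.bef a x.1 y.1 w.1 z.1 = true

variable {ρ : V → ℝ}

theorem al_btw (hρ : T.Ord a ρ) {x y z : Al a} :
    letI := alOrd hρ
    (H97B.Btw x y z ↔ btw (ρ x.1) (ρ y.1) (ρ z.1) = true) := by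
  letI := alOrd hρ
  unfold H97B.Btw btw
  rw [Bool.or_eq_true, decide_eq_true_iff, decide_eq_true_iff]
  exact Iff.rfl

theorem al_alt (hρ : T.Ord a ρ) {x y z w : Al a} (h1 : x ≠ y) (h2 : x ≠ z) (h3 : x ≠ w)
    (h4 : y ≠ z) (h5 : y ≠ w) (h6 : z ≠ w) :
    letI := alOrd hρ
    (H97B.Alt x y z w ↔ T.alt a x.1 y.1 z.1 w.1 = true) := by
  letI := alOrd hρ
  have s : ∀ {p q : Al a}, p ≠ q → p.1 ≠ q.1 := fun h e => h (Subtype.ext e)
  unfold H97B.Alt
  rw [al_btw hρ, al_btw hρ, hρ.2 x.1 y.1 z.1 w.1 x.2 y.2 z.2 w.2 (s h1) (s h2) (s h3) (s h4) (s h5)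
    (s h6)]
  cases btw (ρ x.1) (ρ y.1) (ρ z.1) <;> cases btw (ρ x.1) (ρ y.1) (ρ w.1) <;> simp

theorem al_altc (hρ : T.Ord a ρ) {x y z w : Al a} :
    letI := alOrd hρ
    (H97B.Alt x y z w ↔ H97B.Alt x y w z) := by
  letI := alOrd hρ
  unfold H97B.Alt
  exact not_congr iff_comm

theorem sne {p q : Al a} (h : p ≠ q) : p.1 ≠ q.1 := fun e => h (Subtype.ext e)

theorem nd5 {x y z w : Al a} (h1 : x ≠ y) (h2 : x ≠ z) (h3 : x ≠ w) (h4 : y ≠ z) (h5 : y ≠ w)
    (h6 : z ≠ w) : [a, x.1, y.1, z.1, w.1].Nodup := by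
  simp [x.2.symm, y.2.symm, z.2.symm, w.2.symm, sne h1, sne h2, sne h3, sne h4, sne h5, sne h6]

theorem nd6 {x y z w s : Al a} (h1 : x ≠ y) (h2 : x ≠ z) (h3 : x ≠ w) (h3' : x ≠ s) (h4 : y ≠ z)
    (h5 : y ≠ w) (h5' : y ≠ s) (h6 : z ≠ w) (h6' : z ≠ s) (h7 : w ≠ s) :
    [a, x.1, y.1, z.1, w.1, s.1].Nodup := by
  simp [x.2.symm, y.2.symm, z.2.symm, w.2.symm, s.2.symm, sne h1, sne h2, sne h3, sne h3',
    sne h4, sne h5, sne h5', sne h6, sne h6', sne h7]

theorem nd7 {x y z w s t : Al a} (h : [a, x.1, y.1, z.1, w.1, s.1].Nodup) (h1 : x ≠ t) (h2 : y ≠ t)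
    (h3 : z ≠ t) (h4 : w ≠ t) (h5 : s ≠ t) : [a, x.1, y.1, z.1, w.1, s.1, t.1].Nodup := by
  have e : [a, x.1, y.1, z.1, w.1, s.1, t.1] = [a, x.1, y.1, z.1, w.1, s.1] ++ [t.1] := rfl
  rw [e, List.nodup_append]
  refine ⟨h, by simp, ?_⟩
  intro p hp q hq
  simp only [List.mem_singleton] at hq
  subst hq
  simp only [List.mem_cons, List.not_mem_nil, or_false] at hp
  rcases hp with rfl | rfl | rfl | rfl | rfl | rfl
  · exact t.2.symm
  · exact sne h1
  · exact sne h2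
  · exact sne h3
  · exact sne h4
  · exact sne h5

theorem k4_x {x y z : V} (h1 : T.X a z x y = true) (h2 : T.X a y x z = true) : False := by
  have h3 := T.k4b a z x y
  rw [T.xs2 a y z x, h1, h2] at h3
  exact absurd h3 (by decide)

theorem ok5_i {x y z w : Al a} (h1 : x ≠ y) (h2 : x ≠ z) (h3 : x ≠ w) (h4 : y ≠ z) (h5 : y ≠ w)
    (h6 : z ≠ w) : T.Ok5 a x.1 y.1 z.1 w.1 :=
  T.ok5 x.2.symm y.2.symm z.2.symm w.2.symm (sne h1) (sne h2) (sne h3) (sne h4) (sne h5) (sne h6)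

theorem tot_al {x y w z : Al a} (h1 : cr T a x y w) (h2 : cr T a x y z) (hwz : w ≠ z) :
    (T.bef a x.1 y.1 w.1 z.1 ^^ T.bef a x.1 y.1 z.1 w.1) = true := by
  have d1 := cr_ne h1
  have d2 := cr_ne h2
  exact T.tot_x (ok5_i d1.1 d1.2.1.symm d2.2.1.symm d1.2.2.symm d2.2.2.symm hwz) h1 h2

/-- the condition `Good` for four different points -/
theorem good_i [Fintype V] (hρ : T.Ord a ρ) {x y z w : Al a} (h1 : cr T a x y z) (hx : w ≠ x) (hy : w ≠ y)
    (hz : w ≠ z)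
    (hg : H97B.Good (cr T a) (be T a) x y z w) : T.Okg a x.1 y.1 z.1 w.1 := by
  have d1 := cr_ne h1
  refine T.okg_i (ok5_i d1.1 d1.2.1.symm hx.symm d1.2.2.symm hy.symm hz.symm) h1 ?_
  intro h2
  rcases hg h2 with h3 | h3
  · exact absurd h3 hz
  · unfold be at h3
    exact Bool.eq_false_iff.2 h3

theorem al_ray [Fintype V] (hρ : T.Ord a ρ) :
    letI := alOrd hρ
    H97B.Ray (cr T a) (be T a) := by
  letI := alOrd hρ
  refine ⟨?_, ?_, ?_, ?_, ?_, ?_, ?_, ?_, ?_, ?_, ?_, ?_, ?_, ?_, ?_, ?_, ?_, ?_⟩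
  · intro x y z h
    exact cr_symm x y z h
  · intro x y z h
    exact (cr_ne h).2.1
  · intro x y z h
    exact (cr_ne h).1
  · intro x y z h1 h2
    unfold cr at h1 h2
    exact k4_x (x := y.1) (y := x.1) (z := z.1) (by rw [T.xs2]; exact h1) (by rw [T.xs2]; exact h2)
  · intro x y w z h1 h2 hwz
    have h := tot_al h1 h2 hwz
    unfold be
    cases e : T.bef a x.1 y.1 w.1 z.1 with
    | true => exact Or.inl rfl
    | false =>
      rw [e] at h
      right
      simpa using h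
  · intro x y w z h1 h2 hwz h3 h4
    have h := tot_al h1 h2 hwz
    unfold be at h3 h4
    rw [h3, h4] at h
    exact absurd h (by decide)
  · intro x y u w z h1 h2 h3 uw wz uz b1 b2
    have d1 := cr_ne h1
    have d2 := cr_ne h2
    have d3 := cr_ne h3
    unfold be at b1 b2 ⊢
    apply bt
    intro b3
    have o1 : T.Ok5 a x.1 y.1 u.1 w.1 := ok5_i d1.1 d1.2.1.symm d2.2.1.symm d1.2.2.symm d2.2.2.symm uw
    have o2 : T.Ok5 a x.1 y.1 w.1 z.1 := ok5_i d1.1 d2.2.1.symm d3.2.1.symm d2.2.2.symm d3.2.2.symm wz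
    have o3 : T.Ok5 a x.1 y.1 u.1 z.1 := ok5_i d1.1 d1.2.1.symm d3.2.1.symm d1.2.2.symm d3.2.2.symm uz
    exact trans_f (nd6 d1.1 d1.2.1.symm d2.2.1.symm d3.2.1.symm d1.2.2.symm d2.2.2.symm
      d3.2.2.symm uw uz wz) (T.okb_i o1 h1 h2 b1) (T.okb_i o2 h2 h3 b2) (T.okn_i o3 h1 h3 b3)
  · intro u v x y z hrf uv xu xv yu yv zu zv xy a1 a2 h1
    have d1 := cr_ne h1
    by_contra hn
    rw [not_or] at hn
    exact par_f (nd6 uv xu.symm yu.symm zu.symm xv.symm yv.symm zv.symm xy d1.2.1.symm d1.2.2.symm)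
      (ncr (hrf x)) (ncr (hrf y)) (ncr (hrf z)) h1 (ncr hn.1) (ncr hn.2)
      ((al_alt hρ uv xu.symm zu.symm xv.symm zv.symm d1.2.1.symm).1 a1)
      ((al_alt hρ uv yu.symm zu.symm yv.symm zv.symm d1.2.2.symm).1 a2)
  · intro u v y z hrf uv yu yv zu zv a1 h1
    have d1 := cr_ne h1
    by_contra hn
    have h2 := (al_alt hρ uv yu.symm zu.symm yv.symm zv.symm d1.2.2.symm).1 a1
    exact cA0_294_256 (T.okA0 (ok5_i uv yu.symm zu.symm yv.symm zv.symm d1.2.2.symm) h2)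
      (ncr hn) (ncr (hrf y)) (ncr (hrf z)) h1
  · intro x y z p h1 h2 py hg
    have d1 := cr_ne h1
    have d2 := cr_ne h2
    have g := good_i hρ h1 d2.2.1 py d2.2.2 hg
    refine ⟨fun h3 => cg_272_272 g h3 h2, fun h3 => cg_768_768 g h2 h3⟩
  · intro x y z p s h1 h2 py g1 g2 sy h3
    have d1 := cr_ne h1
    have d2 := cr_ne h2
    have d3 := cr_ne h3
    have o1 := good_i hρ h1 d2.2.1 py d2.2.2 g1
    by_cases hz : s = z
    · subst hz
      exact (cg_384_384 o1 h3 h2).elim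
    · have o2 := good_i hρ h1 d3.2.1 sy hz g2
      apply bt
      intro h4
      exact fb1_f (nd6 d1.1 d1.2.1.symm d2.2.1.symm d3.2.1.symm d1.2.2.symm py.symm sy.symm
        d2.2.2.symm (Ne.symm hz) d3.2.2.symm) o1 o2 h2 h3 h4
  · intro x y z p s h1 h2 py g1 g2 sy sx h3
    have d1 := cr_ne h1
    have d2 := cr_ne h2
    have d3 := cr_ne h3
    have o1 := good_i hρ h1 d2.2.1 py d2.2.2 g1
    have o2 := good_i hρ h1 sx sy d3.2.1 g2
    apply bt
    intro h4
    exact fb2_f (nd6 d1.1 d1.2.1.symm d2.2.1.symm sx.symm d1.2.2.symm py.symm sy.symm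
      d2.2.2.symm d3.2.1.symm d3.2.2.symm) o1 o2 h2 h3 h4
  · intro x y z p q s h1 h2 h2' pq g1 g2 g3 sx sz h3 h4
    have d1 := cr_ne h1
    have d2 := cr_ne h2
    have d2' := cr_ne h2'
    have d3 := cr_ne h3
    have py : p ≠ y := by
      rintro rfl
      exact k4_x h1 h2
    have qy : q ≠ y := by
      rintro rfl
      exact k4_x h1 h2'
    have o1 := good_i hρ h1 d2.2.1 py d2.2.2 g1
    have o2 := good_i hρ h1 d2'.2.1 qy d2'.2.2 g2
    by_contra hn
    rw [not_or] at hn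
    have n6 := nd6 (a := a) d1.1 d1.2.1.symm d2.2.1.symm d2'.2.1.symm d1.2.2.symm py.symm qy.symm
      d2.2.2.symm d2'.2.2.symm pq
    by_cases hy : s = y
    · subst hy
      exact fc5_f n6 o1 o2 h2 h2' h3 (ncr hn.1) (ncr hn.2)
    · have o3 := good_i hρ h1 sx hy sz g3
      exact fc_f (nd7 n6 sx.symm (Ne.symm hy) sz.symm d3.2.1.symm d3.2.2.symm) o1 o2 o3 h2 h2' h3
        (ncr h4) (ncr hn.1) (ncr hn.2)
  · intro x y z t h1 h2 hg ty ha
    have d1 := cr_ne h1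
    have d2 := cr_ne h2
    have o1 := good_i hρ h1 d2.2.1 ty d2.2.2 hg
    have ha' := (al_alt hρ d2.1 d1.1 d2.2.1.symm d1.2.2 d2.2.2.symm ty.symm).1 ((al_altc hρ).1 ha)
    exact T.sector_x o1 h1 h2 ha'
  · intro p q z y ha yp yq h1 h2
    have d1 := cr_ne h1
    have zy : z ≠ y := by
      rintro rfl
      exact ha Iff.rfl
    have ha' := (al_alt hρ d1.1 d1.2.1.symm yp.symm d1.2.2.symm yq.symm zy).1 ha
    by_contra hn
    rw [not_or] at hn
    refine cA0_2340_36 (T.okA0 (ok5_i d1.1 d1.2.1.symm yp.symm d1.2.2.symm yq.symm zy) ha') h1 h2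
      (ncr hn.1) ?_
    rw [T.xs2]
    exact ncr hn.2
  · intro p q z y ha yp yq yz h1 h2 h3
    have d1 := cr_ne h1
    have ha' := (al_alt hρ yp.symm d1.1 d1.2.1.symm yq yz d1.2.2.symm).1 ((al_altc hρ).1 ha)
    apply bt
    intro h4
    refine cA2_2084_2052 (T.okA2 (ok5_i d1.1 d1.2.1.symm yp.symm d1.2.2.symm yq.symm yz.symm) ha') h1
      h4 ?_
    rw [T.xs2]
    exact h3
  · intro H l0 l1 l2 s x X t hone hl0 hl1 hl2 hs ht l01 l12 l2s sx xX Xt c0 c2
    by_contra hn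
    rw [not_or, not_or] at hn
    have hL : T.RotL a [l0.1, l1.1, l2.1, s.1, x.1, X.1, t.1] := by
      refine hρ.rotL ?_ ?_
      · simp only [List.map_cons, List.map_nil, List.isChain_cons_cons, List.isChain_singleton,
          and_true]
        exact ⟨l01, l12, l2s, sx, xX, Xt⟩
      · intro z hz
        simp only [List.mem_cons, List.not_mem_nil, or_false] at hz
        rcases hz with rfl | rfl | rfl | rfl | rfl | rfl | rfl
        exacts [l0.2, l1.2, l2.2, s.2, x.2, X.2, t.2]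
    have l02 : l0 < l2 := l01.trans l12
    have out : ∀ {p q z : Al a}, p < q → q < z → ¬ H97B.Btw p q z := by
      intro p q z h1 h2 h3
      rcases h3 with h3 | h3
      · exact lt_asymm h2 h3.2
      · exact lt_asymm h1 (h3.1.trans h3.2)
    have out' : ∀ {p q z : Al a}, p < q → z < p → ¬ H97B.Btw p q z := by
      intro p q z h1 h2 h3
      rcases h3 with h3 | h3
      · exact lt_asymm h2 h3.1
      · exact lt_asymm h1 (h3.1.trans h3.2)
    have s2x := l2s.trans sx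
    have s2X := s2x.trans xX
    have s2t := s2X.trans Xt
    obtain ⟨b1, e1, e2, e3⟩ : ∃ b1 : Bool, (b1 = true → cr T a l0 l2 l1) ∧
        (b1 = false → cr T a l0 l2 s) ∧ (b1 = false → cr T a l0 l2 t) := by
      rcases hone l0 hl0 l2 hl2 l02.ne with ⟨h1, h2⟩ | ⟨h1, h2⟩
      · exact ⟨true, fun _ => h1 l1 hl1 (Or.inl ⟨l01, l12⟩), fun h => (by cases h), fun h => (by cases h)⟩
      · exact ⟨false, fun h => (by cases h),
          fun _ => h1 s hs (l02.trans l2s).ne' l2s.ne' (out l02 l2s),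
          fun _ => h1 t ht (l02.trans s2t).ne' s2t.ne' (out l02 s2t)⟩
    obtain ⟨b2, e4, e5, e6⟩ : ∃ b2 : Bool, (b2 = true → ¬ cr T a l1 l2 x) ∧
        (b2 = true → ¬ cr T a l1 l2 X) ∧ (b2 = false → cr T a l1 l2 l0) := by
      rcases hone l1 hl1 l2 hl2 l12.ne with ⟨h1, h2⟩ | ⟨h1, h2⟩
      · exact ⟨true, fun _ => h2 x (l12.trans s2x).ne' s2x.ne' (out l12 s2x),
          fun _ => h2 X (l12.trans s2X).ne' s2X.ne' (out l12 s2X), fun h => (by cases h)⟩
      · exact ⟨false, fun h => (by cases h), fun h => (by cases h),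
          fun _ => h1 l0 hl0 l01.ne l02.ne (out' l12 l01)⟩
    exact loop_f hL (fun h1 h2 => bcontra (e1 h1) h2) (fun h1 h2 => bcontra (e2 h1) h2)
      (fun h1 h2 => bcontra (e3 h1) h2) (fun h1 h2 => e4 h1 h2) (fun h1 h2 => e5 h1 h2)
      (fun h1 h2 => bcontra (e6 h1) h2) c0 c2 (ncr hn.1) (ncr hn.2.1) (ncr hn.2.2)
  · intro H l0 l1 l2 s x X t hone hl0 hl1 hl2 hs ht sx xX Xt tl l01 l12 c0 c2
    by_contra hn
    rw [not_or, not_or] at hn
    obtain ⟨σ, hσ, g1, g2, g3⟩ := shift_ge hρ (ρ l0.1)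
    have l02 : l0 < l2 := l01.trans l12
    have Xl : X < l0 := Xt.trans tl
    have xl : x < l0 := xX.trans Xl
    have sl : s < l0 := sx.trans xl
    have hL : T.RotL a [l0.1, l1.1, l2.1, s.1, x.1, X.1, t.1] := by
      refine hσ.rotL ?_ ?_
      · simp only [List.map_cons, List.map_nil, List.isChain_cons_cons, List.isChain_singleton,
          and_true]
        exact ⟨(g1 _ _ le_rfl (le_of_lt l01)).2 l01, (g1 _ _ (le_of_lt l01) (le_of_lt l02)).2 l12,
          g3 _ _ (le_of_lt l02) sl, (g2 _ _ sl xl).2 sx, (g2 _ _ xl Xl).2 xX, (g2 _ _ Xl tl).2 Xt⟩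
      · intro z hz
        simp only [List.mem_cons, List.not_mem_nil, or_false] at hz
        rcases hz with rfl | rfl | rfl | rfl | rfl | rfl | rfl
        exacts [l0.2, l1.2, l2.2, s.2, x.2, X.2, t.2]
    have out' : ∀ {p q z : Al a}, p < q → z < p → ¬ H97B.Btw p q z := by
      intro p q z h1 h2 h3
      rcases h3 with h3 | h3
      · exact lt_asymm h2 h3.1
      · exact lt_asymm h1 (h3.1.trans h3.2)
    obtain ⟨b1, e1, e2, e3⟩ : ∃ b1 : Bool, (b1 = true → cr T a l0 l2 l1) ∧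
        (b1 = false → cr T a l0 l2 s) ∧ (b1 = false → cr T a l0 l2 t) := by
      rcases hone l0 hl0 l2 hl2 l02.ne with ⟨h1, h2⟩ | ⟨h1, h2⟩
      · exact ⟨true, fun _ => h1 l1 hl1 (Or.inl ⟨l01, l12⟩), fun h => (by cases h), fun h => (by cases h)⟩
      · exact ⟨false, fun h => (by cases h),
          fun _ => h1 s hs sl.ne (sl.trans l02).ne (out' l02 sl),
          fun _ => h1 t ht tl.ne (tl.trans l02).ne (out' l02 tl)⟩
    obtain ⟨b2, e4, e5, e6⟩ : ∃ b2 : Bool, (b2 = true → ¬ cr T a l1 l2 x) ∧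
        (b2 = true → ¬ cr T a l1 l2 X) ∧ (b2 = false → cr T a l1 l2 l0) := by
      rcases hone l1 hl1 l2 hl2 l12.ne with ⟨h1, h2⟩ | ⟨h1, h2⟩
      · exact ⟨true, fun _ => h2 x (xl.trans l01).ne (xl.trans l02).ne (out' l12 (xl.trans l01)),
          fun _ => h2 X (Xl.trans l01).ne (Xl.trans l02).ne (out' l12 (Xl.trans l01)),
          fun h => (by cases h)⟩
      · exact ⟨false, fun h => (by cases h), fun h => (by cases h),
          fun _ => h1 l0 hl0 l01.ne l02.ne (out' l12 l01)⟩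
    exact loop_f hL (fun h1 h2 => bcontra (e1 h1) h2) (fun h1 h2 => bcontra (e2 h1) h2)
      (fun h1 h2 => bcontra (e3 h1) h2) (fun h1 h2 => e4 h1 h2) (fun h1 h2 => e5 h1 h2)
      (fun h1 h2 => bcontra (e6 h1) h2) c0 c2 (ncr hn.1) (ncr hn.2.1) (ncr hn.2.2)

/-- module B holds for tables, in the language of H38E -/
theorem ray_e [Fintype V] (h : T.Ord a ρ) :
    H97B.Ray (H38E.cr h) (fun x y w z => T.bef a x.1 y.1 w.1 z.1 = true) := by
  rw [cr_eq h]
  exact al_ray h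

end H53P
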