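import Pool.Agent.Lib.H98S.PAR
import Pool.Agent.Lib.H38P.Defs

/-! # H98S, file Al: from tables to the abstract language of H38P -/

namespace H53P

variable {V : Type} (T : Table V) (a : V)

/-- the vertices other than the pole -/
abbrev Al : Type := {x : V // x ≠ a}

variable {T a}

/-- the linear order of the rotation -/
noncomputable abbrev alOrd {ρ : V → ℝ} (hρ : T.Ord a ρ) : LinearOrder (Al a) :=
  LinearOrder.lift' (fun x : Al a => ρ x.1)
    (fun x y h => Subtype.ext (hρ.1 x.1 y.1 x.2 y.2 h))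

/-- the edge `xy` crosses the ray `z` -/
def cr (T : Table V) (a : V) (x y z : Al a) : Prop := T.X a z.1 x.1 y.1 = true

/-- the edges `xy` and `zw` cross -/
def xx (T : Table V) (a : V) (x y z w : Al a) : Prop := T.X x.1 y.1 z.1 w.1 = true

theorem cr_symm (x y z : Al a) (h : cr T a x y z) : cr T a y x z := by
  unfold cr at *
  rw [T.xs2]
  exact h

theorem xx_symm (x y z w : Al a) (h : xx T a x y z w) : xx T a z w x y := by
  unfold xx at *
  rw [T.xs4]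
  exact h

theorem cr_ne {x y z : Al a} (h : cr T a x y z) : x ≠ y ∧ z ≠ x ∧ z ≠ y := by
  have h1 := T.ne _ _ _ _ h
  exact ⟨fun e => h1.2.1 (congrArg Subtype.val e), fun e => h1.2.2.2.2.1 (congrArg Subtype.val e),
    fun e => h1.2.2.2.2.2 (congrArg Subtype.val e)⟩

theorem ncr {x y z : Al a} (h : ¬ cr T a x y z) : T.X a z.1 x.1 y.1 = false := by
  unfold cr at h
  cases h1 : T.X a z.1 x.1 y.1 with
  | false => rfl
  | true => exact absurd h1 h

variable {ρ : V → ℝ} (hρ : T.Ord a ρ)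

theorem al_lt {x y : Al a} : (alOrd hρ).lt x y ↔ ρ x.1 < ρ y.1 := Iff.rfl

include hρ in
theorem al_loc (x y z w : Al a) (nxy : x ≠ y) (nzw : z ≠ w) (xz : ρ x.1 < ρ z.1)
    (xw : ρ x.1 < ρ w.1) (yz : ρ y.1 < ρ z.1) (yw : ρ y.1 < ρ w.1)
    (h1 : ¬ cr T a x y z) (h2 : ¬ cr T a x y w) (h3 : ¬ cr T a z w x) (h4 : ¬ cr T a z w y) :
    ¬ xx T a x y z w := by
  have nxy' : ρ x.1 ≠ ρ y.1 := fun h => nxy (Subtype.ext (hρ.1 _ _ x.2 y.2 h))
  have nzw' : ρ z.1 ≠ ρ w.1 := fun h => nzw (Subtype.ext (hρ.1 _ _ z.2 w.2 h))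
  have key : T.X x.1 y.1 z.1 w.1 = false := by
    rcases lt_or_gt_of_ne nxy' with p | p <;> rcases lt_or_gt_of_ne nzw' with q | q
    · exact T.local_free (rot4 hρ x.2 y.2 z.2 w.2 p yz q) (ncr h1) (ncr h2) (ncr h3) (ncr h4)
    · rw [T.xs2]
      exact T.local_free (rot4 hρ x.2 y.2 w.2 z.2 p yw q) (ncr h2) (ncr h1)
        (by rw [T.xs2]; exact ncr h3) (by rw [T.xs2]; exact ncr h4)
    · rw [T.xs1]
      exact T.local_free (rot4 hρ y.2 x.2 z.2 w.2 p xz q) (by rw [T.xs2]; exact ncr h1)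
        (by rw [T.xs2]; exact ncr h2) (ncr h4) (ncr h3)
    · rw [T.xs3]
      exact T.local_free (rot4 hρ y.2 x.2 w.2 z.2 p xw q) (by rw [T.xs2]; exact ncr h2)
        (by rw [T.xs2]; exact ncr h1) (by rw [T.xs2]; exact ncr h4) (by rw [T.xs2]; exact ncr h3)
  intro h
  unfold xx at h
  rw [key] at h
  cases h

include hρ in
theorem al_deti (g g' : Al a) (hrf : ∀ z, ¬ cr T a g g' z) (z : Al a) (gz : ρ g.1 < ρ z.1)
    (zg : ρ z.1 < ρ g'.1) (x y : Al a) (ox : ρ x.1 < ρ g.1 ∨ ρ g'.1 < ρ x.1)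
    (oy : ρ y.1 < ρ g.1 ∨ ρ g'.1 < ρ y.1) (h : cr T a x y z) :
    cr T a x y g ∨ cr T a x y g' := by
  by_contra hn
  rw [not_or] at hn
  have h1 := par_in hρ g.2 g'.2 x.2 y.2 z.2 gz zg ox oy (ncr (hrf x)) (ncr (hrf y)) (ncr (hrf z))
    (ncr hn.1) (ncr hn.2)
  unfold cr at h
  rw [h1] at h
  cases h

include hρ in
theorem al_deto (g g' : Al a) (hrf : ∀ z, ¬ cr T a g g' z) (z : Al a)
    (oz : ρ z.1 < ρ g.1 ∨ ρ g'.1 < ρ z.1) (x : Al a) (gx : ρ g.1 < ρ x.1) (xg : ρ x.1 < ρ g'.1)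
    (y : Al a) (gy : ρ g.1 < ρ y.1) (yg : ρ y.1 < ρ g'.1) (h : cr T a x y z) :
    cr T a x y g ∨ cr T a x y g' := by
  by_contra hn
  rw [not_or] at hn
  have h1 := par_out hρ g.2 g'.2 x.2 y.2 z.2 oz gx xg gy yg (ncr (hrf x)) (ncr (hrf y))
    (ncr (hrf z)) (ncr hn.1) (ncr hn.2)
  unfold cr at h
  rw [h1] at h
  cases h

/-- all fields of `Hyp` except `gm` -/
theorem al_hyp [Fintype V] [DecidableEq V] {K K' R F : ℕ}
    (gm : letI := alOrd hρ
      ∀ I B X : Finset (Al a), (∀ z ∈ B, H38P.Out I z) → B.card ≤ R → X ⊆ I →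
        H38P.Cov (cr T a) K X → ∃ X' ⊆ X, H38P.Cov (cr T a) K' X' ∧ (B = ∅ → X'.card ≤ K) ∧
        ∃ M, H38P.Mat (cr T a) (xx T a) I B M ∧ X.card ≤ X'.card + F * M.card) :
    letI := alOrd hρ
    H38P.Hyp (cr T a) (xx T a) K K' R F := by
  letI := alOrd hρ
  refine ⟨cr_symm, xx_symm, ?_, ?_, ?_, gm⟩
  · intro x y z w nxy nzw xz xw yz yw h1 h2 h3 h4
    exact al_loc hρ x y z w nxy nzw xz xw yz yw h1 h2 h3 h4
  · intro g g' _ hrf z hz x y ox oy h
    have hz' := (Finset.mem_filter.1 hz).2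
    exact al_deti hρ g g' hrf z hz'.1 hz'.2 x y ox oy h
  · intro g g' _ hrf z oz x hx y hy h
    have hx' := (Finset.mem_filter.1 hx).2
    have hy' := (Finset.mem_filter.1 hy).2
    exact al_deto hρ g g' hrf z oz x hx'.1 hx'.2 y hy'.1 hy'.2 h

end H53P
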