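import Pool.Agent.Lib.H98S.Ord

/-! # H98S, finite facts, file CL1: clauses for five points (generated) -/

set_option linter.unusedVariables false

namespace H53P

variable {V : Type*} {T : Table V}

theorem bc5_16394_16394 : ∀ b0 b2 b4 b5 b6 b7 b8 b9 b10 b11 b12 b13 : Bool,
    ok5 b0 true b2 true b4 b5 b6 b7 b8 b9 b10 b11 b12 b13 true = true → False := by
  decide +kernel

theorem c5_16394_16394 {p0 p1 p2 p3 p4 : V} (h : T.Ok5 p0 p1 p2 p3 p4)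
    (n1 : T.X p0 p2 p1 p3 = true)
    (n3 : T.X p0 p1 p2 p4 = true)
    (n14 : T.X p1 p4 p2 p3 = true) : False := by
  have h2 := h
  unfold Table.Ok5 at h2
  rw [n1, n3, n14] at h2
  exact bc5_16394_16394 _ _ _ _ _ _ _ _ _ _ _ _ h2

theorem bc5a_164_160 : ∀ b0 b1 b3 b4 b6 b8 b9 b10 b11 b12 b13 b14 : Bool,
    ok5a b0 b1 false b3 b4 true b6 true b8 b9 b10 b11 b12 b13 b14 = true → False := by
  decide +kernel

theorem c5a_164_160 {p0 p1 p2 p3 p4 : V} (h : T.Ok5a p0 p1 p2 p3 p4)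
    (n2 : T.X p0 p3 p1 p2 = false)
    (n5 : T.X p0 p4 p1 p2 = true)
    (n7 : T.X p0 p3 p1 p4 = true) : False := by
  have h2 := h
  unfold Table.Ok5a at h2
  rw [n2, n5, n7] at h2
  exact bc5a_164_160 _ _ _ _ _ _ _ _ _ _ _ _ h2

theorem bc5a_289_33 : ∀ b1 b2 b3 b4 b6 b7 b9 b10 b11 b12 b13 b14 : Bool,
    ok5a true b1 b2 b3 b4 true b6 b7 false b9 b10 b11 b12 b13 b14 = true → False := by
  decide +kernel

theorem c5a_289_33 {p0 p1 p2 p3 p4 : V} (h : T.Ok5a p0 p1 p2 p3 p4)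
    (n0 : T.X p0 p1 p2 p3 = true)
    (n5 : T.X p0 p4 p1 p2 = true)
    (n8 : T.X p0 p4 p1 p3 = false) : False := by
  have h2 := h
  unfold Table.Ok5a at h2
  rw [n0, n5, n8] at h2
  exact bc5a_289_33 _ _ _ _ _ _ _ _ _ _ _ _ h2

theorem bc5a_292_260 : ∀ b0 b1 b3 b4 b6 b7 b9 b10 b11 b12 b13 b14 : Bool,
    ok5a b0 b1 true b3 b4 false b6 b7 true b9 b10 b11 b12 b13 b14 = true → False := by
  decide +kernel

theorem c5a_292_260 {p0 p1 p2 p3 p4 : V} (h : T.Ok5a p0 p1 p2 p3 p4)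
    (n2 : T.X p0 p3 p1 p2 = true)
    (n5 : T.X p0 p4 p1 p2 = false)
    (n8 : T.X p0 p4 p1 p3 = true) : False := by
  have h2 := h
  unfold Table.Ok5a at h2
  rw [n2, n5, n8] at h2
  exact bc5a_292_260 _ _ _ _ _ _ _ _ _ _ _ _ h2

theorem bc5a_294_32 : ∀ b0 b3 b4 b6 b7 b9 b10 b11 b12 b13 b14 : Bool,
    ok5a b0 false false b3 b4 true b6 b7 false b9 b10 b11 b12 b13 b14 = true → False := by
  decide +kernel

theorem c5a_294_32 {p0 p1 p2 p3 p4 : V} (h : T.Ok5a p0 p1 p2 p3 p4)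
    (n1 : T.X p0 p2 p1 p3 = false)
    (n2 : T.X p0 p3 p1 p2 = false)
    (n5 : T.X p0 p4 p1 p2 = true)
    (n8 : T.X p0 p4 p1 p3 = false) : False := by
  have h2 := h
  unfold Table.Ok5a at h2
  rw [n1, n2, n5, n8] at h2
  exact bc5a_294_32 _ _ _ _ _ _ _ _ _ _ _ h2

theorem bc5a_1058_1058 : ∀ b0 b2 b3 b4 b6 b7 b8 b9 b11 b12 b13 b14 : Bool,
    ok5a b0 true b2 b3 b4 true b6 b7 b8 b9 true b11 b12 b13 b14 = true → False := by
  decide +kernel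

theorem c5a_1058_1058 {p0 p1 p2 p3 p4 : V} (h : T.Ok5a p0 p1 p2 p3 p4)
    (n1 : T.X p0 p2 p1 p3 = true)
    (n5 : T.X p0 p4 p1 p2 = true)
    (n10 : T.X p0 p3 p2 p4 = true) : False := by
  have h2 := h
  unfold Table.Ok5a at h2
  rw [n1, n5, n10] at h2
  exact bc5a_1058_1058 _ _ _ _ _ _ _ _ _ _ _ _ h2

theorem bc5a_1060_1056 : ∀ b0 b1 b3 b4 b6 b7 b8 b9 b11 b12 b13 b14 : Bool,
    ok5a b0 b1 false b3 b4 true b6 b7 b8 b9 true b11 b12 b13 b14 = true → False := by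
  decide +kernel

theorem c5a_1060_1056 {p0 p1 p2 p3 p4 : V} (h : T.Ok5a p0 p1 p2 p3 p4)
    (n2 : T.X p0 p3 p1 p2 = false)
    (n5 : T.X p0 p4 p1 p2 = true)
    (n10 : T.X p0 p3 p2 p4 = true) : False := by
  have h2 := h
  unfold Table.Ok5a at h2
  rw [n2, n5, n10] at h2
  exact bc5a_1060_1056 _ _ _ _ _ _ _ _ _ _ _ _ h2

theorem bc5a_1068_4 : ∀ b0 b1 b4 b6 b7 b8 b9 b11 b12 b13 b14 : Bool,
    ok5a b0 b1 true false b4 false b6 b7 b8 b9 false b11 b12 b13 b14 = true → False := by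
  decide +kernel

theorem c5a_1068_4 {p0 p1 p2 p3 p4 : V} (h : T.Ok5a p0 p1 p2 p3 p4)
    (n2 : T.X p0 p3 p1 p2 = true)
    (n3 : T.X p0 p1 p2 p4 = false)
    (n5 : T.X p0 p4 p1 p2 = false)
    (n10 : T.X p0 p3 p2 p4 = false) : False := by
  have h2 := h
  unfold Table.Ok5a at h2
  rw [n2, n3, n5, n10] at h2
  exact bc5a_1068_4 _ _ _ _ _ _ _ _ _ _ _ h2

theorem bc5a_1536_1536 : ∀ b0 b1 b2 b3 b4 b5 b6 b7 b8 b11 b12 b13 b14 : Bool,
    ok5a b0 b1 b2 b3 b4 b5 b6 b7 b8 true true b11 b12 b13 b14 = true → False := by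
  decide +kernel

theorem c5a_1536_1536 {p0 p1 p2 p3 p4 : V} (h : T.Ok5a p0 p1 p2 p3 p4)
    (n9 : T.X p0 p2 p3 p4 = true)
    (n10 : T.X p0 p3 p2 p4 = true) : False := by
  have h2 := h
  unfold Table.Ok5a at h2
  rw [n9, n10] at h2
  exact bc5a_1536_1536 _ _ _ _ _ _ _ _ _ _ _ _ _ h2

theorem bc5a_2057_2056 : ∀ b1 b2 b4 b5 b6 b7 b8 b9 b10 b12 b13 b14 : Bool,
    ok5a false b1 b2 true b4 b5 b6 b7 b8 b9 b10 true b12 b13 b14 = true → False := by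
  decide +kernel

theorem c5a_2057_2056 {p0 p1 p2 p3 p4 : V} (h : T.Ok5a p0 p1 p2 p3 p4)
    (n0 : T.X p0 p1 p2 p3 = false)
    (n3 : T.X p0 p1 p2 p4 = true)
    (n11 : T.X p0 p4 p2 p3 = true) : False := by
  have h2 := h
  unfold Table.Ok5a at h2
  rw [n0, n3, n11] at h2
  exact bc5a_2057_2056 _ _ _ _ _ _ _ _ _ _ _ _ h2

theorem bc5a_2081_33 : ∀ b1 b2 b3 b4 b6 b7 b8 b9 b10 b12 b13 b14 : Bool,
    ok5a true b1 b2 b3 b4 true b6 b7 b8 b9 b10 false b12 b13 b14 = true → False := by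
  decide +kernel

theorem c5a_2081_33 {p0 p1 p2 p3 p4 : V} (h : T.Ok5a p0 p1 p2 p3 p4)
    (n0 : T.X p0 p1 p2 p3 = true)
    (n5 : T.X p0 p4 p1 p2 = true)
    (n11 : T.X p0 p4 p2 p3 = false) : False := by
  have h2 := h
  unfold Table.Ok5a at h2
  rw [n0, n5, n11] at h2
  exact bc5a_2081_33 _ _ _ _ _ _ _ _ _ _ _ _ h2

theorem bc5a_2082_2082 : ∀ b0 b2 b3 b4 b6 b7 b8 b9 b10 b12 b13 b14 : Bool,
    ok5a b0 true b2 b3 b4 true b6 b7 b8 b9 b10 true b12 b13 b14 = true → False := by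
  decide +kernel

theorem c5a_2082_2082 {p0 p1 p2 p3 p4 : V} (h : T.Ok5a p0 p1 p2 p3 p4)
    (n1 : T.X p0 p2 p1 p3 = true)
    (n5 : T.X p0 p4 p1 p2 = true)
    (n11 : T.X p0 p4 p2 p3 = true) : False := by
  have h2 := h
  unfold Table.Ok5a at h2
  rw [n1, n5, n11] at h2
  exact bc5a_2082_2082 _ _ _ _ _ _ _ _ _ _ _ _ h2

theorem bc5a_2084_2052 : ∀ b0 b1 b3 b4 b6 b7 b8 b9 b10 b12 b13 b14 : Bool,
    ok5a b0 b1 true b3 b4 false b6 b7 b8 b9 b10 true b12 b13 b14 = true → False := by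
  decide +kernel

theorem c5a_2084_2052 {p0 p1 p2 p3 p4 : V} (h : T.Ok5a p0 p1 p2 p3 p4)
    (n2 : T.X p0 p3 p1 p2 = true)
    (n5 : T.X p0 p4 p1 p2 = false)
    (n11 : T.X p0 p4 p2 p3 = true) : False := by
  have h2 := h
  unfold Table.Ok5a at h2
  rw [n2, n5, n11] at h2
  exact bc5a_2084_2052 _ _ _ _ _ _ _ _ _ _ _ _ h2

theorem bc5a_2085_2080 : ∀ b1 b3 b4 b6 b7 b8 b9 b10 b12 b13 b14 : Bool,
    ok5a false b1 false b3 b4 true b6 b7 b8 b9 b10 true b12 b13 b14 = true → False := by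
  decide +kernel

theorem c5a_2085_2080 {p0 p1 p2 p3 p4 : V} (h : T.Ok5a p0 p1 p2 p3 p4)
    (n0 : T.X p0 p1 p2 p3 = false)
    (n2 : T.X p0 p3 p1 p2 = false)
    (n5 : T.X p0 p4 p1 p2 = true)
    (n11 : T.X p0 p4 p2 p3 = true) : False := by
  have h2 := h
  unfold Table.Ok5a at h2
  rw [n0, n2, n5, n11] at h2
  exact bc5a_2085_2080 _ _ _ _ _ _ _ _ _ _ _ h2

theorem bc5a_2305_257 : ∀ b1 b2 b3 b4 b5 b6 b7 b9 b10 b12 b13 b14 : Bool,
    ok5a true b1 b2 b3 b4 b5 b6 b7 true b9 b10 false b12 b13 b14 = true → False := by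
  decide +kernel

theorem c5a_2305_257 {p0 p1 p2 p3 p4 : V} (h : T.Ok5a p0 p1 p2 p3 p4)
    (n0 : T.X p0 p1 p2 p3 = true)
    (n8 : T.X p0 p4 p1 p3 = true)
    (n11 : T.X p0 p4 p2 p3 = false) : False := by
  have h2 := h
  unfold Table.Ok5a at h2
  rw [n0, n8, n11] at h2
  exact bc5a_2305_257 _ _ _ _ _ _ _ _ _ _ _ _ h2

theorem bc5a_2307_2048 : ∀ b2 b3 b4 b5 b6 b7 b9 b10 b12 b13 b14 : Bool,
    ok5a false false b2 b3 b4 b5 b6 b7 false b9 b10 true b12 b13 b14 = true → False := by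
  decide +kernel

theorem c5a_2307_2048 {p0 p1 p2 p3 p4 : V} (h : T.Ok5a p0 p1 p2 p3 p4)
    (n0 : T.X p0 p1 p2 p3 = false)
    (n1 : T.X p0 p2 p1 p3 = false)
    (n8 : T.X p0 p4 p1 p3 = false)
    (n11 : T.X p0 p4 p2 p3 = true) : False := by
  have h2 := h
  unfold Table.Ok5a at h2
  rw [n0, n1, n8, n11] at h2
  exact bc5a_2307_2048 _ _ _ _ _ _ _ _ _ _ _ h2

theorem bc5a_2308_2052 : ∀ b0 b1 b3 b4 b5 b6 b7 b9 b10 b12 b13 b14 : Bool,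
    ok5a b0 b1 true b3 b4 b5 b6 b7 false b9 b10 true b12 b13 b14 = true → False := by
  decide +kernel

theorem c5a_2308_2052 {p0 p1 p2 p3 p4 : V} (h : T.Ok5a p0 p1 p2 p3 p4)
    (n2 : T.X p0 p3 p1 p2 = true)
    (n8 : T.X p0 p4 p1 p3 = false)
    (n11 : T.X p0 p4 p2 p3 = true) : False := by
  have h2 := h
  unfold Table.Ok5a at h2
  rw [n2, n8, n11] at h2
  exact bc5a_2308_2052 _ _ _ _ _ _ _ _ _ _ _ _ h2

theorem bc5a_2336_2080 : ∀ b0 b1 b2 b3 b4 b6 b7 b9 b10 b12 b13 b14 : Bool,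
    ok5a b0 b1 b2 b3 b4 true b6 b7 false b9 b10 true b12 b13 b14 = true → False := by
  decide +kernel

theorem c5a_2336_2080 {p0 p1 p2 p3 p4 : V} (h : T.Ok5a p0 p1 p2 p3 p4)
    (n5 : T.X p0 p4 p1 p2 = true)
    (n8 : T.X p0 p4 p1 p3 = false)
    (n11 : T.X p0 p4 p2 p3 = true) : False := by
  have h2 := h
  unfold Table.Ok5a at h2
  rw [n5, n8, n11] at h2
  exact bc5a_2336_2080 _ _ _ _ _ _ _ _ _ _ _ _ h2

theorem bc5a_2338_258 : ∀ b0 b2 b3 b4 b6 b7 b9 b10 b12 b13 b14 : Bool,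
    ok5a b0 true b2 b3 b4 false b6 b7 true b9 b10 false b12 b13 b14 = true → False := by
  decide +kernel

theorem c5a_2338_258 {p0 p1 p2 p3 p4 : V} (h : T.Ok5a p0 p1 p2 p3 p4)
    (n1 : T.X p0 p2 p1 p3 = true)
    (n5 : T.X p0 p4 p1 p2 = false)
    (n8 : T.X p0 p4 p1 p3 = true)
    (n11 : T.X p0 p4 p2 p3 = false) : False := by
  have h2 := h
  unfold Table.Ok5a at h2
  rw [n1, n5, n8, n11] at h2
  exact bc5a_2338_258 _ _ _ _ _ _ _ _ _ _ _ h2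

theorem bc5a_4116_20 : ∀ b0 b1 b3 b5 b6 b7 b8 b9 b10 b11 b13 b14 : Bool,
    ok5a b0 b1 true b3 true b5 b6 b7 b8 b9 b10 b11 false b13 b14 = true → False := by
  decide +kernel

theorem c5a_4116_20 {p0 p1 p2 p3 p4 : V} (h : T.Ok5a p0 p1 p2 p3 p4)
    (n2 : T.X p0 p3 p1 p2 = true)
    (n4 : T.X p0 p2 p1 p4 = true)
    (n12 : T.X p1 p2 p3 p4 = false) : False := by
  have h2 := h
  unfold Table.Ok5a at h2
  rw [n2, n4, n12] at h2
  exact bc5a_4116_20 _ _ _ _ _ _ _ _ _ _ _ _ h2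

theorem bc5a_4129_33 : ∀ b1 b2 b3 b4 b6 b7 b8 b9 b10 b11 b13 b14 : Bool,
    ok5a true b1 b2 b3 b4 true b6 b7 b8 b9 b10 b11 false b13 b14 = true → False := by
  decide +kernel

theorem c5a_4129_33 {p0 p1 p2 p3 p4 : V} (h : T.Ok5a p0 p1 p2 p3 p4)
    (n0 : T.X p0 p1 p2 p3 = true)
    (n5 : T.X p0 p4 p1 p2 = true)
    (n12 : T.X p1 p2 p3 p4 = false) : False := by
  have h2 := h
  unfold Table.Ok5a at h2
  rw [n0, n5, n12] at h2
  exact bc5a_4129_33 _ _ _ _ _ _ _ _ _ _ _ _ h2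

theorem bc5a_4642_34 : ∀ b0 b2 b3 b4 b6 b7 b8 b10 b11 b13 b14 : Bool,
    ok5a b0 true b2 b3 b4 true b6 b7 b8 false b10 b11 false b13 b14 = true → False := by
  decide +kernel

theorem c5a_4642_34 {p0 p1 p2 p3 p4 : V} (h : T.Ok5a p0 p1 p2 p3 p4)
    (n1 : T.X p0 p2 p1 p3 = true)
    (n5 : T.X p0 p4 p1 p2 = true)
    (n9 : T.X p0 p2 p3 p4 = false)
    (n12 : T.X p1 p2 p3 p4 = false) : False := by
  have h2 := h
  unfold Table.Ok5a at h2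
  rw [n1, n5, n9, n12] at h2
  exact bc5a_4642_34 _ _ _ _ _ _ _ _ _ _ _ h2

theorem bc5a_4644_32 : ∀ b0 b1 b3 b4 b6 b7 b8 b10 b11 b13 b14 : Bool,
    ok5a b0 b1 false b3 b4 true b6 b7 b8 false b10 b11 false b13 b14 = true → False := by
  decide +kernel

theorem c5a_4644_32 {p0 p1 p2 p3 p4 : V} (h : T.Ok5a p0 p1 p2 p3 p4)
    (n2 : T.X p0 p3 p1 p2 = false)
    (n5 : T.X p0 p4 p1 p2 = true)
    (n9 : T.X p0 p2 p3 p4 = false)
    (n12 : T.X p1 p2 p3 p4 = false) : False := by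
  have h2 := h
  unfold Table.Ok5a at h2
  rw [n2, n5, n9, n12] at h2
  exact bc5a_4644_32 _ _ _ _ _ _ _ _ _ _ _ h2

theorem bc5a_4704_512 : ∀ b0 b1 b2 b3 b4 b7 b8 b10 b11 b13 b14 : Bool,
    ok5a b0 b1 b2 b3 b4 false false b7 b8 true b10 b11 false b13 b14 = true → False := by
  decide +kernel

theorem c5a_4704_512 {p0 p1 p2 p3 p4 : V} (h : T.Ok5a p0 p1 p2 p3 p4)
    (n5 : T.X p0 p4 p1 p2 = false)
    (n6 : T.X p0 p1 p3 p4 = false)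
    (n9 : T.X p0 p2 p3 p4 = true)
    (n12 : T.X p1 p2 p3 p4 = false) : False := by
  have h2 := h
  unfold Table.Ok5a at h2
  rw [n5, n6, n9, n12] at h2
  exact bc5a_4704_512 _ _ _ _ _ _ _ _ _ _ _ h2

theorem bc5a_6208_2112 : ∀ b0 b1 b2 b3 b4 b5 b7 b8 b9 b10 b13 b14 : Bool,
    ok5a b0 b1 b2 b3 b4 b5 true b7 b8 b9 b10 true false b13 b14 = true → False := by
  decide +kernel

theorem c5a_6208_2112 {p0 p1 p2 p3 p4 : V} (h : T.Ok5a p0 p1 p2 p3 p4)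
    (n6 : T.X p0 p1 p3 p4 = true)
    (n11 : T.X p0 p4 p2 p3 = true)
    (n12 : T.X p1 p2 p3 p4 = false) : False := by
  have h2 := h
  unfold Table.Ok5a at h2
  rw [n6, n11, n12] at h2
  exact bc5a_6208_2112 _ _ _ _ _ _ _ _ _ _ _ _ h2

theorem bc5a_8230_8224 : ∀ b0 b3 b4 b6 b7 b8 b9 b10 b11 b12 b14 : Bool,
    ok5a b0 false false b3 b4 true b6 b7 b8 b9 b10 b11 b12 true b14 = true → False := by
  decide +kernel

theorem c5a_8230_8224 {p0 p1 p2 p3 p4 : V} (h : T.Ok5a p0 p1 p2 p3 p4)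
    (n1 : T.X p0 p2 p1 p3 = false)
    (n2 : T.X p0 p3 p1 p2 = false)
    (n5 : T.X p0 p4 p1 p2 = true)
    (n13 : T.X p1 p3 p2 p4 = true) : False := by
  have h2 := h
  unfold Table.Ok5a at h2
  rw [n1, n2, n5, n13] at h2
  exact bc5a_8230_8224 _ _ _ _ _ _ _ _ _ _ _ h2

theorem bc5a_8236_8196 : ∀ b0 b1 b4 b6 b7 b8 b9 b10 b11 b12 b14 : Bool,
    ok5a b0 b1 true false b4 false b6 b7 b8 b9 b10 b11 b12 true b14 = true → False := by
  decide +kernel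

theorem c5a_8236_8196 {p0 p1 p2 p3 p4 : V} (h : T.Ok5a p0 p1 p2 p3 p4)
    (n2 : T.X p0 p3 p1 p2 = true)
    (n3 : T.X p0 p1 p2 p4 = false)
    (n5 : T.X p0 p4 p1 p2 = false)
    (n13 : T.X p1 p3 p2 p4 = true) : False := by
  have h2 := h
  unfold Table.Ok5a at h2
  rw [n2, n3, n5, n13] at h2
  exact bc5a_8236_8196 _ _ _ _ _ _ _ _ _ _ _ h2

theorem bc5a_8266_8258 : ∀ b0 b2 b4 b5 b7 b8 b9 b10 b11 b12 b14 : Bool,
    ok5a b0 true b2 false b4 b5 true b7 b8 b9 b10 b11 b12 true b14 = true → False := by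
  decide +kernel

theorem c5a_8266_8258 {p0 p1 p2 p3 p4 : V} (h : T.Ok5a p0 p1 p2 p3 p4)
    (n1 : T.X p0 p2 p1 p3 = true)
    (n3 : T.X p0 p1 p2 p4 = false)
    (n6 : T.X p0 p1 p3 p4 = true)
    (n13 : T.X p1 p3 p2 p4 = true) : False := by
  have h2 := h
  unfold Table.Ok5a at h2
  rw [n1, n3, n6, n13] at h2
  exact bc5a_8266_8258 _ _ _ _ _ _ _ _ _ _ _ h2

theorem bc5a_8456_264 : ∀ b0 b1 b2 b4 b5 b6 b7 b9 b10 b11 b12 b14 : Bool,
    ok5a b0 b1 b2 true b4 b5 b6 b7 true b9 b10 b11 b12 false b14 = true → False := by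
  decide +kernel

theorem c5a_8456_264 {p0 p1 p2 p3 p4 : V} (h : T.Ok5a p0 p1 p2 p3 p4)
    (n3 : T.X p0 p1 p2 p4 = true)
    (n8 : T.X p0 p4 p1 p3 = true)
    (n13 : T.X p1 p3 p2 p4 = false) : False := by
  have h2 := h
  unfold Table.Ok5a at h2
  rw [n3, n8, n13] at h2
  exact bc5a_8456_264 _ _ _ _ _ _ _ _ _ _ _ _ h2

theorem bc5a_8482_8226 : ∀ b0 b2 b3 b4 b6 b7 b9 b10 b11 b12 b14 : Bool,
    ok5a b0 true b2 b3 b4 true b6 b7 false b9 b10 b11 b12 true b14 = true → False := by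
  decide +kernel

theorem c5a_8482_8226 {p0 p1 p2 p3 p4 : V} (h : T.Ok5a p0 p1 p2 p3 p4)
    (n1 : T.X p0 p2 p1 p3 = true)
    (n5 : T.X p0 p4 p1 p2 = true)
    (n8 : T.X p0 p4 p1 p3 = false)
    (n13 : T.X p1 p3 p2 p4 = true) : False := by
  have h2 := h
  unfold Table.Ok5a at h2
  rw [n1, n5, n8, n13] at h2
  exact bc5a_8482_8226 _ _ _ _ _ _ _ _ _ _ _ h2

theorem bc5a_8484_8224 : ∀ b0 b1 b3 b4 b6 b7 b9 b10 b11 b12 b14 : Bool,
    ok5a b0 b1 false b3 b4 true b6 b7 false b9 b10 b11 b12 true b14 = true → False := by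
  decide +kernel

theorem c5a_8484_8224 {p0 p1 p2 p3 p4 : V} (h : T.Ok5a p0 p1 p2 p3 p4)
    (n2 : T.X p0 p3 p1 p2 = false)
    (n5 : T.X p0 p4 p1 p2 = true)
    (n8 : T.X p0 p4 p1 p3 = false)
    (n13 : T.X p1 p3 p2 p4 = true) : False := by
  have h2 := h
  unfold Table.Ok5a at h2
  rw [n2, n5, n8, n13] at h2
  exact bc5a_8484_8224 _ _ _ _ _ _ _ _ _ _ _ h2

theorem bc5a_8585_8201 : ∀ b1 b2 b4 b5 b6 b9 b10 b11 b12 b14 : Bool,
    ok5a true b1 b2 true b4 b5 b6 false false b9 b10 b11 b12 true b14 = true → False := by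
  decide +kernel

theorem c5a_8585_8201 {p0 p1 p2 p3 p4 : V} (h : T.Ok5a p0 p1 p2 p3 p4)
    (n0 : T.X p0 p1 p2 p3 = true)
    (n3 : T.X p0 p1 p2 p4 = true)
    (n7 : T.X p0 p3 p1 p4 = false)
    (n8 : T.X p0 p4 p1 p3 = false)
    (n13 : T.X p1 p3 p2 p4 = true) : False := by
  have h2 := h
  unfold Table.Ok5a at h2
  rw [n0, n3, n7, n8, n13] at h2
  exact bc5a_8585_8201 _ _ _ _ _ _ _ _ _ _ h2

theorem bc5a_8590_8200 : ∀ b0 b4 b5 b6 b9 b10 b11 b12 b14 : Bool,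
    ok5a b0 false false true b4 b5 b6 false false b9 b10 b11 b12 true b14 = true → False := by
  decide +kernel

theorem c5a_8590_8200 {p0 p1 p2 p3 p4 : V} (h : T.Ok5a p0 p1 p2 p3 p4)
    (n1 : T.X p0 p2 p1 p3 = false)
    (n2 : T.X p0 p3 p1 p2 = false)
    (n3 : T.X p0 p1 p2 p4 = true)
    (n7 : T.X p0 p3 p1 p4 = false)
    (n8 : T.X p0 p4 p1 p3 = false)
    (n13 : T.X p1 p3 p2 p4 = true) : False := by
  have h2 := h
  unfold Table.Ok5a at h2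
  rw [n1, n2, n3, n7, n8, n13] at h2
  exact bc5a_8590_8200 _ _ _ _ _ _ _ _ _ h2

theorem bc5a_8592_8208 : ∀ b0 b1 b2 b3 b5 b6 b9 b10 b11 b12 b14 : Bool,
    ok5a b0 b1 b2 b3 true b5 b6 false false b9 b10 b11 b12 true b14 = true → False := by
  decide +kernel

theorem c5a_8592_8208 {p0 p1 p2 p3 p4 : V} (h : T.Ok5a p0 p1 p2 p3 p4)
    (n4 : T.X p0 p2 p1 p4 = true)
    (n7 : T.X p0 p3 p1 p4 = false)
    (n8 : T.X p0 p4 p1 p3 = false)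
    (n13 : T.X p1 p3 p2 p4 = true) : False := by
  have h2 := h
  unfold Table.Ok5a at h2
  rw [n4, n7, n8, n13] at h2
  exact bc5a_8592_8208 _ _ _ _ _ _ _ _ _ _ _ h2

theorem bc5a_8738_8736 : ∀ b0 b2 b3 b4 b6 b7 b8 b10 b11 b12 b14 : Bool,
    ok5a b0 false b2 b3 b4 true b6 b7 b8 true b10 b11 b12 true b14 = true → False := by
  decide +kernel

theorem c5a_8738_8736 {p0 p1 p2 p3 p4 : V} (h : T.Ok5a p0 p1 p2 p3 p4)
    (n1 : T.X p0 p2 p1 p3 = false)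
    (n5 : T.X p0 p4 p1 p2 = true)
    (n9 : T.X p0 p2 p3 p4 = true)
    (n13 : T.X p1 p3 p2 p4 = true) : False := by
  have h2 := h
  unfold Table.Ok5a at h2
  rw [n1, n5, n9, n13] at h2
  exact bc5a_8738_8736 _ _ _ _ _ _ _ _ _ _ _ h2

theorem bc5a_8746_8706 : ∀ b0 b2 b4 b6 b7 b8 b10 b11 b12 b14 : Bool,
    ok5a b0 true b2 false b4 false b6 b7 b8 true b10 b11 b12 true b14 = true → False := by
  decide +kernel

theorem c5a_8746_8706 {p0 p1 p2 p3 p4 : V} (h : T.Ok5a p0 p1 p2 p3 p4)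
    (n1 : T.X p0 p2 p1 p3 = true)
    (n3 : T.X p0 p1 p2 p4 = false)
    (n5 : T.X p0 p4 p1 p2 = false)
    (n9 : T.X p0 p2 p3 p4 = true)
    (n13 : T.X p1 p3 p2 p4 = true) : False := by
  have h2 := h
  unfold Table.Ok5a at h2
  rw [n1, n3, n5, n9, n13] at h2
  exact bc5a_8746_8706 _ _ _ _ _ _ _ _ _ _ h2

theorem bc5a_9024_8704 : ∀ b0 b1 b2 b3 b4 b5 b7 b10 b11 b12 b14 : Bool,
    ok5a b0 b1 b2 b3 b4 b5 false b7 false true b10 b11 b12 true b14 = true → False := by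
  decide +kernel

theorem c5a_9024_8704 {p0 p1 p2 p3 p4 : V} (h : T.Ok5a p0 p1 p2 p3 p4)
    (n6 : T.X p0 p1 p3 p4 = false)
    (n8 : T.X p0 p4 p1 p3 = false)
    (n9 : T.X p0 p2 p3 p4 = true)
    (n13 : T.X p1 p3 p2 p4 = true) : False := by
  have h2 := h
  unfold Table.Ok5a at h2
  rw [n6, n8, n9, n13] at h2
  exact bc5a_9024_8704 _ _ _ _ _ _ _ _ _ _ _ h2

theorem bc5a_9274_8194 : ∀ b0 b2 b6 b7 b8 b9 b11 b12 b14 : Bool,
    ok5a b0 true b2 false false false b6 b7 b8 b9 false b11 b12 true b14 = true → False := by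
  decide +kernel

theorem c5a_9274_8194 {p0 p1 p2 p3 p4 : V} (h : T.Ok5a p0 p1 p2 p3 p4)
    (n1 : T.X p0 p2 p1 p3 = true)
    (n3 : T.X p0 p1 p2 p4 = false)
    (n4 : T.X p0 p2 p1 p4 = false)
    (n5 : T.X p0 p4 p1 p2 = false)
    (n10 : T.X p0 p3 p2 p4 = false)
    (n13 : T.X p1 p3 p2 p4 = true) : False := by
  have h2 := h
  unfold Table.Ok5a at h2
  rw [n1, n3, n4, n5, n10, n13] at h2
  exact bc5a_9274_8194 _ _ _ _ _ _ _ _ _ h2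

theorem bc5a_9482_0 : ∀ b0 b2 b4 b5 b6 b7 b9 b11 b12 b14 : Bool,
    ok5a b0 false b2 false b4 b5 b6 b7 false b9 false b11 b12 false b14 = true → False := by
  decide +kernel

theorem c5a_9482_0 {p0 p1 p2 p3 p4 : V} (h : T.Ok5a p0 p1 p2 p3 p4)
    (n1 : T.X p0 p2 p1 p3 = false)
    (n3 : T.X p0 p1 p2 p4 = false)
    (n8 : T.X p0 p4 p1 p3 = false)
    (n10 : T.X p0 p3 p2 p4 = false)
    (n13 : T.X p1 p3 p2 p4 = false) : False := by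
  have h2 := h
  unfold Table.Ok5a at h2
  rw [n1, n3, n8, n10, n13] at h2
  exact bc5a_9482_0 _ _ _ _ _ _ _ _ _ _ h2

theorem bc5a_9482_8194 : ∀ b0 b2 b4 b5 b6 b7 b9 b11 b12 b14 : Bool,
    ok5a b0 true b2 false b4 b5 b6 b7 false b9 false b11 b12 true b14 = true → False := by
  decide +kernel

theorem c5a_9482_8194 {p0 p1 p2 p3 p4 : V} (h : T.Ok5a p0 p1 p2 p3 p4)
    (n1 : T.X p0 p2 p1 p3 = true)
    (n3 : T.X p0 p1 p2 p4 = false)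
    (n8 : T.X p0 p4 p1 p3 = false)
    (n10 : T.X p0 p3 p2 p4 = false)
    (n13 : T.X p1 p3 p2 p4 = true) : False := by
  have h2 := h
  unfold Table.Ok5a at h2
  rw [n1, n3, n8, n10, n13] at h2
  exact bc5a_9482_8194 _ _ _ _ _ _ _ _ _ _ h2

theorem bc5a_9482_9216 : ∀ b0 b2 b4 b5 b6 b7 b9 b11 b12 b14 : Bool,
    ok5a b0 false b2 false b4 b5 b6 b7 false b9 true b11 b12 true b14 = true → False := by
  decide +kernel

theorem c5a_9482_9216 {p0 p1 p2 p3 p4 : V} (h : T.Ok5a p0 p1 p2 p3 p4)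
    (n1 : T.X p0 p2 p1 p3 = false)
    (n3 : T.X p0 p1 p2 p4 = false)
    (n8 : T.X p0 p4 p1 p3 = false)
    (n10 : T.X p0 p3 p2 p4 = true)
    (n13 : T.X p1 p3 p2 p4 = true) : False := by
  have h2 := h
  unfold Table.Ok5a at h2
  rw [n1, n3, n8, n10, n13] at h2
  exact bc5a_9482_9216 _ _ _ _ _ _ _ _ _ _ h2

theorem bc5a_9484_9220 : ∀ b0 b1 b4 b5 b6 b7 b9 b11 b12 b14 : Bool,
    ok5a b0 b1 true false b4 b5 b6 b7 false b9 true b11 b12 true b14 = true → False := by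
  decide +kernel

theorem c5a_9484_9220 {p0 p1 p2 p3 p4 : V} (h : T.Ok5a p0 p1 p2 p3 p4)
    (n2 : T.X p0 p3 p1 p2 = true)
    (n3 : T.X p0 p1 p2 p4 = false)
    (n8 : T.X p0 p4 p1 p3 = false)
    (n10 : T.X p0 p3 p2 p4 = true)
    (n13 : T.X p1 p3 p2 p4 = true) : False := by
  have h2 := h
  unfold Table.Ok5a at h2
  rw [n2, n3, n8, n10, n13] at h2
  exact bc5a_9484_9220 _ _ _ _ _ _ _ _ _ _ h2

theorem bc5a_9490_16 : ∀ b0 b2 b3 b5 b6 b7 b9 b11 b12 b14 : Bool,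
    ok5a b0 false b2 b3 true b5 b6 b7 false b9 false b11 b12 false b14 = true → False := by
  decide +kernel

theorem c5a_9490_16 {p0 p1 p2 p3 p4 : V} (h : T.Ok5a p0 p1 p2 p3 p4)
    (n1 : T.X p0 p2 p1 p3 = false)
    (n4 : T.X p0 p2 p1 p4 = true)
    (n8 : T.X p0 p4 p1 p3 = false)
    (n10 : T.X p0 p3 p2 p4 = false)
    (n13 : T.X p1 p3 p2 p4 = false) : False := by
  have h2 := h
  unfold Table.Ok5a at h2
  rw [n1, n4, n8, n10, n13] at h2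
  exact bc5a_9490_16 _ _ _ _ _ _ _ _ _ _ h2

theorem bc5a_9504_9248 : ∀ b0 b1 b2 b3 b4 b6 b7 b9 b11 b12 b14 : Bool,
    ok5a b0 b1 b2 b3 b4 true b6 b7 false b9 true b11 b12 true b14 = true → False := by
  decide +kernel

theorem c5a_9504_9248 {p0 p1 p2 p3 p4 : V} (h : T.Ok5a p0 p1 p2 p3 p4)
    (n5 : T.X p0 p4 p1 p2 = true)
    (n8 : T.X p0 p4 p1 p3 = false)
    (n10 : T.X p0 p3 p2 p4 = true)
    (n13 : T.X p1 p3 p2 p4 = true) : False := by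
  have h2 := h
  unfold Table.Ok5a at h2
  rw [n5, n8, n10, n13] at h2
  exact bc5a_9504_9248 _ _ _ _ _ _ _ _ _ _ _ h2

theorem bc5a_10257_10240 : ∀ b1 b2 b3 b5 b6 b7 b8 b9 b10 b12 b14 : Bool,
    ok5a false b1 b2 b3 false b5 b6 b7 b8 b9 b10 true b12 true b14 = true → False := by
  decide +kernel

theorem c5a_10257_10240 {p0 p1 p2 p3 p4 : V} (h : T.Ok5a p0 p1 p2 p3 p4)
    (n0 : T.X p0 p1 p2 p3 = false)
    (n4 : T.X p0 p2 p1 p4 = false)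
    (n11 : T.X p0 p4 p2 p3 = true)
    (n13 : T.X p1 p3 p2 p4 = true) : False := by
  have h2 := h
  unfold Table.Ok5a at h2
  rw [n0, n4, n11, n13] at h2
  exact bc5a_10257_10240 _ _ _ _ _ _ _ _ _ _ _ h2

theorem bc5a_10272_10272 : ∀ b0 b1 b2 b3 b4 b6 b7 b8 b9 b10 b12 b14 : Bool,
    ok5a b0 b1 b2 b3 b4 true b6 b7 b8 b9 b10 true b12 true b14 = true → False := by
  decide +kernel

theorem c5a_10272_10272 {p0 p1 p2 p3 p4 : V} (h : T.Ok5a p0 p1 p2 p3 p4)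
    (n5 : T.X p0 p4 p1 p2 = true)
    (n11 : T.X p0 p4 p2 p3 = true)
    (n13 : T.X p1 p3 p2 p4 = true) : False := by
  have h2 := h
  unfold Table.Ok5a at h2
  rw [n5, n11, n13] at h2
  exact bc5a_10272_10272 _ _ _ _ _ _ _ _ _ _ _ _ h2

theorem bc5a_10497_10240 : ∀ b1 b2 b3 b4 b5 b6 b7 b9 b10 b12 b14 : Bool,
    ok5a false b1 b2 b3 b4 b5 b6 b7 false b9 b10 true b12 true b14 = true → False := by
  decide +kernel

theorem c5a_10497_10240 {p0 p1 p2 p3 p4 : V} (h : T.Ok5a p0 p1 p2 p3 p4)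
    (n0 : T.X p0 p1 p2 p3 = false)
    (n8 : T.X p0 p4 p1 p3 = false)
    (n11 : T.X p0 p4 p2 p3 = true)
    (n13 : T.X p1 p3 p2 p4 = true) : False := by
  have h2 := h
  unfold Table.Ok5a at h2
  rw [n0, n8, n11, n13] at h2
  exact bc5a_10497_10240 _ _ _ _ _ _ _ _ _ _ _ h2

theorem bc5a_12288_12288 : ∀ b0 b1 b2 b3 b4 b5 b6 b7 b8 b9 b10 b11 b14 : Bool,
    ok5a b0 b1 b2 b3 b4 b5 b6 b7 b8 b9 b10 b11 true true b14 = true → False := by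
  decide +kernel

theorem c5a_12288_12288 {p0 p1 p2 p3 p4 : V} (h : T.Ok5a p0 p1 p2 p3 p4)
    (n12 : T.X p1 p2 p3 p4 = true)
    (n13 : T.X p1 p3 p2 p4 = true) : False := by
  have h2 := h
  unfold Table.Ok5a at h2
  rw [n12, n13] at h2
  exact bc5a_12288_12288 _ _ _ _ _ _ _ _ _ _ _ _ _ h2

theorem bc5a_16396_16396 : ∀ b0 b1 b4 b5 b6 b7 b8 b9 b10 b11 b12 b13 : Bool,
    ok5a b0 b1 true true b4 b5 b6 b7 b8 b9 b10 b11 b12 b13 true = true → False := by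
  decide +kernel

theorem c5a_16396_16396 {p0 p1 p2 p3 p4 : V} (h : T.Ok5a p0 p1 p2 p3 p4)
    (n2 : T.X p0 p3 p1 p2 = true)
    (n3 : T.X p0 p1 p2 p4 = true)
    (n14 : T.X p1 p4 p2 p3 = true) : False := by
  have h2 := h
  unfold Table.Ok5a at h2
  rw [n2, n3, n14] at h2
  exact bc5a_16396_16396 _ _ _ _ _ _ _ _ _ _ _ _ h2

theorem bc5a_16420_16388 : ∀ b0 b1 b3 b4 b6 b7 b8 b9 b10 b11 b12 b13 : Bool,
    ok5a b0 b1 true b3 b4 false b6 b7 b8 b9 b10 b11 b12 b13 true = true → False := by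
  decide +kernel

theorem c5a_16420_16388 {p0 p1 p2 p3 p4 : V} (h : T.Ok5a p0 p1 p2 p3 p4)
    (n2 : T.X p0 p3 p1 p2 = true)
    (n5 : T.X p0 p4 p1 p2 = false)
    (n14 : T.X p1 p4 p2 p3 = true) : False := by
  have h2 := h
  unfold Table.Ok5a at h2
  rw [n2, n5, n14] at h2
  exact bc5a_16420_16388 _ _ _ _ _ _ _ _ _ _ _ _ h2

theorem bc5a_16657_16641 : ∀ b1 b2 b3 b5 b6 b7 b9 b10 b11 b12 b13 : Bool,
    ok5a true b1 b2 b3 false b5 b6 b7 true b9 b10 b11 b12 b13 true = true → False := by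
  decide +kernel

theorem c5a_16657_16641 {p0 p1 p2 p3 p4 : V} (h : T.Ok5a p0 p1 p2 p3 p4)
    (n0 : T.X p0 p1 p2 p3 = true)
    (n4 : T.X p0 p2 p1 p4 = false)
    (n8 : T.X p0 p4 p1 p3 = true)
    (n14 : T.X p1 p4 p2 p3 = true) : False := by
  have h2 := h
  unfold Table.Ok5a at h2
  rw [n0, n4, n8, n14] at h2
  exact bc5a_16657_16641 _ _ _ _ _ _ _ _ _ _ _ h2

theorem bc5a_16659_16400 : ∀ b2 b3 b5 b6 b7 b9 b10 b11 b12 b13 : Bool,
    ok5a false false b2 b3 true b5 b6 b7 false b9 b10 b11 b12 b13 true = true → False := by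
  decide +kernel

theorem c5a_16659_16400 {p0 p1 p2 p3 p4 : V} (h : T.Ok5a p0 p1 p2 p3 p4)
    (n0 : T.X p0 p1 p2 p3 = false)
    (n1 : T.X p0 p2 p1 p3 = false)
    (n4 : T.X p0 p2 p1 p4 = true)
    (n8 : T.X p0 p4 p1 p3 = false)
    (n14 : T.X p1 p4 p2 p3 = true) : False := by
  have h2 := h
  unfold Table.Ok5a at h2
  rw [n0, n1, n4, n8, n14] at h2
  exact bc5a_16659_16400 _ _ _ _ _ _ _ _ _ _ h2

theorem bc5a_17425_17424 : ∀ b1 b2 b3 b5 b6 b7 b8 b9 b11 b12 b13 : Bool,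
    ok5a false b1 b2 b3 true b5 b6 b7 b8 b9 true b11 b12 b13 true = true → False := by
  decide +kernel

theorem c5a_17425_17424 {p0 p1 p2 p3 p4 : V} (h : T.Ok5a p0 p1 p2 p3 p4)
    (n0 : T.X p0 p1 p2 p3 = false)
    (n4 : T.X p0 p2 p1 p4 = true)
    (n10 : T.X p0 p3 p2 p4 = true)
    (n14 : T.X p1 p4 p2 p3 = true) : False := by
  have h2 := h
  unfold Table.Ok5a at h2
  rw [n0, n4, n10, n14] at h2
  exact bc5a_17425_17424 _ _ _ _ _ _ _ _ _ _ _ h2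

theorem bc5a_18449_2048 : ∀ b1 b2 b3 b5 b6 b7 b8 b9 b10 b12 b13 : Bool,
    ok5a false b1 b2 b3 false b5 b6 b7 b8 b9 b10 true b12 b13 false = true → False := by
  decide +kernel

theorem c5a_18449_2048 {p0 p1 p2 p3 p4 : V} (h : T.Ok5a p0 p1 p2 p3 p4)
    (n0 : T.X p0 p1 p2 p3 = false)
    (n4 : T.X p0 p2 p1 p4 = false)
    (n11 : T.X p0 p4 p2 p3 = true)
    (n14 : T.X p1 p4 p2 p3 = false) : False := by
  have h2 := h
  unfold Table.Ok5a at h2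
  rw [n0, n4, n11, n14] at h2
  exact bc5a_18449_2048 _ _ _ _ _ _ _ _ _ _ _ h2

theorem bc5a_18562_16514 : ∀ b0 b2 b3 b4 b5 b6 b8 b9 b10 b12 b13 : Bool,
    ok5a b0 true b2 b3 b4 b5 b6 true b8 b9 b10 false b12 b13 true = true → False := by
  decide +kernel

theorem c5a_18562_16514 {p0 p1 p2 p3 p4 : V} (h : T.Ok5a p0 p1 p2 p3 p4)
    (n1 : T.X p0 p2 p1 p3 = true)
    (n7 : T.X p0 p3 p1 p4 = true)
    (n11 : T.X p0 p4 p2 p3 = false)
    (n14 : T.X p1 p4 p2 p3 = true) : False := by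
  have h2 := h
  unfold Table.Ok5a at h2
  rw [n1, n7, n11, n14] at h2
  exact bc5a_18562_16514 _ _ _ _ _ _ _ _ _ _ _ h2

theorem bc5a_19460_16388 : ∀ b0 b1 b3 b4 b5 b6 b7 b8 b9 b12 b13 : Bool,
    ok5a b0 b1 true b3 b4 b5 b6 b7 b8 b9 false false b12 b13 true = true → False := by
  decide +kernel

theorem c5a_19460_16388 {p0 p1 p2 p3 p4 : V} (h : T.Ok5a p0 p1 p2 p3 p4)
    (n2 : T.X p0 p3 p1 p2 = true)
    (n10 : T.X p0 p3 p2 p4 = false)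
    (n11 : T.X p0 p4 p2 p3 = false)
    (n14 : T.X p1 p4 p2 p3 = true) : False := by
  have h2 := h
  unfold Table.Ok5a at h2
  rw [n2, n10, n11, n14] at h2
  exact bc5a_19460_16388 _ _ _ _ _ _ _ _ _ _ _ h2

theorem bc5a_19585_16513 : ∀ b1 b2 b3 b4 b5 b6 b8 b9 b12 b13 : Bool,
    ok5a true b1 b2 b3 b4 b5 b6 true b8 b9 false false b12 b13 true = true → False := by
  decide +kernel

theorem c5a_19585_16513 {p0 p1 p2 p3 p4 : V} (h : T.Ok5a p0 p1 p2 p3 p4)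
    (n0 : T.X p0 p1 p2 p3 = true)
    (n7 : T.X p0 p3 p1 p4 = true)
    (n10 : T.X p0 p3 p2 p4 = false)
    (n11 : T.X p0 p4 p2 p3 = false)
    (n14 : T.X p1 p4 p2 p3 = true) : False := by
  have h2 := h
  unfold Table.Ok5a at h2
  rw [n0, n7, n10, n11, n14] at h2
  exact bc5a_19585_16513 _ _ _ _ _ _ _ _ _ _ h2

theorem bc5a_19592_16512 : ∀ b0 b1 b2 b4 b5 b6 b8 b9 b12 b13 : Bool,
    ok5a b0 b1 b2 false b4 b5 b6 true b8 b9 false false b12 b13 true = true → False := by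
  decide +kernel

theorem c5a_19592_16512 {p0 p1 p2 p3 p4 : V} (h : T.Ok5a p0 p1 p2 p3 p4)
    (n3 : T.X p0 p1 p2 p4 = false)
    (n7 : T.X p0 p3 p1 p4 = true)
    (n10 : T.X p0 p3 p2 p4 = false)
    (n11 : T.X p0 p4 p2 p3 = false)
    (n14 : T.X p1 p4 p2 p3 = true) : False := by
  have h2 := h
  unfold Table.Ok5a at h2
  rw [n3, n7, n10, n11, n14] at h2
  exact bc5a_19592_16512 _ _ _ _ _ _ _ _ _ _ h2

theorem bc5a_20480_20480 : ∀ b0 b1 b2 b3 b4 b5 b6 b7 b8 b9 b10 b11 b13 : Bool,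
    ok5a b0 b1 b2 b3 b4 b5 b6 b7 b8 b9 b10 b11 true b13 true = true → False := by
  decide +kernel

theorem c5a_20480_20480 {p0 p1 p2 p3 p4 : V} (h : T.Ok5a p0 p1 p2 p3 p4)
    (n12 : T.X p1 p2 p3 p4 = true)
    (n14 : T.X p1 p4 p2 p3 = true) : False := by
  have h2 := h
  unfold Table.Ok5a at h2
  rw [n12, n14] at h2
  exact bc5a_20480_20480 _ _ _ _ _ _ _ _ _ _ _ _ _ h2

theorem bc5a_24576_24576 : ∀ b0 b1 b2 b3 b4 b5 b6 b7 b8 b9 b10 b11 b12 : Bool,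
    ok5a b0 b1 b2 b3 b4 b5 b6 b7 b8 b9 b10 b11 b12 true true = true → False := by
  decide +kernel

theorem c5a_24576_24576 {p0 p1 p2 p3 p4 : V} (h : T.Ok5a p0 p1 p2 p3 p4)
    (n13 : T.X p1 p3 p2 p4 = true)
    (n14 : T.X p1 p4 p2 p3 = true) : False := by
  have h2 := h
  unfold Table.Ok5a at h2
  rw [n13, n14] at h2
  exact bc5a_24576_24576 _ _ _ _ _ _ _ _ _ _ _ _ _ h2

end H53P
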