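import Pool.Agent.Lib.H98S.Ord

/-! # H98S, finite facts, file CL2: clauses for five points (generated) -/

set_option linter.unusedVariables false

namespace H53P

variable {V : Type*} {T : Table V}

theorem bc5_1188_1184 : ∀ b0 b1 b3 b4 b6 b8 b9 b11 b12 b13 b14 : Bool,
    ok5 b0 b1 false b3 b4 true b6 true b8 b9 true b11 b12 b13 b14 = true → False := by
  decide +kernel

theorem c5_1188_1184 {p0 p1 p2 p3 p4 : V} (h : T.Ok5 p0 p1 p2 p3 p4)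
    (n2 : T.X p0 p3 p1 p2 = false)
    (n5 : T.X p0 p4 p1 p2 = true)
    (n7 : T.X p0 p3 p1 p4 = true)
    (n10 : T.X p0 p3 p2 p4 = true) : False := by
  have h2 := h
  unfold Table.Ok5 at h2
  rw [n2, n5, n7, n10] at h2
  exact bc5_1188_1184 _ _ _ _ _ _ _ _ _ _ _ h2

theorem bc5_4898_4352 : ∀ b0 b2 b3 b4 b6 b7 b10 b11 b13 b14 : Bool,
    ok5 b0 false b2 b3 b4 false b6 b7 true false b10 b11 true b13 b14 = true → False := by
  decide +kernel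

theorem c5_4898_4352 {p0 p1 p2 p3 p4 : V} (h : T.Ok5 p0 p1 p2 p3 p4)
    (n1 : T.X p0 p2 p1 p3 = false)
    (n5 : T.X p0 p4 p1 p2 = false)
    (n8 : T.X p0 p4 p1 p3 = true)
    (n9 : T.X p0 p2 p3 p4 = false)
    (n12 : T.X p1 p2 p3 p4 = true) : False := by
  have h2 := h
  unfold Table.Ok5 at h2
  rw [n1, n5, n8, n9, n12] at h2
  exact bc5_4898_4352 _ _ _ _ _ _ _ _ _ _ h2

theorem bc5_6241_2112 : ∀ b1 b2 b3 b4 b7 b8 b9 b10 b13 b14 : Bool,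
    ok5 false b1 b2 b3 b4 false true b7 b8 b9 b10 true false b13 b14 = true → False := by
  decide +kernel

theorem c5_6241_2112 {p0 p1 p2 p3 p4 : V} (h : T.Ok5 p0 p1 p2 p3 p4)
    (n0 : T.X p0 p1 p2 p3 = false)
    (n5 : T.X p0 p4 p1 p2 = false)
    (n6 : T.X p0 p1 p3 p4 = true)
    (n11 : T.X p0 p4 p2 p3 = true)
    (n12 : T.X p1 p2 p3 p4 = false) : False := by
  have h2 := h
  unfold Table.Ok5 at h2
  rw [n0, n5, n6, n11, n12] at h2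
  exact bc5_6241_2112 _ _ _ _ _ _ _ _ _ _ h2

theorem bc5_8209_8209 : ∀ b1 b2 b3 b5 b6 b7 b8 b9 b10 b11 b12 b14 : Bool,
    ok5 true b1 b2 b3 true b5 b6 b7 b8 b9 b10 b11 b12 true b14 = true → False := by
  decide +kernel

theorem c5_8209_8209 {p0 p1 p2 p3 p4 : V} (h : T.Ok5 p0 p1 p2 p3 p4)
    (n0 : T.X p0 p1 p2 p3 = true)
    (n4 : T.X p0 p2 p1 p4 = true)
    (n13 : T.X p1 p3 p2 p4 = true) : False := by
  have h2 := h
  unfold Table.Ok5 at h2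
  rw [n0, n4, n13] at h2
  exact bc5_8209_8209 _ _ _ _ _ _ _ _ _ _ _ _ h2

theorem bc5_9225_9217 : ∀ b1 b2 b4 b5 b6 b7 b8 b9 b11 b12 b14 : Bool,
    ok5 true b1 b2 false b4 b5 b6 b7 b8 b9 true b11 b12 true b14 = true → False := by
  decide +kernel

theorem c5_9225_9217 {p0 p1 p2 p3 p4 : V} (h : T.Ok5 p0 p1 p2 p3 p4)
    (n0 : T.X p0 p1 p2 p3 = true)
    (n3 : T.X p0 p1 p2 p4 = false)
    (n10 : T.X p0 p3 p2 p4 = true)
    (n13 : T.X p1 p3 p2 p4 = true) : False := by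
  have h2 := h
  unfold Table.Ok5 at h2
  rw [n0, n3, n10, n13] at h2
  exact bc5_9225_9217 _ _ _ _ _ _ _ _ _ _ _ h2

theorem bc5_18544_18496 : ∀ b0 b1 b2 b3 b7 b8 b9 b10 b12 b13 : Bool,
    ok5 b0 b1 b2 b3 false false true b7 b8 b9 b10 true b12 b13 true = true → False := by
  decide +kernel

theorem c5_18544_18496 {p0 p1 p2 p3 p4 : V} (h : T.Ok5 p0 p1 p2 p3 p4)
    (n4 : T.X p0 p2 p1 p4 = false)
    (n5 : T.X p0 p4 p1 p2 = false)
    (n6 : T.X p0 p1 p3 p4 = true)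
    (n11 : T.X p0 p4 p2 p3 = true)
    (n14 : T.X p1 p4 p2 p3 = true) : False := by
  have h2 := h
  unfold Table.Ok5 at h2
  rw [n4, n5, n6, n11, n14] at h2
  exact bc5_18544_18496 _ _ _ _ _ _ _ _ _ _ h2

theorem bc5_18596_160 : ∀ b0 b1 b3 b4 b6 b8 b9 b10 b12 b13 : Bool,
    ok5 b0 b1 false b3 b4 true b6 true b8 b9 b10 false b12 b13 false = true → False := by
  decide +kernel

theorem c5_18596_160 {p0 p1 p2 p3 p4 : V} (h : T.Ok5 p0 p1 p2 p3 p4)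
    (n2 : T.X p0 p3 p1 p2 = false)
    (n5 : T.X p0 p4 p1 p2 = true)
    (n7 : T.X p0 p3 p1 p4 = true)
    (n11 : T.X p0 p4 p2 p3 = false)
    (n14 : T.X p1 p4 p2 p3 = false) : False := by
  have h2 := h
  unfold Table.Ok5 at h2
  rw [n2, n5, n7, n11, n14] at h2
  exact bc5_18596_160 _ _ _ _ _ _ _ _ _ _ h2

theorem bc5a_48_48 : ∀ b0 b1 b2 b3 b6 b7 b8 b9 b10 b11 b12 b13 b14 : Bool,
    ok5a b0 b1 b2 b3 true true b6 b7 b8 b9 b10 b11 b12 b13 b14 = true → False := by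
  decide +kernel

theorem c5a_48_48 {p0 p1 p2 p3 p4 : V} (h : T.Ok5a p0 p1 p2 p3 p4)
    (n4 : T.X p0 p2 p1 p4 = true)
    (n5 : T.X p0 p4 p1 p2 = true) : False := by
  have h2 := h
  unfold Table.Ok5a at h2
  rw [n4, n5] at h2
  exact bc5a_48_48 _ _ _ _ _ _ _ _ _ _ _ _ _ h2

theorem bc5a_73_65 : ∀ b1 b2 b4 b5 b7 b8 b9 b10 b11 b12 b13 b14 : Bool,
    ok5a true b1 b2 false b4 b5 true b7 b8 b9 b10 b11 b12 b13 b14 = true → False := by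
  decide +kernel

theorem c5a_73_65 {p0 p1 p2 p3 p4 : V} (h : T.Ok5a p0 p1 p2 p3 p4)
    (n0 : T.X p0 p1 p2 p3 = true)
    (n3 : T.X p0 p1 p2 p4 = false)
    (n6 : T.X p0 p1 p3 p4 = true) : False := by
  have h2 := h
  unfold Table.Ok5a at h2
  rw [n0, n3, n6] at h2
  exact bc5a_73_65 _ _ _ _ _ _ _ _ _ _ _ _ h2

theorem bc5a_146_130 : ∀ b0 b2 b3 b5 b6 b8 b9 b10 b11 b12 b13 b14 : Bool,
    ok5a b0 true b2 b3 false b5 b6 true b8 b9 b10 b11 b12 b13 b14 = true → False := by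
  decide +kernel

theorem c5a_146_130 {p0 p1 p2 p3 p4 : V} (h : T.Ok5a p0 p1 p2 p3 p4)
    (n1 : T.X p0 p2 p1 p3 = true)
    (n4 : T.X p0 p2 p1 p4 = false)
    (n7 : T.X p0 p3 p1 p4 = true) : False := by
  have h2 := h
  unfold Table.Ok5a at h2
  rw [n1, n4, n7] at h2
  exact bc5a_146_130 _ _ _ _ _ _ _ _ _ _ _ _ h2

theorem bc5a_148_20 : ∀ b0 b1 b3 b5 b6 b8 b9 b10 b11 b12 b13 b14 : Bool,
    ok5a b0 b1 true b3 true b5 b6 false b8 b9 b10 b11 b12 b13 b14 = true → False := by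
  decide +kernel

theorem c5a_148_20 {p0 p1 p2 p3 p4 : V} (h : T.Ok5a p0 p1 p2 p3 p4)
    (n2 : T.X p0 p3 p1 p2 = true)
    (n4 : T.X p0 p2 p1 p4 = true)
    (n7 : T.X p0 p3 p1 p4 = false) : False := by
  have h2 := h
  unfold Table.Ok5a at h2
  rw [n2, n4, n7] at h2
  exact bc5a_148_20 _ _ _ _ _ _ _ _ _ _ _ _ h2

theorem bc5a_180_132 : ∀ b0 b1 b3 b6 b8 b9 b10 b11 b12 b13 b14 : Bool,
    ok5a b0 b1 true b3 false false b6 true b8 b9 b10 b11 b12 b13 b14 = true → False := by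
  decide +kernel

theorem c5a_180_132 {p0 p1 p2 p3 p4 : V} (h : T.Ok5a p0 p1 p2 p3 p4)
    (n2 : T.X p0 p3 p1 p2 = true)
    (n4 : T.X p0 p2 p1 p4 = false)
    (n5 : T.X p0 p4 p1 p2 = false)
    (n7 : T.X p0 p3 p1 p4 = true) : False := by
  have h2 := h
  unfold Table.Ok5a at h2
  rw [n2, n4, n5, n7] at h2
  exact bc5a_180_132 _ _ _ _ _ _ _ _ _ _ _ h2

theorem bc5a_266_266 : ∀ b0 b2 b4 b5 b6 b7 b9 b10 b11 b12 b13 b14 : Bool,
    ok5a b0 true b2 true b4 b5 b6 b7 true b9 b10 b11 b12 b13 b14 = true → False := by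
  decide +kernel

theorem c5a_266_266 {p0 p1 p2 p3 p4 : V} (h : T.Ok5a p0 p1 p2 p3 p4)
    (n1 : T.X p0 p2 p1 p3 = true)
    (n3 : T.X p0 p1 p2 p4 = true)
    (n8 : T.X p0 p4 p1 p3 = true) : False := by
  have h2 := h
  unfold Table.Ok5a at h2
  rw [n1, n3, n8] at h2
  exact bc5a_266_266 _ _ _ _ _ _ _ _ _ _ _ _ h2

theorem bc5a_268_268 : ∀ b0 b1 b4 b5 b6 b7 b9 b10 b11 b12 b13 b14 : Bool,
    ok5a b0 b1 true true b4 b5 b6 b7 true b9 b10 b11 b12 b13 b14 = true → False := by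
  decide +kernel

theorem c5a_268_268 {p0 p1 p2 p3 p4 : V} (h : T.Ok5a p0 p1 p2 p3 p4)
    (n2 : T.X p0 p3 p1 p2 = true)
    (n3 : T.X p0 p1 p2 p4 = true)
    (n8 : T.X p0 p4 p1 p3 = true) : False := by
  have h2 := h
  unfold Table.Ok5a at h2
  rw [n2, n3, n8] at h2
  exact bc5a_268_268 _ _ _ _ _ _ _ _ _ _ _ _ h2

theorem bc5a_306_258 : ∀ b0 b2 b3 b6 b7 b9 b10 b11 b12 b13 b14 : Bool,
    ok5a b0 true b2 b3 false false b6 b7 true b9 b10 b11 b12 b13 b14 = true → False := by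
  decide +kernel

theorem c5a_306_258 {p0 p1 p2 p3 p4 : V} (h : T.Ok5a p0 p1 p2 p3 p4)
    (n1 : T.X p0 p2 p1 p3 = true)
    (n4 : T.X p0 p2 p1 p4 = false)
    (n5 : T.X p0 p4 p1 p2 = false)
    (n8 : T.X p0 p4 p1 p3 = true) : False := by
  have h2 := h
  unfold Table.Ok5a at h2
  rw [n1, n4, n5, n8] at h2
  exact bc5a_306_258 _ _ _ _ _ _ _ _ _ _ _ h2

theorem bc5a_401_17 : ∀ b1 b2 b3 b5 b6 b9 b10 b11 b12 b13 b14 : Bool,
    ok5a true b1 b2 b3 true b5 b6 false false b9 b10 b11 b12 b13 b14 = true → False := by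
  decide +kernel

theorem c5a_401_17 {p0 p1 p2 p3 p4 : V} (h : T.Ok5a p0 p1 p2 p3 p4)
    (n0 : T.X p0 p1 p2 p3 = true)
    (n4 : T.X p0 p2 p1 p4 = true)
    (n7 : T.X p0 p3 p1 p4 = false)
    (n8 : T.X p0 p4 p1 p3 = false) : False := by
  have h2 := h
  unfold Table.Ok5a at h2
  rw [n0, n4, n7, n8] at h2
  exact bc5a_401_17 _ _ _ _ _ _ _ _ _ _ _ h2

theorem bc5a_402_16 : ∀ b0 b2 b3 b5 b6 b9 b10 b11 b12 b13 b14 : Bool,
    ok5a b0 false b2 b3 true b5 b6 false false b9 b10 b11 b12 b13 b14 = true → False := by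
  decide +kernel

theorem c5a_402_16 {p0 p1 p2 p3 p4 : V} (h : T.Ok5a p0 p1 p2 p3 p4)
    (n1 : T.X p0 p2 p1 p3 = false)
    (n4 : T.X p0 p2 p1 p4 = true)
    (n7 : T.X p0 p3 p1 p4 = false)
    (n8 : T.X p0 p4 p1 p3 = false) : False := by
  have h2 := h
  unfold Table.Ok5a at h2
  rw [n1, n4, n7, n8] at h2
  exact bc5a_402_16 _ _ _ _ _ _ _ _ _ _ _ h2

theorem bc5a_521_513 : ∀ b1 b2 b4 b5 b6 b7 b8 b10 b11 b12 b13 b14 : Bool,
    ok5a true b1 b2 false b4 b5 b6 b7 b8 true b10 b11 b12 b13 b14 = true → False := by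
  decide +kernel

theorem c5a_521_513 {p0 p1 p2 p3 p4 : V} (h : T.Ok5a p0 p1 p2 p3 p4)
    (n0 : T.X p0 p1 p2 p3 = true)
    (n3 : T.X p0 p1 p2 p4 = false)
    (n9 : T.X p0 p2 p3 p4 = true) : False := by
  have h2 := h
  unfold Table.Ok5a at h2
  rw [n0, n3, n9] at h2
  exact bc5a_521_513 _ _ _ _ _ _ _ _ _ _ _ _ h2

theorem bc5a_577_513 : ∀ b1 b2 b3 b4 b5 b7 b8 b10 b11 b12 b13 b14 : Bool,
    ok5a true b1 b2 b3 b4 b5 false b7 b8 true b10 b11 b12 b13 b14 = true → False := by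
  decide +kernel

theorem c5a_577_513 {p0 p1 p2 p3 p4 : V} (h : T.Ok5a p0 p1 p2 p3 p4)
    (n0 : T.X p0 p1 p2 p3 = true)
    (n6 : T.X p0 p1 p3 p4 = false)
    (n9 : T.X p0 p2 p3 p4 = true) : False := by
  have h2 := h
  unfold Table.Ok5a at h2
  rw [n0, n6, n9] at h2
  exact bc5a_577_513 _ _ _ _ _ _ _ _ _ _ _ _ h2

theorem bc5a_584_520 : ∀ b0 b1 b2 b4 b5 b7 b8 b10 b11 b12 b13 b14 : Bool,
    ok5a b0 b1 b2 true b4 b5 false b7 b8 true b10 b11 b12 b13 b14 = true → False := by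
  decide +kernel

theorem c5a_584_520 {p0 p1 p2 p3 p4 : V} (h : T.Ok5a p0 p1 p2 p3 p4)
    (n3 : T.X p0 p1 p2 p4 = true)
    (n6 : T.X p0 p1 p3 p4 = false)
    (n9 : T.X p0 p2 p3 p4 = true) : False := by
  have h2 := h
  unfold Table.Ok5a at h2
  rw [n3, n6, n9] at h2
  exact bc5a_584_520 _ _ _ _ _ _ _ _ _ _ _ _ h2

theorem bc5a_588_580 : ∀ b0 b1 b4 b5 b7 b8 b10 b11 b12 b13 b14 : Bool,
    ok5a b0 b1 true false b4 b5 true b7 b8 true b10 b11 b12 b13 b14 = true → False := by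
  decide +kernel

theorem c5a_588_580 {p0 p1 p2 p3 p4 : V} (h : T.Ok5a p0 p1 p2 p3 p4)
    (n2 : T.X p0 p3 p1 p2 = true)
    (n3 : T.X p0 p1 p2 p4 = false)
    (n6 : T.X p0 p1 p3 p4 = true)
    (n9 : T.X p0 p2 p3 p4 = true) : False := by
  have h2 := h
  unfold Table.Ok5a at h2
  rw [n2, n3, n6, n9] at h2
  exact bc5a_588_580 _ _ _ _ _ _ _ _ _ _ _ h2

theorem bc5a_642_640 : ∀ b0 b2 b3 b4 b5 b6 b8 b10 b11 b12 b13 b14 : Bool,
    ok5a b0 false b2 b3 b4 b5 b6 true b8 true b10 b11 b12 b13 b14 = true → False := by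
  decide +kernel

theorem c5a_642_640 {p0 p1 p2 p3 p4 : V} (h : T.Ok5a p0 p1 p2 p3 p4)
    (n1 : T.X p0 p2 p1 p3 = false)
    (n7 : T.X p0 p3 p1 p4 = true)
    (n9 : T.X p0 p2 p3 p4 = true) : False := by
  have h2 := h
  unfold Table.Ok5a at h2
  rw [n1, n7, n9] at h2
  exact bc5a_642_640 _ _ _ _ _ _ _ _ _ _ _ _ h2

theorem bc5a_656_640 : ∀ b0 b1 b2 b3 b5 b6 b8 b10 b11 b12 b13 b14 : Bool,
    ok5a b0 b1 b2 b3 false b5 b6 true b8 true b10 b11 b12 b13 b14 = true → False := by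
  decide +kernel

theorem c5a_656_640 {p0 p1 p2 p3 p4 : V} (h : T.Ok5a p0 p1 p2 p3 p4)
    (n4 : T.X p0 p2 p1 p4 = false)
    (n7 : T.X p0 p3 p1 p4 = true)
    (n9 : T.X p0 p2 p3 p4 = true) : False := by
  have h2 := h
  unfold Table.Ok5a at h2
  rw [n4, n7, n9] at h2
  exact bc5a_656_640 _ _ _ _ _ _ _ _ _ _ _ _ h2

theorem bc5a_720_528 : ∀ b0 b1 b2 b3 b5 b8 b10 b11 b12 b13 b14 : Bool,
    ok5a b0 b1 b2 b3 true b5 false false b8 true b10 b11 b12 b13 b14 = true → False := by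
  decide +kernel

theorem c5a_720_528 {p0 p1 p2 p3 p4 : V} (h : T.Ok5a p0 p1 p2 p3 p4)
    (n4 : T.X p0 p2 p1 p4 = true)
    (n6 : T.X p0 p1 p3 p4 = false)
    (n7 : T.X p0 p3 p1 p4 = false)
    (n9 : T.X p0 p2 p3 p4 = true) : False := by
  have h2 := h
  unfold Table.Ok5a at h2
  rw [n4, n6, n7, n9] at h2
  exact bc5a_720_528 _ _ _ _ _ _ _ _ _ _ _ h2

theorem bc5a_786_258 : ∀ b0 b2 b3 b5 b6 b7 b10 b11 b12 b13 b14 : Bool,
    ok5a b0 true b2 b3 false b5 b6 b7 true false b10 b11 b12 b13 b14 = true → False := by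
  decide +kernel

theorem c5a_786_258 {p0 p1 p2 p3 p4 : V} (h : T.Ok5a p0 p1 p2 p3 p4)
    (n1 : T.X p0 p2 p1 p3 = true)
    (n4 : T.X p0 p2 p1 p4 = false)
    (n8 : T.X p0 p4 p1 p3 = true)
    (n9 : T.X p0 p2 p3 p4 = false) : False := by
  have h2 := h
  unfold Table.Ok5a at h2
  rw [n1, n4, n8, n9] at h2
  exact bc5a_786_258 _ _ _ _ _ _ _ _ _ _ _ h2

theorem bc5a_802_544 : ∀ b0 b2 b3 b4 b6 b7 b10 b11 b12 b13 b14 : Bool,
    ok5a b0 false b2 b3 b4 true b6 b7 false true b10 b11 b12 b13 b14 = true → False := by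
  decide +kernel

theorem c5a_802_544 {p0 p1 p2 p3 p4 : V} (h : T.Ok5a p0 p1 p2 p3 p4)
    (n1 : T.X p0 p2 p1 p3 = false)
    (n5 : T.X p0 p4 p1 p2 = true)
    (n8 : T.X p0 p4 p1 p3 = false)
    (n9 : T.X p0 p2 p3 p4 = true) : False := by
  have h2 := h
  unfold Table.Ok5a at h2
  rw [n1, n5, n8, n9] at h2
  exact bc5a_802_544 _ _ _ _ _ _ _ _ _ _ _ h2

theorem bc5a_1044_20 : ∀ b0 b1 b3 b5 b6 b7 b8 b9 b11 b12 b13 b14 : Bool,
    ok5a b0 b1 true b3 true b5 b6 b7 b8 b9 false b11 b12 b13 b14 = true → False := by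
  decide +kernel

theorem c5a_1044_20 {p0 p1 p2 p3 p4 : V} (h : T.Ok5a p0 p1 p2 p3 p4)
    (n2 : T.X p0 p3 p1 p2 = true)
    (n4 : T.X p0 p2 p1 p4 = true)
    (n10 : T.X p0 p3 p2 p4 = false) : False := by
  have h2 := h
  unfold Table.Ok5a at h2
  rw [n2, n4, n10] at h2
  exact bc5a_1044_20 _ _ _ _ _ _ _ _ _ _ _ _ h2

theorem bc5a_1156_132 : ∀ b0 b1 b3 b4 b5 b6 b8 b9 b11 b12 b13 b14 : Bool,
    ok5a b0 b1 true b3 b4 b5 b6 true b8 b9 false b11 b12 b13 b14 = true → False := by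
  decide +kernel

theorem c5a_1156_132 {p0 p1 p2 p3 p4 : V} (h : T.Ok5a p0 p1 p2 p3 p4)
    (n2 : T.X p0 p3 p1 p2 = true)
    (n7 : T.X p0 p3 p1 p4 = true)
    (n10 : T.X p0 p3 p2 p4 = false) : False := by
  have h2 := h
  unfold Table.Ok5a at h2
  rw [n2, n7, n10] at h2
  exact bc5a_1156_132 _ _ _ _ _ _ _ _ _ _ _ _ h2

theorem bc5a_1168_1040 : ∀ b0 b1 b2 b3 b5 b6 b8 b9 b11 b12 b13 b14 : Bool,
    ok5a b0 b1 b2 b3 true b5 b6 false b8 b9 true b11 b12 b13 b14 = true → False := by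
  decide +kernel

theorem c5a_1168_1040 {p0 p1 p2 p3 p4 : V} (h : T.Ok5a p0 p1 p2 p3 p4)
    (n4 : T.X p0 p2 p1 p4 = true)
    (n7 : T.X p0 p3 p1 p4 = false)
    (n10 : T.X p0 p3 p2 p4 = true) : False := by
  have h2 := h
  unfold Table.Ok5a at h2
  rw [n4, n7, n10] at h2
  exact bc5a_1168_1040 _ _ _ _ _ _ _ _ _ _ _ _ h2

theorem bc5a_1176_128 : ∀ b0 b1 b2 b5 b6 b8 b9 b11 b12 b13 b14 : Bool,
    ok5a b0 b1 b2 false false b5 b6 true b8 b9 false b11 b12 b13 b14 = true → False := by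
  decide +kernel

theorem c5a_1176_128 {p0 p1 p2 p3 p4 : V} (h : T.Ok5a p0 p1 p2 p3 p4)
    (n3 : T.X p0 p1 p2 p4 = false)
    (n4 : T.X p0 p2 p1 p4 = false)
    (n7 : T.X p0 p3 p1 p4 = true)
    (n10 : T.X p0 p3 p2 p4 = false) : False := by
  have h2 := h
  unfold Table.Ok5a at h2
  rw [n3, n4, n7, n10] at h2
  exact bc5a_1176_128 _ _ _ _ _ _ _ _ _ _ _ h2

theorem bc5a_1184_160 : ∀ b0 b1 b2 b3 b4 b6 b8 b9 b11 b12 b13 b14 : Bool,
    ok5a b0 b1 b2 b3 b4 true b6 true b8 b9 false b11 b12 b13 b14 = true → False := by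
  decide +kernel

theorem c5a_1184_160 {p0 p1 p2 p3 p4 : V} (h : T.Ok5a p0 p1 p2 p3 p4)
    (n5 : T.X p0 p4 p1 p2 = true)
    (n7 : T.X p0 p3 p1 p4 = true)
    (n10 : T.X p0 p3 p2 p4 = false) : False := by
  have h2 := h
  unfold Table.Ok5a at h2
  rw [n5, n7, n10] at h2
  exact bc5a_1184_160 _ _ _ _ _ _ _ _ _ _ _ _ h2

theorem bc5a_1224_1032 : ∀ b0 b1 b2 b4 b5 b8 b9 b11 b12 b13 b14 : Bool,
    ok5a b0 b1 b2 true b4 b5 false false b8 b9 true b11 b12 b13 b14 = true → False := by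
  decide +kernel

theorem c5a_1224_1032 {p0 p1 p2 p3 p4 : V} (h : T.Ok5a p0 p1 p2 p3 p4)
    (n3 : T.X p0 p1 p2 p4 = true)
    (n6 : T.X p0 p1 p3 p4 = false)
    (n7 : T.X p0 p3 p1 p4 = false)
    (n10 : T.X p0 p3 p2 p4 = true) : False := by
  have h2 := h
  unfold Table.Ok5a at h2
  rw [n3, n6, n7, n10] at h2
  exact bc5a_1224_1032 _ _ _ _ _ _ _ _ _ _ _ h2

theorem bc5a_1608_64 : ∀ b0 b1 b2 b4 b5 b7 b8 b11 b12 b13 b14 : Bool,
    ok5a b0 b1 b2 false b4 b5 true b7 b8 false false b11 b12 b13 b14 = true → False := by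
  decide +kernel

theorem c5a_1608_64 {p0 p1 p2 p3 p4 : V} (h : T.Ok5a p0 p1 p2 p3 p4)
    (n3 : T.X p0 p1 p2 p4 = false)
    (n6 : T.X p0 p1 p3 p4 = true)
    (n9 : T.X p0 p2 p3 p4 = false)
    (n10 : T.X p0 p3 p2 p4 = false) : False := by
  have h2 := h
  unfold Table.Ok5a at h2
  rw [n3, n6, n9, n10] at h2
  exact bc5a_1608_64 _ _ _ _ _ _ _ _ _ _ _ h2

theorem bc5a_2113_2112 : ∀ b1 b2 b3 b4 b5 b7 b8 b9 b10 b12 b13 b14 : Bool,
    ok5a false b1 b2 b3 b4 b5 true b7 b8 b9 b10 true b12 b13 b14 = true → False := by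
  decide +kernel

theorem c5a_2113_2112 {p0 p1 p2 p3 p4 : V} (h : T.Ok5a p0 p1 p2 p3 p4)
    (n0 : T.X p0 p1 p2 p3 = false)
    (n6 : T.X p0 p1 p3 p4 = true)
    (n11 : T.X p0 p4 p2 p3 = true) : False := by
  have h2 := h
  unfold Table.Ok5a at h2
  rw [n0, n6, n11] at h2
  exact bc5a_2113_2112 _ _ _ _ _ _ _ _ _ _ _ _ h2

theorem bc5a_2322_274 : ∀ b0 b2 b3 b5 b6 b7 b9 b10 b12 b13 b14 : Bool,
    ok5a b0 true b2 b3 true b5 b6 b7 true b9 b10 false b12 b13 b14 = true → False := by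
  decide +kernel

theorem c5a_2322_274 {p0 p1 p2 p3 p4 : V} (h : T.Ok5a p0 p1 p2 p3 p4)
    (n1 : T.X p0 p2 p1 p3 = true)
    (n4 : T.X p0 p2 p1 p4 = true)
    (n8 : T.X p0 p4 p1 p3 = true)
    (n11 : T.X p0 p4 p2 p3 = false) : False := by
  have h2 := h
  unfold Table.Ok5a at h2
  rw [n1, n4, n8, n11] at h2
  exact bc5a_2322_274 _ _ _ _ _ _ _ _ _ _ _ h2

theorem bc5a_2322_2064 : ∀ b0 b2 b3 b5 b6 b7 b9 b10 b12 b13 b14 : Bool,
    ok5a b0 false b2 b3 true b5 b6 b7 false b9 b10 true b12 b13 b14 = true → False := by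
  decide +kernel

theorem c5a_2322_2064 {p0 p1 p2 p3 p4 : V} (h : T.Ok5a p0 p1 p2 p3 p4)
    (n1 : T.X p0 p2 p1 p3 = false)
    (n4 : T.X p0 p2 p1 p4 = true)
    (n8 : T.X p0 p4 p1 p3 = false)
    (n11 : T.X p0 p4 p2 p3 = true) : False := by
  have h2 := h
  unfold Table.Ok5a at h2
  rw [n1, n4, n8, n11] at h2
  exact bc5a_2322_2064 _ _ _ _ _ _ _ _ _ _ _ h2

theorem bc5a_2560_2560 : ∀ b0 b1 b2 b3 b4 b5 b6 b7 b8 b10 b12 b13 b14 : Bool,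
    ok5a b0 b1 b2 b3 b4 b5 b6 b7 b8 true b10 true b12 b13 b14 = true → False := by
  decide +kernel

theorem c5a_2560_2560 {p0 p1 p2 p3 p4 : V} (h : T.Ok5a p0 p1 p2 p3 p4)
    (n9 : T.X p0 p2 p3 p4 = true)
    (n11 : T.X p0 p4 p2 p3 = true) : False := by
  have h2 := h
  unfold Table.Ok5a at h2
  rw [n9, n11] at h2
  exact bc5a_2560_2560 _ _ _ _ _ _ _ _ _ _ _ _ _ h2

theorem bc5a_2818_258 : ∀ b0 b2 b3 b4 b5 b6 b7 b10 b12 b13 b14 : Bool,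
    ok5a b0 true b2 b3 b4 b5 b6 b7 true false b10 false b12 b13 b14 = true → False := by
  decide +kernel

theorem c5a_2818_258 {p0 p1 p2 p3 p4 : V} (h : T.Ok5a p0 p1 p2 p3 p4)
    (n1 : T.X p0 p2 p1 p3 = true)
    (n8 : T.X p0 p4 p1 p3 = true)
    (n9 : T.X p0 p2 p3 p4 = false)
    (n11 : T.X p0 p4 p2 p3 = false) : False := by
  have h2 := h
  unfold Table.Ok5a at h2
  rw [n1, n8, n9, n11] at h2
  exact bc5a_2818_258 _ _ _ _ _ _ _ _ _ _ _ h2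

theorem bc5a_3072_3072 : ∀ b0 b1 b2 b3 b4 b5 b6 b7 b8 b9 b12 b13 b14 : Bool,
    ok5a b0 b1 b2 b3 b4 b5 b6 b7 b8 b9 true true b12 b13 b14 = true → False := by
  decide +kernel

theorem c5a_3072_3072 {p0 p1 p2 p3 p4 : V} (h : T.Ok5a p0 p1 p2 p3 p4)
    (n10 : T.X p0 p3 p2 p4 = true)
    (n11 : T.X p0 p4 p2 p3 = true) : False := by
  have h2 := h
  unfold Table.Ok5a at h2
  rw [n10, n11] at h2
  exact bc5a_3072_3072 _ _ _ _ _ _ _ _ _ _ _ _ _ h2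

theorem bc5a_3081_1 : ∀ b1 b2 b4 b5 b6 b7 b8 b9 b12 b13 b14 : Bool,
    ok5a true b1 b2 false b4 b5 b6 b7 b8 b9 false false b12 b13 b14 = true → False := by
  decide +kernel

theorem c5a_3081_1 {p0 p1 p2 p3 p4 : V} (h : T.Ok5a p0 p1 p2 p3 p4)
    (n0 : T.X p0 p1 p2 p3 = true)
    (n3 : T.X p0 p1 p2 p4 = false)
    (n10 : T.X p0 p3 p2 p4 = false)
    (n11 : T.X p0 p4 p2 p3 = false) : False := by
  have h2 := h
  unfold Table.Ok5a at h2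
  rw [n0, n3, n10, n11] at h2
  exact bc5a_3081_1 _ _ _ _ _ _ _ _ _ _ _ h2

theorem bc5a_4192_96 : ∀ b0 b1 b2 b3 b4 b7 b8 b9 b10 b11 b13 b14 : Bool,
    ok5a b0 b1 b2 b3 b4 true true b7 b8 b9 b10 b11 false b13 b14 = true → False := by
  decide +kernel

theorem c5a_4192_96 {p0 p1 p2 p3 p4 : V} (h : T.Ok5a p0 p1 p2 p3 p4)
    (n5 : T.X p0 p4 p1 p2 = true)
    (n6 : T.X p0 p1 p3 p4 = true)
    (n12 : T.X p1 p2 p3 p4 = false) : False := by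
  have h2 := h
  unfold Table.Ok5a at h2
  rw [n5, n6, n12] at h2
  exact bc5a_4192_96 _ _ _ _ _ _ _ _ _ _ _ _ h2

theorem bc5a_4196_4 : ∀ b0 b1 b3 b4 b7 b8 b9 b10 b11 b13 b14 : Bool,
    ok5a b0 b1 true b3 b4 false false b7 b8 b9 b10 b11 false b13 b14 = true → False := by
  decide +kernel

theorem c5a_4196_4 {p0 p1 p2 p3 p4 : V} (h : T.Ok5a p0 p1 p2 p3 p4)
    (n2 : T.X p0 p3 p1 p2 = true)
    (n5 : T.X p0 p4 p1 p2 = false)
    (n6 : T.X p0 p1 p3 p4 = false)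
    (n12 : T.X p1 p2 p3 p4 = false) : False := by
  have h2 := h
  unfold Table.Ok5a at h2
  rw [n2, n5, n6, n12] at h2
  exact bc5a_4196_4 _ _ _ _ _ _ _ _ _ _ _ h2

theorem bc5a_4240_4224 : ∀ b0 b1 b2 b3 b5 b6 b8 b9 b10 b11 b13 b14 : Bool,
    ok5a b0 b1 b2 b3 false b5 b6 true b8 b9 b10 b11 true b13 b14 = true → False := by
  decide +kernel

theorem c5a_4240_4224 {p0 p1 p2 p3 p4 : V} (h : T.Ok5a p0 p1 p2 p3 p4)
    (n4 : T.X p0 p2 p1 p4 = false)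
    (n7 : T.X p0 p3 p1 p4 = true)
    (n12 : T.X p1 p2 p3 p4 = true) : False := by
  have h2 := h
  unfold Table.Ok5a at h2
  rw [n4, n7, n12] at h2
  exact bc5a_4240_4224 _ _ _ _ _ _ _ _ _ _ _ _ h2

theorem bc5a_4360_4360 : ∀ b0 b1 b2 b4 b5 b6 b7 b9 b10 b11 b13 b14 : Bool,
    ok5a b0 b1 b2 true b4 b5 b6 b7 true b9 b10 b11 true b13 b14 = true → False := by
  decide +kernel

theorem c5a_4360_4360 {p0 p1 p2 p3 p4 : V} (h : T.Ok5a p0 p1 p2 p3 p4)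
    (n3 : T.X p0 p1 p2 p4 = true)
    (n8 : T.X p0 p4 p1 p3 = true)
    (n12 : T.X p1 p2 p3 p4 = true) : False := by
  have h2 := h
  unfold Table.Ok5a at h2
  rw [n3, n8, n12] at h2
  exact bc5a_4360_4360 _ _ _ _ _ _ _ _ _ _ _ _ h2

theorem bc5a_4422_4096 : ∀ b0 b3 b4 b5 b7 b9 b10 b11 b13 b14 : Bool,
    ok5a b0 false false b3 b4 b5 false b7 false b9 b10 b11 true b13 b14 = true → False := by
  decide +kernel

theorem c5a_4422_4096 {p0 p1 p2 p3 p4 : V} (h : T.Ok5a p0 p1 p2 p3 p4)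
    (n1 : T.X p0 p2 p1 p3 = false)
    (n2 : T.X p0 p3 p1 p2 = false)
    (n6 : T.X p0 p1 p3 p4 = false)
    (n8 : T.X p0 p4 p1 p3 = false)
    (n12 : T.X p1 p2 p3 p4 = true) : False := by
  have h2 := h
  unfold Table.Ok5a at h2
  rw [n1, n2, n6, n8, n12] at h2
  exact bc5a_4422_4096 _ _ _ _ _ _ _ _ _ _ h2

theorem bc5a_4452_4132 : ∀ b0 b1 b3 b4 b7 b9 b10 b11 b13 b14 : Bool,
    ok5a b0 b1 true b3 b4 true false b7 false b9 b10 b11 true b13 b14 = true → False := by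
  decide +kernel

theorem c5a_4452_4132 {p0 p1 p2 p3 p4 : V} (h : T.Ok5a p0 p1 p2 p3 p4)
    (n2 : T.X p0 p3 p1 p2 = true)
    (n5 : T.X p0 p4 p1 p2 = true)
    (n6 : T.X p0 p1 p3 p4 = false)
    (n8 : T.X p0 p4 p1 p3 = false)
    (n12 : T.X p1 p2 p3 p4 = true) : False := by
  have h2 := h
  unfold Table.Ok5a at h2
  rw [n2, n5, n6, n8, n12] at h2
  exact bc5a_4452_4132 _ _ _ _ _ _ _ _ _ _ h2

theorem bc5a_4642_4098 : ∀ b0 b2 b3 b4 b6 b7 b8 b10 b11 b13 b14 : Bool,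
    ok5a b0 true b2 b3 b4 false b6 b7 b8 false b10 b11 true b13 b14 = true → False := by
  decide +kernel

theorem c5a_4642_4098 {p0 p1 p2 p3 p4 : V} (h : T.Ok5a p0 p1 p2 p3 p4)
    (n1 : T.X p0 p2 p1 p3 = true)
    (n5 : T.X p0 p4 p1 p2 = false)
    (n9 : T.X p0 p2 p3 p4 = false)
    (n12 : T.X p1 p2 p3 p4 = true) : False := by
  have h2 := h
  unfold Table.Ok5a at h2
  rw [n1, n5, n9, n12] at h2
  exact bc5a_4642_4098 _ _ _ _ _ _ _ _ _ _ _ h2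

theorem bc5a_4708_4096 : ∀ b0 b1 b3 b4 b7 b8 b10 b11 b13 b14 : Bool,
    ok5a b0 b1 false b3 b4 false false b7 b8 false b10 b11 true b13 b14 = true → False := by
  decide +kernel

theorem c5a_4708_4096 {p0 p1 p2 p3 p4 : V} (h : T.Ok5a p0 p1 p2 p3 p4)
    (n2 : T.X p0 p3 p1 p2 = false)
    (n5 : T.X p0 p4 p1 p2 = false)
    (n6 : T.X p0 p1 p3 p4 = false)
    (n9 : T.X p0 p2 p3 p4 = false)
    (n12 : T.X p1 p2 p3 p4 = true) : False := by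
  have h2 := h
  unfold Table.Ok5a at h2
  rw [n2, n5, n6, n9, n12] at h2
  exact bc5a_4708_4096 _ _ _ _ _ _ _ _ _ _ h2

theorem bc5a_4896_4352 : ∀ b0 b1 b2 b3 b4 b6 b7 b10 b11 b13 b14 : Bool,
    ok5a b0 b1 b2 b3 b4 false b6 b7 true false b10 b11 true b13 b14 = true → False := by
  decide +kernel

theorem c5a_4896_4352 {p0 p1 p2 p3 p4 : V} (h : T.Ok5a p0 p1 p2 p3 p4)
    (n5 : T.X p0 p4 p1 p2 = false)
    (n8 : T.X p0 p4 p1 p3 = true)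
    (n9 : T.X p0 p2 p3 p4 = false)
    (n12 : T.X p1 p2 p3 p4 = true) : False := by
  have h2 := h
  unfold Table.Ok5a at h2
  rw [n5, n8, n9, n12] at h2
  exact bc5a_4896_4352 _ _ _ _ _ _ _ _ _ _ _ h2

theorem bc5a_5188_5120 : ∀ b0 b1 b3 b4 b5 b7 b8 b9 b11 b13 b14 : Bool,
    ok5a b0 b1 false b3 b4 b5 false b7 b8 b9 true b11 true b13 b14 = true → False := by
  decide +kernel

theorem c5a_5188_5120 {p0 p1 p2 p3 p4 : V} (h : T.Ok5a p0 p1 p2 p3 p4)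
    (n2 : T.X p0 p3 p1 p2 = false)
    (n6 : T.X p0 p1 p3 p4 = false)
    (n10 : T.X p0 p3 p2 p4 = true)
    (n12 : T.X p1 p2 p3 p4 = true) : False := by
  have h2 := h
  unfold Table.Ok5a at h2
  rw [n2, n6, n10, n12] at h2
  exact bc5a_5188_5120 _ _ _ _ _ _ _ _ _ _ _ h2

theorem bc5a_5672_4096 : ∀ b0 b1 b2 b4 b6 b7 b8 b11 b13 b14 : Bool,
    ok5a b0 b1 b2 false b4 false b6 b7 b8 false false b11 true b13 b14 = true → False := by
  decide +kernel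

theorem c5a_5672_4096 {p0 p1 p2 p3 p4 : V} (h : T.Ok5a p0 p1 p2 p3 p4)
    (n3 : T.X p0 p1 p2 p4 = false)
    (n5 : T.X p0 p4 p1 p2 = false)
    (n9 : T.X p0 p2 p3 p4 = false)
    (n10 : T.X p0 p3 p2 p4 = false)
    (n12 : T.X p1 p2 p3 p4 = true) : False := by
  have h2 := h
  unfold Table.Ok5a at h2
  rw [n3, n5, n9, n10, n12] at h2
  exact bc5a_5672_4096 _ _ _ _ _ _ _ _ _ _ h2

theorem bc5a_6145_6144 : ∀ b1 b2 b3 b4 b5 b6 b7 b8 b9 b10 b13 b14 : Bool,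
    ok5a false b1 b2 b3 b4 b5 b6 b7 b8 b9 b10 true true b13 b14 = true → False := by
  decide +kernel

theorem c5a_6145_6144 {p0 p1 p2 p3 p4 : V} (h : T.Ok5a p0 p1 p2 p3 p4)
    (n0 : T.X p0 p1 p2 p3 = false)
    (n11 : T.X p0 p4 p2 p3 = true)
    (n12 : T.X p1 p2 p3 p4 = true) : False := by
  have h2 := h
  unfold Table.Ok5a at h2
  rw [n0, n11, n12] at h2
  exact bc5a_6145_6144 _ _ _ _ _ _ _ _ _ _ _ _ h2

theorem bc5a_6464_6144 : ∀ b0 b1 b2 b3 b4 b5 b7 b9 b10 b13 b14 : Bool,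
    ok5a b0 b1 b2 b3 b4 b5 false b7 false b9 b10 true true b13 b14 = true → False := by
  decide +kernel

theorem c5a_6464_6144 {p0 p1 p2 p3 p4 : V} (h : T.Ok5a p0 p1 p2 p3 p4)
    (n6 : T.X p0 p1 p3 p4 = false)
    (n8 : T.X p0 p4 p1 p3 = false)
    (n11 : T.X p0 p4 p2 p3 = true)
    (n12 : T.X p1 p2 p3 p4 = true) : False := by
  have h2 := h
  unfold Table.Ok5a at h2
  rw [n6, n8, n11, n12] at h2
  exact bc5a_6464_6144 _ _ _ _ _ _ _ _ _ _ _ h2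

theorem bc5a_8740_8224 : ∀ b0 b1 b3 b4 b6 b7 b8 b10 b11 b12 b14 : Bool,
    ok5a b0 b1 false b3 b4 true b6 b7 b8 false b10 b11 b12 true b14 = true → False := by
  decide +kernel

theorem c5a_8740_8224 {p0 p1 p2 p3 p4 : V} (h : T.Ok5a p0 p1 p2 p3 p4)
    (n2 : T.X p0 p3 p1 p2 = false)
    (n5 : T.X p0 p4 p1 p2 = true)
    (n9 : T.X p0 p2 p3 p4 = false)
    (n13 : T.X p1 p3 p2 p4 = true) : False := by
  have h2 := h
  unfold Table.Ok5a at h2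
  rw [n2, n5, n9, n13] at h2
  exact bc5a_8740_8224 _ _ _ _ _ _ _ _ _ _ _ h2

theorem bc5a_8992_8736 : ∀ b0 b1 b2 b3 b4 b6 b7 b10 b11 b12 b14 : Bool,
    ok5a b0 b1 b2 b3 b4 true b6 b7 false true b10 b11 b12 true b14 = true → False := by
  decide +kernel

theorem c5a_8992_8736 {p0 p1 p2 p3 p4 : V} (h : T.Ok5a p0 p1 p2 p3 p4)
    (n5 : T.X p0 p4 p1 p2 = true)
    (n8 : T.X p0 p4 p1 p3 = false)
    (n9 : T.X p0 p2 p3 p4 = true)
    (n13 : T.X p1 p3 p2 p4 = true) : False := by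
  have h2 := h
  unfold Table.Ok5a at h2
  rw [n5, n8, n9, n13] at h2
  exact bc5a_8992_8736 _ _ _ _ _ _ _ _ _ _ _ h2

theorem bc5a_9224_1032 : ∀ b0 b1 b2 b4 b5 b6 b7 b8 b9 b11 b12 b14 : Bool,
    ok5a b0 b1 b2 true b4 b5 b6 b7 b8 b9 true b11 b12 false b14 = true → False := by
  decide +kernel

theorem c5a_9224_1032 {p0 p1 p2 p3 p4 : V} (h : T.Ok5a p0 p1 p2 p3 p4)
    (n3 : T.X p0 p1 p2 p4 = true)
    (n10 : T.X p0 p3 p2 p4 = true)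
    (n13 : T.X p1 p3 p2 p4 = false) : False := by
  have h2 := h
  unfold Table.Ok5a at h2
  rw [n3, n10, n13] at h2
  exact bc5a_9224_1032 _ _ _ _ _ _ _ _ _ _ _ _ h2

theorem bc5a_9252_8196 : ∀ b0 b1 b3 b4 b6 b7 b8 b9 b11 b12 b14 : Bool,
    ok5a b0 b1 true b3 b4 false b6 b7 b8 b9 false b11 b12 true b14 = true → False := by
  decide +kernel

theorem c5a_9252_8196 {p0 p1 p2 p3 p4 : V} (h : T.Ok5a p0 p1 p2 p3 p4)
    (n2 : T.X p0 p3 p1 p2 = true)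
    (n5 : T.X p0 p4 p1 p2 = false)
    (n10 : T.X p0 p3 p2 p4 = false)
    (n13 : T.X p1 p3 p2 p4 = true) : False := by
  have h2 := h
  unfold Table.Ok5a at h2
  rw [n2, n5, n10, n13] at h2
  exact bc5a_9252_8196 _ _ _ _ _ _ _ _ _ _ _ h2

theorem bc5a_9506_32 : ∀ b0 b2 b3 b4 b6 b7 b9 b11 b12 b14 : Bool,
    ok5a b0 false b2 b3 b4 true b6 b7 false b9 false b11 b12 false b14 = true → False := by
  decide +kernel

theorem c5a_9506_32 {p0 p1 p2 p3 p4 : V} (h : T.Ok5a p0 p1 p2 p3 p4)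
    (n1 : T.X p0 p2 p1 p3 = false)
    (n5 : T.X p0 p4 p1 p2 = true)
    (n8 : T.X p0 p4 p1 p3 = false)
    (n10 : T.X p0 p3 p2 p4 = false)
    (n13 : T.X p1 p3 p2 p4 = false) : False := by
  have h2 := h
  unfold Table.Ok5a at h2
  rw [n1, n5, n8, n10, n13] at h2
  exact bc5a_9506_32 _ _ _ _ _ _ _ _ _ _ h2

theorem bc5a_10369_8193 : ∀ b1 b2 b3 b4 b5 b6 b8 b9 b10 b12 b14 : Bool,
    ok5a true b1 b2 b3 b4 b5 b6 false b8 b9 b10 false b12 true b14 = true → False := by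
  decide +kernel

theorem c5a_10369_8193 {p0 p1 p2 p3 p4 : V} (h : T.Ok5a p0 p1 p2 p3 p4)
    (n0 : T.X p0 p1 p2 p3 = true)
    (n7 : T.X p0 p3 p1 p4 = false)
    (n11 : T.X p0 p4 p2 p3 = false)
    (n13 : T.X p1 p3 p2 p4 = true) : False := by
  have h2 := h
  unfold Table.Ok5a at h2
  rw [n0, n7, n11, n13] at h2
  exact bc5a_10369_8193 _ _ _ _ _ _ _ _ _ _ _ h2

theorem bc5a_16420_16416 : ∀ b0 b1 b3 b4 b6 b7 b8 b9 b10 b11 b12 b13 : Bool,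
    ok5a b0 b1 false b3 b4 true b6 b7 b8 b9 b10 b11 b12 b13 true = true → False := by
  decide +kernel

theorem c5a_16420_16416 {p0 p1 p2 p3 p4 : V} (h : T.Ok5a p0 p1 p2 p3 p4)
    (n2 : T.X p0 p3 p1 p2 = false)
    (n5 : T.X p0 p4 p1 p2 = true)
    (n14 : T.X p1 p4 p2 p3 = true) : False := by
  have h2 := h
  unfold Table.Ok5a at h2
  rw [n2, n5, n14] at h2
  exact bc5a_16420_16416 _ _ _ _ _ _ _ _ _ _ _ _ h2

theorem bc5a_16529_128 : ∀ b1 b2 b3 b5 b6 b8 b9 b10 b11 b12 b13 : Bool,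
    ok5a false b1 b2 b3 false b5 b6 true b8 b9 b10 b11 b12 b13 false = true → False := by
  decide +kernel

theorem c5a_16529_128 {p0 p1 p2 p3 p4 : V} (h : T.Ok5a p0 p1 p2 p3 p4)
    (n0 : T.X p0 p1 p2 p3 = false)
    (n4 : T.X p0 p2 p1 p4 = false)
    (n7 : T.X p0 p3 p1 p4 = true)
    (n14 : T.X p1 p4 p2 p3 = false) : False := by
  have h2 := h
  unfold Table.Ok5a at h2
  rw [n0, n4, n7, n14] at h2
  exact bc5a_16529_128 _ _ _ _ _ _ _ _ _ _ _ h2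

theorem bc5a_16960_16448 : ∀ b0 b1 b2 b3 b4 b5 b7 b8 b10 b11 b12 b13 : Bool,
    ok5a b0 b1 b2 b3 b4 b5 true b7 b8 false b10 b11 b12 b13 true = true → False := by
  decide +kernel

theorem c5a_16960_16448 {p0 p1 p2 p3 p4 : V} (h : T.Ok5a p0 p1 p2 p3 p4)
    (n6 : T.X p0 p1 p3 p4 = true)
    (n9 : T.X p0 p2 p3 p4 = false)
    (n14 : T.X p1 p4 p2 p3 = true) : False := by
  have h2 := h
  unfold Table.Ok5a at h2
  rw [n6, n9, n14] at h2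
  exact bc5a_16960_16448 _ _ _ _ _ _ _ _ _ _ _ _ h2

theorem bc5a_17674_16384 : ∀ b0 b2 b4 b5 b6 b7 b9 b11 b12 b13 : Bool,
    ok5a b0 false b2 false b4 b5 b6 b7 false b9 false b11 b12 b13 true = true → False := by
  decide +kernel

theorem c5a_17674_16384 {p0 p1 p2 p3 p4 : V} (h : T.Ok5a p0 p1 p2 p3 p4)
    (n1 : T.X p0 p2 p1 p3 = false)
    (n3 : T.X p0 p1 p2 p4 = false)
    (n8 : T.X p0 p4 p1 p3 = false)
    (n10 : T.X p0 p3 p2 p4 = false)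
    (n14 : T.X p1 p4 p2 p3 = true) : False := by
  have h2 := h
  unfold Table.Ok5a at h2
  rw [n1, n3, n8, n10, n14] at h2
  exact bc5a_17674_16384 _ _ _ _ _ _ _ _ _ _ h2

theorem bc5a_18560_2176 : ∀ b0 b1 b2 b3 b4 b5 b6 b8 b9 b10 b12 b13 : Bool,
    ok5a b0 b1 b2 b3 b4 b5 b6 true b8 b9 b10 true b12 b13 false = true → False := by
  decide +kernel

theorem c5a_18560_2176 {p0 p1 p2 p3 p4 : V} (h : T.Ok5a p0 p1 p2 p3 p4)
    (n7 : T.X p0 p3 p1 p4 = true)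
    (n11 : T.X p0 p4 p2 p3 = true)
    (n14 : T.X p1 p4 p2 p3 = false) : False := by
  have h2 := h
  unfold Table.Ok5a at h2
  rw [n7, n11, n14] at h2
  exact bc5a_18560_2176 _ _ _ _ _ _ _ _ _ _ _ _ h2

theorem bc5a_18561_1 : ∀ b1 b2 b3 b4 b5 b6 b8 b9 b10 b12 b13 : Bool,
    ok5a true b1 b2 b3 b4 b5 b6 false b8 b9 b10 false b12 b13 false = true → False := by
  decide +kernel

theorem c5a_18561_1 {p0 p1 p2 p3 p4 : V} (h : T.Ok5a p0 p1 p2 p3 p4)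
    (n0 : T.X p0 p1 p2 p3 = true)
    (n7 : T.X p0 p3 p1 p4 = false)
    (n11 : T.X p0 p4 p2 p3 = false)
    (n14 : T.X p1 p4 p2 p3 = false) : False := by
  have h2 := h
  unfold Table.Ok5a at h2
  rw [n0, n7, n11, n14] at h2
  exact bc5a_18561_1 _ _ _ _ _ _ _ _ _ _ _ h2

theorem bc5a_18577_16384 : ∀ b1 b2 b3 b5 b6 b8 b9 b10 b12 b13 : Bool,
    ok5a false b1 b2 b3 false b5 b6 false b8 b9 b10 false b12 b13 true = true → False := by
  decide +kernel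

theorem c5a_18577_16384 {p0 p1 p2 p3 p4 : V} (h : T.Ok5a p0 p1 p2 p3 p4)
    (n0 : T.X p0 p1 p2 p3 = false)
    (n4 : T.X p0 p2 p1 p4 = false)
    (n7 : T.X p0 p3 p1 p4 = false)
    (n11 : T.X p0 p4 p2 p3 = false)
    (n14 : T.X p1 p4 p2 p3 = true) : False := by
  have h2 := h
  unfold Table.Ok5a at h2
  rw [n0, n4, n7, n11, n14] at h2
  exact bc5a_18577_16384 _ _ _ _ _ _ _ _ _ _ h2

theorem bc5a_18592_16416 : ∀ b0 b1 b2 b3 b4 b6 b8 b9 b10 b12 b13 : Bool,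
    ok5a b0 b1 b2 b3 b4 true b6 false b8 b9 b10 false b12 b13 true = true → False := by
  decide +kernel

theorem c5a_18592_16416 {p0 p1 p2 p3 p4 : V} (h : T.Ok5a p0 p1 p2 p3 p4)
    (n5 : T.X p0 p4 p1 p2 = true)
    (n7 : T.X p0 p3 p1 p4 = false)
    (n11 : T.X p0 p4 p2 p3 = false)
    (n14 : T.X p1 p4 p2 p3 = true) : False := by
  have h2 := h
  unfold Table.Ok5a at h2
  rw [n5, n7, n11, n14] at h2
  exact bc5a_18592_16416 _ _ _ _ _ _ _ _ _ _ _ h2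

theorem bc5a_18818_18432 : ∀ b0 b2 b3 b4 b5 b6 b9 b10 b12 b13 : Bool,
    ok5a b0 false b2 b3 b4 b5 b6 false false b9 b10 true b12 b13 true = true → False := by
  decide +kernel

theorem c5a_18818_18432 {p0 p1 p2 p3 p4 : V} (h : T.Ok5a p0 p1 p2 p3 p4)
    (n1 : T.X p0 p2 p1 p3 = false)
    (n7 : T.X p0 p3 p1 p4 = false)
    (n8 : T.X p0 p4 p1 p3 = false)
    (n11 : T.X p0 p4 p2 p3 = true)
    (n14 : T.X p1 p4 p2 p3 = true) : False := by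
  have h2 := h
  unfold Table.Ok5a at h2
  rw [n1, n7, n8, n11, n14] at h2
  exact bc5a_18818_18432 _ _ _ _ _ _ _ _ _ _ h2

theorem bc5a_19488_16416 : ∀ b0 b1 b2 b3 b4 b6 b7 b8 b9 b12 b13 : Bool,
    ok5a b0 b1 b2 b3 b4 true b6 b7 b8 b9 false false b12 b13 true = true → False := by
  decide +kernel

theorem c5a_19488_16416 {p0 p1 p2 p3 p4 : V} (h : T.Ok5a p0 p1 p2 p3 p4)
    (n5 : T.X p0 p4 p1 p2 = true)
    (n10 : T.X p0 p3 p2 p4 = false)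
    (n11 : T.X p0 p4 p2 p3 = false)
    (n14 : T.X p1 p4 p2 p3 = true) : False := by
  have h2 := h
  unfold Table.Ok5a at h2
  rw [n5, n10, n11, n14] at h2
  exact bc5a_19488_16416 _ _ _ _ _ _ _ _ _ _ _ h2

end H53P
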