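import Pool.Agent.Lib.H98S.Ord

/-! # H98S, finite facts, file CL3: clauses for five points (generated) -/

set_option linter.unusedVariables false

namespace H53P

variable {V : Type*} {T : Table V}

theorem bc5_594_82 : ∀ b0 b2 b3 b5 b7 b8 b10 b11 b12 b13 b14 : Bool,
    ok5 b0 true b2 b3 true b5 true b7 b8 false b10 b11 b12 b13 b14 = true → False := by
  decide +kernel

theorem c5_594_82 {p0 p1 p2 p3 p4 : V} (h : T.Ok5 p0 p1 p2 p3 p4)
    (n1 : T.X p0 p2 p1 p3 = true)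
    (n4 : T.X p0 p2 p1 p4 = true)
    (n6 : T.X p0 p1 p3 p4 = true)
    (n9 : T.X p0 p2 p3 p4 = false) : False := by
  have h2 := h
  unfold Table.Ok5 at h2
  rw [n1, n4, n6, n9] at h2
  exact bc5_594_82 _ _ _ _ _ _ _ _ _ _ _ h2

theorem bc5a_82_80 : ∀ b0 b2 b3 b5 b7 b8 b9 b10 b11 b12 b13 b14 : Bool,
    ok5a b0 false b2 b3 true b5 true b7 b8 b9 b10 b11 b12 b13 b14 = true → False := by
  decide +kernel

theorem c5a_82_80 {p0 p1 p2 p3 p4 : V} (h : T.Ok5a p0 p1 p2 p3 p4)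
    (n1 : T.X p0 p2 p1 p3 = false)
    (n4 : T.X p0 p2 p1 p4 = true)
    (n6 : T.X p0 p1 p3 p4 = true) : False := by
  have h2 := h
  unfold Table.Ok5a at h2
  rw [n1, n4, n6] at h2
  exact bc5a_82_80 _ _ _ _ _ _ _ _ _ _ _ _ h2

theorem bc5a_578_66 : ∀ b0 b2 b3 b4 b5 b7 b8 b10 b11 b12 b13 b14 : Bool,
    ok5a b0 true b2 b3 b4 b5 true b7 b8 false b10 b11 b12 b13 b14 = true → False := by
  decide +kernel

theorem c5a_578_66 {p0 p1 p2 p3 p4 : V} (h : T.Ok5a p0 p1 p2 p3 p4)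
    (n1 : T.X p0 p2 p1 p3 = true)
    (n6 : T.X p0 p1 p3 p4 = true)
    (n9 : T.X p0 p2 p3 p4 = false) : False := by
  have h2 := h
  unfold Table.Ok5a at h2
  rw [n1, n6, n9] at h2
  exact bc5a_578_66 _ _ _ _ _ _ _ _ _ _ _ _ h2

theorem bc5a_4612_516 : ∀ b0 b1 b3 b4 b5 b6 b7 b8 b10 b11 b13 b14 : Bool,
    ok5a b0 b1 true b3 b4 b5 b6 b7 b8 true b10 b11 false b13 b14 = true → False := by
  decide +kernel

theorem c5a_4612_516 {p0 p1 p2 p3 p4 : V} (h : T.Ok5a p0 p1 p2 p3 p4)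
    (n2 : T.X p0 p3 p1 p2 = true)
    (n9 : T.X p0 p2 p3 p4 = true)
    (n12 : T.X p1 p2 p3 p4 = false) : False := by
  have h2 := h
  unfold Table.Ok5a at h2
  rw [n2, n9, n12] at h2
  exact bc5a_4612_516 _ _ _ _ _ _ _ _ _ _ _ _ h2

end H53P
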