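import Pool.Agent.Lib.H98S.Ord

/-! # H98S, finite facts, file CL4: clauses for five points (generated) -/

set_option linter.unusedVariables false

namespace H53P

variable {V : Type*} {T : Table V}

theorem bc5_276_276 : ∀ b0 b1 b3 b5 b6 b7 b9 b10 b11 b12 b13 b14 : Bool,
    ok5 b0 b1 true b3 true b5 b6 b7 true b9 b10 b11 b12 b13 b14 = true → False := by
  decide +kernel

theorem c5_276_276 {p0 p1 p2 p3 p4 : V} (h : T.Ok5 p0 p1 p2 p3 p4)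
    (n2 : T.X p0 p3 p1 p2 = true)
    (n4 : T.X p0 p2 p1 p4 = true)
    (n8 : T.X p0 p4 p1 p3 = true) : False := by
  have h2 := h
  unfold Table.Ok5 at h2
  rw [n2, n4, n8] at h2
  exact bc5_276_276 _ _ _ _ _ _ _ _ _ _ _ _ h2

theorem bc5_1162_138 : ∀ b0 b2 b4 b5 b6 b8 b9 b11 b12 b13 b14 : Bool,
    ok5 b0 true b2 true b4 b5 b6 true b8 b9 false b11 b12 b13 b14 = true → False := by
  decide +kernel

theorem c5_1162_138 {p0 p1 p2 p3 p4 : V} (h : T.Ok5 p0 p1 p2 p3 p4)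
    (n1 : T.X p0 p2 p1 p3 = true)
    (n3 : T.X p0 p1 p2 p4 = true)
    (n7 : T.X p0 p3 p1 p4 = true)
    (n10 : T.X p0 p3 p2 p4 = false) : False := by
  have h2 := h
  unfold Table.Ok5 at h2
  rw [n1, n3, n7, n10] at h2
  exact bc5_1162_138 _ _ _ _ _ _ _ _ _ _ _ h2

theorem bc5_1298_1296 : ∀ b0 b2 b3 b5 b6 b7 b9 b11 b12 b13 b14 : Bool,
    ok5 b0 false b2 b3 true b5 b6 b7 true b9 true b11 b12 b13 b14 = true → False := by
  decide +kernel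

theorem c5_1298_1296 {p0 p1 p2 p3 p4 : V} (h : T.Ok5 p0 p1 p2 p3 p4)
    (n1 : T.X p0 p2 p1 p3 = false)
    (n4 : T.X p0 p2 p1 p4 = true)
    (n8 : T.X p0 p4 p1 p3 = true)
    (n10 : T.X p0 p3 p2 p4 = true) : False := by
  have h2 := h
  unfold Table.Ok5 at h2
  rw [n1, n4, n8, n10] at h2
  exact bc5_1298_1296 _ _ _ _ _ _ _ _ _ _ _ h2

theorem bc5_2060_2060 : ∀ b0 b1 b4 b5 b6 b7 b8 b9 b10 b12 b13 b14 : Bool,
    ok5 b0 b1 true true b4 b5 b6 b7 b8 b9 b10 true b12 b13 b14 = true → False := by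
  decide +kernel

theorem c5_2060_2060 {p0 p1 p2 p3 p4 : V} (h : T.Ok5 p0 p1 p2 p3 p4)
    (n2 : T.X p0 p3 p1 p2 = true)
    (n3 : T.X p0 p1 p2 p4 = true)
    (n11 : T.X p0 p4 p2 p3 = true) : False := by
  have h2 := h
  unfold Table.Ok5 at h2
  rw [n2, n3, n11] at h2
  exact bc5_2060_2060 _ _ _ _ _ _ _ _ _ _ _ _ h2

theorem bc5_2114_2114 : ∀ b0 b2 b3 b4 b5 b7 b8 b9 b10 b12 b13 b14 : Bool,
    ok5 b0 true b2 b3 b4 b5 true b7 b8 b9 b10 true b12 b13 b14 = true → False := by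
  decide +kernel

theorem c5_2114_2114 {p0 p1 p2 p3 p4 : V} (h : T.Ok5 p0 p1 p2 p3 p4)
    (n1 : T.X p0 p2 p1 p3 = true)
    (n6 : T.X p0 p1 p3 p4 = true)
    (n11 : T.X p0 p4 p2 p3 = true) : False := by
  have h2 := h
  unfold Table.Ok5 at h2
  rw [n1, n6, n11] at h2
  exact bc5_2114_2114 _ _ _ _ _ _ _ _ _ _ _ _ h2

theorem bc5_2121_2120 : ∀ b1 b2 b4 b5 b7 b8 b9 b10 b12 b13 b14 : Bool,
    ok5 false b1 b2 true b4 b5 true b7 b8 b9 b10 true b12 b13 b14 = true → False := by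
  decide +kernel

theorem c5_2121_2120 {p0 p1 p2 p3 p4 : V} (h : T.Ok5 p0 p1 p2 p3 p4)
    (n0 : T.X p0 p1 p2 p3 = false)
    (n3 : T.X p0 p1 p2 p4 = true)
    (n6 : T.X p0 p1 p3 p4 = true)
    (n11 : T.X p0 p4 p2 p3 = true) : False := by
  have h2 := h
  unfold Table.Ok5 at h2
  rw [n0, n3, n6, n11] at h2
  exact bc5_2121_2120 _ _ _ _ _ _ _ _ _ _ _ h2

theorem bc5_2148_2116 : ∀ b0 b1 b3 b4 b7 b8 b9 b10 b12 b13 b14 : Bool,
    ok5 b0 b1 true b3 b4 false true b7 b8 b9 b10 true b12 b13 b14 = true → False := by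
  decide +kernel

theorem c5_2148_2116 {p0 p1 p2 p3 p4 : V} (h : T.Ok5 p0 p1 p2 p3 p4)
    (n2 : T.X p0 p3 p1 p2 = true)
    (n5 : T.X p0 p4 p1 p2 = false)
    (n6 : T.X p0 p1 p3 p4 = true)
    (n11 : T.X p0 p4 p2 p3 = true) : False := by
  have h2 := h
  unfold Table.Ok5 at h2
  rw [n2, n5, n6, n11] at h2
  exact bc5_2148_2116 _ _ _ _ _ _ _ _ _ _ _ h2

theorem bc5_3072_3072 : ∀ b0 b1 b2 b3 b4 b5 b6 b7 b8 b9 b12 b13 b14 : Bool,
    ok5 b0 b1 b2 b3 b4 b5 b6 b7 b8 b9 true true b12 b13 b14 = true → False := by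
  decide +kernel

theorem c5_3072_3072 {p0 p1 p2 p3 p4 : V} (h : T.Ok5 p0 p1 p2 p3 p4)
    (n10 : T.X p0 p3 p2 p4 = true)
    (n11 : T.X p0 p4 p2 p3 = true) : False := by
  have h2 := h
  unfold Table.Ok5 at h2
  rw [n10, n11] at h2
  exact bc5_3072_3072 _ _ _ _ _ _ _ _ _ _ _ _ _ h2

theorem bc5_4225_4225 : ∀ b1 b2 b3 b4 b5 b6 b8 b9 b10 b11 b13 b14 : Bool,
    ok5 true b1 b2 b3 b4 b5 b6 true b8 b9 b10 b11 true b13 b14 = true → False := by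
  decide +kernel

theorem c5_4225_4225 {p0 p1 p2 p3 p4 : V} (h : T.Ok5 p0 p1 p2 p3 p4)
    (n0 : T.X p0 p1 p2 p3 = true)
    (n7 : T.X p0 p3 p1 p4 = true)
    (n12 : T.X p1 p2 p3 p4 = true) : False := by
  have h2 := h
  unfold Table.Ok5 at h2
  rw [n0, n7, n12] at h2
  exact bc5_4225_4225 _ _ _ _ _ _ _ _ _ _ _ _ h2

theorem bc5_4498_4114 : ∀ b0 b2 b3 b5 b6 b9 b10 b11 b13 b14 : Bool,
    ok5 b0 true b2 b3 true b5 b6 false false b9 b10 b11 true b13 b14 = true → False := by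
  decide +kernel

theorem c5_4498_4114 {p0 p1 p2 p3 p4 : V} (h : T.Ok5 p0 p1 p2 p3 p4)
    (n1 : T.X p0 p2 p1 p3 = true)
    (n4 : T.X p0 p2 p1 p4 = true)
    (n7 : T.X p0 p3 p1 p4 = false)
    (n8 : T.X p0 p4 p1 p3 = false)
    (n12 : T.X p1 p2 p3 p4 = true) : False := by
  have h2 := h
  unfold Table.Ok5 at h2
  rw [n1, n4, n7, n8, n12] at h2
  exact bc5_4498_4114 _ _ _ _ _ _ _ _ _ _ h2

theorem bc5_4674_4162 : ∀ b0 b2 b3 b4 b5 b7 b8 b10 b11 b13 b14 : Bool,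
    ok5 b0 true b2 b3 b4 b5 true b7 b8 false b10 b11 true b13 b14 = true → False := by
  decide +kernel

theorem c5_4674_4162 {p0 p1 p2 p3 p4 : V} (h : T.Ok5 p0 p1 p2 p3 p4)
    (n1 : T.X p0 p2 p1 p3 = true)
    (n6 : T.X p0 p1 p3 p4 = true)
    (n9 : T.X p0 p2 p3 p4 = false)
    (n12 : T.X p1 p2 p3 p4 = true) : False := by
  have h2 := h
  unfold Table.Ok5 at h2
  rw [n1, n6, n9, n12] at h2
  exact bc5_4674_4162 _ _ _ _ _ _ _ _ _ _ _ h2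

theorem bc5_4756_516 : ∀ b0 b1 b3 b5 b6 b8 b10 b11 b13 b14 : Bool,
    ok5 b0 b1 true b3 false b5 b6 false b8 true b10 b11 false b13 b14 = true → False := by
  decide +kernel

theorem c5_4756_516 {p0 p1 p2 p3 p4 : V} (h : T.Ok5 p0 p1 p2 p3 p4)
    (n2 : T.X p0 p3 p1 p2 = true)
    (n4 : T.X p0 p2 p1 p4 = false)
    (n7 : T.X p0 p3 p1 p4 = false)
    (n9 : T.X p0 p2 p3 p4 = true)
    (n12 : T.X p1 p2 p3 p4 = false) : False := by
  have h2 := h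
  unfold Table.Ok5 at h2
  rw [n2, n4, n7, n9, n12] at h2
  exact bc5_4756_516 _ _ _ _ _ _ _ _ _ _ h2

theorem bc5_4756_4112 : ∀ b0 b1 b3 b5 b6 b8 b10 b11 b13 b14 : Bool,
    ok5 b0 b1 false b3 true b5 b6 false b8 false b10 b11 true b13 b14 = true → False := by
  decide +kernel

theorem c5_4756_4112 {p0 p1 p2 p3 p4 : V} (h : T.Ok5 p0 p1 p2 p3 p4)
    (n2 : T.X p0 p3 p1 p2 = false)
    (n4 : T.X p0 p2 p1 p4 = true)
    (n7 : T.X p0 p3 p1 p4 = false)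
    (n9 : T.X p0 p2 p3 p4 = false)
    (n12 : T.X p1 p2 p3 p4 = true) : False := by
  have h2 := h
  unfold Table.Ok5 at h2
  rw [n2, n4, n7, n9, n12] at h2
  exact bc5_4756_4112 _ _ _ _ _ _ _ _ _ _ h2

theorem bc5_4756_4224 : ∀ b0 b1 b3 b5 b6 b8 b10 b11 b13 b14 : Bool,
    ok5 b0 b1 false b3 false b5 b6 true b8 false b10 b11 true b13 b14 = true → False := by
  decide +kernel

theorem c5_4756_4224 {p0 p1 p2 p3 p4 : V} (h : T.Ok5 p0 p1 p2 p3 p4)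
    (n2 : T.X p0 p3 p1 p2 = false)
    (n4 : T.X p0 p2 p1 p4 = false)
    (n7 : T.X p0 p3 p1 p4 = true)
    (n9 : T.X p0 p2 p3 p4 = false)
    (n12 : T.X p1 p2 p3 p4 = true) : False := by
  have h2 := h
  unfold Table.Ok5 at h2
  rw [n2, n4, n7, n9, n12] at h2
  exact bc5_4756_4224 _ _ _ _ _ _ _ _ _ _ h2

theorem bc5_4898_544 : ∀ b0 b2 b3 b4 b6 b7 b10 b11 b13 b14 : Bool,
    ok5 b0 false b2 b3 b4 true b6 b7 false true b10 b11 false b13 b14 = true → False := by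
  decide +kernel

theorem c5_4898_544 {p0 p1 p2 p3 p4 : V} (h : T.Ok5 p0 p1 p2 p3 p4)
    (n1 : T.X p0 p2 p1 p3 = false)
    (n5 : T.X p0 p4 p1 p2 = true)
    (n8 : T.X p0 p4 p1 p3 = false)
    (n9 : T.X p0 p2 p3 p4 = true)
    (n12 : T.X p1 p2 p3 p4 = false) : False := by
  have h2 := h
  unfold Table.Ok5 at h2
  rw [n1, n5, n8, n9, n12] at h2
  exact bc5_4898_544 _ _ _ _ _ _ _ _ _ _ h2

theorem bc5_4898_768 : ∀ b0 b2 b3 b4 b6 b7 b10 b11 b13 b14 : Bool,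
    ok5 b0 false b2 b3 b4 false b6 b7 true true b10 b11 false b13 b14 = true → False := by
  decide +kernel

theorem c5_4898_768 {p0 p1 p2 p3 p4 : V} (h : T.Ok5 p0 p1 p2 p3 p4)
    (n1 : T.X p0 p2 p1 p3 = false)
    (n5 : T.X p0 p4 p1 p2 = false)
    (n8 : T.X p0 p4 p1 p3 = true)
    (n9 : T.X p0 p2 p3 p4 = true)
    (n12 : T.X p1 p2 p3 p4 = false) : False := by
  have h2 := h
  unfold Table.Ok5 at h2
  rw [n1, n5, n8, n9, n12] at h2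
  exact bc5_4898_768 _ _ _ _ _ _ _ _ _ _ h2

theorem bc5_5140_5136 : ∀ b0 b1 b3 b5 b6 b7 b8 b9 b11 b13 b14 : Bool,
    ok5 b0 b1 false b3 true b5 b6 b7 b8 b9 true b11 true b13 b14 = true → False := by
  decide +kernel

theorem c5_5140_5136 {p0 p1 p2 p3 p4 : V} (h : T.Ok5 p0 p1 p2 p3 p4)
    (n2 : T.X p0 p3 p1 p2 = false)
    (n4 : T.X p0 p2 p1 p4 = true)
    (n10 : T.X p0 p3 p2 p4 = true)
    (n12 : T.X p1 p2 p3 p4 = true) : False := by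
  have h2 := h
  unfold Table.Ok5 at h2
  rw [n2, n4, n10, n12] at h2
  exact bc5_5140_5136 _ _ _ _ _ _ _ _ _ _ _ h2

theorem bc5_5196_68 : ∀ b0 b1 b4 b5 b7 b8 b9 b11 b13 b14 : Bool,
    ok5 b0 b1 true false b4 b5 true b7 b8 b9 false b11 false b13 b14 = true → False := by
  decide +kernel

theorem c5_5196_68 {p0 p1 p2 p3 p4 : V} (h : T.Ok5 p0 p1 p2 p3 p4)
    (n2 : T.X p0 p3 p1 p2 = true)
    (n3 : T.X p0 p1 p2 p4 = false)
    (n6 : T.X p0 p1 p3 p4 = true)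
    (n10 : T.X p0 p3 p2 p4 = false)
    (n12 : T.X p1 p2 p3 p4 = false) : False := by
  have h2 := h
  unfold Table.Ok5 at h2
  rw [n2, n3, n6, n10, n12] at h2
  exact bc5_5196_68 _ _ _ _ _ _ _ _ _ _ h2

theorem bc5_5196_5120 : ∀ b0 b1 b4 b5 b7 b8 b9 b11 b13 b14 : Bool,
    ok5 b0 b1 false false b4 b5 false b7 b8 b9 true b11 true b13 b14 = true → False := by
  decide +kernel

theorem c5_5196_5120 {p0 p1 p2 p3 p4 : V} (h : T.Ok5 p0 p1 p2 p3 p4)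
    (n2 : T.X p0 p3 p1 p2 = false)
    (n3 : T.X p0 p1 p2 p4 = false)
    (n6 : T.X p0 p1 p3 p4 = false)
    (n10 : T.X p0 p3 p2 p4 = true)
    (n12 : T.X p1 p2 p3 p4 = true) : False := by
  have h2 := h
  unfold Table.Ok5 at h2
  rw [n2, n3, n6, n10, n12] at h2
  exact bc5_5196_5120 _ _ _ _ _ _ _ _ _ _ h2

theorem bc5_5256_4232 : ∀ b0 b1 b2 b4 b5 b6 b8 b9 b11 b13 b14 : Bool,
    ok5 b0 b1 b2 true b4 b5 b6 true b8 b9 false b11 true b13 b14 = true → False := by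
  decide +kernel

theorem c5_5256_4232 {p0 p1 p2 p3 p4 : V} (h : T.Ok5 p0 p1 p2 p3 p4)
    (n3 : T.X p0 p1 p2 p4 = true)
    (n7 : T.X p0 p3 p1 p4 = true)
    (n10 : T.X p0 p3 p2 p4 = false)
    (n12 : T.X p1 p2 p3 p4 = true) : False := by
  have h2 := h
  unfold Table.Ok5 at h2
  rw [n3, n7, n10, n12] at h2
  exact bc5_5256_4232 _ _ _ _ _ _ _ _ _ _ _ h2

theorem bc5_5324_5132 : ∀ b0 b1 b4 b5 b8 b9 b11 b13 b14 : Bool,
    ok5 b0 b1 true true b4 b5 false false b8 b9 true b11 true b13 b14 = true → False := by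
  decide +kernel

theorem c5_5324_5132 {p0 p1 p2 p3 p4 : V} (h : T.Ok5 p0 p1 p2 p3 p4)
    (n2 : T.X p0 p3 p1 p2 = true)
    (n3 : T.X p0 p1 p2 p4 = true)
    (n6 : T.X p0 p1 p3 p4 = false)
    (n7 : T.X p0 p3 p1 p4 = false)
    (n10 : T.X p0 p3 p2 p4 = true)
    (n12 : T.X p1 p2 p3 p4 = true) : False := by
  have h2 := h
  unfold Table.Ok5 at h2
  rw [n2, n3, n6, n7, n10, n12] at h2
  exact bc5_5324_5132 _ _ _ _ _ _ _ _ _ h2

theorem bc5_6160_6160 : ∀ b0 b1 b2 b3 b5 b6 b7 b8 b9 b10 b13 b14 : Bool,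
    ok5 b0 b1 b2 b3 true b5 b6 b7 b8 b9 b10 true true b13 b14 = true → False := by
  decide +kernel

theorem c5_6160_6160 {p0 p1 p2 p3 p4 : V} (h : T.Ok5 p0 p1 p2 p3 p4)
    (n4 : T.X p0 p2 p1 p4 = true)
    (n11 : T.X p0 p4 p2 p3 = true)
    (n12 : T.X p1 p2 p3 p4 = true) : False := by
  have h2 := h
  unfold Table.Ok5 at h2
  rw [n4, n11, n12] at h2
  exact bc5_6160_6160 _ _ _ _ _ _ _ _ _ _ _ _ h2

theorem bc5_6180_6148 : ∀ b0 b1 b3 b4 b6 b7 b8 b9 b10 b13 b14 : Bool,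
    ok5 b0 b1 true b3 b4 false b6 b7 b8 b9 b10 true true b13 b14 = true → False := by
  decide +kernel

theorem c5_6180_6148 {p0 p1 p2 p3 p4 : V} (h : T.Ok5 p0 p1 p2 p3 p4)
    (n2 : T.X p0 p3 p1 p2 = true)
    (n5 : T.X p0 p4 p1 p2 = false)
    (n11 : T.X p0 p4 p2 p3 = true)
    (n12 : T.X p1 p2 p3 p4 = true) : False := by
  have h2 := h
  unfold Table.Ok5 at h2
  rw [n2, n5, n11, n12] at h2
  exact bc5_6180_6148 _ _ _ _ _ _ _ _ _ _ _ h2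

theorem bc5_7716_4132 : ∀ b0 b1 b3 b4 b6 b7 b8 b13 b14 : Bool,
    ok5 b0 b1 true b3 b4 true b6 b7 b8 false false false true b13 b14 = true → False := by
  decide +kernel

theorem c5_7716_4132 {p0 p1 p2 p3 p4 : V} (h : T.Ok5 p0 p1 p2 p3 p4)
    (n2 : T.X p0 p3 p1 p2 = true)
    (n5 : T.X p0 p4 p1 p2 = true)
    (n9 : T.X p0 p2 p3 p4 = false)
    (n10 : T.X p0 p3 p2 p4 = false)
    (n11 : T.X p0 p4 p2 p3 = false)
    (n12 : T.X p1 p2 p3 p4 = true) : False := by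
  have h2 := h
  unfold Table.Ok5 at h2
  rw [n2, n5, n9, n10, n11, n12] at h2
  exact bc5_7716_4132 _ _ _ _ _ _ _ _ _ h2

theorem bc5_8460_268 : ∀ b0 b1 b4 b5 b6 b7 b9 b10 b11 b12 b14 : Bool,
    ok5 b0 b1 true true b4 b5 b6 b7 true b9 b10 b11 b12 false b14 = true → False := by
  decide +kernel

theorem c5_8460_268 {p0 p1 p2 p3 p4 : V} (h : T.Ok5 p0 p1 p2 p3 p4)
    (n2 : T.X p0 p3 p1 p2 = true)
    (n3 : T.X p0 p1 p2 p4 = true)
    (n8 : T.X p0 p4 p1 p3 = true)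
    (n13 : T.X p1 p3 p2 p4 = false) : False := by
  have h2 := h
  unfold Table.Ok5 at h2
  rw [n2, n3, n8, n13] at h2
  exact bc5_8460_268 _ _ _ _ _ _ _ _ _ _ _ h2

theorem bc5_8778_10 : ∀ b0 b2 b4 b5 b7 b8 b10 b11 b12 b14 : Bool,
    ok5 b0 true b2 true b4 b5 false b7 b8 false b10 b11 b12 false b14 = true → False := by
  decide +kernel

theorem c5_8778_10 {p0 p1 p2 p3 p4 : V} (h : T.Ok5 p0 p1 p2 p3 p4)
    (n1 : T.X p0 p2 p1 p3 = true)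
    (n3 : T.X p0 p1 p2 p4 = true)
    (n6 : T.X p0 p1 p3 p4 = false)
    (n9 : T.X p0 p2 p3 p4 = false)
    (n13 : T.X p1 p3 p2 p4 = false) : False := by
  have h2 := h
  unfold Table.Ok5 at h2
  rw [n1, n3, n6, n9, n13] at h2
  exact bc5_8778_10 _ _ _ _ _ _ _ _ _ _ h2

theorem bc5_8778_8704 : ∀ b0 b2 b4 b5 b7 b8 b10 b11 b12 b14 : Bool,
    ok5 b0 false b2 false b4 b5 false b7 b8 true b10 b11 b12 true b14 = true → False := by
  decide +kernel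

theorem c5_8778_8704 {p0 p1 p2 p3 p4 : V} (h : T.Ok5 p0 p1 p2 p3 p4)
    (n1 : T.X p0 p2 p1 p3 = false)
    (n3 : T.X p0 p1 p2 p4 = false)
    (n6 : T.X p0 p1 p3 p4 = false)
    (n9 : T.X p0 p2 p3 p4 = true)
    (n13 : T.X p1 p3 p2 p4 = true) : False := by
  have h2 := h
  unfold Table.Ok5 at h2
  rw [n1, n3, n6, n9, n13] at h2
  exact bc5_8778_8704 _ _ _ _ _ _ _ _ _ _ h2

theorem bc5_10276_10244 : ∀ b0 b1 b3 b4 b6 b7 b8 b9 b10 b12 b14 : Bool,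
    ok5 b0 b1 true b3 b4 false b6 b7 b8 b9 b10 true b12 true b14 = true → False := by
  decide +kernel

theorem c5_10276_10244 {p0 p1 p2 p3 p4 : V} (h : T.Ok5 p0 p1 p2 p3 p4)
    (n2 : T.X p0 p3 p1 p2 = true)
    (n5 : T.X p0 p4 p1 p2 = false)
    (n11 : T.X p0 p4 p2 p3 = true)
    (n13 : T.X p1 p3 p2 p4 = true) : False := by
  have h2 := h
  unfold Table.Ok5 at h2
  rw [n2, n5, n11, n13] at h2
  exact bc5_10276_10244 _ _ _ _ _ _ _ _ _ _ _ h2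

theorem bc5_10305_10304 : ∀ b1 b2 b3 b4 b5 b7 b8 b9 b10 b12 b14 : Bool,
    ok5 false b1 b2 b3 b4 b5 true b7 b8 b9 b10 true b12 true b14 = true → False := by
  decide +kernel

theorem c5_10305_10304 {p0 p1 p2 p3 p4 : V} (h : T.Ok5 p0 p1 p2 p3 p4)
    (n0 : T.X p0 p1 p2 p3 = false)
    (n6 : T.X p0 p1 p3 p4 = true)
    (n11 : T.X p0 p4 p2 p3 = true)
    (n13 : T.X p1 p3 p2 p4 = true) : False := by
  have h2 := h
  unfold Table.Ok5 at h2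
  rw [n0, n6, n11, n13] at h2
  exact bc5_10305_10304 _ _ _ _ _ _ _ _ _ _ _ h2

theorem bc5_10500_10244 : ∀ b0 b1 b3 b4 b5 b6 b7 b9 b10 b12 b14 : Bool,
    ok5 b0 b1 true b3 b4 b5 b6 b7 false b9 b10 true b12 true b14 = true → False := by
  decide +kernel

theorem c5_10500_10244 {p0 p1 p2 p3 p4 : V} (h : T.Ok5 p0 p1 p2 p3 p4)
    (n2 : T.X p0 p3 p1 p2 = true)
    (n8 : T.X p0 p4 p1 p3 = false)
    (n11 : T.X p0 p4 p2 p3 = true)
    (n13 : T.X p1 p3 p2 p4 = true) : False := by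
  have h2 := h
  unfold Table.Ok5 at h2
  rw [n2, n8, n11, n13] at h2
  exact bc5_10500_10244 _ _ _ _ _ _ _ _ _ _ _ h2

theorem bc5_10505_2056 : ∀ b1 b2 b4 b5 b6 b7 b9 b10 b12 b14 : Bool,
    ok5 false b1 b2 true b4 b5 b6 b7 false b9 b10 true b12 false b14 = true → False := by
  decide +kernel

theorem c5_10505_2056 {p0 p1 p2 p3 p4 : V} (h : T.Ok5 p0 p1 p2 p3 p4)
    (n0 : T.X p0 p1 p2 p3 = false)
    (n3 : T.X p0 p1 p2 p4 = true)
    (n8 : T.X p0 p4 p1 p3 = false)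
    (n11 : T.X p0 p4 p2 p3 = true)
    (n13 : T.X p1 p3 p2 p4 = false) : False := by
  have h2 := h
  unfold Table.Ok5 at h2
  rw [n0, n3, n8, n11, n13] at h2
  exact bc5_10505_2056 _ _ _ _ _ _ _ _ _ _ h2

theorem bc5_14408_2120 : ∀ b0 b1 b2 b4 b5 b7 b8 b9 b10 b14 : Bool,
    ok5 b0 b1 b2 true b4 b5 true b7 b8 b9 b10 true false false b14 = true → False := by
  decide +kernel

theorem c5_14408_2120 {p0 p1 p2 p3 p4 : V} (h : T.Ok5 p0 p1 p2 p3 p4)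
    (n3 : T.X p0 p1 p2 p4 = true)
    (n6 : T.X p0 p1 p3 p4 = true)
    (n11 : T.X p0 p4 p2 p3 = true)
    (n12 : T.X p1 p2 p3 p4 = false)
    (n13 : T.X p1 p3 p2 p4 = false) : False := by
  have h2 := h
  unfold Table.Ok5 at h2
  rw [n3, n6, n11, n12, n13] at h2
  exact bc5_14408_2120 _ _ _ _ _ _ _ _ _ _ h2

theorem bc5_16452_16452 : ∀ b0 b1 b3 b4 b5 b7 b8 b9 b10 b11 b12 b13 : Bool,
    ok5 b0 b1 true b3 b4 b5 true b7 b8 b9 b10 b11 b12 b13 true = true → False := by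
  decide +kernel

theorem c5_16452_16452 {p0 p1 p2 p3 p4 : V} (h : T.Ok5 p0 p1 p2 p3 p4)
    (n2 : T.X p0 p3 p1 p2 = true)
    (n6 : T.X p0 p1 p3 p4 = true)
    (n14 : T.X p1 p4 p2 p3 = true) : False := by
  have h2 := h
  unfold Table.Ok5 at h2
  rw [n2, n6, n14] at h2
  exact bc5_16452_16452 _ _ _ _ _ _ _ _ _ _ _ _ h2

theorem bc5_16457_16456 : ∀ b1 b2 b4 b5 b7 b8 b9 b10 b11 b12 b13 : Bool,
    ok5 false b1 b2 true b4 b5 true b7 b8 b9 b10 b11 b12 b13 true = true → False := by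
  decide +kernel

theorem c5_16457_16456 {p0 p1 p2 p3 p4 : V} (h : T.Ok5 p0 p1 p2 p3 p4)
    (n0 : T.X p0 p1 p2 p3 = false)
    (n3 : T.X p0 p1 p2 p4 = true)
    (n6 : T.X p0 p1 p3 p4 = true)
    (n14 : T.X p1 p4 p2 p3 = true) : False := by
  have h2 := h
  unfold Table.Ok5 at h2
  rw [n0, n3, n6, n14] at h2
  exact bc5_16457_16456 _ _ _ _ _ _ _ _ _ _ _ h2

theorem bc5_16916_16900 : ∀ b0 b1 b3 b5 b6 b7 b8 b10 b11 b12 b13 : Bool,
    ok5 b0 b1 true b3 false b5 b6 b7 b8 true b10 b11 b12 b13 true = true → False := by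
  decide +kernel

theorem c5_16916_16900 {p0 p1 p2 p3 p4 : V} (h : T.Ok5 p0 p1 p2 p3 p4)
    (n2 : T.X p0 p3 p1 p2 = true)
    (n4 : T.X p0 p2 p1 p4 = false)
    (n9 : T.X p0 p2 p3 p4 = true)
    (n14 : T.X p1 p4 p2 p3 = true) : False := by
  have h2 := h
  unfold Table.Ok5 at h2
  rw [n2, n4, n9, n14] at h2
  exact bc5_16916_16900 _ _ _ _ _ _ _ _ _ _ _ h2

theorem bc5_16977_80 : ∀ b1 b2 b3 b5 b7 b8 b10 b11 b12 b13 : Bool,
    ok5 false b1 b2 b3 true b5 true b7 b8 false b10 b11 b12 b13 false = true → False := by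
  decide +kernel

theorem c5_16977_80 {p0 p1 p2 p3 p4 : V} (h : T.Ok5 p0 p1 p2 p3 p4)
    (n0 : T.X p0 p1 p2 p3 = false)
    (n4 : T.X p0 p2 p1 p4 = true)
    (n6 : T.X p0 p1 p3 p4 = true)
    (n9 : T.X p0 p2 p3 p4 = false)
    (n14 : T.X p1 p4 p2 p3 = false) : False := by
  have h2 := h
  unfold Table.Ok5 at h2
  rw [n0, n4, n6, n9, n14] at h2
  exact bc5_16977_80 _ _ _ _ _ _ _ _ _ _ h2

theorem bc5_16977_16896 : ∀ b1 b2 b3 b5 b7 b8 b10 b11 b12 b13 : Bool,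
    ok5 false b1 b2 b3 false b5 false b7 b8 true b10 b11 b12 b13 true = true → False := by
  decide +kernel

theorem c5_16977_16896 {p0 p1 p2 p3 p4 : V} (h : T.Ok5 p0 p1 p2 p3 p4)
    (n0 : T.X p0 p1 p2 p3 = false)
    (n4 : T.X p0 p2 p1 p4 = false)
    (n6 : T.X p0 p1 p3 p4 = false)
    (n9 : T.X p0 p2 p3 p4 = true)
    (n14 : T.X p1 p4 p2 p3 = true) : False := by
  have h2 := h
  unfold Table.Ok5 at h2
  rw [n0, n4, n6, n9, n14] at h2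
  exact bc5_16977_16896 _ _ _ _ _ _ _ _ _ _ h2

theorem bc5_17538_17410 : ∀ b0 b2 b3 b4 b5 b6 b8 b9 b11 b12 b13 : Bool,
    ok5 b0 true b2 b3 b4 b5 b6 false b8 b9 true b11 b12 b13 true = true → False := by
  decide +kernel

theorem c5_17538_17410 {p0 p1 p2 p3 p4 : V} (h : T.Ok5 p0 p1 p2 p3 p4)
    (n1 : T.X p0 p2 p1 p3 = true)
    (n7 : T.X p0 p3 p1 p4 = false)
    (n10 : T.X p0 p3 p2 p4 = true)
    (n14 : T.X p1 p4 p2 p3 = true) : False := by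
  have h2 := h
  unfold Table.Ok5 at h2
  rw [n1, n7, n10, n14] at h2
  exact bc5_17538_17410 _ _ _ _ _ _ _ _ _ _ _ h2

theorem bc5_17545_136 : ∀ b1 b2 b4 b5 b6 b8 b9 b11 b12 b13 : Bool,
    ok5 false b1 b2 true b4 b5 b6 true b8 b9 false b11 b12 b13 false = true → False := by
  decide +kernel

theorem c5_17545_136 {p0 p1 p2 p3 p4 : V} (h : T.Ok5 p0 p1 p2 p3 p4)
    (n0 : T.X p0 p1 p2 p3 = false)
    (n3 : T.X p0 p1 p2 p4 = true)
    (n7 : T.X p0 p3 p1 p4 = true)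
    (n10 : T.X p0 p3 p2 p4 = false)
    (n14 : T.X p1 p4 p2 p3 = false) : False := by
  have h2 := h
  unfold Table.Ok5 at h2
  rw [n0, n3, n7, n10, n14] at h2
  exact bc5_17545_136 _ _ _ _ _ _ _ _ _ _ h2

theorem bc5_17545_16392 : ∀ b1 b2 b4 b5 b6 b8 b9 b11 b12 b13 : Bool,
    ok5 false b1 b2 true b4 b5 b6 false b8 b9 false b11 b12 b13 true = true → False := by
  decide +kernel

theorem c5_17545_16392 {p0 p1 p2 p3 p4 : V} (h : T.Ok5 p0 p1 p2 p3 p4)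
    (n0 : T.X p0 p1 p2 p3 = false)
    (n3 : T.X p0 p1 p2 p4 = true)
    (n7 : T.X p0 p3 p1 p4 = false)
    (n10 : T.X p0 p3 p2 p4 = false)
    (n14 : T.X p1 p4 p2 p3 = true) : False := by
  have h2 := h
  unfold Table.Ok5 at h2
  rw [n0, n3, n7, n10, n14] at h2
  exact bc5_17545_16392 _ _ _ _ _ _ _ _ _ _ h2

theorem bc5_17992_16456 : ∀ b0 b1 b2 b4 b5 b7 b8 b11 b12 b13 : Bool,
    ok5 b0 b1 b2 true b4 b5 true b7 b8 false false b11 b12 b13 true = true → False := by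
  decide +kernel

theorem c5_17992_16456 {p0 p1 p2 p3 p4 : V} (h : T.Ok5 p0 p1 p2 p3 p4)
    (n3 : T.X p0 p1 p2 p4 = true)
    (n6 : T.X p0 p1 p3 p4 = true)
    (n9 : T.X p0 p2 p3 p4 = false)
    (n10 : T.X p0 p3 p2 p4 = false)
    (n14 : T.X p1 p4 p2 p3 = true) : False := by
  have h2 := h
  unfold Table.Ok5 at h2
  rw [n3, n6, n9, n10, n14] at h2
  exact bc5_17992_16456 _ _ _ _ _ _ _ _ _ _ h2

theorem bc5_18441_18440 : ∀ b1 b2 b4 b5 b6 b7 b8 b9 b10 b12 b13 : Bool,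
    ok5 false b1 b2 true b4 b5 b6 b7 b8 b9 b10 true b12 b13 true = true → False := by
  decide +kernel

theorem c5_18441_18440 {p0 p1 p2 p3 p4 : V} (h : T.Ok5 p0 p1 p2 p3 p4)
    (n0 : T.X p0 p1 p2 p3 = false)
    (n3 : T.X p0 p1 p2 p4 = true)
    (n11 : T.X p0 p4 p2 p3 = true)
    (n14 : T.X p1 p4 p2 p3 = true) : False := by
  have h2 := h
  unfold Table.Ok5 at h2
  rw [n0, n3, n11, n14] at h2
  exact bc5_18441_18440 _ _ _ _ _ _ _ _ _ _ _ h2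

theorem bc5_18497_18496 : ∀ b1 b2 b3 b4 b5 b7 b8 b9 b10 b12 b13 : Bool,
    ok5 false b1 b2 b3 b4 b5 true b7 b8 b9 b10 true b12 b13 true = true → False := by
  decide +kernel

theorem c5_18497_18496 {p0 p1 p2 p3 p4 : V} (h : T.Ok5 p0 p1 p2 p3 p4)
    (n0 : T.X p0 p1 p2 p3 = false)
    (n6 : T.X p0 p1 p3 p4 = true)
    (n11 : T.X p0 p4 p2 p3 = true)
    (n14 : T.X p1 p4 p2 p3 = true) : False := by
  have h2 := h
  unfold Table.Ok5 at h2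
  rw [n0, n6, n11, n14] at h2
  exact bc5_18497_18496 _ _ _ _ _ _ _ _ _ _ _ h2

theorem bc5_18596_2052 : ∀ b0 b1 b3 b4 b6 b8 b9 b10 b12 b13 : Bool,
    ok5 b0 b1 true b3 b4 false b6 false b8 b9 b10 true b12 b13 false = true → False := by
  decide +kernel

theorem c5_18596_2052 {p0 p1 p2 p3 p4 : V} (h : T.Ok5 p0 p1 p2 p3 p4)
    (n2 : T.X p0 p3 p1 p2 = true)
    (n5 : T.X p0 p4 p1 p2 = false)
    (n7 : T.X p0 p3 p1 p4 = false)
    (n11 : T.X p0 p4 p2 p3 = true)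
    (n14 : T.X p1 p4 p2 p3 = false) : False := by
  have h2 := h
  unfold Table.Ok5 at h2
  rw [n2, n5, n7, n11, n14] at h2
  exact bc5_18596_2052 _ _ _ _ _ _ _ _ _ _ h2

theorem bc5_24658_82 : ∀ b0 b2 b3 b5 b7 b8 b9 b10 b11 b12 : Bool,
    ok5 b0 true b2 b3 true b5 true b7 b8 b9 b10 b11 b12 false false = true → False := by
  decide +kernel

theorem c5_24658_82 {p0 p1 p2 p3 p4 : V} (h : T.Ok5 p0 p1 p2 p3 p4)
    (n1 : T.X p0 p2 p1 p3 = true)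
    (n4 : T.X p0 p2 p1 p4 = true)
    (n6 : T.X p0 p1 p3 p4 = true)
    (n13 : T.X p1 p3 p2 p4 = false)
    (n14 : T.X p1 p4 p2 p3 = false) : False := by
  have h2 := h
  unfold Table.Ok5 at h2
  rw [n1, n4, n6, n13, n14] at h2
  exact bc5_24658_82 _ _ _ _ _ _ _ _ _ _ h2

theorem bc5a_3_3 : ∀ b2 b3 b4 b5 b6 b7 b8 b9 b10 b11 b12 b13 b14 : Bool,
    ok5a true true b2 b3 b4 b5 b6 b7 b8 b9 b10 b11 b12 b13 b14 = true → False := by
  decide +kernel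

theorem c5a_3_3 {p0 p1 p2 p3 p4 : V} (h : T.Ok5a p0 p1 p2 p3 p4)
    (n0 : T.X p0 p1 p2 p3 = true)
    (n1 : T.X p0 p2 p1 p3 = true) : False := by
  have h2 := h
  unfold Table.Ok5a at h2
  rw [n0, n1] at h2
  exact bc5a_3_3 _ _ _ _ _ _ _ _ _ _ _ _ _ h2

theorem bc5a_592_80 : ∀ b0 b1 b2 b3 b5 b7 b8 b10 b11 b12 b13 b14 : Bool,
    ok5a b0 b1 b2 b3 true b5 true b7 b8 false b10 b11 b12 b13 b14 = true → False := by
  decide +kernel

theorem c5a_592_80 {p0 p1 p2 p3 p4 : V} (h : T.Ok5a p0 p1 p2 p3 p4)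
    (n4 : T.X p0 p2 p1 p4 = true)
    (n6 : T.X p0 p1 p3 p4 = true)
    (n9 : T.X p0 p2 p3 p4 = false) : False := by
  have h2 := h
  unfold Table.Ok5a at h2
  rw [n4, n6, n9] at h2
  exact bc5a_592_80 _ _ _ _ _ _ _ _ _ _ _ _ h2

theorem bc5a_610_608 : ∀ b0 b2 b3 b4 b7 b8 b10 b11 b12 b13 b14 : Bool,
    ok5a b0 false b2 b3 b4 true true b7 b8 true b10 b11 b12 b13 b14 = true → False := by
  decide +kernel

theorem c5a_610_608 {p0 p1 p2 p3 p4 : V} (h : T.Ok5a p0 p1 p2 p3 p4)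
    (n1 : T.X p0 p2 p1 p3 = false)
    (n5 : T.X p0 p4 p1 p2 = true)
    (n6 : T.X p0 p1 p3 p4 = true)
    (n9 : T.X p0 p2 p3 p4 = true) : False := by
  have h2 := h
  unfold Table.Ok5a at h2
  rw [n1, n5, n6, n9] at h2
  exact bc5a_610_608 _ _ _ _ _ _ _ _ _ _ _ h2

theorem bc5a_834_512 : ∀ b0 b2 b3 b4 b5 b7 b10 b11 b12 b13 b14 : Bool,
    ok5a b0 false b2 b3 b4 b5 false b7 false true b10 b11 b12 b13 b14 = true → False := by
  decide +kernel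

theorem c5a_834_512 {p0 p1 p2 p3 p4 : V} (h : T.Ok5a p0 p1 p2 p3 p4)
    (n1 : T.X p0 p2 p1 p3 = false)
    (n6 : T.X p0 p1 p3 p4 = false)
    (n8 : T.X p0 p4 p1 p3 = false)
    (n9 : T.X p0 p2 p3 p4 = true) : False := by
  have h2 := h
  unfold Table.Ok5a at h2
  rw [n1, n6, n8, n9] at h2
  exact bc5a_834_512 _ _ _ _ _ _ _ _ _ _ _ h2

theorem bc5a_836_516 : ∀ b0 b1 b3 b4 b5 b7 b10 b11 b12 b13 b14 : Bool,
    ok5a b0 b1 true b3 b4 b5 false b7 false true b10 b11 b12 b13 b14 = true → False := by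
  decide +kernel

theorem c5a_836_516 {p0 p1 p2 p3 p4 : V} (h : T.Ok5a p0 p1 p2 p3 p4)
    (n2 : T.X p0 p3 p1 p2 = true)
    (n6 : T.X p0 p1 p3 p4 = false)
    (n8 : T.X p0 p4 p1 p3 = false)
    (n9 : T.X p0 p2 p3 p4 = true) : False := by
  have h2 := h
  unfold Table.Ok5a at h2
  rw [n2, n6, n8, n9] at h2
  exact bc5a_836_516 _ _ _ _ _ _ _ _ _ _ _ h2

theorem bc5a_1097_1032 : ∀ b1 b2 b4 b5 b7 b8 b9 b11 b12 b13 b14 : Bool,
    ok5a false b1 b2 true b4 b5 false b7 b8 b9 true b11 b12 b13 b14 = true → False := by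
  decide +kernel

theorem c5a_1097_1032 {p0 p1 p2 p3 p4 : V} (h : T.Ok5a p0 p1 p2 p3 p4)
    (n0 : T.X p0 p1 p2 p3 = false)
    (n3 : T.X p0 p1 p2 p4 = true)
    (n6 : T.X p0 p1 p3 p4 = false)
    (n10 : T.X p0 p3 p2 p4 = true) : False := by
  have h2 := h
  unfold Table.Ok5a at h2
  rw [n0, n3, n6, n10] at h2
  exact bc5a_1097_1032 _ _ _ _ _ _ _ _ _ _ _ h2

theorem bc5a_4172_12 : ∀ b0 b1 b4 b5 b7 b8 b9 b10 b11 b13 b14 : Bool,
    ok5a b0 b1 true true b4 b5 false b7 b8 b9 b10 b11 false b13 b14 = true → False := by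
  decide +kernel

theorem c5a_4172_12 {p0 p1 p2 p3 p4 : V} (h : T.Ok5a p0 p1 p2 p3 p4)
    (n2 : T.X p0 p3 p1 p2 = true)
    (n3 : T.X p0 p1 p2 p4 = true)
    (n6 : T.X p0 p1 p3 p4 = false)
    (n12 : T.X p1 p2 p3 p4 = false) : False := by
  have h2 := h
  unfold Table.Ok5a at h2
  rw [n2, n3, n6, n12] at h2
  exact bc5a_4172_12 _ _ _ _ _ _ _ _ _ _ _ h2

theorem bc5a_4450_4128 : ∀ b0 b2 b3 b4 b7 b9 b10 b11 b13 b14 : Bool,
    ok5a b0 false b2 b3 b4 true false b7 false b9 b10 b11 true b13 b14 = true → False := by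
  decide +kernel

theorem c5a_4450_4128 {p0 p1 p2 p3 p4 : V} (h : T.Ok5a p0 p1 p2 p3 p4)
    (n1 : T.X p0 p2 p1 p3 = false)
    (n5 : T.X p0 p4 p1 p2 = true)
    (n6 : T.X p0 p1 p3 p4 = false)
    (n8 : T.X p0 p4 p1 p3 = false)
    (n12 : T.X p1 p2 p3 p4 = true) : False := by
  have h2 := h
  unfold Table.Ok5a at h2
  rw [n1, n5, n6, n8, n12] at h2
  exact bc5a_4450_4128 _ _ _ _ _ _ _ _ _ _ h2

theorem bc5a_4708_4132 : ∀ b0 b1 b3 b4 b7 b8 b10 b11 b13 b14 : Bool,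
    ok5a b0 b1 true b3 b4 true false b7 b8 false b10 b11 true b13 b14 = true → False := by
  decide +kernel

theorem c5a_4708_4132 {p0 p1 p2 p3 p4 : V} (h : T.Ok5a p0 p1 p2 p3 p4)
    (n2 : T.X p0 p3 p1 p2 = true)
    (n5 : T.X p0 p4 p1 p2 = true)
    (n6 : T.X p0 p1 p3 p4 = false)
    (n9 : T.X p0 p2 p3 p4 = false)
    (n12 : T.X p1 p2 p3 p4 = true) : False := by
  have h2 := h
  unfold Table.Ok5a at h2
  rw [n2, n5, n6, n9, n12] at h2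
  exact bc5a_4708_4132 _ _ _ _ _ _ _ _ _ _ h2

theorem bc5a_5128_5128 : ∀ b0 b1 b2 b4 b5 b6 b7 b8 b9 b11 b13 b14 : Bool,
    ok5a b0 b1 b2 true b4 b5 b6 b7 b8 b9 true b11 true b13 b14 = true → False := by
  decide +kernel

theorem c5a_5128_5128 {p0 p1 p2 p3 p4 : V} (h : T.Ok5a p0 p1 p2 p3 p4)
    (n3 : T.X p0 p1 p2 p4 = true)
    (n10 : T.X p0 p3 p2 p4 = true)
    (n12 : T.X p1 p2 p3 p4 = true) : False := by
  have h2 := h
  unfold Table.Ok5a at h2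
  rw [n3, n10, n12] at h2
  exact bc5a_5128_5128 _ _ _ _ _ _ _ _ _ _ _ _ h2

theorem bc5a_8202_10 : ∀ b0 b2 b4 b5 b6 b7 b8 b9 b10 b11 b12 b14 : Bool,
    ok5a b0 true b2 true b4 b5 b6 b7 b8 b9 b10 b11 b12 false b14 = true → False := by
  decide +kernel

theorem c5a_8202_10 {p0 p1 p2 p3 p4 : V} (h : T.Ok5a p0 p1 p2 p3 p4)
    (n1 : T.X p0 p2 p1 p3 = true)
    (n3 : T.X p0 p1 p2 p4 = true)
    (n13 : T.X p1 p3 p2 p4 = false) : False := by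
  have h2 := h
  unfold Table.Ok5a at h2
  rw [n1, n3, n13] at h2
  exact bc5a_8202_10 _ _ _ _ _ _ _ _ _ _ _ _ h2

theorem bc5a_8324_8324 : ∀ b0 b1 b3 b4 b5 b6 b8 b9 b10 b11 b12 b14 : Bool,
    ok5a b0 b1 true b3 b4 b5 b6 true b8 b9 b10 b11 b12 true b14 = true → False := by
  decide +kernel

theorem c5a_8324_8324 {p0 p1 p2 p3 p4 : V} (h : T.Ok5a p0 p1 p2 p3 p4)
    (n2 : T.X p0 p3 p1 p2 = true)
    (n7 : T.X p0 p3 p1 p4 = true)
    (n13 : T.X p1 p3 p2 p4 = true) : False := by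
  have h2 := h
  unfold Table.Ok5a at h2
  rw [n2, n7, n13] at h2
  exact bc5a_8324_8324 _ _ _ _ _ _ _ _ _ _ _ _ h2

theorem bc5a_8776_8256 : ∀ b0 b1 b2 b4 b5 b7 b8 b10 b11 b12 b14 : Bool,
    ok5a b0 b1 b2 false b4 b5 true b7 b8 false b10 b11 b12 true b14 = true → False := by
  decide +kernel

theorem c5a_8776_8256 {p0 p1 p2 p3 p4 : V} (h : T.Ok5a p0 p1 p2 p3 p4)
    (n3 : T.X p0 p1 p2 p4 = false)
    (n6 : T.X p0 p1 p3 p4 = true)
    (n9 : T.X p0 p2 p3 p4 = false)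
    (n13 : T.X p1 p3 p2 p4 = true) : False := by
  have h2 := h
  unfold Table.Ok5a at h2
  rw [n3, n6, n9, n13] at h2
  exact bc5a_8776_8256 _ _ _ _ _ _ _ _ _ _ _ h2

theorem bc5a_8778_576 : ∀ b0 b2 b4 b5 b7 b8 b10 b11 b12 b14 : Bool,
    ok5a b0 false b2 false b4 b5 true b7 b8 true b10 b11 b12 false b14 = true → False := by
  decide +kernel

theorem c5a_8778_576 {p0 p1 p2 p3 p4 : V} (h : T.Ok5a p0 p1 p2 p3 p4)
    (n1 : T.X p0 p2 p1 p3 = false)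
    (n3 : T.X p0 p1 p2 p4 = false)
    (n6 : T.X p0 p1 p3 p4 = true)
    (n9 : T.X p0 p2 p3 p4 = true)
    (n13 : T.X p1 p3 p2 p4 = false) : False := by
  have h2 := h
  unfold Table.Ok5a at h2
  rw [n1, n3, n6, n9, n13] at h2
  exact bc5a_8778_576 _ _ _ _ _ _ _ _ _ _ h2

theorem bc5a_9218_1026 : ∀ b0 b2 b3 b4 b5 b6 b7 b8 b9 b11 b12 b14 : Bool,
    ok5a b0 true b2 b3 b4 b5 b6 b7 b8 b9 true b11 b12 false b14 = true → False := by
  decide +kernel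

theorem c5a_9218_1026 {p0 p1 p2 p3 p4 : V} (h : T.Ok5a p0 p1 p2 p3 p4)
    (n1 : T.X p0 p2 p1 p3 = true)
    (n10 : T.X p0 p3 p2 p4 = true)
    (n13 : T.X p1 p3 p2 p4 = false) : False := by
  have h2 := h
  unfold Table.Ok5a at h2
  rw [n1, n10, n13] at h2
  exact bc5a_9218_1026 _ _ _ _ _ _ _ _ _ _ _ _ h2

theorem bc5a_9476_8452 : ∀ b0 b1 b3 b4 b5 b6 b7 b9 b11 b12 b14 : Bool,
    ok5a b0 b1 true b3 b4 b5 b6 b7 true b9 false b11 b12 true b14 = true → False := by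
  decide +kernel

theorem c5a_9476_8452 {p0 p1 p2 p3 p4 : V} (h : T.Ok5a p0 p1 p2 p3 p4)
    (n2 : T.X p0 p3 p1 p2 = true)
    (n8 : T.X p0 p4 p1 p3 = true)
    (n10 : T.X p0 p3 p2 p4 = false)
    (n13 : T.X p1 p3 p2 p4 = true) : False := by
  have h2 := h
  unfold Table.Ok5a at h2
  rw [n2, n8, n10, n13] at h2
  exact bc5a_9476_8452 _ _ _ _ _ _ _ _ _ _ _ h2

theorem bc5a_9540_9220 : ∀ b0 b1 b3 b4 b5 b7 b9 b11 b12 b14 : Bool,
    ok5a b0 b1 true b3 b4 b5 false b7 false b9 true b11 b12 true b14 = true → False := by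
  decide +kernel

theorem c5a_9540_9220 {p0 p1 p2 p3 p4 : V} (h : T.Ok5a p0 p1 p2 p3 p4)
    (n2 : T.X p0 p3 p1 p2 = true)
    (n6 : T.X p0 p1 p3 p4 = false)
    (n8 : T.X p0 p4 p1 p3 = false)
    (n10 : T.X p0 p3 p2 p4 = true)
    (n13 : T.X p1 p3 p2 p4 = true) : False := by
  have h2 := h
  unfold Table.Ok5a at h2
  rw [n2, n6, n8, n10, n13] at h2
  exact bc5a_9540_9220 _ _ _ _ _ _ _ _ _ _ h2

theorem bc5a_16544_160 : ∀ b0 b1 b2 b3 b4 b6 b8 b9 b10 b11 b12 b13 : Bool,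
    ok5a b0 b1 b2 b3 b4 true b6 true b8 b9 b10 b11 b12 b13 false = true → False := by
  decide +kernel

theorem c5a_16544_160 {p0 p1 p2 p3 p4 : V} (h : T.Ok5a p0 p1 p2 p3 p4)
    (n5 : T.X p0 p4 p1 p2 = true)
    (n7 : T.X p0 p3 p1 p4 = true)
    (n14 : T.X p1 p4 p2 p3 = false) : False := by
  have h2 := h
  unfold Table.Ok5a at h2
  rw [n5, n7, n14] at h2
  exact bc5a_16544_160 _ _ _ _ _ _ _ _ _ _ _ _ h2

theorem bc5a_16772_16388 : ∀ b0 b1 b3 b4 b5 b6 b9 b10 b11 b12 b13 : Bool,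
    ok5a b0 b1 true b3 b4 b5 b6 false false b9 b10 b11 b12 b13 true = true → False := by
  decide +kernel

theorem c5a_16772_16388 {p0 p1 p2 p3 p4 : V} (h : T.Ok5a p0 p1 p2 p3 p4)
    (n2 : T.X p0 p3 p1 p2 = true)
    (n7 : T.X p0 p3 p1 p4 = false)
    (n8 : T.X p0 p4 p1 p3 = false)
    (n14 : T.X p1 p4 p2 p3 = true) : False := by
  have h2 := h
  unfold Table.Ok5a at h2
  rw [n2, n7, n8, n14] at h2
  exact bc5a_16772_16388 _ _ _ _ _ _ _ _ _ _ _ h2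

theorem bc5a_17668_16388 : ∀ b0 b1 b3 b4 b5 b6 b7 b9 b11 b12 b13 : Bool,
    ok5a b0 b1 true b3 b4 b5 b6 b7 false b9 false b11 b12 b13 true = true → False := by
  decide +kernel

theorem c5a_17668_16388 {p0 p1 p2 p3 p4 : V} (h : T.Ok5a p0 p1 p2 p3 p4)
    (n2 : T.X p0 p3 p1 p2 = true)
    (n8 : T.X p0 p4 p1 p3 = false)
    (n10 : T.X p0 p3 p2 p4 = false)
    (n14 : T.X p1 p4 p2 p3 = true) : False := by
  have h2 := h
  unfold Table.Ok5a at h2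
  rw [n2, n8, n10, n14] at h2
  exact bc5a_17668_16388 _ _ _ _ _ _ _ _ _ _ _ h2

theorem bc5a_18436_2052 : ∀ b0 b1 b3 b4 b5 b6 b7 b8 b9 b10 b12 b13 : Bool,
    ok5a b0 b1 true b3 b4 b5 b6 b7 b8 b9 b10 true b12 b13 false = true → False := by
  decide +kernel

theorem c5a_18436_2052 {p0 p1 p2 p3 p4 : V} (h : T.Ok5a p0 p1 p2 p3 p4)
    (n2 : T.X p0 p3 p1 p2 = true)
    (n11 : T.X p0 p4 p2 p3 = true)
    (n14 : T.X p1 p4 p2 p3 = false) : False := by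
  have h2 := h
  unfold Table.Ok5a at h2
  rw [n2, n11, n14] at h2
  exact bc5a_18436_2052 _ _ _ _ _ _ _ _ _ _ _ _ h2

theorem bc5a_18450_16386 : ∀ b0 b2 b3 b5 b6 b7 b8 b9 b10 b12 b13 : Bool,
    ok5a b0 true b2 b3 false b5 b6 b7 b8 b9 b10 false b12 b13 true = true → False := by
  decide +kernel

theorem c5a_18450_16386 {p0 p1 p2 p3 p4 : V} (h : T.Ok5a p0 p1 p2 p3 p4)
    (n1 : T.X p0 p2 p1 p3 = true)
    (n4 : T.X p0 p2 p1 p4 = false)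
    (n11 : T.X p0 p4 p2 p3 = false)
    (n14 : T.X p1 p4 p2 p3 = true) : False := by
  have h2 := h
  unfold Table.Ok5a at h2
  rw [n1, n4, n11, n14] at h2
  exact bc5a_18450_16386 _ _ _ _ _ _ _ _ _ _ _ h2

end H53P
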