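import Pool.Agent.Lib.H98S.SP

/-! # H98S, finite facts, file CL5: clauses for five points, families (generated) -/

set_option linter.unusedVariables false

namespace H53P

variable {V : Type*} {T : Table V}

theorem bcA0_100_100 : ∀ b0 b1 b3 b4 b7 b8 b9 b10 b11 b12 b13 b14 : Bool,
    okA0 b0 b1 true b3 b4 true true b7 b8 b9 b10 b11 b12 b13 b14 = true → False := by
  decide +kernel

theorem cA0_100_100 {p0 p1 p2 p3 p4 : V} (h : T.OkA0 p0 p1 p2 p3 p4)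
    (n2 : T.X p0 p3 p1 p2 = true)
    (n5 : T.X p0 p4 p1 p2 = true)
    (n6 : T.X p0 p1 p3 p4 = true) : False := by
  have h2 := h
  unfold Table.OkA0 at h2
  rw [n2, n5, n6] at h2
  exact bcA0_100_100 _ _ _ _ _ _ _ _ _ _ _ _ h2

theorem bcA0_148_20 : ∀ b0 b1 b3 b5 b6 b8 b9 b10 b11 b12 b13 b14 : Bool,
    okA0 b0 b1 true b3 true b5 b6 false b8 b9 b10 b11 b12 b13 b14 = true → False := by
  decide +kernel

theorem cA0_148_20 {p0 p1 p2 p3 p4 : V} (h : T.OkA0 p0 p1 p2 p3 p4)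
    (n2 : T.X p0 p3 p1 p2 = true)
    (n4 : T.X p0 p2 p1 p4 = true)
    (n7 : T.X p0 p3 p1 p4 = false) : False := by
  have h2 := h
  unfold Table.OkA0 at h2
  rw [n2, n4, n7] at h2
  exact bcA0_148_20 _ _ _ _ _ _ _ _ _ _ _ _ h2

theorem bcA0_294_256 : ∀ b0 b3 b4 b6 b7 b9 b10 b11 b12 b13 b14 : Bool,
    okA0 b0 false false b3 b4 false b6 b7 true b9 b10 b11 b12 b13 b14 = true → False := by
  decide +kernel

theorem cA0_294_256 {p0 p1 p2 p3 p4 : V} (h : T.OkA0 p0 p1 p2 p3 p4)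
    (n1 : T.X p0 p2 p1 p3 = false)
    (n2 : T.X p0 p3 p1 p2 = false)
    (n5 : T.X p0 p4 p1 p2 = false)
    (n8 : T.X p0 p4 p1 p3 = true) : False := by
  have h2 := h
  unfold Table.OkA0 at h2
  rw [n1, n2, n5, n8] at h2
  exact bcA0_294_256 _ _ _ _ _ _ _ _ _ _ _ h2

theorem bcA0_548_548 : ∀ b0 b1 b3 b4 b6 b7 b8 b10 b11 b12 b13 b14 : Bool,
    okA0 b0 b1 true b3 b4 true b6 b7 b8 true b10 b11 b12 b13 b14 = true → False := by
  decide +kernel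

theorem cA0_548_548 {p0 p1 p2 p3 p4 : V} (h : T.OkA0 p0 p1 p2 p3 p4)
    (n2 : T.X p0 p3 p1 p2 = true)
    (n5 : T.X p0 p4 p1 p2 = true)
    (n9 : T.X p0 p2 p3 p4 = true) : False := by
  have h2 := h
  unfold Table.OkA0 at h2
  rw [n2, n5, n9] at h2
  exact bcA0_548_548 _ _ _ _ _ _ _ _ _ _ _ _ h2

theorem bcA0_642_130 : ∀ b0 b2 b3 b4 b5 b6 b8 b10 b11 b12 b13 b14 : Bool,
    okA0 b0 true b2 b3 b4 b5 b6 true b8 false b10 b11 b12 b13 b14 = true → False := by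
  decide +kernel

theorem cA0_642_130 {p0 p1 p2 p3 p4 : V} (h : T.OkA0 p0 p1 p2 p3 p4)
    (n1 : T.X p0 p2 p1 p3 = true)
    (n7 : T.X p0 p3 p1 p4 = true)
    (n9 : T.X p0 p2 p3 p4 = false) : False := by
  have h2 := h
  unfold Table.OkA0 at h2
  rw [n1, n7, n9] at h2
  exact bcA0_642_130 _ _ _ _ _ _ _ _ _ _ _ _ h2

theorem bcA0_656_640 : ∀ b0 b1 b2 b3 b5 b6 b8 b10 b11 b12 b13 b14 : Bool,
    okA0 b0 b1 b2 b3 false b5 b6 true b8 true b10 b11 b12 b13 b14 = true → False := by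
  decide +kernel

theorem cA0_656_640 {p0 p1 p2 p3 p4 : V} (h : T.OkA0 p0 p1 p2 p3 p4)
    (n4 : T.X p0 p2 p1 p4 = false)
    (n7 : T.X p0 p3 p1 p4 = true)
    (n9 : T.X p0 p2 p3 p4 = true) : False := by
  have h2 := h
  unfold Table.OkA0 at h2
  rw [n4, n7, n9] at h2
  exact bcA0_656_640 _ _ _ _ _ _ _ _ _ _ _ _ h2

theorem bcA0_770_768 : ∀ b0 b2 b3 b4 b5 b6 b7 b10 b11 b12 b13 b14 : Bool,
    okA0 b0 false b2 b3 b4 b5 b6 b7 true true b10 b11 b12 b13 b14 = true → False := by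
  decide +kernel

theorem cA0_770_768 {p0 p1 p2 p3 p4 : V} (h : T.OkA0 p0 p1 p2 p3 p4)
    (n1 : T.X p0 p2 p1 p3 = false)
    (n8 : T.X p0 p4 p1 p3 = true)
    (n9 : T.X p0 p2 p3 p4 = true) : False := by
  have h2 := h
  unfold Table.OkA0 at h2
  rw [n1, n8, n9] at h2
  exact bcA0_770_768 _ _ _ _ _ _ _ _ _ _ _ _ h2

theorem bcA0_1036_12 : ∀ b0 b1 b4 b5 b6 b7 b8 b9 b11 b12 b13 b14 : Bool,
    okA0 b0 b1 true true b4 b5 b6 b7 b8 b9 false b11 b12 b13 b14 = true → False := by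
  decide +kernel

theorem cA0_1036_12 {p0 p1 p2 p3 p4 : V} (h : T.OkA0 p0 p1 p2 p3 p4)
    (n2 : T.X p0 p3 p1 p2 = true)
    (n3 : T.X p0 p1 p2 p4 = true)
    (n10 : T.X p0 p3 p2 p4 = false) : False := by
  have h2 := h
  unfold Table.OkA0 at h2
  rw [n2, n3, n10] at h2
  exact bcA0_1036_12 _ _ _ _ _ _ _ _ _ _ _ _ h2

theorem bcA0_1068_1024 : ∀ b0 b1 b4 b6 b7 b8 b9 b11 b12 b13 b14 : Bool,
    okA0 b0 b1 false false b4 false b6 b7 b8 b9 true b11 b12 b13 b14 = true → False := by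
  decide +kernel

theorem cA0_1068_1024 {p0 p1 p2 p3 p4 : V} (h : T.OkA0 p0 p1 p2 p3 p4)
    (n2 : T.X p0 p3 p1 p2 = false)
    (n3 : T.X p0 p1 p2 p4 = false)
    (n5 : T.X p0 p4 p1 p2 = false)
    (n10 : T.X p0 p3 p2 p4 = true) : False := by
  have h2 := h
  unfold Table.OkA0 at h2
  rw [n2, n3, n5, n10] at h2
  exact bcA0_1068_1024 _ _ _ _ _ _ _ _ _ _ _ h2

theorem bcA0_1096_1088 : ∀ b0 b1 b2 b4 b5 b7 b8 b9 b11 b12 b13 b14 : Bool,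
    okA0 b0 b1 b2 false b4 b5 true b7 b8 b9 true b11 b12 b13 b14 = true → False := by
  decide +kernel

theorem cA0_1096_1088 {p0 p1 p2 p3 p4 : V} (h : T.OkA0 p0 p1 p2 p3 p4)
    (n3 : T.X p0 p1 p2 p4 = false)
    (n6 : T.X p0 p1 p3 p4 = true)
    (n10 : T.X p0 p3 p2 p4 = true) : False := by
  have h2 := h
  unfold Table.OkA0 at h2
  rw [n3, n6, n10] at h2
  exact bcA0_1096_1088 _ _ _ _ _ _ _ _ _ _ _ _ h2

theorem bcA0_1122_1026 : ∀ b0 b2 b3 b4 b7 b8 b9 b11 b12 b13 b14 : Bool,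
    okA0 b0 true b2 b3 b4 false false b7 b8 b9 true b11 b12 b13 b14 = true → False := by
  decide +kernel

theorem cA0_1122_1026 {p0 p1 p2 p3 p4 : V} (h : T.OkA0 p0 p1 p2 p3 p4)
    (n1 : T.X p0 p2 p1 p3 = true)
    (n5 : T.X p0 p4 p1 p2 = false)
    (n6 : T.X p0 p1 p3 p4 = false)
    (n10 : T.X p0 p3 p2 p4 = true) : False := by
  have h2 := h
  unfold Table.OkA0 at h2
  rw [n1, n5, n6, n10] at h2
  exact bcA0_1122_1026 _ _ _ _ _ _ _ _ _ _ _ h2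

theorem bcA0_2057_2056 : ∀ b1 b2 b4 b5 b6 b7 b8 b9 b10 b12 b13 b14 : Bool,
    okA0 false b1 b2 true b4 b5 b6 b7 b8 b9 b10 true b12 b13 b14 = true → False := by
  decide +kernel

theorem cA0_2057_2056 {p0 p1 p2 p3 p4 : V} (h : T.OkA0 p0 p1 p2 p3 p4)
    (n0 : T.X p0 p1 p2 p3 = false)
    (n3 : T.X p0 p1 p2 p4 = true)
    (n11 : T.X p0 p4 p2 p3 = true) : False := by
  have h2 := h
  unfold Table.OkA0 at h2
  rw [n0, n3, n11] at h2
  exact bcA0_2057_2056 _ _ _ _ _ _ _ _ _ _ _ _ h2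

theorem bcA0_2069_2064 : ∀ b1 b3 b5 b6 b7 b8 b9 b10 b12 b13 b14 : Bool,
    okA0 false b1 false b3 true b5 b6 b7 b8 b9 b10 true b12 b13 b14 = true → False := by
  decide +kernel

theorem cA0_2069_2064 {p0 p1 p2 p3 p4 : V} (h : T.OkA0 p0 p1 p2 p3 p4)
    (n0 : T.X p0 p1 p2 p3 = false)
    (n2 : T.X p0 p3 p1 p2 = false)
    (n4 : T.X p0 p2 p1 p4 = true)
    (n11 : T.X p0 p4 p2 p3 = true) : False := by
  have h2 := h
  unfold Table.OkA0 at h2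
  rw [n0, n2, n4, n11] at h2
  exact bcA0_2069_2064 _ _ _ _ _ _ _ _ _ _ _ h2

theorem bcA0_2082_2050 : ∀ b0 b2 b3 b4 b6 b7 b8 b9 b10 b12 b13 b14 : Bool,
    okA0 b0 true b2 b3 b4 false b6 b7 b8 b9 b10 true b12 b13 b14 = true → False := by
  decide +kernel

theorem cA0_2082_2050 {p0 p1 p2 p3 p4 : V} (h : T.OkA0 p0 p1 p2 p3 p4)
    (n1 : T.X p0 p2 p1 p3 = true)
    (n5 : T.X p0 p4 p1 p2 = false)
    (n11 : T.X p0 p4 p2 p3 = true) : False := by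
  have h2 := h
  unfold Table.OkA0 at h2
  rw [n1, n5, n11] at h2
  exact bcA0_2082_2050 _ _ _ _ _ _ _ _ _ _ _ _ h2

theorem bcA0_2085_2048 : ∀ b1 b3 b4 b6 b7 b8 b9 b10 b12 b13 b14 : Bool,
    okA0 false b1 false b3 b4 false b6 b7 b8 b9 b10 true b12 b13 b14 = true → False := by
  decide +kernel

theorem cA0_2085_2048 {p0 p1 p2 p3 p4 : V} (h : T.OkA0 p0 p1 p2 p3 p4)
    (n0 : T.X p0 p1 p2 p3 = false)
    (n2 : T.X p0 p3 p1 p2 = false)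
    (n5 : T.X p0 p4 p1 p2 = false)
    (n11 : T.X p0 p4 p2 p3 = true) : False := by
  have h2 := h
  unfold Table.OkA0 at h2
  rw [n0, n2, n5, n11] at h2
  exact bcA0_2085_2048 _ _ _ _ _ _ _ _ _ _ _ h2

theorem bcA0_2113_2112 : ∀ b1 b2 b3 b4 b5 b7 b8 b9 b10 b12 b13 b14 : Bool,
    okA0 false b1 b2 b3 b4 b5 true b7 b8 b9 b10 true b12 b13 b14 = true → False := by
  decide +kernel

theorem cA0_2113_2112 {p0 p1 p2 p3 p4 : V} (h : T.OkA0 p0 p1 p2 p3 p4)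
    (n0 : T.X p0 p1 p2 p3 = false)
    (n6 : T.X p0 p1 p3 p4 = true)
    (n11 : T.X p0 p4 p2 p3 = true) : False := by
  have h2 := h
  unfold Table.OkA0 at h2
  rw [n0, n6, n11] at h2
  exact bcA0_2113_2112 _ _ _ _ _ _ _ _ _ _ _ _ h2

theorem bcA0_2340_36 : ∀ b0 b1 b3 b4 b6 b7 b9 b10 b12 b13 b14 : Bool,
    okA0 b0 b1 true b3 b4 true b6 b7 false b9 b10 false b12 b13 b14 = true → False := by
  decide +kernel

theorem cA0_2340_36 {p0 p1 p2 p3 p4 : V} (h : T.OkA0 p0 p1 p2 p3 p4)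
    (n2 : T.X p0 p3 p1 p2 = true)
    (n5 : T.X p0 p4 p1 p2 = true)
    (n8 : T.X p0 p4 p1 p3 = false)
    (n11 : T.X p0 p4 p2 p3 = false) : False := by
  have h2 := h
  unfold Table.OkA0 at h2
  rw [n2, n5, n8, n11] at h2
  exact bcA0_2340_36 _ _ _ _ _ _ _ _ _ _ _ h2

theorem bcA0_3108_36 : ∀ b0 b1 b3 b4 b6 b7 b8 b9 b12 b13 b14 : Bool,
    okA0 b0 b1 true b3 b4 true b6 b7 b8 b9 false false b12 b13 b14 = true → False := by
  decide +kernel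

theorem cA0_3108_36 {p0 p1 p2 p3 p4 : V} (h : T.OkA0 p0 p1 p2 p3 p4)
    (n2 : T.X p0 p3 p1 p2 = true)
    (n5 : T.X p0 p4 p1 p2 = true)
    (n10 : T.X p0 p3 p2 p4 = false)
    (n11 : T.X p0 p4 p2 p3 = false) : False := by
  have h2 := h
  unfold Table.OkA0 at h2
  rw [n2, n5, n10, n11] at h2
  exact bcA0_3108_36 _ _ _ _ _ _ _ _ _ _ _ h2

theorem bcA0_4132_36 : ∀ b0 b1 b3 b4 b6 b7 b8 b9 b10 b11 b13 b14 : Bool,
    okA0 b0 b1 true b3 b4 true b6 b7 b8 b9 b10 b11 false b13 b14 = true → False := by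
  decide +kernel

theorem cA0_4132_36 {p0 p1 p2 p3 p4 : V} (h : T.OkA0 p0 p1 p2 p3 p4)
    (n2 : T.X p0 p3 p1 p2 = true)
    (n5 : T.X p0 p4 p1 p2 = true)
    (n12 : T.X p1 p2 p3 p4 = false) : False := by
  have h2 := h
  unfold Table.OkA0 at h2
  rw [n2, n5, n12] at h2
  exact bcA0_4132_36 _ _ _ _ _ _ _ _ _ _ _ _ h2

theorem bcA0_4172_4108 : ∀ b0 b1 b4 b5 b7 b8 b9 b10 b11 b13 b14 : Bool,
    okA0 b0 b1 true true b4 b5 false b7 b8 b9 b10 b11 true b13 b14 = true → False := by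
  decide +kernel

theorem cA0_4172_4108 {p0 p1 p2 p3 p4 : V} (h : T.OkA0 p0 p1 p2 p3 p4)
    (n2 : T.X p0 p3 p1 p2 = true)
    (n3 : T.X p0 p1 p2 p4 = true)
    (n6 : T.X p0 p1 p3 p4 = false)
    (n12 : T.X p1 p2 p3 p4 = true) : False := by
  have h2 := h
  unfold Table.OkA0 at h2
  rw [n2, n3, n6, n12] at h2
  exact bcA0_4172_4108 _ _ _ _ _ _ _ _ _ _ _ h2

theorem bcA0_4272_4224 : ∀ b0 b1 b2 b3 b6 b8 b9 b10 b11 b13 b14 : Bool,
    okA0 b0 b1 b2 b3 false false b6 true b8 b9 b10 b11 true b13 b14 = true → False := by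
  decide +kernel

theorem cA0_4272_4224 {p0 p1 p2 p3 p4 : V} (h : T.OkA0 p0 p1 p2 p3 p4)
    (n4 : T.X p0 p2 p1 p4 = false)
    (n5 : T.X p0 p4 p1 p2 = false)
    (n7 : T.X p0 p3 p1 p4 = true)
    (n12 : T.X p1 p2 p3 p4 = true) : False := by
  have h2 := h
  unfold Table.OkA0 at h2
  rw [n4, n5, n7, n12] at h2
  exact bcA0_4272_4224 _ _ _ _ _ _ _ _ _ _ _ h2

theorem bcA0_4708_0 : ∀ b0 b1 b3 b4 b7 b8 b10 b11 b13 b14 : Bool,
    okA0 b0 b1 false b3 b4 false false b7 b8 false b10 b11 false b13 b14 = true → False := by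
  decide +kernel

theorem cA0_4708_0 {p0 p1 p2 p3 p4 : V} (h : T.OkA0 p0 p1 p2 p3 p4)
    (n2 : T.X p0 p3 p1 p2 = false)
    (n5 : T.X p0 p4 p1 p2 = false)
    (n6 : T.X p0 p1 p3 p4 = false)
    (n9 : T.X p0 p2 p3 p4 = false)
    (n12 : T.X p1 p2 p3 p4 = false) : False := by
  have h2 := h
  unfold Table.OkA0 at h2
  rw [n2, n5, n6, n9, n12] at h2
  exact bcA0_4708_0 _ _ _ _ _ _ _ _ _ _ h2

theorem bcA0_5160_5120 : ∀ b0 b1 b2 b4 b6 b7 b8 b9 b11 b13 b14 : Bool,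
    okA0 b0 b1 b2 false b4 false b6 b7 b8 b9 true b11 true b13 b14 = true → False := by
  decide +kernel

theorem cA0_5160_5120 {p0 p1 p2 p3 p4 : V} (h : T.OkA0 p0 p1 p2 p3 p4)
    (n3 : T.X p0 p1 p2 p4 = false)
    (n5 : T.X p0 p4 p1 p2 = false)
    (n10 : T.X p0 p3 p2 p4 = true)
    (n12 : T.X p1 p2 p3 p4 = true) : False := by
  have h2 := h
  unfold Table.OkA0 at h2
  rw [n3, n5, n10, n12] at h2
  exact bcA0_5160_5120 _ _ _ _ _ _ _ _ _ _ _ h2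

theorem bcA0_8228_8228 : ∀ b0 b1 b3 b4 b6 b7 b8 b9 b10 b11 b12 b14 : Bool,
    okA0 b0 b1 true b3 b4 true b6 b7 b8 b9 b10 b11 b12 true b14 = true → False := by
  decide +kernel

theorem cA0_8228_8228 {p0 p1 p2 p3 p4 : V} (h : T.OkA0 p0 p1 p2 p3 p4)
    (n2 : T.X p0 p3 p1 p2 = true)
    (n5 : T.X p0 p4 p1 p2 = true)
    (n13 : T.X p1 p3 p2 p4 = true) : False := by
  have h2 := h
  unfold Table.OkA0 at h2
  rw [n2, n5, n13] at h2
  exact bcA0_8228_8228 _ _ _ _ _ _ _ _ _ _ _ _ h2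

theorem bcA0_8804_8192 : ∀ b0 b1 b3 b4 b7 b8 b10 b11 b12 b14 : Bool,
    okA0 b0 b1 false b3 b4 false false b7 b8 false b10 b11 b12 true b14 = true → False := by
  decide +kernel

theorem cA0_8804_8192 {p0 p1 p2 p3 p4 : V} (h : T.OkA0 p0 p1 p2 p3 p4)
    (n2 : T.X p0 p3 p1 p2 = false)
    (n5 : T.X p0 p4 p1 p2 = false)
    (n6 : T.X p0 p1 p3 p4 = false)
    (n9 : T.X p0 p2 p3 p4 = false)
    (n13 : T.X p1 p3 p2 p4 = true) : False := by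
  have h2 := h
  unfold Table.OkA0 at h2
  rw [n2, n5, n6, n9, n13] at h2
  exact bcA0_8804_8192 _ _ _ _ _ _ _ _ _ _ h2

theorem bcA0_9226_8 : ∀ b0 b2 b4 b5 b6 b7 b8 b9 b11 b12 b14 : Bool,
    okA0 b0 false b2 true b4 b5 b6 b7 b8 b9 false b11 b12 false b14 = true → False := by
  decide +kernel

theorem cA0_9226_8 {p0 p1 p2 p3 p4 : V} (h : T.OkA0 p0 p1 p2 p3 p4)
    (n1 : T.X p0 p2 p1 p3 = false)
    (n3 : T.X p0 p1 p2 p4 = true)
    (n10 : T.X p0 p3 p2 p4 = false)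
    (n13 : T.X p1 p3 p2 p4 = false) : False := by
  have h2 := h
  unfold Table.OkA0 at h2
  rw [n1, n3, n10, n13] at h2
  exact bcA0_9226_8 _ _ _ _ _ _ _ _ _ _ _ h2

theorem bcA0_9474_256 : ∀ b0 b2 b3 b4 b5 b6 b7 b9 b11 b12 b14 : Bool,
    okA0 b0 false b2 b3 b4 b5 b6 b7 true b9 false b11 b12 false b14 = true → False := by
  decide +kernel

theorem cA0_9474_256 {p0 p1 p2 p3 p4 : V} (h : T.OkA0 p0 p1 p2 p3 p4)
    (n1 : T.X p0 p2 p1 p3 = false)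
    (n8 : T.X p0 p4 p1 p3 = true)
    (n10 : T.X p0 p3 p2 p4 = false)
    (n13 : T.X p1 p3 p2 p4 = false) : False := by
  have h2 := h
  unfold Table.OkA0 at h2
  rw [n1, n8, n10, n13] at h2
  exact bcA0_9474_256 _ _ _ _ _ _ _ _ _ _ _ h2

theorem bcA0_10241_10240 : ∀ b1 b2 b3 b4 b5 b6 b7 b8 b9 b10 b12 b14 : Bool,
    okA0 false b1 b2 b3 b4 b5 b6 b7 b8 b9 b10 true b12 true b14 = true → False := by
  decide +kernel

theorem cA0_10241_10240 {p0 p1 p2 p3 p4 : V} (h : T.OkA0 p0 p1 p2 p3 p4)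
    (n0 : T.X p0 p1 p2 p3 = false)
    (n11 : T.X p0 p4 p2 p3 = true)
    (n13 : T.X p1 p3 p2 p4 = true) : False := by
  have h2 := h
  unfold Table.OkA0 at h2
  rw [n0, n11, n13] at h2
  exact bcA0_10241_10240 _ _ _ _ _ _ _ _ _ _ _ _ h2

theorem bcA0_16642_16640 : ∀ b0 b2 b3 b4 b5 b6 b7 b9 b10 b11 b12 b13 : Bool,
    okA0 b0 false b2 b3 b4 b5 b6 b7 true b9 b10 b11 b12 b13 true = true → False := by
  decide +kernel

theorem cA0_16642_16640 {p0 p1 p2 p3 p4 : V} (h : T.OkA0 p0 p1 p2 p3 p4)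
    (n1 : T.X p0 p2 p1 p3 = false)
    (n8 : T.X p0 p4 p1 p3 = true)
    (n14 : T.X p1 p4 p2 p3 = true) : False := by
  have h2 := h
  unfold Table.OkA0 at h2
  rw [n1, n8, n14] at h2
  exact bcA0_16642_16640 _ _ _ _ _ _ _ _ _ _ _ _ h2

theorem bcA0_17416_16392 : ∀ b0 b1 b2 b4 b5 b6 b7 b8 b9 b11 b12 b13 : Bool,
    okA0 b0 b1 b2 true b4 b5 b6 b7 b8 b9 false b11 b12 b13 true = true → False := by
  decide +kernel

theorem cA0_17416_16392 {p0 p1 p2 p3 p4 : V} (h : T.OkA0 p0 p1 p2 p3 p4)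
    (n3 : T.X p0 p1 p2 p4 = true)
    (n10 : T.X p0 p3 p2 p4 = false)
    (n14 : T.X p1 p4 p2 p3 = true) : False := by
  have h2 := h
  unfold Table.OkA0 at h2
  rw [n3, n10, n14] at h2
  exact bcA0_17416_16392 _ _ _ _ _ _ _ _ _ _ _ _ h2

theorem bcA0_18434_2050 : ∀ b0 b2 b3 b4 b5 b6 b7 b8 b9 b10 b12 b13 : Bool,
    okA0 b0 true b2 b3 b4 b5 b6 b7 b8 b9 b10 true b12 b13 false = true → False := by
  decide +kernel

theorem cA0_18434_2050 {p0 p1 p2 p3 p4 : V} (h : T.OkA0 p0 p1 p2 p3 p4)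
    (n1 : T.X p0 p2 p1 p3 = true)
    (n11 : T.X p0 p4 p2 p3 = true)
    (n14 : T.X p1 p4 p2 p3 = false) : False := by
  have h2 := h
  unfold Table.OkA0 at h2
  rw [n1, n11, n14] at h2
  exact bcA0_18434_2050 _ _ _ _ _ _ _ _ _ _ _ _ h2

theorem bcA0_18448_2064 : ∀ b0 b1 b2 b3 b5 b6 b7 b8 b9 b10 b12 b13 : Bool,
    okA0 b0 b1 b2 b3 true b5 b6 b7 b8 b9 b10 true b12 b13 false = true → False := by
  decide +kernel

theorem cA0_18448_2064 {p0 p1 p2 p3 p4 : V} (h : T.OkA0 p0 p1 p2 p3 p4)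
    (n4 : T.X p0 p2 p1 p4 = true)
    (n11 : T.X p0 p4 p2 p3 = true)
    (n14 : T.X p1 p4 p2 p3 = false) : False := by
  have h2 := h
  unfold Table.OkA0 at h2
  rw [n4, n11, n14] at h2
  exact bcA0_18448_2064 _ _ _ _ _ _ _ _ _ _ _ _ h2

theorem bcA0_18561_2048 : ∀ b1 b2 b3 b4 b5 b6 b8 b9 b10 b12 b13 : Bool,
    okA0 false b1 b2 b3 b4 b5 b6 false b8 b9 b10 true b12 b13 false = true → False := by
  decide +kernel

theorem cA0_18561_2048 {p0 p1 p2 p3 p4 : V} (h : T.OkA0 p0 p1 p2 p3 p4)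
    (n0 : T.X p0 p1 p2 p3 = false)
    (n7 : T.X p0 p3 p1 p4 = false)
    (n11 : T.X p0 p4 p2 p3 = true)
    (n14 : T.X p1 p4 p2 p3 = false) : False := by
  have h2 := h
  unfold Table.OkA0 at h2
  rw [n0, n7, n11, n14] at h2
  exact bcA0_18561_2048 _ _ _ _ _ _ _ _ _ _ _ h2

theorem bcA0_18689_2304 : ∀ b1 b2 b3 b4 b5 b6 b7 b9 b10 b12 b13 : Bool,
    okA0 false b1 b2 b3 b4 b5 b6 b7 true b9 b10 true b12 b13 false = true → False := by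
  decide +kernel

theorem cA0_18689_2304 {p0 p1 p2 p3 p4 : V} (h : T.OkA0 p0 p1 p2 p3 p4)
    (n0 : T.X p0 p1 p2 p3 = false)
    (n8 : T.X p0 p4 p1 p3 = true)
    (n11 : T.X p0 p4 p2 p3 = true)
    (n14 : T.X p1 p4 p2 p3 = false) : False := by
  have h2 := h
  unfold Table.OkA0 at h2
  rw [n0, n8, n11, n14] at h2
  exact bcA0_18689_2304 _ _ _ _ _ _ _ _ _ _ _ h2

theorem bcA2_290_34 : ∀ b0 b2 b3 b4 b6 b7 b9 b10 b11 b12 b13 b14 : Bool,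
    okA2 b0 true b2 b3 b4 true b6 b7 false b9 b10 b11 b12 b13 b14 = true → False := by
  decide +kernel

theorem cA2_290_34 {p0 p1 p2 p3 p4 : V} (h : T.OkA2 p0 p1 p2 p3 p4)
    (n1 : T.X p0 p2 p1 p3 = true)
    (n5 : T.X p0 p4 p1 p2 = true)
    (n8 : T.X p0 p4 p1 p3 = false) : False := by
  have h2 := h
  unfold Table.OkA2 at h2
  rw [n1, n5, n8] at h2
  exact bcA2_290_34 _ _ _ _ _ _ _ _ _ _ _ _ h2

theorem bcA2_292_260 : ∀ b0 b1 b3 b4 b6 b7 b9 b10 b11 b12 b13 b14 : Bool,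
    okA2 b0 b1 true b3 b4 false b6 b7 true b9 b10 b11 b12 b13 b14 = true → False := by
  decide +kernel

theorem cA2_292_260 {p0 p1 p2 p3 p4 : V} (h : T.OkA2 p0 p1 p2 p3 p4)
    (n2 : T.X p0 p3 p1 p2 = true)
    (n5 : T.X p0 p4 p1 p2 = false)
    (n8 : T.X p0 p4 p1 p3 = true) : False := by
  have h2 := h
  unfold Table.OkA2 at h2
  rw [n2, n5, n8] at h2
  exact bcA2_292_260 _ _ _ _ _ _ _ _ _ _ _ _ h2

theorem bcA2_578_66 : ∀ b0 b2 b3 b4 b5 b7 b8 b10 b11 b12 b13 b14 : Bool,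
    okA2 b0 true b2 b3 b4 b5 true b7 b8 false b10 b11 b12 b13 b14 = true → False := by
  decide +kernel

theorem cA2_578_66 {p0 p1 p2 p3 p4 : V} (h : T.OkA2 p0 p1 p2 p3 p4)
    (n1 : T.X p0 p2 p1 p3 = true)
    (n6 : T.X p0 p1 p3 p4 = true)
    (n9 : T.X p0 p2 p3 p4 = false) : False := by
  have h2 := h
  unfold Table.OkA2 at h2
  rw [n1, n6, n9] at h2
  exact bcA2_578_66 _ _ _ _ _ _ _ _ _ _ _ _ h2

theorem bcA2_592_80 : ∀ b0 b1 b2 b3 b5 b7 b8 b10 b11 b12 b13 b14 : Bool,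
    okA2 b0 b1 b2 b3 true b5 true b7 b8 false b10 b11 b12 b13 b14 = true → False := by
  decide +kernel

theorem cA2_592_80 {p0 p1 p2 p3 p4 : V} (h : T.OkA2 p0 p1 p2 p3 p4)
    (n4 : T.X p0 p2 p1 p4 = true)
    (n6 : T.X p0 p1 p3 p4 = true)
    (n9 : T.X p0 p2 p3 p4 = false) : False := by
  have h2 := h
  unfold Table.OkA2 at h2
  rw [n4, n6, n9] at h2
  exact bcA2_592_80 _ _ _ _ _ _ _ _ _ _ _ _ h2

theorem bcA2_770_768 : ∀ b0 b2 b3 b4 b5 b6 b7 b10 b11 b12 b13 b14 : Bool,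
    okA2 b0 false b2 b3 b4 b5 b6 b7 true true b10 b11 b12 b13 b14 = true → False := by
  decide +kernel

theorem cA2_770_768 {p0 p1 p2 p3 p4 : V} (h : T.OkA2 p0 p1 p2 p3 p4)
    (n1 : T.X p0 p2 p1 p3 = false)
    (n8 : T.X p0 p4 p1 p3 = true)
    (n9 : T.X p0 p2 p3 p4 = true) : False := by
  have h2 := h
  unfold Table.OkA2 at h2
  rw [n1, n8, n9] at h2
  exact bcA2_770_768 _ _ _ _ _ _ _ _ _ _ _ _ h2

theorem bcA2_1036_12 : ∀ b0 b1 b4 b5 b6 b7 b8 b9 b11 b12 b13 b14 : Bool,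
    okA2 b0 b1 true true b4 b5 b6 b7 b8 b9 false b11 b12 b13 b14 = true → False := by
  decide +kernel

theorem cA2_1036_12 {p0 p1 p2 p3 p4 : V} (h : T.OkA2 p0 p1 p2 p3 p4)
    (n2 : T.X p0 p3 p1 p2 = true)
    (n3 : T.X p0 p1 p2 p4 = true)
    (n10 : T.X p0 p3 p2 p4 = false) : False := by
  have h2 := h
  unfold Table.OkA2 at h2
  rw [n2, n3, n10] at h2
  exact bcA2_1036_12 _ _ _ _ _ _ _ _ _ _ _ _ h2

theorem bcA2_1089_1088 : ∀ b1 b2 b3 b4 b5 b7 b8 b9 b11 b12 b13 b14 : Bool,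
    okA2 false b1 b2 b3 b4 b5 true b7 b8 b9 true b11 b12 b13 b14 = true → False := by
  decide +kernel

theorem cA2_1089_1088 {p0 p1 p2 p3 p4 : V} (h : T.OkA2 p0 p1 p2 p3 p4)
    (n0 : T.X p0 p1 p2 p3 = false)
    (n6 : T.X p0 p1 p3 p4 = true)
    (n10 : T.X p0 p3 p2 p4 = true) : False := by
  have h2 := h
  unfold Table.OkA2 at h2
  rw [n0, n6, n10] at h2
  exact bcA2_1089_1088 _ _ _ _ _ _ _ _ _ _ _ _ h2

theorem bcA2_1284_1284 : ∀ b0 b1 b3 b4 b5 b6 b7 b9 b11 b12 b13 b14 : Bool,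
    okA2 b0 b1 true b3 b4 b5 b6 b7 true b9 true b11 b12 b13 b14 = true → False := by
  decide +kernel

theorem cA2_1284_1284 {p0 p1 p2 p3 p4 : V} (h : T.OkA2 p0 p1 p2 p3 p4)
    (n2 : T.X p0 p3 p1 p2 = true)
    (n8 : T.X p0 p4 p1 p3 = true)
    (n10 : T.X p0 p3 p2 p4 = true) : False := by
  have h2 := h
  unfold Table.OkA2 at h2
  rw [n2, n8, n10] at h2
  exact bcA2_1284_1284 _ _ _ _ _ _ _ _ _ _ _ _ h2

theorem bcA2_2084_2052 : ∀ b0 b1 b3 b4 b6 b7 b8 b9 b10 b12 b13 b14 : Bool,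
    okA2 b0 b1 true b3 b4 false b6 b7 b8 b9 b10 true b12 b13 b14 = true → False := by
  decide +kernel

theorem cA2_2084_2052 {p0 p1 p2 p3 p4 : V} (h : T.OkA2 p0 p1 p2 p3 p4)
    (n2 : T.X p0 p3 p1 p2 = true)
    (n5 : T.X p0 p4 p1 p2 = false)
    (n11 : T.X p0 p4 p2 p3 = true) : False := by
  have h2 := h
  unfold Table.OkA2 at h2
  rw [n2, n5, n11] at h2
  exact bcA2_2084_2052 _ _ _ _ _ _ _ _ _ _ _ _ h2

theorem bcA2_2306_2050 : ∀ b0 b2 b3 b4 b5 b6 b7 b9 b10 b12 b13 b14 : Bool,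
    okA2 b0 true b2 b3 b4 b5 b6 b7 false b9 b10 true b12 b13 b14 = true → False := by
  decide +kernel

theorem cA2_2306_2050 {p0 p1 p2 p3 p4 : V} (h : T.OkA2 p0 p1 p2 p3 p4)
    (n1 : T.X p0 p2 p1 p3 = true)
    (n8 : T.X p0 p4 p1 p3 = false)
    (n11 : T.X p0 p4 p2 p3 = true) : False := by
  have h2 := h
  unfold Table.OkA2 at h2
  rw [n1, n8, n11] at h2
  exact bcA2_2306_2050 _ _ _ _ _ _ _ _ _ _ _ _ h2

theorem bcA2_2308_260 : ∀ b0 b1 b3 b4 b5 b6 b7 b9 b10 b12 b13 b14 : Bool,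
    okA2 b0 b1 true b3 b4 b5 b6 b7 true b9 b10 false b12 b13 b14 = true → False := by
  decide +kernel

theorem cA2_2308_260 {p0 p1 p2 p3 p4 : V} (h : T.OkA2 p0 p1 p2 p3 p4)
    (n2 : T.X p0 p3 p1 p2 = true)
    (n8 : T.X p0 p4 p1 p3 = true)
    (n11 : T.X p0 p4 p2 p3 = false) : False := by
  have h2 := h
  unfold Table.OkA2 at h2
  rw [n2, n8, n11] at h2
  exact bcA2_2308_260 _ _ _ _ _ _ _ _ _ _ _ _ h2

theorem bcA2_2369_2049 : ∀ b1 b2 b3 b4 b5 b7 b9 b10 b12 b13 b14 : Bool,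
    okA2 true b1 b2 b3 b4 b5 false b7 false b9 b10 true b12 b13 b14 = true → False := by
  decide +kernel

theorem cA2_2369_2049 {p0 p1 p2 p3 p4 : V} (h : T.OkA2 p0 p1 p2 p3 p4)
    (n0 : T.X p0 p1 p2 p3 = true)
    (n6 : T.X p0 p1 p3 p4 = false)
    (n8 : T.X p0 p4 p1 p3 = false)
    (n11 : T.X p0 p4 p2 p3 = true) : False := by
  have h2 := h
  unfold Table.OkA2 at h2
  rw [n0, n6, n8, n11] at h2
  exact bcA2_2369_2049 _ _ _ _ _ _ _ _ _ _ _ h2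

theorem bcA2_2625_64 : ∀ b1 b2 b3 b4 b5 b7 b8 b10 b12 b13 b14 : Bool,
    okA2 false b1 b2 b3 b4 b5 true b7 b8 false b10 false b12 b13 b14 = true → False := by
  decide +kernel

theorem cA2_2625_64 {p0 p1 p2 p3 p4 : V} (h : T.OkA2 p0 p1 p2 p3 p4)
    (n0 : T.X p0 p1 p2 p3 = false)
    (n6 : T.X p0 p1 p3 p4 = true)
    (n9 : T.X p0 p2 p3 p4 = false)
    (n11 : T.X p0 p4 p2 p3 = false) : False := by
  have h2 := h
  unfold Table.OkA2 at h2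
  rw [n0, n6, n9, n11] at h2
  exact bcA2_2625_64 _ _ _ _ _ _ _ _ _ _ _ h2

theorem bcA2_4640_544 : ∀ b0 b1 b2 b3 b4 b6 b7 b8 b10 b11 b13 b14 : Bool,
    okA2 b0 b1 b2 b3 b4 true b6 b7 b8 true b10 b11 false b13 b14 = true → False := by
  decide +kernel

theorem cA2_4640_544 {p0 p1 p2 p3 p4 : V} (h : T.OkA2 p0 p1 p2 p3 p4)
    (n5 : T.X p0 p4 p1 p2 = true)
    (n9 : T.X p0 p2 p3 p4 = true)
    (n12 : T.X p1 p2 p3 p4 = false) : False := by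
  have h2 := h
  unfold Table.OkA2 at h2
  rw [n5, n9, n12] at h2
  exact bcA2_4640_544 _ _ _ _ _ _ _ _ _ _ _ _ h2

theorem bcA2_4644_4 : ∀ b0 b1 b3 b4 b6 b7 b8 b10 b11 b13 b14 : Bool,
    okA2 b0 b1 true b3 b4 false b6 b7 b8 false b10 b11 false b13 b14 = true → False := by
  decide +kernel

theorem cA2_4644_4 {p0 p1 p2 p3 p4 : V} (h : T.OkA2 p0 p1 p2 p3 p4)
    (n2 : T.X p0 p3 p1 p2 = true)
    (n5 : T.X p0 p4 p1 p2 = false)
    (n9 : T.X p0 p2 p3 p4 = false)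
    (n12 : T.X p1 p2 p3 p4 = false) : False := by
  have h2 := h
  unfold Table.OkA2 at h2
  rw [n2, n5, n9, n12] at h2
  exact bcA2_4644_4 _ _ _ _ _ _ _ _ _ _ _ h2

theorem bcA2_4676_512 : ∀ b0 b1 b3 b4 b5 b7 b8 b10 b11 b13 b14 : Bool,
    okA2 b0 b1 false b3 b4 b5 false b7 b8 true b10 b11 false b13 b14 = true → False := by
  decide +kernel

theorem cA2_4676_512 {p0 p1 p2 p3 p4 : V} (h : T.OkA2 p0 p1 p2 p3 p4)
    (n2 : T.X p0 p3 p1 p2 = false)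
    (n6 : T.X p0 p1 p3 p4 = false)
    (n9 : T.X p0 p2 p3 p4 = true)
    (n12 : T.X p1 p2 p3 p4 = false) : False := by
  have h2 := h
  unfold Table.OkA2 at h2
  rw [n2, n6, n9, n12] at h2
  exact bcA2_4676_512 _ _ _ _ _ _ _ _ _ _ _ h2

theorem bcA2_4704_64 : ∀ b0 b1 b2 b3 b4 b7 b8 b10 b11 b13 b14 : Bool,
    okA2 b0 b1 b2 b3 b4 false true b7 b8 false b10 b11 false b13 b14 = true → False := by
  decide +kernel

theorem cA2_4704_64 {p0 p1 p2 p3 p4 : V} (h : T.OkA2 p0 p1 p2 p3 p4)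
    (n5 : T.X p0 p4 p1 p2 = false)
    (n6 : T.X p0 p1 p3 p4 = true)
    (n9 : T.X p0 p2 p3 p4 = false)
    (n12 : T.X p1 p2 p3 p4 = false) : False := by
  have h2 := h
  unfold Table.OkA2 at h2
  rw [n5, n6, n9, n12] at h2
  exact bcA2_4704_64 _ _ _ _ _ _ _ _ _ _ _ h2

theorem bcA2_4708_4096 : ∀ b0 b1 b3 b4 b7 b8 b10 b11 b13 b14 : Bool,
    okA2 b0 b1 false b3 b4 false false b7 b8 false b10 b11 true b13 b14 = true → False := by
  decide +kernel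

theorem cA2_4708_4096 {p0 p1 p2 p3 p4 : V} (h : T.OkA2 p0 p1 p2 p3 p4)
    (n2 : T.X p0 p3 p1 p2 = false)
    (n5 : T.X p0 p4 p1 p2 = false)
    (n6 : T.X p0 p1 p3 p4 = false)
    (n9 : T.X p0 p2 p3 p4 = false)
    (n12 : T.X p1 p2 p3 p4 = true) : False := by
  have h2 := h
  unfold Table.OkA2 at h2
  rw [n2, n5, n6, n9, n12] at h2
  exact bcA2_4708_4096 _ _ _ _ _ _ _ _ _ _ h2

theorem bcA2_4708_4132 : ∀ b0 b1 b3 b4 b7 b8 b10 b11 b13 b14 : Bool,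
    okA2 b0 b1 true b3 b4 true false b7 b8 false b10 b11 true b13 b14 = true → False := by
  decide +kernel

theorem cA2_4708_4132 {p0 p1 p2 p3 p4 : V} (h : T.OkA2 p0 p1 p2 p3 p4)
    (n2 : T.X p0 p3 p1 p2 = true)
    (n5 : T.X p0 p4 p1 p2 = true)
    (n6 : T.X p0 p1 p3 p4 = false)
    (n9 : T.X p0 p2 p3 p4 = false)
    (n12 : T.X p1 p2 p3 p4 = true) : False := by
  have h2 := h
  unfold Table.OkA2 at h2
  rw [n2, n5, n6, n9, n12] at h2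
  exact bcA2_4708_4132 _ _ _ _ _ _ _ _ _ _ h2

theorem bcA2_5128_5120 : ∀ b0 b1 b2 b4 b5 b6 b7 b8 b9 b11 b13 b14 : Bool,
    okA2 b0 b1 b2 false b4 b5 b6 b7 b8 b9 true b11 true b13 b14 = true → False := by
  decide +kernel

theorem cA2_5128_5120 {p0 p1 p2 p3 p4 : V} (h : T.OkA2 p0 p1 p2 p3 p4)
    (n3 : T.X p0 p1 p2 p4 = false)
    (n10 : T.X p0 p3 p2 p4 = true)
    (n12 : T.X p1 p2 p3 p4 = true) : False := by
  have h2 := h
  unfold Table.OkA2 at h2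
  rw [n3, n10, n12] at h2
  exact bcA2_5128_5120 _ _ _ _ _ _ _ _ _ _ _ _ h2

theorem bcA2_8228_8196 : ∀ b0 b1 b3 b4 b6 b7 b8 b9 b10 b11 b12 b14 : Bool,
    okA2 b0 b1 true b3 b4 false b6 b7 b8 b9 b10 b11 b12 true b14 = true → False := by
  decide +kernel

theorem cA2_8228_8196 {p0 p1 p2 p3 p4 : V} (h : T.OkA2 p0 p1 p2 p3 p4)
    (n2 : T.X p0 p3 p1 p2 = true)
    (n5 : T.X p0 p4 p1 p2 = false)
    (n13 : T.X p1 p3 p2 p4 = true) : False := by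
  have h2 := h
  unfold Table.OkA2 at h2
  rw [n2, n5, n13] at h2
  exact bcA2_8228_8196 _ _ _ _ _ _ _ _ _ _ _ _ h2

theorem bcA2_8452_260 : ∀ b0 b1 b3 b4 b5 b6 b7 b9 b10 b11 b12 b14 : Bool,
    okA2 b0 b1 true b3 b4 b5 b6 b7 true b9 b10 b11 b12 false b14 = true → False := by
  decide +kernel

theorem cA2_8452_260 {p0 p1 p2 p3 p4 : V} (h : T.OkA2 p0 p1 p2 p3 p4)
    (n2 : T.X p0 p3 p1 p2 = true)
    (n8 : T.X p0 p4 p1 p3 = true)
    (n13 : T.X p1 p3 p2 p4 = false) : False := by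
  have h2 := h
  unfold Table.OkA2 at h2
  rw [n2, n8, n13] at h2
  exact bcA2_8452_260 _ _ _ _ _ _ _ _ _ _ _ _ h2

theorem bcA2_8458_256 : ∀ b0 b2 b4 b5 b6 b7 b9 b10 b11 b12 b14 : Bool,
    okA2 b0 false b2 false b4 b5 b6 b7 true b9 b10 b11 b12 false b14 = true → False := by
  decide +kernel

theorem cA2_8458_256 {p0 p1 p2 p3 p4 : V} (h : T.OkA2 p0 p1 p2 p3 p4)
    (n1 : T.X p0 p2 p1 p3 = false)
    (n3 : T.X p0 p1 p2 p4 = false)
    (n8 : T.X p0 p4 p1 p3 = true)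
    (n13 : T.X p1 p3 p2 p4 = false) : False := by
  have h2 := h
  unfold Table.OkA2 at h2
  rw [n1, n3, n8, n13] at h2
  exact bcA2_8458_256 _ _ _ _ _ _ _ _ _ _ _ h2

theorem bcA2_8580_8196 : ∀ b0 b1 b3 b4 b5 b6 b9 b10 b11 b12 b14 : Bool,
    okA2 b0 b1 true b3 b4 b5 b6 false false b9 b10 b11 b12 true b14 = true → False := by
  decide +kernel

theorem cA2_8580_8196 {p0 p1 p2 p3 p4 : V} (h : T.OkA2 p0 p1 p2 p3 p4)
    (n2 : T.X p0 p3 p1 p2 = true)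
    (n7 : T.X p0 p3 p1 p4 = false)
    (n8 : T.X p0 p4 p1 p3 = false)
    (n13 : T.X p1 p3 p2 p4 = true) : False := by
  have h2 := h
  unfold Table.OkA2 at h2
  rw [n2, n7, n8, n13] at h2
  exact bcA2_8580_8196 _ _ _ _ _ _ _ _ _ _ _ h2

theorem bcA2_9248_1056 : ∀ b0 b1 b2 b3 b4 b6 b7 b8 b9 b11 b12 b14 : Bool,
    okA2 b0 b1 b2 b3 b4 true b6 b7 b8 b9 true b11 b12 false b14 = true → False := by
  decide +kernel

theorem cA2_9248_1056 {p0 p1 p2 p3 p4 : V} (h : T.OkA2 p0 p1 p2 p3 p4)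
    (n5 : T.X p0 p4 p1 p2 = true)
    (n10 : T.X p0 p3 p2 p4 = true)
    (n13 : T.X p1 p3 p2 p4 = false) : False := by
  have h2 := h
  unfold Table.OkA2 at h2
  rw [n5, n10, n13] at h2
  exact bcA2_9248_1056 _ _ _ _ _ _ _ _ _ _ _ _ h2

theorem bcA2_18448_2064 : ∀ b0 b1 b2 b3 b5 b6 b7 b8 b9 b10 b12 b13 : Bool,
    okA2 b0 b1 b2 b3 true b5 b6 b7 b8 b9 b10 true b12 b13 false = true → False := by
  decide +kernel

theorem cA2_18448_2064 {p0 p1 p2 p3 p4 : V} (h : T.OkA2 p0 p1 p2 p3 p4)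
    (n4 : T.X p0 p2 p1 p4 = true)
    (n11 : T.X p0 p4 p2 p3 = true)
    (n14 : T.X p1 p4 p2 p3 = false) : False := by
  have h2 := h
  unfold Table.OkA2 at h2
  rw [n4, n11, n14] at h2
  exact bcA2_18448_2064 _ _ _ _ _ _ _ _ _ _ _ _ h2

theorem bcA2_18560_2176 : ∀ b0 b1 b2 b3 b4 b5 b6 b8 b9 b10 b12 b13 : Bool,
    okA2 b0 b1 b2 b3 b4 b5 b6 true b8 b9 b10 true b12 b13 false = true → False := by
  decide +kernel

theorem cA2_18560_2176 {p0 p1 p2 p3 p4 : V} (h : T.OkA2 p0 p1 p2 p3 p4)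
    (n7 : T.X p0 p3 p1 p4 = true)
    (n11 : T.X p0 p4 p2 p3 = true)
    (n14 : T.X p1 p4 p2 p3 = false) : False := by
  have h2 := h
  unfold Table.OkA2 at h2
  rw [n7, n11, n14] at h2
  exact bcA2_18560_2176 _ _ _ _ _ _ _ _ _ _ _ _ h2

theorem bcA2_18577_0 : ∀ b1 b2 b3 b5 b6 b8 b9 b10 b12 b13 : Bool,
    okA2 false b1 b2 b3 false b5 b6 false b8 b9 b10 false b12 b13 false = true → False := by
  decide +kernel

theorem cA2_18577_0 {p0 p1 p2 p3 p4 : V} (h : T.OkA2 p0 p1 p2 p3 p4)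
    (n0 : T.X p0 p1 p2 p3 = false)
    (n4 : T.X p0 p2 p1 p4 = false)
    (n7 : T.X p0 p3 p1 p4 = false)
    (n11 : T.X p0 p4 p2 p3 = false)
    (n14 : T.X p1 p4 p2 p3 = false) : False := by
  have h2 := h
  unfold Table.OkA2 at h2
  rw [n0, n4, n7, n11, n14] at h2
  exact bcA2_18577_0 _ _ _ _ _ _ _ _ _ _ h2

theorem bcg_1_1 : ∀ b1 b2 b3 b4 b5 b6 b7 b8 b9 b10 b11 b12 b13 b14 : Bool,
    okg true b1 b2 b3 b4 b5 b6 b7 b8 b9 b10 b11 b12 b13 b14 = true → False := by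
  decide +kernel

theorem cg_1_1 {p0 p1 p2 p3 p4 : V} (h : T.Okg p0 p1 p2 p3 p4)
    (n0 : T.X p0 p1 p2 p3 = true) : False := by
  have h2 := h
  unfold Table.Okg at h2
  rw [n0] at h2
  exact bcg_1_1 _ _ _ _ _ _ _ _ _ _ _ _ _ _ h2

theorem bcg_2_2 : ∀ b0 b2 b3 b4 b5 b6 b7 b8 b9 b10 b11 b12 b13 b14 : Bool,
    okg b0 true b2 b3 b4 b5 b6 b7 b8 b9 b10 b11 b12 b13 b14 = true → False := by
  decide +kernel

theorem cg_2_2 {p0 p1 p2 p3 p4 : V} (h : T.Okg p0 p1 p2 p3 p4)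
    (n1 : T.X p0 p2 p1 p3 = true) : False := by
  have h2 := h
  unfold Table.Okg at h2
  rw [n1] at h2
  exact bcg_2_2 _ _ _ _ _ _ _ _ _ _ _ _ _ _ h2

theorem bcg_4_0 : ∀ b0 b1 b3 b4 b5 b6 b7 b8 b9 b10 b11 b12 b13 b14 : Bool,
    okg b0 b1 false b3 b4 b5 b6 b7 b8 b9 b10 b11 b12 b13 b14 = true → False := by
  decide +kernel

theorem cg_4_0 {p0 p1 p2 p3 p4 : V} (h : T.Okg p0 p1 p2 p3 p4)
    (n2 : T.X p0 p3 p1 p2 = false) : False := by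
  have h2 := h
  unfold Table.Okg at h2
  rw [n2] at h2
  exact bcg_4_0 _ _ _ _ _ _ _ _ _ _ _ _ _ _ h2

theorem bcg_40_40 : ∀ b0 b1 b2 b4 b6 b7 b8 b9 b10 b11 b12 b13 b14 : Bool,
    okg b0 b1 b2 true b4 true b6 b7 b8 b9 b10 b11 b12 b13 b14 = true → False := by
  decide +kernel

theorem cg_40_40 {p0 p1 p2 p3 p4 : V} (h : T.Okg p0 p1 p2 p3 p4)
    (n3 : T.X p0 p1 p2 p4 = true)
    (n5 : T.X p0 p4 p1 p2 = true) : False := by
  have h2 := h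
  unfold Table.Okg at h2
  rw [n3, n5] at h2
  exact bcg_40_40 _ _ _ _ _ _ _ _ _ _ _ _ _ h2

theorem bcg_272_272 : ∀ b0 b1 b2 b3 b5 b6 b7 b9 b10 b11 b12 b13 b14 : Bool,
    okg b0 b1 b2 b3 true b5 b6 b7 true b9 b10 b11 b12 b13 b14 = true → False := by
  decide +kernel

theorem cg_272_272 {p0 p1 p2 p3 p4 : V} (h : T.Okg p0 p1 p2 p3 p4)
    (n4 : T.X p0 p2 p1 p4 = true)
    (n8 : T.X p0 p4 p1 p3 = true) : False := by
  have h2 := h
  unfold Table.Okg at h2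
  rw [n4, n8] at h2
  exact bcg_272_272 _ _ _ _ _ _ _ _ _ _ _ _ _ h2

theorem bcg_320_320 : ∀ b0 b1 b2 b3 b4 b5 b7 b9 b10 b11 b12 b13 b14 : Bool,
    okg b0 b1 b2 b3 b4 b5 true b7 true b9 b10 b11 b12 b13 b14 = true → False := by
  decide +kernel

theorem cg_320_320 {p0 p1 p2 p3 p4 : V} (h : T.Okg p0 p1 p2 p3 p4)
    (n6 : T.X p0 p1 p3 p4 = true)
    (n8 : T.X p0 p4 p1 p3 = true) : False := by
  have h2 := h
  unfold Table.Okg at h2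
  rw [n6, n8] at h2
  exact bcg_320_320 _ _ _ _ _ _ _ _ _ _ _ _ _ h2

theorem bcg_384_384 : ∀ b0 b1 b2 b3 b4 b5 b6 b9 b10 b11 b12 b13 b14 : Bool,
    okg b0 b1 b2 b3 b4 b5 b6 true true b9 b10 b11 b12 b13 b14 = true → False := by
  decide +kernel

theorem cg_384_384 {p0 p1 p2 p3 p4 : V} (h : T.Okg p0 p1 p2 p3 p4)
    (n7 : T.X p0 p3 p1 p4 = true)
    (n8 : T.X p0 p4 p1 p3 = true) : False := by
  have h2 := h
  unfold Table.Okg at h2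
  rw [n7, n8] at h2
  exact bcg_384_384 _ _ _ _ _ _ _ _ _ _ _ _ _ h2

theorem bcg_768_768 : ∀ b0 b1 b2 b3 b4 b5 b6 b7 b10 b11 b12 b13 b14 : Bool,
    okg b0 b1 b2 b3 b4 b5 b6 b7 true true b10 b11 b12 b13 b14 = true → False := by
  decide +kernel

theorem cg_768_768 {p0 p1 p2 p3 p4 : V} (h : T.Okg p0 p1 p2 p3 p4)
    (n8 : T.X p0 p4 p1 p3 = true)
    (n9 : T.X p0 p2 p3 p4 = true) : False := by
  have h2 := h
  unfold Table.Okg at h2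
  rw [n8, n9] at h2
  exact bcg_768_768 _ _ _ _ _ _ _ _ _ _ _ _ _ h2

theorem bcg_1288_264 : ∀ b0 b1 b2 b4 b5 b6 b7 b9 b11 b12 b13 b14 : Bool,
    okg b0 b1 b2 true b4 b5 b6 b7 true b9 false b11 b12 b13 b14 = true → False := by
  decide +kernel

theorem cg_1288_264 {p0 p1 p2 p3 p4 : V} (h : T.Okg p0 p1 p2 p3 p4)
    (n3 : T.X p0 p1 p2 p4 = true)
    (n8 : T.X p0 p4 p1 p3 = true)
    (n10 : T.X p0 p3 p2 p4 = false) : False := by
  have h2 := h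
  unfold Table.Okg at h2
  rw [n3, n8, n10] at h2
  exact bcg_1288_264 _ _ _ _ _ _ _ _ _ _ _ _ h2

theorem bcg_2336_288 : ∀ b0 b1 b2 b3 b4 b6 b7 b9 b10 b12 b13 b14 : Bool,
    okg b0 b1 b2 b3 b4 true b6 b7 true b9 b10 false b12 b13 b14 = true → False := by
  decide +kernel

theorem cg_2336_288 {p0 p1 p2 p3 p4 : V} (h : T.Okg p0 p1 p2 p3 p4)
    (n5 : T.X p0 p4 p1 p2 = true)
    (n8 : T.X p0 p4 p1 p3 = true)
    (n11 : T.X p0 p4 p2 p3 = false) : False := by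
  have h2 := h
  unfold Table.Okg at h2
  rw [n5, n8, n11] at h2
  exact bcg_2336_288 _ _ _ _ _ _ _ _ _ _ _ _ h2

theorem bcg_4352_4352 : ∀ b0 b1 b2 b3 b4 b5 b6 b7 b9 b10 b11 b13 b14 : Bool,
    okg b0 b1 b2 b3 b4 b5 b6 b7 true b9 b10 b11 true b13 b14 = true → False := by
  decide +kernel

theorem cg_4352_4352 {p0 p1 p2 p3 p4 : V} (h : T.Okg p0 p1 p2 p3 p4)
    (n8 : T.X p0 p4 p1 p3 = true)
    (n12 : T.X p1 p2 p3 p4 = true) : False := by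
  have h2 := h
  unfold Table.Okg at h2
  rw [n8, n12] at h2
  exact bcg_4352_4352 _ _ _ _ _ _ _ _ _ _ _ _ _ h2

theorem bcg_6176_6144 : ∀ b0 b1 b2 b3 b4 b6 b7 b8 b9 b10 b13 b14 : Bool,
    okg b0 b1 b2 b3 b4 false b6 b7 b8 b9 b10 true true b13 b14 = true → False := by
  decide +kernel

theorem cg_6176_6144 {p0 p1 p2 p3 p4 : V} (h : T.Okg p0 p1 p2 p3 p4)
    (n5 : T.X p0 p4 p1 p2 = false)
    (n11 : T.X p0 p4 p2 p3 = true)
    (n12 : T.X p1 p2 p3 p4 = true) : False := by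
  have h2 := h
  unfold Table.Okg at h2
  rw [n5, n11, n12] at h2
  exact bcg_6176_6144 _ _ _ _ _ _ _ _ _ _ _ _ h2

theorem bcg_9248_1056 : ∀ b0 b1 b2 b3 b4 b6 b7 b8 b9 b11 b12 b14 : Bool,
    okg b0 b1 b2 b3 b4 true b6 b7 b8 b9 true b11 b12 false b14 = true → False := by
  decide +kernel

theorem cg_9248_1056 {p0 p1 p2 p3 p4 : V} (h : T.Okg p0 p1 p2 p3 p4)
    (n5 : T.X p0 p4 p1 p2 = true)
    (n10 : T.X p0 p3 p2 p4 = true)
    (n13 : T.X p1 p3 p2 p4 = false) : False := by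
  have h2 := h
  unfold Table.Okg at h2
  rw [n5, n10, n13] at h2
  exact bcg_9248_1056 _ _ _ _ _ _ _ _ _ _ _ _ h2

theorem bcg_9472_256 : ∀ b0 b1 b2 b3 b4 b5 b6 b7 b9 b11 b12 b14 : Bool,
    okg b0 b1 b2 b3 b4 b5 b6 b7 true b9 false b11 b12 false b14 = true → False := by
  decide +kernel

theorem cg_9472_256 {p0 p1 p2 p3 p4 : V} (h : T.Okg p0 p1 p2 p3 p4)
    (n8 : T.X p0 p4 p1 p3 = true)
    (n10 : T.X p0 p3 p2 p4 = false)
    (n13 : T.X p1 p3 p2 p4 = false) : False := by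
  have h2 := h
  unfold Table.Okg at h2
  rw [n8, n10, n13] at h2
  exact bcg_9472_256 _ _ _ _ _ _ _ _ _ _ _ _ h2

theorem bcg_9472_8192 : ∀ b0 b1 b2 b3 b4 b5 b6 b7 b9 b11 b12 b14 : Bool,
    okg b0 b1 b2 b3 b4 b5 b6 b7 false b9 false b11 b12 true b14 = true → False := by
  decide +kernel

theorem cg_9472_8192 {p0 p1 p2 p3 p4 : V} (h : T.Okg p0 p1 p2 p3 p4)
    (n8 : T.X p0 p4 p1 p3 = false)
    (n10 : T.X p0 p3 p2 p4 = false)
    (n13 : T.X p1 p3 p2 p4 = true) : False := by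
  have h2 := h
  unfold Table.Okg at h2
  rw [n8, n10, n13] at h2
  exact bcg_9472_8192 _ _ _ _ _ _ _ _ _ _ _ _ h2

theorem bcg_16640_16640 : ∀ b0 b1 b2 b3 b4 b5 b6 b7 b9 b10 b11 b12 b13 : Bool,
    okg b0 b1 b2 b3 b4 b5 b6 b7 true b9 b10 b11 b12 b13 true = true → False := by
  decide +kernel

theorem cg_16640_16640 {p0 p1 p2 p3 p4 : V} (h : T.Okg p0 p1 p2 p3 p4)
    (n8 : T.X p0 p4 p1 p3 = true)
    (n14 : T.X p1 p4 p2 p3 = true) : False := by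
  have h2 := h
  unfold Table.Okg at h2
  rw [n8, n14] at h2
  exact bcg_16640_16640 _ _ _ _ _ _ _ _ _ _ _ _ _ h2

theorem bcg_18592_32 : ∀ b0 b1 b2 b3 b4 b6 b8 b9 b10 b12 b13 : Bool,
    okg b0 b1 b2 b3 b4 true b6 false b8 b9 b10 false b12 b13 false = true → False := by
  decide +kernel

theorem cg_18592_32 {p0 p1 p2 p3 p4 : V} (h : T.Okg p0 p1 p2 p3 p4)
    (n5 : T.X p0 p4 p1 p2 = true)
    (n7 : T.X p0 p3 p1 p4 = false)
    (n11 : T.X p0 p4 p2 p3 = false)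
    (n14 : T.X p1 p4 p2 p3 = false) : False := by
  have h2 := h
  unfold Table.Okg at h2
  rw [n5, n7, n11, n14] at h2
  exact bcg_18592_32 _ _ _ _ _ _ _ _ _ _ _ h2

theorem bcb_4_0 : ∀ b0 b1 b3 b4 b5 b6 b7 b8 b9 b10 b11 b12 b13 b14 : Bool,
    okb b0 b1 false b3 b4 b5 b6 b7 b8 b9 b10 b11 b12 b13 b14 = true → False := by
  decide +kernel

theorem cb_4_0 {p0 p1 p2 p3 p4 : V} (h : T.Okb p0 p1 p2 p3 p4)
    (n2 : T.X p0 p3 p1 p2 = false) : False := by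
  have h2 := h
  unfold Table.Okb at h2
  rw [n2] at h2
  exact bcb_4_0 _ _ _ _ _ _ _ _ _ _ _ _ _ _ h2

theorem bcb_8_8 : ∀ b0 b1 b2 b4 b5 b6 b7 b8 b9 b10 b11 b12 b13 b14 : Bool,
    okb b0 b1 b2 true b4 b5 b6 b7 b8 b9 b10 b11 b12 b13 b14 = true → False := by
  decide +kernel

theorem cb_8_8 {p0 p1 p2 p3 p4 : V} (h : T.Okb p0 p1 p2 p3 p4)
    (n3 : T.X p0 p1 p2 p4 = true) : False := by
  have h2 := h
  unfold Table.Okb at h2
  rw [n3] at h2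
  exact bcb_8_8 _ _ _ _ _ _ _ _ _ _ _ _ _ _ h2

theorem bcb_16_16 : ∀ b0 b1 b2 b3 b5 b6 b7 b8 b9 b10 b11 b12 b13 b14 : Bool,
    okb b0 b1 b2 b3 true b5 b6 b7 b8 b9 b10 b11 b12 b13 b14 = true → False := by
  decide +kernel

theorem cb_16_16 {p0 p1 p2 p3 p4 : V} (h : T.Okb p0 p1 p2 p3 p4)
    (n4 : T.X p0 p2 p1 p4 = true) : False := by
  have h2 := h
  unfold Table.Okb at h2
  rw [n4] at h2
  exact bcb_16_16 _ _ _ _ _ _ _ _ _ _ _ _ _ _ h2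

theorem bcb_32_0 : ∀ b0 b1 b2 b3 b4 b6 b7 b8 b9 b10 b11 b12 b13 b14 : Bool,
    okb b0 b1 b2 b3 b4 false b6 b7 b8 b9 b10 b11 b12 b13 b14 = true → False := by
  decide +kernel

theorem cb_32_0 {p0 p1 p2 p3 p4 : V} (h : T.Okb p0 p1 p2 p3 p4)
    (n5 : T.X p0 p4 p1 p2 = false) : False := by
  have h2 := h
  unfold Table.Okb at h2
  rw [n5] at h2
  exact bcb_32_0 _ _ _ _ _ _ _ _ _ _ _ _ _ _ h2

theorem bcb_1280_1280 : ∀ b0 b1 b2 b3 b4 b5 b6 b7 b9 b11 b12 b13 b14 : Bool,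
    okb b0 b1 b2 b3 b4 b5 b6 b7 true b9 true b11 b12 b13 b14 = true → False := by
  decide +kernel

theorem cb_1280_1280 {p0 p1 p2 p3 p4 : V} (h : T.Okb p0 p1 p2 p3 p4)
    (n8 : T.X p0 p4 p1 p3 = true)
    (n10 : T.X p0 p3 p2 p4 = true) : False := by
  have h2 := h
  unfold Table.Okb at h2
  rw [n8, n10] at h2
  exact bcb_1280_1280 _ _ _ _ _ _ _ _ _ _ _ _ _ h2

theorem bcb_4288_4096 : ∀ b0 b1 b2 b3 b4 b5 b8 b9 b10 b11 b13 b14 : Bool,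
    okb b0 b1 b2 b3 b4 b5 false false b8 b9 b10 b11 true b13 b14 = true → False := by
  decide +kernel

theorem cb_4288_4096 {p0 p1 p2 p3 p4 : V} (h : T.Okb p0 p1 p2 p3 p4)
    (n6 : T.X p0 p1 p3 p4 = false)
    (n7 : T.X p0 p3 p1 p4 = false)
    (n12 : T.X p1 p2 p3 p4 = true) : False := by
  have h2 := h
  unfold Table.Okb at h2
  rw [n6, n7, n12] at h2
  exact bcb_4288_4096 _ _ _ _ _ _ _ _ _ _ _ _ h2

theorem bcb_5120_5120 : ∀ b0 b1 b2 b3 b4 b5 b6 b7 b8 b9 b11 b13 b14 : Bool,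
    okb b0 b1 b2 b3 b4 b5 b6 b7 b8 b9 true b11 true b13 b14 = true → False := by
  decide +kernel

theorem cb_5120_5120 {p0 p1 p2 p3 p4 : V} (h : T.Okb p0 p1 p2 p3 p4)
    (n10 : T.X p0 p3 p2 p4 = true)
    (n12 : T.X p1 p2 p3 p4 = true) : False := by
  have h2 := h
  unfold Table.Okb at h2
  rw [n10, n12] at h2
  exact bcb_5120_5120 _ _ _ _ _ _ _ _ _ _ _ _ _ h2

theorem bcb_6656_4096 : ∀ b0 b1 b2 b3 b4 b5 b6 b7 b8 b10 b13 b14 : Bool,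
    okb b0 b1 b2 b3 b4 b5 b6 b7 b8 false b10 false true b13 b14 = true → False := by
  decide +kernel

theorem cb_6656_4096 {p0 p1 p2 p3 p4 : V} (h : T.Okb p0 p1 p2 p3 p4)
    (n9 : T.X p0 p2 p3 p4 = false)
    (n11 : T.X p0 p4 p2 p3 = false)
    (n12 : T.X p1 p2 p3 p4 = true) : False := by
  have h2 := h
  unfold Table.Okb at h2
  rw [n9, n11, n12] at h2
  exact bcb_6656_4096 _ _ _ _ _ _ _ _ _ _ _ _ h2

theorem bcb_8448_256 : ∀ b0 b1 b2 b3 b4 b5 b6 b7 b9 b10 b11 b12 b14 : Bool,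
    okb b0 b1 b2 b3 b4 b5 b6 b7 true b9 b10 b11 b12 false b14 = true → False := by
  decide +kernel

theorem cb_8448_256 {p0 p1 p2 p3 p4 : V} (h : T.Okb p0 p1 p2 p3 p4)
    (n8 : T.X p0 p4 p1 p3 = true)
    (n13 : T.X p1 p3 p2 p4 = false) : False := by
  have h2 := h
  unfold Table.Okb at h2
  rw [n8, n13] at h2
  exact bcb_8448_256 _ _ _ _ _ _ _ _ _ _ _ _ _ h2

theorem bcb_9216_1024 : ∀ b0 b1 b2 b3 b4 b5 b6 b7 b8 b9 b11 b12 b14 : Bool,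
    okb b0 b1 b2 b3 b4 b5 b6 b7 b8 b9 true b11 b12 false b14 = true → False := by
  decide +kernel

theorem cb_9216_1024 {p0 p1 p2 p3 p4 : V} (h : T.Okb p0 p1 p2 p3 p4)
    (n10 : T.X p0 p3 p2 p4 = true)
    (n13 : T.X p1 p3 p2 p4 = false) : False := by
  have h2 := h
  unfold Table.Okb at h2
  rw [n10, n13] at h2
  exact bcb_9216_1024 _ _ _ _ _ _ _ _ _ _ _ _ _ h2

theorem bcb_10368_8192 : ∀ b0 b1 b2 b3 b4 b5 b6 b8 b9 b10 b12 b14 : Bool,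
    okb b0 b1 b2 b3 b4 b5 b6 false b8 b9 b10 false b12 true b14 = true → False := by
  decide +kernel

theorem cb_10368_8192 {p0 p1 p2 p3 p4 : V} (h : T.Okb p0 p1 p2 p3 p4)
    (n7 : T.X p0 p3 p1 p4 = false)
    (n11 : T.X p0 p4 p2 p3 = false)
    (n13 : T.X p1 p3 p2 p4 = true) : False := by
  have h2 := h
  unfold Table.Okb at h2
  rw [n7, n11, n13] at h2
  exact bcb_10368_8192 _ _ _ _ _ _ _ _ _ _ _ _ h2

theorem bcb_16640_16640 : ∀ b0 b1 b2 b3 b4 b5 b6 b7 b9 b10 b11 b12 b13 : Bool,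
    okb b0 b1 b2 b3 b4 b5 b6 b7 true b9 b10 b11 b12 b13 true = true → False := by
  decide +kernel

theorem cb_16640_16640 {p0 p1 p2 p3 p4 : V} (h : T.Okb p0 p1 p2 p3 p4)
    (n8 : T.X p0 p4 p1 p3 = true)
    (n14 : T.X p1 p4 p2 p3 = true) : False := by
  have h2 := h
  unfold Table.Okb at h2
  rw [n8, n14] at h2
  exact bcb_16640_16640 _ _ _ _ _ _ _ _ _ _ _ _ _ h2

theorem bcb_17408_17408 : ∀ b0 b1 b2 b3 b4 b5 b6 b7 b8 b9 b11 b12 b13 : Bool,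
    okb b0 b1 b2 b3 b4 b5 b6 b7 b8 b9 true b11 b12 b13 true = true → False := by
  decide +kernel

theorem cb_17408_17408 {p0 p1 p2 p3 p4 : V} (h : T.Okb p0 p1 p2 p3 p4)
    (n10 : T.X p0 p3 p2 p4 = true)
    (n14 : T.X p1 p4 p2 p3 = true) : False := by
  have h2 := h
  unfold Table.Okb at h2
  rw [n10, n14] at h2
  exact bcb_17408_17408 _ _ _ _ _ _ _ _ _ _ _ _ _ h2

theorem bcb_18560_0 : ∀ b0 b1 b2 b3 b4 b5 b6 b8 b9 b10 b12 b13 : Bool,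
    okb b0 b1 b2 b3 b4 b5 b6 false b8 b9 b10 false b12 b13 false = true → False := by
  decide +kernel

theorem cb_18560_0 {p0 p1 p2 p3 p4 : V} (h : T.Okb p0 p1 p2 p3 p4)
    (n7 : T.X p0 p3 p1 p4 = false)
    (n11 : T.X p0 p4 p2 p3 = false)
    (n14 : T.X p1 p4 p2 p3 = false) : False := by
  have h2 := h
  unfold Table.Okb at h2
  rw [n7, n11, n14] at h2
  exact bcb_18560_0 _ _ _ _ _ _ _ _ _ _ _ _ h2

theorem bcn_4224_4224 : ∀ b0 b1 b2 b3 b4 b5 b6 b8 b9 b10 b11 b13 b14 : Bool,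
    okn b0 b1 b2 b3 b4 b5 b6 true b8 b9 b10 b11 true b13 b14 = true → False := by
  decide +kernel

theorem cn_4224_4224 {p0 p1 p2 p3 p4 : V} (h : T.Okn p0 p1 p2 p3 p4)
    (n7 : T.X p0 p3 p1 p4 = true)
    (n12 : T.X p1 p2 p3 p4 = true) : False := by
  have h2 := h
  unfold Table.Okn at h2
  rw [n7, n12] at h2
  exact bcn_4224_4224 _ _ _ _ _ _ _ _ _ _ _ _ _ h2

theorem bcn_5632_4096 : ∀ b0 b1 b2 b3 b4 b5 b6 b7 b8 b11 b13 b14 : Bool,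
    okn b0 b1 b2 b3 b4 b5 b6 b7 b8 false false b11 true b13 b14 = true → False := by
  decide +kernel

theorem cn_5632_4096 {p0 p1 p2 p3 p4 : V} (h : T.Okn p0 p1 p2 p3 p4)
    (n9 : T.X p0 p2 p3 p4 = false)
    (n10 : T.X p0 p3 p2 p4 = false)
    (n12 : T.X p1 p2 p3 p4 = true) : False := by
  have h2 := h
  unfold Table.Okn at h2
  rw [n9, n10, n12] at h2
  exact bcn_5632_4096 _ _ _ _ _ _ _ _ _ _ _ _ h2

theorem bcn_6144_6144 : ∀ b0 b1 b2 b3 b4 b5 b6 b7 b8 b9 b10 b13 b14 : Bool,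
    okn b0 b1 b2 b3 b4 b5 b6 b7 b8 b9 b10 true true b13 b14 = true → False := by
  decide +kernel

theorem cn_6144_6144 {p0 p1 p2 p3 p4 : V} (h : T.Okn p0 p1 p2 p3 p4)
    (n11 : T.X p0 p4 p2 p3 = true)
    (n12 : T.X p1 p2 p3 p4 = true) : False := by
  have h2 := h
  unfold Table.Okn at h2
  rw [n11, n12] at h2
  exact bcn_6144_6144 _ _ _ _ _ _ _ _ _ _ _ _ _ h2

theorem bcn_8320_8320 : ∀ b0 b1 b2 b3 b4 b5 b6 b8 b9 b10 b11 b12 b14 : Bool,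
    okn b0 b1 b2 b3 b4 b5 b6 true b8 b9 b10 b11 b12 true b14 = true → False := by
  decide +kernel

theorem cn_8320_8320 {p0 p1 p2 p3 p4 : V} (h : T.Okn p0 p1 p2 p3 p4)
    (n7 : T.X p0 p3 p1 p4 = true)
    (n13 : T.X p1 p3 p2 p4 = true) : False := by
  have h2 := h
  unfold Table.Okn at h2
  rw [n7, n13] at h2
  exact bcn_8320_8320 _ _ _ _ _ _ _ _ _ _ _ _ _ h2

theorem bcn_9472_0 : ∀ b0 b1 b2 b3 b4 b5 b6 b7 b9 b11 b12 b14 : Bool,
    okn b0 b1 b2 b3 b4 b5 b6 b7 false b9 false b11 b12 false b14 = true → False := by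
  decide +kernel

theorem cn_9472_0 {p0 p1 p2 p3 p4 : V} (h : T.Okn p0 p1 p2 p3 p4)
    (n8 : T.X p0 p4 p1 p3 = false)
    (n10 : T.X p0 p3 p2 p4 = false)
    (n13 : T.X p1 p3 p2 p4 = false) : False := by
  have h2 := h
  unfold Table.Okn at h2
  rw [n8, n10, n13] at h2
  exact bcn_9472_0 _ _ _ _ _ _ _ _ _ _ _ _ h2

theorem bcn_9472_8448 : ∀ b0 b1 b2 b3 b4 b5 b6 b7 b9 b11 b12 b14 : Bool,
    okn b0 b1 b2 b3 b4 b5 b6 b7 true b9 false b11 b12 true b14 = true → False := by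
  decide +kernel

theorem cn_9472_8448 {p0 p1 p2 p3 p4 : V} (h : T.Okn p0 p1 p2 p3 p4)
    (n8 : T.X p0 p4 p1 p3 = true)
    (n10 : T.X p0 p3 p2 p4 = false)
    (n13 : T.X p1 p3 p2 p4 = true) : False := by
  have h2 := h
  unfold Table.Okn at h2
  rw [n8, n10, n13] at h2
  exact bcn_9472_8448 _ _ _ _ _ _ _ _ _ _ _ _ h2

theorem bcsp_73_73 : ∀ b1 b2 b4 b5 b7 b8 b9 b10 b11 b12 b13 b14 : Bool,
    sp5 true b1 b2 true b4 b5 true b7 b8 b9 b10 b11 b12 b13 b14 = true → False := by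
  decide +kernel

theorem csp_73_73 {a p0 p1 p2 p3 p4 : V} (h : T.Sp5 a p0 p1 p2 p3 p4)
    (n0 : T.alt a p0 p1 p2 p3 = true)
    (n3 : T.alt a p0 p1 p2 p4 = true)
    (n6 : T.alt a p0 p1 p3 p4 = true) : False := by
  have h2 := h
  unfold Table.Sp5 at h2
  rw [n0, n3, n6] at h2
  exact bcsp_73_73 _ _ _ _ _ _ _ _ _ _ _ _ h2

theorem bcsp_76_12 : ∀ b0 b1 b4 b5 b7 b8 b9 b10 b11 b12 b13 b14 : Bool,
    sp5 b0 b1 true true b4 b5 false b7 b8 b9 b10 b11 b12 b13 b14 = true → False := by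
  decide +kernel

theorem csp_76_12 {a p0 p1 p2 p3 p4 : V} (h : T.Sp5 a p0 p1 p2 p3 p4)
    (n2 : T.alt a p0 p3 p1 p2 = true)
    (n3 : T.alt a p0 p1 p2 p4 = true)
    (n6 : T.alt a p0 p1 p3 p4 = false) : False := by
  have h2 := h
  unfold Table.Sp5 at h2
  rw [n2, n3, n6] at h2
  exact bcsp_76_12 _ _ _ _ _ _ _ _ _ _ _ _ h2

theorem bcsp_147_16 : ∀ b2 b3 b5 b6 b8 b9 b10 b11 b12 b13 b14 : Bool,
    sp5 false false b2 b3 true b5 b6 false b8 b9 b10 b11 b12 b13 b14 = true → False := by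
  decide +kernel

theorem csp_147_16 {a p0 p1 p2 p3 p4 : V} (h : T.Sp5 a p0 p1 p2 p3 p4)
    (n0 : T.alt a p0 p1 p2 p3 = false)
    (n1 : T.alt a p0 p2 p1 p3 = false)
    (n4 : T.alt a p0 p2 p1 p4 = true)
    (n7 : T.alt a p0 p3 p1 p4 = false) : False := by
  have h2 := h
  unfold Table.Sp5 at h2
  rw [n0, n1, n4, n7] at h2
  exact bcsp_147_16 _ _ _ _ _ _ _ _ _ _ _ h2

theorem bcsp_522_10 : ∀ b0 b2 b4 b5 b6 b7 b8 b10 b11 b12 b13 b14 : Bool,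
    sp5 b0 true b2 true b4 b5 b6 b7 b8 false b10 b11 b12 b13 b14 = true → False := by
  decide +kernel

theorem csp_522_10 {a p0 p1 p2 p3 p4 : V} (h : T.Sp5 a p0 p1 p2 p3 p4)
    (n1 : T.alt a p0 p2 p1 p3 = true)
    (n3 : T.alt a p0 p1 p2 p4 = true)
    (n9 : T.alt a p0 p2 p3 p4 = false) : False := by
  have h2 := h
  unfold Table.Sp5 at h2
  rw [n1, n3, n9] at h2
  exact bcsp_522_10 _ _ _ _ _ _ _ _ _ _ _ _ h2

theorem bcsp_530_512 : ∀ b0 b2 b3 b5 b6 b7 b8 b10 b11 b12 b13 b14 : Bool,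
    sp5 b0 false b2 b3 false b5 b6 b7 b8 true b10 b11 b12 b13 b14 = true → False := by
  decide +kernel

theorem csp_530_512 {a p0 p1 p2 p3 p4 : V} (h : T.Sp5 a p0 p1 p2 p3 p4)
    (n1 : T.alt a p0 p2 p1 p3 = false)
    (n4 : T.alt a p0 p2 p1 p4 = false)
    (n9 : T.alt a p0 p2 p3 p4 = true) : False := by
  have h2 := h
  unfold Table.Sp5 at h2
  rw [n1, n4, n9] at h2
  exact bcsp_530_512 _ _ _ _ _ _ _ _ _ _ _ _ h2

theorem bcsp_577_513 : ∀ b1 b2 b3 b4 b5 b7 b8 b10 b11 b12 b13 b14 : Bool,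
    sp5 true b1 b2 b3 b4 b5 false b7 b8 true b10 b11 b12 b13 b14 = true → False := by
  decide +kernel

theorem csp_577_513 {a p0 p1 p2 p3 p4 : V} (h : T.Sp5 a p0 p1 p2 p3 p4)
    (n0 : T.alt a p0 p1 p2 p3 = true)
    (n6 : T.alt a p0 p1 p3 p4 = false)
    (n9 : T.alt a p0 p2 p3 p4 = true) : False := by
  have h2 := h
  unfold Table.Sp5 at h2
  rw [n0, n6, n9] at h2
  exact bcsp_577_513 _ _ _ _ _ _ _ _ _ _ _ _ h2

theorem bcsp_580_580 : ∀ b0 b1 b3 b4 b5 b7 b8 b10 b11 b12 b13 b14 : Bool,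
    sp5 b0 b1 true b3 b4 b5 true b7 b8 true b10 b11 b12 b13 b14 = true → False := by
  decide +kernel

theorem csp_580_580 {a p0 p1 p2 p3 p4 : V} (h : T.Sp5 a p0 p1 p2 p3 p4)
    (n2 : T.alt a p0 p3 p1 p2 = true)
    (n6 : T.alt a p0 p1 p3 p4 = true)
    (n9 : T.alt a p0 p2 p3 p4 = true) : False := by
  have h2 := h
  unfold Table.Sp5 at h2
  rw [n2, n6, n9] at h2
  exact bcsp_580_580 _ _ _ _ _ _ _ _ _ _ _ _ h2

theorem bcsp_643_512 : ∀ b2 b3 b4 b5 b6 b8 b10 b11 b12 b13 b14 : Bool,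
    sp5 false false b2 b3 b4 b5 b6 false b8 true b10 b11 b12 b13 b14 = true → False := by
  decide +kernel

theorem csp_643_512 {a p0 p1 p2 p3 p4 : V} (h : T.Sp5 a p0 p1 p2 p3 p4)
    (n0 : T.alt a p0 p1 p2 p3 = false)
    (n1 : T.alt a p0 p2 p1 p3 = false)
    (n7 : T.alt a p0 p3 p1 p4 = false)
    (n9 : T.alt a p0 p2 p3 p4 = true) : False := by
  have h2 := h
  unfold Table.Sp5 at h2
  rw [n0, n1, n7, n9] at h2
  exact bcsp_643_512 _ _ _ _ _ _ _ _ _ _ _ h2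

theorem bcsp_770_768 : ∀ b0 b2 b3 b4 b5 b6 b7 b10 b11 b12 b13 b14 : Bool,
    sp5 b0 false b2 b3 b4 b5 b6 b7 true true b10 b11 b12 b13 b14 = true → False := by
  decide +kernel

theorem csp_770_768 {a p0 p1 p2 p3 p4 : V} (h : T.Sp5 a p0 p1 p2 p3 p4)
    (n1 : T.alt a p0 p2 p1 p3 = false)
    (n8 : T.alt a p0 p4 p1 p3 = true)
    (n9 : T.alt a p0 p2 p3 p4 = true) : False := by
  have h2 := h
  unfold Table.Sp5 at h2
  rw [n1, n8, n9] at h2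
  exact bcsp_770_768 _ _ _ _ _ _ _ _ _ _ _ _ h2

theorem bcsp_1156_4 : ∀ b0 b1 b3 b4 b5 b6 b8 b9 b11 b12 b13 b14 : Bool,
    sp5 b0 b1 true b3 b4 b5 b6 false b8 b9 false b11 b12 b13 b14 = true → False := by
  decide +kernel

theorem csp_1156_4 {a p0 p1 p2 p3 p4 : V} (h : T.Sp5 a p0 p1 p2 p3 p4)
    (n2 : T.alt a p0 p3 p1 p2 = true)
    (n7 : T.alt a p0 p3 p1 p4 = false)
    (n10 : T.alt a p0 p3 p2 p4 = false) : False := by
  have h2 := h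
  unfold Table.Sp5 at h2
  rw [n2, n7, n10] at h2
  exact bcsp_1156_4 _ _ _ _ _ _ _ _ _ _ _ _ h2

theorem bcsp_1290_1024 : ∀ b0 b2 b4 b5 b6 b7 b9 b11 b12 b13 b14 : Bool,
    sp5 b0 false b2 false b4 b5 b6 b7 false b9 true b11 b12 b13 b14 = true → False := by
  decide +kernel

theorem csp_1290_1024 {a p0 p1 p2 p3 p4 : V} (h : T.Sp5 a p0 p1 p2 p3 p4)
    (n1 : T.alt a p0 p2 p1 p3 = false)
    (n3 : T.alt a p0 p1 p2 p4 = false)
    (n8 : T.alt a p0 p4 p1 p3 = false)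
    (n10 : T.alt a p0 p3 p2 p4 = true) : False := by
  have h2 := h
  unfold Table.Sp5 at h2
  rw [n1, n3, n8, n10] at h2
  exact bcsp_1290_1024 _ _ _ _ _ _ _ _ _ _ _ h2

theorem bcsp_1304_1024 : ∀ b0 b1 b2 b5 b6 b7 b9 b11 b12 b13 b14 : Bool,
    sp5 b0 b1 b2 false false b5 b6 b7 false b9 true b11 b12 b13 b14 = true → False := by
  decide +kernel

theorem csp_1304_1024 {a p0 p1 p2 p3 p4 : V} (h : T.Sp5 a p0 p1 p2 p3 p4)
    (n3 : T.alt a p0 p1 p2 p4 = false)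
    (n4 : T.alt a p0 p2 p1 p4 = false)
    (n8 : T.alt a p0 p4 p1 p3 = false)
    (n10 : T.alt a p0 p3 p2 p4 = true) : False := by
  have h2 := h
  unfold Table.Sp5 at h2
  rw [n3, n4, n8, n10] at h2
  exact bcsp_1304_1024 _ _ _ _ _ _ _ _ _ _ _ h2

theorem bcsp_2336_32 : ∀ b0 b1 b2 b3 b4 b6 b7 b9 b10 b12 b13 b14 : Bool,
    sp5 b0 b1 b2 b3 b4 true b6 b7 false b9 b10 false b12 b13 b14 = true → False := by
  decide +kernel

theorem csp_2336_32 {a p0 p1 p2 p3 p4 : V} (h : T.Sp5 a p0 p1 p2 p3 p4)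
    (n5 : T.alt a p0 p4 p1 p2 = true)
    (n8 : T.alt a p0 p4 p1 p3 = false)
    (n11 : T.alt a p0 p4 p2 p3 = false) : False := by
  have h2 := h
  unfold Table.Sp5 at h2
  rw [n5, n8, n11] at h2
  exact bcsp_2336_32 _ _ _ _ _ _ _ _ _ _ _ _ h2

theorem bcsp_2336_2048 : ∀ b0 b1 b2 b3 b4 b6 b7 b9 b10 b12 b13 b14 : Bool,
    sp5 b0 b1 b2 b3 b4 false b6 b7 false b9 b10 true b12 b13 b14 = true → False := by
  decide +kernel

theorem csp_2336_2048 {a p0 p1 p2 p3 p4 : V} (h : T.Sp5 a p0 p1 p2 p3 p4)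
    (n5 : T.alt a p0 p4 p1 p2 = false)
    (n8 : T.alt a p0 p4 p1 p3 = false)
    (n11 : T.alt a p0 p4 p2 p3 = true) : False := by
  have h2 := h
  unfold Table.Sp5 at h2
  rw [n5, n8, n11] at h2
  exact bcsp_2336_2048 _ _ _ _ _ _ _ _ _ _ _ _ h2

theorem bcsp_3090_0 : ∀ b0 b2 b3 b5 b6 b7 b8 b9 b12 b13 b14 : Bool,
    sp5 b0 false b2 b3 false b5 b6 b7 b8 b9 false false b12 b13 b14 = true → False := by
  decide +kernel

theorem csp_3090_0 {a p0 p1 p2 p3 p4 : V} (h : T.Sp5 a p0 p1 p2 p3 p4)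
    (n1 : T.alt a p0 p2 p1 p3 = false)
    (n4 : T.alt a p0 p2 p1 p4 = false)
    (n10 : T.alt a p0 p3 p2 p4 = false)
    (n11 : T.alt a p0 p4 p2 p3 = false) : False := by
  have h2 := h
  unfold Table.Sp5 at h2
  rw [n1, n4, n10, n11] at h2
  exact bcsp_3090_0 _ _ _ _ _ _ _ _ _ _ _ h2

theorem bcsp_3330_256 : ∀ b0 b2 b3 b4 b5 b6 b7 b9 b12 b13 b14 : Bool,
    sp5 b0 false b2 b3 b4 b5 b6 b7 true b9 false false b12 b13 b14 = true → False := by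
  decide +kernel

theorem csp_3330_256 {a p0 p1 p2 p3 p4 : V} (h : T.Sp5 a p0 p1 p2 p3 p4)
    (n1 : T.alt a p0 p2 p1 p3 = false)
    (n8 : T.alt a p0 p4 p1 p3 = true)
    (n10 : T.alt a p0 p3 p2 p4 = false)
    (n11 : T.alt a p0 p4 p2 p3 = false) : False := by
  have h2 := h
  unfold Table.Sp5 at h2
  rw [n1, n8, n10, n11] at h2
  exact bcsp_3330_256 _ _ _ _ _ _ _ _ _ _ _ h2

theorem bcsp_4124_0 : ∀ b0 b1 b5 b6 b7 b8 b9 b10 b11 b13 b14 : Bool,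
    sp5 b0 b1 false false false b5 b6 b7 b8 b9 b10 b11 false b13 b14 = true → False := by
  decide +kernel

theorem csp_4124_0 {a p0 p1 p2 p3 p4 : V} (h : T.Sp5 a p0 p1 p2 p3 p4)
    (n2 : T.alt a p0 p3 p1 p2 = false)
    (n3 : T.alt a p0 p1 p2 p4 = false)
    (n4 : T.alt a p0 p2 p1 p4 = false)
    (n12 : T.alt a p1 p2 p3 p4 = false) : False := by
  have h2 := h
  unfold Table.Sp5 at h2
  rw [n2, n3, n4, n12] at h2
  exact bcsp_4124_0 _ _ _ _ _ _ _ _ _ _ _ h2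

theorem bcsp_4132_4 : ∀ b0 b1 b3 b4 b6 b7 b8 b9 b10 b11 b13 b14 : Bool,
    sp5 b0 b1 true b3 b4 false b6 b7 b8 b9 b10 b11 false b13 b14 = true → False := by
  decide +kernel

theorem csp_4132_4 {a p0 p1 p2 p3 p4 : V} (h : T.Sp5 a p0 p1 p2 p3 p4)
    (n2 : T.alt a p0 p3 p1 p2 = true)
    (n5 : T.alt a p0 p4 p1 p2 = false)
    (n12 : T.alt a p1 p2 p3 p4 = false) : False := by
  have h2 := h
  unfold Table.Sp5 at h2
  rw [n2, n5, n12] at h2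
  exact bcsp_4132_4 _ _ _ _ _ _ _ _ _ _ _ _ h2

theorem bcsp_4208_4096 : ∀ b0 b1 b2 b3 b7 b8 b9 b10 b11 b13 b14 : Bool,
    sp5 b0 b1 b2 b3 false false false b7 b8 b9 b10 b11 true b13 b14 = true → False := by
  decide +kernel

theorem csp_4208_4096 {a p0 p1 p2 p3 p4 : V} (h : T.Sp5 a p0 p1 p2 p3 p4)
    (n4 : T.alt a p0 p2 p1 p4 = false)
    (n5 : T.alt a p0 p4 p1 p2 = false)
    (n6 : T.alt a p0 p1 p3 p4 = false)
    (n12 : T.alt a p1 p2 p3 p4 = true) : False := by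
  have h2 := h
  unfold Table.Sp5 at h2
  rw [n4, n5, n6, n12] at h2
  exact bcsp_4208_4096 _ _ _ _ _ _ _ _ _ _ _ h2

theorem bcsp_4610_4098 : ∀ b0 b2 b3 b4 b5 b6 b7 b8 b10 b11 b13 b14 : Bool,
    sp5 b0 true b2 b3 b4 b5 b6 b7 b8 false b10 b11 true b13 b14 = true → False := by
  decide +kernel

theorem csp_4610_4098 {a p0 p1 p2 p3 p4 : V} (h : T.Sp5 a p0 p1 p2 p3 p4)
    (n1 : T.alt a p0 p2 p1 p3 = true)
    (n9 : T.alt a p0 p2 p3 p4 = false)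
    (n12 : T.alt a p1 p2 p3 p4 = true) : False := by
  have h2 := h
  unfold Table.Sp5 at h2
  rw [n1, n9, n12] at h2
  exact bcsp_4610_4098 _ _ _ _ _ _ _ _ _ _ _ _ h2

theorem bcsp_4617_8 : ∀ b1 b2 b4 b5 b6 b7 b8 b10 b11 b13 b14 : Bool,
    sp5 false b1 b2 true b4 b5 b6 b7 b8 false b10 b11 false b13 b14 = true → False := by
  decide +kernel

theorem csp_4617_8 {a p0 p1 p2 p3 p4 : V} (h : T.Sp5 a p0 p1 p2 p3 p4)
    (n0 : T.alt a p0 p1 p2 p3 = false)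
    (n3 : T.alt a p0 p1 p2 p4 = true)
    (n9 : T.alt a p0 p2 p3 p4 = false)
    (n12 : T.alt a p1 p2 p3 p4 = false) : False := by
  have h2 := h
  unfold Table.Sp5 at h2
  rw [n0, n3, n9, n12] at h2
  exact bcsp_4617_8 _ _ _ _ _ _ _ _ _ _ _ h2

theorem bcsp_4617_4096 : ∀ b1 b2 b4 b5 b6 b7 b8 b10 b11 b13 b14 : Bool,
    sp5 false b1 b2 false b4 b5 b6 b7 b8 false b10 b11 true b13 b14 = true → False := by
  decide +kernel

theorem csp_4617_4096 {a p0 p1 p2 p3 p4 : V} (h : T.Sp5 a p0 p1 p2 p3 p4)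
    (n0 : T.alt a p0 p1 p2 p3 = false)
    (n3 : T.alt a p0 p1 p2 p4 = false)
    (n9 : T.alt a p0 p2 p3 p4 = false)
    (n12 : T.alt a p1 p2 p3 p4 = true) : False := by
  have h2 := h
  unfold Table.Sp5 at h2
  rw [n0, n3, n9, n12] at h2
  exact bcsp_4617_4096 _ _ _ _ _ _ _ _ _ _ _ h2

theorem bcsp_4880_4608 : ∀ b0 b1 b2 b3 b5 b6 b7 b10 b11 b13 b14 : Bool,
    sp5 b0 b1 b2 b3 false b5 b6 b7 false true b10 b11 true b13 b14 = true → False := by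
  decide +kernel

theorem csp_4880_4608 {a p0 p1 p2 p3 p4 : V} (h : T.Sp5 a p0 p1 p2 p3 p4)
    (n4 : T.alt a p0 p2 p1 p4 = false)
    (n8 : T.alt a p0 p4 p1 p3 = false)
    (n9 : T.alt a p0 p2 p3 p4 = true)
    (n12 : T.alt a p1 p2 p3 p4 = true) : False := by
  have h2 := h
  unfold Table.Sp5 at h2
  rw [n4, n8, n9, n12] at h2
  exact bcsp_4880_4608 _ _ _ _ _ _ _ _ _ _ _ h2

theorem bcsp_5124_5120 : ∀ b0 b1 b3 b4 b5 b6 b7 b8 b9 b11 b13 b14 : Bool,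
    sp5 b0 b1 false b3 b4 b5 b6 b7 b8 b9 true b11 true b13 b14 = true → False := by
  decide +kernel

theorem csp_5124_5120 {a p0 p1 p2 p3 p4 : V} (h : T.Sp5 a p0 p1 p2 p3 p4)
    (n2 : T.alt a p0 p3 p1 p2 = false)
    (n10 : T.alt a p0 p3 p2 p4 = true)
    (n12 : T.alt a p1 p2 p3 p4 = true) : False := by
  have h2 := h
  unfold Table.Sp5 at h2
  rw [n2, n10, n12] at h2
  exact bcsp_5124_5120 _ _ _ _ _ _ _ _ _ _ _ _ h2

theorem bcsp_5329_0 : ∀ b1 b2 b3 b5 b8 b9 b11 b13 b14 : Bool,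
    sp5 false b1 b2 b3 false b5 false false b8 b9 false b11 false b13 b14 = true → False := by
  decide +kernel

theorem csp_5329_0 {a p0 p1 p2 p3 p4 : V} (h : T.Sp5 a p0 p1 p2 p3 p4)
    (n0 : T.alt a p0 p1 p2 p3 = false)
    (n4 : T.alt a p0 p2 p1 p4 = false)
    (n6 : T.alt a p0 p1 p3 p4 = false)
    (n7 : T.alt a p0 p3 p1 p4 = false)
    (n10 : T.alt a p0 p3 p2 p4 = false)
    (n12 : T.alt a p1 p2 p3 p4 = false) : False := by
  have h2 := h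
  unfold Table.Sp5 at h2
  rw [n0, n4, n6, n7, n10, n12] at h2
  exact bcsp_5329_0 _ _ _ _ _ _ _ _ _ h2

theorem bcsp_6145_4097 : ∀ b1 b2 b3 b4 b5 b6 b7 b8 b9 b10 b13 b14 : Bool,
    sp5 true b1 b2 b3 b4 b5 b6 b7 b8 b9 b10 false true b13 b14 = true → False := by
  decide +kernel

theorem csp_6145_4097 {a p0 p1 p2 p3 p4 : V} (h : T.Sp5 a p0 p1 p2 p3 p4)
    (n0 : T.alt a p0 p1 p2 p3 = true)
    (n11 : T.alt a p0 p4 p2 p3 = false)
    (n12 : T.alt a p1 p2 p3 p4 = true) : False := by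
  have h2 := h
  unfold Table.Sp5 at h2
  rw [n0, n11, n12] at h2
  exact bcsp_6145_4097 _ _ _ _ _ _ _ _ _ _ _ _ h2

theorem bcsp_6208_6144 : ∀ b0 b1 b2 b3 b4 b5 b7 b8 b9 b10 b13 b14 : Bool,
    sp5 b0 b1 b2 b3 b4 b5 false b7 b8 b9 b10 true true b13 b14 = true → False := by
  decide +kernel

theorem csp_6208_6144 {a p0 p1 p2 p3 p4 : V} (h : T.Sp5 a p0 p1 p2 p3 p4)
    (n6 : T.alt a p0 p1 p3 p4 = false)
    (n11 : T.alt a p0 p4 p2 p3 = true)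
    (n12 : T.alt a p1 p2 p3 p4 = true) : False := by
  have h2 := h
  unfold Table.Sp5 at h2
  rw [n6, n11, n12] at h2
  exact bcsp_6208_6144 _ _ _ _ _ _ _ _ _ _ _ _ h2

theorem bcsp_6404_2048 : ∀ b0 b1 b3 b4 b5 b6 b7 b9 b10 b13 b14 : Bool,
    sp5 b0 b1 false b3 b4 b5 b6 b7 false b9 b10 true false b13 b14 = true → False := by
  decide +kernel

theorem csp_6404_2048 {a p0 p1 p2 p3 p4 : V} (h : T.Sp5 a p0 p1 p2 p3 p4)
    (n2 : T.alt a p0 p3 p1 p2 = false)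
    (n8 : T.alt a p0 p4 p1 p3 = false)
    (n11 : T.alt a p0 p4 p2 p3 = true)
    (n12 : T.alt a p1 p2 p3 p4 = false) : False := by
  have h2 := h
  unfold Table.Sp5 at h2
  rw [n2, n8, n11, n12] at h2
  exact bcsp_6404_2048 _ _ _ _ _ _ _ _ _ _ _ h2

theorem bcsp_6528_2048 : ∀ b0 b1 b2 b3 b4 b5 b6 b9 b10 b13 b14 : Bool,
    sp5 b0 b1 b2 b3 b4 b5 b6 false false b9 b10 true false b13 b14 = true → False := by
  decide +kernel

theorem csp_6528_2048 {a p0 p1 p2 p3 p4 : V} (h : T.Sp5 a p0 p1 p2 p3 p4)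
    (n7 : T.alt a p0 p3 p1 p4 = false)
    (n8 : T.alt a p0 p4 p1 p3 = false)
    (n11 : T.alt a p0 p4 p2 p3 = true)
    (n12 : T.alt a p1 p2 p3 p4 = false) : False := by
  have h2 := h
  unfold Table.Sp5 at h2
  rw [n7, n8, n11, n12] at h2
  exact bcsp_6528_2048 _ _ _ _ _ _ _ _ _ _ _ h2

theorem bcsp_8205_8 : ∀ b1 b4 b5 b6 b7 b8 b9 b10 b11 b12 b14 : Bool,
    sp5 false b1 false true b4 b5 b6 b7 b8 b9 b10 b11 b12 false b14 = true → False := by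
  decide +kernel

theorem csp_8205_8 {a p0 p1 p2 p3 p4 : V} (h : T.Sp5 a p0 p1 p2 p3 p4)
    (n0 : T.alt a p0 p1 p2 p3 = false)
    (n2 : T.alt a p0 p3 p1 p2 = false)
    (n3 : T.alt a p0 p1 p2 p4 = true)
    (n13 : T.alt a p1 p3 p2 p4 = false) : False := by
  have h2 := h
  unfold Table.Sp5 at h2
  rw [n0, n2, n3, n13] at h2
  exact bcsp_8205_8 _ _ _ _ _ _ _ _ _ _ _ h2

theorem bcsp_8258_8256 : ∀ b0 b2 b3 b4 b5 b7 b8 b9 b10 b11 b12 b14 : Bool,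
    sp5 b0 false b2 b3 b4 b5 true b7 b8 b9 b10 b11 b12 true b14 = true → False := by
  decide +kernel

theorem csp_8258_8256 {a p0 p1 p2 p3 p4 : V} (h : T.Sp5 a p0 p1 p2 p3 p4)
    (n1 : T.alt a p0 p2 p1 p3 = false)
    (n6 : T.alt a p0 p1 p3 p4 = true)
    (n13 : T.alt a p1 p3 p2 p4 = true) : False := by
  have h2 := h
  unfold Table.Sp5 at h2
  rw [n1, n6, n13] at h2
  exact bcsp_8258_8256 _ _ _ _ _ _ _ _ _ _ _ _ h2

theorem bcsp_8385_1 : ∀ b1 b2 b3 b4 b5 b8 b9 b10 b11 b12 b14 : Bool,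
    sp5 true b1 b2 b3 b4 b5 false false b8 b9 b10 b11 b12 false b14 = true → False := by
  decide +kernel

theorem csp_8385_1 {a p0 p1 p2 p3 p4 : V} (h : T.Sp5 a p0 p1 p2 p3 p4)
    (n0 : T.alt a p0 p1 p2 p3 = true)
    (n6 : T.alt a p0 p1 p3 p4 = false)
    (n7 : T.alt a p0 p3 p1 p4 = false)
    (n13 : T.alt a p1 p3 p2 p4 = false) : False := by
  have h2 := h
  unfold Table.Sp5 at h2
  rw [n0, n6, n7, n13] at h2
  exact bcsp_8385_1 _ _ _ _ _ _ _ _ _ _ _ h2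

theorem bcsp_8450_256 : ∀ b0 b2 b3 b4 b5 b6 b7 b9 b10 b11 b12 b14 : Bool,
    sp5 b0 false b2 b3 b4 b5 b6 b7 true b9 b10 b11 b12 false b14 = true → False := by
  decide +kernel

theorem csp_8450_256 {a p0 p1 p2 p3 p4 : V} (h : T.Sp5 a p0 p1 p2 p3 p4)
    (n1 : T.alt a p0 p2 p1 p3 = false)
    (n8 : T.alt a p0 p4 p1 p3 = true)
    (n13 : T.alt a p1 p3 p2 p4 = false) : False := by
  have h2 := h
  unfold Table.Sp5 at h2
  rw [n1, n8, n13] at h2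
  exact bcsp_8450_256 _ _ _ _ _ _ _ _ _ _ _ _ h2

theorem bcsp_8450_8192 : ∀ b0 b2 b3 b4 b5 b6 b7 b9 b10 b11 b12 b14 : Bool,
    sp5 b0 false b2 b3 b4 b5 b6 b7 false b9 b10 b11 b12 true b14 = true → False := by
  decide +kernel

theorem csp_8450_8192 {a p0 p1 p2 p3 p4 : V} (h : T.Sp5 a p0 p1 p2 p3 p4)
    (n1 : T.alt a p0 p2 p1 p3 = false)
    (n8 : T.alt a p0 p4 p1 p3 = false)
    (n13 : T.alt a p1 p3 p2 p4 = true) : False := by
  have h2 := h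
  unfold Table.Sp5 at h2
  rw [n1, n8, n13] at h2
  exact bcsp_8450_8192 _ _ _ _ _ _ _ _ _ _ _ _ h2

theorem bcsp_8481_8448 : ∀ b1 b2 b3 b4 b6 b7 b9 b10 b11 b12 b14 : Bool,
    sp5 false b1 b2 b3 b4 false b6 b7 true b9 b10 b11 b12 true b14 = true → False := by
  decide +kernel

theorem csp_8481_8448 {a p0 p1 p2 p3 p4 : V} (h : T.Sp5 a p0 p1 p2 p3 p4)
    (n0 : T.alt a p0 p1 p2 p3 = false)
    (n5 : T.alt a p0 p4 p1 p2 = false)
    (n8 : T.alt a p0 p4 p1 p3 = true)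
    (n13 : T.alt a p1 p3 p2 p4 = true) : False := by
  have h2 := h
  unfold Table.Sp5 at h2
  rw [n0, n5, n8, n13] at h2
  exact bcsp_8481_8448 _ _ _ _ _ _ _ _ _ _ _ h2

theorem bcsp_8706_8704 : ∀ b0 b2 b3 b4 b5 b6 b7 b8 b10 b11 b12 b14 : Bool,
    sp5 b0 false b2 b3 b4 b5 b6 b7 b8 true b10 b11 b12 true b14 = true → False := by
  decide +kernel

theorem csp_8706_8704 {a p0 p1 p2 p3 p4 : V} (h : T.Sp5 a p0 p1 p2 p3 p4)
    (n1 : T.alt a p0 p2 p1 p3 = false)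
    (n9 : T.alt a p0 p2 p3 p4 = true)
    (n13 : T.alt a p1 p3 p2 p4 = true) : False := by
  have h2 := h
  unfold Table.Sp5 at h2
  rw [n1, n9, n13] at h2
  exact bcsp_8706_8704 _ _ _ _ _ _ _ _ _ _ _ _ h2

theorem bcsp_8768_8256 : ∀ b0 b1 b2 b3 b4 b5 b7 b8 b10 b11 b12 b14 : Bool,
    sp5 b0 b1 b2 b3 b4 b5 true b7 b8 false b10 b11 b12 true b14 = true → False := by
  decide +kernel

theorem csp_8768_8256 {a p0 p1 p2 p3 p4 : V} (h : T.Sp5 a p0 p1 p2 p3 p4)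
    (n6 : T.alt a p0 p1 p3 p4 = true)
    (n9 : T.alt a p0 p2 p3 p4 = false)
    (n13 : T.alt a p1 p3 p2 p4 = true) : False := by
  have h2 := h
  unfold Table.Sp5 at h2
  rw [n6, n9, n13] at h2
  exact bcsp_8768_8256 _ _ _ _ _ _ _ _ _ _ _ _ h2

theorem bcsp_9224_8 : ∀ b0 b1 b2 b4 b5 b6 b7 b8 b9 b11 b12 b14 : Bool,
    sp5 b0 b1 b2 true b4 b5 b6 b7 b8 b9 false b11 b12 false b14 = true → False := by
  decide +kernel

theorem csp_9224_8 {a p0 p1 p2 p3 p4 : V} (h : T.Sp5 a p0 p1 p2 p3 p4)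
    (n3 : T.alt a p0 p1 p2 p4 = true)
    (n10 : T.alt a p0 p3 p2 p4 = false)
    (n13 : T.alt a p1 p3 p2 p4 = false) : False := by
  have h2 := h
  unfold Table.Sp5 at h2
  rw [n3, n10, n13] at h2
  exact bcsp_9224_8 _ _ _ _ _ _ _ _ _ _ _ _ h2

theorem bcsp_9224_1024 : ∀ b0 b1 b2 b4 b5 b6 b7 b8 b9 b11 b12 b14 : Bool,
    sp5 b0 b1 b2 false b4 b5 b6 b7 b8 b9 true b11 b12 false b14 = true → False := by
  decide +kernel

theorem csp_9224_1024 {a p0 p1 p2 p3 p4 : V} (h : T.Sp5 a p0 p1 p2 p3 p4)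
    (n3 : T.alt a p0 p1 p2 p4 = false)
    (n10 : T.alt a p0 p3 p2 p4 = true)
    (n13 : T.alt a p1 p3 p2 p4 = false) : False := by
  have h2 := h
  unfold Table.Sp5 at h2
  rw [n3, n10, n13] at h2
  exact bcsp_9224_1024 _ _ _ _ _ _ _ _ _ _ _ _ h2

theorem bcsp_9281_1 : ∀ b1 b2 b3 b4 b5 b7 b8 b9 b11 b12 b14 : Bool,
    sp5 true b1 b2 b3 b4 b5 false b7 b8 b9 false b11 b12 false b14 = true → False := by
  decide +kernel

theorem csp_9281_1 {a p0 p1 p2 p3 p4 : V} (h : T.Sp5 a p0 p1 p2 p3 p4)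
    (n0 : T.alt a p0 p1 p2 p3 = true)
    (n6 : T.alt a p0 p1 p3 p4 = false)
    (n10 : T.alt a p0 p3 p2 p4 = false)
    (n13 : T.alt a p1 p3 p2 p4 = false) : False := by
  have h2 := h
  unfold Table.Sp5 at h2
  rw [n0, n6, n10, n13] at h2
  exact bcsp_9281_1 _ _ _ _ _ _ _ _ _ _ _ h2

theorem bcsp_10277_0 : ∀ b1 b3 b4 b6 b7 b8 b9 b10 b12 b14 : Bool,
    sp5 false b1 false b3 b4 false b6 b7 b8 b9 b10 false b12 false b14 = true → False := by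
  decide +kernel

theorem csp_10277_0 {a p0 p1 p2 p3 p4 : V} (h : T.Sp5 a p0 p1 p2 p3 p4)
    (n0 : T.alt a p0 p1 p2 p3 = false)
    (n2 : T.alt a p0 p3 p1 p2 = false)
    (n5 : T.alt a p0 p4 p1 p2 = false)
    (n11 : T.alt a p0 p4 p2 p3 = false)
    (n13 : T.alt a p1 p3 p2 p4 = false) : False := by
  have h2 := h
  unfold Table.Sp5 at h2
  rw [n0, n2, n5, n11, n13] at h2
  exact bcsp_10277_0 _ _ _ _ _ _ _ _ _ _ h2

theorem bcsp_10310_2048 : ∀ b0 b3 b4 b5 b7 b8 b9 b10 b12 b14 : Bool,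
    sp5 b0 false false b3 b4 b5 false b7 b8 b9 b10 true b12 false b14 = true → False := by
  decide +kernel

theorem csp_10310_2048 {a p0 p1 p2 p3 p4 : V} (h : T.Sp5 a p0 p1 p2 p3 p4)
    (n1 : T.alt a p0 p2 p1 p3 = false)
    (n2 : T.alt a p0 p3 p1 p2 = false)
    (n6 : T.alt a p0 p1 p3 p4 = false)
    (n11 : T.alt a p0 p4 p2 p3 = true)
    (n13 : T.alt a p1 p3 p2 p4 = false) : False := by
  have h2 := h
  unfold Table.Sp5 at h2
  rw [n1, n2, n6, n11, n13] at h2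
  exact bcsp_10310_2048 _ _ _ _ _ _ _ _ _ _ h2

theorem bcsp_16393_16392 : ∀ b1 b2 b4 b5 b6 b7 b8 b9 b10 b11 b12 b13 : Bool,
    sp5 false b1 b2 true b4 b5 b6 b7 b8 b9 b10 b11 b12 b13 true = true → False := by
  decide +kernel

theorem csp_16393_16392 {a p0 p1 p2 p3 p4 : V} (h : T.Sp5 a p0 p1 p2 p3 p4)
    (n0 : T.alt a p0 p1 p2 p3 = false)
    (n3 : T.alt a p0 p1 p2 p4 = true)
    (n14 : T.alt a p1 p4 p2 p3 = true) : False := by
  have h2 := h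
  unfold Table.Sp5 at h2
  rw [n0, n3, n14] at h2
  exact bcsp_16393_16392 _ _ _ _ _ _ _ _ _ _ _ _ h2

theorem bcsp_16412_16384 : ∀ b0 b1 b5 b6 b7 b8 b9 b10 b11 b12 b13 : Bool,
    sp5 b0 b1 false false false b5 b6 b7 b8 b9 b10 b11 b12 b13 true = true → False := by
  decide +kernel

theorem csp_16412_16384 {a p0 p1 p2 p3 p4 : V} (h : T.Sp5 a p0 p1 p2 p3 p4)
    (n2 : T.alt a p0 p3 p1 p2 = false)
    (n3 : T.alt a p0 p1 p2 p4 = false)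
    (n4 : T.alt a p0 p2 p1 p4 = false)
    (n14 : T.alt a p1 p4 p2 p3 = true) : False := by
  have h2 := h
  unfold Table.Sp5 at h2
  rw [n2, n3, n4, n14] at h2
  exact bcsp_16412_16384 _ _ _ _ _ _ _ _ _ _ _ h2

theorem bcsp_16528_16 : ∀ b0 b1 b2 b3 b5 b6 b8 b9 b10 b11 b12 b13 : Bool,
    sp5 b0 b1 b2 b3 true b5 b6 false b8 b9 b10 b11 b12 b13 false = true → False := by
  decide +kernel

theorem csp_16528_16 {a p0 p1 p2 p3 p4 : V} (h : T.Sp5 a p0 p1 p2 p3 p4)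
    (n4 : T.alt a p0 p2 p1 p4 = true)
    (n7 : T.alt a p0 p3 p1 p4 = false)
    (n14 : T.alt a p1 p4 p2 p3 = false) : False := by
  have h2 := h
  unfold Table.Sp5 at h2
  rw [n4, n7, n14] at h2
  exact bcsp_16528_16 _ _ _ _ _ _ _ _ _ _ _ _ h2

theorem bcsp_16528_128 : ∀ b0 b1 b2 b3 b5 b6 b8 b9 b10 b11 b12 b13 : Bool,
    sp5 b0 b1 b2 b3 false b5 b6 true b8 b9 b10 b11 b12 b13 false = true → False := by
  decide +kernel

theorem csp_16528_128 {a p0 p1 p2 p3 p4 : V} (h : T.Sp5 a p0 p1 p2 p3 p4)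
    (n4 : T.alt a p0 p2 p1 p4 = false)
    (n7 : T.alt a p0 p3 p1 p4 = true)
    (n14 : T.alt a p1 p4 p2 p3 = false) : False := by
  have h2 := h
  unfold Table.Sp5 at h2
  rw [n4, n7, n14] at h2
  exact bcsp_16528_128 _ _ _ _ _ _ _ _ _ _ _ _ h2

theorem bcsp_16552_0 : ∀ b0 b1 b2 b4 b6 b8 b9 b10 b11 b12 b13 : Bool,
    sp5 b0 b1 b2 false b4 false b6 false b8 b9 b10 b11 b12 b13 false = true → False := by
  decide +kernel

theorem csp_16552_0 {a p0 p1 p2 p3 p4 : V} (h : T.Sp5 a p0 p1 p2 p3 p4)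
    (n3 : T.alt a p0 p1 p2 p4 = false)
    (n5 : T.alt a p0 p4 p1 p2 = false)
    (n7 : T.alt a p0 p3 p1 p4 = false)
    (n14 : T.alt a p1 p4 p2 p3 = false) : False := by
  have h2 := h
  unfold Table.Sp5 at h2
  rw [n3, n5, n7, n14] at h2
  exact bcsp_16552_0 _ _ _ _ _ _ _ _ _ _ _ h2

theorem bcsp_16642_16640 : ∀ b0 b2 b3 b4 b5 b6 b7 b9 b10 b11 b12 b13 : Bool,
    sp5 b0 false b2 b3 b4 b5 b6 b7 true b9 b10 b11 b12 b13 true = true → False := by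
  decide +kernel

theorem csp_16642_16640 {a p0 p1 p2 p3 p4 : V} (h : T.Sp5 a p0 p1 p2 p3 p4)
    (n1 : T.alt a p0 p2 p1 p3 = false)
    (n8 : T.alt a p0 p4 p1 p3 = true)
    (n14 : T.alt a p1 p4 p2 p3 = true) : False := by
  have h2 := h
  unfold Table.Sp5 at h2
  rw [n1, n8, n14] at h2
  exact bcsp_16642_16640 _ _ _ _ _ _ _ _ _ _ _ _ h2

theorem bcsp_16656_16640 : ∀ b0 b1 b2 b3 b5 b6 b7 b9 b10 b11 b12 b13 : Bool,
    sp5 b0 b1 b2 b3 false b5 b6 b7 true b9 b10 b11 b12 b13 true = true → False := by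
  decide +kernel

theorem csp_16656_16640 {a p0 p1 p2 p3 p4 : V} (h : T.Sp5 a p0 p1 p2 p3 p4)
    (n4 : T.alt a p0 p2 p1 p4 = false)
    (n8 : T.alt a p0 p4 p1 p3 = true)
    (n14 : T.alt a p1 p4 p2 p3 = true) : False := by
  have h2 := h
  unfold Table.Sp5 at h2
  rw [n4, n8, n14] at h2
  exact bcsp_16656_16640 _ _ _ _ _ _ _ _ _ _ _ _ h2

theorem bcsp_16673_256 : ∀ b1 b2 b3 b4 b6 b7 b9 b10 b11 b12 b13 : Bool,
    sp5 false b1 b2 b3 b4 false b6 b7 true b9 b10 b11 b12 b13 false = true → False := by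
  decide +kernel

theorem csp_16673_256 {a p0 p1 p2 p3 p4 : V} (h : T.Sp5 a p0 p1 p2 p3 p4)
    (n0 : T.alt a p0 p1 p2 p3 = false)
    (n5 : T.alt a p0 p4 p1 p2 = false)
    (n8 : T.alt a p0 p4 p1 p3 = true)
    (n14 : T.alt a p1 p4 p2 p3 = false) : False := by
  have h2 := h
  unfold Table.Sp5 at h2
  rw [n0, n5, n8, n14] at h2
  exact bcsp_16673_256 _ _ _ _ _ _ _ _ _ _ _ h2

theorem bcsp_16769_16384 : ∀ b1 b2 b3 b4 b5 b6 b9 b10 b11 b12 b13 : Bool,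
    sp5 false b1 b2 b3 b4 b5 b6 false false b9 b10 b11 b12 b13 true = true → False := by
  decide +kernel

theorem csp_16769_16384 {a p0 p1 p2 p3 p4 : V} (h : T.Sp5 a p0 p1 p2 p3 p4)
    (n0 : T.alt a p0 p1 p2 p3 = false)
    (n7 : T.alt a p0 p3 p1 p4 = false)
    (n8 : T.alt a p0 p4 p1 p3 = false)
    (n14 : T.alt a p1 p4 p2 p3 = true) : False := by
  have h2 := h
  unfold Table.Sp5 at h2
  rw [n0, n7, n8, n14] at h2
  exact bcsp_16769_16384 _ _ _ _ _ _ _ _ _ _ _ h2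

theorem bcsp_16897_16896 : ∀ b1 b2 b3 b4 b5 b6 b7 b8 b10 b11 b12 b13 : Bool,
    sp5 false b1 b2 b3 b4 b5 b6 b7 b8 true b10 b11 b12 b13 true = true → False := by
  decide +kernel

theorem csp_16897_16896 {a p0 p1 p2 p3 p4 : V} (h : T.Sp5 a p0 p1 p2 p3 p4)
    (n0 : T.alt a p0 p1 p2 p3 = false)
    (n9 : T.alt a p0 p2 p3 p4 = true)
    (n14 : T.alt a p1 p4 p2 p3 = true) : False := by
  have h2 := h
  unfold Table.Sp5 at h2
  rw [n0, n9, n14] at h2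
  exact bcsp_16897_16896 _ _ _ _ _ _ _ _ _ _ _ _ h2

theorem bcsp_16912_16896 : ∀ b0 b1 b2 b3 b5 b6 b7 b8 b10 b11 b12 b13 : Bool,
    sp5 b0 b1 b2 b3 false b5 b6 b7 b8 true b10 b11 b12 b13 true = true → False := by
  decide +kernel

theorem csp_16912_16896 {a p0 p1 p2 p3 p4 : V} (h : T.Sp5 a p0 p1 p2 p3 p4)
    (n4 : T.alt a p0 p2 p1 p4 = false)
    (n9 : T.alt a p0 p2 p3 p4 = true)
    (n14 : T.alt a p1 p4 p2 p3 = true) : False := by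
  have h2 := h
  unfold Table.Sp5 at h2
  rw [n4, n9, n14] at h2
  exact bcsp_16912_16896 _ _ _ _ _ _ _ _ _ _ _ _ h2

theorem bcsp_16960_16896 : ∀ b0 b1 b2 b3 b4 b5 b7 b8 b10 b11 b12 b13 : Bool,
    sp5 b0 b1 b2 b3 b4 b5 false b7 b8 true b10 b11 b12 b13 true = true → False := by
  decide +kernel

theorem csp_16960_16896 {a p0 p1 p2 p3 p4 : V} (h : T.Sp5 a p0 p1 p2 p3 p4)
    (n6 : T.alt a p0 p1 p3 p4 = false)
    (n9 : T.alt a p0 p2 p3 p4 = true)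
    (n14 : T.alt a p1 p4 p2 p3 = true) : False := by
  have h2 := h
  unfold Table.Sp5 at h2
  rw [n6, n9, n14] at h2
  exact bcsp_16960_16896 _ _ _ _ _ _ _ _ _ _ _ _ h2

theorem bcsp_17026_512 : ∀ b0 b2 b3 b4 b5 b6 b8 b10 b11 b12 b13 : Bool,
    sp5 b0 false b2 b3 b4 b5 b6 false b8 true b10 b11 b12 b13 false = true → False := by
  decide +kernel

theorem csp_17026_512 {a p0 p1 p2 p3 p4 : V} (h : T.Sp5 a p0 p1 p2 p3 p4)
    (n1 : T.alt a p0 p2 p1 p3 = false)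
    (n7 : T.alt a p0 p3 p1 p4 = false)
    (n9 : T.alt a p0 p2 p3 p4 = true)
    (n14 : T.alt a p1 p4 p2 p3 = false) : False := by
  have h2 := h
  unfold Table.Sp5 at h2
  rw [n1, n7, n9, n14] at h2
  exact bcsp_17026_512 _ _ _ _ _ _ _ _ _ _ _ h2

theorem bcsp_17026_16384 : ∀ b0 b2 b3 b4 b5 b6 b8 b10 b11 b12 b13 : Bool,
    sp5 b0 false b2 b3 b4 b5 b6 false b8 false b10 b11 b12 b13 true = true → False := by
  decide +kernel

theorem csp_17026_16384 {a p0 p1 p2 p3 p4 : V} (h : T.Sp5 a p0 p1 p2 p3 p4)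
    (n1 : T.alt a p0 p2 p1 p3 = false)
    (n7 : T.alt a p0 p3 p1 p4 = false)
    (n9 : T.alt a p0 p2 p3 p4 = false)
    (n14 : T.alt a p1 p4 p2 p3 = true) : False := by
  have h2 := h
  unfold Table.Sp5 at h2
  rw [n1, n7, n9, n14] at h2
  exact bcsp_17026_16384 _ _ _ _ _ _ _ _ _ _ _ h2

theorem bcsp_17420_1032 : ∀ b0 b1 b4 b5 b6 b7 b8 b9 b11 b12 b13 : Bool,
    sp5 b0 b1 false true b4 b5 b6 b7 b8 b9 true b11 b12 b13 false = true → False := by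
  decide +kernel

theorem csp_17420_1032 {a p0 p1 p2 p3 p4 : V} (h : T.Sp5 a p0 p1 p2 p3 p4)
    (n2 : T.alt a p0 p3 p1 p2 = false)
    (n3 : T.alt a p0 p1 p2 p4 = true)
    (n10 : T.alt a p0 p3 p2 p4 = true)
    (n14 : T.alt a p1 p4 p2 p3 = false) : False := by
  have h2 := h
  unfold Table.Sp5 at h2
  rw [n2, n3, n10, n14] at h2
  exact bcsp_17420_1032 _ _ _ _ _ _ _ _ _ _ _ h2

theorem bcsp_17427_0 : ∀ b2 b3 b5 b6 b7 b8 b9 b11 b12 b13 : Bool,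
    sp5 false false b2 b3 false b5 b6 b7 b8 b9 false b11 b12 b13 false = true → False := by
  decide +kernel

theorem csp_17427_0 {a p0 p1 p2 p3 p4 : V} (h : T.Sp5 a p0 p1 p2 p3 p4)
    (n0 : T.alt a p0 p1 p2 p3 = false)
    (n1 : T.alt a p0 p2 p1 p3 = false)
    (n4 : T.alt a p0 p2 p1 p4 = false)
    (n10 : T.alt a p0 p3 p2 p4 = false)
    (n14 : T.alt a p1 p4 p2 p3 = false) : False := by
  have h2 := h
  unfold Table.Sp5 at h2
  rw [n0, n1, n4, n10, n14] at h2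
  exact bcsp_17427_0 _ _ _ _ _ _ _ _ _ _ h2

theorem bcsp_18433_1 : ∀ b1 b2 b3 b4 b5 b6 b7 b8 b9 b10 b12 b13 : Bool,
    sp5 true b1 b2 b3 b4 b5 b6 b7 b8 b9 b10 false b12 b13 false = true → False := by
  decide +kernel

theorem csp_18433_1 {a p0 p1 p2 p3 p4 : V} (h : T.Sp5 a p0 p1 p2 p3 p4)
    (n0 : T.alt a p0 p1 p2 p3 = true)
    (n11 : T.alt a p0 p4 p2 p3 = false)
    (n14 : T.alt a p1 p4 p2 p3 = false) : False := by
  have h2 := h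
  unfold Table.Sp5 at h2
  rw [n0, n11, n14] at h2
  exact bcsp_18433_1 _ _ _ _ _ _ _ _ _ _ _ _ h2

theorem bcsp_18433_2048 : ∀ b1 b2 b3 b4 b5 b6 b7 b8 b9 b10 b12 b13 : Bool,
    sp5 false b1 b2 b3 b4 b5 b6 b7 b8 b9 b10 true b12 b13 false = true → False := by
  decide +kernel

theorem csp_18433_2048 {a p0 p1 p2 p3 p4 : V} (h : T.Sp5 a p0 p1 p2 p3 p4)
    (n0 : T.alt a p0 p1 p2 p3 = false)
    (n11 : T.alt a p0 p4 p2 p3 = true)
    (n14 : T.alt a p1 p4 p2 p3 = false) : False := by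
  have h2 := h
  unfold Table.Sp5 at h2
  rw [n0, n11, n14] at h2
  exact bcsp_18433_2048 _ _ _ _ _ _ _ _ _ _ _ _ h2

theorem bcsp_18433_16384 : ∀ b1 b2 b3 b4 b5 b6 b7 b8 b9 b10 b12 b13 : Bool,
    sp5 false b1 b2 b3 b4 b5 b6 b7 b8 b9 b10 false b12 b13 true = true → False := by
  decide +kernel

theorem csp_18433_16384 {a p0 p1 p2 p3 p4 : V} (h : T.Sp5 a p0 p1 p2 p3 p4)
    (n0 : T.alt a p0 p1 p2 p3 = false)
    (n11 : T.alt a p0 p4 p2 p3 = false)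
    (n14 : T.alt a p1 p4 p2 p3 = true) : False := by
  have h2 := h
  unfold Table.Sp5 at h2
  rw [n0, n11, n14] at h2
  exact bcsp_18433_16384 _ _ _ _ _ _ _ _ _ _ _ _ h2

theorem bcsp_18438_0 : ∀ b0 b3 b4 b5 b6 b7 b8 b9 b10 b12 b13 : Bool,
    sp5 b0 false false b3 b4 b5 b6 b7 b8 b9 b10 false b12 b13 false = true → False := by
  decide +kernel

theorem csp_18438_0 {a p0 p1 p2 p3 p4 : V} (h : T.Sp5 a p0 p1 p2 p3 p4)
    (n1 : T.alt a p0 p2 p1 p3 = false)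
    (n2 : T.alt a p0 p3 p1 p2 = false)
    (n11 : T.alt a p0 p4 p2 p3 = false)
    (n14 : T.alt a p1 p4 p2 p3 = false) : False := by
  have h2 := h
  unfold Table.Sp5 at h2
  rw [n1, n2, n11, n14] at h2
  exact bcsp_18438_0 _ _ _ _ _ _ _ _ _ _ _ h2

theorem bcsp_20738_0 : ∀ b0 b2 b3 b4 b5 b6 b7 b9 b10 b11 b13 : Bool,
    sp5 b0 false b2 b3 b4 b5 b6 b7 false b9 b10 b11 false b13 false = true → False := by
  decide +kernel

theorem csp_20738_0 {a p0 p1 p2 p3 p4 : V} (h : T.Sp5 a p0 p1 p2 p3 p4)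
    (n1 : T.alt a p0 p2 p1 p3 = false)
    (n8 : T.alt a p0 p4 p1 p3 = false)
    (n12 : T.alt a p1 p2 p3 p4 = false)
    (n14 : T.alt a p1 p4 p2 p3 = false) : False := by
  have h2 := h
  unfold Table.Sp5 at h2
  rw [n1, n8, n12, n14] at h2
  exact bcsp_20738_0 _ _ _ _ _ _ _ _ _ _ _ h2

theorem bcsp_21000_512 : ∀ b0 b1 b2 b4 b5 b6 b7 b8 b10 b11 b13 : Bool,
    sp5 b0 b1 b2 false b4 b5 b6 b7 b8 true b10 b11 false b13 false = true → False := by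
  decide +kernel

theorem csp_21000_512 {a p0 p1 p2 p3 p4 : V} (h : T.Sp5 a p0 p1 p2 p3 p4)
    (n3 : T.alt a p0 p1 p2 p4 = false)
    (n9 : T.alt a p0 p2 p3 p4 = true)
    (n12 : T.alt a p1 p2 p3 p4 = false)
    (n14 : T.alt a p1 p4 p2 p3 = false) : False := by
  have h2 := h
  unfold Table.Sp5 at h2
  rw [n3, n9, n12, n14] at h2
  exact bcsp_21000_512 _ _ _ _ _ _ _ _ _ _ _ h2

theorem bcsp_21512_0 : ∀ b0 b1 b2 b4 b5 b6 b7 b8 b9 b11 b13 : Bool,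
    sp5 b0 b1 b2 false b4 b5 b6 b7 b8 b9 false b11 false b13 false = true → False := by
  decide +kernel

theorem csp_21512_0 {a p0 p1 p2 p3 p4 : V} (h : T.Sp5 a p0 p1 p2 p3 p4)
    (n3 : T.alt a p0 p1 p2 p4 = false)
    (n10 : T.alt a p0 p3 p2 p4 = false)
    (n12 : T.alt a p1 p2 p3 p4 = false)
    (n14 : T.alt a p1 p4 p2 p3 = false) : False := by
  have h2 := h
  unfold Table.Sp5 at h2
  rw [n3, n10, n12, n14] at h2
  exact bcsp_21512_0 _ _ _ _ _ _ _ _ _ _ _ h2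

theorem bcsp_21552_1024 : ∀ b0 b1 b2 b3 b6 b7 b8 b9 b11 b13 : Bool,
    sp5 b0 b1 b2 b3 false false b6 b7 b8 b9 true b11 false b13 false = true → False := by
  decide +kernel

theorem csp_21552_1024 {a p0 p1 p2 p3 p4 : V} (h : T.Sp5 a p0 p1 p2 p3 p4)
    (n4 : T.alt a p0 p2 p1 p4 = false)
    (n5 : T.alt a p0 p4 p1 p2 = false)
    (n10 : T.alt a p0 p3 p2 p4 = true)
    (n12 : T.alt a p1 p2 p3 p4 = false)
    (n14 : T.alt a p1 p4 p2 p3 = false) : False := by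
  have h2 := h
  unfold Table.Sp5 at h2
  rw [n4, n5, n10, n12, n14] at h2
  exact bcsp_21552_1024 _ _ _ _ _ _ _ _ _ _ h2

theorem bcsp_24612_0 : ∀ b0 b1 b3 b4 b6 b7 b8 b9 b10 b11 b12 : Bool,
    sp5 b0 b1 false b3 b4 false b6 b7 b8 b9 b10 b11 b12 false false = true → False := by
  decide +kernel

theorem csp_24612_0 {a p0 p1 p2 p3 p4 : V} (h : T.Sp5 a p0 p1 p2 p3 p4)
    (n2 : T.alt a p0 p3 p1 p2 = false)
    (n5 : T.alt a p0 p4 p1 p2 = false)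
    (n13 : T.alt a p1 p3 p2 p4 = false)
    (n14 : T.alt a p1 p4 p2 p3 = false) : False := by
  have h2 := h
  unfold Table.Sp5 at h2
  rw [n2, n5, n13, n14] at h2
  exact bcsp_24612_0 _ _ _ _ _ _ _ _ _ _ _ h2

theorem bcsp_25152_0 : ∀ b0 b1 b2 b3 b4 b5 b7 b8 b10 b11 b12 : Bool,
    sp5 b0 b1 b2 b3 b4 b5 false b7 b8 false b10 b11 b12 false false = true → False := by
  decide +kernel

theorem csp_25152_0 {a p0 p1 p2 p3 p4 : V} (h : T.Sp5 a p0 p1 p2 p3 p4)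
    (n6 : T.alt a p0 p1 p3 p4 = false)
    (n9 : T.alt a p0 p2 p3 p4 = false)
    (n13 : T.alt a p1 p3 p2 p4 = false)
    (n14 : T.alt a p1 p4 p2 p3 = false) : False := by
  have h2 := h
  unfold Table.Sp5 at h2
  rw [n6, n9, n13, n14] at h2
  exact bcsp_25152_0 _ _ _ _ _ _ _ _ _ _ _ h2

theorem bcsp_25348_512 : ∀ b0 b1 b3 b4 b5 b6 b7 b10 b11 b12 : Bool,
    sp5 b0 b1 false b3 b4 b5 b6 b7 false true b10 b11 b12 false false = true → False := by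
  decide +kernel

theorem csp_25348_512 {a p0 p1 p2 p3 p4 : V} (h : T.Sp5 a p0 p1 p2 p3 p4)
    (n2 : T.alt a p0 p3 p1 p2 = false)
    (n8 : T.alt a p0 p4 p1 p3 = false)
    (n9 : T.alt a p0 p2 p3 p4 = true)
    (n13 : T.alt a p1 p3 p2 p4 = false)
    (n14 : T.alt a p1 p4 p2 p3 = false) : False := by
  have h2 := h
  unfold Table.Sp5 at h2
  rw [n2, n8, n9, n13, n14] at h2
  exact bcsp_25348_512 _ _ _ _ _ _ _ _ _ _ h2

theorem bcsp_25472_512 : ∀ b0 b1 b2 b3 b4 b5 b6 b10 b11 b12 : Bool,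
    sp5 b0 b1 b2 b3 b4 b5 b6 false false true b10 b11 b12 false false = true → False := by
  decide +kernel

theorem csp_25472_512 {a p0 p1 p2 p3 p4 : V} (h : T.Sp5 a p0 p1 p2 p3 p4)
    (n7 : T.alt a p0 p3 p1 p4 = false)
    (n8 : T.alt a p0 p4 p1 p3 = false)
    (n9 : T.alt a p0 p2 p3 p4 = true)
    (n13 : T.alt a p1 p3 p2 p4 = false)
    (n14 : T.alt a p1 p4 p2 p3 = false) : False := by
  have h2 := h
  unfold Table.Sp5 at h2
  rw [n7, n8, n9, n13, n14] at h2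
  exact bcsp_25472_512 _ _ _ _ _ _ _ _ _ _ h2

end H53P
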