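import Pool.Agent.Lib.H98S.MGF

/-! # H98S, finite facts, file MG: merge and growth (generated) -/

set_option linter.unusedVariables false

namespace H53P

variable {V : Type*} {T : Table V}

theorem nb3 {O : Finset V} {f : V → Bool} {b c vb vc : Bool}
    (h : ¬ ((∀ o ∈ O, f o = false) ∧ b = vb ∧ c = vc)) :
    (∃ o ∈ O, f o = true) ∨ b = !vb ∨ c = !vc := by
  by_cases h1 : ∀ o ∈ O, f o = false
  · right
    cases b <;> cases c <;> cases vb <;> cases vc <;> simp_all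
  · left
    push Not at h1
    obtain ⟨o, ho, h2⟩ := h1
    refine ⟨o, ho, ?_⟩
    cases h3 : f o with
    | false => exact absurd h3 h2
    | true => rfl

theorem merge_iso {a : V} {ρ : V → ℝ} (hρ : T.Ord a ρ) {O : Finset V} {r x y p q : V}
    (hr : r ∈ O) (hx : x ≠ a) (hy : y ≠ a) (hp : p ≠ a) (hq : q ≠ a) (hO : ∀ o ∈ O, o ≠ a)
    (xy : ρ x < ρ y) (yp : ρ y < ρ p) (pq : ρ p < ρ q) (qO : ∀ o ∈ O, ρ q < ρ o)
    (hxy : T.X a r x y = true) (hpq : T.X a r p q = true)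
    (l1 : ∀ o ∈ O, T.X a o x p = false) (l2 : ∀ o ∈ O, T.X a o y q = false)
    (hc : T.X x p y q = true)
    (b1 : ¬ ((∀ o ∈ O, T.X a o x q = false) ∧ T.adj a x p q = true ∧ T.adj a q x y = true))
    (b2 : ¬ ((∀ o ∈ O, T.X a o y p = false) ∧ T.adj a y p q = false ∧ T.adj a p x y = false)) : False := by
  rcases nb3 b1 with ⟨o, ho, no⟩ | j | j <;> rcases nb3 b2 with ⟨w, hw, nw⟩ | k | k
  · rcases lt_trichotomy (ρ o) (ρ r) with tor | tor | tor
    · rcases lt_trichotomy (ρ w) (ρ o) with two | two | two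
      · have hL : T.RotL a [x, y, p, q, w, o, r] := hρ.rotL (by
          simp only [List.map_cons, List.map_nil, List.isChain_cons_cons, List.isChain_singleton, and_true]
          exact ⟨xy, yp, pq, (qO _ hw), two, tor⟩) (List.forall_mem_cons.2 ⟨hx, (List.forall_mem_cons.2 ⟨hy, (List.forall_mem_cons.2 ⟨hp, (List.forall_mem_cons.2 ⟨hq, (List.forall_mem_cons.2 ⟨(hO _ hw), (List.forall_mem_cons.2 ⟨(hO _ ho), (List.forall_mem_cons.2 ⟨(hO _ hr), fun _ h => by cases h⟩)⟩)⟩)⟩)⟩)⟩)⟩)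
        exact f_merge_iso_1 (hL.sub (.cons_cons _ (.cons_cons _ (.cons_cons _ (.cons_cons _ (.cons_cons _ (.cons_cons _ (.cons_cons _ (List.nil_sublist _))))))))) hxy hpq hc (l1 _ hw) (l1 _ ho) (l1 _ hr) (l2 _ ho) no nw
      · have ewo : w = o := hρ.1 _ _ (hO _ hw) (hO _ ho) two
        have nw2 : T.X a o y p = true := by rw [← ewo]; exact nw
        have hL : T.RotL a [x, y, p, q, o, r] := hρ.rotL (by
          simp only [List.map_cons, List.map_nil, List.isChain_cons_cons, List.isChain_singleton, and_true]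
          exact ⟨xy, yp, pq, (qO _ ho), tor⟩) (List.forall_mem_cons.2 ⟨hx, (List.forall_mem_cons.2 ⟨hy, (List.forall_mem_cons.2 ⟨hp, (List.forall_mem_cons.2 ⟨hq, (List.forall_mem_cons.2 ⟨(hO _ ho), (List.forall_mem_cons.2 ⟨(hO _ hr), fun _ h => by cases h⟩)⟩)⟩)⟩)⟩)⟩)
        exact f_merge_iso_2 (hL.sub (.cons_cons _ (.cons_cons _ (.cons_cons _ (.cons_cons _ (.cons_cons _ (.cons_cons _ (List.nil_sublist _)))))))) hxy hpq hc (l1 _ ho) (l1 _ hr) (l2 _ ho) no nw2
      · rcases lt_trichotomy (ρ w) (ρ r) with twr | twr | twr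
        · have hL : T.RotL a [x, y, p, q, o, w, r] := hρ.rotL (by
            simp only [List.map_cons, List.map_nil, List.isChain_cons_cons, List.isChain_singleton, and_true]
            exact ⟨xy, yp, pq, (qO _ ho), two, twr⟩) (List.forall_mem_cons.2 ⟨hx, (List.forall_mem_cons.2 ⟨hy, (List.forall_mem_cons.2 ⟨hp, (List.forall_mem_cons.2 ⟨hq, (List.forall_mem_cons.2 ⟨(hO _ ho), (List.forall_mem_cons.2 ⟨(hO _ hw), (List.forall_mem_cons.2 ⟨(hO _ hr), fun _ h => by cases h⟩)⟩)⟩)⟩)⟩)⟩)⟩)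
          exact f_merge_iso_3 (hL.sub (.cons_cons _ (.cons_cons _ (.cons_cons _ (.cons_cons _ (.cons_cons _ (.cons_cons _ (.cons_cons _ (List.nil_sublist _))))))))) hxy hpq hc (l1 _ ho) (l1 _ hw) (l1 _ hr) (l2 _ ho) no nw
        · have ewr : w = r := hρ.1 _ _ (hO _ hw) (hO _ hr) twr
          have nw2 : T.X a r y p = true := by rw [← ewr]; exact nw
          have hL : T.RotL a [x, y, p, q, o, r] := hρ.rotL (by
            simp only [List.map_cons, List.map_nil, List.isChain_cons_cons, List.isChain_singleton, and_true]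
            exact ⟨xy, yp, pq, (qO _ ho), tor⟩) (List.forall_mem_cons.2 ⟨hx, (List.forall_mem_cons.2 ⟨hy, (List.forall_mem_cons.2 ⟨hp, (List.forall_mem_cons.2 ⟨hq, (List.forall_mem_cons.2 ⟨(hO _ ho), (List.forall_mem_cons.2 ⟨(hO _ hr), fun _ h => by cases h⟩)⟩)⟩)⟩)⟩)⟩)
          exact f_merge_iso_4 (hL.sub (.cons_cons _ (.cons_cons _ (.cons_cons _ (.cons _ (.cons _ (.cons_cons _ (List.nil_sublist _)))))))) hxy (l1 _ hr) nw2
        · have hL : T.RotL a [x, y, p, q, o, r, w] := hρ.rotL (by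
            simp only [List.map_cons, List.map_nil, List.isChain_cons_cons, List.isChain_singleton, and_true]
            exact ⟨xy, yp, pq, (qO _ ho), tor, twr⟩) (List.forall_mem_cons.2 ⟨hx, (List.forall_mem_cons.2 ⟨hy, (List.forall_mem_cons.2 ⟨hp, (List.forall_mem_cons.2 ⟨hq, (List.forall_mem_cons.2 ⟨(hO _ ho), (List.forall_mem_cons.2 ⟨(hO _ hr), (List.forall_mem_cons.2 ⟨(hO _ hw), fun _ h => by cases h⟩)⟩)⟩)⟩)⟩)⟩)⟩)
          exact f_merge_iso_5 (hL.sub (.cons_cons _ (.cons_cons _ (.cons_cons _ (.cons _ (.cons _ (.cons_cons _ (.cons_cons _ (List.nil_sublist _))))))))) hxy (l1 _ hr) (l1 _ hw) nw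
    · have eor : o = r := hρ.1 _ _ (hO _ ho) (hO _ hr) tor
      have no2 : T.X a r x q = true := by rw [← eor]; exact no
      rcases lt_trichotomy (ρ w) (ρ r) with twr | twr | twr
      · have hL : T.RotL a [x, y, p, q, w, r] := hρ.rotL (by
          simp only [List.map_cons, List.map_nil, List.isChain_cons_cons, List.isChain_singleton, and_true]
          exact ⟨xy, yp, pq, (qO _ hw), twr⟩) (List.forall_mem_cons.2 ⟨hx, (List.forall_mem_cons.2 ⟨hy, (List.forall_mem_cons.2 ⟨hp, (List.forall_mem_cons.2 ⟨hq, (List.forall_mem_cons.2 ⟨(hO _ hw), (List.forall_mem_cons.2 ⟨(hO _ hr), fun _ h => by cases h⟩)⟩)⟩)⟩)⟩)⟩)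
        exact f_merge_iso_6 (hL.sub (.cons_cons _ (.cons_cons _ (.cons_cons _ (.cons_cons _ (.cons_cons _ (.cons_cons _ (List.nil_sublist _)))))))) hxy hpq hc (l1 _ hw) (l1 _ hr) (l2 _ hr) no2 nw
      · have ewr : w = r := hρ.1 _ _ (hO _ hw) (hO _ hr) twr
        have nw2 : T.X a r y p = true := by rw [← ewr]; exact nw
        have hL : T.RotL a [x, y, p, q, r] := hρ.rotL (by
          simp only [List.map_cons, List.map_nil, List.isChain_cons_cons, List.isChain_singleton, and_true]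
          exact ⟨xy, yp, pq, (qO _ hr)⟩) (List.forall_mem_cons.2 ⟨hx, (List.forall_mem_cons.2 ⟨hy, (List.forall_mem_cons.2 ⟨hp, (List.forall_mem_cons.2 ⟨hq, (List.forall_mem_cons.2 ⟨(hO _ hr), fun _ h => by cases h⟩)⟩)⟩)⟩)⟩)
        exact f_merge_iso_4 (hL.sub (.cons_cons _ (.cons_cons _ (.cons_cons _ (.cons _ (.cons_cons _ (List.nil_sublist _))))))) hxy (l1 _ hr) nw2
      · have hL : T.RotL a [x, y, p, q, r, w] := hρ.rotL (by
          simp only [List.map_cons, List.map_nil, List.isChain_cons_cons, List.isChain_singleton, and_true]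
          exact ⟨xy, yp, pq, (qO _ hr), twr⟩) (List.forall_mem_cons.2 ⟨hx, (List.forall_mem_cons.2 ⟨hy, (List.forall_mem_cons.2 ⟨hp, (List.forall_mem_cons.2 ⟨hq, (List.forall_mem_cons.2 ⟨(hO _ hr), (List.forall_mem_cons.2 ⟨(hO _ hw), fun _ h => by cases h⟩)⟩)⟩)⟩)⟩)⟩)
        exact f_merge_iso_5 (hL.sub (.cons_cons _ (.cons_cons _ (.cons_cons _ (.cons _ (.cons_cons _ (.cons_cons _ (List.nil_sublist _)))))))) hxy (l1 _ hr) (l1 _ hw) nw
    · rcases lt_trichotomy (ρ w) (ρ r) with twr | twr | twr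
      · have hL : T.RotL a [x, y, p, q, w, r, o] := hρ.rotL (by
          simp only [List.map_cons, List.map_nil, List.isChain_cons_cons, List.isChain_singleton, and_true]
          exact ⟨xy, yp, pq, (qO _ hw), twr, tor⟩) (List.forall_mem_cons.2 ⟨hx, (List.forall_mem_cons.2 ⟨hy, (List.forall_mem_cons.2 ⟨hp, (List.forall_mem_cons.2 ⟨hq, (List.forall_mem_cons.2 ⟨(hO _ hw), (List.forall_mem_cons.2 ⟨(hO _ hr), (List.forall_mem_cons.2 ⟨(hO _ ho), fun _ h => by cases h⟩)⟩)⟩)⟩)⟩)⟩)⟩)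
        exact f_merge_iso_7 (hL.sub (.cons_cons _ (.cons_cons _ (.cons_cons _ (.cons_cons _ (.cons_cons _ (.cons_cons _ (List.nil_sublist _)))))))) hxy hpq hc (l1 _ hw) (l1 _ hr) (l2 _ hr) nw
      · have ewr : w = r := hρ.1 _ _ (hO _ hw) (hO _ hr) twr
        have nw2 : T.X a r y p = true := by rw [← ewr]; exact nw
        have hL : T.RotL a [x, y, p, q, r, o] := hρ.rotL (by
          simp only [List.map_cons, List.map_nil, List.isChain_cons_cons, List.isChain_singleton, and_true]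
          exact ⟨xy, yp, pq, (qO _ hr), tor⟩) (List.forall_mem_cons.2 ⟨hx, (List.forall_mem_cons.2 ⟨hy, (List.forall_mem_cons.2 ⟨hp, (List.forall_mem_cons.2 ⟨hq, (List.forall_mem_cons.2 ⟨(hO _ hr), (List.forall_mem_cons.2 ⟨(hO _ ho), fun _ h => by cases h⟩)⟩)⟩)⟩)⟩)⟩)
        exact f_merge_iso_4 (hL.sub (.cons_cons _ (.cons_cons _ (.cons_cons _ (.cons _ (.cons_cons _ (List.nil_sublist _))))))) hxy (l1 _ hr) nw2
      · rcases lt_trichotomy (ρ w) (ρ o) with two | two | two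
        · have hL : T.RotL a [x, y, p, q, r, w, o] := hρ.rotL (by
            simp only [List.map_cons, List.map_nil, List.isChain_cons_cons, List.isChain_singleton, and_true]
            exact ⟨xy, yp, pq, (qO _ hr), twr, two⟩) (List.forall_mem_cons.2 ⟨hx, (List.forall_mem_cons.2 ⟨hy, (List.forall_mem_cons.2 ⟨hp, (List.forall_mem_cons.2 ⟨hq, (List.forall_mem_cons.2 ⟨(hO _ hr), (List.forall_mem_cons.2 ⟨(hO _ hw), (List.forall_mem_cons.2 ⟨(hO _ ho), fun _ h => by cases h⟩)⟩)⟩)⟩)⟩)⟩)⟩)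
          exact f_merge_iso_5 (hL.sub (.cons_cons _ (.cons_cons _ (.cons_cons _ (.cons _ (.cons_cons _ (.cons_cons _ (List.nil_sublist _)))))))) hxy (l1 _ hr) (l1 _ hw) nw
        · have ewo : w = o := hρ.1 _ _ (hO _ hw) (hO _ ho) two
          have nw2 : T.X a o y p = true := by rw [← ewo]; exact nw
          have hL : T.RotL a [x, y, p, q, r, o] := hρ.rotL (by
            simp only [List.map_cons, List.map_nil, List.isChain_cons_cons, List.isChain_singleton, and_true]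
            exact ⟨xy, yp, pq, (qO _ hr), tor⟩) (List.forall_mem_cons.2 ⟨hx, (List.forall_mem_cons.2 ⟨hy, (List.forall_mem_cons.2 ⟨hp, (List.forall_mem_cons.2 ⟨hq, (List.forall_mem_cons.2 ⟨(hO _ hr), (List.forall_mem_cons.2 ⟨(hO _ ho), fun _ h => by cases h⟩)⟩)⟩)⟩)⟩)⟩)
          exact f_merge_iso_8 (hL.sub (.cons_cons _ (.cons_cons _ (.cons_cons _ (.cons _ (.cons_cons _ (.cons_cons _ (List.nil_sublist _)))))))) hxy (l1 _ hr) (l1 _ ho) nw2
        · have hL : T.RotL a [x, y, p, q, r, o, w] := hρ.rotL (by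
            simp only [List.map_cons, List.map_nil, List.isChain_cons_cons, List.isChain_singleton, and_true]
            exact ⟨xy, yp, pq, (qO _ hr), tor, two⟩) (List.forall_mem_cons.2 ⟨hx, (List.forall_mem_cons.2 ⟨hy, (List.forall_mem_cons.2 ⟨hp, (List.forall_mem_cons.2 ⟨hq, (List.forall_mem_cons.2 ⟨(hO _ hr), (List.forall_mem_cons.2 ⟨(hO _ ho), (List.forall_mem_cons.2 ⟨(hO _ hw), fun _ h => by cases h⟩)⟩)⟩)⟩)⟩)⟩)⟩)
          exact f_merge_iso_5 (hL.sub (.cons_cons _ (.cons_cons _ (.cons_cons _ (.cons _ (.cons_cons _ (.cons _ (.cons_cons _ (List.nil_sublist _))))))))) hxy (l1 _ hr) (l1 _ hw) nw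
  · have jv : T.X a p y q = false → T.X a q y p = false → False := fun n1 n2 => adj_t k n1 n2
    rcases lt_trichotomy (ρ o) (ρ r) with tor | tor | tor
    · have hL : T.RotL a [x, y, p, q, o, r] := hρ.rotL (by
        simp only [List.map_cons, List.map_nil, List.isChain_cons_cons, List.isChain_singleton, and_true]
        exact ⟨xy, yp, pq, (qO _ ho), tor⟩) (List.forall_mem_cons.2 ⟨hx, (List.forall_mem_cons.2 ⟨hy, (List.forall_mem_cons.2 ⟨hp, (List.forall_mem_cons.2 ⟨hq, (List.forall_mem_cons.2 ⟨(hO _ ho), (List.forall_mem_cons.2 ⟨(hO _ hr), fun _ h => by cases h⟩)⟩)⟩)⟩)⟩)⟩)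
      exact f_merge_iso_9 (hL.sub (.cons_cons _ (.cons_cons _ (.cons_cons _ (.cons_cons _ (.cons_cons _ (.cons_cons _ (List.nil_sublist _)))))))) hxy hpq hc (l1 _ ho) (l1 _ hr) (l2 _ ho) no jv
    · have eor : o = r := hρ.1 _ _ (hO _ ho) (hO _ hr) tor
      have no2 : T.X a r x q = true := by rw [← eor]; exact no
      have hL : T.RotL a [x, y, p, q, r] := hρ.rotL (by
        simp only [List.map_cons, List.map_nil, List.isChain_cons_cons, List.isChain_singleton, and_true]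
        exact ⟨xy, yp, pq, (qO _ hr)⟩) (List.forall_mem_cons.2 ⟨hx, (List.forall_mem_cons.2 ⟨hy, (List.forall_mem_cons.2 ⟨hp, (List.forall_mem_cons.2 ⟨hq, (List.forall_mem_cons.2 ⟨(hO _ hr), fun _ h => by cases h⟩)⟩)⟩)⟩)⟩)
      exact f_merge_iso_10 (hL.sub (.cons_cons _ (.cons_cons _ (.cons_cons _ (.cons_cons _ (.cons_cons _ (List.nil_sublist _))))))) hxy hpq hc (l1 _ hr) (l2 _ hr) no2 jv
    · have hL : T.RotL a [x, y, p, q, r, o] := hρ.rotL (by
        simp only [List.map_cons, List.map_nil, List.isChain_cons_cons, List.isChain_singleton, and_true]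
        exact ⟨xy, yp, pq, (qO _ hr), tor⟩) (List.forall_mem_cons.2 ⟨hx, (List.forall_mem_cons.2 ⟨hy, (List.forall_mem_cons.2 ⟨hp, (List.forall_mem_cons.2 ⟨hq, (List.forall_mem_cons.2 ⟨(hO _ hr), (List.forall_mem_cons.2 ⟨(hO _ ho), fun _ h => by cases h⟩)⟩)⟩)⟩)⟩)⟩)
      exact f_merge_iso_11 (hL.sub (.cons_cons _ (.cons_cons _ (.cons_cons _ (.cons_cons _ (.cons_cons _ (List.nil_sublist _))))))) hxy hpq hc (l1 _ hr) (l2 _ hr) jv
  · have jv : T.X a x y p = false → T.X a y x p = false → False := fun n1 n2 => adj_t k (by rw [T.xs2]; exact n1) (by rw [T.xs2]; exact n2)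
    rcases lt_trichotomy (ρ o) (ρ r) with tor | tor | tor
    · have hL : T.RotL a [x, y, p, q, o, r] := hρ.rotL (by
        simp only [List.map_cons, List.map_nil, List.isChain_cons_cons, List.isChain_singleton, and_true]
        exact ⟨xy, yp, pq, (qO _ ho), tor⟩) (List.forall_mem_cons.2 ⟨hx, (List.forall_mem_cons.2 ⟨hy, (List.forall_mem_cons.2 ⟨hp, (List.forall_mem_cons.2 ⟨hq, (List.forall_mem_cons.2 ⟨(hO _ ho), (List.forall_mem_cons.2 ⟨(hO _ hr), fun _ h => by cases h⟩)⟩)⟩)⟩)⟩)⟩)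
      exact f_merge_iso_12 (hL.sub (.cons_cons _ (.cons_cons _ (.cons_cons _ (.cons_cons _ (.cons_cons _ (.cons_cons _ (List.nil_sublist _)))))))) hxy hpq hc (l1 _ ho) (l1 _ hr) (l2 _ ho) no jv
    · have eor : o = r := hρ.1 _ _ (hO _ ho) (hO _ hr) tor
      have no2 : T.X a r x q = true := by rw [← eor]; exact no
      have hL : T.RotL a [x, y, p, q, r] := hρ.rotL (by
        simp only [List.map_cons, List.map_nil, List.isChain_cons_cons, List.isChain_singleton, and_true]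
        exact ⟨xy, yp, pq, (qO _ hr)⟩) (List.forall_mem_cons.2 ⟨hx, (List.forall_mem_cons.2 ⟨hy, (List.forall_mem_cons.2 ⟨hp, (List.forall_mem_cons.2 ⟨hq, (List.forall_mem_cons.2 ⟨(hO _ hr), fun _ h => by cases h⟩)⟩)⟩)⟩)⟩)
      exact f_merge_iso_13 (hL.sub (.cons_cons _ (.cons_cons _ (.cons_cons _ (.cons_cons _ (.cons_cons _ (List.nil_sublist _))))))) hxy hpq hc (l1 _ hr) (l2 _ hr) no2 jv
    · have hL : T.RotL a [x, y, p, q, r, o] := hρ.rotL (by
        simp only [List.map_cons, List.map_nil, List.isChain_cons_cons, List.isChain_singleton, and_true]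
        exact ⟨xy, yp, pq, (qO _ hr), tor⟩) (List.forall_mem_cons.2 ⟨hx, (List.forall_mem_cons.2 ⟨hy, (List.forall_mem_cons.2 ⟨hp, (List.forall_mem_cons.2 ⟨hq, (List.forall_mem_cons.2 ⟨(hO _ hr), (List.forall_mem_cons.2 ⟨(hO _ ho), fun _ h => by cases h⟩)⟩)⟩)⟩)⟩)⟩)
      exact f_merge_iso_14 (hL.sub (.cons_cons _ (.cons_cons _ (.cons_cons _ (.cons_cons _ (.cons_cons _ (List.nil_sublist _))))))) hxy hpq hc (l1 _ hr) (l2 _ hr) jv
  · obtain ⟨ju1, ju2⟩ := adj_f j
    rcases lt_trichotomy (ρ w) (ρ r) with twr | twr | twr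
    · have hL : T.RotL a [x, y, p, q, w, r] := hρ.rotL (by
        simp only [List.map_cons, List.map_nil, List.isChain_cons_cons, List.isChain_singleton, and_true]
        exact ⟨xy, yp, pq, (qO _ hw), twr⟩) (List.forall_mem_cons.2 ⟨hx, (List.forall_mem_cons.2 ⟨hy, (List.forall_mem_cons.2 ⟨hp, (List.forall_mem_cons.2 ⟨hq, (List.forall_mem_cons.2 ⟨(hO _ hw), (List.forall_mem_cons.2 ⟨(hO _ hr), fun _ h => by cases h⟩)⟩)⟩)⟩)⟩)⟩)
      exact f_merge_iso_15 (hL.sub (.cons_cons _ (.cons_cons _ (.cons_cons _ (.cons_cons _ (.cons_cons _ (.cons_cons _ (List.nil_sublist _)))))))) hxy hpq hc (l1 _ hw) (l1 _ hr) (l2 _ hr) ju2 nw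
    · have ewr : w = r := hρ.1 _ _ (hO _ hw) (hO _ hr) twr
      have nw2 : T.X a r y p = true := by rw [← ewr]; exact nw
      have hL : T.RotL a [x, y, p, q, r] := hρ.rotL (by
        simp only [List.map_cons, List.map_nil, List.isChain_cons_cons, List.isChain_singleton, and_true]
        exact ⟨xy, yp, pq, (qO _ hr)⟩) (List.forall_mem_cons.2 ⟨hx, (List.forall_mem_cons.2 ⟨hy, (List.forall_mem_cons.2 ⟨hp, (List.forall_mem_cons.2 ⟨hq, (List.forall_mem_cons.2 ⟨(hO _ hr), fun _ h => by cases h⟩)⟩)⟩)⟩)⟩)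
      exact f_merge_iso_4 (hL.sub (.cons_cons _ (.cons_cons _ (.cons_cons _ (.cons _ (.cons_cons _ (List.nil_sublist _))))))) hxy (l1 _ hr) nw2
    · have hL : T.RotL a [x, y, p, q, r, w] := hρ.rotL (by
        simp only [List.map_cons, List.map_nil, List.isChain_cons_cons, List.isChain_singleton, and_true]
        exact ⟨xy, yp, pq, (qO _ hr), twr⟩) (List.forall_mem_cons.2 ⟨hx, (List.forall_mem_cons.2 ⟨hy, (List.forall_mem_cons.2 ⟨hp, (List.forall_mem_cons.2 ⟨hq, (List.forall_mem_cons.2 ⟨(hO _ hr), (List.forall_mem_cons.2 ⟨(hO _ hw), fun _ h => by cases h⟩)⟩)⟩)⟩)⟩)⟩)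
      exact f_merge_iso_5 (hL.sub (.cons_cons _ (.cons_cons _ (.cons_cons _ (.cons _ (.cons_cons _ (.cons_cons _ (List.nil_sublist _)))))))) hxy (l1 _ hr) (l1 _ hw) nw
  · obtain ⟨ju1, ju2⟩ := adj_f j
    have jv : T.X a p y q = false → T.X a q y p = false → False := fun n1 n2 => adj_t k n1 n2
    have hL : T.RotL a [x, y, p, q, r] := hρ.rotL (by
      simp only [List.map_cons, List.map_nil, List.isChain_cons_cons, List.isChain_singleton, and_true]
      exact ⟨xy, yp, pq, (qO _ hr)⟩) (List.forall_mem_cons.2 ⟨hx, (List.forall_mem_cons.2 ⟨hy, (List.forall_mem_cons.2 ⟨hp, (List.forall_mem_cons.2 ⟨hq, (List.forall_mem_cons.2 ⟨(hO _ hr), fun _ h => by cases h⟩)⟩)⟩)⟩)⟩)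
    exact f_merge_iso_16 (hL.sub (.cons_cons _ (.cons_cons _ (.cons_cons _ (.cons_cons _ (.cons_cons _ (List.nil_sublist _))))))) hxy hpq hc (l1 _ hr) (l2 _ hr) ju1 ju2 jv
  · obtain ⟨ju1, ju2⟩ := adj_f j
    have jv : T.X a x y p = false → T.X a y x p = false → False := fun n1 n2 => adj_t k (by rw [T.xs2]; exact n1) (by rw [T.xs2]; exact n2)
    have hL : T.RotL a [x, y, p, q, r] := hρ.rotL (by
      simp only [List.map_cons, List.map_nil, List.isChain_cons_cons, List.isChain_singleton, and_true]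
      exact ⟨xy, yp, pq, (qO _ hr)⟩) (List.forall_mem_cons.2 ⟨hx, (List.forall_mem_cons.2 ⟨hy, (List.forall_mem_cons.2 ⟨hp, (List.forall_mem_cons.2 ⟨hq, (List.forall_mem_cons.2 ⟨(hO _ hr), fun _ h => by cases h⟩)⟩)⟩)⟩)⟩)
    exact f_merge_iso_17 (hL.sub (.cons_cons _ (.cons_cons _ (.cons_cons _ (.cons_cons _ (.cons_cons _ (List.nil_sublist _))))))) hxy hpq hc (l1 _ hr) (l2 _ hr) ju2 jv
  · obtain ⟨ju1, ju2⟩ := adj_f j
    rw [T.xs2] at ju1
    rw [T.xs2] at ju2
    rcases lt_trichotomy (ρ w) (ρ r) with twr | twr | twr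
    · have hL : T.RotL a [x, y, p, q, w, r] := hρ.rotL (by
        simp only [List.map_cons, List.map_nil, List.isChain_cons_cons, List.isChain_singleton, and_true]
        exact ⟨xy, yp, pq, (qO _ hw), twr⟩) (List.forall_mem_cons.2 ⟨hx, (List.forall_mem_cons.2 ⟨hy, (List.forall_mem_cons.2 ⟨hp, (List.forall_mem_cons.2 ⟨hq, (List.forall_mem_cons.2 ⟨(hO _ hw), (List.forall_mem_cons.2 ⟨(hO _ hr), fun _ h => by cases h⟩)⟩)⟩)⟩)⟩)⟩)
      exact f_merge_iso_18 (hL.sub (.cons_cons _ (.cons_cons _ (.cons_cons _ (.cons_cons _ (.cons_cons _ (.cons_cons _ (List.nil_sublist _)))))))) hxy hpq hc (l1 _ hw) (l1 _ hr) ju1 nw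
    · have ewr : w = r := hρ.1 _ _ (hO _ hw) (hO _ hr) twr
      have nw2 : T.X a r y p = true := by rw [← ewr]; exact nw
      have hL : T.RotL a [x, y, p, q, r] := hρ.rotL (by
        simp only [List.map_cons, List.map_nil, List.isChain_cons_cons, List.isChain_singleton, and_true]
        exact ⟨xy, yp, pq, (qO _ hr)⟩) (List.forall_mem_cons.2 ⟨hx, (List.forall_mem_cons.2 ⟨hy, (List.forall_mem_cons.2 ⟨hp, (List.forall_mem_cons.2 ⟨hq, (List.forall_mem_cons.2 ⟨(hO _ hr), fun _ h => by cases h⟩)⟩)⟩)⟩)⟩)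
      exact f_merge_iso_4 (hL.sub (.cons_cons _ (.cons_cons _ (.cons_cons _ (.cons _ (.cons_cons _ (List.nil_sublist _))))))) hxy (l1 _ hr) nw2
    · have hL : T.RotL a [x, y, p, q, r, w] := hρ.rotL (by
        simp only [List.map_cons, List.map_nil, List.isChain_cons_cons, List.isChain_singleton, and_true]
        exact ⟨xy, yp, pq, (qO _ hr), twr⟩) (List.forall_mem_cons.2 ⟨hx, (List.forall_mem_cons.2 ⟨hy, (List.forall_mem_cons.2 ⟨hp, (List.forall_mem_cons.2 ⟨hq, (List.forall_mem_cons.2 ⟨(hO _ hr), (List.forall_mem_cons.2 ⟨(hO _ hw), fun _ h => by cases h⟩)⟩)⟩)⟩)⟩)⟩)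
      exact f_merge_iso_5 (hL.sub (.cons_cons _ (.cons_cons _ (.cons_cons _ (.cons _ (.cons_cons _ (.cons_cons _ (List.nil_sublist _)))))))) hxy (l1 _ hr) (l1 _ hw) nw
  · obtain ⟨ju1, ju2⟩ := adj_f j
    rw [T.xs2] at ju1
    rw [T.xs2] at ju2
    have jv : T.X a p y q = false → T.X a q y p = false → False := fun n1 n2 => adj_t k n1 n2
    have hL : T.RotL a [x, y, p, q, r] := hρ.rotL (by
      simp only [List.map_cons, List.map_nil, List.isChain_cons_cons, List.isChain_singleton, and_true]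
      exact ⟨xy, yp, pq, (qO _ hr)⟩) (List.forall_mem_cons.2 ⟨hx, (List.forall_mem_cons.2 ⟨hy, (List.forall_mem_cons.2 ⟨hp, (List.forall_mem_cons.2 ⟨hq, (List.forall_mem_cons.2 ⟨(hO _ hr), fun _ h => by cases h⟩)⟩)⟩)⟩)⟩)
    exact f_merge_iso_19 (hL.sub (.cons_cons _ (.cons_cons _ (.cons_cons _ (.cons_cons _ (.cons_cons _ (List.nil_sublist _))))))) hxy hpq hc (l1 _ hr) ju1 ju2 jv
  · obtain ⟨ju1, ju2⟩ := adj_f j
    rw [T.xs2] at ju1
    rw [T.xs2] at ju2
    have jv : T.X a x y p = false → T.X a y x p = false → False := fun n1 n2 => adj_t k (by rw [T.xs2]; exact n1) (by rw [T.xs2]; exact n2)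
    have hL : T.RotL a [x, y, p, q, r] := hρ.rotL (by
      simp only [List.map_cons, List.map_nil, List.isChain_cons_cons, List.isChain_singleton, and_true]
      exact ⟨xy, yp, pq, (qO _ hr)⟩) (List.forall_mem_cons.2 ⟨hx, (List.forall_mem_cons.2 ⟨hy, (List.forall_mem_cons.2 ⟨hp, (List.forall_mem_cons.2 ⟨hq, (List.forall_mem_cons.2 ⟨(hO _ hr), fun _ h => by cases h⟩)⟩)⟩)⟩)⟩)
    exact f_merge_iso_20 (hL.sub (.cons_cons _ (.cons_cons _ (.cons_cons _ (.cons_cons _ (.cons_cons _ (List.nil_sublist _))))))) hxy hpq hc (l1 _ hr) ju1 jv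

theorem merge_anti {a : V} {ρ : V → ℝ} (hρ : T.Ord a ρ) {O : Finset V} {r x y p q : V}
    (hr : r ∈ O) (hx : x ≠ a) (hy : y ≠ a) (hp : p ≠ a) (hq : q ≠ a) (hO : ∀ o ∈ O, o ≠ a)
    (xy : ρ x < ρ y) (yp : ρ y < ρ p) (pq : ρ p < ρ q) (qO : ∀ o ∈ O, ρ q < ρ o)
    (hxy : T.X a r x y = true) (hpq : T.X a r p q = true)
    (l1 : ∀ o ∈ O, T.X a o x q = false) (l2 : ∀ o ∈ O, T.X a o y p = false)
    (hc : T.X x q y p = true)
    (b1 : ¬ ((∀ o ∈ O, T.X a o x p = false) ∧ T.adj a x p q = false ∧ T.adj a p x y = true))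
    (b2 : ¬ ((∀ o ∈ O, T.X a o y q = false) ∧ T.adj a y p q = true ∧ T.adj a q x y = false)) : False := by
  rcases nb3 b1 with ⟨o, ho, no⟩ | j | j <;> rcases nb3 b2 with ⟨w, hw, nw⟩ | k | k
  · rcases lt_trichotomy (ρ o) (ρ r) with tor | tor | tor
    · rcases lt_trichotomy (ρ w) (ρ o) with two | two | two
      · have hL : T.RotL a [x, y, p, q, w, o, r] := hρ.rotL (by
          simp only [List.map_cons, List.map_nil, List.isChain_cons_cons, List.isChain_singleton, and_true]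
          exact ⟨xy, yp, pq, (qO _ hw), two, tor⟩) (List.forall_mem_cons.2 ⟨hx, (List.forall_mem_cons.2 ⟨hy, (List.forall_mem_cons.2 ⟨hp, (List.forall_mem_cons.2 ⟨hq, (List.forall_mem_cons.2 ⟨(hO _ hw), (List.forall_mem_cons.2 ⟨(hO _ ho), (List.forall_mem_cons.2 ⟨(hO _ hr), fun _ h => by cases h⟩)⟩)⟩)⟩)⟩)⟩)⟩)
        exact f_merge_anti_21 (hL.sub (.cons_cons _ (.cons_cons _ (.cons_cons _ (.cons_cons _ (.cons_cons _ (.cons_cons _ (.cons_cons _ (List.nil_sublist _))))))))) hxy hpq hc (l1 _ hw) (l1 _ ho) (l1 _ hr) (l2 _ hw) (l2 _ ho) no nw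
      · have ewo : w = o := hρ.1 _ _ (hO _ hw) (hO _ ho) two
        have nw2 : T.X a o y q = true := by rw [← ewo]; exact nw
        have hL : T.RotL a [x, y, p, q, o, r] := hρ.rotL (by
          simp only [List.map_cons, List.map_nil, List.isChain_cons_cons, List.isChain_singleton, and_true]
          exact ⟨xy, yp, pq, (qO _ ho), tor⟩) (List.forall_mem_cons.2 ⟨hx, (List.forall_mem_cons.2 ⟨hy, (List.forall_mem_cons.2 ⟨hp, (List.forall_mem_cons.2 ⟨hq, (List.forall_mem_cons.2 ⟨(hO _ ho), (List.forall_mem_cons.2 ⟨(hO _ hr), fun _ h => by cases h⟩)⟩)⟩)⟩)⟩)⟩)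
        exact f_merge_anti_22 (hL.sub (.cons_cons _ (.cons_cons _ (.cons_cons _ (.cons_cons _ (.cons_cons _ (.cons_cons _ (List.nil_sublist _)))))))) hxy hpq hc (l1 _ ho) (l1 _ hr) (l2 _ ho) no nw2
      · rcases lt_trichotomy (ρ w) (ρ r) with twr | twr | twr
        · have hL : T.RotL a [x, y, p, q, o, w, r] := hρ.rotL (by
            simp only [List.map_cons, List.map_nil, List.isChain_cons_cons, List.isChain_singleton, and_true]
            exact ⟨xy, yp, pq, (qO _ ho), two, twr⟩) (List.forall_mem_cons.2 ⟨hx, (List.forall_mem_cons.2 ⟨hy, (List.forall_mem_cons.2 ⟨hp, (List.forall_mem_cons.2 ⟨hq, (List.forall_mem_cons.2 ⟨(hO _ ho), (List.forall_mem_cons.2 ⟨(hO _ hw), (List.forall_mem_cons.2 ⟨(hO _ hr), fun _ h => by cases h⟩)⟩)⟩)⟩)⟩)⟩)⟩)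
          exact f_merge_anti_23 (hL.sub (.cons_cons _ (.cons_cons _ (.cons_cons _ (.cons_cons _ (.cons_cons _ (.cons_cons _ (.cons_cons _ (List.nil_sublist _))))))))) hxy hpq hc (l1 _ ho) (l1 _ hw) (l1 _ hr) (l2 _ ho) (l2 _ hw) no nw
        · have ewr : w = r := hρ.1 _ _ (hO _ hw) (hO _ hr) twr
          have nw2 : T.X a r y q = true := by rw [← ewr]; exact nw
          have hL : T.RotL a [x, y, p, q, o, r] := hρ.rotL (by
            simp only [List.map_cons, List.map_nil, List.isChain_cons_cons, List.isChain_singleton, and_true]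
            exact ⟨xy, yp, pq, (qO _ ho), tor⟩) (List.forall_mem_cons.2 ⟨hx, (List.forall_mem_cons.2 ⟨hy, (List.forall_mem_cons.2 ⟨hp, (List.forall_mem_cons.2 ⟨hq, (List.forall_mem_cons.2 ⟨(hO _ ho), (List.forall_mem_cons.2 ⟨(hO _ hr), fun _ h => by cases h⟩)⟩)⟩)⟩)⟩)⟩)
          exact f_merge_anti_24 (hL.sub (.cons_cons _ (.cons_cons _ (.cons _ (.cons_cons _ (.cons _ (.cons_cons _ (List.nil_sublist _)))))))) hxy (l1 _ hr) nw2
        · have hL : T.RotL a [x, y, p, q, o, r, w] := hρ.rotL (by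
            simp only [List.map_cons, List.map_nil, List.isChain_cons_cons, List.isChain_singleton, and_true]
            exact ⟨xy, yp, pq, (qO _ ho), tor, twr⟩) (List.forall_mem_cons.2 ⟨hx, (List.forall_mem_cons.2 ⟨hy, (List.forall_mem_cons.2 ⟨hp, (List.forall_mem_cons.2 ⟨hq, (List.forall_mem_cons.2 ⟨(hO _ ho), (List.forall_mem_cons.2 ⟨(hO _ hr), (List.forall_mem_cons.2 ⟨(hO _ hw), fun _ h => by cases h⟩)⟩)⟩)⟩)⟩)⟩)⟩)
          exact f_merge_anti_25 (hL.sub (.cons_cons _ (.cons_cons _ (.cons_cons _ (.cons_cons _ (.cons_cons _ (.cons_cons _ (.cons_cons _ (List.nil_sublist _))))))))) hxy hpq hc (l1 _ ho) (l1 _ hr) (l1 _ hw) (l2 _ ho) (l2 _ hr) no nw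
    · have eor : o = r := hρ.1 _ _ (hO _ ho) (hO _ hr) tor
      have no2 : T.X a r x p = true := by rw [← eor]; exact no
      rcases lt_trichotomy (ρ w) (ρ r) with twr | twr | twr
      · have hL : T.RotL a [x, y, p, q, w, r] := hρ.rotL (by
          simp only [List.map_cons, List.map_nil, List.isChain_cons_cons, List.isChain_singleton, and_true]
          exact ⟨xy, yp, pq, (qO _ hw), twr⟩) (List.forall_mem_cons.2 ⟨hx, (List.forall_mem_cons.2 ⟨hy, (List.forall_mem_cons.2 ⟨hp, (List.forall_mem_cons.2 ⟨hq, (List.forall_mem_cons.2 ⟨(hO _ hw), (List.forall_mem_cons.2 ⟨(hO _ hr), fun _ h => by cases h⟩)⟩)⟩)⟩)⟩)⟩)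
        exact f_merge_anti_26 (hL.sub (.cons_cons _ (.cons _ (.cons_cons _ (.cons_cons _ (.cons _ (.cons_cons _ (List.nil_sublist _)))))))) hpq (l1 _ hr) no2
      · have ewr : w = r := hρ.1 _ _ (hO _ hw) (hO _ hr) twr
        have nw2 : T.X a r y q = true := by rw [← ewr]; exact nw
        have hL : T.RotL a [x, y, p, q, r] := hρ.rotL (by
          simp only [List.map_cons, List.map_nil, List.isChain_cons_cons, List.isChain_singleton, and_true]
          exact ⟨xy, yp, pq, (qO _ hr)⟩) (List.forall_mem_cons.2 ⟨hx, (List.forall_mem_cons.2 ⟨hy, (List.forall_mem_cons.2 ⟨hp, (List.forall_mem_cons.2 ⟨hq, (List.forall_mem_cons.2 ⟨(hO _ hr), fun _ h => by cases h⟩)⟩)⟩)⟩)⟩)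
        exact f_merge_anti_24 (hL.sub (.cons_cons _ (.cons_cons _ (.cons _ (.cons_cons _ (.cons_cons _ (List.nil_sublist _))))))) hxy (l1 _ hr) nw2
      · have hL : T.RotL a [x, y, p, q, r, w] := hρ.rotL (by
          simp only [List.map_cons, List.map_nil, List.isChain_cons_cons, List.isChain_singleton, and_true]
          exact ⟨xy, yp, pq, (qO _ hr), twr⟩) (List.forall_mem_cons.2 ⟨hx, (List.forall_mem_cons.2 ⟨hy, (List.forall_mem_cons.2 ⟨hp, (List.forall_mem_cons.2 ⟨hq, (List.forall_mem_cons.2 ⟨(hO _ hr), (List.forall_mem_cons.2 ⟨(hO _ hw), fun _ h => by cases h⟩)⟩)⟩)⟩)⟩)⟩)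
        exact f_merge_anti_26 (hL.sub (.cons_cons _ (.cons _ (.cons_cons _ (.cons_cons _ (.cons_cons _ (List.nil_sublist _))))))) hpq (l1 _ hr) no2
    · rcases lt_trichotomy (ρ w) (ρ r) with twr | twr | twr
      · have hL : T.RotL a [x, y, p, q, w, r, o] := hρ.rotL (by
          simp only [List.map_cons, List.map_nil, List.isChain_cons_cons, List.isChain_singleton, and_true]
          exact ⟨xy, yp, pq, (qO _ hw), twr, tor⟩) (List.forall_mem_cons.2 ⟨hx, (List.forall_mem_cons.2 ⟨hy, (List.forall_mem_cons.2 ⟨hp, (List.forall_mem_cons.2 ⟨hq, (List.forall_mem_cons.2 ⟨(hO _ hw), (List.forall_mem_cons.2 ⟨(hO _ hr), (List.forall_mem_cons.2 ⟨(hO _ ho), fun _ h => by cases h⟩)⟩)⟩)⟩)⟩)⟩)⟩)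
        exact f_merge_anti_27 (hL.sub (.cons_cons _ (.cons_cons _ (.cons_cons _ (.cons_cons _ (.cons_cons _ (.cons_cons _ (.cons_cons _ (List.nil_sublist _))))))))) hxy hpq hc (l1 _ hw) (l1 _ hr) (l1 _ ho) (l2 _ hw) (l2 _ hr) no nw
      · have ewr : w = r := hρ.1 _ _ (hO _ hw) (hO _ hr) twr
        have nw2 : T.X a r y q = true := by rw [← ewr]; exact nw
        have hL : T.RotL a [x, y, p, q, r, o] := hρ.rotL (by
          simp only [List.map_cons, List.map_nil, List.isChain_cons_cons, List.isChain_singleton, and_true]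
          exact ⟨xy, yp, pq, (qO _ hr), tor⟩) (List.forall_mem_cons.2 ⟨hx, (List.forall_mem_cons.2 ⟨hy, (List.forall_mem_cons.2 ⟨hp, (List.forall_mem_cons.2 ⟨hq, (List.forall_mem_cons.2 ⟨(hO _ hr), (List.forall_mem_cons.2 ⟨(hO _ ho), fun _ h => by cases h⟩)⟩)⟩)⟩)⟩)⟩)
        exact f_merge_anti_24 (hL.sub (.cons_cons _ (.cons_cons _ (.cons _ (.cons_cons _ (.cons_cons _ (List.nil_sublist _))))))) hxy (l1 _ hr) nw2
      · rcases lt_trichotomy (ρ w) (ρ o) with two | two | two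
        · have hL : T.RotL a [x, y, p, q, r, w, o] := hρ.rotL (by
            simp only [List.map_cons, List.map_nil, List.isChain_cons_cons, List.isChain_singleton, and_true]
            exact ⟨xy, yp, pq, (qO _ hr), twr, two⟩) (List.forall_mem_cons.2 ⟨hx, (List.forall_mem_cons.2 ⟨hy, (List.forall_mem_cons.2 ⟨hp, (List.forall_mem_cons.2 ⟨hq, (List.forall_mem_cons.2 ⟨(hO _ hr), (List.forall_mem_cons.2 ⟨(hO _ hw), (List.forall_mem_cons.2 ⟨(hO _ ho), fun _ h => by cases h⟩)⟩)⟩)⟩)⟩)⟩)⟩)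
          exact f_merge_anti_28 (hL.sub (.cons_cons _ (.cons_cons _ (.cons_cons _ (.cons_cons _ (.cons_cons _ (.cons_cons _ (.cons_cons _ (List.nil_sublist _))))))))) hxy hpq hc (l1 _ hr) (l1 _ hw) (l1 _ ho) (l2 _ hr) no nw
        · have ewo : w = o := hρ.1 _ _ (hO _ hw) (hO _ ho) two
          have nw2 : T.X a o y q = true := by rw [← ewo]; exact nw
          have hL : T.RotL a [x, y, p, q, r, o] := hρ.rotL (by
            simp only [List.map_cons, List.map_nil, List.isChain_cons_cons, List.isChain_singleton, and_true]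
            exact ⟨xy, yp, pq, (qO _ hr), tor⟩) (List.forall_mem_cons.2 ⟨hx, (List.forall_mem_cons.2 ⟨hy, (List.forall_mem_cons.2 ⟨hp, (List.forall_mem_cons.2 ⟨hq, (List.forall_mem_cons.2 ⟨(hO _ hr), (List.forall_mem_cons.2 ⟨(hO _ ho), fun _ h => by cases h⟩)⟩)⟩)⟩)⟩)⟩)
          exact f_merge_anti_29 (hL.sub (.cons_cons _ (.cons_cons _ (.cons_cons _ (.cons_cons _ (.cons_cons _ (.cons_cons _ (List.nil_sublist _)))))))) hxy hpq hc (l1 _ hr) (l1 _ ho) (l2 _ hr) (l2 _ ho) no nw2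
        · have hL : T.RotL a [x, y, p, q, r, o, w] := hρ.rotL (by
            simp only [List.map_cons, List.map_nil, List.isChain_cons_cons, List.isChain_singleton, and_true]
            exact ⟨xy, yp, pq, (qO _ hr), tor, two⟩) (List.forall_mem_cons.2 ⟨hx, (List.forall_mem_cons.2 ⟨hy, (List.forall_mem_cons.2 ⟨hp, (List.forall_mem_cons.2 ⟨hq, (List.forall_mem_cons.2 ⟨(hO _ hr), (List.forall_mem_cons.2 ⟨(hO _ ho), (List.forall_mem_cons.2 ⟨(hO _ hw), fun _ h => by cases h⟩)⟩)⟩)⟩)⟩)⟩)⟩)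
          exact f_merge_anti_30 (hL.sub (.cons_cons _ (.cons_cons _ (.cons_cons _ (.cons_cons _ (.cons_cons _ (.cons_cons _ (.cons_cons _ (List.nil_sublist _))))))))) hxy hpq hc (l1 _ hr) (l1 _ ho) (l1 _ hw) (l2 _ hr) no nw
  · obtain ⟨jv1, jv2⟩ := adj_f k
    rcases lt_trichotomy (ρ o) (ρ r) with tor | tor | tor
    · have hL : T.RotL a [x, y, p, q, o, r] := hρ.rotL (by
        simp only [List.map_cons, List.map_nil, List.isChain_cons_cons, List.isChain_singleton, and_true]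
        exact ⟨xy, yp, pq, (qO _ ho), tor⟩) (List.forall_mem_cons.2 ⟨hx, (List.forall_mem_cons.2 ⟨hy, (List.forall_mem_cons.2 ⟨hp, (List.forall_mem_cons.2 ⟨hq, (List.forall_mem_cons.2 ⟨(hO _ ho), (List.forall_mem_cons.2 ⟨(hO _ hr), fun _ h => by cases h⟩)⟩)⟩)⟩)⟩)⟩)
      exact f_merge_anti_31 (hL.sub (.cons_cons _ (.cons_cons _ (.cons_cons _ (.cons_cons _ (.cons_cons _ (.cons_cons _ (List.nil_sublist _)))))))) hxy hpq hc (l1 _ ho) (l1 _ hr) no jv1 jv2
    · have eor : o = r := hρ.1 _ _ (hO _ ho) (hO _ hr) tor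
      have no2 : T.X a r x p = true := by rw [← eor]; exact no
      have hL : T.RotL a [x, y, p, q, r] := hρ.rotL (by
        simp only [List.map_cons, List.map_nil, List.isChain_cons_cons, List.isChain_singleton, and_true]
        exact ⟨xy, yp, pq, (qO _ hr)⟩) (List.forall_mem_cons.2 ⟨hx, (List.forall_mem_cons.2 ⟨hy, (List.forall_mem_cons.2 ⟨hp, (List.forall_mem_cons.2 ⟨hq, (List.forall_mem_cons.2 ⟨(hO _ hr), fun _ h => by cases h⟩)⟩)⟩)⟩)⟩)
      exact f_merge_anti_26 (hL.sub (.cons_cons _ (.cons _ (.cons_cons _ (.cons_cons _ (.cons_cons _ (List.nil_sublist _))))))) hpq (l1 _ hr) no2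
    · have hL : T.RotL a [x, y, p, q, r, o] := hρ.rotL (by
        simp only [List.map_cons, List.map_nil, List.isChain_cons_cons, List.isChain_singleton, and_true]
        exact ⟨xy, yp, pq, (qO _ hr), tor⟩) (List.forall_mem_cons.2 ⟨hx, (List.forall_mem_cons.2 ⟨hy, (List.forall_mem_cons.2 ⟨hp, (List.forall_mem_cons.2 ⟨hq, (List.forall_mem_cons.2 ⟨(hO _ hr), (List.forall_mem_cons.2 ⟨(hO _ ho), fun _ h => by cases h⟩)⟩)⟩)⟩)⟩)⟩)
      exact f_merge_anti_32 (hL.sub (.cons_cons _ (.cons_cons _ (.cons_cons _ (.cons_cons _ (.cons_cons _ (.cons_cons _ (List.nil_sublist _)))))))) hxy hpq hc (l1 _ hr) (l1 _ ho) no jv1 jv2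
  · have jv : T.X a x y q = false → T.X a y x q = false → False := fun n1 n2 => adj_t k (by rw [T.xs2]; exact n1) (by rw [T.xs2]; exact n2)
    rcases lt_trichotomy (ρ o) (ρ r) with tor | tor | tor
    · have hL : T.RotL a [x, y, p, q, o, r] := hρ.rotL (by
        simp only [List.map_cons, List.map_nil, List.isChain_cons_cons, List.isChain_singleton, and_true]
        exact ⟨xy, yp, pq, (qO _ ho), tor⟩) (List.forall_mem_cons.2 ⟨hx, (List.forall_mem_cons.2 ⟨hy, (List.forall_mem_cons.2 ⟨hp, (List.forall_mem_cons.2 ⟨hq, (List.forall_mem_cons.2 ⟨(hO _ ho), (List.forall_mem_cons.2 ⟨(hO _ hr), fun _ h => by cases h⟩)⟩)⟩)⟩)⟩)⟩)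
      exact f_merge_anti_33 (hL.sub (.cons_cons _ (.cons_cons _ (.cons_cons _ (.cons_cons _ (.cons_cons _ (.cons_cons _ (List.nil_sublist _)))))))) hxy hpq hc (l1 _ ho) (l1 _ hr) (l2 _ ho) (l2 _ hr) no jv
    · have eor : o = r := hρ.1 _ _ (hO _ ho) (hO _ hr) tor
      have no2 : T.X a r x p = true := by rw [← eor]; exact no
      have hL : T.RotL a [x, y, p, q, r] := hρ.rotL (by
        simp only [List.map_cons, List.map_nil, List.isChain_cons_cons, List.isChain_singleton, and_true]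
        exact ⟨xy, yp, pq, (qO _ hr)⟩) (List.forall_mem_cons.2 ⟨hx, (List.forall_mem_cons.2 ⟨hy, (List.forall_mem_cons.2 ⟨hp, (List.forall_mem_cons.2 ⟨hq, (List.forall_mem_cons.2 ⟨(hO _ hr), fun _ h => by cases h⟩)⟩)⟩)⟩)⟩)
      exact f_merge_anti_26 (hL.sub (.cons_cons _ (.cons _ (.cons_cons _ (.cons_cons _ (.cons_cons _ (List.nil_sublist _))))))) hpq (l1 _ hr) no2
    · have hL : T.RotL a [x, y, p, q, r, o] := hρ.rotL (by
        simp only [List.map_cons, List.map_nil, List.isChain_cons_cons, List.isChain_singleton, and_true]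
        exact ⟨xy, yp, pq, (qO _ hr), tor⟩) (List.forall_mem_cons.2 ⟨hx, (List.forall_mem_cons.2 ⟨hy, (List.forall_mem_cons.2 ⟨hp, (List.forall_mem_cons.2 ⟨hq, (List.forall_mem_cons.2 ⟨(hO _ hr), (List.forall_mem_cons.2 ⟨(hO _ ho), fun _ h => by cases h⟩)⟩)⟩)⟩)⟩)⟩)
      exact f_merge_anti_34 (hL.sub (.cons_cons _ (.cons_cons _ (.cons_cons _ (.cons_cons _ (.cons_cons _ (.cons_cons _ (List.nil_sublist _)))))))) hxy hpq hc (l1 _ hr) (l1 _ ho) (l2 _ hr) no jv
  · have ju : T.X a p x q = false → T.X a q x p = false → False := fun n1 n2 => adj_t j n1 n2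
    rcases lt_trichotomy (ρ w) (ρ r) with twr | twr | twr
    · have hL : T.RotL a [x, y, p, q, w, r] := hρ.rotL (by
        simp only [List.map_cons, List.map_nil, List.isChain_cons_cons, List.isChain_singleton, and_true]
        exact ⟨xy, yp, pq, (qO _ hw), twr⟩) (List.forall_mem_cons.2 ⟨hx, (List.forall_mem_cons.2 ⟨hy, (List.forall_mem_cons.2 ⟨hp, (List.forall_mem_cons.2 ⟨hq, (List.forall_mem_cons.2 ⟨(hO _ hw), (List.forall_mem_cons.2 ⟨(hO _ hr), fun _ h => by cases h⟩)⟩)⟩)⟩)⟩)⟩)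
      exact f_merge_anti_35 (hL.sub (.cons_cons _ (.cons_cons _ (.cons_cons _ (.cons_cons _ (.cons_cons _ (.cons_cons _ (List.nil_sublist _)))))))) hxy hpq hc (l1 _ hw) (l1 _ hr) (l2 _ hw) (l2 _ hr) ju nw
    · have ewr : w = r := hρ.1 _ _ (hO _ hw) (hO _ hr) twr
      have nw2 : T.X a r y q = true := by rw [← ewr]; exact nw
      have hL : T.RotL a [x, y, p, q, r] := hρ.rotL (by
        simp only [List.map_cons, List.map_nil, List.isChain_cons_cons, List.isChain_singleton, and_true]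
        exact ⟨xy, yp, pq, (qO _ hr)⟩) (List.forall_mem_cons.2 ⟨hx, (List.forall_mem_cons.2 ⟨hy, (List.forall_mem_cons.2 ⟨hp, (List.forall_mem_cons.2 ⟨hq, (List.forall_mem_cons.2 ⟨(hO _ hr), fun _ h => by cases h⟩)⟩)⟩)⟩)⟩)
      exact f_merge_anti_24 (hL.sub (.cons_cons _ (.cons_cons _ (.cons _ (.cons_cons _ (.cons_cons _ (List.nil_sublist _))))))) hxy (l1 _ hr) nw2
    · have hL : T.RotL a [x, y, p, q, r, w] := hρ.rotL (by
        simp only [List.map_cons, List.map_nil, List.isChain_cons_cons, List.isChain_singleton, and_true]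
        exact ⟨xy, yp, pq, (qO _ hr), twr⟩) (List.forall_mem_cons.2 ⟨hx, (List.forall_mem_cons.2 ⟨hy, (List.forall_mem_cons.2 ⟨hp, (List.forall_mem_cons.2 ⟨hq, (List.forall_mem_cons.2 ⟨(hO _ hr), (List.forall_mem_cons.2 ⟨(hO _ hw), fun _ h => by cases h⟩)⟩)⟩)⟩)⟩)⟩)
      exact f_merge_anti_36 (hL.sub (.cons_cons _ (.cons_cons _ (.cons_cons _ (.cons_cons _ (.cons_cons _ (.cons_cons _ (List.nil_sublist _)))))))) hxy hpq hc (l1 _ hr) (l1 _ hw) (l2 _ hr) ju nw
  · have ju : T.X a p x q = false → T.X a q x p = false → False := fun n1 n2 => adj_t j n1 n2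
    obtain ⟨jv1, jv2⟩ := adj_f k
    have hL : T.RotL a [x, y, p, q, r] := hρ.rotL (by
      simp only [List.map_cons, List.map_nil, List.isChain_cons_cons, List.isChain_singleton, and_true]
      exact ⟨xy, yp, pq, (qO _ hr)⟩) (List.forall_mem_cons.2 ⟨hx, (List.forall_mem_cons.2 ⟨hy, (List.forall_mem_cons.2 ⟨hp, (List.forall_mem_cons.2 ⟨hq, (List.forall_mem_cons.2 ⟨(hO _ hr), fun _ h => by cases h⟩)⟩)⟩)⟩)⟩)
    exact f_merge_anti_37 (hL.sub (.cons_cons _ (.cons_cons _ (.cons_cons _ (.cons_cons _ (.cons_cons _ (List.nil_sublist _))))))) hxy hpq hc (l1 _ hr) ju jv1 jv2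
  · have ju : T.X a p x q = false → T.X a q x p = false → False := fun n1 n2 => adj_t j n1 n2
    have jv : T.X a x y q = false → T.X a y x q = false → False := fun n1 n2 => adj_t k (by rw [T.xs2]; exact n1) (by rw [T.xs2]; exact n2)
    have hL : T.RotL a [x, y, p, q, r] := hρ.rotL (by
      simp only [List.map_cons, List.map_nil, List.isChain_cons_cons, List.isChain_singleton, and_true]
      exact ⟨xy, yp, pq, (qO _ hr)⟩) (List.forall_mem_cons.2 ⟨hx, (List.forall_mem_cons.2 ⟨hy, (List.forall_mem_cons.2 ⟨hp, (List.forall_mem_cons.2 ⟨hq, (List.forall_mem_cons.2 ⟨(hO _ hr), fun _ h => by cases h⟩)⟩)⟩)⟩)⟩)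
    exact f_merge_anti_38 (hL.sub (.cons_cons _ (.cons_cons _ (.cons_cons _ (.cons_cons _ (.cons_cons _ (List.nil_sublist _))))))) hxy hpq hc (l1 _ hr) (l2 _ hr) ju jv
  · obtain ⟨ju1, ju2⟩ := adj_f j
    rw [T.xs2] at ju1
    rw [T.xs2] at ju2
    rcases lt_trichotomy (ρ w) (ρ r) with twr | twr | twr
    · have hL : T.RotL a [x, y, p, q, w, r] := hρ.rotL (by
        simp only [List.map_cons, List.map_nil, List.isChain_cons_cons, List.isChain_singleton, and_true]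
        exact ⟨xy, yp, pq, (qO _ hw), twr⟩) (List.forall_mem_cons.2 ⟨hx, (List.forall_mem_cons.2 ⟨hy, (List.forall_mem_cons.2 ⟨hp, (List.forall_mem_cons.2 ⟨hq, (List.forall_mem_cons.2 ⟨(hO _ hw), (List.forall_mem_cons.2 ⟨(hO _ hr), fun _ h => by cases h⟩)⟩)⟩)⟩)⟩)⟩)
      exact f_merge_anti_39 (hL.sub (.cons_cons _ (.cons_cons _ (.cons_cons _ (.cons_cons _ (.cons_cons _ (.cons_cons _ (List.nil_sublist _)))))))) hxy hpq hc (l1 _ hw) (l1 _ hr) ju1 ju2 nw
    · have ewr : w = r := hρ.1 _ _ (hO _ hw) (hO _ hr) twr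
      have nw2 : T.X a r y q = true := by rw [← ewr]; exact nw
      have hL : T.RotL a [x, y, p, q, r] := hρ.rotL (by
        simp only [List.map_cons, List.map_nil, List.isChain_cons_cons, List.isChain_singleton, and_true]
        exact ⟨xy, yp, pq, (qO _ hr)⟩) (List.forall_mem_cons.2 ⟨hx, (List.forall_mem_cons.2 ⟨hy, (List.forall_mem_cons.2 ⟨hp, (List.forall_mem_cons.2 ⟨hq, (List.forall_mem_cons.2 ⟨(hO _ hr), fun _ h => by cases h⟩)⟩)⟩)⟩)⟩)
      exact f_merge_anti_24 (hL.sub (.cons_cons _ (.cons_cons _ (.cons _ (.cons_cons _ (.cons_cons _ (List.nil_sublist _))))))) hxy (l1 _ hr) nw2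
    · have hL : T.RotL a [x, y, p, q, r, w] := hρ.rotL (by
        simp only [List.map_cons, List.map_nil, List.isChain_cons_cons, List.isChain_singleton, and_true]
        exact ⟨xy, yp, pq, (qO _ hr), twr⟩) (List.forall_mem_cons.2 ⟨hx, (List.forall_mem_cons.2 ⟨hy, (List.forall_mem_cons.2 ⟨hp, (List.forall_mem_cons.2 ⟨hq, (List.forall_mem_cons.2 ⟨(hO _ hr), (List.forall_mem_cons.2 ⟨(hO _ hw), fun _ h => by cases h⟩)⟩)⟩)⟩)⟩)⟩)
      exact f_merge_anti_40 (hL.sub (.cons_cons _ (.cons_cons _ (.cons_cons _ (.cons_cons _ (.cons_cons _ (.cons_cons _ (List.nil_sublist _)))))))) hxy hpq hc (l1 _ hr) (l1 _ hw) ju1 ju2 nw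
  · obtain ⟨ju1, ju2⟩ := adj_f j
    rw [T.xs2] at ju1
    rw [T.xs2] at ju2
    obtain ⟨jv1, jv2⟩ := adj_f k
    have hL : T.RotL a [x, y, p, q, r] := hρ.rotL (by
      simp only [List.map_cons, List.map_nil, List.isChain_cons_cons, List.isChain_singleton, and_true]
      exact ⟨xy, yp, pq, (qO _ hr)⟩) (List.forall_mem_cons.2 ⟨hx, (List.forall_mem_cons.2 ⟨hy, (List.forall_mem_cons.2 ⟨hp, (List.forall_mem_cons.2 ⟨hq, (List.forall_mem_cons.2 ⟨(hO _ hr), fun _ h => by cases h⟩)⟩)⟩)⟩)⟩)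
    exact f_merge_anti_41 (hL.sub (.cons_cons _ (.cons_cons _ (.cons_cons _ (.cons_cons _ (.cons_cons _ (List.nil_sublist _))))))) hxy hpq hc (l1 _ hr) ju2 jv1
  · obtain ⟨ju1, ju2⟩ := adj_f j
    rw [T.xs2] at ju1
    rw [T.xs2] at ju2
    have jv : T.X a x y q = false → T.X a y x q = false → False := fun n1 n2 => adj_t k (by rw [T.xs2]; exact n1) (by rw [T.xs2]; exact n2)
    have hL : T.RotL a [x, y, p, q, r] := hρ.rotL (by
      simp only [List.map_cons, List.map_nil, List.isChain_cons_cons, List.isChain_singleton, and_true]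
      exact ⟨xy, yp, pq, (qO _ hr)⟩) (List.forall_mem_cons.2 ⟨hx, (List.forall_mem_cons.2 ⟨hy, (List.forall_mem_cons.2 ⟨hp, (List.forall_mem_cons.2 ⟨hq, (List.forall_mem_cons.2 ⟨(hO _ hr), fun _ h => by cases h⟩)⟩)⟩)⟩)⟩)
    exact f_merge_anti_42 (hL.sub (.cons_cons _ (.cons_cons _ (.cons_cons _ (.cons_cons _ (.cons_cons _ (List.nil_sublist _))))))) hxy hpq hc (l1 _ hr) ju1 ju2 jv

theorem grow_iso {a : V} {ρ : V → ℝ} (hρ : T.Ord a ρ) {O : Finset V} {r x y p q : V}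
    (hra : r ≠ a) (hrO : r ∉ O) (hqr : ρ q < ρ r) (hx : x ≠ a) (hy : y ≠ a) (hp : p ≠ a) (hq : q ≠ a) (hO : ∀ o ∈ O, o ≠ a)
    (xy : ρ x < ρ y) (yp : ρ y < ρ p) (pq : ρ p < ρ q) (qO : ∀ o ∈ O, ρ q < ρ o)
    (hxyr : T.X a r x y = true) (hxpr : T.X a r x p = true) (hxqr : T.X a r x q = true) (hypr : T.X a r y p = true) (hyqr : T.X a r y q = true) (hpqr : T.X a r p q = true)
    (l1 : ∀ o ∈ O, T.X a o x p = false) (l2 : ∀ o ∈ O, T.X a o y q = false)
    (hc : T.X x p y q = true)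
    (b1 : ¬ ((∀ o ∈ O, T.X a o x q = false) ∧ T.adj a x p q = true ∧ T.adj a q x y = true))
    (b2 : ¬ ((∀ o ∈ O, T.X a o y p = false) ∧ T.adj a y p q = false ∧ T.adj a p x y = false)) : False := by
  rcases nb3 b1 with ⟨o, ho, no⟩ | j | j <;> rcases nb3 b2 with ⟨w, hw, nw⟩ | k | k
  · rcases lt_trichotomy (ρ o) (ρ r) with tor | tor | tor
    · rcases lt_trichotomy (ρ w) (ρ o) with two | two | two
      · have hL : T.RotL a [x, y, p, q, w, o, r] := hρ.rotL (by
          simp only [List.map_cons, List.map_nil, List.isChain_cons_cons, List.isChain_singleton, and_true]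
          exact ⟨xy, yp, pq, (qO _ hw), two, tor⟩) (List.forall_mem_cons.2 ⟨hx, (List.forall_mem_cons.2 ⟨hy, (List.forall_mem_cons.2 ⟨hp, (List.forall_mem_cons.2 ⟨hq, (List.forall_mem_cons.2 ⟨(hO _ hw), (List.forall_mem_cons.2 ⟨(hO _ ho), (List.forall_mem_cons.2 ⟨hra, fun _ h => by cases h⟩)⟩)⟩)⟩)⟩)⟩)⟩)
        exact f_grow_iso_43 (hL.sub (.cons_cons _ (.cons_cons _ (.cons_cons _ (.cons_cons _ (.cons_cons _ (.cons_cons _ (.cons_cons _ (List.nil_sublist _))))))))) hxyr hypr hyqr hc (l1 _ hw) (l2 _ ho) no nw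
      · have ewo : w = o := hρ.1 _ _ (hO _ hw) (hO _ ho) two
        have nw2 : T.X a o y p = true := by rw [← ewo]; exact nw
        have hL : T.RotL a [x, y, p, q, o, r] := hρ.rotL (by
          simp only [List.map_cons, List.map_nil, List.isChain_cons_cons, List.isChain_singleton, and_true]
          exact ⟨xy, yp, pq, (qO _ ho), tor⟩) (List.forall_mem_cons.2 ⟨hx, (List.forall_mem_cons.2 ⟨hy, (List.forall_mem_cons.2 ⟨hp, (List.forall_mem_cons.2 ⟨hq, (List.forall_mem_cons.2 ⟨(hO _ ho), (List.forall_mem_cons.2 ⟨hra, fun _ h => by cases h⟩)⟩)⟩)⟩)⟩)⟩)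
        exact f_grow_iso_44 (hL.sub (.cons_cons _ (.cons_cons _ (.cons_cons _ (.cons_cons _ (.cons_cons _ (.cons_cons _ (List.nil_sublist _)))))))) hxyr hypr hyqr hc (l1 _ ho) (l2 _ ho) no nw2
      · rcases lt_trichotomy (ρ w) (ρ r) with twr | twr | twr
        · have hL : T.RotL a [x, y, p, q, o, w, r] := hρ.rotL (by
            simp only [List.map_cons, List.map_nil, List.isChain_cons_cons, List.isChain_singleton, and_true]
            exact ⟨xy, yp, pq, (qO _ ho), two, twr⟩) (List.forall_mem_cons.2 ⟨hx, (List.forall_mem_cons.2 ⟨hy, (List.forall_mem_cons.2 ⟨hp, (List.forall_mem_cons.2 ⟨hq, (List.forall_mem_cons.2 ⟨(hO _ ho), (List.forall_mem_cons.2 ⟨(hO _ hw), (List.forall_mem_cons.2 ⟨hra, fun _ h => by cases h⟩)⟩)⟩)⟩)⟩)⟩)⟩)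
          exact f_grow_iso_45 (hL.sub (.cons_cons _ (.cons_cons _ (.cons_cons _ (.cons_cons _ (.cons_cons _ (.cons_cons _ (.cons_cons _ (List.nil_sublist _))))))))) hxyr hypr hyqr hc (l1 _ hw) (l2 _ ho) no nw
        · exact hrO ((hρ.1 _ _ (hO _ hw) hra twr) ▸ hw)
        · have hL : T.RotL a [x, y, p, q, o, r, w] := hρ.rotL (by
            simp only [List.map_cons, List.map_nil, List.isChain_cons_cons, List.isChain_singleton, and_true]
            exact ⟨xy, yp, pq, (qO _ ho), tor, twr⟩) (List.forall_mem_cons.2 ⟨hx, (List.forall_mem_cons.2 ⟨hy, (List.forall_mem_cons.2 ⟨hp, (List.forall_mem_cons.2 ⟨hq, (List.forall_mem_cons.2 ⟨(hO _ ho), (List.forall_mem_cons.2 ⟨hra, (List.forall_mem_cons.2 ⟨(hO _ hw), fun _ h => by cases h⟩)⟩)⟩)⟩)⟩)⟩)⟩)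
          exact f_grow_iso_46 (hL.sub (.cons_cons _ (.cons_cons _ (.cons_cons _ (.cons_cons _ (.cons_cons _ (.cons_cons _ (.cons_cons _ (List.nil_sublist _))))))))) hxyr hypr hyqr hc (l1 _ hw) (l2 _ ho) no nw
    · exact hrO ((hρ.1 _ _ (hO _ ho) hra tor) ▸ ho)
    · rcases lt_trichotomy (ρ w) (ρ r) with twr | twr | twr
      · have hL : T.RotL a [x, y, p, q, w, r, o] := hρ.rotL (by
          simp only [List.map_cons, List.map_nil, List.isChain_cons_cons, List.isChain_singleton, and_true]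
          exact ⟨xy, yp, pq, (qO _ hw), twr, tor⟩) (List.forall_mem_cons.2 ⟨hx, (List.forall_mem_cons.2 ⟨hy, (List.forall_mem_cons.2 ⟨hp, (List.forall_mem_cons.2 ⟨hq, (List.forall_mem_cons.2 ⟨(hO _ hw), (List.forall_mem_cons.2 ⟨hra, (List.forall_mem_cons.2 ⟨(hO _ ho), fun _ h => by cases h⟩)⟩)⟩)⟩)⟩)⟩)⟩)
        exact f_grow_iso_47 (hL.sub (.cons_cons _ (.cons_cons _ (.cons_cons _ (.cons_cons _ (.cons_cons _ (.cons_cons _ (.cons_cons _ (List.nil_sublist _))))))))) hxyr hypr hyqr hc (l1 _ hw) (l2 _ ho) no nw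
      · exact hrO ((hρ.1 _ _ (hO _ hw) hra twr) ▸ hw)
      · rcases lt_trichotomy (ρ w) (ρ o) with two | two | two
        · have hL : T.RotL a [x, y, p, q, r, w, o] := hρ.rotL (by
            simp only [List.map_cons, List.map_nil, List.isChain_cons_cons, List.isChain_singleton, and_true]
            exact ⟨xy, yp, pq, hqr, twr, two⟩) (List.forall_mem_cons.2 ⟨hx, (List.forall_mem_cons.2 ⟨hy, (List.forall_mem_cons.2 ⟨hp, (List.forall_mem_cons.2 ⟨hq, (List.forall_mem_cons.2 ⟨hra, (List.forall_mem_cons.2 ⟨(hO _ hw), (List.forall_mem_cons.2 ⟨(hO _ ho), fun _ h => by cases h⟩)⟩)⟩)⟩)⟩)⟩)⟩)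
          exact f_grow_iso_48 (hL.sub (.cons_cons _ (.cons_cons _ (.cons_cons _ (.cons_cons _ (.cons_cons _ (.cons_cons _ (.cons_cons _ (List.nil_sublist _))))))))) hxyr hypr hyqr hc (l1 _ hw) (l2 _ ho) no nw
        · have ewo : w = o := hρ.1 _ _ (hO _ hw) (hO _ ho) two
          have nw2 : T.X a o y p = true := by rw [← ewo]; exact nw
          have hL : T.RotL a [x, y, p, q, r, o] := hρ.rotL (by
            simp only [List.map_cons, List.map_nil, List.isChain_cons_cons, List.isChain_singleton, and_true]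
            exact ⟨xy, yp, pq, hqr, tor⟩) (List.forall_mem_cons.2 ⟨hx, (List.forall_mem_cons.2 ⟨hy, (List.forall_mem_cons.2 ⟨hp, (List.forall_mem_cons.2 ⟨hq, (List.forall_mem_cons.2 ⟨hra, (List.forall_mem_cons.2 ⟨(hO _ ho), fun _ h => by cases h⟩)⟩)⟩)⟩)⟩)⟩)
          exact f_grow_iso_49 (hL.sub (.cons_cons _ (.cons_cons _ (.cons_cons _ (.cons_cons _ (.cons_cons _ (.cons_cons _ (List.nil_sublist _)))))))) hxyr hypr hyqr hc (l1 _ ho) (l2 _ ho) no nw2
        · have hL : T.RotL a [x, y, p, q, r, o, w] := hρ.rotL (by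
            simp only [List.map_cons, List.map_nil, List.isChain_cons_cons, List.isChain_singleton, and_true]
            exact ⟨xy, yp, pq, hqr, tor, two⟩) (List.forall_mem_cons.2 ⟨hx, (List.forall_mem_cons.2 ⟨hy, (List.forall_mem_cons.2 ⟨hp, (List.forall_mem_cons.2 ⟨hq, (List.forall_mem_cons.2 ⟨hra, (List.forall_mem_cons.2 ⟨(hO _ ho), (List.forall_mem_cons.2 ⟨(hO _ hw), fun _ h => by cases h⟩)⟩)⟩)⟩)⟩)⟩)⟩)
          exact f_grow_iso_50 (hL.sub (.cons_cons _ (.cons_cons _ (.cons_cons _ (.cons_cons _ (.cons_cons _ (.cons_cons _ (.cons_cons _ (List.nil_sublist _))))))))) hxyr hypr hyqr hc (l1 _ hw) (l2 _ ho) no nw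
  · have jv : T.X a p y q = false → T.X a q y p = false → False := fun n1 n2 => adj_t k n1 n2
    rcases lt_trichotomy (ρ o) (ρ r) with tor | tor | tor
    · have hL : T.RotL a [x, y, p, q, o, r] := hρ.rotL (by
        simp only [List.map_cons, List.map_nil, List.isChain_cons_cons, List.isChain_singleton, and_true]
        exact ⟨xy, yp, pq, (qO _ ho), tor⟩) (List.forall_mem_cons.2 ⟨hx, (List.forall_mem_cons.2 ⟨hy, (List.forall_mem_cons.2 ⟨hp, (List.forall_mem_cons.2 ⟨hq, (List.forall_mem_cons.2 ⟨(hO _ ho), (List.forall_mem_cons.2 ⟨hra, fun _ h => by cases h⟩)⟩)⟩)⟩)⟩)⟩)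
      exact f_grow_iso_51 (hL.sub (.cons_cons _ (.cons_cons _ (.cons_cons _ (.cons_cons _ (.cons_cons _ (.cons_cons _ (List.nil_sublist _)))))))) hxyr hypr hyqr hc (l1 _ ho) (l2 _ ho) no jv
    · exact hrO ((hρ.1 _ _ (hO _ ho) hra tor) ▸ ho)
    · have hL : T.RotL a [x, y, p, q, r, o] := hρ.rotL (by
        simp only [List.map_cons, List.map_nil, List.isChain_cons_cons, List.isChain_singleton, and_true]
        exact ⟨xy, yp, pq, hqr, tor⟩) (List.forall_mem_cons.2 ⟨hx, (List.forall_mem_cons.2 ⟨hy, (List.forall_mem_cons.2 ⟨hp, (List.forall_mem_cons.2 ⟨hq, (List.forall_mem_cons.2 ⟨hra, (List.forall_mem_cons.2 ⟨(hO _ ho), fun _ h => by cases h⟩)⟩)⟩)⟩)⟩)⟩)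
      exact f_grow_iso_52 (hL.sub (.cons_cons _ (.cons_cons _ (.cons_cons _ (.cons_cons _ (.cons_cons _ (.cons_cons _ (List.nil_sublist _)))))))) hxyr hypr hyqr hc (l1 _ ho) (l2 _ ho) no jv
  · have jv : T.X a x y p = false → T.X a y x p = false → False := fun n1 n2 => adj_t k (by rw [T.xs2]; exact n1) (by rw [T.xs2]; exact n2)
    rcases lt_trichotomy (ρ o) (ρ r) with tor | tor | tor
    · have hL : T.RotL a [x, y, p, q, o, r] := hρ.rotL (by
        simp only [List.map_cons, List.map_nil, List.isChain_cons_cons, List.isChain_singleton, and_true]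
        exact ⟨xy, yp, pq, (qO _ ho), tor⟩) (List.forall_mem_cons.2 ⟨hx, (List.forall_mem_cons.2 ⟨hy, (List.forall_mem_cons.2 ⟨hp, (List.forall_mem_cons.2 ⟨hq, (List.forall_mem_cons.2 ⟨(hO _ ho), (List.forall_mem_cons.2 ⟨hra, fun _ h => by cases h⟩)⟩)⟩)⟩)⟩)⟩)
      exact f_grow_iso_53 (hL.sub (.cons_cons _ (.cons_cons _ (.cons_cons _ (.cons_cons _ (.cons_cons _ (.cons_cons _ (List.nil_sublist _)))))))) hxyr hypr hyqr hc (l2 _ ho) no jv
    · exact hrO ((hρ.1 _ _ (hO _ ho) hra tor) ▸ ho)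
    · have hL : T.RotL a [x, y, p, q, r, o] := hρ.rotL (by
        simp only [List.map_cons, List.map_nil, List.isChain_cons_cons, List.isChain_singleton, and_true]
        exact ⟨xy, yp, pq, hqr, tor⟩) (List.forall_mem_cons.2 ⟨hx, (List.forall_mem_cons.2 ⟨hy, (List.forall_mem_cons.2 ⟨hp, (List.forall_mem_cons.2 ⟨hq, (List.forall_mem_cons.2 ⟨hra, (List.forall_mem_cons.2 ⟨(hO _ ho), fun _ h => by cases h⟩)⟩)⟩)⟩)⟩)⟩)
      exact f_grow_iso_54 (hL.sub (.cons_cons _ (.cons_cons _ (.cons_cons _ (.cons_cons _ (.cons_cons _ (.cons_cons _ (List.nil_sublist _)))))))) hxyr hypr hyqr hc (l2 _ ho) no jv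
  · obtain ⟨ju1, ju2⟩ := adj_f j
    rcases lt_trichotomy (ρ w) (ρ r) with twr | twr | twr
    · have hL : T.RotL a [x, y, p, q, w, r] := hρ.rotL (by
        simp only [List.map_cons, List.map_nil, List.isChain_cons_cons, List.isChain_singleton, and_true]
        exact ⟨xy, yp, pq, (qO _ hw), twr⟩) (List.forall_mem_cons.2 ⟨hx, (List.forall_mem_cons.2 ⟨hy, (List.forall_mem_cons.2 ⟨hp, (List.forall_mem_cons.2 ⟨hq, (List.forall_mem_cons.2 ⟨(hO _ hw), (List.forall_mem_cons.2 ⟨hra, fun _ h => by cases h⟩)⟩)⟩)⟩)⟩)⟩)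
      exact f_grow_iso_55 (hL.sub (.cons_cons _ (.cons_cons _ (.cons_cons _ (.cons_cons _ (.cons_cons _ (.cons_cons _ (List.nil_sublist _)))))))) hxyr hypr hyqr hc (l1 _ hw) ju1 ju2 nw
    · exact hrO ((hρ.1 _ _ (hO _ hw) hra twr) ▸ hw)
    · have hL : T.RotL a [x, y, p, q, r, w] := hρ.rotL (by
        simp only [List.map_cons, List.map_nil, List.isChain_cons_cons, List.isChain_singleton, and_true]
        exact ⟨xy, yp, pq, hqr, twr⟩) (List.forall_mem_cons.2 ⟨hx, (List.forall_mem_cons.2 ⟨hy, (List.forall_mem_cons.2 ⟨hp, (List.forall_mem_cons.2 ⟨hq, (List.forall_mem_cons.2 ⟨hra, (List.forall_mem_cons.2 ⟨(hO _ hw), fun _ h => by cases h⟩)⟩)⟩)⟩)⟩)⟩)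
      exact f_grow_iso_56 (hL.sub (.cons_cons _ (.cons_cons _ (.cons_cons _ (.cons_cons _ (.cons_cons _ (.cons_cons _ (List.nil_sublist _)))))))) hxyr hypr hyqr hc (l1 _ hw) ju1 ju2 nw
  · obtain ⟨ju1, ju2⟩ := adj_f j
    have jv : T.X a p y q = false → T.X a q y p = false → False := fun n1 n2 => adj_t k n1 n2
    have hL : T.RotL a [x, y, p, q, r] := hρ.rotL (by
      simp only [List.map_cons, List.map_nil, List.isChain_cons_cons, List.isChain_singleton, and_true]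
      exact ⟨xy, yp, pq, hqr⟩) (List.forall_mem_cons.2 ⟨hx, (List.forall_mem_cons.2 ⟨hy, (List.forall_mem_cons.2 ⟨hp, (List.forall_mem_cons.2 ⟨hq, (List.forall_mem_cons.2 ⟨hra, fun _ h => by cases h⟩)⟩)⟩)⟩)⟩)
    exact f_grow_iso_57 (hL.sub (.cons_cons _ (.cons_cons _ (.cons_cons _ (.cons_cons _ (.cons_cons _ (List.nil_sublist _))))))) hxpr hypr hpqr hc ju2 jv
  · obtain ⟨ju1, ju2⟩ := adj_f j
    have jv : T.X a x y p = false → T.X a y x p = false → False := fun n1 n2 => adj_t k (by rw [T.xs2]; exact n1) (by rw [T.xs2]; exact n2)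
    have hL : T.RotL a [x, y, p, q, r] := hρ.rotL (by
      simp only [List.map_cons, List.map_nil, List.isChain_cons_cons, List.isChain_singleton, and_true]
      exact ⟨xy, yp, pq, hqr⟩) (List.forall_mem_cons.2 ⟨hx, (List.forall_mem_cons.2 ⟨hy, (List.forall_mem_cons.2 ⟨hp, (List.forall_mem_cons.2 ⟨hq, (List.forall_mem_cons.2 ⟨hra, fun _ h => by cases h⟩)⟩)⟩)⟩)⟩)
    exact f_grow_iso_58 (hL.sub (.cons_cons _ (.cons_cons _ (.cons_cons _ (.cons_cons _ (.cons_cons _ (List.nil_sublist _))))))) hxyr hypr hyqr hc ju1 ju2 jv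
  · obtain ⟨ju1, ju2⟩ := adj_f j
    rw [T.xs2] at ju1
    rw [T.xs2] at ju2
    rcases lt_trichotomy (ρ w) (ρ r) with twr | twr | twr
    · have hL : T.RotL a [x, y, p, q, w, r] := hρ.rotL (by
        simp only [List.map_cons, List.map_nil, List.isChain_cons_cons, List.isChain_singleton, and_true]
        exact ⟨xy, yp, pq, (qO _ hw), twr⟩) (List.forall_mem_cons.2 ⟨hx, (List.forall_mem_cons.2 ⟨hy, (List.forall_mem_cons.2 ⟨hp, (List.forall_mem_cons.2 ⟨hq, (List.forall_mem_cons.2 ⟨(hO _ hw), (List.forall_mem_cons.2 ⟨hra, fun _ h => by cases h⟩)⟩)⟩)⟩)⟩)⟩)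
      exact f_grow_iso_59 (hL.sub (.cons_cons _ (.cons_cons _ (.cons_cons _ (.cons_cons _ (.cons_cons _ (.cons_cons _ (List.nil_sublist _)))))))) hxyr hypr hyqr hc (l1 _ hw) ju1 nw
    · exact hrO ((hρ.1 _ _ (hO _ hw) hra twr) ▸ hw)
    · have hL : T.RotL a [x, y, p, q, r, w] := hρ.rotL (by
        simp only [List.map_cons, List.map_nil, List.isChain_cons_cons, List.isChain_singleton, and_true]
        exact ⟨xy, yp, pq, hqr, twr⟩) (List.forall_mem_cons.2 ⟨hx, (List.forall_mem_cons.2 ⟨hy, (List.forall_mem_cons.2 ⟨hp, (List.forall_mem_cons.2 ⟨hq, (List.forall_mem_cons.2 ⟨hra, (List.forall_mem_cons.2 ⟨(hO _ hw), fun _ h => by cases h⟩)⟩)⟩)⟩)⟩)⟩)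
      exact f_grow_iso_60 (hL.sub (.cons_cons _ (.cons_cons _ (.cons_cons _ (.cons_cons _ (.cons_cons _ (.cons_cons _ (List.nil_sublist _)))))))) hxyr hypr hyqr hc (l1 _ hw) ju1 nw
  · obtain ⟨ju1, ju2⟩ := adj_f j
    rw [T.xs2] at ju1
    rw [T.xs2] at ju2
    have jv : T.X a p y q = false → T.X a q y p = false → False := fun n1 n2 => adj_t k n1 n2
    have hL : T.RotL a [x, y, p, q, r] := hρ.rotL (by
      simp only [List.map_cons, List.map_nil, List.isChain_cons_cons, List.isChain_singleton, and_true]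
      exact ⟨xy, yp, pq, hqr⟩) (List.forall_mem_cons.2 ⟨hx, (List.forall_mem_cons.2 ⟨hy, (List.forall_mem_cons.2 ⟨hp, (List.forall_mem_cons.2 ⟨hq, (List.forall_mem_cons.2 ⟨hra, fun _ h => by cases h⟩)⟩)⟩)⟩)⟩)
    exact f_grow_iso_61 (hL.sub (.cons_cons _ (.cons_cons _ (.cons_cons _ (.cons_cons _ (.cons_cons _ (List.nil_sublist _))))))) hxyr hypr hyqr hpqr hc ju1 jv
  · obtain ⟨ju1, ju2⟩ := adj_f j
    rw [T.xs2] at ju1
    rw [T.xs2] at ju2
    have jv : T.X a x y p = false → T.X a y x p = false → False := fun n1 n2 => adj_t k (by rw [T.xs2]; exact n1) (by rw [T.xs2]; exact n2)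
    have hL : T.RotL a [x, y, p, q, r] := hρ.rotL (by
      simp only [List.map_cons, List.map_nil, List.isChain_cons_cons, List.isChain_singleton, and_true]
      exact ⟨xy, yp, pq, hqr⟩) (List.forall_mem_cons.2 ⟨hx, (List.forall_mem_cons.2 ⟨hy, (List.forall_mem_cons.2 ⟨hp, (List.forall_mem_cons.2 ⟨hq, (List.forall_mem_cons.2 ⟨hra, fun _ h => by cases h⟩)⟩)⟩)⟩)⟩)
    exact f_grow_iso_62 (hL.sub (.cons_cons _ (.cons_cons _ (.cons_cons _ (.cons_cons _ (.cons_cons _ (List.nil_sublist _))))))) hxyr hypr hyqr hc ju1 jv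

theorem grow_anti {a : V} {ρ : V → ℝ} (hρ : T.Ord a ρ) {O : Finset V} {r x y p q : V}
    (hra : r ≠ a) (hrO : r ∉ O) (hqr : ρ q < ρ r) (hx : x ≠ a) (hy : y ≠ a) (hp : p ≠ a) (hq : q ≠ a) (hO : ∀ o ∈ O, o ≠ a)
    (xy : ρ x < ρ y) (yp : ρ y < ρ p) (pq : ρ p < ρ q) (qO : ∀ o ∈ O, ρ q < ρ o)
    (hxyr : T.X a r x y = true) (hxpr : T.X a r x p = true) (hxqr : T.X a r x q = true) (hypr : T.X a r y p = true) (hyqr : T.X a r y q = true) (hpqr : T.X a r p q = true)
    (l1 : ∀ o ∈ O, T.X a o x q = false) (l2 : ∀ o ∈ O, T.X a o y p = false)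
    (hc : T.X x q y p = true)
    (b1 : ¬ ((∀ o ∈ O, T.X a o x p = false) ∧ T.adj a x p q = false ∧ T.adj a p x y = true))
    (b2 : ¬ ((∀ o ∈ O, T.X a o y q = false) ∧ T.adj a y p q = true ∧ T.adj a q x y = false)) : False := by
  rcases nb3 b1 with ⟨o, ho, no⟩ | j | j <;> rcases nb3 b2 with ⟨w, hw, nw⟩ | k | k
  · rcases lt_trichotomy (ρ o) (ρ r) with tor | tor | tor
    · rcases lt_trichotomy (ρ w) (ρ o) with two | two | two
      · have hL : T.RotL a [x, y, p, q, w, o, r] := hρ.rotL (by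
          simp only [List.map_cons, List.map_nil, List.isChain_cons_cons, List.isChain_singleton, and_true]
          exact ⟨xy, yp, pq, (qO _ hw), two, tor⟩) (List.forall_mem_cons.2 ⟨hx, (List.forall_mem_cons.2 ⟨hy, (List.forall_mem_cons.2 ⟨hp, (List.forall_mem_cons.2 ⟨hq, (List.forall_mem_cons.2 ⟨(hO _ hw), (List.forall_mem_cons.2 ⟨(hO _ ho), (List.forall_mem_cons.2 ⟨hra, fun _ h => by cases h⟩)⟩)⟩)⟩)⟩)⟩)⟩)
        exact f_grow_anti_63 (hL.sub (.cons_cons _ (.cons_cons _ (.cons_cons _ (.cons_cons _ (.cons_cons _ (.cons_cons _ (.cons_cons _ (List.nil_sublist _))))))))) hxyr hypr hc (l1 _ hw) (l2 _ ho) no nw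
      · have ewo : w = o := hρ.1 _ _ (hO _ hw) (hO _ ho) two
        have nw2 : T.X a o y q = true := by rw [← ewo]; exact nw
        have hL : T.RotL a [x, y, p, q, o, r] := hρ.rotL (by
          simp only [List.map_cons, List.map_nil, List.isChain_cons_cons, List.isChain_singleton, and_true]
          exact ⟨xy, yp, pq, (qO _ ho), tor⟩) (List.forall_mem_cons.2 ⟨hx, (List.forall_mem_cons.2 ⟨hy, (List.forall_mem_cons.2 ⟨hp, (List.forall_mem_cons.2 ⟨hq, (List.forall_mem_cons.2 ⟨(hO _ ho), (List.forall_mem_cons.2 ⟨hra, fun _ h => by cases h⟩)⟩)⟩)⟩)⟩)⟩)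
        exact f_grow_anti_64 (hL.sub (.cons_cons _ (.cons_cons _ (.cons_cons _ (.cons_cons _ (.cons_cons _ (.cons_cons _ (List.nil_sublist _)))))))) hxyr hypr hc (l1 _ ho) (l2 _ ho) no nw2
      · rcases lt_trichotomy (ρ w) (ρ r) with twr | twr | twr
        · have hL : T.RotL a [x, y, p, q, o, w, r] := hρ.rotL (by
            simp only [List.map_cons, List.map_nil, List.isChain_cons_cons, List.isChain_singleton, and_true]
            exact ⟨xy, yp, pq, (qO _ ho), two, twr⟩) (List.forall_mem_cons.2 ⟨hx, (List.forall_mem_cons.2 ⟨hy, (List.forall_mem_cons.2 ⟨hp, (List.forall_mem_cons.2 ⟨hq, (List.forall_mem_cons.2 ⟨(hO _ ho), (List.forall_mem_cons.2 ⟨(hO _ hw), (List.forall_mem_cons.2 ⟨hra, fun _ h => by cases h⟩)⟩)⟩)⟩)⟩)⟩)⟩)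
          exact f_grow_anti_65 (hL.sub (.cons_cons _ (.cons_cons _ (.cons_cons _ (.cons_cons _ (.cons_cons _ (.cons_cons _ (.cons_cons _ (List.nil_sublist _))))))))) hxyr hypr hc (l1 _ hw) (l2 _ ho) no nw
        · exact hrO ((hρ.1 _ _ (hO _ hw) hra twr) ▸ hw)
        · have hL : T.RotL a [x, y, p, q, o, r, w] := hρ.rotL (by
            simp only [List.map_cons, List.map_nil, List.isChain_cons_cons, List.isChain_singleton, and_true]
            exact ⟨xy, yp, pq, (qO _ ho), tor, twr⟩) (List.forall_mem_cons.2 ⟨hx, (List.forall_mem_cons.2 ⟨hy, (List.forall_mem_cons.2 ⟨hp, (List.forall_mem_cons.2 ⟨hq, (List.forall_mem_cons.2 ⟨(hO _ ho), (List.forall_mem_cons.2 ⟨hra, (List.forall_mem_cons.2 ⟨(hO _ hw), fun _ h => by cases h⟩)⟩)⟩)⟩)⟩)⟩)⟩)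
          exact f_grow_anti_66 (hL.sub (.cons_cons _ (.cons_cons _ (.cons_cons _ (.cons_cons _ (.cons_cons _ (.cons_cons _ (.cons_cons _ (List.nil_sublist _))))))))) hxyr hypr hc (l1 _ hw) (l2 _ ho) no nw
    · exact hrO ((hρ.1 _ _ (hO _ ho) hra tor) ▸ ho)
    · rcases lt_trichotomy (ρ w) (ρ r) with twr | twr | twr
      · have hL : T.RotL a [x, y, p, q, w, r, o] := hρ.rotL (by
          simp only [List.map_cons, List.map_nil, List.isChain_cons_cons, List.isChain_singleton, and_true]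
          exact ⟨xy, yp, pq, (qO _ hw), twr, tor⟩) (List.forall_mem_cons.2 ⟨hx, (List.forall_mem_cons.2 ⟨hy, (List.forall_mem_cons.2 ⟨hp, (List.forall_mem_cons.2 ⟨hq, (List.forall_mem_cons.2 ⟨(hO _ hw), (List.forall_mem_cons.2 ⟨hra, (List.forall_mem_cons.2 ⟨(hO _ ho), fun _ h => by cases h⟩)⟩)⟩)⟩)⟩)⟩)⟩)
        exact f_grow_anti_67 (hL.sub (.cons_cons _ (.cons_cons _ (.cons_cons _ (.cons_cons _ (.cons_cons _ (.cons_cons _ (.cons_cons _ (List.nil_sublist _))))))))) hxyr hypr hc (l1 _ hw) (l2 _ ho) no nw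
      · exact hrO ((hρ.1 _ _ (hO _ hw) hra twr) ▸ hw)
      · rcases lt_trichotomy (ρ w) (ρ o) with two | two | two
        · have hL : T.RotL a [x, y, p, q, r, w, o] := hρ.rotL (by
            simp only [List.map_cons, List.map_nil, List.isChain_cons_cons, List.isChain_singleton, and_true]
            exact ⟨xy, yp, pq, hqr, twr, two⟩) (List.forall_mem_cons.2 ⟨hx, (List.forall_mem_cons.2 ⟨hy, (List.forall_mem_cons.2 ⟨hp, (List.forall_mem_cons.2 ⟨hq, (List.forall_mem_cons.2 ⟨hra, (List.forall_mem_cons.2 ⟨(hO _ hw), (List.forall_mem_cons.2 ⟨(hO _ ho), fun _ h => by cases h⟩)⟩)⟩)⟩)⟩)⟩)⟩)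
          exact f_grow_anti_68 (hL.sub (.cons_cons _ (.cons_cons _ (.cons_cons _ (.cons_cons _ (.cons_cons _ (.cons_cons _ (.cons_cons _ (List.nil_sublist _))))))))) hxyr hypr hc (l1 _ hw) (l2 _ ho) no nw
        · have ewo : w = o := hρ.1 _ _ (hO _ hw) (hO _ ho) two
          have nw2 : T.X a o y q = true := by rw [← ewo]; exact nw
          have hL : T.RotL a [x, y, p, q, r, o] := hρ.rotL (by
            simp only [List.map_cons, List.map_nil, List.isChain_cons_cons, List.isChain_singleton, and_true]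
            exact ⟨xy, yp, pq, hqr, tor⟩) (List.forall_mem_cons.2 ⟨hx, (List.forall_mem_cons.2 ⟨hy, (List.forall_mem_cons.2 ⟨hp, (List.forall_mem_cons.2 ⟨hq, (List.forall_mem_cons.2 ⟨hra, (List.forall_mem_cons.2 ⟨(hO _ ho), fun _ h => by cases h⟩)⟩)⟩)⟩)⟩)⟩)
          exact f_grow_anti_69 (hL.sub (.cons_cons _ (.cons_cons _ (.cons_cons _ (.cons_cons _ (.cons_cons _ (.cons_cons _ (List.nil_sublist _)))))))) hxyr hypr hc (l1 _ ho) (l2 _ ho) no nw2
        · have hL : T.RotL a [x, y, p, q, r, o, w] := hρ.rotL (by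
            simp only [List.map_cons, List.map_nil, List.isChain_cons_cons, List.isChain_singleton, and_true]
            exact ⟨xy, yp, pq, hqr, tor, two⟩) (List.forall_mem_cons.2 ⟨hx, (List.forall_mem_cons.2 ⟨hy, (List.forall_mem_cons.2 ⟨hp, (List.forall_mem_cons.2 ⟨hq, (List.forall_mem_cons.2 ⟨hra, (List.forall_mem_cons.2 ⟨(hO _ ho), (List.forall_mem_cons.2 ⟨(hO _ hw), fun _ h => by cases h⟩)⟩)⟩)⟩)⟩)⟩)⟩)
          exact f_grow_anti_70 (hL.sub (.cons_cons _ (.cons_cons _ (.cons_cons _ (.cons_cons _ (.cons_cons _ (.cons_cons _ (.cons_cons _ (List.nil_sublist _))))))))) hxyr hypr hc (l1 _ hw) (l2 _ ho) no nw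
  · obtain ⟨jv1, jv2⟩ := adj_f k
    rcases lt_trichotomy (ρ o) (ρ r) with tor | tor | tor
    · have hL : T.RotL a [x, y, p, q, o, r] := hρ.rotL (by
        simp only [List.map_cons, List.map_nil, List.isChain_cons_cons, List.isChain_singleton, and_true]
        exact ⟨xy, yp, pq, (qO _ ho), tor⟩) (List.forall_mem_cons.2 ⟨hx, (List.forall_mem_cons.2 ⟨hy, (List.forall_mem_cons.2 ⟨hp, (List.forall_mem_cons.2 ⟨hq, (List.forall_mem_cons.2 ⟨(hO _ ho), (List.forall_mem_cons.2 ⟨hra, fun _ h => by cases h⟩)⟩)⟩)⟩)⟩)⟩)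
      exact f_grow_anti_71 (hL.sub (.cons_cons _ (.cons_cons _ (.cons_cons _ (.cons_cons _ (.cons_cons _ (.cons_cons _ (List.nil_sublist _)))))))) hxyr hypr hc (l2 _ ho) no jv1 jv2
    · exact hrO ((hρ.1 _ _ (hO _ ho) hra tor) ▸ ho)
    · have hL : T.RotL a [x, y, p, q, r, o] := hρ.rotL (by
        simp only [List.map_cons, List.map_nil, List.isChain_cons_cons, List.isChain_singleton, and_true]
        exact ⟨xy, yp, pq, hqr, tor⟩) (List.forall_mem_cons.2 ⟨hx, (List.forall_mem_cons.2 ⟨hy, (List.forall_mem_cons.2 ⟨hp, (List.forall_mem_cons.2 ⟨hq, (List.forall_mem_cons.2 ⟨hra, (List.forall_mem_cons.2 ⟨(hO _ ho), fun _ h => by cases h⟩)⟩)⟩)⟩)⟩)⟩)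
      exact f_grow_anti_72 (hL.sub (.cons_cons _ (.cons_cons _ (.cons_cons _ (.cons_cons _ (.cons_cons _ (.cons_cons _ (List.nil_sublist _)))))))) hxyr hypr hc (l2 _ ho) no jv1 jv2
  · have jv : T.X a x y q = false → T.X a y x q = false → False := fun n1 n2 => adj_t k (by rw [T.xs2]; exact n1) (by rw [T.xs2]; exact n2)
    rcases lt_trichotomy (ρ o) (ρ r) with tor | tor | tor
    · have hL : T.RotL a [x, y, p, q, o, r] := hρ.rotL (by
        simp only [List.map_cons, List.map_nil, List.isChain_cons_cons, List.isChain_singleton, and_true]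
        exact ⟨xy, yp, pq, (qO _ ho), tor⟩) (List.forall_mem_cons.2 ⟨hx, (List.forall_mem_cons.2 ⟨hy, (List.forall_mem_cons.2 ⟨hp, (List.forall_mem_cons.2 ⟨hq, (List.forall_mem_cons.2 ⟨(hO _ ho), (List.forall_mem_cons.2 ⟨hra, fun _ h => by cases h⟩)⟩)⟩)⟩)⟩)⟩)
      exact f_grow_anti_73 (hL.sub (.cons_cons _ (.cons_cons _ (.cons_cons _ (.cons_cons _ (.cons_cons _ (.cons_cons _ (List.nil_sublist _)))))))) hxyr hypr hc (l2 _ ho) no jv
    · exact hrO ((hρ.1 _ _ (hO _ ho) hra tor) ▸ ho)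
    · have hL : T.RotL a [x, y, p, q, r, o] := hρ.rotL (by
        simp only [List.map_cons, List.map_nil, List.isChain_cons_cons, List.isChain_singleton, and_true]
        exact ⟨xy, yp, pq, hqr, tor⟩) (List.forall_mem_cons.2 ⟨hx, (List.forall_mem_cons.2 ⟨hy, (List.forall_mem_cons.2 ⟨hp, (List.forall_mem_cons.2 ⟨hq, (List.forall_mem_cons.2 ⟨hra, (List.forall_mem_cons.2 ⟨(hO _ ho), fun _ h => by cases h⟩)⟩)⟩)⟩)⟩)⟩)
      exact f_grow_anti_74 (hL.sub (.cons_cons _ (.cons_cons _ (.cons_cons _ (.cons_cons _ (.cons_cons _ (.cons_cons _ (List.nil_sublist _)))))))) hxyr hypr hc (l2 _ ho) no jv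
  · have ju : T.X a p x q = false → T.X a q x p = false → False := fun n1 n2 => adj_t j n1 n2
    rcases lt_trichotomy (ρ w) (ρ r) with twr | twr | twr
    · have hL : T.RotL a [x, y, p, q, w, r] := hρ.rotL (by
        simp only [List.map_cons, List.map_nil, List.isChain_cons_cons, List.isChain_singleton, and_true]
        exact ⟨xy, yp, pq, (qO _ hw), twr⟩) (List.forall_mem_cons.2 ⟨hx, (List.forall_mem_cons.2 ⟨hy, (List.forall_mem_cons.2 ⟨hp, (List.forall_mem_cons.2 ⟨hq, (List.forall_mem_cons.2 ⟨(hO _ hw), (List.forall_mem_cons.2 ⟨hra, fun _ h => by cases h⟩)⟩)⟩)⟩)⟩)⟩)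
      exact f_grow_anti_75 (hL.sub (.cons_cons _ (.cons_cons _ (.cons_cons _ (.cons_cons _ (.cons_cons _ (.cons_cons _ (List.nil_sublist _)))))))) hxyr hxpr hypr hyqr hpqr hc (l1 _ hw) ju nw
    · exact hrO ((hρ.1 _ _ (hO _ hw) hra twr) ▸ hw)
    · have hL : T.RotL a [x, y, p, q, r, w] := hρ.rotL (by
        simp only [List.map_cons, List.map_nil, List.isChain_cons_cons, List.isChain_singleton, and_true]
        exact ⟨xy, yp, pq, hqr, twr⟩) (List.forall_mem_cons.2 ⟨hx, (List.forall_mem_cons.2 ⟨hy, (List.forall_mem_cons.2 ⟨hp, (List.forall_mem_cons.2 ⟨hq, (List.forall_mem_cons.2 ⟨hra, (List.forall_mem_cons.2 ⟨(hO _ hw), fun _ h => by cases h⟩)⟩)⟩)⟩)⟩)⟩)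
      exact f_grow_anti_76 (hL.sub (.cons_cons _ (.cons_cons _ (.cons_cons _ (.cons_cons _ (.cons_cons _ (.cons_cons _ (List.nil_sublist _)))))))) hxyr hxpr hyqr hpqr hc (l1 _ hw) ju nw
  · have ju : T.X a p x q = false → T.X a q x p = false → False := fun n1 n2 => adj_t j n1 n2
    obtain ⟨jv1, jv2⟩ := adj_f k
    have hL : T.RotL a [x, y, p, q, r] := hρ.rotL (by
      simp only [List.map_cons, List.map_nil, List.isChain_cons_cons, List.isChain_singleton, and_true]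
      exact ⟨xy, yp, pq, hqr⟩) (List.forall_mem_cons.2 ⟨hx, (List.forall_mem_cons.2 ⟨hy, (List.forall_mem_cons.2 ⟨hp, (List.forall_mem_cons.2 ⟨hq, (List.forall_mem_cons.2 ⟨hra, fun _ h => by cases h⟩)⟩)⟩)⟩)⟩)
    exact f_grow_anti_77 (hL.sub (.cons_cons _ (.cons_cons _ (.cons_cons _ (.cons_cons _ (.cons_cons _ (List.nil_sublist _))))))) hxyr hypr hc ju jv1 jv2
  · have ju : T.X a p x q = false → T.X a q x p = false → False := fun n1 n2 => adj_t j n1 n2
    have jv : T.X a x y q = false → T.X a y x q = false → False := fun n1 n2 => adj_t k (by rw [T.xs2]; exact n1) (by rw [T.xs2]; exact n2)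
    have hL : T.RotL a [x, y, p, q, r] := hρ.rotL (by
      simp only [List.map_cons, List.map_nil, List.isChain_cons_cons, List.isChain_singleton, and_true]
      exact ⟨xy, yp, pq, hqr⟩) (List.forall_mem_cons.2 ⟨hx, (List.forall_mem_cons.2 ⟨hy, (List.forall_mem_cons.2 ⟨hp, (List.forall_mem_cons.2 ⟨hq, (List.forall_mem_cons.2 ⟨hra, fun _ h => by cases h⟩)⟩)⟩)⟩)⟩)
    exact f_grow_anti_78 (hL.sub (.cons_cons _ (.cons_cons _ (.cons_cons _ (.cons_cons _ (.cons_cons _ (List.nil_sublist _))))))) hxyr hxpr hyqr hpqr hc ju jv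
  · obtain ⟨ju1, ju2⟩ := adj_f j
    rw [T.xs2] at ju1
    rw [T.xs2] at ju2
    rcases lt_trichotomy (ρ w) (ρ r) with twr | twr | twr
    · have hL : T.RotL a [x, y, p, q, w, r] := hρ.rotL (by
        simp only [List.map_cons, List.map_nil, List.isChain_cons_cons, List.isChain_singleton, and_true]
        exact ⟨xy, yp, pq, (qO _ hw), twr⟩) (List.forall_mem_cons.2 ⟨hx, (List.forall_mem_cons.2 ⟨hy, (List.forall_mem_cons.2 ⟨hp, (List.forall_mem_cons.2 ⟨hq, (List.forall_mem_cons.2 ⟨(hO _ hw), (List.forall_mem_cons.2 ⟨hra, fun _ h => by cases h⟩)⟩)⟩)⟩)⟩)⟩)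
      exact f_grow_anti_79 (hL.sub (.cons_cons _ (.cons_cons _ (.cons_cons _ (.cons_cons _ (.cons_cons _ (.cons_cons _ (List.nil_sublist _)))))))) hxyr hypr hc (l1 _ hw) ju1 nw
    · exact hrO ((hρ.1 _ _ (hO _ hw) hra twr) ▸ hw)
    · have hL : T.RotL a [x, y, p, q, r, w] := hρ.rotL (by
        simp only [List.map_cons, List.map_nil, List.isChain_cons_cons, List.isChain_singleton, and_true]
        exact ⟨xy, yp, pq, hqr, twr⟩) (List.forall_mem_cons.2 ⟨hx, (List.forall_mem_cons.2 ⟨hy, (List.forall_mem_cons.2 ⟨hp, (List.forall_mem_cons.2 ⟨hq, (List.forall_mem_cons.2 ⟨hra, (List.forall_mem_cons.2 ⟨(hO _ hw), fun _ h => by cases h⟩)⟩)⟩)⟩)⟩)⟩)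
      exact f_grow_anti_80 (hL.sub (.cons_cons _ (.cons_cons _ (.cons_cons _ (.cons_cons _ (.cons_cons _ (.cons_cons _ (List.nil_sublist _)))))))) hxyr hypr hc (l1 _ hw) ju1 nw
  · obtain ⟨ju1, ju2⟩ := adj_f j
    rw [T.xs2] at ju1
    rw [T.xs2] at ju2
    obtain ⟨jv1, jv2⟩ := adj_f k
    have hL : T.RotL a [x, y, p, q, r] := hρ.rotL (by
      simp only [List.map_cons, List.map_nil, List.isChain_cons_cons, List.isChain_singleton, and_true]
      exact ⟨xy, yp, pq, hqr⟩) (List.forall_mem_cons.2 ⟨hx, (List.forall_mem_cons.2 ⟨hy, (List.forall_mem_cons.2 ⟨hp, (List.forall_mem_cons.2 ⟨hq, (List.forall_mem_cons.2 ⟨hra, fun _ h => by cases h⟩)⟩)⟩)⟩)⟩)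
    exact f_grow_anti_81 (hL.sub (.cons_cons _ (.cons_cons _ (.cons_cons _ (.cons_cons _ (.cons_cons _ (List.nil_sublist _))))))) hxyr hypr hc ju1 jv1 jv2
  · obtain ⟨ju1, ju2⟩ := adj_f j
    rw [T.xs2] at ju1
    rw [T.xs2] at ju2
    have jv : T.X a x y q = false → T.X a y x q = false → False := fun n1 n2 => adj_t k (by rw [T.xs2]; exact n1) (by rw [T.xs2]; exact n2)
    have hL : T.RotL a [x, y, p, q, r] := hρ.rotL (by
      simp only [List.map_cons, List.map_nil, List.isChain_cons_cons, List.isChain_singleton, and_true]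
      exact ⟨xy, yp, pq, hqr⟩) (List.forall_mem_cons.2 ⟨hx, (List.forall_mem_cons.2 ⟨hy, (List.forall_mem_cons.2 ⟨hp, (List.forall_mem_cons.2 ⟨hq, (List.forall_mem_cons.2 ⟨hra, fun _ h => by cases h⟩)⟩)⟩)⟩)⟩)
    exact f_grow_anti_82 (hL.sub (.cons_cons _ (.cons_cons _ (.cons_cons _ (.cons_cons _ (.cons_cons _ (List.nil_sublist _))))))) hxyr hypr hc ju1 jv

end H53P
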