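import Pool.Agent.Lib.H98S.Al
import Pool.Agent.Lib.H98S.MG
import Pool.Agent.Lib.H63P.FC

/-! # H98S, file FCI: tables satisfy the finite facts of module C -/

namespace H53P

variable {V : Type} {T : Table V} {a : V} {ρ : V → ℝ} (hρ : T.Ord a ρ)

/-- the rotation cut just before `c`, order of the points above and below `c` -/
theorem al_shift (hρ : T.Ord a ρ) (c : V) : ∃ σ : V → ℝ, T.Ord a σ ∧
    (∀ x y, ρ c ≤ ρ x → ρ c ≤ ρ y → (σ x < σ y ↔ ρ x < ρ y)) ∧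
    (∀ x y, ρ x < ρ c → ρ y < ρ c → (σ x < σ y ↔ ρ x < ρ y)) ∧
    (∀ x y, ρ c ≤ ρ x → ρ y < ρ c → σ x < σ y) := shift_ge hρ (ρ c)

theorem ad_iff {x p q : Al a} : H63P.ad (cr T a) x p q ↔ T.adj a x.1 p.1 q.1 = true := by
  unfold H63P.ad cr Table.adj
  rw [Bool.or_eq_true]

theorem ad_iff_f {x p q : Al a} : ¬ H63P.ad (cr T a) x p q ↔ T.adj a x.1 p.1 q.1 = false := by
  rw [ad_iff, Bool.not_eq_true]

theorem ad_comm {x p q : Al a} : H63P.ad (cr T a) x p q ↔ H63P.ad (cr T a) x q p := by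
  unfold H63P.ad
  exact or_comm

/-- the finset of rays -/
def fo (O : Finset (Al a)) : Finset V := O.map (Function.Embedding.subtype _)

theorem fo_ne {O : Finset (Al a)} : ∀ o ∈ fo O, o ≠ a := by
  intro o ho
  obtain ⟨x, -, rfl⟩ := Finset.mem_map.1 ho
  exact x.2

theorem fo_lo {O : Finset (Al a)} {x y : Al a} (h : H63P.Lo (cr T a) O x y) :
    ∀ o ∈ fo O, T.X a o x.1 y.1 = false := by
  intro o ho
  obtain ⟨z, hz, rfl⟩ := Finset.mem_map.1 ho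
  exact ncr (h z hz)

theorem lo_fo {O : Finset (Al a)} {x y : Al a} (h : ∀ o ∈ fo O, T.X a o x.1 y.1 = false) :
    H63P.Lo (cr T a) O x y := by
  intro o ho h1
  have h2 := h o.1 (Finset.mem_map.2 ⟨o, ho, rfl⟩)
  unfold cr at h1
  rw [h2] at h1
  cases h1

theorem not_lo {O : Finset (Al a)} {x y : Al a} (h : ¬ H63P.Lo (cr T a) O x y) :
    ∃ o ∈ fo O, T.X a o x.1 y.1 = true := by
  unfold H63P.Lo at h
  push Not at h
  obtain ⟨o, ho, h1⟩ := h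
  exact ⟨o.1, Finset.mem_map.2 ⟨o, ho, rfl⟩, h1⟩

/-- common data: the shifted rotation for four points and the rays around them -/
theorem four_shift (hρ : T.Ord a ρ) {O : Finset (Al a)} {x y p q : Al a} (xy : ρ x.1 < ρ y.1)
    (yp : ρ y.1 < ρ p.1) (pq : ρ p.1 < ρ q.1) (hO : ∀ o ∈ O, ρ o.1 < ρ x.1 ∨ ρ q.1 < ρ o.1) :
    ∃ σ : V → ℝ, T.Ord a σ ∧ σ x.1 < σ y.1 ∧ σ y.1 < σ p.1 ∧ σ p.1 < σ q.1 ∧
      (∀ o ∈ fo O, σ q.1 < σ o) ∧ ∀ r : V, (ρ r < ρ x.1 ∨ ρ q.1 < ρ r) → σ q.1 < σ r := by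
  obtain ⟨σ, h1, h2, h3, h4⟩ := al_shift hρ x.1
  have key : ∀ r : V, (ρ r < ρ x.1 ∨ ρ q.1 < ρ r) → σ q.1 < σ r := by
    intro r hr
    rcases hr with hr | hr
    · exact h4 _ _ ((xy.trans yp).trans pq).le hr
    · exact (h2 _ _ ((xy.trans yp).trans pq).le (((xy.trans yp).trans pq).trans hr).le).2 hr
  refine ⟨σ, h1, (h2 _ _ le_rfl xy.le).2 xy, (h2 _ _ xy.le (xy.trans yp).le).2 yp,
    (h2 _ _ (xy.trans yp).le ((xy.trans yp).trans pq).le).2 pq, ?_, key⟩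
  intro o ho
  obtain ⟨z, hz, rfl⟩ := Finset.mem_map.1 ho
  exact key _ (hO z hz)

theorem pU_lt {x p q : Al a} (h : ρ p.1 < ρ q.1) :
    letI := alOrd hρ
    (H63P.pU (cr T a) x q p ↔ T.adj a x.1 p.1 q.1 = true) ∧
    (H63P.pU (cr T a) x p q ↔ T.adj a x.1 p.1 q.1 = false) := by
  letI := alOrd hρ
  have hpq : p < q := h
  have hqp : ¬ q < p := not_lt.2 hpq.le
  unfold H63P.pU
  refine ⟨?_, ?_⟩
  · rw [← ad_iff, ad_comm]
    simp [hpq, hqp]
  · rw [← ad_iff_f]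
    simp [hpq, hqp]

theorem pD_lt {p x y : Al a} (h : ρ x.1 < ρ y.1) :
    letI := alOrd hρ
    (H63P.pD (cr T a) p x y ↔ T.adj a p.1 x.1 y.1 = true) ∧
    (H63P.pD (cr T a) p y x ↔ T.adj a p.1 x.1 y.1 = false) := by
  letI := alOrd hρ
  have hxy : x < y := h
  have hyx : ¬ y < x := not_lt.2 hxy.le
  unfold H63P.pD
  refine ⟨?_, ?_⟩
  · rw [← ad_iff]
    simp [hxy, hyx]
  · rw [← ad_iff_f, ad_comm]
    simp [hxy, hyx]

theorem pU_pre {x p q : Al a} (hpq : p ≠ q) :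
    letI := alOrd hρ
    (H63P.pU (cr T a) x p q ↔ T.pre ρ a x.1 p.1 q.1 = true) := by
  letI := alOrd hρ
  have hn : ρ p.1 ≠ ρ q.1 := fun h => hpq (Subtype.ext (hρ.1 _ _ p.2 q.2 h))
  unfold Table.pre
  rcases lt_or_gt_of_ne hn with h | h
  · rw [(pU_lt hρ h).2, decide_eq_true h]
    cases T.adj a x.1 p.1 q.1 <;> simp
  · rw [(pU_lt hρ h).1, adj_comm', decide_eq_false (not_lt.2 h.le)]
    cases T.adj a x.1 p.1 q.1 <;> simp

theorem pD_pre {p x y : Al a} (hxy : x ≠ y) :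
    letI := alOrd hρ
    (H63P.pD (cr T a) p y x ↔ T.pre ρ a p.1 x.1 y.1 = true) := by
  letI := alOrd hρ
  have hn : ρ x.1 ≠ ρ y.1 := fun h => hxy (Subtype.ext (hρ.1 _ _ x.2 y.2 h))
  unfold Table.pre
  rcases lt_or_gt_of_ne hn with h | h
  · rw [(pD_lt hρ h).2, decide_eq_true h]
    cases T.adj a p.1 x.1 y.1 <;> simp
  · rw [(pD_lt hρ h).1, adj_comm', decide_eq_false (not_lt.2 h.le)]
    cases T.adj a p.1 x.1 y.1 <;> simp

theorem pU_irr {x p q : Al a} :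
    letI := alOrd hρ
    H63P.pU (cr T a) x p q → H63P.pU (cr T a) x q p → False := by
  letI := alOrd hρ
  intro h1 h2
  unfold H63P.pU at h1 h2
  rw [ad_comm] at h2
  rcases h1 with ⟨a1, a2⟩ | ⟨a1, a2⟩ <;> rcases h2 with ⟨b1, b2⟩ | ⟨b1, b2⟩
  · exact lt_asymm a1 b1
  · exact a2 b2
  · exact b2 a2
  · exact lt_asymm a1 b1

theorem pD_irr {p x y : Al a} :
    letI := alOrd hρ
    H63P.pD (cr T a) p x y → H63P.pD (cr T a) p y x → False := by
  letI := alOrd hρ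
  intro h1 h2
  unfold H63P.pD at h1 h2
  rw [ad_comm] at h2
  rcases h1 with ⟨a1, a2⟩ | ⟨a1, a2⟩ <;> rcases h2 with ⟨b1, b2⟩ | ⟨b1, b2⟩
  · exact lt_asymm a1 b1
  · exact a2 b2
  · exact b2 a2
  · exact lt_asymm a1 b1

theorem al_fc [Fintype V] [DecidableEq V] :
    letI := alOrd hρ
    H63P.FC (cr T a) (xx T a) := by
  letI := alOrd hρ
  refine ⟨cr_symm, fun x y z h => cr_ne h, xx_symm, ?_, ?_, ?_, ?_, ?_, ?_, ?_⟩
  · intro x y z w h
    unfold xx at *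
    rw [T.xs1]
    exact h
  · intro x p q r xp xq xr h1 h2
    have npq : p ≠ q := by
      rintro rfl
      exact pU_irr hρ h1 h1
    have nqr : q ≠ r := by
      rintro rfl
      exact pU_irr hρ h2 h2
    by_cases npr : p = r
    · subst npr
      exact (pU_irr hρ h1 h2).elim
    · rw [pU_pre hρ npr]
      exact pre_trans_b hρ x.2 p.2 q.2 r.2 xp xq xr (fun h => npq (Subtype.ext h))
        (fun h => nqr (Subtype.ext h)) (fun h => npr (Subtype.ext h)) ((pU_pre hρ npq).1 h1)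
        ((pU_pre hρ nqr).1 h2)
  · intro p x y z xp yp zp h1 h2
    have nxy : y ≠ x := by
      rintro rfl
      exact pD_irr hρ h1 h1
    have nyz : z ≠ y := by
      rintro rfl
      exact pD_irr hρ h2 h2
    by_cases nxz : z = x
    · subst nxz
      exact (pD_irr hρ h1 h2).elim
    · rw [pD_pre hρ nxz]
      exact pre_trans_f hρ p.2 z.2 y.2 x.2 zp yp xp (fun h => nyz (Subtype.ext h))
        (fun h => nxy (Subtype.ext h)) (fun h => nxz (Subtype.ext h)) ((pD_pre hρ nyz).1 h2)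
        ((pD_pre hρ nxy).1 h1)
  · intro O x y p q xy yp pq hO l1 l2 n1 n2
    obtain ⟨σ, hσ, s1, s2, s3, s4, -⟩ := four_shift hρ xy yp pq hO
    intro hc
    have h := sep_free hσ x.2 y.2 p.2 q.2 fo_ne s1 s2 s3 s4 (fo_lo l1) (fo_lo l2) (not_lo n1)
      (not_lo n2)
    unfold xx at hc
    rw [h] at hc
    cases hc
  · intro O x y p q r xy yp pq hO hr c1 c2
    obtain ⟨σ, hσ, s1, s2, s3, s4, -⟩ := four_shift hρ xy yp pq hO
    refine ⟨?_, ?_⟩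
    · intro l1 l2 hc b1 b2
      refine merge_iso hσ (Finset.mem_map.2 ⟨r, hr, rfl⟩) x.2 y.2 p.2 q.2 fo_ne s1 s2 s3 s4 c1 c2
        (fo_lo l1) (fo_lo l2) hc ?_ ?_
      · rintro ⟨h1, h2, h3⟩
        exact b1 ⟨lo_fo h1, (pU_lt hρ pq).1.2 h2, (pD_lt hρ xy).1.2 h3⟩
      · rintro ⟨h1, h2, h3⟩
        exact b2 ⟨lo_fo h1, (pU_lt hρ pq).2.2 h2, (pD_lt hρ xy).2.2 h3⟩
    · intro l1 l2 hc b1 b2
      refine merge_anti hσ (Finset.mem_map.2 ⟨r, hr, rfl⟩) x.2 y.2 p.2 q.2 fo_ne s1 s2 s3 s4 c1 c2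
        (fo_lo l1) (fo_lo l2) hc ?_ ?_
      · rintro ⟨h1, h2, h3⟩
        exact b1 ⟨lo_fo h1, (pU_lt hρ pq).2.2 h2, (pD_lt hρ xy).1.2 h3⟩
      · rintro ⟨h1, h2, h3⟩
        exact b2 ⟨lo_fo h1, (pU_lt hρ pq).1.2 h2, (pD_lt hρ xy).2.2 h3⟩
  · intro O x y p q r xy yp pq hO hr c1 c2 c3 c4 c5 c6
    by_cases hrO : r ∈ O
    · refine ⟨fun l1 => absurd c2 (l1 r hrO), fun l1 => absurd c3 (l1 r hrO)⟩
    obtain ⟨σ, hσ, s1, s2, s3, s4, s5⟩ := four_shift hρ xy yp pq hO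
    have hrO' : r.1 ∉ fo O := by
      intro h
      obtain ⟨z, hz, h2⟩ := Finset.mem_map.1 h
      have : z = r := Subtype.ext h2
      exact hrO (this ▸ hz)
    refine ⟨?_, ?_⟩
    · intro l1 l2 hc b1 b2
      refine grow_iso hσ r.2 hrO' (s5 _ hr) x.2 y.2 p.2 q.2 fo_ne s1 s2 s3 s4 c1 c2 c3 c4 c5 c6
        (fo_lo l1) (fo_lo l2) hc ?_ ?_
      · rintro ⟨h1, h2, h3⟩
        exact b1 ⟨lo_fo h1, (pU_lt hρ pq).1.2 h2, (pD_lt hρ xy).1.2 h3⟩
      · rintro ⟨h1, h2, h3⟩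
        exact b2 ⟨lo_fo h1, (pU_lt hρ pq).2.2 h2, (pD_lt hρ xy).2.2 h3⟩
    · intro l1 l2 hc b1 b2
      refine grow_anti hσ r.2 hrO' (s5 _ hr) x.2 y.2 p.2 q.2 fo_ne s1 s2 s3 s4 c1 c2 c3 c4 c5 c6
        (fo_lo l1) (fo_lo l2) hc ?_ ?_
      · rintro ⟨h1, h2, h3⟩
        exact b1 ⟨lo_fo h1, (pU_lt hρ pq).2.2 h2, (pD_lt hρ xy).1.2 h3⟩
      · rintro ⟨h1, h2, h3⟩
        exact b2 ⟨lo_fo h1, (pU_lt hρ pq).1.2 h2, (pD_lt hρ xy).2.2 h3⟩
  · intro i j k l o o' ij jk kl ho ho' hw c1 c2 c3 c4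
    obtain ⟨σ, hσ, h2, h3, h4⟩ := al_shift hρ i.1
    have jk' : ρ j.1 ≤ ρ k.1 := by
      rcases lt_or_eq_of_le jk with h | h
      · exact le_of_lt h
      · exact le_of_eq (by rw [h])
    have il : ρ i.1 < ρ l.1 := lt_of_lt_of_le (lt_of_lt_of_le ij jk') (le_of_lt kl)
    have ij' : σ i.1 < σ j.1 := (h2 _ _ le_rfl (le_of_lt ij)).2 ij
    have ik : ρ i.1 ≤ ρ k.1 := (lt_of_lt_of_le ij jk').le
    have kl' : σ k.1 < σ l.1 := (h2 _ _ ik il.le).2 kl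
    have out : ∀ r : Al a, (ρ r.1 < ρ i.1 ∨ ρ l.1 < ρ r.1) → σ l.1 < σ r.1 := by
      intro r hr
      rcases hr with hr | hr
      · exact h4 _ _ il.le hr
      · exact (h2 _ _ il.le (il.trans hr).le).2 hr
    have key : σ o'.1 < σ o.1 := by
      rcases lt_or_eq_of_le jk with h | h
      · rcases hw with hw | ⟨w, hw1, hw2⟩
        · exact absurd hw (ne_of_lt h)
        · have e1 : ∀ z ∈ ({o.1, o'.1, w.1} : Finset V), z ≠ a := by
            intro z hz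
            simp only [Finset.mem_insert, Finset.mem_singleton] at hz
            rcases hz with rfl | rfl | rfl
            · exact o.2
            · exact o'.2
            · exact w.2
          have e2 : ∀ z ∈ ({o.1, o'.1, w.1} : Finset V), σ l.1 < σ z := by
            intro z hz
            simp only [Finset.mem_insert, Finset.mem_singleton] at hz
            rcases hz with rfl | rfl | rfl
            · exact out o ho
            · exact out o' ho'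
            · exact out w hw1
          have jk2 : σ j.1 < σ k.1 := (h2 _ _ (le_of_lt ij) ik).2 h
          exact n1_disj hσ i.2 j.2 k.2 l.2 e1 ij' jk2 kl' e2 (by simp) (by simp) c1 (ncr c2) c3
            (ncr c4) ⟨w.1, by simp, hw2⟩
      · subst h
        have ho2 := out o ho
        exact n1_shared hσ i.2 j.2 l.2 o.2 o'.2 ij' kl' ho2 c1 (ncr c2) c3 (ncr c4)
    unfold H63P.Aft
    change (ρ l.1 < ρ o'.1 ∧ ρ o.1 < ρ i.1) ∨ (ρ o'.1 < ρ o.1 ∧ (ρ l.1 < ρ o'.1 ∨ ρ o.1 < ρ i.1))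
    rcases ho with ho | ho <;> rcases ho' with ho' | ho'
    · right
      exact ⟨(h3 _ _ ho' ho).1 key, Or.inr ho⟩
    · left
      exact ⟨ho', ho⟩
    · exfalso
      exact lt_asymm key (h4 _ _ (il.trans ho).le ho')
    · right
      exact ⟨(h2 _ _ (il.trans ho').le (il.trans ho).le).1 key, Or.inl ho'⟩

end H53P
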