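import Pool.Agent.Lib.H98S.CL1

/-! # H98S, finite facts, file MGF: merge and growth, cases (generated) -/

set_option linter.unusedVariables false

namespace H53P

variable {V : Type*} {T : Table V}

theorem f_merge_iso_1 {a x y p q w o r : V} (h : T.RotL a [x, y, p, q, w, o, r])
    (hxy : T.X a r x y = true)
    (hpq : T.X a r p q = true)
    (hc : T.X x p y q = true)
    (lxpw : T.X a w x p = false)
    (lxpo : T.X a o x p = false)
    (lxpr : T.X a r x p = false)
    (lyqo : T.X a o y q = false)
    (nxq : T.X a o x q = true)
    (nyp : T.X a w y p = true) : False := by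
  have g10 := c5a_1068_4 (h.four (.cons _ (.cons_cons _ (.cons_cons _ (.cons _ (.cons_cons _ (.cons _ (.cons_cons _ (List.nil_sublist _)))))))))
  have g11 := c5a_9482_8194 (h.four (.cons_cons _ (.cons_cons _ (.cons_cons _ (.cons_cons _ (List.nil_sublist _))))))
  have g12 := c5a_292_260 (h.four (.cons_cons _ (.cons _ (.cons_cons _ (.cons_cons _ (.cons _ (.cons_cons _ (List.nil_sublist _))))))))
  have g13 := c5a_289_33 (h.four (.cons_cons _ (.cons_cons _ (.cons_cons _ (.cons _ (.cons _ (.cons _ (.cons_cons _ (List.nil_sublist _)))))))))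
  have g14 := c5a_2305_257 (h.four (.cons_cons _ (.cons_cons _ (.cons _ (.cons_cons _ (.cons _ (.cons_cons _ (List.nil_sublist _))))))))
  have g15 := c5a_2307_2048 (h.four (.cons_cons _ (.cons_cons _ (.cons_cons _ (.cons _ (.cons_cons _ (List.nil_sublist _)))))))
  have g16 := c5a_2082_2082 (h.four (.cons _ (.cons_cons _ (.cons_cons _ (.cons_cons _ (.cons_cons _ (List.nil_sublist _)))))))
  have g17 := c5a_2057_2056 (h.four (.cons _ (.cons_cons _ (.cons_cons _ (.cons_cons _ (.cons _ (.cons _ (.cons_cons _ (List.nil_sublist _)))))))))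
  have g18 := c5a_2082_2082 (h.four (.cons_cons _ (.cons_cons _ (.cons_cons _ (.cons _ (.cons _ (.cons _ (.cons_cons _ (List.nil_sublist _)))))))))
  have g19 := c5a_164_160 (h.four (.cons _ (.cons _ (.cons_cons _ (.cons_cons _ (.cons_cons _ (.cons _ (.cons_cons _ (List.nil_sublist _)))))))))
  have g20 := c5a_9024_8704 (h.four (.cons_cons _ (.cons_cons _ (.cons_cons _ (.cons_cons _ (List.nil_sublist _))))))
  have g21 := c5a_8266_8258 (h.four (.cons_cons _ (.cons_cons _ (.cons_cons _ (.cons_cons _ (List.nil_sublist _))))))
  have s22 : T.X a y p r = false → T.X a r y p = false → T.X a w p r = false → False := fun n1 n2 n3 => by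
    exact g10 nyp n1 n2 n3
  have s23 : T.X a y x p = true → T.X a x y q = false → T.X a q x p = false → T.X a p y q = false → False := fun n1 n2 n3 n4 => by
    exact g11 n1 n2 n3 n4 hc
  have s24 : T.X a q x p = true → False := fun n1 => by
    exact g12 n1 lxpo nxq
  have s25 : T.X a x y p = true → False := fun n1 => by
    exact g13 n1 hxy lxpr
  have s26 : T.X a x y q = true → False := fun n1 => by
    exact g14 n1 nxq lyqo
  have s27 : T.X a y x p = false → False := fun n1 => by
    have u1 : T.X a x y p = false := bf (fun t => s25 t)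
    exact g15 u1 n1 lxpw nyp
  have s28 : T.X a p y q = false → False := fun n1 => by
    have u1 : T.X a y x p = true := bt (fun t => s27 t)
    have u2 : T.X a q x p = false := bf (fun t => s24 t)
    have u3 : T.X a x y q = false := bf (fun t => s26 t)
    exact s23 u1 u3 u2 n1
  have s29 : T.X a w p q = true → False := fun n1 => by
    have u1 : T.X a p y q = true := bt (fun t => s28 t)
    exact g16 u1 nyp n1
  have s30 : T.X a y p q = false → T.X a y p r = true → False := fun n1 n2 => by
    exact g17 n1 n2 hpq
  have s31 : T.X a r y p = true → False := fun n1 => by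
    have u1 : T.X a y x p = true := bt (fun t => s27 t)
    exact g18 u1 hxy n1
  have s32 : T.X a w p r = true → False := fun n1 => by
    have u1 : T.X a w p q = false := bf (fun t => s29 t)
    exact g19 u1 hpq n1
  have s33 : T.X a y p r = false → False := fun n1 => by
    have u1 : T.X a w p r = false := bf (fun t => s32 t)
    have u2 : T.X a r y p = false := bf (fun t => s31 t)
    exact s22 n1 u2 u1
  have s34 : T.X a y p q = false → False := fun n1 => by
    have u1 : T.X a y p r = true := bt (fun t => s33 t)
    exact s30 n1 u1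
  have s35 : T.X a x p q = false → False := fun n1 => by
    have u1 : T.X a q x p = false := bf (fun t => s24 t)
    have u2 : T.X a y p q = true := bt (fun t => s34 t)
    exact g20 n1 u1 u2 hc
  have u1 : T.X a y x p = true := bt (fun t => s27 t)
  have u2 : T.X a x y q = false := bf (fun t => s26 t)
  have u3 : T.X a x p q = true := bt (fun t => s35 t)
  exact g21 u1 u2 u3 hc

theorem f_merge_iso_2 {a x y p q o r : V} (h : T.RotL a [x, y, p, q, o, r])
    (hxy : T.X a r x y = true)
    (hpq : T.X a r p q = true)
    (hc : T.X x p y q = true)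
    (lxpo : T.X a o x p = false)
    (lxpr : T.X a r x p = false)
    (lyqo : T.X a o y q = false)
    (nxq : T.X a o x q = true)
    (nyp : T.X a o y p = true) : False := by
  have g9 := c5a_164_160 (h.four (.cons _ (.cons _ (.cons_cons _ (.cons_cons _ (.cons_cons _ (.cons_cons _ (List.nil_sublist _))))))))
  have g10 := c5a_292_260 (h.four (.cons_cons _ (.cons_cons _ (.cons _ (.cons_cons _ (.cons_cons _ (List.nil_sublist _)))))))
  have g11 := c5a_2338_258 (h.four (.cons_cons _ (.cons_cons _ (.cons _ (.cons_cons _ (.cons_cons _ (List.nil_sublist _)))))))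
  have g12 := c5a_289_33 (h.four (.cons_cons _ (.cons_cons _ (.cons_cons _ (.cons _ (.cons _ (.cons_cons _ (List.nil_sublist _))))))))
  have g13 := c5a_2305_257 (h.four (.cons_cons _ (.cons_cons _ (.cons _ (.cons_cons _ (.cons_cons _ (List.nil_sublist _)))))))
  have g14 := c5a_2336_2080 (h.four (.cons_cons _ (.cons_cons _ (.cons_cons _ (.cons _ (.cons_cons _ (List.nil_sublist _)))))))
  have g15 := c5a_2307_2048 (h.four (.cons_cons _ (.cons_cons _ (.cons_cons _ (.cons _ (.cons_cons _ (List.nil_sublist _)))))))
  have g16 := c5a_9274_8194 (h.four (.cons_cons _ (.cons_cons _ (.cons_cons _ (.cons_cons _ (List.nil_sublist _))))))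
  have g17 := c5a_2082_2082 (h.four (.cons_cons _ (.cons_cons _ (.cons_cons _ (.cons _ (.cons _ (.cons_cons _ (List.nil_sublist _))))))))
  have g18 := c5a_12288_12288 (h.four (.cons_cons _ (.cons_cons _ (.cons_cons _ (.cons_cons _ (List.nil_sublist _))))))
  have g19 := c5a_8266_8258 (h.four (.cons_cons _ (.cons_cons _ (.cons_cons _ (.cons_cons _ (List.nil_sublist _))))))
  have g20 := c5a_2057_2056 (h.four (.cons _ (.cons_cons _ (.cons_cons _ (.cons_cons _ (.cons _ (.cons_cons _ (List.nil_sublist _))))))))
  have g21 := c5a_1068_4 (h.four (.cons _ (.cons_cons _ (.cons_cons _ (.cons _ (.cons_cons _ (.cons_cons _ (List.nil_sublist _))))))))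
  have g22 := c5a_2082_2082 (h.four (.cons _ (.cons_cons _ (.cons_cons _ (.cons_cons _ (.cons_cons _ (List.nil_sublist _)))))))
  have g23 := c5a_4704_512 (h.four (.cons_cons _ (.cons_cons _ (.cons_cons _ (.cons_cons _ (List.nil_sublist _))))))
  have s24 : T.X a o p q = false → T.X a o p r = true → False := fun n1 n2 => by
    exact g9 n1 hpq n2
  have s25 : T.X a q x y = true → T.X a o x y = false → False := fun n1 n2 => by
    exact g10 n1 n2 nxq
  have s26 : T.X a y x q = true → T.X a o x y = false → False := fun n1 n2 => by
    exact g11 n1 n2 nxq lyqo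
  have s27 : T.X a x y p = true → False := fun n1 => by
    exact g12 n1 hxy lxpr
  have s28 : T.X a x y q = true → False := fun n1 => by
    exact g13 n1 nxq lyqo
  have s29 : T.X a o x y = true → False := fun n1 => by
    exact g14 n1 lxpo nyp
  have s30 : T.X a q x y = true → False := fun n1 => by
    have u1 : T.X a o x y = false := bf (fun t => s29 t)
    exact s25 n1 u1
  have s31 : T.X a y x q = true → False := fun n1 => by
    have u1 : T.X a o x y = false := bf (fun t => s29 t)
    exact s26 n1 u1
  have s32 : T.X a y x p = false → False := fun n1 => by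
    have u1 : T.X a x y p = false := bf (fun t => s27 t)
    exact g15 u1 n1 lxpo nyp
  have s33 : T.X a p y q = false → False := fun n1 => by
    have u1 : T.X a y x p = true := bt (fun t => s32 t)
    have u2 : T.X a x y q = false := bf (fun t => s28 t)
    have u3 : T.X a y x q = false := bf (fun t => s31 t)
    have u4 : T.X a q x y = false := bf (fun t => s30 t)
    exact g16 u1 u2 u3 u4 n1 hc
  have s34 : T.X a r y p = true → False := fun n1 => by
    have u1 : T.X a y x p = true := bt (fun t => s32 t)
    exact g17 u1 hxy n1
  have s35 : T.X x y p q = true → False := fun n1 => by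
    exact g18 n1 hc
  have s36 : T.X a x p q = true → False := fun n1 => by
    have u1 : T.X a y x p = true := bt (fun t => s32 t)
    have u2 : T.X a x y q = false := bf (fun t => s28 t)
    exact g19 u1 u2 n1 hc
  have s37 : T.X a y p q = false → T.X a y p r = true → False := fun n1 n2 => by
    exact g20 n1 n2 hpq
  have s38 : T.X a y p r = false → T.X a o p r = false → False := fun n1 n2 => by
    have u2 : T.X a r y p = false := bf (fun t => s34 t)
    exact g21 nyp n1 u2 n2
  have s39 : T.X a o p q = true → False := fun n1 => by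
    have u1 : T.X a p y q = true := bt (fun t => s33 t)
    exact g22 u1 nyp n1
  have s40 : T.X a o p r = true → False := fun n1 => by
    have u1 : T.X a o p q = false := bf (fun t => s39 t)
    exact s24 u1 n1
  have s41 : T.X a y p r = false → False := fun n1 => by
    have u1 : T.X a o p r = false := bf (fun t => s40 t)
    exact s38 n1 u1
  have s42 : T.X a y p q = false → False := fun n1 => by
    have u1 : T.X a y p r = true := bt (fun t => s41 t)
    exact s37 n1 u1
  have u1 : T.X a q x y = false := bf (fun t => s30 t)
  have u2 : T.X a x p q = false := bf (fun t => s36 t)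
  have u3 : T.X a y p q = true := bt (fun t => s42 t)
  have u4 : T.X x y p q = false := bf (fun t => s35 t)
  exact g23 u1 u2 u3 u4

theorem f_merge_iso_3 {a x y p q o w r : V} (h : T.RotL a [x, y, p, q, o, w, r])
    (hxy : T.X a r x y = true)
    (hpq : T.X a r p q = true)
    (hc : T.X x p y q = true)
    (lxpo : T.X a o x p = false)
    (lxpw : T.X a w x p = false)
    (lxpr : T.X a r x p = false)
    (lyqo : T.X a o y q = false)
    (nxq : T.X a o x q = true)
    (nyp : T.X a w y p = true) : False := by
  have g10 := c5a_1068_4 (h.four (.cons _ (.cons_cons _ (.cons_cons _ (.cons _ (.cons _ (.cons_cons _ (.cons_cons _ (List.nil_sublist _)))))))))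
  have g11 := c5a_9482_8194 (h.four (.cons_cons _ (.cons_cons _ (.cons_cons _ (.cons_cons _ (List.nil_sublist _))))))
  have g12 := c5a_292_260 (h.four (.cons_cons _ (.cons _ (.cons_cons _ (.cons_cons _ (.cons_cons _ (List.nil_sublist _)))))))
  have g13 := c5a_289_33 (h.four (.cons_cons _ (.cons_cons _ (.cons_cons _ (.cons _ (.cons _ (.cons _ (.cons_cons _ (List.nil_sublist _)))))))))
  have g14 := c5a_2305_257 (h.four (.cons_cons _ (.cons_cons _ (.cons _ (.cons_cons _ (.cons_cons _ (List.nil_sublist _)))))))
  have g15 := c5a_2307_2048 (h.four (.cons_cons _ (.cons_cons _ (.cons_cons _ (.cons _ (.cons _ (.cons_cons _ (List.nil_sublist _))))))))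
  have g16 := c5a_2082_2082 (h.four (.cons _ (.cons_cons _ (.cons_cons _ (.cons_cons _ (.cons _ (.cons_cons _ (List.nil_sublist _))))))))
  have g17 := c5a_2057_2056 (h.four (.cons _ (.cons_cons _ (.cons_cons _ (.cons_cons _ (.cons _ (.cons _ (.cons_cons _ (List.nil_sublist _)))))))))
  have g18 := c5a_2082_2082 (h.four (.cons_cons _ (.cons_cons _ (.cons_cons _ (.cons _ (.cons _ (.cons _ (.cons_cons _ (List.nil_sublist _)))))))))
  have g19 := c5a_164_160 (h.four (.cons _ (.cons _ (.cons_cons _ (.cons_cons _ (.cons _ (.cons_cons _ (.cons_cons _ (List.nil_sublist _)))))))))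
  have g20 := c5a_9024_8704 (h.four (.cons_cons _ (.cons_cons _ (.cons_cons _ (.cons_cons _ (List.nil_sublist _))))))
  have g21 := c5a_8266_8258 (h.four (.cons_cons _ (.cons_cons _ (.cons_cons _ (.cons_cons _ (List.nil_sublist _))))))
  have s22 : T.X a y p r = false → T.X a r y p = false → T.X a w p r = false → False := fun n1 n2 n3 => by
    exact g10 nyp n1 n2 n3
  have s23 : T.X a y x p = true → T.X a x y q = false → T.X a q x p = false → T.X a p y q = false → False := fun n1 n2 n3 n4 => by
    exact g11 n1 n2 n3 n4 hc
  have s24 : T.X a q x p = true → False := fun n1 => by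
    exact g12 n1 lxpo nxq
  have s25 : T.X a x y p = true → False := fun n1 => by
    exact g13 n1 hxy lxpr
  have s26 : T.X a x y q = true → False := fun n1 => by
    exact g14 n1 nxq lyqo
  have s27 : T.X a y x p = false → False := fun n1 => by
    have u1 : T.X a x y p = false := bf (fun t => s25 t)
    exact g15 u1 n1 lxpw nyp
  have s28 : T.X a p y q = false → False := fun n1 => by
    have u1 : T.X a y x p = true := bt (fun t => s27 t)
    have u2 : T.X a q x p = false := bf (fun t => s24 t)
    have u3 : T.X a x y q = false := bf (fun t => s26 t)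
    exact s23 u1 u3 u2 n1
  have s29 : T.X a w p q = true → False := fun n1 => by
    have u1 : T.X a p y q = true := bt (fun t => s28 t)
    exact g16 u1 nyp n1
  have s30 : T.X a y p q = false → T.X a y p r = true → False := fun n1 n2 => by
    exact g17 n1 n2 hpq
  have s31 : T.X a r y p = true → False := fun n1 => by
    have u1 : T.X a y x p = true := bt (fun t => s27 t)
    exact g18 u1 hxy n1
  have s32 : T.X a w p r = true → False := fun n1 => by
    have u1 : T.X a w p q = false := bf (fun t => s29 t)
    exact g19 u1 hpq n1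
  have s33 : T.X a y p r = false → False := fun n1 => by
    have u1 : T.X a w p r = false := bf (fun t => s32 t)
    have u2 : T.X a r y p = false := bf (fun t => s31 t)
    exact s22 n1 u2 u1
  have s34 : T.X a y p q = false → False := fun n1 => by
    have u1 : T.X a y p r = true := bt (fun t => s33 t)
    exact s30 n1 u1
  have s35 : T.X a x p q = false → False := fun n1 => by
    have u1 : T.X a q x p = false := bf (fun t => s24 t)
    have u2 : T.X a y p q = true := bt (fun t => s34 t)
    exact g20 n1 u1 u2 hc
  have u1 : T.X a y x p = true := bt (fun t => s27 t)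
  have u2 : T.X a x y q = false := bf (fun t => s26 t)
  have u3 : T.X a x p q = true := bt (fun t => s35 t)
  exact g21 u1 u2 u3 hc

theorem f_merge_iso_4 {a x y p r : V} (h : T.RotL a [x, y, p, r])
    (hxy : T.X a r x y = true)
    (lxpr : T.X a r x p = false)
    (nyp : T.X a r y p = true) : False := by
  have g4 := c5a_2336_2080 (h.four (.cons_cons _ (.cons_cons _ (.cons_cons _ (.cons_cons _ (List.nil_sublist _))))))
  exact g4 hxy lxpr nyp

theorem f_merge_iso_5 {a x y p r w : V} (h : T.RotL a [x, y, p, r, w])
    (hxy : T.X a r x y = true)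
    (lxpr : T.X a r x p = false)
    (lxpw : T.X a w x p = false)
    (nyp : T.X a w y p = true) : False := by
  have g5 := c5a_2336_2080 (h.four (.cons_cons _ (.cons_cons _ (.cons_cons _ (.cons_cons _ (List.nil_sublist _))))))
  have g6 := c5a_294_32 (h.four (.cons_cons _ (.cons_cons _ (.cons_cons _ (.cons_cons _ (List.nil_sublist _))))))
  have g7 := c5a_2308_2052 (h.four (.cons_cons _ (.cons_cons _ (.cons_cons _ (.cons _ (.cons_cons _ (List.nil_sublist _)))))))
  have g8 := c5a_289_33 (h.four (.cons_cons _ (.cons_cons _ (.cons_cons _ (.cons_cons _ (List.nil_sublist _))))))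
  have g9 := c5a_2082_2082 (h.four (.cons_cons _ (.cons_cons _ (.cons_cons _ (.cons _ (.cons_cons _ (List.nil_sublist _)))))))
  have g10 := c5a_164_160 (h.four (.cons _ (.cons_cons _ (.cons_cons _ (.cons_cons _ (.cons_cons _ (List.nil_sublist _)))))))
  have g11 := c5a_1068_4 (h.four (.cons_cons _ (.cons_cons _ (.cons _ (.cons_cons _ (.cons_cons _ (List.nil_sublist _)))))))
  have g12 := c5a_2057_2056 (h.four (.cons_cons _ (.cons_cons _ (.cons_cons _ (.cons _ (.cons_cons _ (List.nil_sublist _)))))))
  have s13 : T.X a r y p = true → False := fun n1 => by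
    exact g5 hxy lxpr n1
  have s14 : T.X a y x p = false → T.X a p x y = false → False := fun n1 n2 => by
    exact g6 n1 n2 hxy lxpr
  have s15 : T.X a p x y = true → False := fun n1 => by
    exact g7 n1 lxpw nyp
  have s16 : T.X a y x p = false → False := fun n1 => by
    have u1 : T.X a p x y = false := bf (fun t => s15 t)
    exact s14 n1 u1
  have s17 : T.X a x y p = true → False := fun n1 => by
    exact g8 n1 hxy lxpr
  have s18 : T.X a w x y = true → False := fun n1 => by
    have u1 : T.X a y x p = true := bt (fun t => s16 t)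
    exact g9 u1 n1 nyp
  have s19 : T.X a r y w = true → False := fun n1 => by
    have u1 : T.X a r y p = false := bf (fun t => s13 t)
    exact g10 u1 nyp n1
  have s20 : T.X a x y w = false → False := fun n1 => by
    have u2 : T.X a w x y = false := bf (fun t => s18 t)
    have u3 : T.X a r y w = false := bf (fun t => s19 t)
    exact g11 hxy n1 u2 u3
  have u1 : T.X a x y p = false := bf (fun t => s17 t)
  have u2 : T.X a x y w = true := bt (fun t => s20 t)
  exact g12 u1 u2 nyp

theorem f_merge_iso_6 {a x y p q w r : V} (h : T.RotL a [x, y, p, q, w, r])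
    (hxy : T.X a r x y = true)
    (hpq : T.X a r p q = true)
    (hc : T.X x p y q = true)
    (lxpw : T.X a w x p = false)
    (lxpr : T.X a r x p = false)
    (lyqr : T.X a r y q = false)
    (nxq : T.X a r x q = true)
    (nyp : T.X a w y p = true) : False := by
  have g9 := c5a_1068_4 (h.four (.cons _ (.cons_cons _ (.cons_cons _ (.cons _ (.cons_cons _ (.cons_cons _ (List.nil_sublist _))))))))
  have g10 := c5a_9482_8194 (h.four (.cons_cons _ (.cons_cons _ (.cons_cons _ (.cons_cons _ (List.nil_sublist _))))))
  have g11 := c5a_292_260 (h.four (.cons_cons _ (.cons _ (.cons_cons _ (.cons_cons _ (.cons _ (.cons_cons _ (List.nil_sublist _))))))))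
  have g12 := c5a_289_33 (h.four (.cons_cons _ (.cons_cons _ (.cons_cons _ (.cons _ (.cons _ (.cons_cons _ (List.nil_sublist _))))))))
  have g13 := c5a_2081_33 (h.four (.cons_cons _ (.cons_cons _ (.cons _ (.cons_cons _ (.cons _ (.cons_cons _ (List.nil_sublist _))))))))
  have g14 := c5a_2307_2048 (h.four (.cons_cons _ (.cons_cons _ (.cons_cons _ (.cons _ (.cons_cons _ (List.nil_sublist _)))))))
  have g15 := c5a_2082_2082 (h.four (.cons _ (.cons_cons _ (.cons_cons _ (.cons_cons _ (.cons_cons _ (List.nil_sublist _)))))))
  have g16 := c5a_2057_2056 (h.four (.cons _ (.cons_cons _ (.cons_cons _ (.cons_cons _ (.cons _ (.cons_cons _ (List.nil_sublist _))))))))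
  have g17 := c5a_2082_2082 (h.four (.cons_cons _ (.cons_cons _ (.cons_cons _ (.cons _ (.cons _ (.cons_cons _ (List.nil_sublist _))))))))
  have g18 := c5a_164_160 (h.four (.cons _ (.cons _ (.cons_cons _ (.cons_cons _ (.cons_cons _ (.cons_cons _ (List.nil_sublist _))))))))
  have g19 := c5a_9024_8704 (h.four (.cons_cons _ (.cons_cons _ (.cons_cons _ (.cons_cons _ (List.nil_sublist _))))))
  have g20 := c5a_8266_8258 (h.four (.cons_cons _ (.cons_cons _ (.cons_cons _ (.cons_cons _ (List.nil_sublist _))))))
  have s21 : T.X a y p r = false → T.X a r y p = false → T.X a w p r = false → False := fun n1 n2 n3 => by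
    exact g9 nyp n1 n2 n3
  have s22 : T.X a y x p = true → T.X a x y q = false → T.X a q x p = false → T.X a p y q = false → False := fun n1 n2 n3 n4 => by
    exact g10 n1 n2 n3 n4 hc
  have s23 : T.X a q x p = true → False := fun n1 => by
    exact g11 n1 lxpr nxq
  have s24 : T.X a x y p = true → False := fun n1 => by
    exact g12 n1 hxy lxpr
  have s25 : T.X a x y q = true → False := fun n1 => by
    exact g13 n1 hxy lyqr
  have s26 : T.X a y x p = false → False := fun n1 => by
    have u1 : T.X a x y p = false := bf (fun t => s24 t)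
    exact g14 u1 n1 lxpw nyp
  have s27 : T.X a p y q = false → False := fun n1 => by
    have u1 : T.X a y x p = true := bt (fun t => s26 t)
    have u2 : T.X a q x p = false := bf (fun t => s23 t)
    have u3 : T.X a x y q = false := bf (fun t => s25 t)
    exact s22 u1 u3 u2 n1
  have s28 : T.X a w p q = true → False := fun n1 => by
    have u1 : T.X a p y q = true := bt (fun t => s27 t)
    exact g15 u1 nyp n1
  have s29 : T.X a y p q = false → T.X a y p r = true → False := fun n1 n2 => by
    exact g16 n1 n2 hpq
  have s30 : T.X a r y p = true → False := fun n1 => by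
    have u1 : T.X a y x p = true := bt (fun t => s26 t)
    exact g17 u1 hxy n1
  have s31 : T.X a w p r = true → False := fun n1 => by
    have u1 : T.X a w p q = false := bf (fun t => s28 t)
    exact g18 u1 hpq n1
  have s32 : T.X a y p r = false → False := fun n1 => by
    have u1 : T.X a w p r = false := bf (fun t => s31 t)
    have u2 : T.X a r y p = false := bf (fun t => s30 t)
    exact s21 n1 u2 u1
  have s33 : T.X a y p q = false → False := fun n1 => by
    have u1 : T.X a y p r = true := bt (fun t => s32 t)
    exact s29 n1 u1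
  have s34 : T.X a x p q = false → False := fun n1 => by
    have u1 : T.X a q x p = false := bf (fun t => s23 t)
    have u2 : T.X a y p q = true := bt (fun t => s33 t)
    exact g19 n1 u1 u2 hc
  have u1 : T.X a y x p = true := bt (fun t => s26 t)
  have u2 : T.X a x y q = false := bf (fun t => s25 t)
  have u3 : T.X a x p q = true := bt (fun t => s34 t)
  exact g20 u1 u2 u3 hc

theorem f_merge_iso_7 {a x y p q w r : V} (h : T.RotL a [x, y, p, q, w, r])
    (hxy : T.X a r x y = true)
    (hpq : T.X a r p q = true)
    (hc : T.X x p y q = true)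
    (lxpw : T.X a w x p = false)
    (lxpr : T.X a r x p = false)
    (lyqr : T.X a r y q = false)
    (nyp : T.X a w y p = true) : False := by
  have g8 := c5a_1068_4 (h.four (.cons _ (.cons_cons _ (.cons_cons _ (.cons _ (.cons_cons _ (.cons_cons _ (List.nil_sublist _))))))))
  have g9 := c5a_9482_8194 (h.four (.cons_cons _ (.cons_cons _ (.cons_cons _ (.cons_cons _ (List.nil_sublist _))))))
  have g10 := c5a_2084_2052 (h.four (.cons_cons _ (.cons _ (.cons_cons _ (.cons_cons _ (.cons _ (.cons_cons _ (List.nil_sublist _))))))))
  have g11 := c5a_289_33 (h.four (.cons_cons _ (.cons_cons _ (.cons_cons _ (.cons _ (.cons _ (.cons_cons _ (List.nil_sublist _))))))))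
  have g12 := c5a_2081_33 (h.four (.cons_cons _ (.cons_cons _ (.cons _ (.cons_cons _ (.cons _ (.cons_cons _ (List.nil_sublist _))))))))
  have g13 := c5a_2307_2048 (h.four (.cons_cons _ (.cons_cons _ (.cons_cons _ (.cons _ (.cons_cons _ (List.nil_sublist _)))))))
  have g14 := c5a_2082_2082 (h.four (.cons _ (.cons_cons _ (.cons_cons _ (.cons_cons _ (.cons_cons _ (List.nil_sublist _)))))))
  have g15 := c5a_2057_2056 (h.four (.cons _ (.cons_cons _ (.cons_cons _ (.cons_cons _ (.cons _ (.cons_cons _ (List.nil_sublist _))))))))
  have g16 := c5a_2082_2082 (h.four (.cons_cons _ (.cons_cons _ (.cons_cons _ (.cons _ (.cons _ (.cons_cons _ (List.nil_sublist _))))))))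
  have g17 := c5a_164_160 (h.four (.cons _ (.cons _ (.cons_cons _ (.cons_cons _ (.cons_cons _ (.cons_cons _ (List.nil_sublist _))))))))
  have g18 := c5a_9024_8704 (h.four (.cons_cons _ (.cons_cons _ (.cons_cons _ (.cons_cons _ (List.nil_sublist _))))))
  have g19 := c5a_8266_8258 (h.four (.cons_cons _ (.cons_cons _ (.cons_cons _ (.cons_cons _ (List.nil_sublist _))))))
  have s20 : T.X a y p r = false → T.X a r y p = false → T.X a w p r = false → False := fun n1 n2 n3 => by
    exact g8 nyp n1 n2 n3
  have s21 : T.X a y x p = true → T.X a x y q = false → T.X a q x p = false → T.X a p y q = false → False := fun n1 n2 n3 n4 => by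
    exact g9 n1 n2 n3 n4 hc
  have s22 : T.X a q x p = true → False := fun n1 => by
    exact g10 n1 lxpr hpq
  have s23 : T.X a x y p = true → False := fun n1 => by
    exact g11 n1 hxy lxpr
  have s24 : T.X a x y q = true → False := fun n1 => by
    exact g12 n1 hxy lyqr
  have s25 : T.X a y x p = false → False := fun n1 => by
    have u1 : T.X a x y p = false := bf (fun t => s23 t)
    exact g13 u1 n1 lxpw nyp
  have s26 : T.X a p y q = false → False := fun n1 => by
    have u1 : T.X a y x p = true := bt (fun t => s25 t)
    have u2 : T.X a q x p = false := bf (fun t => s22 t)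
    have u3 : T.X a x y q = false := bf (fun t => s24 t)
    exact s21 u1 u3 u2 n1
  have s27 : T.X a w p q = true → False := fun n1 => by
    have u1 : T.X a p y q = true := bt (fun t => s26 t)
    exact g14 u1 nyp n1
  have s28 : T.X a y p q = false → T.X a y p r = true → False := fun n1 n2 => by
    exact g15 n1 n2 hpq
  have s29 : T.X a r y p = true → False := fun n1 => by
    have u1 : T.X a y x p = true := bt (fun t => s25 t)
    exact g16 u1 hxy n1
  have s30 : T.X a w p r = true → False := fun n1 => by
    have u1 : T.X a w p q = false := bf (fun t => s27 t)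
    exact g17 u1 hpq n1
  have s31 : T.X a y p r = false → False := fun n1 => by
    have u1 : T.X a w p r = false := bf (fun t => s30 t)
    have u2 : T.X a r y p = false := bf (fun t => s29 t)
    exact s20 n1 u2 u1
  have s32 : T.X a y p q = false → False := fun n1 => by
    have u1 : T.X a y p r = true := bt (fun t => s31 t)
    exact s28 n1 u1
  have s33 : T.X a x p q = false → False := fun n1 => by
    have u1 : T.X a q x p = false := bf (fun t => s22 t)
    have u2 : T.X a y p q = true := bt (fun t => s32 t)
    exact g18 n1 u1 u2 hc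
  have u1 : T.X a y x p = true := bt (fun t => s25 t)
  have u2 : T.X a x y q = false := bf (fun t => s24 t)
  have u3 : T.X a x p q = true := bt (fun t => s33 t)
  exact g19 u1 u2 u3 hc

theorem f_merge_iso_8 {a x y p r o : V} (h : T.RotL a [x, y, p, r, o])
    (hxy : T.X a r x y = true)
    (lxpr : T.X a r x p = false)
    (lxpo : T.X a o x p = false)
    (nyp : T.X a o y p = true) : False := by
  have g5 := c5a_2336_2080 (h.four (.cons_cons _ (.cons_cons _ (.cons_cons _ (.cons_cons _ (List.nil_sublist _))))))
  have g6 := c5a_294_32 (h.four (.cons_cons _ (.cons_cons _ (.cons_cons _ (.cons_cons _ (List.nil_sublist _))))))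
  have g7 := c5a_2308_2052 (h.four (.cons_cons _ (.cons_cons _ (.cons_cons _ (.cons _ (.cons_cons _ (List.nil_sublist _)))))))
  have g8 := c5a_289_33 (h.four (.cons_cons _ (.cons_cons _ (.cons_cons _ (.cons_cons _ (List.nil_sublist _))))))
  have g9 := c5a_2082_2082 (h.four (.cons_cons _ (.cons_cons _ (.cons_cons _ (.cons _ (.cons_cons _ (List.nil_sublist _)))))))
  have g10 := c5a_164_160 (h.four (.cons _ (.cons_cons _ (.cons_cons _ (.cons_cons _ (.cons_cons _ (List.nil_sublist _)))))))
  have g11 := c5a_1068_4 (h.four (.cons_cons _ (.cons_cons _ (.cons _ (.cons_cons _ (.cons_cons _ (List.nil_sublist _)))))))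
  have g12 := c5a_2057_2056 (h.four (.cons_cons _ (.cons_cons _ (.cons_cons _ (.cons _ (.cons_cons _ (List.nil_sublist _)))))))
  have s13 : T.X a r y p = true → False := fun n1 => by
    exact g5 hxy lxpr n1
  have s14 : T.X a y x p = false → T.X a p x y = false → False := fun n1 n2 => by
    exact g6 n1 n2 hxy lxpr
  have s15 : T.X a p x y = true → False := fun n1 => by
    exact g7 n1 lxpo nyp
  have s16 : T.X a y x p = false → False := fun n1 => by
    have u1 : T.X a p x y = false := bf (fun t => s15 t)
    exact s14 n1 u1
  have s17 : T.X a x y p = true → False := fun n1 => by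
    exact g8 n1 hxy lxpr
  have s18 : T.X a o x y = true → False := fun n1 => by
    have u1 : T.X a y x p = true := bt (fun t => s16 t)
    exact g9 u1 n1 nyp
  have s19 : T.X a r y o = true → False := fun n1 => by
    have u1 : T.X a r y p = false := bf (fun t => s13 t)
    exact g10 u1 nyp n1
  have s20 : T.X a x y o = false → False := fun n1 => by
    have u2 : T.X a o x y = false := bf (fun t => s18 t)
    have u3 : T.X a r y o = false := bf (fun t => s19 t)
    exact g11 hxy n1 u2 u3
  have u1 : T.X a x y p = false := bf (fun t => s17 t)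
  have u2 : T.X a x y o = true := bt (fun t => s20 t)
  exact g12 u1 u2 nyp

theorem f_merge_iso_9 {a x y p q o r : V} (h : T.RotL a [x, y, p, q, o, r])
    (hxy : T.X a r x y = true)
    (hpq : T.X a r p q = true)
    (hc : T.X x p y q = true)
    (lxpo : T.X a o x p = false)
    (lxpr : T.X a r x p = false)
    (lyqo : T.X a o y q = false)
    (nxq : T.X a o x q = true)
    (jv : T.X a p y q = false → T.X a q y p = false → False) : False := by
  have g9 := c5a_1058_1058 (h.four (.cons_cons _ (.cons_cons _ (.cons_cons _ (.cons _ (.cons _ (.cons_cons _ (List.nil_sublist _))))))))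
  have g10 := c5a_10497_10240 (h.four (.cons_cons _ (.cons_cons _ (.cons_cons _ (.cons_cons _ (List.nil_sublist _))))))
  have g11 := c5a_2305_257 (h.four (.cons_cons _ (.cons_cons _ (.cons _ (.cons_cons _ (.cons_cons _ (List.nil_sublist _)))))))
  have g12 := c5a_1536_1536 (h.four (.cons_cons _ (.cons_cons _ (.cons_cons _ (.cons_cons _ (List.nil_sublist _))))))
  have g13 := c5a_2057_2056 (h.four (.cons _ (.cons_cons _ (.cons_cons _ (.cons_cons _ (.cons _ (.cons_cons _ (List.nil_sublist _))))))))
  have g14 := c5a_292_260 (h.four (.cons_cons _ (.cons _ (.cons_cons _ (.cons_cons _ (.cons_cons _ (List.nil_sublist _)))))))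
  have g15 := c5a_289_33 (h.four (.cons_cons _ (.cons_cons _ (.cons_cons _ (.cons _ (.cons _ (.cons_cons _ (List.nil_sublist _))))))))
  have g16 := c5a_9482_9216 (h.four (.cons_cons _ (.cons_cons _ (.cons_cons _ (.cons_cons _ (List.nil_sublist _))))))
  have g17 := c5a_18449_2048 (h.four (.cons _ (.cons_cons _ (.cons_cons _ (.cons_cons _ (.cons _ (.cons_cons _ (List.nil_sublist _))))))))
  have g18 := c5_16394_16394 (h.five (.cons_cons _ (.cons_cons _ (.cons_cons _ (.cons_cons _ (.cons _ (.cons_cons _ (List.nil_sublist _))))))))
  have g19 := c5a_4642_34 (h.four (.cons_cons _ (.cons_cons _ (.cons_cons _ (.cons _ (.cons _ (.cons_cons _ (List.nil_sublist _))))))))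
  have s20 : T.X a y x p = true → T.X a p y r = true → False := fun n1 n2 => by
    exact g9 n1 hxy n2
  have s21 : T.X a x y p = false → T.X a q x p = false → T.X a q y p = true → False := fun n1 n2 n3 => by
    exact g10 n1 n2 n3 hc
  have s22 : T.X a x y q = true → False := fun n1 => by
    exact g11 n1 nxq lyqo
  have s23 : T.X a y p q = false → T.X a y p r = true → False := fun n1 n2 => by
    exact g13 n1 n2 hpq
  have s24 : T.X a q x p = true → False := fun n1 => by
    exact g14 n1 lxpo nxq
  have s25 : T.X a x y p = true → False := fun n1 => by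
    exact g15 n1 hxy lxpr
  have s26 : T.X a q y p = true → False := fun n1 => by
    have u1 : T.X a x y p = false := bf (fun t => s25 t)
    have u2 : T.X a q x p = false := bf (fun t => s24 t)
    exact s21 u1 u2 n1
  have s27 : T.X a p y q = false → False := fun n1 => by
    have u1 : T.X a q y p = false := bf (fun t => s26 t)
    exact jv n1 u1
  have s28 : T.X a y p q = true → False := fun n1 => by
    have u1 : T.X a p y q = true := bt (fun t => s27 t)
    exact g12 n1 u1
  have s29 : T.X a y p r = true → False := fun n1 => by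
    have u1 : T.X a y p q = false := bf (fun t => s28 t)
    exact s23 u1 n1
  have s30 : T.X a y x p = false → False := fun n1 => by
    have u1 : T.X a x y q = false := bf (fun t => s22 t)
    have u2 : T.X a q x p = false := bf (fun t => s24 t)
    have u3 : T.X a p y q = true := bt (fun t => s27 t)
    exact g16 n1 u1 u2 u3 hc
  have s31 : T.X a p y r = true → False := fun n1 => by
    have u1 : T.X a y x p = true := bt (fun t => s30 t)
    exact s20 u1 n1
  have s32 : T.X y r p q = false → False := fun n1 => by
    have u1 : T.X a y p q = false := bf (fun t => s28 t)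
    have u2 : T.X a p y r = false := bf (fun t => s31 t)
    exact g17 u1 u2 hpq n1
  have s33 : T.X x y p r = true → False := fun n1 => by
    have u2 : T.X y r p q = true := bt (fun t => s32 t)
    exact g18 hc n1 u2
  have u1 : T.X a y x p = true := bt (fun t => s30 t)
  have u3 : T.X a y p r = false := bf (fun t => s29 t)
  have u4 : T.X x y p r = false := bf (fun t => s33 t)
  exact g19 u1 hxy u3 u4

theorem f_merge_iso_10 {a x y p q r : V} (h : T.RotL a [x, y, p, q, r])
    (hxy : T.X a r x y = true)
    (hpq : T.X a r p q = true)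
    (hc : T.X x p y q = true)
    (lxpr : T.X a r x p = false)
    (lyqr : T.X a r y q = false)
    (nxq : T.X a r x q = true)
    (jv : T.X a p y q = false → T.X a q y p = false → False) : False := by
  have g8 := c5a_1058_1058 (h.four (.cons_cons _ (.cons_cons _ (.cons_cons _ (.cons _ (.cons_cons _ (List.nil_sublist _)))))))
  have g9 := c5a_10497_10240 (h.four (.cons_cons _ (.cons_cons _ (.cons_cons _ (.cons_cons _ (List.nil_sublist _))))))
  have g10 := c5a_2081_33 (h.four (.cons_cons _ (.cons_cons _ (.cons _ (.cons_cons _ (.cons_cons _ (List.nil_sublist _)))))))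
  have g11 := c5a_1536_1536 (h.four (.cons_cons _ (.cons_cons _ (.cons_cons _ (.cons_cons _ (List.nil_sublist _))))))
  have g12 := c5a_2057_2056 (h.four (.cons _ (.cons_cons _ (.cons_cons _ (.cons_cons _ (.cons_cons _ (List.nil_sublist _)))))))
  have g13 := c5a_292_260 (h.four (.cons_cons _ (.cons _ (.cons_cons _ (.cons_cons _ (.cons_cons _ (List.nil_sublist _)))))))
  have g14 := c5a_289_33 (h.four (.cons_cons _ (.cons_cons _ (.cons_cons _ (.cons _ (.cons_cons _ (List.nil_sublist _)))))))
  have g15 := c5a_9482_9216 (h.four (.cons_cons _ (.cons_cons _ (.cons_cons _ (.cons_cons _ (List.nil_sublist _))))))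
  have g16 := c5a_18449_2048 (h.four (.cons _ (.cons_cons _ (.cons_cons _ (.cons_cons _ (.cons_cons _ (List.nil_sublist _)))))))
  have g17 := c5_16394_16394 (h.five (.cons_cons _ (.cons_cons _ (.cons_cons _ (.cons_cons _ (.cons_cons _ (List.nil_sublist _)))))))
  have g18 := c5a_4642_34 (h.four (.cons_cons _ (.cons_cons _ (.cons_cons _ (.cons _ (.cons_cons _ (List.nil_sublist _)))))))
  have s19 : T.X a y x p = true → T.X a p y r = true → False := fun n1 n2 => by
    exact g8 n1 hxy n2
  have s20 : T.X a x y p = false → T.X a q x p = false → T.X a q y p = true → False := fun n1 n2 n3 => by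
    exact g9 n1 n2 n3 hc
  have s21 : T.X a x y q = true → False := fun n1 => by
    exact g10 n1 hxy lyqr
  have s22 : T.X a y p q = false → T.X a y p r = true → False := fun n1 n2 => by
    exact g12 n1 n2 hpq
  have s23 : T.X a q x p = true → False := fun n1 => by
    exact g13 n1 lxpr nxq
  have s24 : T.X a x y p = true → False := fun n1 => by
    exact g14 n1 hxy lxpr
  have s25 : T.X a q y p = true → False := fun n1 => by
    have u1 : T.X a x y p = false := bf (fun t => s24 t)
    have u2 : T.X a q x p = false := bf (fun t => s23 t)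
    exact s20 u1 u2 n1
  have s26 : T.X a p y q = false → False := fun n1 => by
    have u1 : T.X a q y p = false := bf (fun t => s25 t)
    exact jv n1 u1
  have s27 : T.X a y p q = true → False := fun n1 => by
    have u1 : T.X a p y q = true := bt (fun t => s26 t)
    exact g11 n1 u1
  have s28 : T.X a y p r = true → False := fun n1 => by
    have u1 : T.X a y p q = false := bf (fun t => s27 t)
    exact s22 u1 n1
  have s29 : T.X a y x p = false → False := fun n1 => by
    have u1 : T.X a x y q = false := bf (fun t => s21 t)
    have u2 : T.X a q x p = false := bf (fun t => s23 t)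
    have u3 : T.X a p y q = true := bt (fun t => s26 t)
    exact g15 n1 u1 u2 u3 hc
  have s30 : T.X a p y r = true → False := fun n1 => by
    have u1 : T.X a y x p = true := bt (fun t => s29 t)
    exact s19 u1 n1
  have s31 : T.X y r p q = false → False := fun n1 => by
    have u1 : T.X a y p q = false := bf (fun t => s27 t)
    have u2 : T.X a p y r = false := bf (fun t => s30 t)
    exact g16 u1 u2 hpq n1
  have s32 : T.X x y p r = true → False := fun n1 => by
    have u2 : T.X y r p q = true := bt (fun t => s31 t)
    exact g17 hc n1 u2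
  have u1 : T.X a y x p = true := bt (fun t => s29 t)
  have u3 : T.X a y p r = false := bf (fun t => s28 t)
  have u4 : T.X x y p r = false := bf (fun t => s32 t)
  exact g18 u1 hxy u3 u4

theorem f_merge_iso_11 {a x y p q r : V} (h : T.RotL a [x, y, p, q, r])
    (hxy : T.X a r x y = true)
    (hpq : T.X a r p q = true)
    (hc : T.X x p y q = true)
    (lxpr : T.X a r x p = false)
    (lyqr : T.X a r y q = false)
    (jv : T.X a p y q = false → T.X a q y p = false → False) : False := by
  have g7 := c5a_1058_1058 (h.four (.cons_cons _ (.cons_cons _ (.cons_cons _ (.cons _ (.cons_cons _ (List.nil_sublist _)))))))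
  have g8 := c5a_10497_10240 (h.four (.cons_cons _ (.cons_cons _ (.cons_cons _ (.cons_cons _ (List.nil_sublist _))))))
  have g9 := c5a_2081_33 (h.four (.cons_cons _ (.cons_cons _ (.cons _ (.cons_cons _ (.cons_cons _ (List.nil_sublist _)))))))
  have g10 := c5a_1536_1536 (h.four (.cons_cons _ (.cons_cons _ (.cons_cons _ (.cons_cons _ (List.nil_sublist _))))))
  have g11 := c5a_2057_2056 (h.four (.cons _ (.cons_cons _ (.cons_cons _ (.cons_cons _ (.cons_cons _ (List.nil_sublist _)))))))
  have g12 := c5a_2084_2052 (h.four (.cons_cons _ (.cons _ (.cons_cons _ (.cons_cons _ (.cons_cons _ (List.nil_sublist _)))))))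
  have g13 := c5a_289_33 (h.four (.cons_cons _ (.cons_cons _ (.cons_cons _ (.cons _ (.cons_cons _ (List.nil_sublist _)))))))
  have g14 := c5a_9482_9216 (h.four (.cons_cons _ (.cons_cons _ (.cons_cons _ (.cons_cons _ (List.nil_sublist _))))))
  have g15 := c5a_18449_2048 (h.four (.cons _ (.cons_cons _ (.cons_cons _ (.cons_cons _ (.cons_cons _ (List.nil_sublist _)))))))
  have g16 := c5_16394_16394 (h.five (.cons_cons _ (.cons_cons _ (.cons_cons _ (.cons_cons _ (.cons_cons _ (List.nil_sublist _)))))))
  have g17 := c5a_4642_34 (h.four (.cons_cons _ (.cons_cons _ (.cons_cons _ (.cons _ (.cons_cons _ (List.nil_sublist _)))))))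
  have s18 : T.X a y x p = true → T.X a p y r = true → False := fun n1 n2 => by
    exact g7 n1 hxy n2
  have s19 : T.X a x y p = false → T.X a q x p = false → T.X a q y p = true → False := fun n1 n2 n3 => by
    exact g8 n1 n2 n3 hc
  have s20 : T.X a x y q = true → False := fun n1 => by
    exact g9 n1 hxy lyqr
  have s21 : T.X a y p q = false → T.X a y p r = true → False := fun n1 n2 => by
    exact g11 n1 n2 hpq
  have s22 : T.X a q x p = true → False := fun n1 => by
    exact g12 n1 lxpr hpq
  have s23 : T.X a x y p = true → False := fun n1 => by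
    exact g13 n1 hxy lxpr
  have s24 : T.X a q y p = true → False := fun n1 => by
    have u1 : T.X a x y p = false := bf (fun t => s23 t)
    have u2 : T.X a q x p = false := bf (fun t => s22 t)
    exact s19 u1 u2 n1
  have s25 : T.X a p y q = false → False := fun n1 => by
    have u1 : T.X a q y p = false := bf (fun t => s24 t)
    exact jv n1 u1
  have s26 : T.X a y p q = true → False := fun n1 => by
    have u1 : T.X a p y q = true := bt (fun t => s25 t)
    exact g10 n1 u1
  have s27 : T.X a y p r = true → False := fun n1 => by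
    have u1 : T.X a y p q = false := bf (fun t => s26 t)
    exact s21 u1 n1
  have s28 : T.X a y x p = false → False := fun n1 => by
    have u1 : T.X a x y q = false := bf (fun t => s20 t)
    have u2 : T.X a q x p = false := bf (fun t => s22 t)
    have u3 : T.X a p y q = true := bt (fun t => s25 t)
    exact g14 n1 u1 u2 u3 hc
  have s29 : T.X a p y r = true → False := fun n1 => by
    have u1 : T.X a y x p = true := bt (fun t => s28 t)
    exact s18 u1 n1
  have s30 : T.X y r p q = false → False := fun n1 => by
    have u1 : T.X a y p q = false := bf (fun t => s26 t)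
    have u2 : T.X a p y r = false := bf (fun t => s29 t)
    exact g15 u1 u2 hpq n1
  have s31 : T.X x y p r = true → False := fun n1 => by
    have u2 : T.X y r p q = true := bt (fun t => s30 t)
    exact g16 hc n1 u2
  have u1 : T.X a y x p = true := bt (fun t => s28 t)
  have u3 : T.X a y p r = false := bf (fun t => s27 t)
  have u4 : T.X x y p r = false := bf (fun t => s31 t)
  exact g17 u1 hxy u3 u4

theorem f_merge_iso_12 {a x y p q o r : V} (h : T.RotL a [x, y, p, q, o, r])
    (hxy : T.X a r x y = true)
    (hpq : T.X a r p q = true)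
    (hc : T.X x p y q = true)
    (lxpo : T.X a o x p = false)
    (lxpr : T.X a r x p = false)
    (lyqo : T.X a o y q = false)
    (nxq : T.X a o x q = true)
    (jv : T.X a x y p = false → T.X a y x p = false → False) : False := by
  have g9 := c5a_289_33 (h.four (.cons_cons _ (.cons_cons _ (.cons_cons _ (.cons _ (.cons _ (.cons_cons _ (List.nil_sublist _))))))))
  have g10 := c5a_2305_257 (h.four (.cons_cons _ (.cons_cons _ (.cons _ (.cons_cons _ (.cons_cons _ (List.nil_sublist _)))))))
  have g11 := c5a_292_260 (h.four (.cons_cons _ (.cons _ (.cons_cons _ (.cons_cons _ (.cons_cons _ (List.nil_sublist _)))))))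
  have g12 := c5a_9024_8704 (h.four (.cons_cons _ (.cons_cons _ (.cons_cons _ (.cons_cons _ (List.nil_sublist _))))))
  have g13 := c5a_8266_8258 (h.four (.cons_cons _ (.cons_cons _ (.cons_cons _ (.cons_cons _ (List.nil_sublist _))))))
  have g14 := c5_16394_16394 (h.five (.cons_cons _ (.cons_cons _ (.cons_cons _ (.cons_cons _ (.cons _ (.cons_cons _ (List.nil_sublist _))))))))
  have g15 := c5a_2057_2056 (h.four (.cons _ (.cons_cons _ (.cons_cons _ (.cons_cons _ (.cons _ (.cons_cons _ (List.nil_sublist _))))))))
  have g16 := c5a_18449_2048 (h.four (.cons _ (.cons_cons _ (.cons_cons _ (.cons_cons _ (.cons _ (.cons_cons _ (List.nil_sublist _))))))))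
  have g17 := c5a_4642_34 (h.four (.cons_cons _ (.cons_cons _ (.cons_cons _ (.cons _ (.cons _ (.cons_cons _ (List.nil_sublist _))))))))
  have g18 := c5a_1058_1058 (h.four (.cons_cons _ (.cons_cons _ (.cons_cons _ (.cons _ (.cons _ (.cons_cons _ (List.nil_sublist _))))))))
  have s19 : T.X a x y p = true → False := fun n1 => by
    exact g9 n1 hxy lxpr
  have s20 : T.X a y x p = false → False := fun n1 => by
    have u1 : T.X a x y p = false := bf (fun t => s19 t)
    exact jv u1 n1
  have s21 : T.X a x y q = true → False := fun n1 => by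
    exact g10 n1 nxq lyqo
  have s22 : T.X a q x p = true → False := fun n1 => by
    exact g11 n1 lxpo nxq
  have s23 : T.X a x p q = false → T.X a y p q = true → False := fun n1 n2 => by
    have u1 : T.X a q x p = false := bf (fun t => s22 t)
    exact g12 n1 u1 n2 hc
  have s24 : T.X a x p q = true → False := fun n1 => by
    have u1 : T.X a y x p = true := bt (fun t => s20 t)
    have u2 : T.X a x y q = false := bf (fun t => s21 t)
    exact g13 u1 u2 n1 hc
  have s25 : T.X a y p q = true → False := fun n1 => by
    have u1 : T.X a x p q = false := bf (fun t => s24 t)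
    exact s23 u1 n1
  have s26 : T.X x y p r = true → T.X y r p q = true → False := fun n1 n2 => by
    exact g14 hc n1 n2
  have s27 : T.X a y p r = true → False := fun n1 => by
    have u1 : T.X a y p q = false := bf (fun t => s25 t)
    exact g15 u1 n1 hpq
  have s28 : T.X a p y r = false → T.X y r p q = false → False := fun n1 n2 => by
    have u1 : T.X a y p q = false := bf (fun t => s25 t)
    exact g16 u1 n1 hpq n2
  have s29 : T.X x y p r = false → False := fun n1 => by
    have u1 : T.X a y x p = true := bt (fun t => s20 t)
    have u3 : T.X a y p r = false := bf (fun t => s27 t)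
    exact g17 u1 hxy u3 n1
  have s30 : T.X y r p q = true → False := fun n1 => by
    have u1 : T.X x y p r = true := bt (fun t => s29 t)
    exact s26 u1 n1
  have s31 : T.X a p y r = false → False := fun n1 => by
    have u1 : T.X y r p q = false := bf (fun t => s30 t)
    exact s28 n1 u1
  have u1 : T.X a y x p = true := bt (fun t => s20 t)
  have u3 : T.X a p y r = true := bt (fun t => s31 t)
  exact g18 u1 hxy u3

theorem f_merge_iso_13 {a x y p q r : V} (h : T.RotL a [x, y, p, q, r])
    (hxy : T.X a r x y = true)
    (hpq : T.X a r p q = true)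
    (hc : T.X x p y q = true)
    (lxpr : T.X a r x p = false)
    (lyqr : T.X a r y q = false)
    (nxq : T.X a r x q = true)
    (jv : T.X a x y p = false → T.X a y x p = false → False) : False := by
  have g8 := c5a_289_33 (h.four (.cons_cons _ (.cons_cons _ (.cons_cons _ (.cons _ (.cons_cons _ (List.nil_sublist _)))))))
  have g9 := c5a_2081_33 (h.four (.cons_cons _ (.cons_cons _ (.cons _ (.cons_cons _ (.cons_cons _ (List.nil_sublist _)))))))
  have g10 := c5a_292_260 (h.four (.cons_cons _ (.cons _ (.cons_cons _ (.cons_cons _ (.cons_cons _ (List.nil_sublist _)))))))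
  have g11 := c5a_9024_8704 (h.four (.cons_cons _ (.cons_cons _ (.cons_cons _ (.cons_cons _ (List.nil_sublist _))))))
  have g12 := c5a_8266_8258 (h.four (.cons_cons _ (.cons_cons _ (.cons_cons _ (.cons_cons _ (List.nil_sublist _))))))
  have g13 := c5_16394_16394 (h.five (.cons_cons _ (.cons_cons _ (.cons_cons _ (.cons_cons _ (.cons_cons _ (List.nil_sublist _)))))))
  have g14 := c5a_2057_2056 (h.four (.cons _ (.cons_cons _ (.cons_cons _ (.cons_cons _ (.cons_cons _ (List.nil_sublist _)))))))
  have g15 := c5a_18449_2048 (h.four (.cons _ (.cons_cons _ (.cons_cons _ (.cons_cons _ (.cons_cons _ (List.nil_sublist _)))))))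
  have g16 := c5a_4642_34 (h.four (.cons_cons _ (.cons_cons _ (.cons_cons _ (.cons _ (.cons_cons _ (List.nil_sublist _)))))))
  have g17 := c5a_1058_1058 (h.four (.cons_cons _ (.cons_cons _ (.cons_cons _ (.cons _ (.cons_cons _ (List.nil_sublist _)))))))
  have s18 : T.X a x y p = true → False := fun n1 => by
    exact g8 n1 hxy lxpr
  have s19 : T.X a y x p = false → False := fun n1 => by
    have u1 : T.X a x y p = false := bf (fun t => s18 t)
    exact jv u1 n1
  have s20 : T.X a x y q = true → False := fun n1 => by
    exact g9 n1 hxy lyqr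
  have s21 : T.X a q x p = true → False := fun n1 => by
    exact g10 n1 lxpr nxq
  have s22 : T.X a x p q = false → T.X a y p q = true → False := fun n1 n2 => by
    have u1 : T.X a q x p = false := bf (fun t => s21 t)
    exact g11 n1 u1 n2 hc
  have s23 : T.X a x p q = true → False := fun n1 => by
    have u1 : T.X a y x p = true := bt (fun t => s19 t)
    have u2 : T.X a x y q = false := bf (fun t => s20 t)
    exact g12 u1 u2 n1 hc
  have s24 : T.X a y p q = true → False := fun n1 => by
    have u1 : T.X a x p q = false := bf (fun t => s23 t)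
    exact s22 u1 n1
  have s25 : T.X x y p r = true → T.X y r p q = true → False := fun n1 n2 => by
    exact g13 hc n1 n2
  have s26 : T.X a y p r = true → False := fun n1 => by
    have u1 : T.X a y p q = false := bf (fun t => s24 t)
    exact g14 u1 n1 hpq
  have s27 : T.X a p y r = false → T.X y r p q = false → False := fun n1 n2 => by
    have u1 : T.X a y p q = false := bf (fun t => s24 t)
    exact g15 u1 n1 hpq n2
  have s28 : T.X x y p r = false → False := fun n1 => by
    have u1 : T.X a y x p = true := bt (fun t => s19 t)
    have u3 : T.X a y p r = false := bf (fun t => s26 t)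
    exact g16 u1 hxy u3 n1
  have s29 : T.X y r p q = true → False := fun n1 => by
    have u1 : T.X x y p r = true := bt (fun t => s28 t)
    exact s25 u1 n1
  have s30 : T.X a p y r = false → False := fun n1 => by
    have u1 : T.X y r p q = false := bf (fun t => s29 t)
    exact s27 n1 u1
  have u1 : T.X a y x p = true := bt (fun t => s19 t)
  have u3 : T.X a p y r = true := bt (fun t => s30 t)
  exact g17 u1 hxy u3

theorem f_merge_iso_14 {a x y p q r : V} (h : T.RotL a [x, y, p, q, r])
    (hxy : T.X a r x y = true)
    (hpq : T.X a r p q = true)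
    (hc : T.X x p y q = true)
    (lxpr : T.X a r x p = false)
    (lyqr : T.X a r y q = false)
    (jv : T.X a x y p = false → T.X a y x p = false → False) : False := by
  have g7 := c5a_289_33 (h.four (.cons_cons _ (.cons_cons _ (.cons_cons _ (.cons _ (.cons_cons _ (List.nil_sublist _)))))))
  have g8 := c5a_2081_33 (h.four (.cons_cons _ (.cons_cons _ (.cons _ (.cons_cons _ (.cons_cons _ (List.nil_sublist _)))))))
  have g9 := c5a_2084_2052 (h.four (.cons_cons _ (.cons _ (.cons_cons _ (.cons_cons _ (.cons_cons _ (List.nil_sublist _)))))))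
  have g10 := c5a_9024_8704 (h.four (.cons_cons _ (.cons_cons _ (.cons_cons _ (.cons_cons _ (List.nil_sublist _))))))
  have g11 := c5a_8266_8258 (h.four (.cons_cons _ (.cons_cons _ (.cons_cons _ (.cons_cons _ (List.nil_sublist _))))))
  have g12 := c5_16394_16394 (h.five (.cons_cons _ (.cons_cons _ (.cons_cons _ (.cons_cons _ (.cons_cons _ (List.nil_sublist _)))))))
  have g13 := c5a_2057_2056 (h.four (.cons _ (.cons_cons _ (.cons_cons _ (.cons_cons _ (.cons_cons _ (List.nil_sublist _)))))))
  have g14 := c5a_18449_2048 (h.four (.cons _ (.cons_cons _ (.cons_cons _ (.cons_cons _ (.cons_cons _ (List.nil_sublist _)))))))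
  have g15 := c5a_4642_34 (h.four (.cons_cons _ (.cons_cons _ (.cons_cons _ (.cons _ (.cons_cons _ (List.nil_sublist _)))))))
  have g16 := c5a_1058_1058 (h.four (.cons_cons _ (.cons_cons _ (.cons_cons _ (.cons _ (.cons_cons _ (List.nil_sublist _)))))))
  have s17 : T.X a x y p = true → False := fun n1 => by
    exact g7 n1 hxy lxpr
  have s18 : T.X a y x p = false → False := fun n1 => by
    have u1 : T.X a x y p = false := bf (fun t => s17 t)
    exact jv u1 n1
  have s19 : T.X a x y q = true → False := fun n1 => by
    exact g8 n1 hxy lyqr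
  have s20 : T.X a q x p = true → False := fun n1 => by
    exact g9 n1 lxpr hpq
  have s21 : T.X a x p q = false → T.X a y p q = true → False := fun n1 n2 => by
    have u1 : T.X a q x p = false := bf (fun t => s20 t)
    exact g10 n1 u1 n2 hc
  have s22 : T.X a x p q = true → False := fun n1 => by
    have u1 : T.X a y x p = true := bt (fun t => s18 t)
    have u2 : T.X a x y q = false := bf (fun t => s19 t)
    exact g11 u1 u2 n1 hc
  have s23 : T.X a y p q = true → False := fun n1 => by
    have u1 : T.X a x p q = false := bf (fun t => s22 t)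
    exact s21 u1 n1
  have s24 : T.X x y p r = true → T.X y r p q = true → False := fun n1 n2 => by
    exact g12 hc n1 n2
  have s25 : T.X a y p r = true → False := fun n1 => by
    have u1 : T.X a y p q = false := bf (fun t => s23 t)
    exact g13 u1 n1 hpq
  have s26 : T.X a p y r = false → T.X y r p q = false → False := fun n1 n2 => by
    have u1 : T.X a y p q = false := bf (fun t => s23 t)
    exact g14 u1 n1 hpq n2
  have s27 : T.X x y p r = false → False := fun n1 => by
    have u1 : T.X a y x p = true := bt (fun t => s18 t)
    have u3 : T.X a y p r = false := bf (fun t => s25 t)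
    exact g15 u1 hxy u3 n1
  have s28 : T.X y r p q = true → False := fun n1 => by
    have u1 : T.X x y p r = true := bt (fun t => s27 t)
    exact s24 u1 n1
  have s29 : T.X a p y r = false → False := fun n1 => by
    have u1 : T.X y r p q = false := bf (fun t => s28 t)
    exact s26 n1 u1
  have u1 : T.X a y x p = true := bt (fun t => s18 t)
  have u3 : T.X a p y r = true := bt (fun t => s29 t)
  exact g16 u1 hxy u3

theorem f_merge_iso_15 {a x y p q w r : V} (h : T.RotL a [x, y, p, q, w, r])
    (hxy : T.X a r x y = true)
    (hpq : T.X a r p q = true)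
    (hc : T.X x p y q = true)
    (lxpw : T.X a w x p = false)
    (lxpr : T.X a r x p = false)
    (lyqr : T.X a r y q = false)
    (ju2 : T.X a q x p = false)
    (nyp : T.X a w y p = true) : False := by
  have g9 := c5a_289_33 (h.four (.cons_cons _ (.cons_cons _ (.cons_cons _ (.cons _ (.cons _ (.cons_cons _ (List.nil_sublist _))))))))
  have g10 := c5a_8484_8224 (h.four (.cons_cons _ (.cons_cons _ (.cons_cons _ (.cons_cons _ (List.nil_sublist _))))))
  have g11 := c5a_2082_2082 (h.four (.cons_cons _ (.cons_cons _ (.cons_cons _ (.cons _ (.cons _ (.cons_cons _ (List.nil_sublist _))))))))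
  have g12 := c5a_9482_8194 (h.four (.cons_cons _ (.cons_cons _ (.cons_cons _ (.cons_cons _ (List.nil_sublist _))))))
  have g13 := c5a_2081_33 (h.four (.cons_cons _ (.cons_cons _ (.cons _ (.cons_cons _ (.cons _ (.cons_cons _ (List.nil_sublist _))))))))
  have g14 := c5a_2307_2048 (h.four (.cons_cons _ (.cons_cons _ (.cons_cons _ (.cons _ (.cons_cons _ (List.nil_sublist _)))))))
  have g15 := c5a_2308_2052 (h.four (.cons_cons _ (.cons_cons _ (.cons_cons _ (.cons _ (.cons_cons _ (List.nil_sublist _)))))))
  have g16 := c5a_8746_8706 (h.four (.cons_cons _ (.cons_cons _ (.cons_cons _ (.cons_cons _ (List.nil_sublist _))))))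
  have g17 := c5a_164_160 (h.four (.cons _ (.cons _ (.cons_cons _ (.cons_cons _ (.cons_cons _ (.cons_cons _ (List.nil_sublist _))))))))
  have g18 := c5a_2082_2082 (h.four (.cons _ (.cons_cons _ (.cons_cons _ (.cons_cons _ (.cons_cons _ (List.nil_sublist _)))))))
  have g19 := c5a_1068_4 (h.four (.cons _ (.cons_cons _ (.cons_cons _ (.cons _ (.cons_cons _ (.cons_cons _ (List.nil_sublist _))))))))
  have g20 := c5a_2057_2056 (h.four (.cons _ (.cons_cons _ (.cons_cons _ (.cons_cons _ (.cons _ (.cons_cons _ (List.nil_sublist _))))))))
  have s21 : T.X a x y p = true → False := fun n1 => by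
    exact g9 n1 hxy lxpr
  have s22 : T.X a p x y = false → T.X a q x y = true → False := fun n1 n2 => by
    exact g10 n1 n2 ju2 hc
  have s23 : T.X a y x p = true → T.X a r y p = true → False := fun n1 n2 => by
    exact g11 n1 hxy n2
  have s24 : T.X a y x p = true → T.X a x y q = false → T.X a p y q = false → False := fun n1 n2 n3 => by
    exact g12 n1 n2 ju2 n3 hc
  have s25 : T.X a x y q = true → False := fun n1 => by
    exact g13 n1 hxy lyqr
  have s26 : T.X a y x p = false → False := fun n1 => by
    have u1 : T.X a x y p = false := bf (fun t => s21 t)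
    exact g14 u1 n1 lxpw nyp
  have s27 : T.X a r y p = true → False := fun n1 => by
    have u1 : T.X a y x p = true := bt (fun t => s26 t)
    exact s23 u1 n1
  have s28 : T.X a p y q = false → False := fun n1 => by
    have u1 : T.X a y x p = true := bt (fun t => s26 t)
    have u2 : T.X a x y q = false := bf (fun t => s25 t)
    exact s24 u1 u2 n1
  have s29 : T.X a p x y = true → False := fun n1 => by
    exact g15 n1 lxpw nyp
  have s30 : T.X a q x y = true → False := fun n1 => by
    have u1 : T.X a p x y = false := bf (fun t => s29 t)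
    exact s22 u1 n1
  have s31 : T.X a y p q = true → False := fun n1 => by
    have u1 : T.X a y x p = true := bt (fun t => s26 t)
    have u2 : T.X a x y q = false := bf (fun t => s25 t)
    have u3 : T.X a q x y = false := bf (fun t => s30 t)
    exact g16 u1 u2 u3 n1 hc
  have s32 : T.X a w p q = false → T.X a w p r = true → False := fun n1 n2 => by
    exact g17 n1 hpq n2
  have s33 : T.X a w p q = true → False := fun n1 => by
    have u1 : T.X a p y q = true := bt (fun t => s28 t)
    exact g18 u1 nyp n1
  have s34 : T.X a w p r = true → False := fun n1 => by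
    have u1 : T.X a w p q = false := bf (fun t => s33 t)
    exact s32 u1 n1
  have s35 : T.X a y p r = false → False := fun n1 => by
    have u2 : T.X a r y p = false := bf (fun t => s27 t)
    have u3 : T.X a w p r = false := bf (fun t => s34 t)
    exact g19 nyp n1 u2 u3
  have u1 : T.X a y p q = false := bf (fun t => s31 t)
  have u2 : T.X a y p r = true := bt (fun t => s35 t)
  exact g20 u1 u2 hpq

theorem f_merge_iso_16 {a x y p q r : V} (h : T.RotL a [x, y, p, q, r])
    (hxy : T.X a r x y = true)
    (hpq : T.X a r p q = true)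
    (hc : T.X x p y q = true)
    (lxpr : T.X a r x p = false)
    (lyqr : T.X a r y q = false)
    (ju1 : T.X a p x q = false)
    (ju2 : T.X a q x p = false)
    (jv : T.X a p y q = false → T.X a q y p = false → False) : False := by
  have g9 := c5a_4642_34 (h.four (.cons_cons _ (.cons_cons _ (.cons_cons _ (.cons _ (.cons_cons _ (List.nil_sublist _)))))))
  have g10 := c5a_10257_10240 (h.four (.cons_cons _ (.cons_cons _ (.cons_cons _ (.cons_cons _ (List.nil_sublist _))))))
  have g11 := c5a_8592_8208 (h.four (.cons_cons _ (.cons_cons _ (.cons_cons _ (.cons_cons _ (List.nil_sublist _))))))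
  have g12 := c5a_8236_8196 (h.four (.cons_cons _ (.cons_cons _ (.cons_cons _ (.cons_cons _ (List.nil_sublist _))))))
  have g13 := c5a_1536_1536 (h.four (.cons_cons _ (.cons_cons _ (.cons_cons _ (.cons_cons _ (List.nil_sublist _))))))
  have g14 := c5a_289_33 (h.four (.cons_cons _ (.cons_cons _ (.cons_cons _ (.cons _ (.cons_cons _ (List.nil_sublist _)))))))
  have g15 := c5a_9504_9248 (h.four (.cons_cons _ (.cons_cons _ (.cons_cons _ (.cons_cons _ (List.nil_sublist _))))))
  have g16 := c5a_9482_9216 (h.four (.cons_cons _ (.cons_cons _ (.cons_cons _ (.cons_cons _ (List.nil_sublist _))))))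
  have g17 := c5a_2081_33 (h.four (.cons_cons _ (.cons_cons _ (.cons _ (.cons_cons _ (.cons_cons _ (List.nil_sublist _)))))))
  have g18 := c5a_1060_1056 (h.four (.cons_cons _ (.cons_cons _ (.cons_cons _ (.cons _ (.cons_cons _ (List.nil_sublist _)))))))
  have g19 := c5a_18449_2048 (h.four (.cons _ (.cons_cons _ (.cons_cons _ (.cons_cons _ (.cons_cons _ (List.nil_sublist _)))))))
  have g20 := c5a_2057_2056 (h.four (.cons _ (.cons_cons _ (.cons_cons _ (.cons_cons _ (.cons_cons _ (List.nil_sublist _)))))))
  have g21 := c5_16394_16394 (h.five (.cons_cons _ (.cons_cons _ (.cons_cons _ (.cons_cons _ (.cons_cons _ (List.nil_sublist _)))))))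
  have s22 : T.X a y x p = true → T.X a y p r = false → T.X x y p r = false → False := fun n1 n2 n3 => by
    exact g9 n1 hxy n2 n3
  have s23 : T.X a x y p = false → T.X a y x q = false → T.X a q y p = true → False := fun n1 n2 n3 => by
    exact g10 n1 n2 n3 hc
  have s24 : T.X a y x q = true → False := fun n1 => by
    exact g11 n1 ju1 ju2 hc
  have s25 : T.X a p x y = true → T.X a x y q = false → T.X a q x y = false → False := fun n1 n2 n3 => by
    exact g12 n1 n2 n3 hc
  have s26 : T.X a x y p = true → False := fun n1 => by
    exact g14 n1 hxy lxpr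
  have s27 : T.X a q y p = true → False := fun n1 => by
    have u1 : T.X a x y p = false := bf (fun t => s26 t)
    have u2 : T.X a y x q = false := bf (fun t => s24 t)
    exact s23 u1 u2 n1
  have s28 : T.X a p y q = false → False := fun n1 => by
    have u1 : T.X a q y p = false := bf (fun t => s27 t)
    exact jv n1 u1
  have s29 : T.X a y p q = true → False := fun n1 => by
    have u1 : T.X a p y q = true := bt (fun t => s28 t)
    exact g13 n1 u1
  have s30 : T.X a q x y = true → False := fun n1 => by
    have u2 : T.X a p y q = true := bt (fun t => s28 t)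
    exact g15 n1 ju2 u2 hc
  have s31 : T.X a y x p = false → T.X a x y q = false → False := fun n1 n2 => by
    have u2 : T.X a p y q = true := bt (fun t => s28 t)
    exact g16 n1 n2 ju2 u2 hc
  have s32 : T.X a x y q = true → False := fun n1 => by
    exact g17 n1 hxy lyqr
  have s33 : T.X a p x y = true → False := fun n1 => by
    have u1 : T.X a x y q = false := bf (fun t => s32 t)
    have u2 : T.X a q x y = false := bf (fun t => s30 t)
    exact s25 n1 u1 u2
  have s34 : T.X a y x p = false → False := fun n1 => by
    have u1 : T.X a x y q = false := bf (fun t => s32 t)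
    exact s31 n1 u1
  have s35 : T.X a p y r = true → False := fun n1 => by
    have u1 : T.X a p x y = false := bf (fun t => s33 t)
    exact g18 u1 hxy n1
  have s36 : T.X y r p q = false → False := fun n1 => by
    have u1 : T.X a y p q = false := bf (fun t => s29 t)
    have u2 : T.X a p y r = false := bf (fun t => s35 t)
    exact g19 u1 u2 hpq n1
  have s37 : T.X a y p r = true → False := fun n1 => by
    have u1 : T.X a y p q = false := bf (fun t => s29 t)
    exact g20 u1 n1 hpq
  have s38 : T.X x y p r = false → False := fun n1 => by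
    have u1 : T.X a y p r = false := bf (fun t => s37 t)
    have u2 : T.X a y x p = true := bt (fun t => s34 t)
    exact s22 u2 u1 n1
  have u2 : T.X x y p r = true := bt (fun t => s38 t)
  have u3 : T.X y r p q = true := bt (fun t => s36 t)
  exact g21 hc u2 u3

theorem f_merge_iso_17 {a x y p q r : V} (h : T.RotL a [x, y, p, q, r])
    (hxy : T.X a r x y = true)
    (hpq : T.X a r p q = true)
    (hc : T.X x p y q = true)
    (lxpr : T.X a r x p = false)
    (lyqr : T.X a r y q = false)
    (ju2 : T.X a q x p = false)
    (jv : T.X a x y p = false → T.X a y x p = false → False) : False := by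
  have g8 := c5a_8482_8226 (h.four (.cons_cons _ (.cons_cons _ (.cons_cons _ (.cons_cons _ (List.nil_sublist _))))))
  have g9 := c5a_18449_2048 (h.four (.cons _ (.cons_cons _ (.cons_cons _ (.cons_cons _ (.cons_cons _ (List.nil_sublist _)))))))
  have g10 := c5a_2081_33 (h.four (.cons_cons _ (.cons_cons _ (.cons _ (.cons_cons _ (.cons_cons _ (List.nil_sublist _)))))))
  have g11 := c5a_1058_1058 (h.four (.cons_cons _ (.cons_cons _ (.cons_cons _ (.cons _ (.cons_cons _ (List.nil_sublist _)))))))
  have g12 := c5a_289_33 (h.four (.cons_cons _ (.cons_cons _ (.cons_cons _ (.cons _ (.cons_cons _ (List.nil_sublist _)))))))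
  have g13 := c5a_8746_8706 (h.four (.cons_cons _ (.cons_cons _ (.cons_cons _ (.cons_cons _ (List.nil_sublist _))))))
  have g14 := c5_16394_16394 (h.five (.cons_cons _ (.cons_cons _ (.cons_cons _ (.cons_cons _ (.cons_cons _ (List.nil_sublist _)))))))
  have g15 := c5a_4642_34 (h.four (.cons_cons _ (.cons_cons _ (.cons_cons _ (.cons _ (.cons_cons _ (List.nil_sublist _)))))))
  have g16 := c5a_2057_2056 (h.four (.cons _ (.cons_cons _ (.cons_cons _ (.cons_cons _ (.cons_cons _ (List.nil_sublist _)))))))
  have s17 : T.X a y x p = true → T.X a q x y = true → False := fun n1 n2 => by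
    exact g8 n1 n2 ju2 hc
  have s18 : T.X a y p q = false → T.X a p y r = false → T.X y r p q = false → False := fun n1 n2 n3 => by
    exact g9 n1 n2 hpq n3
  have s19 : T.X a x y q = true → False := fun n1 => by
    exact g10 n1 hxy lyqr
  have s20 : T.X a y x p = true → T.X a p y r = true → False := fun n1 n2 => by
    exact g11 n1 hxy n2
  have s21 : T.X a x y p = true → False := fun n1 => by
    exact g12 n1 hxy lxpr
  have s22 : T.X a y x p = false → False := fun n1 => by
    have u1 : T.X a x y p = false := bf (fun t => s21 t)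
    exact jv u1 n1
  have s23 : T.X a q x y = true → False := fun n1 => by
    have u1 : T.X a y x p = true := bt (fun t => s22 t)
    exact s17 u1 n1
  have s24 : T.X a p y r = true → False := fun n1 => by
    have u1 : T.X a y x p = true := bt (fun t => s22 t)
    exact s20 u1 n1
  have s25 : T.X a y p q = true → False := fun n1 => by
    have u1 : T.X a y x p = true := bt (fun t => s22 t)
    have u2 : T.X a x y q = false := bf (fun t => s19 t)
    have u3 : T.X a q x y = false := bf (fun t => s23 t)
    exact g13 u1 u2 u3 n1 hc
  have s26 : T.X y r p q = false → False := fun n1 => by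
    have u1 : T.X a y p q = false := bf (fun t => s25 t)
    have u2 : T.X a p y r = false := bf (fun t => s24 t)
    exact s18 u1 u2 n1
  have s27 : T.X x y p r = true → False := fun n1 => by
    have u2 : T.X y r p q = true := bt (fun t => s26 t)
    exact g14 hc n1 u2
  have s28 : T.X a y p r = false → False := fun n1 => by
    have u1 : T.X a y x p = true := bt (fun t => s22 t)
    have u3 : T.X x y p r = false := bf (fun t => s27 t)
    exact g15 u1 hxy n1 u3
  have u1 : T.X a y p q = false := bf (fun t => s25 t)
  have u2 : T.X a y p r = true := bt (fun t => s28 t)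
  exact g16 u1 u2 hpq

theorem f_merge_iso_18 {a x y p q w r : V} (h : T.RotL a [x, y, p, q, w, r])
    (hxy : T.X a r x y = true)
    (hpq : T.X a r p q = true)
    (hc : T.X x p y q = true)
    (lxpw : T.X a w x p = false)
    (lxpr : T.X a r x p = false)
    (ju1 : T.X a x y q = false)
    (nyp : T.X a w y p = true) : False := by
  have g8 := c5a_9024_8704 (h.four (.cons_cons _ (.cons_cons _ (.cons_cons _ (.cons_cons _ (List.nil_sublist _))))))
  have g9 := c5a_289_33 (h.four (.cons_cons _ (.cons_cons _ (.cons_cons _ (.cons _ (.cons _ (.cons_cons _ (List.nil_sublist _))))))))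
  have g10 := c5a_2082_2082 (h.four (.cons_cons _ (.cons_cons _ (.cons_cons _ (.cons _ (.cons _ (.cons_cons _ (List.nil_sublist _))))))))
  have g11 := c5a_2084_2052 (h.four (.cons_cons _ (.cons _ (.cons_cons _ (.cons_cons _ (.cons _ (.cons_cons _ (List.nil_sublist _))))))))
  have g12 := c5a_9482_8194 (h.four (.cons_cons _ (.cons_cons _ (.cons_cons _ (.cons_cons _ (List.nil_sublist _))))))
  have g13 := c5a_2307_2048 (h.four (.cons_cons _ (.cons_cons _ (.cons_cons _ (.cons _ (.cons_cons _ (List.nil_sublist _)))))))
  have g14 := c5a_8266_8258 (h.four (.cons_cons _ (.cons_cons _ (.cons_cons _ (.cons_cons _ (List.nil_sublist _))))))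
  have g15 := c5a_2082_2082 (h.four (.cons _ (.cons_cons _ (.cons_cons _ (.cons_cons _ (.cons_cons _ (List.nil_sublist _)))))))
  have g16 := c5a_2057_2056 (h.four (.cons _ (.cons_cons _ (.cons_cons _ (.cons_cons _ (.cons _ (.cons_cons _ (List.nil_sublist _))))))))
  have g17 := c5a_164_160 (h.four (.cons _ (.cons _ (.cons_cons _ (.cons_cons _ (.cons_cons _ (.cons_cons _ (List.nil_sublist _))))))))
  have g18 := c5a_1068_4 (h.four (.cons _ (.cons_cons _ (.cons_cons _ (.cons _ (.cons_cons _ (.cons_cons _ (List.nil_sublist _))))))))
  have s19 : T.X a x p q = false → T.X a q x p = false → T.X a y p q = true → False := fun n1 n2 n3 => by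
    exact g8 n1 n2 n3 hc
  have s20 : T.X a x y p = true → False := fun n1 => by
    exact g9 n1 hxy lxpr
  have s21 : T.X a y x p = true → T.X a r y p = true → False := fun n1 n2 => by
    exact g10 n1 hxy n2
  have s22 : T.X a q x p = true → False := fun n1 => by
    exact g11 n1 lxpr hpq
  have s23 : T.X a y x p = true → T.X a p y q = false → False := fun n1 n2 => by
    have u2 : T.X a q x p = false := bf (fun t => s22 t)
    exact g12 n1 ju1 u2 n2 hc
  have s24 : T.X a y x p = false → False := fun n1 => by
    have u1 : T.X a x y p = false := bf (fun t => s20 t)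
    exact g13 u1 n1 lxpw nyp
  have s25 : T.X a r y p = true → False := fun n1 => by
    have u1 : T.X a y x p = true := bt (fun t => s24 t)
    exact s21 u1 n1
  have s26 : T.X a p y q = false → False := fun n1 => by
    have u1 : T.X a y x p = true := bt (fun t => s24 t)
    exact s23 u1 n1
  have s27 : T.X a x p q = true → False := fun n1 => by
    have u1 : T.X a y x p = true := bt (fun t => s24 t)
    exact g14 u1 ju1 n1 hc
  have s28 : T.X a y p q = true → False := fun n1 => by
    have u1 : T.X a x p q = false := bf (fun t => s27 t)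
    have u2 : T.X a q x p = false := bf (fun t => s22 t)
    exact s19 u1 u2 n1
  have s29 : T.X a w p q = true → False := fun n1 => by
    have u1 : T.X a p y q = true := bt (fun t => s26 t)
    exact g15 u1 nyp n1
  have s30 : T.X a y p r = true → False := fun n1 => by
    have u1 : T.X a y p q = false := bf (fun t => s28 t)
    exact g16 u1 n1 hpq
  have s31 : T.X a w p r = true → False := fun n1 => by
    have u1 : T.X a w p q = false := bf (fun t => s29 t)
    exact g17 u1 hpq n1
  have u2 : T.X a y p r = false := bf (fun t => s30 t)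
  have u3 : T.X a r y p = false := bf (fun t => s25 t)
  have u4 : T.X a w p r = false := bf (fun t => s31 t)
  exact g18 nyp u2 u3 u4

theorem f_merge_iso_19 {a x y p q r : V} (h : T.RotL a [x, y, p, q, r])
    (hxy : T.X a r x y = true)
    (hpq : T.X a r p q = true)
    (hc : T.X x p y q = true)
    (lxpr : T.X a r x p = false)
    (ju1 : T.X a x y q = false)
    (ju2 : T.X a y x q = false)
    (jv : T.X a p y q = false → T.X a q y p = false → False) : False := by
  have g8 := c5a_10257_10240 (h.four (.cons_cons _ (.cons_cons _ (.cons_cons _ (.cons_cons _ (List.nil_sublist _))))))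
  have g9 := c5a_289_33 (h.four (.cons_cons _ (.cons_cons _ (.cons_cons _ (.cons _ (.cons_cons _ (List.nil_sublist _)))))))
  have g10 := c5a_9482_9216 (h.four (.cons_cons _ (.cons_cons _ (.cons_cons _ (.cons_cons _ (List.nil_sublist _))))))
  have g11 := c5a_18449_2048 (h.four (.cons _ (.cons_cons _ (.cons_cons _ (.cons_cons _ (.cons_cons _ (List.nil_sublist _)))))))
  have g12 := c5a_1536_1536 (h.four (.cons_cons _ (.cons_cons _ (.cons_cons _ (.cons_cons _ (List.nil_sublist _))))))
  have g13 := c5a_2057_2056 (h.four (.cons _ (.cons_cons _ (.cons_cons _ (.cons_cons _ (.cons_cons _ (List.nil_sublist _)))))))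
  have g14 := c5a_2084_2052 (h.four (.cons_cons _ (.cons _ (.cons_cons _ (.cons_cons _ (.cons_cons _ (List.nil_sublist _)))))))
  have g15 := c5a_4642_34 (h.four (.cons_cons _ (.cons_cons _ (.cons_cons _ (.cons _ (.cons_cons _ (List.nil_sublist _)))))))
  have g16 := c5_16394_16394 (h.five (.cons_cons _ (.cons_cons _ (.cons_cons _ (.cons_cons _ (.cons_cons _ (List.nil_sublist _)))))))
  have g17 := c5a_1058_1058 (h.four (.cons_cons _ (.cons_cons _ (.cons_cons _ (.cons _ (.cons_cons _ (List.nil_sublist _)))))))
  have s18 : T.X a x y p = false → T.X a q y p = true → False := fun n1 n2 => by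
    exact g8 n1 ju2 n2 hc
  have s19 : T.X a x y p = true → False := fun n1 => by
    exact g9 n1 hxy lxpr
  have s20 : T.X a q y p = true → False := fun n1 => by
    have u1 : T.X a x y p = false := bf (fun t => s19 t)
    exact s18 u1 n1
  have s21 : T.X a p y q = false → False := fun n1 => by
    have u1 : T.X a q y p = false := bf (fun t => s20 t)
    exact jv n1 u1
  have s22 : T.X a y x p = false → T.X a q x p = false → False := fun n1 n2 => by
    have u2 : T.X a p y q = true := bt (fun t => s21 t)
    exact g10 n1 ju1 n2 u2 hc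
  have s23 : T.X a y p q = false → T.X a p y r = false → T.X y r p q = false → False := fun n1 n2 n3 => by
    exact g11 n1 n2 hpq n3
  have s24 : T.X a y p q = true → False := fun n1 => by
    have u1 : T.X a p y q = true := bt (fun t => s21 t)
    exact g12 n1 u1
  have s25 : T.X a y p r = true → False := fun n1 => by
    have u1 : T.X a y p q = false := bf (fun t => s24 t)
    exact g13 u1 n1 hpq
  have s26 : T.X a q x p = true → False := fun n1 => by
    exact g14 n1 lxpr hpq
  have s27 : T.X a y x p = false → False := fun n1 => by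
    have u1 : T.X a q x p = false := bf (fun t => s26 t)
    exact s22 n1 u1
  have s28 : T.X x y p r = false → False := fun n1 => by
    have u1 : T.X a y x p = true := bt (fun t => s27 t)
    have u3 : T.X a y p r = false := bf (fun t => s25 t)
    exact g15 u1 hxy u3 n1
  have s29 : T.X y r p q = true → False := fun n1 => by
    have u2 : T.X x y p r = true := bt (fun t => s28 t)
    exact g16 hc u2 n1
  have s30 : T.X a p y r = false → False := fun n1 => by
    have u1 : T.X y r p q = false := bf (fun t => s29 t)
    have u2 : T.X a y p q = false := bf (fun t => s24 t)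
    exact s23 u2 n1 u1
  have u1 : T.X a y x p = true := bt (fun t => s27 t)
  have u3 : T.X a p y r = true := bt (fun t => s30 t)
  exact g17 u1 hxy u3

theorem f_merge_iso_20 {a x y p q r : V} (h : T.RotL a [x, y, p, q, r])
    (hxy : T.X a r x y = true)
    (hpq : T.X a r p q = true)
    (hc : T.X x p y q = true)
    (lxpr : T.X a r x p = false)
    (ju1 : T.X a x y q = false)
    (jv : T.X a x y p = false → T.X a y x p = false → False) : False := by
  have g7 := c5a_8266_8258 (h.four (.cons_cons _ (.cons_cons _ (.cons_cons _ (.cons_cons _ (List.nil_sublist _))))))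
  have g8 := c5a_18449_2048 (h.four (.cons _ (.cons_cons _ (.cons_cons _ (.cons_cons _ (.cons_cons _ (List.nil_sublist _)))))))
  have g9 := c5a_2084_2052 (h.four (.cons_cons _ (.cons _ (.cons_cons _ (.cons_cons _ (.cons_cons _ (List.nil_sublist _)))))))
  have g10 := c5a_1058_1058 (h.four (.cons_cons _ (.cons_cons _ (.cons_cons _ (.cons _ (.cons_cons _ (List.nil_sublist _)))))))
  have g11 := c5a_289_33 (h.four (.cons_cons _ (.cons_cons _ (.cons_cons _ (.cons _ (.cons_cons _ (List.nil_sublist _)))))))
  have g12 := c5a_9024_8704 (h.four (.cons_cons _ (.cons_cons _ (.cons_cons _ (.cons_cons _ (List.nil_sublist _))))))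
  have g13 := c5_16394_16394 (h.five (.cons_cons _ (.cons_cons _ (.cons_cons _ (.cons_cons _ (.cons_cons _ (List.nil_sublist _)))))))
  have g14 := c5a_4642_34 (h.four (.cons_cons _ (.cons_cons _ (.cons_cons _ (.cons _ (.cons_cons _ (List.nil_sublist _)))))))
  have g15 := c5a_2057_2056 (h.four (.cons _ (.cons_cons _ (.cons_cons _ (.cons_cons _ (.cons_cons _ (List.nil_sublist _)))))))
  have s16 : T.X a y x p = true → T.X a x p q = true → False := fun n1 n2 => by
    exact g7 n1 ju1 n2 hc
  have s17 : T.X a y p q = false → T.X a p y r = false → T.X y r p q = false → False := fun n1 n2 n3 => by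
    exact g8 n1 n2 hpq n3
  have s18 : T.X a q x p = true → False := fun n1 => by
    exact g9 n1 lxpr hpq
  have s19 : T.X a y x p = true → T.X a p y r = true → False := fun n1 n2 => by
    exact g10 n1 hxy n2
  have s20 : T.X a x y p = true → False := fun n1 => by
    exact g11 n1 hxy lxpr
  have s21 : T.X a y x p = false → False := fun n1 => by
    have u1 : T.X a x y p = false := bf (fun t => s20 t)
    exact jv u1 n1
  have s22 : T.X a x p q = true → False := fun n1 => by
    have u1 : T.X a y x p = true := bt (fun t => s21 t)
    exact s16 u1 n1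
  have s23 : T.X a p y r = true → False := fun n1 => by
    have u1 : T.X a y x p = true := bt (fun t => s21 t)
    exact s19 u1 n1
  have s24 : T.X a y p q = true → False := fun n1 => by
    have u1 : T.X a x p q = false := bf (fun t => s22 t)
    have u2 : T.X a q x p = false := bf (fun t => s18 t)
    exact g12 u1 u2 n1 hc
  have s25 : T.X y r p q = false → False := fun n1 => by
    have u1 : T.X a y p q = false := bf (fun t => s24 t)
    have u2 : T.X a p y r = false := bf (fun t => s23 t)
    exact s17 u1 u2 n1
  have s26 : T.X x y p r = true → False := fun n1 => by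
    have u2 : T.X y r p q = true := bt (fun t => s25 t)
    exact g13 hc n1 u2
  have s27 : T.X a y p r = false → False := fun n1 => by
    have u1 : T.X a y x p = true := bt (fun t => s21 t)
    have u3 : T.X x y p r = false := bf (fun t => s26 t)
    exact g14 u1 hxy n1 u3
  have u1 : T.X a y p q = false := bf (fun t => s24 t)
  have u2 : T.X a y p r = true := bt (fun t => s27 t)
  exact g15 u1 u2 hpq

theorem f_merge_anti_21 {a x y p q w o r : V} (h : T.RotL a [x, y, p, q, w, o, r])
    (hxy : T.X a r x y = true)
    (hpq : T.X a r p q = true)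
    (hc : T.X x q y p = true)
    (lxqw : T.X a w x q = false)
    (lxqo : T.X a o x q = false)
    (lxqr : T.X a r x q = false)
    (lypw : T.X a w y p = false)
    (lypo : T.X a o y p = false)
    (nxp : T.X a o x p = true)
    (nyq : T.X a w y q = true) : False := by
  have g11 := c5a_2305_257 (h.four (.cons_cons _ (.cons_cons _ (.cons_cons _ (.cons _ (.cons _ (.cons_cons _ (List.nil_sublist _))))))))
  have g12 := c5a_2308_2052 (h.four (.cons_cons _ (.cons _ (.cons_cons _ (.cons_cons _ (.cons _ (.cons _ (.cons_cons _ (List.nil_sublist _)))))))))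
  have g13 := c5a_24576_24576 (h.four (.cons_cons _ (.cons_cons _ (.cons_cons _ (.cons_cons _ (List.nil_sublist _))))))
  have g14 := c5a_289_33 (h.four (.cons_cons _ (.cons_cons _ (.cons _ (.cons_cons _ (.cons _ (.cons _ (.cons_cons _ (List.nil_sublist _)))))))))
  have g15 := c5a_17425_17424 (h.four (.cons_cons _ (.cons_cons _ (.cons_cons _ (.cons_cons _ (List.nil_sublist _))))))
  have g16 := c5a_294_32 (h.four (.cons_cons _ (.cons _ (.cons_cons _ (.cons_cons _ (.cons _ (.cons_cons _ (List.nil_sublist _))))))))
  have g17 := c5a_2307_2048 (h.four (.cons_cons _ (.cons_cons _ (.cons _ (.cons_cons _ (.cons_cons _ (List.nil_sublist _)))))))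
  have g18 := c5a_9482_0 (h.four (.cons_cons _ (.cons_cons _ (.cons_cons _ (.cons_cons _ (List.nil_sublist _))))))
  have g19 := c5a_292_260 (h.four (.cons _ (.cons_cons _ (.cons_cons _ (.cons_cons _ (.cons_cons _ (List.nil_sublist _)))))))
  have g20 := c5a_18562_16514 (h.four (.cons_cons _ (.cons_cons _ (.cons_cons _ (.cons_cons _ (List.nil_sublist _))))))
  have s21 : T.X a x y p = true → False := fun n1 => by
    exact g11 n1 nxp lypo
  have s22 : T.X a q x p = true → False := fun n1 => by
    exact g12 n1 lxqr hpq
  have s23 : T.X x p y q = true → False := fun n1 => by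
    exact g13 n1 hc
  have s24 : T.X a x y q = true → False := fun n1 => by
    exact g14 n1 hxy lxqr
  have s25 : T.X a y x q = true → T.X a p y q = true → False := fun n1 n2 => by
    have u1 : T.X a x y p = false := bf (fun t => s21 t)
    exact g15 u1 n1 n2 hc
  have s26 : T.X a p x q = false → False := fun n1 => by
    have u1 : T.X a q x p = false := bf (fun t => s22 t)
    exact g16 n1 u1 nxp lxqo
  have s27 : T.X a y x q = false → False := fun n1 => by
    have u1 : T.X a x y q = false := bf (fun t => s24 t)
    exact g17 u1 n1 lxqw nyq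
  have s28 : T.X a p y q = true → False := fun n1 => by
    have u1 : T.X a y x q = true := bt (fun t => s27 t)
    exact s25 u1 n1
  have s29 : T.X a y x p = false → False := fun n1 => by
    have u1 : T.X a x y q = false := bf (fun t => s24 t)
    have u2 : T.X a q x p = false := bf (fun t => s22 t)
    have u3 : T.X a p y q = false := bf (fun t => s28 t)
    have u4 : T.X x p y q = false := bf (fun t => s23 t)
    exact g18 n1 u1 u2 u3 u4
  have s30 : T.X a q y p = true → False := fun n1 => by
    exact g19 n1 lypw nyq
  have u1 : T.X a y x p = true := bt (fun t => s29 t)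
  have u2 : T.X a p x q = true := bt (fun t => s26 t)
  have u3 : T.X a q y p = false := bf (fun t => s30 t)
  exact g20 u1 u2 u3 hc

theorem f_merge_anti_22 {a x y p q o r : V} (h : T.RotL a [x, y, p, q, o, r])
    (hxy : T.X a r x y = true)
    (hpq : T.X a r p q = true)
    (hc : T.X x q y p = true)
    (lxqo : T.X a o x q = false)
    (lxqr : T.X a r x q = false)
    (lypo : T.X a o y p = false)
    (nxp : T.X a o x p = true)
    (nyq : T.X a o y q = true) : False := by
  have g9 := c5a_9490_16 (h.four (.cons_cons _ (.cons_cons _ (.cons_cons _ (.cons_cons _ (List.nil_sublist _))))))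
  have g10 := c5a_2336_2080 (h.four (.cons_cons _ (.cons_cons _ (.cons _ (.cons_cons _ (.cons_cons _ (List.nil_sublist _)))))))
  have g11 := c5a_289_33 (h.four (.cons_cons _ (.cons_cons _ (.cons _ (.cons_cons _ (.cons _ (.cons_cons _ (List.nil_sublist _))))))))
  have g12 := c5a_2307_2048 (h.four (.cons_cons _ (.cons_cons _ (.cons _ (.cons_cons _ (.cons_cons _ (List.nil_sublist _)))))))
  have g13 := c5a_24576_24576 (h.four (.cons_cons _ (.cons_cons _ (.cons_cons _ (.cons_cons _ (List.nil_sublist _))))))
  have g14 := c5a_2305_257 (h.four (.cons_cons _ (.cons_cons _ (.cons_cons _ (.cons _ (.cons_cons _ (List.nil_sublist _)))))))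
  have g15 := c5a_17425_17424 (h.four (.cons_cons _ (.cons_cons _ (.cons_cons _ (.cons_cons _ (List.nil_sublist _))))))
  have g16 := c5a_2308_2052 (h.four (.cons_cons _ (.cons _ (.cons_cons _ (.cons_cons _ (.cons _ (.cons_cons _ (List.nil_sublist _))))))))
  have g17 := c5a_2338_258 (h.four (.cons_cons _ (.cons_cons _ (.cons_cons _ (.cons _ (.cons_cons _ (List.nil_sublist _)))))))
  have s18 : T.X a o x y = true → False := fun n1 => by
    exact g10 n1 lxqo nyq
  have s19 : T.X a x y q = true → False := fun n1 => by
    exact g11 n1 hxy lxqr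
  have s20 : T.X a y x q = false → False := fun n1 => by
    have u1 : T.X a x y q = false := bf (fun t => s19 t)
    exact g12 u1 n1 lxqo nyq
  have s21 : T.X x p y q = true → False := fun n1 => by
    exact g13 n1 hc
  have s22 : T.X a x y p = true → False := fun n1 => by
    exact g14 n1 nxp lypo
  have s23 : T.X a p y q = true → False := fun n1 => by
    have u1 : T.X a x y p = false := bf (fun t => s22 t)
    have u2 : T.X a y x q = true := bt (fun t => s20 t)
    exact g15 u1 u2 n1 hc
  have s24 : T.X a q x p = true → False := fun n1 => by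
    exact g16 n1 lxqr hpq
  have s25 : T.X a y x p = false → False := fun n1 => by
    have u1 : T.X a q x p = false := bf (fun t => s24 t)
    have u2 : T.X a y x q = true := bt (fun t => s20 t)
    have u3 : T.X a p y q = false := bf (fun t => s23 t)
    have u4 : T.X x p y q = false := bf (fun t => s21 t)
    exact g9 n1 u2 u1 u3 u4
  have u1 : T.X a y x p = true := bt (fun t => s25 t)
  have u2 : T.X a o x y = false := bf (fun t => s18 t)
  exact g17 u1 u2 nxp lypo

theorem f_merge_anti_23 {a x y p q o w r : V} (h : T.RotL a [x, y, p, q, o, w, r])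
    (hxy : T.X a r x y = true)
    (hpq : T.X a r p q = true)
    (hc : T.X x q y p = true)
    (lxqo : T.X a o x q = false)
    (lxqw : T.X a w x q = false)
    (lxqr : T.X a r x q = false)
    (lypo : T.X a o y p = false)
    (lypw : T.X a w y p = false)
    (nxp : T.X a o x p = true)
    (nyq : T.X a w y q = true) : False := by
  have g11 := c5a_2305_257 (h.four (.cons_cons _ (.cons_cons _ (.cons_cons _ (.cons _ (.cons_cons _ (List.nil_sublist _)))))))
  have g12 := c5a_2308_2052 (h.four (.cons_cons _ (.cons _ (.cons_cons _ (.cons_cons _ (.cons _ (.cons _ (.cons_cons _ (List.nil_sublist _)))))))))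
  have g13 := c5a_24576_24576 (h.four (.cons_cons _ (.cons_cons _ (.cons_cons _ (.cons_cons _ (List.nil_sublist _))))))
  have g14 := c5a_289_33 (h.four (.cons_cons _ (.cons_cons _ (.cons _ (.cons_cons _ (.cons _ (.cons _ (.cons_cons _ (List.nil_sublist _)))))))))
  have g15 := c5a_17425_17424 (h.four (.cons_cons _ (.cons_cons _ (.cons_cons _ (.cons_cons _ (List.nil_sublist _))))))
  have g16 := c5a_294_32 (h.four (.cons_cons _ (.cons _ (.cons_cons _ (.cons_cons _ (.cons_cons _ (List.nil_sublist _)))))))
  have g17 := c5a_2307_2048 (h.four (.cons_cons _ (.cons_cons _ (.cons _ (.cons_cons _ (.cons _ (.cons_cons _ (List.nil_sublist _))))))))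
  have g18 := c5a_9482_0 (h.four (.cons_cons _ (.cons_cons _ (.cons_cons _ (.cons_cons _ (List.nil_sublist _))))))
  have g19 := c5a_292_260 (h.four (.cons _ (.cons_cons _ (.cons_cons _ (.cons_cons _ (.cons _ (.cons_cons _ (List.nil_sublist _))))))))
  have g20 := c5a_18562_16514 (h.four (.cons_cons _ (.cons_cons _ (.cons_cons _ (.cons_cons _ (List.nil_sublist _))))))
  have s21 : T.X a x y p = true → False := fun n1 => by
    exact g11 n1 nxp lypo
  have s22 : T.X a q x p = true → False := fun n1 => by
    exact g12 n1 lxqr hpq
  have s23 : T.X x p y q = true → False := fun n1 => by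
    exact g13 n1 hc
  have s24 : T.X a x y q = true → False := fun n1 => by
    exact g14 n1 hxy lxqr
  have s25 : T.X a y x q = true → T.X a p y q = true → False := fun n1 n2 => by
    have u1 : T.X a x y p = false := bf (fun t => s21 t)
    exact g15 u1 n1 n2 hc
  have s26 : T.X a p x q = false → False := fun n1 => by
    have u1 : T.X a q x p = false := bf (fun t => s22 t)
    exact g16 n1 u1 nxp lxqo
  have s27 : T.X a y x q = false → False := fun n1 => by
    have u1 : T.X a x y q = false := bf (fun t => s24 t)
    exact g17 u1 n1 lxqw nyq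
  have s28 : T.X a p y q = true → False := fun n1 => by
    have u1 : T.X a y x q = true := bt (fun t => s27 t)
    exact s25 u1 n1
  have s29 : T.X a y x p = false → False := fun n1 => by
    have u1 : T.X a x y q = false := bf (fun t => s24 t)
    have u2 : T.X a q x p = false := bf (fun t => s22 t)
    have u3 : T.X a p y q = false := bf (fun t => s28 t)
    have u4 : T.X x p y q = false := bf (fun t => s23 t)
    exact g18 n1 u1 u2 u3 u4
  have s30 : T.X a q y p = true → False := fun n1 => by
    exact g19 n1 lypw nyq
  have u1 : T.X a y x p = true := bt (fun t => s29 t)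
  have u2 : T.X a p x q = true := bt (fun t => s26 t)
  have u3 : T.X a q y p = false := bf (fun t => s30 t)
  exact g20 u1 u2 u3 hc

theorem f_merge_anti_24 {a x y q r : V} (h : T.RotL a [x, y, q, r])
    (hxy : T.X a r x y = true)
    (lxqr : T.X a r x q = false)
    (nyq : T.X a r y q = true) : False := by
  have g4 := c5a_2336_2080 (h.four (.cons_cons _ (.cons_cons _ (.cons_cons _ (.cons_cons _ (List.nil_sublist _))))))
  exact g4 hxy lxqr nyq

theorem f_merge_anti_25 {a x y p q o r w : V} (h : T.RotL a [x, y, p, q, o, r, w])
    (hxy : T.X a r x y = true)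
    (hpq : T.X a r p q = true)
    (hc : T.X x q y p = true)
    (lxqo : T.X a o x q = false)
    (lxqr : T.X a r x q = false)
    (lxqw : T.X a w x q = false)
    (lypo : T.X a o y p = false)
    (lypr : T.X a r y p = false)
    (nxp : T.X a o x p = true)
    (nyq : T.X a w y q = true) : False := by
  have g11 := c5a_2308_2052 (h.four (.cons_cons _ (.cons _ (.cons_cons _ (.cons_cons _ (.cons _ (.cons_cons _ (List.nil_sublist _))))))))
  have g12 := c5a_2308_2052 (h.four (.cons_cons _ (.cons_cons _ (.cons _ (.cons_cons _ (.cons _ (.cons _ (.cons_cons _ (List.nil_sublist _)))))))))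
  have g13 := c5a_294_32 (h.four (.cons_cons _ (.cons _ (.cons_cons _ (.cons_cons _ (.cons_cons _ (List.nil_sublist _)))))))
  have g14 := c5a_2084_2052 (h.four (.cons _ (.cons_cons _ (.cons_cons _ (.cons_cons _ (.cons _ (.cons_cons _ (List.nil_sublist _))))))))
  have g15 := c5a_2305_257 (h.four (.cons_cons _ (.cons_cons _ (.cons_cons _ (.cons _ (.cons_cons _ (List.nil_sublist _)))))))
  have g16 := c5a_18562_16514 (h.four (.cons_cons _ (.cons_cons _ (.cons_cons _ (.cons_cons _ (List.nil_sublist _))))))
  have g17 := c5a_289_33 (h.four (.cons_cons _ (.cons_cons _ (.cons _ (.cons_cons _ (.cons _ (.cons_cons _ (List.nil_sublist _))))))))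
  have g18 := c5a_24576_24576 (h.four (.cons_cons _ (.cons_cons _ (.cons_cons _ (.cons_cons _ (List.nil_sublist _))))))
  have g19 := c5a_294_32 (h.four (.cons_cons _ (.cons_cons _ (.cons _ (.cons_cons _ (.cons _ (.cons_cons _ (List.nil_sublist _))))))))
  have g20 := c5a_9482_0 (h.four (.cons_cons _ (.cons_cons _ (.cons_cons _ (.cons_cons _ (List.nil_sublist _))))))
  have g21 := c5a_17425_17424 (h.four (.cons_cons _ (.cons_cons _ (.cons_cons _ (.cons_cons _ (List.nil_sublist _))))))
  have s22 : T.X a q x p = true → False := fun n1 => by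
    exact g11 n1 lxqr hpq
  have s23 : T.X a q x y = true → False := fun n1 => by
    exact g12 n1 lxqw nyq
  have s24 : T.X a p x q = false → False := fun n1 => by
    have u1 : T.X a q x p = false := bf (fun t => s22 t)
    exact g13 n1 u1 nxp lxqo
  have s25 : T.X a q y p = true → False := fun n1 => by
    exact g14 n1 lypr hpq
  have s26 : T.X a x y p = true → False := fun n1 => by
    exact g15 n1 nxp lypo
  have s27 : T.X a y x p = true → False := fun n1 => by
    have u1 : T.X a p x q = true := bt (fun t => s24 t)
    have u2 : T.X a q y p = false := bf (fun t => s25 t)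
    exact g16 n1 u1 u2 hc
  have s28 : T.X a x y q = true → False := fun n1 => by
    exact g17 n1 hxy lxqr
  have s29 : T.X x p y q = true → False := fun n1 => by
    exact g18 n1 hc
  have s30 : T.X a y x q = false → False := fun n1 => by
    have u1 : T.X a q x y = false := bf (fun t => s23 t)
    exact g19 n1 u1 hxy lxqr
  have s31 : T.X a p y q = false → False := fun n1 => by
    have u1 : T.X a y x p = false := bf (fun t => s27 t)
    have u2 : T.X a x y q = false := bf (fun t => s28 t)
    have u3 : T.X a q x p = false := bf (fun t => s22 t)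
    have u4 : T.X x p y q = false := bf (fun t => s29 t)
    exact g20 u1 u2 u3 n1 u4
  have u1 : T.X a x y p = false := bf (fun t => s26 t)
  have u2 : T.X a y x q = true := bt (fun t => s30 t)
  have u3 : T.X a p y q = true := bt (fun t => s31 t)
  exact g21 u1 u2 u3 hc

theorem f_merge_anti_26 {a x p q r : V} (h : T.RotL a [x, p, q, r])
    (hpq : T.X a r p q = true)
    (lxqr : T.X a r x q = false)
    (nxp : T.X a r x p = true) : False := by
  have g4 := c5a_2336_2080 (h.four (.cons_cons _ (.cons_cons _ (.cons_cons _ (.cons_cons _ (List.nil_sublist _))))))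
  exact g4 nxp lxqr hpq

theorem f_merge_anti_27 {a x y p q w r o : V} (h : T.RotL a [x, y, p, q, w, r, o])
    (hxy : T.X a r x y = true)
    (hpq : T.X a r p q = true)
    (hc : T.X x q y p = true)
    (lxqw : T.X a w x q = false)
    (lxqr : T.X a r x q = false)
    (lxqo : T.X a o x q = false)
    (lypw : T.X a w y p = false)
    (lypr : T.X a r y p = false)
    (nxp : T.X a o x p = true)
    (nyq : T.X a w y q = true) : False := by
  have g11 := c5a_289_33 (h.four (.cons_cons _ (.cons _ (.cons_cons _ (.cons_cons _ (.cons _ (.cons _ (.cons_cons _ (List.nil_sublist _)))))))))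
  have g12 := c5a_2308_2052 (h.four (.cons_cons _ (.cons _ (.cons_cons _ (.cons_cons _ (.cons _ (.cons_cons _ (List.nil_sublist _))))))))
  have g13 := c5a_2307_2048 (h.four (.cons_cons _ (.cons _ (.cons_cons _ (.cons_cons _ (.cons _ (.cons_cons _ (List.nil_sublist _))))))))
  have g14 := c5a_292_260 (h.four (.cons _ (.cons_cons _ (.cons_cons _ (.cons_cons _ (.cons_cons _ (List.nil_sublist _)))))))
  have g15 := c5a_2081_33 (h.four (.cons_cons _ (.cons_cons _ (.cons_cons _ (.cons _ (.cons _ (.cons_cons _ (List.nil_sublist _))))))))
  have g16 := c5a_18562_16514 (h.four (.cons_cons _ (.cons_cons _ (.cons_cons _ (.cons_cons _ (List.nil_sublist _))))))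
  have g17 := c5a_2307_2048 (h.four (.cons_cons _ (.cons_cons _ (.cons _ (.cons_cons _ (.cons_cons _ (List.nil_sublist _)))))))
  have g18 := c5a_24576_24576 (h.four (.cons_cons _ (.cons_cons _ (.cons_cons _ (.cons_cons _ (List.nil_sublist _))))))
  have g19 := c5a_289_33 (h.four (.cons_cons _ (.cons_cons _ (.cons _ (.cons_cons _ (.cons _ (.cons_cons _ (List.nil_sublist _))))))))
  have g20 := c5a_9482_0 (h.four (.cons_cons _ (.cons_cons _ (.cons_cons _ (.cons_cons _ (List.nil_sublist _))))))
  have g21 := c5a_17425_17424 (h.four (.cons_cons _ (.cons_cons _ (.cons_cons _ (.cons_cons _ (List.nil_sublist _))))))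
  have s22 : T.X a x p q = true → False := fun n1 => by
    exact g11 n1 nxp lxqo
  have s23 : T.X a q x p = true → False := fun n1 => by
    exact g12 n1 lxqr hpq
  have s24 : T.X a p x q = false → False := fun n1 => by
    have u1 : T.X a x p q = false := bf (fun t => s22 t)
    exact g13 u1 n1 lxqr hpq
  have s25 : T.X a q y p = true → False := fun n1 => by
    exact g14 n1 lypw nyq
  have s26 : T.X a x y p = true → False := fun n1 => by
    exact g15 n1 hxy lypr
  have s27 : T.X a y x p = true → False := fun n1 => by
    have u1 : T.X a p x q = true := bt (fun t => s24 t)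
    have u2 : T.X a q y p = false := bf (fun t => s25 t)
    exact g16 n1 u1 u2 hc
  have s28 : T.X a x y q = false → T.X a y x q = false → False := fun n1 n2 => by
    exact g17 n1 n2 lxqw nyq
  have s29 : T.X x p y q = true → False := fun n1 => by
    exact g18 n1 hc
  have s30 : T.X a x y q = true → False := fun n1 => by
    exact g19 n1 hxy lxqr
  have s31 : T.X a y x q = false → False := fun n1 => by
    have u1 : T.X a x y q = false := bf (fun t => s30 t)
    exact s28 u1 n1
  have s32 : T.X a p y q = false → False := fun n1 => by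
    have u1 : T.X a y x p = false := bf (fun t => s27 t)
    have u2 : T.X a x y q = false := bf (fun t => s30 t)
    have u3 : T.X a q x p = false := bf (fun t => s23 t)
    have u4 : T.X x p y q = false := bf (fun t => s29 t)
    exact g20 u1 u2 u3 n1 u4
  have u1 : T.X a x y p = false := bf (fun t => s26 t)
  have u2 : T.X a y x q = true := bt (fun t => s31 t)
  have u3 : T.X a p y q = true := bt (fun t => s32 t)
  exact g21 u1 u2 u3 hc

theorem f_merge_anti_28 {a x y p q r w o : V} (h : T.RotL a [x, y, p, q, r, w, o])
    (hxy : T.X a r x y = true)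
    (hpq : T.X a r p q = true)
    (hc : T.X x q y p = true)
    (lxqr : T.X a r x q = false)
    (lxqw : T.X a w x q = false)
    (lxqo : T.X a o x q = false)
    (lypr : T.X a r y p = false)
    (nxp : T.X a o x p = true)
    (nyq : T.X a w y q = true) : False := by
  have g10 := c5a_289_33 (h.four (.cons_cons _ (.cons _ (.cons_cons _ (.cons_cons _ (.cons _ (.cons _ (.cons_cons _ (List.nil_sublist _)))))))))
  have g11 := c5a_18562_16514 (h.four (.cons_cons _ (.cons_cons _ (.cons_cons _ (.cons_cons _ (List.nil_sublist _))))))
  have g12 := c5a_2308_2052 (h.four (.cons_cons _ (.cons_cons _ (.cons _ (.cons_cons _ (.cons _ (.cons_cons _ (List.nil_sublist _))))))))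
  have g13 := c5a_2081_33 (h.four (.cons_cons _ (.cons_cons _ (.cons_cons _ (.cons _ (.cons_cons _ (List.nil_sublist _)))))))
  have g14 := c5a_294_32 (h.four (.cons_cons _ (.cons_cons _ (.cons _ (.cons_cons _ (.cons_cons _ (List.nil_sublist _)))))))
  have g15 := c5a_9482_0 (h.four (.cons_cons _ (.cons_cons _ (.cons_cons _ (.cons_cons _ (List.nil_sublist _))))))
  have g16 := c5a_2308_2052 (h.four (.cons_cons _ (.cons _ (.cons_cons _ (.cons_cons _ (.cons_cons _ (List.nil_sublist _)))))))
  have g17 := c5a_2307_2048 (h.four (.cons_cons _ (.cons _ (.cons_cons _ (.cons_cons _ (.cons_cons _ (List.nil_sublist _)))))))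
  have g18 := c5a_289_33 (h.four (.cons_cons _ (.cons_cons _ (.cons _ (.cons_cons _ (.cons_cons _ (List.nil_sublist _)))))))
  have g19 := c5a_2084_2052 (h.four (.cons _ (.cons_cons _ (.cons_cons _ (.cons_cons _ (.cons_cons _ (List.nil_sublist _)))))))
  have g20 := c5a_17425_17424 (h.four (.cons_cons _ (.cons_cons _ (.cons_cons _ (.cons_cons _ (List.nil_sublist _))))))
  have g21 := c5a_24576_24576 (h.four (.cons_cons _ (.cons_cons _ (.cons_cons _ (.cons_cons _ (List.nil_sublist _))))))
  have s22 : T.X a x p q = true → False := fun n1 => by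
    exact g10 n1 nxp lxqo
  have s23 : T.X a y x p = true → T.X a p x q = true → T.X a q y p = false → False := fun n1 n2 n3 => by
    exact g11 n1 n2 n3 hc
  have s24 : T.X a q x y = true → False := fun n1 => by
    exact g12 n1 lxqw nyq
  have s25 : T.X a x y p = true → False := fun n1 => by
    exact g13 n1 hxy lypr
  have s26 : T.X a y x q = false → False := fun n1 => by
    have u1 : T.X a q x y = false := bf (fun t => s24 t)
    exact g14 n1 u1 hxy lxqr
  have s27 : T.X a q x p = true → False := fun n1 => by
    exact g16 n1 lxqr hpq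
  have s28 : T.X a p x q = false → False := fun n1 => by
    have u1 : T.X a x p q = false := bf (fun t => s22 t)
    exact g17 u1 n1 lxqr hpq
  have s29 : T.X a x y q = true → False := fun n1 => by
    exact g18 n1 hxy lxqr
  have s30 : T.X a q y p = true → False := fun n1 => by
    exact g19 n1 lypr hpq
  have s31 : T.X a y x p = true → False := fun n1 => by
    have u1 : T.X a q y p = false := bf (fun t => s30 t)
    have u2 : T.X a p x q = true := bt (fun t => s28 t)
    exact s23 n1 u2 u1
  have s32 : T.X a p y q = true → False := fun n1 => by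
    have u1 : T.X a x y p = false := bf (fun t => s25 t)
    have u2 : T.X a y x q = true := bt (fun t => s26 t)
    exact g20 u1 u2 n1 hc
  have s33 : T.X x p y q = false → False := fun n1 => by
    have u1 : T.X a p y q = false := bf (fun t => s32 t)
    have u2 : T.X a q x p = false := bf (fun t => s27 t)
    have u3 : T.X a x y q = false := bf (fun t => s29 t)
    have u4 : T.X a y x p = false := bf (fun t => s31 t)
    exact g15 u4 u3 u2 u1 n1
  have u1 : T.X x p y q = true := bt (fun t => s33 t)
  exact g21 u1 hc

theorem f_merge_anti_29 {a x y p q r o : V} (h : T.RotL a [x, y, p, q, r, o])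
    (hxy : T.X a r x y = true)
    (hpq : T.X a r p q = true)
    (hc : T.X x q y p = true)
    (lxqr : T.X a r x q = false)
    (lxqo : T.X a o x q = false)
    (lypr : T.X a r y p = false)
    (lypo : T.X a o y p = false)
    (nxp : T.X a o x p = true)
    (nyq : T.X a o y q = true) : False := by
  have g10 := c5a_2338_258 (h.four (.cons_cons _ (.cons_cons _ (.cons_cons _ (.cons _ (.cons _ (.cons_cons _ (List.nil_sublist _))))))))
  have g11 := c5a_2308_2052 (h.four (.cons_cons _ (.cons_cons _ (.cons _ (.cons_cons _ (.cons _ (.cons_cons _ (List.nil_sublist _))))))))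
  have g12 := c5a_2308_2052 (h.four (.cons_cons _ (.cons _ (.cons_cons _ (.cons_cons _ (.cons_cons _ (List.nil_sublist _)))))))
  have g13 := c5a_2081_33 (h.four (.cons_cons _ (.cons_cons _ (.cons_cons _ (.cons _ (.cons_cons _ (List.nil_sublist _)))))))
  have g14 := c5a_294_32 (h.four (.cons_cons _ (.cons_cons _ (.cons _ (.cons_cons _ (.cons_cons _ (List.nil_sublist _)))))))
  have g15 := c5a_16659_16400 (h.four (.cons_cons _ (.cons_cons _ (.cons_cons _ (.cons_cons _ (List.nil_sublist _))))))
  have g16 := c5a_2082_2082 (h.four (.cons_cons _ (.cons_cons _ (.cons _ (.cons_cons _ (.cons _ (.cons_cons _ (List.nil_sublist _))))))))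
  have s17 : T.X a y x p = true → T.X a o x y = false → False := fun n1 n2 => by
    exact g10 n1 n2 nxp lypo
  have s18 : T.X a q x y = true → False := fun n1 => by
    exact g11 n1 lxqo nyq
  have s19 : T.X a q x p = true → False := fun n1 => by
    exact g12 n1 lxqr hpq
  have s20 : T.X a x y p = true → False := fun n1 => by
    exact g13 n1 hxy lypr
  have s21 : T.X a y x q = false → False := fun n1 => by
    have u1 : T.X a q x y = false := bf (fun t => s18 t)
    exact g14 n1 u1 hxy lxqr
  have s22 : T.X a y x p = false → False := fun n1 => by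
    have u1 : T.X a x y p = false := bf (fun t => s20 t)
    have u2 : T.X a y x q = true := bt (fun t => s21 t)
    have u3 : T.X a q x p = false := bf (fun t => s19 t)
    exact g15 u1 n1 u2 u3 hc
  have s23 : T.X a o x y = false → False := fun n1 => by
    have u1 : T.X a y x p = true := bt (fun t => s22 t)
    exact s17 u1 n1
  have u1 : T.X a y x q = true := bt (fun t => s21 t)
  have u2 : T.X a o x y = true := bt (fun t => s23 t)
  exact g16 u1 u2 nyq

theorem f_merge_anti_30 {a x y p q r o w : V} (h : T.RotL a [x, y, p, q, r, o, w])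
    (hxy : T.X a r x y = true)
    (hpq : T.X a r p q = true)
    (hc : T.X x q y p = true)
    (lxqr : T.X a r x q = false)
    (lxqo : T.X a o x q = false)
    (lxqw : T.X a w x q = false)
    (lypr : T.X a r y p = false)
    (nxp : T.X a o x p = true)
    (nyq : T.X a w y q = true) : False := by
  have g10 := c5a_289_33 (h.four (.cons_cons _ (.cons _ (.cons_cons _ (.cons_cons _ (.cons _ (.cons_cons _ (List.nil_sublist _))))))))
  have g11 := c5a_18562_16514 (h.four (.cons_cons _ (.cons_cons _ (.cons_cons _ (.cons_cons _ (List.nil_sublist _))))))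
  have g12 := c5a_2308_2052 (h.four (.cons_cons _ (.cons_cons _ (.cons _ (.cons_cons _ (.cons _ (.cons _ (.cons_cons _ (List.nil_sublist _)))))))))
  have g13 := c5a_2081_33 (h.four (.cons_cons _ (.cons_cons _ (.cons_cons _ (.cons _ (.cons_cons _ (List.nil_sublist _)))))))
  have g14 := c5a_294_32 (h.four (.cons_cons _ (.cons_cons _ (.cons _ (.cons_cons _ (.cons_cons _ (List.nil_sublist _)))))))
  have g15 := c5a_9482_0 (h.four (.cons_cons _ (.cons_cons _ (.cons_cons _ (.cons_cons _ (List.nil_sublist _))))))
  have g16 := c5a_2308_2052 (h.four (.cons_cons _ (.cons _ (.cons_cons _ (.cons_cons _ (.cons_cons _ (List.nil_sublist _)))))))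
  have g17 := c5a_2307_2048 (h.four (.cons_cons _ (.cons _ (.cons_cons _ (.cons_cons _ (.cons_cons _ (List.nil_sublist _)))))))
  have g18 := c5a_289_33 (h.four (.cons_cons _ (.cons_cons _ (.cons _ (.cons_cons _ (.cons_cons _ (List.nil_sublist _)))))))
  have g19 := c5a_2084_2052 (h.four (.cons _ (.cons_cons _ (.cons_cons _ (.cons_cons _ (.cons_cons _ (List.nil_sublist _)))))))
  have g20 := c5a_17425_17424 (h.four (.cons_cons _ (.cons_cons _ (.cons_cons _ (.cons_cons _ (List.nil_sublist _))))))
  have g21 := c5a_24576_24576 (h.four (.cons_cons _ (.cons_cons _ (.cons_cons _ (.cons_cons _ (List.nil_sublist _))))))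
  have s22 : T.X a x p q = true → False := fun n1 => by
    exact g10 n1 nxp lxqo
  have s23 : T.X a y x p = true → T.X a p x q = true → T.X a q y p = false → False := fun n1 n2 n3 => by
    exact g11 n1 n2 n3 hc
  have s24 : T.X a q x y = true → False := fun n1 => by
    exact g12 n1 lxqw nyq
  have s25 : T.X a x y p = true → False := fun n1 => by
    exact g13 n1 hxy lypr
  have s26 : T.X a y x q = false → False := fun n1 => by
    have u1 : T.X a q x y = false := bf (fun t => s24 t)
    exact g14 n1 u1 hxy lxqr
  have s27 : T.X a q x p = true → False := fun n1 => by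
    exact g16 n1 lxqr hpq
  have s28 : T.X a p x q = false → False := fun n1 => by
    have u1 : T.X a x p q = false := bf (fun t => s22 t)
    exact g17 u1 n1 lxqr hpq
  have s29 : T.X a x y q = true → False := fun n1 => by
    exact g18 n1 hxy lxqr
  have s30 : T.X a q y p = true → False := fun n1 => by
    exact g19 n1 lypr hpq
  have s31 : T.X a y x p = true → False := fun n1 => by
    have u1 : T.X a q y p = false := bf (fun t => s30 t)
    have u2 : T.X a p x q = true := bt (fun t => s28 t)
    exact s23 n1 u2 u1
  have s32 : T.X a p y q = true → False := fun n1 => by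
    have u1 : T.X a x y p = false := bf (fun t => s25 t)
    have u2 : T.X a y x q = true := bt (fun t => s26 t)
    exact g20 u1 u2 n1 hc
  have s33 : T.X x p y q = false → False := fun n1 => by
    have u1 : T.X a p y q = false := bf (fun t => s32 t)
    have u2 : T.X a q x p = false := bf (fun t => s27 t)
    have u3 : T.X a x y q = false := bf (fun t => s29 t)
    have u4 : T.X a y x p = false := bf (fun t => s31 t)
    exact g15 u4 u3 u2 u1 n1
  have u1 : T.X x p y q = true := bt (fun t => s33 t)
  exact g21 u1 hc

theorem f_merge_anti_31 {a x y p q o r : V} (h : T.RotL a [x, y, p, q, o, r])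
    (hxy : T.X a r x y = true)
    (hpq : T.X a r p q = true)
    (hc : T.X x q y p = true)
    (lxqo : T.X a o x q = false)
    (lxqr : T.X a r x q = false)
    (nxp : T.X a o x p = true)
    (jv1 : T.X a p y q = false)
    (jv2 : T.X a q y p = false) : False := by
  have g9 := c5a_289_33 (h.four (.cons_cons _ (.cons_cons _ (.cons _ (.cons_cons _ (.cons _ (.cons_cons _ (List.nil_sublist _))))))))
  have g10 := c5a_19592_16512 (h.four (.cons_cons _ (.cons_cons _ (.cons_cons _ (.cons_cons _ (List.nil_sublist _))))))
  have g11 := c5a_294_32 (h.four (.cons_cons _ (.cons _ (.cons_cons _ (.cons_cons _ (.cons_cons _ (List.nil_sublist _)))))))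
  have g12 := c5a_2308_2052 (h.four (.cons_cons _ (.cons _ (.cons_cons _ (.cons_cons _ (.cons _ (.cons_cons _ (List.nil_sublist _))))))))
  have s13 : T.X a x y q = true → False := fun n1 => by
    exact g9 n1 hxy lxqr
  have s14 : T.X a p x q = true → False := fun n1 => by
    have u1 : T.X a x y q = false := bf (fun t => s13 t)
    exact g10 u1 n1 jv1 jv2 hc
  have s15 : T.X a q x p = false → False := fun n1 => by
    have u1 : T.X a p x q = false := bf (fun t => s14 t)
    exact g11 u1 n1 nxp lxqo
  have u1 : T.X a q x p = true := bt (fun t => s15 t)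
  exact g12 u1 lxqr hpq

theorem f_merge_anti_32 {a x y p q r o : V} (h : T.RotL a [x, y, p, q, r, o])
    (hxy : T.X a r x y = true)
    (hpq : T.X a r p q = true)
    (hc : T.X x q y p = true)
    (lxqr : T.X a r x q = false)
    (lxqo : T.X a o x q = false)
    (nxp : T.X a o x p = true)
    (jv1 : T.X a p y q = false)
    (jv2 : T.X a q y p = false) : False := by
  have g9 := c5a_289_33 (h.four (.cons_cons _ (.cons_cons _ (.cons _ (.cons_cons _ (.cons_cons _ (List.nil_sublist _)))))))
  have g10 := c5a_19592_16512 (h.four (.cons_cons _ (.cons_cons _ (.cons_cons _ (.cons_cons _ (List.nil_sublist _))))))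
  have g11 := c5a_2307_2048 (h.four (.cons_cons _ (.cons _ (.cons_cons _ (.cons_cons _ (.cons_cons _ (List.nil_sublist _)))))))
  have g12 := c5a_289_33 (h.four (.cons_cons _ (.cons _ (.cons_cons _ (.cons_cons _ (.cons _ (.cons_cons _ (List.nil_sublist _))))))))
  have s13 : T.X a x y q = true → False := fun n1 => by
    exact g9 n1 hxy lxqr
  have s14 : T.X a p x q = true → False := fun n1 => by
    have u1 : T.X a x y q = false := bf (fun t => s13 t)
    exact g10 u1 n1 jv1 jv2 hc
  have s15 : T.X a x p q = false → False := fun n1 => by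
    have u1 : T.X a p x q = false := bf (fun t => s14 t)
    exact g11 n1 u1 lxqr hpq
  have u1 : T.X a x p q = true := bt (fun t => s15 t)
  exact g12 u1 nxp lxqo

theorem f_merge_anti_33 {a x y p q o r : V} (h : T.RotL a [x, y, p, q, o, r])
    (hxy : T.X a r x y = true)
    (hpq : T.X a r p q = true)
    (hc : T.X x q y p = true)
    (lxqo : T.X a o x q = false)
    (lxqr : T.X a r x q = false)
    (lypo : T.X a o y p = false)
    (lypr : T.X a r y p = false)
    (nxp : T.X a o x p = true)
    (jv : T.X a x y q = false → T.X a y x q = false → False) : False := by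
  have g10 := c5a_289_33 (h.four (.cons_cons _ (.cons_cons _ (.cons _ (.cons_cons _ (.cons _ (.cons_cons _ (List.nil_sublist _))))))))
  have g11 := c5a_294_32 (h.four (.cons_cons _ (.cons _ (.cons_cons _ (.cons_cons _ (.cons_cons _ (List.nil_sublist _)))))))
  have g12 := c5a_2084_2052 (h.four (.cons _ (.cons_cons _ (.cons_cons _ (.cons_cons _ (.cons _ (.cons_cons _ (List.nil_sublist _))))))))
  have g13 := c5a_2308_2052 (h.four (.cons_cons _ (.cons _ (.cons_cons _ (.cons_cons _ (.cons _ (.cons_cons _ (List.nil_sublist _))))))))
  have g14 := c5a_18562_16514 (h.four (.cons_cons _ (.cons_cons _ (.cons_cons _ (.cons_cons _ (List.nil_sublist _))))))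
  have g15 := c5a_2305_257 (h.four (.cons_cons _ (.cons_cons _ (.cons_cons _ (.cons _ (.cons_cons _ (List.nil_sublist _)))))))
  have g16 := c5a_17425_17424 (h.four (.cons_cons _ (.cons_cons _ (.cons_cons _ (.cons_cons _ (List.nil_sublist _))))))
  have g17 := c5a_24576_24576 (h.four (.cons_cons _ (.cons_cons _ (.cons_cons _ (.cons_cons _ (List.nil_sublist _))))))
  have g18 := c5a_9482_0 (h.four (.cons_cons _ (.cons_cons _ (.cons_cons _ (.cons_cons _ (List.nil_sublist _))))))
  have s19 : T.X a x y q = true → False := fun n1 => by
    exact g10 n1 hxy lxqr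
  have s20 : T.X a y x q = false → False := fun n1 => by
    have u1 : T.X a x y q = false := bf (fun t => s19 t)
    exact jv u1 n1
  have s21 : T.X a p x q = false → T.X a q x p = false → False := fun n1 n2 => by
    exact g11 n1 n2 nxp lxqo
  have s22 : T.X a q y p = true → False := fun n1 => by
    exact g12 n1 lypr hpq
  have s23 : T.X a q x p = true → False := fun n1 => by
    exact g13 n1 lxqr hpq
  have s24 : T.X a p x q = false → False := fun n1 => by
    have u1 : T.X a q x p = false := bf (fun t => s23 t)
    exact s21 n1 u1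
  have s25 : T.X a y x p = true → False := fun n1 => by
    have u1 : T.X a p x q = true := bt (fun t => s24 t)
    have u2 : T.X a q y p = false := bf (fun t => s22 t)
    exact g14 n1 u1 u2 hc
  have s26 : T.X a x y p = true → False := fun n1 => by
    exact g15 n1 nxp lypo
  have s27 : T.X a p y q = true → False := fun n1 => by
    have u1 : T.X a x y p = false := bf (fun t => s26 t)
    have u2 : T.X a y x q = true := bt (fun t => s20 t)
    exact g16 u1 u2 n1 hc
  have s28 : T.X x p y q = true → False := fun n1 => by
    exact g17 n1 hc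
  have u1 : T.X a y x p = false := bf (fun t => s25 t)
  have u2 : T.X a x y q = false := bf (fun t => s19 t)
  have u3 : T.X a q x p = false := bf (fun t => s23 t)
  have u4 : T.X a p y q = false := bf (fun t => s27 t)
  have u5 : T.X x p y q = false := bf (fun t => s28 t)
  exact g18 u1 u2 u3 u4 u5

theorem f_merge_anti_34 {a x y p q r o : V} (h : T.RotL a [x, y, p, q, r, o])
    (hxy : T.X a r x y = true)
    (hpq : T.X a r p q = true)
    (hc : T.X x q y p = true)
    (lxqr : T.X a r x q = false)
    (lxqo : T.X a o x q = false)
    (lypr : T.X a r y p = false)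
    (nxp : T.X a o x p = true)
    (jv : T.X a x y q = false → T.X a y x q = false → False) : False := by
  have g9 := c5a_2081_33 (h.four (.cons_cons _ (.cons_cons _ (.cons_cons _ (.cons _ (.cons_cons _ (List.nil_sublist _)))))))
  have g10 := c5a_289_33 (h.four (.cons_cons _ (.cons _ (.cons_cons _ (.cons_cons _ (.cons _ (.cons_cons _ (List.nil_sublist _))))))))
  have g11 := c5a_24576_24576 (h.four (.cons_cons _ (.cons_cons _ (.cons_cons _ (.cons_cons _ (List.nil_sublist _))))))
  have g12 := c5a_2308_2052 (h.four (.cons_cons _ (.cons _ (.cons_cons _ (.cons_cons _ (.cons_cons _ (List.nil_sublist _)))))))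
  have g13 := c5a_17425_17424 (h.four (.cons_cons _ (.cons_cons _ (.cons_cons _ (.cons_cons _ (List.nil_sublist _))))))
  have g14 := c5a_2307_2048 (h.four (.cons_cons _ (.cons _ (.cons_cons _ (.cons_cons _ (.cons_cons _ (List.nil_sublist _)))))))
  have g15 := c5a_289_33 (h.four (.cons_cons _ (.cons_cons _ (.cons _ (.cons_cons _ (.cons_cons _ (List.nil_sublist _)))))))
  have g16 := c5a_9482_0 (h.four (.cons_cons _ (.cons_cons _ (.cons_cons _ (.cons_cons _ (List.nil_sublist _))))))
  have g17 := c5a_2084_2052 (h.four (.cons _ (.cons_cons _ (.cons_cons _ (.cons_cons _ (.cons_cons _ (List.nil_sublist _)))))))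
  have g18 := c5a_18562_16514 (h.four (.cons_cons _ (.cons_cons _ (.cons_cons _ (.cons_cons _ (List.nil_sublist _))))))
  have s19 : T.X a x y p = true → False := fun n1 => by
    exact g9 n1 hxy lypr
  have s20 : T.X a x p q = true → False := fun n1 => by
    exact g10 n1 nxp lxqo
  have s21 : T.X x p y q = true → False := fun n1 => by
    exact g11 n1 hc
  have s22 : T.X a q x p = true → False := fun n1 => by
    exact g12 n1 lxqr hpq
  have s23 : T.X a y x q = true → T.X a p y q = true → False := fun n1 n2 => by
    have u1 : T.X a x y p = false := bf (fun t => s19 t)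
    exact g13 u1 n1 n2 hc
  have s24 : T.X a p x q = false → False := fun n1 => by
    have u1 : T.X a x p q = false := bf (fun t => s20 t)
    exact g14 u1 n1 lxqr hpq
  have s25 : T.X a x y q = true → False := fun n1 => by
    exact g15 n1 hxy lxqr
  have s26 : T.X a y x q = false → False := fun n1 => by
    have u1 : T.X a x y q = false := bf (fun t => s25 t)
    exact jv u1 n1
  have s27 : T.X a p y q = true → False := fun n1 => by
    have u1 : T.X a y x q = true := bt (fun t => s26 t)
    exact s23 u1 n1
  have s28 : T.X a y x p = false → False := fun n1 => by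
    have u1 : T.X a x y q = false := bf (fun t => s25 t)
    have u2 : T.X a q x p = false := bf (fun t => s22 t)
    have u3 : T.X a p y q = false := bf (fun t => s27 t)
    have u4 : T.X x p y q = false := bf (fun t => s21 t)
    exact g16 n1 u1 u2 u3 u4
  have s29 : T.X a q y p = true → False := fun n1 => by
    exact g17 n1 lypr hpq
  have u1 : T.X a y x p = true := bt (fun t => s28 t)
  have u2 : T.X a p x q = true := bt (fun t => s24 t)
  have u3 : T.X a q y p = false := bf (fun t => s29 t)
  exact g18 u1 u2 u3 hc

theorem f_merge_anti_35 {a x y p q w r : V} (h : T.RotL a [x, y, p, q, w, r])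
    (hxy : T.X a r x y = true)
    (hpq : T.X a r p q = true)
    (hc : T.X x q y p = true)
    (lxqw : T.X a w x q = false)
    (lxqr : T.X a r x q = false)
    (lypw : T.X a w y p = false)
    (lypr : T.X a r y p = false)
    (ju : T.X a p x q = false → T.X a q x p = false → False)
    (nyq : T.X a w y q = true) : False := by
  have g10 := c5a_292_260 (h.four (.cons _ (.cons_cons _ (.cons_cons _ (.cons_cons _ (.cons_cons _ (List.nil_sublist _)))))))
  have g11 := c5a_2308_2052 (h.four (.cons_cons _ (.cons _ (.cons_cons _ (.cons_cons _ (.cons _ (.cons_cons _ (List.nil_sublist _))))))))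
  have g12 := c5a_289_33 (h.four (.cons_cons _ (.cons_cons _ (.cons _ (.cons_cons _ (.cons _ (.cons_cons _ (List.nil_sublist _))))))))
  have g13 := c5a_2081_33 (h.four (.cons_cons _ (.cons_cons _ (.cons_cons _ (.cons _ (.cons _ (.cons_cons _ (List.nil_sublist _))))))))
  have g14 := c5a_19592_16512 (h.four (.cons_cons _ (.cons_cons _ (.cons_cons _ (.cons_cons _ (List.nil_sublist _))))))
  have g15 := c5a_2307_2048 (h.four (.cons_cons _ (.cons_cons _ (.cons _ (.cons_cons _ (.cons_cons _ (List.nil_sublist _)))))))
  have g16 := c5a_17425_17424 (h.four (.cons_cons _ (.cons_cons _ (.cons_cons _ (.cons_cons _ (List.nil_sublist _))))))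
  have s17 : T.X a q y p = true → False := fun n1 => by
    exact g10 n1 lypw nyq
  have s18 : T.X a q x p = true → False := fun n1 => by
    exact g11 n1 lxqr hpq
  have s19 : T.X a p x q = false → False := fun n1 => by
    have u1 : T.X a q x p = false := bf (fun t => s18 t)
    exact ju n1 u1
  have s20 : T.X a x y q = true → False := fun n1 => by
    exact g12 n1 hxy lxqr
  have s21 : T.X a x y p = true → False := fun n1 => by
    exact g13 n1 hxy lypr
  have s22 : T.X a p y q = false → False := fun n1 => by
    have u1 : T.X a x y q = false := bf (fun t => s20 t)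
    have u2 : T.X a p x q = true := bt (fun t => s19 t)
    have u3 : T.X a q y p = false := bf (fun t => s17 t)
    exact g14 u1 u2 n1 u3 hc
  have s23 : T.X a y x q = false → False := fun n1 => by
    have u1 : T.X a x y q = false := bf (fun t => s20 t)
    exact g15 u1 n1 lxqw nyq
  have u1 : T.X a x y p = false := bf (fun t => s21 t)
  have u2 : T.X a y x q = true := bt (fun t => s23 t)
  have u3 : T.X a p y q = true := bt (fun t => s22 t)
  exact g16 u1 u2 u3 hc

theorem f_merge_anti_36 {a x y p q r w : V} (h : T.RotL a [x, y, p, q, r, w])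
    (hxy : T.X a r x y = true)
    (hpq : T.X a r p q = true)
    (hc : T.X x q y p = true)
    (lxqr : T.X a r x q = false)
    (lxqw : T.X a w x q = false)
    (lypr : T.X a r y p = false)
    (ju : T.X a p x q = false → T.X a q x p = false → False)
    (nyq : T.X a w y q = true) : False := by
  have g9 := c5a_2081_33 (h.four (.cons_cons _ (.cons_cons _ (.cons_cons _ (.cons _ (.cons_cons _ (List.nil_sublist _)))))))
  have g10 := c5a_2308_2052 (h.four (.cons_cons _ (.cons_cons _ (.cons _ (.cons_cons _ (.cons _ (.cons_cons _ (List.nil_sublist _))))))))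
  have g11 := c5a_19592_16512 (h.four (.cons_cons _ (.cons_cons _ (.cons_cons _ (.cons_cons _ (List.nil_sublist _))))))
  have g12 := c5a_289_33 (h.four (.cons_cons _ (.cons_cons _ (.cons _ (.cons_cons _ (.cons_cons _ (List.nil_sublist _)))))))
  have g13 := c5a_294_32 (h.four (.cons_cons _ (.cons_cons _ (.cons _ (.cons_cons _ (.cons_cons _ (List.nil_sublist _)))))))
  have g14 := c5a_2308_2052 (h.four (.cons_cons _ (.cons _ (.cons_cons _ (.cons_cons _ (.cons_cons _ (List.nil_sublist _)))))))
  have g15 := c5a_17425_17424 (h.four (.cons_cons _ (.cons_cons _ (.cons_cons _ (.cons_cons _ (List.nil_sublist _))))))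
  have g16 := c5a_2084_2052 (h.four (.cons _ (.cons_cons _ (.cons_cons _ (.cons_cons _ (.cons_cons _ (List.nil_sublist _)))))))
  have s17 : T.X a x y p = true → False := fun n1 => by
    exact g9 n1 hxy lypr
  have s18 : T.X a q x y = true → False := fun n1 => by
    exact g10 n1 lxqw nyq
  have s19 : T.X a x y q = false → T.X a p x q = true → T.X a p y q = false → T.X a q y p = false → False := fun n1 n2 n3 n4 => by
    exact g11 n1 n2 n3 n4 hc
  have s20 : T.X a x y q = true → False := fun n1 => by
    exact g12 n1 hxy lxqr
  have s21 : T.X a y x q = false → False := fun n1 => by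
    have u1 : T.X a q x y = false := bf (fun t => s18 t)
    exact g13 n1 u1 hxy lxqr
  have s22 : T.X a q x p = true → False := fun n1 => by
    exact g14 n1 lxqr hpq
  have s23 : T.X a p x q = false → False := fun n1 => by
    have u1 : T.X a q x p = false := bf (fun t => s22 t)
    exact ju n1 u1
  have s24 : T.X a p y q = true → False := fun n1 => by
    have u1 : T.X a x y p = false := bf (fun t => s17 t)
    have u2 : T.X a y x q = true := bt (fun t => s21 t)
    exact g15 u1 u2 n1 hc
  have s25 : T.X a q y p = false → False := fun n1 => by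
    have u1 : T.X a p y q = false := bf (fun t => s24 t)
    have u2 : T.X a x y q = false := bf (fun t => s20 t)
    have u3 : T.X a p x q = true := bt (fun t => s23 t)
    exact s19 u2 u3 u1 n1
  have u1 : T.X a q y p = true := bt (fun t => s25 t)
  exact g16 u1 lypr hpq

theorem f_merge_anti_37 {a x y p q r : V} (h : T.RotL a [x, y, p, q, r])
    (hxy : T.X a r x y = true)
    (hpq : T.X a r p q = true)
    (hc : T.X x q y p = true)
    (lxqr : T.X a r x q = false)
    (ju : T.X a p x q = false → T.X a q x p = false → False)
    (jv1 : T.X a p y q = false)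
    (jv2 : T.X a q y p = false) : False := by
  have g8 := c5a_289_33 (h.four (.cons_cons _ (.cons_cons _ (.cons _ (.cons_cons _ (.cons_cons _ (List.nil_sublist _)))))))
  have g9 := c5a_2308_2052 (h.four (.cons_cons _ (.cons _ (.cons_cons _ (.cons_cons _ (.cons_cons _ (List.nil_sublist _)))))))
  have g10 := c5a_19592_16512 (h.four (.cons_cons _ (.cons_cons _ (.cons_cons _ (.cons_cons _ (List.nil_sublist _))))))
  have s11 : T.X a x y q = true → False := fun n1 => by
    exact g8 n1 hxy lxqr
  have s12 : T.X a q x p = true → False := fun n1 => by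
    exact g9 n1 lxqr hpq
  have s13 : T.X a p x q = false → False := fun n1 => by
    have u1 : T.X a q x p = false := bf (fun t => s12 t)
    exact ju n1 u1
  have u1 : T.X a x y q = false := bf (fun t => s11 t)
  have u2 : T.X a p x q = true := bt (fun t => s13 t)
  exact g10 u1 u2 jv1 jv2 hc

theorem f_merge_anti_38 {a x y p q r : V} (h : T.RotL a [x, y, p, q, r])
    (hxy : T.X a r x y = true)
    (hpq : T.X a r p q = true)
    (hc : T.X x q y p = true)
    (lxqr : T.X a r x q = false)
    (lypr : T.X a r y p = false)
    (ju : T.X a p x q = false → T.X a q x p = false → False)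
    (jv : T.X a x y q = false → T.X a y x q = false → False) : False := by
  have g8 := c5a_289_33 (h.four (.cons_cons _ (.cons_cons _ (.cons _ (.cons_cons _ (.cons_cons _ (List.nil_sublist _)))))))
  have g9 := c5a_2081_33 (h.four (.cons_cons _ (.cons_cons _ (.cons_cons _ (.cons _ (.cons_cons _ (List.nil_sublist _)))))))
  have g10 := c5a_2084_2052 (h.four (.cons _ (.cons_cons _ (.cons_cons _ (.cons_cons _ (.cons_cons _ (List.nil_sublist _)))))))
  have g11 := c5a_2308_2052 (h.four (.cons_cons _ (.cons _ (.cons_cons _ (.cons_cons _ (.cons_cons _ (List.nil_sublist _)))))))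
  have g12 := c5a_17425_17424 (h.four (.cons_cons _ (.cons_cons _ (.cons_cons _ (.cons_cons _ (List.nil_sublist _))))))
  have g13 := c5a_19592_16512 (h.four (.cons_cons _ (.cons_cons _ (.cons_cons _ (.cons_cons _ (List.nil_sublist _))))))
  have s14 : T.X a x y q = true → False := fun n1 => by
    exact g8 n1 hxy lxqr
  have s15 : T.X a y x q = false → False := fun n1 => by
    have u1 : T.X a x y q = false := bf (fun t => s14 t)
    exact jv u1 n1
  have s16 : T.X a x y p = true → False := fun n1 => by
    exact g9 n1 hxy lypr
  have s17 : T.X a q y p = true → False := fun n1 => by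
    exact g10 n1 lypr hpq
  have s18 : T.X a q x p = true → False := fun n1 => by
    exact g11 n1 lxqr hpq
  have s19 : T.X a p x q = false → False := fun n1 => by
    have u1 : T.X a q x p = false := bf (fun t => s18 t)
    exact ju n1 u1
  have s20 : T.X a p y q = true → False := fun n1 => by
    have u1 : T.X a x y p = false := bf (fun t => s16 t)
    have u2 : T.X a y x q = true := bt (fun t => s15 t)
    exact g12 u1 u2 n1 hc
  have u1 : T.X a x y q = false := bf (fun t => s14 t)
  have u2 : T.X a p x q = true := bt (fun t => s19 t)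
  have u3 : T.X a p y q = false := bf (fun t => s20 t)
  have u4 : T.X a q y p = false := bf (fun t => s17 t)
  exact g13 u1 u2 u3 u4 hc

theorem f_merge_anti_39 {a x y p q w r : V} (h : T.RotL a [x, y, p, q, w, r])
    (hxy : T.X a r x y = true)
    (hpq : T.X a r p q = true)
    (hc : T.X x q y p = true)
    (lxqw : T.X a w x q = false)
    (lxqr : T.X a r x q = false)
    (ju1 : T.X a x y p = false)
    (ju2 : T.X a y x p = false)
    (nyq : T.X a w y q = true) : False := by
  have g9 := c5a_289_33 (h.four (.cons_cons _ (.cons_cons _ (.cons _ (.cons_cons _ (.cons _ (.cons_cons _ (List.nil_sublist _))))))))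
  have g10 := c5a_2307_2048 (h.four (.cons_cons _ (.cons_cons _ (.cons _ (.cons_cons _ (.cons_cons _ (List.nil_sublist _)))))))
  have g11 := c5a_16659_16400 (h.four (.cons_cons _ (.cons_cons _ (.cons_cons _ (.cons_cons _ (List.nil_sublist _))))))
  have g12 := c5a_2308_2052 (h.four (.cons_cons _ (.cons _ (.cons_cons _ (.cons_cons _ (.cons _ (.cons_cons _ (List.nil_sublist _))))))))
  have s13 : T.X a x y q = true → False := fun n1 => by
    exact g9 n1 hxy lxqr
  have s14 : T.X a y x q = false → False := fun n1 => by
    have u1 : T.X a x y q = false := bf (fun t => s13 t)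
    exact g10 u1 n1 lxqw nyq
  have s15 : T.X a q x p = false → False := fun n1 => by
    have u3 : T.X a y x q = true := bt (fun t => s14 t)
    exact g11 ju1 ju2 u3 n1 hc
  have u1 : T.X a q x p = true := bt (fun t => s15 t)
  exact g12 u1 lxqr hpq

theorem f_merge_anti_40 {a x y p q r w : V} (h : T.RotL a [x, y, p, q, r, w])
    (hxy : T.X a r x y = true)
    (hpq : T.X a r p q = true)
    (hc : T.X x q y p = true)
    (lxqr : T.X a r x q = false)
    (lxqw : T.X a w x q = false)
    (ju1 : T.X a x y p = false)
    (ju2 : T.X a y x p = false)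
    (nyq : T.X a w y q = true) : False := by
  have g9 := c5a_2308_2052 (h.four (.cons_cons _ (.cons_cons _ (.cons _ (.cons_cons _ (.cons _ (.cons_cons _ (List.nil_sublist _))))))))
  have g10 := c5a_294_32 (h.four (.cons_cons _ (.cons_cons _ (.cons _ (.cons_cons _ (.cons_cons _ (List.nil_sublist _)))))))
  have g11 := c5a_16659_16400 (h.four (.cons_cons _ (.cons_cons _ (.cons_cons _ (.cons_cons _ (List.nil_sublist _))))))
  have g12 := c5a_2308_2052 (h.four (.cons_cons _ (.cons _ (.cons_cons _ (.cons_cons _ (.cons_cons _ (List.nil_sublist _)))))))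
  have s13 : T.X a q x y = true → False := fun n1 => by
    exact g9 n1 lxqw nyq
  have s14 : T.X a y x q = false → False := fun n1 => by
    have u1 : T.X a q x y = false := bf (fun t => s13 t)
    exact g10 n1 u1 hxy lxqr
  have s15 : T.X a q x p = false → False := fun n1 => by
    have u3 : T.X a y x q = true := bt (fun t => s14 t)
    exact g11 ju1 ju2 u3 n1 hc
  have u1 : T.X a q x p = true := bt (fun t => s15 t)
  exact g12 u1 lxqr hpq

theorem f_merge_anti_41 {a x y p q r : V} (h : T.RotL a [x, y, p, q, r])
    (hxy : T.X a r x y = true)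
    (hpq : T.X a r p q = true)
    (hc : T.X x q y p = true)
    (lxqr : T.X a r x q = false)
    (ju2 : T.X a y x p = false)
    (jv1 : T.X a p y q = false) : False := by
  have g7 := c5a_24576_24576 (h.four (.cons_cons _ (.cons_cons _ (.cons_cons _ (.cons_cons _ (List.nil_sublist _))))))
  have g8 := c5a_2308_2052 (h.four (.cons_cons _ (.cons _ (.cons_cons _ (.cons_cons _ (.cons_cons _ (List.nil_sublist _)))))))
  have g9 := c5a_289_33 (h.four (.cons_cons _ (.cons_cons _ (.cons _ (.cons_cons _ (.cons_cons _ (List.nil_sublist _)))))))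
  have g10 := c5a_9482_0 (h.four (.cons_cons _ (.cons_cons _ (.cons_cons _ (.cons_cons _ (List.nil_sublist _))))))
  have s11 : T.X x p y q = true → False := fun n1 => by
    exact g7 n1 hc
  have s12 : T.X a q x p = true → False := fun n1 => by
    exact g8 n1 lxqr hpq
  have s13 : T.X a x y q = true → False := fun n1 => by
    exact g9 n1 hxy lxqr
  have u2 : T.X a x y q = false := bf (fun t => s13 t)
  have u3 : T.X a q x p = false := bf (fun t => s12 t)
  have u5 : T.X x p y q = false := bf (fun t => s11 t)
  exact g10 ju2 u2 u3 jv1 u5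

theorem f_merge_anti_42 {a x y p q r : V} (h : T.RotL a [x, y, p, q, r])
    (hxy : T.X a r x y = true)
    (hpq : T.X a r p q = true)
    (hc : T.X x q y p = true)
    (lxqr : T.X a r x q = false)
    (ju1 : T.X a x y p = false)
    (ju2 : T.X a y x p = false)
    (jv : T.X a x y q = false → T.X a y x q = false → False) : False := by
  have g8 := c5a_289_33 (h.four (.cons_cons _ (.cons_cons _ (.cons _ (.cons_cons _ (.cons_cons _ (List.nil_sublist _)))))))
  have g9 := c5a_2308_2052 (h.four (.cons_cons _ (.cons _ (.cons_cons _ (.cons_cons _ (.cons_cons _ (List.nil_sublist _)))))))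
  have g10 := c5a_16659_16400 (h.four (.cons_cons _ (.cons_cons _ (.cons_cons _ (.cons_cons _ (List.nil_sublist _))))))
  have s11 : T.X a x y q = true → False := fun n1 => by
    exact g8 n1 hxy lxqr
  have s12 : T.X a y x q = false → False := fun n1 => by
    have u1 : T.X a x y q = false := bf (fun t => s11 t)
    exact jv u1 n1
  have s13 : T.X a q x p = true → False := fun n1 => by
    exact g9 n1 lxqr hpq
  have u3 : T.X a y x q = true := bt (fun t => s12 t)
  have u4 : T.X a q x p = false := bf (fun t => s13 t)
  exact g10 ju1 ju2 u3 u4 hc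

theorem f_grow_iso_43 {a x y p q w o r : V} (h : T.RotL a [x, y, p, q, w, o, r])
    (hxyr : T.X a r x y = true)
    (hypr : T.X a r y p = true)
    (hyqr : T.X a r y q = true)
    (hc : T.X x p y q = true)
    (lxpw : T.X a w x p = false)
    (lyqo : T.X a o y q = false)
    (nxq : T.X a o x q = true)
    (nyp : T.X a w y p = true) : False := by
  have g9 := c5a_2082_2082 (h.four (.cons_cons _ (.cons_cons _ (.cons_cons _ (.cons _ (.cons _ (.cons _ (.cons_cons _ (List.nil_sublist _)))))))))
  have g10 := c5a_2308_2052 (h.four (.cons_cons _ (.cons_cons _ (.cons_cons _ (.cons _ (.cons_cons _ (List.nil_sublist _)))))))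
  have g11 := c5a_8230_8224 (h.four (.cons_cons _ (.cons_cons _ (.cons_cons _ (.cons_cons _ (List.nil_sublist _))))))
  have g12 := c5a_2085_2080 (h.four (.cons_cons _ (.cons_cons _ (.cons _ (.cons_cons _ (.cons _ (.cons _ (.cons_cons _ (List.nil_sublist _)))))))))
  have g13 := c5a_2305_257 (h.four (.cons_cons _ (.cons_cons _ (.cons _ (.cons_cons _ (.cons _ (.cons_cons _ (List.nil_sublist _))))))))
  have s14 : T.X a y x p = true → False := fun n1 => by
    exact g9 n1 hxyr hypr
  have s15 : T.X a p x y = true → False := fun n1 => by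
    exact g10 n1 lxpw nyp
  have s16 : T.X a q x y = true → False := fun n1 => by
    have u1 : T.X a y x p = false := bf (fun t => s14 t)
    have u2 : T.X a p x y = false := bf (fun t => s15 t)
    exact g11 u1 u2 n1 hc
  have s17 : T.X a x y q = false → False := fun n1 => by
    have u1 : T.X a q x y = false := bf (fun t => s16 t)
    exact g12 n1 u1 hxyr hyqr
  have u1 : T.X a x y q = true := bt (fun t => s17 t)
  exact g13 u1 nxq lyqo

theorem f_grow_iso_44 {a x y p q o r : V} (h : T.RotL a [x, y, p, q, o, r])
    (hxyr : T.X a r x y = true)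
    (hypr : T.X a r y p = true)
    (hyqr : T.X a r y q = true)
    (hc : T.X x p y q = true)
    (lxpo : T.X a o x p = false)
    (lyqo : T.X a o y q = false)
    (nxq : T.X a o x q = true)
    (nyp : T.X a o y p = true) : False := by
  have g9 := c5a_2082_2082 (h.four (.cons_cons _ (.cons_cons _ (.cons_cons _ (.cons _ (.cons _ (.cons_cons _ (List.nil_sublist _))))))))
  have g10 := c5a_2308_2052 (h.four (.cons_cons _ (.cons_cons _ (.cons_cons _ (.cons _ (.cons_cons _ (List.nil_sublist _)))))))
  have g11 := c5a_8230_8224 (h.four (.cons_cons _ (.cons_cons _ (.cons_cons _ (.cons_cons _ (List.nil_sublist _))))))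
  have g12 := c5a_2085_2080 (h.four (.cons_cons _ (.cons_cons _ (.cons _ (.cons_cons _ (.cons _ (.cons_cons _ (List.nil_sublist _))))))))
  have g13 := c5a_2305_257 (h.four (.cons_cons _ (.cons_cons _ (.cons _ (.cons_cons _ (.cons_cons _ (List.nil_sublist _)))))))
  have s14 : T.X a y x p = true → False := fun n1 => by
    exact g9 n1 hxyr hypr
  have s15 : T.X a p x y = true → False := fun n1 => by
    exact g10 n1 lxpo nyp
  have s16 : T.X a q x y = true → False := fun n1 => by
    have u1 : T.X a y x p = false := bf (fun t => s14 t)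
    have u2 : T.X a p x y = false := bf (fun t => s15 t)
    exact g11 u1 u2 n1 hc
  have s17 : T.X a x y q = false → False := fun n1 => by
    have u1 : T.X a q x y = false := bf (fun t => s16 t)
    exact g12 n1 u1 hxyr hyqr
  have u1 : T.X a x y q = true := bt (fun t => s17 t)
  exact g13 u1 nxq lyqo

theorem f_grow_iso_45 {a x y p q o w r : V} (h : T.RotL a [x, y, p, q, o, w, r])
    (hxyr : T.X a r x y = true)
    (hypr : T.X a r y p = true)
    (hyqr : T.X a r y q = true)
    (hc : T.X x p y q = true)
    (lxpw : T.X a w x p = false)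
    (lyqo : T.X a o y q = false)
    (nxq : T.X a o x q = true)
    (nyp : T.X a w y p = true) : False := by
  have g9 := c5a_2082_2082 (h.four (.cons_cons _ (.cons_cons _ (.cons_cons _ (.cons _ (.cons _ (.cons _ (.cons_cons _ (List.nil_sublist _)))))))))
  have g10 := c5a_2308_2052 (h.four (.cons_cons _ (.cons_cons _ (.cons_cons _ (.cons _ (.cons _ (.cons_cons _ (List.nil_sublist _))))))))
  have g11 := c5a_8230_8224 (h.four (.cons_cons _ (.cons_cons _ (.cons_cons _ (.cons_cons _ (List.nil_sublist _))))))
  have g12 := c5a_2085_2080 (h.four (.cons_cons _ (.cons_cons _ (.cons _ (.cons_cons _ (.cons _ (.cons _ (.cons_cons _ (List.nil_sublist _)))))))))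
  have g13 := c5a_2305_257 (h.four (.cons_cons _ (.cons_cons _ (.cons _ (.cons_cons _ (.cons_cons _ (List.nil_sublist _)))))))
  have s14 : T.X a y x p = true → False := fun n1 => by
    exact g9 n1 hxyr hypr
  have s15 : T.X a p x y = true → False := fun n1 => by
    exact g10 n1 lxpw nyp
  have s16 : T.X a q x y = true → False := fun n1 => by
    have u1 : T.X a y x p = false := bf (fun t => s14 t)
    have u2 : T.X a p x y = false := bf (fun t => s15 t)
    exact g11 u1 u2 n1 hc
  have s17 : T.X a x y q = false → False := fun n1 => by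
    have u1 : T.X a q x y = false := bf (fun t => s16 t)
    exact g12 n1 u1 hxyr hyqr
  have u1 : T.X a x y q = true := bt (fun t => s17 t)
  exact g13 u1 nxq lyqo

theorem f_grow_iso_46 {a x y p q o r w : V} (h : T.RotL a [x, y, p, q, o, r, w])
    (hxyr : T.X a r x y = true)
    (hypr : T.X a r y p = true)
    (hyqr : T.X a r y q = true)
    (hc : T.X x p y q = true)
    (lxpw : T.X a w x p = false)
    (lyqo : T.X a o y q = false)
    (nxq : T.X a o x q = true)
    (nyp : T.X a w y p = true) : False := by
  have g9 := c5a_2308_2052 (h.four (.cons_cons _ (.cons_cons _ (.cons_cons _ (.cons _ (.cons _ (.cons _ (.cons_cons _ (List.nil_sublist _)))))))))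
  have g10 := c5a_2082_2082 (h.four (.cons_cons _ (.cons_cons _ (.cons_cons _ (.cons _ (.cons _ (.cons_cons _ (List.nil_sublist _))))))))
  have g11 := c5a_8230_8224 (h.four (.cons_cons _ (.cons_cons _ (.cons_cons _ (.cons_cons _ (List.nil_sublist _))))))
  have g12 := c5a_2085_2080 (h.four (.cons_cons _ (.cons_cons _ (.cons _ (.cons_cons _ (.cons _ (.cons_cons _ (List.nil_sublist _))))))))
  have g13 := c5a_2305_257 (h.four (.cons_cons _ (.cons_cons _ (.cons _ (.cons_cons _ (.cons_cons _ (List.nil_sublist _)))))))
  have s14 : T.X a p x y = true → False := fun n1 => by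
    exact g9 n1 lxpw nyp
  have s15 : T.X a y x p = true → False := fun n1 => by
    exact g10 n1 hxyr hypr
  have s16 : T.X a q x y = true → False := fun n1 => by
    have u1 : T.X a y x p = false := bf (fun t => s15 t)
    have u2 : T.X a p x y = false := bf (fun t => s14 t)
    exact g11 u1 u2 n1 hc
  have s17 : T.X a x y q = false → False := fun n1 => by
    have u1 : T.X a q x y = false := bf (fun t => s16 t)
    exact g12 n1 u1 hxyr hyqr
  have u1 : T.X a x y q = true := bt (fun t => s17 t)
  exact g13 u1 nxq lyqo

theorem f_grow_iso_47 {a x y p q w r o : V} (h : T.RotL a [x, y, p, q, w, r, o])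
    (hxyr : T.X a r x y = true)
    (hypr : T.X a r y p = true)
    (hyqr : T.X a r y q = true)
    (hc : T.X x p y q = true)
    (lxpw : T.X a w x p = false)
    (lyqo : T.X a o y q = false)
    (nxq : T.X a o x q = true)
    (nyp : T.X a w y p = true) : False := by
  have g9 := c5a_2082_2082 (h.four (.cons_cons _ (.cons_cons _ (.cons_cons _ (.cons _ (.cons _ (.cons_cons _ (List.nil_sublist _))))))))
  have g10 := c5a_2308_2052 (h.four (.cons_cons _ (.cons_cons _ (.cons_cons _ (.cons _ (.cons_cons _ (List.nil_sublist _)))))))
  have g11 := c5a_8230_8224 (h.four (.cons_cons _ (.cons_cons _ (.cons_cons _ (.cons_cons _ (List.nil_sublist _))))))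
  have g12 := c5a_2305_257 (h.four (.cons_cons _ (.cons_cons _ (.cons _ (.cons_cons _ (.cons _ (.cons _ (.cons_cons _ (List.nil_sublist _)))))))))
  have g13 := c5a_2085_2080 (h.four (.cons_cons _ (.cons_cons _ (.cons _ (.cons_cons _ (.cons _ (.cons_cons _ (List.nil_sublist _))))))))
  have s14 : T.X a y x p = true → False := fun n1 => by
    exact g9 n1 hxyr hypr
  have s15 : T.X a p x y = true → False := fun n1 => by
    exact g10 n1 lxpw nyp
  have s16 : T.X a q x y = true → False := fun n1 => by
    have u1 : T.X a y x p = false := bf (fun t => s14 t)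
    have u2 : T.X a p x y = false := bf (fun t => s15 t)
    exact g11 u1 u2 n1 hc
  have s17 : T.X a x y q = true → False := fun n1 => by
    exact g12 n1 nxq lyqo
  have u1 : T.X a x y q = false := bf (fun t => s17 t)
  have u2 : T.X a q x y = false := bf (fun t => s16 t)
  exact g13 u1 u2 hxyr hyqr

theorem f_grow_iso_48 {a x y p q r w o : V} (h : T.RotL a [x, y, p, q, r, w, o])
    (hxyr : T.X a r x y = true)
    (hypr : T.X a r y p = true)
    (hyqr : T.X a r y q = true)
    (hc : T.X x p y q = true)
    (lxpw : T.X a w x p = false)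
    (lyqo : T.X a o y q = false)
    (nxq : T.X a o x q = true)
    (nyp : T.X a w y p = true) : False := by
  have g9 := c5a_2308_2052 (h.four (.cons_cons _ (.cons_cons _ (.cons_cons _ (.cons _ (.cons _ (.cons_cons _ (List.nil_sublist _))))))))
  have g10 := c5a_2082_2082 (h.four (.cons_cons _ (.cons_cons _ (.cons_cons _ (.cons _ (.cons_cons _ (List.nil_sublist _)))))))
  have g11 := c5a_8230_8224 (h.four (.cons_cons _ (.cons_cons _ (.cons_cons _ (.cons_cons _ (List.nil_sublist _))))))
  have g12 := c5a_2305_257 (h.four (.cons_cons _ (.cons_cons _ (.cons _ (.cons_cons _ (.cons _ (.cons _ (.cons_cons _ (List.nil_sublist _)))))))))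
  have g13 := c5a_2085_2080 (h.four (.cons_cons _ (.cons_cons _ (.cons _ (.cons_cons _ (.cons_cons _ (List.nil_sublist _)))))))
  have s14 : T.X a p x y = true → False := fun n1 => by
    exact g9 n1 lxpw nyp
  have s15 : T.X a y x p = true → False := fun n1 => by
    exact g10 n1 hxyr hypr
  have s16 : T.X a q x y = true → False := fun n1 => by
    have u1 : T.X a y x p = false := bf (fun t => s15 t)
    have u2 : T.X a p x y = false := bf (fun t => s14 t)
    exact g11 u1 u2 n1 hc
  have s17 : T.X a x y q = true → False := fun n1 => by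
    exact g12 n1 nxq lyqo
  have u1 : T.X a x y q = false := bf (fun t => s17 t)
  have u2 : T.X a q x y = false := bf (fun t => s16 t)
  exact g13 u1 u2 hxyr hyqr

theorem f_grow_iso_49 {a x y p q r o : V} (h : T.RotL a [x, y, p, q, r, o])
    (hxyr : T.X a r x y = true)
    (hypr : T.X a r y p = true)
    (hyqr : T.X a r y q = true)
    (hc : T.X x p y q = true)
    (lxpo : T.X a o x p = false)
    (lyqo : T.X a o y q = false)
    (nxq : T.X a o x q = true)
    (nyp : T.X a o y p = true) : False := by
  have g9 := c5a_2308_2052 (h.four (.cons_cons _ (.cons_cons _ (.cons_cons _ (.cons _ (.cons _ (.cons_cons _ (List.nil_sublist _))))))))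
  have g10 := c5a_2082_2082 (h.four (.cons_cons _ (.cons_cons _ (.cons_cons _ (.cons _ (.cons_cons _ (List.nil_sublist _)))))))
  have g11 := c5a_8230_8224 (h.four (.cons_cons _ (.cons_cons _ (.cons_cons _ (.cons_cons _ (List.nil_sublist _))))))
  have g12 := c5a_2305_257 (h.four (.cons_cons _ (.cons_cons _ (.cons _ (.cons_cons _ (.cons _ (.cons_cons _ (List.nil_sublist _))))))))
  have g13 := c5a_2085_2080 (h.four (.cons_cons _ (.cons_cons _ (.cons _ (.cons_cons _ (.cons_cons _ (List.nil_sublist _)))))))
  have s14 : T.X a p x y = true → False := fun n1 => by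
    exact g9 n1 lxpo nyp
  have s15 : T.X a y x p = true → False := fun n1 => by
    exact g10 n1 hxyr hypr
  have s16 : T.X a q x y = true → False := fun n1 => by
    have u1 : T.X a y x p = false := bf (fun t => s15 t)
    have u2 : T.X a p x y = false := bf (fun t => s14 t)
    exact g11 u1 u2 n1 hc
  have s17 : T.X a x y q = true → False := fun n1 => by
    exact g12 n1 nxq lyqo
  have u1 : T.X a x y q = false := bf (fun t => s17 t)
  have u2 : T.X a q x y = false := bf (fun t => s16 t)
  exact g13 u1 u2 hxyr hyqr

theorem f_grow_iso_50 {a x y p q r o w : V} (h : T.RotL a [x, y, p, q, r, o, w])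
    (hxyr : T.X a r x y = true)
    (hypr : T.X a r y p = true)
    (hyqr : T.X a r y q = true)
    (hc : T.X x p y q = true)
    (lxpw : T.X a w x p = false)
    (lyqo : T.X a o y q = false)
    (nxq : T.X a o x q = true)
    (nyp : T.X a w y p = true) : False := by
  have g9 := c5a_2308_2052 (h.four (.cons_cons _ (.cons_cons _ (.cons_cons _ (.cons _ (.cons _ (.cons _ (.cons_cons _ (List.nil_sublist _)))))))))
  have g10 := c5a_2082_2082 (h.four (.cons_cons _ (.cons_cons _ (.cons_cons _ (.cons _ (.cons_cons _ (List.nil_sublist _)))))))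
  have g11 := c5a_8230_8224 (h.four (.cons_cons _ (.cons_cons _ (.cons_cons _ (.cons_cons _ (List.nil_sublist _))))))
  have g12 := c5a_2305_257 (h.four (.cons_cons _ (.cons_cons _ (.cons _ (.cons_cons _ (.cons _ (.cons_cons _ (List.nil_sublist _))))))))
  have g13 := c5a_2085_2080 (h.four (.cons_cons _ (.cons_cons _ (.cons _ (.cons_cons _ (.cons_cons _ (List.nil_sublist _)))))))
  have s14 : T.X a p x y = true → False := fun n1 => by
    exact g9 n1 lxpw nyp
  have s15 : T.X a y x p = true → False := fun n1 => by
    exact g10 n1 hxyr hypr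
  have s16 : T.X a q x y = true → False := fun n1 => by
    have u1 : T.X a y x p = false := bf (fun t => s15 t)
    have u2 : T.X a p x y = false := bf (fun t => s14 t)
    exact g11 u1 u2 n1 hc
  have s17 : T.X a x y q = true → False := fun n1 => by
    exact g12 n1 nxq lyqo
  have u1 : T.X a x y q = false := bf (fun t => s17 t)
  have u2 : T.X a q x y = false := bf (fun t => s16 t)
  exact g13 u1 u2 hxyr hyqr

theorem f_grow_iso_51 {a x y p q o r : V} (h : T.RotL a [x, y, p, q, o, r])
    (hxyr : T.X a r x y = true)
    (hypr : T.X a r y p = true)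
    (hyqr : T.X a r y q = true)
    (hc : T.X x p y q = true)
    (lxpo : T.X a o x p = false)
    (lyqo : T.X a o y q = false)
    (nxq : T.X a o x q = true)
    (jv : T.X a p y q = false → T.X a q y p = false → False) : False := by
  have g9 := c5a_9484_9220 (h.four (.cons_cons _ (.cons_cons _ (.cons_cons _ (.cons_cons _ (List.nil_sublist _))))))
  have g10 := c5a_12288_12288 (h.four (.cons_cons _ (.cons_cons _ (.cons_cons _ (.cons_cons _ (List.nil_sublist _))))))
  have g11 := c5a_2305_257 (h.four (.cons_cons _ (.cons_cons _ (.cons _ (.cons_cons _ (.cons_cons _ (List.nil_sublist _)))))))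
  have g12 := c5a_2085_2080 (h.four (.cons_cons _ (.cons_cons _ (.cons _ (.cons_cons _ (.cons _ (.cons_cons _ (List.nil_sublist _))))))))
  have g13 := c5a_10272_10272 (h.four (.cons_cons _ (.cons_cons _ (.cons_cons _ (.cons_cons _ (List.nil_sublist _))))))
  have g14 := c5a_2082_2082 (h.four (.cons_cons _ (.cons_cons _ (.cons_cons _ (.cons _ (.cons _ (.cons_cons _ (List.nil_sublist _))))))))
  have g15 := c5a_8738_8736 (h.four (.cons_cons _ (.cons_cons _ (.cons_cons _ (.cons_cons _ (List.nil_sublist _))))))
  have g16 := c5a_292_260 (h.four (.cons_cons _ (.cons _ (.cons_cons _ (.cons_cons _ (.cons_cons _ (List.nil_sublist _)))))))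
  have g17 := c5a_4644_32 (h.four (.cons_cons _ (.cons_cons _ (.cons_cons _ (.cons_cons _ (List.nil_sublist _))))))
  have s18 : T.X a p x y = true → T.X a x y q = false → T.X a q x p = false → T.X a p y q = true → False := fun n1 n2 n3 n4 => by
    exact g9 n1 n2 n3 n4 hc
  have s19 : T.X x y p q = true → False := fun n1 => by
    exact g10 n1 hc
  have s20 : T.X a x y q = true → False := fun n1 => by
    exact g11 n1 nxq lyqo
  have s21 : T.X a q x y = false → False := fun n1 => by
    have u1 : T.X a x y q = false := bf (fun t => s20 t)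
    exact g12 u1 n1 hxyr hyqr
  have s22 : T.X a q y p = true → False := fun n1 => by
    have u1 : T.X a q x y = true := bt (fun t => s21 t)
    exact g13 u1 n1 hc
  have s23 : T.X a p y q = false → False := fun n1 => by
    have u1 : T.X a q y p = false := bf (fun t => s22 t)
    exact jv n1 u1
  have s24 : T.X a y x p = true → False := fun n1 => by
    exact g14 n1 hxyr hypr
  have s25 : T.X a y p q = true → False := fun n1 => by
    have u1 : T.X a y x p = false := bf (fun t => s24 t)
    have u2 : T.X a q x y = true := bt (fun t => s21 t)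
    exact g15 u1 u2 n1 hc
  have s26 : T.X a q x p = true → False := fun n1 => by
    exact g16 n1 lxpo nxq
  have s27 : T.X a p x y = true → False := fun n1 => by
    have u1 : T.X a q x p = false := bf (fun t => s26 t)
    have u2 : T.X a x y q = false := bf (fun t => s20 t)
    have u3 : T.X a p y q = true := bt (fun t => s23 t)
    exact s18 n1 u2 u1 u3
  have u1 : T.X a p x y = false := bf (fun t => s27 t)
  have u2 : T.X a q x y = true := bt (fun t => s21 t)
  have u3 : T.X a y p q = false := bf (fun t => s25 t)
  have u4 : T.X x y p q = false := bf (fun t => s19 t)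
  exact g17 u1 u2 u3 u4

theorem f_grow_iso_52 {a x y p q r o : V} (h : T.RotL a [x, y, p, q, r, o])
    (hxyr : T.X a r x y = true)
    (hypr : T.X a r y p = true)
    (hyqr : T.X a r y q = true)
    (hc : T.X x p y q = true)
    (lxpo : T.X a o x p = false)
    (lyqo : T.X a o y q = false)
    (nxq : T.X a o x q = true)
    (jv : T.X a p y q = false → T.X a q y p = false → False) : False := by
  have g9 := c5a_292_260 (h.four (.cons_cons _ (.cons _ (.cons_cons _ (.cons_cons _ (.cons _ (.cons_cons _ (List.nil_sublist _))))))))
  have g10 := c5a_4644_32 (h.four (.cons_cons _ (.cons_cons _ (.cons_cons _ (.cons_cons _ (List.nil_sublist _))))))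
  have g11 := c5a_2082_2082 (h.four (.cons_cons _ (.cons_cons _ (.cons_cons _ (.cons _ (.cons_cons _ (List.nil_sublist _)))))))
  have g12 := c5a_2085_2080 (h.four (.cons_cons _ (.cons_cons _ (.cons _ (.cons_cons _ (.cons_cons _ (List.nil_sublist _)))))))
  have g13 := c5a_12288_12288 (h.four (.cons_cons _ (.cons_cons _ (.cons_cons _ (.cons_cons _ (List.nil_sublist _))))))
  have g14 := c5a_2305_257 (h.four (.cons_cons _ (.cons_cons _ (.cons _ (.cons_cons _ (.cons _ (.cons_cons _ (List.nil_sublist _))))))))
  have g15 := c5a_8738_8736 (h.four (.cons_cons _ (.cons_cons _ (.cons_cons _ (.cons_cons _ (List.nil_sublist _))))))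
  have g16 := c5a_9484_9220 (h.four (.cons_cons _ (.cons_cons _ (.cons_cons _ (.cons_cons _ (List.nil_sublist _))))))
  have g17 := c5a_10272_10272 (h.four (.cons_cons _ (.cons_cons _ (.cons_cons _ (.cons_cons _ (List.nil_sublist _))))))
  have s18 : T.X a q x p = true → False := fun n1 => by
    exact g9 n1 lxpo nxq
  have s19 : T.X a y x p = true → False := fun n1 => by
    exact g11 n1 hxyr hypr
  have s20 : T.X a x y q = false → T.X a q x y = false → False := fun n1 n2 => by
    exact g12 n1 n2 hxyr hyqr
  have s21 : T.X x y p q = true → False := fun n1 => by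
    exact g13 n1 hc
  have s22 : T.X a x y q = true → False := fun n1 => by
    exact g14 n1 nxq lyqo
  have s23 : T.X a q x y = false → False := fun n1 => by
    have u1 : T.X a x y q = false := bf (fun t => s22 t)
    exact s20 u1 n1
  have s24 : T.X a y p q = true → False := fun n1 => by
    have u1 : T.X a y x p = false := bf (fun t => s19 t)
    have u2 : T.X a q x y = true := bt (fun t => s23 t)
    exact g15 u1 u2 n1 hc
  have s25 : T.X a p x y = false → False := fun n1 => by
    have u1 : T.X a y p q = false := bf (fun t => s24 t)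
    have u2 : T.X a q x y = true := bt (fun t => s23 t)
    have u3 : T.X x y p q = false := bf (fun t => s21 t)
    exact g10 n1 u2 u1 u3
  have s26 : T.X a p y q = true → False := fun n1 => by
    have u1 : T.X a p x y = true := bt (fun t => s25 t)
    have u2 : T.X a x y q = false := bf (fun t => s22 t)
    have u3 : T.X a q x p = false := bf (fun t => s18 t)
    exact g16 u1 u2 u3 n1 hc
  have s27 : T.X a q y p = false → False := fun n1 => by
    have u1 : T.X a p y q = false := bf (fun t => s26 t)
    exact jv u1 n1
  have u1 : T.X a q x y = true := bt (fun t => s23 t)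
  have u2 : T.X a q y p = true := bt (fun t => s27 t)
  exact g17 u1 u2 hc

theorem f_grow_iso_53 {a x y p q o r : V} (h : T.RotL a [x, y, p, q, o, r])
    (hxyr : T.X a r x y = true)
    (hypr : T.X a r y p = true)
    (hyqr : T.X a r y q = true)
    (hc : T.X x p y q = true)
    (lyqo : T.X a o y q = false)
    (nxq : T.X a o x q = true)
    (jv : T.X a x y p = false → T.X a y x p = false → False) : False := by
  have g8 := c5a_12288_12288 (h.four (.cons_cons _ (.cons_cons _ (.cons_cons _ (.cons_cons _ (List.nil_sublist _))))))
  have g9 := c5a_2305_257 (h.four (.cons_cons _ (.cons_cons _ (.cons _ (.cons_cons _ (.cons_cons _ (List.nil_sublist _)))))))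
  have g10 := c5a_2082_2082 (h.four (.cons_cons _ (.cons_cons _ (.cons_cons _ (.cons _ (.cons _ (.cons_cons _ (List.nil_sublist _))))))))
  have g11 := c5a_4129_33 (h.four (.cons_cons _ (.cons_cons _ (.cons_cons _ (.cons_cons _ (List.nil_sublist _))))))
  have g12 := c5a_2085_2080 (h.four (.cons_cons _ (.cons_cons _ (.cons _ (.cons_cons _ (.cons _ (.cons_cons _ (List.nil_sublist _))))))))
  have s13 : T.X x y p q = true → False := fun n1 => by
    exact g8 n1 hc
  have s14 : T.X a x y q = true → False := fun n1 => by
    exact g9 n1 nxq lyqo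
  have s15 : T.X a y x p = true → False := fun n1 => by
    exact g10 n1 hxyr hypr
  have s16 : T.X a x y p = false → False := fun n1 => by
    have u1 : T.X a y x p = false := bf (fun t => s15 t)
    exact jv n1 u1
  have s17 : T.X a q x y = true → False := fun n1 => by
    have u1 : T.X a x y p = true := bt (fun t => s16 t)
    have u2 : T.X x y p q = false := bf (fun t => s13 t)
    exact g11 u1 n1 u2
  have u1 : T.X a x y q = false := bf (fun t => s14 t)
  have u2 : T.X a q x y = false := bf (fun t => s17 t)
  exact g12 u1 u2 hxyr hyqr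

theorem f_grow_iso_54 {a x y p q r o : V} (h : T.RotL a [x, y, p, q, r, o])
    (hxyr : T.X a r x y = true)
    (hypr : T.X a r y p = true)
    (hyqr : T.X a r y q = true)
    (hc : T.X x p y q = true)
    (lyqo : T.X a o y q = false)
    (nxq : T.X a o x q = true)
    (jv : T.X a x y p = false → T.X a y x p = false → False) : False := by
  have g8 := c5a_12288_12288 (h.four (.cons_cons _ (.cons_cons _ (.cons_cons _ (.cons_cons _ (List.nil_sublist _))))))
  have g9 := c5a_2082_2082 (h.four (.cons_cons _ (.cons_cons _ (.cons_cons _ (.cons _ (.cons_cons _ (List.nil_sublist _)))))))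
  have g10 := c5a_2305_257 (h.four (.cons_cons _ (.cons_cons _ (.cons _ (.cons_cons _ (.cons _ (.cons_cons _ (List.nil_sublist _))))))))
  have g11 := c5a_4129_33 (h.four (.cons_cons _ (.cons_cons _ (.cons_cons _ (.cons_cons _ (List.nil_sublist _))))))
  have g12 := c5a_2085_2080 (h.four (.cons_cons _ (.cons_cons _ (.cons _ (.cons_cons _ (.cons_cons _ (List.nil_sublist _)))))))
  have s13 : T.X x y p q = true → False := fun n1 => by
    exact g8 n1 hc
  have s14 : T.X a y x p = true → False := fun n1 => by
    exact g9 n1 hxyr hypr
  have s15 : T.X a x y p = false → False := fun n1 => by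
    have u1 : T.X a y x p = false := bf (fun t => s14 t)
    exact jv n1 u1
  have s16 : T.X a x y q = true → False := fun n1 => by
    exact g10 n1 nxq lyqo
  have s17 : T.X a q x y = true → False := fun n1 => by
    have u1 : T.X a x y p = true := bt (fun t => s15 t)
    have u2 : T.X x y p q = false := bf (fun t => s13 t)
    exact g11 u1 n1 u2
  have u1 : T.X a x y q = false := bf (fun t => s16 t)
  have u2 : T.X a q x y = false := bf (fun t => s17 t)
  exact g12 u1 u2 hxyr hyqr

theorem f_grow_iso_55 {a x y p q w r : V} (h : T.RotL a [x, y, p, q, w, r])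
    (hxyr : T.X a r x y = true)
    (hypr : T.X a r y p = true)
    (hyqr : T.X a r y q = true)
    (hc : T.X x p y q = true)
    (lxpw : T.X a w x p = false)
    (ju1 : T.X a p x q = false)
    (ju2 : T.X a q x p = false)
    (nyp : T.X a w y p = true) : False := by
  have g9 := c5a_2082_2082 (h.four (.cons_cons _ (.cons_cons _ (.cons_cons _ (.cons _ (.cons _ (.cons_cons _ (List.nil_sublist _))))))))
  have g10 := c5a_2308_2052 (h.four (.cons_cons _ (.cons_cons _ (.cons_cons _ (.cons _ (.cons_cons _ (List.nil_sublist _)))))))
  have g11 := c5a_8484_8224 (h.four (.cons_cons _ (.cons_cons _ (.cons_cons _ (.cons_cons _ (List.nil_sublist _))))))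
  have g12 := c5a_2085_2080 (h.four (.cons_cons _ (.cons_cons _ (.cons _ (.cons_cons _ (.cons _ (.cons_cons _ (List.nil_sublist _))))))))
  have g13 := c5a_8590_8200 (h.four (.cons_cons _ (.cons_cons _ (.cons_cons _ (.cons_cons _ (List.nil_sublist _))))))
  have s14 : T.X a y x p = true → False := fun n1 => by
    exact g9 n1 hxyr hypr
  have s15 : T.X a p x y = true → False := fun n1 => by
    exact g10 n1 lxpw nyp
  have s16 : T.X a q x y = true → False := fun n1 => by
    have u1 : T.X a p x y = false := bf (fun t => s15 t)
    exact g11 u1 n1 ju2 hc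
  have s17 : T.X a x y q = false → False := fun n1 => by
    have u1 : T.X a q x y = false := bf (fun t => s16 t)
    exact g12 n1 u1 hxyr hyqr
  have u1 : T.X a y x p = false := bf (fun t => s14 t)
  have u2 : T.X a p x y = false := bf (fun t => s15 t)
  have u3 : T.X a x y q = true := bt (fun t => s17 t)
  exact g13 u1 u2 u3 ju1 ju2 hc

theorem f_grow_iso_56 {a x y p q r w : V} (h : T.RotL a [x, y, p, q, r, w])
    (hxyr : T.X a r x y = true)
    (hypr : T.X a r y p = true)
    (hyqr : T.X a r y q = true)
    (hc : T.X x p y q = true)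
    (lxpw : T.X a w x p = false)
    (ju1 : T.X a p x q = false)
    (ju2 : T.X a q x p = false)
    (nyp : T.X a w y p = true) : False := by
  have g9 := c5a_2308_2052 (h.four (.cons_cons _ (.cons_cons _ (.cons_cons _ (.cons _ (.cons _ (.cons_cons _ (List.nil_sublist _))))))))
  have g10 := c5a_2082_2082 (h.four (.cons_cons _ (.cons_cons _ (.cons_cons _ (.cons _ (.cons_cons _ (List.nil_sublist _)))))))
  have g11 := c5a_294_32 (h.four (.cons_cons _ (.cons_cons _ (.cons_cons _ (.cons_cons _ (List.nil_sublist _))))))
  have g12 := c5a_2085_2080 (h.four (.cons_cons _ (.cons_cons _ (.cons _ (.cons_cons _ (.cons_cons _ (List.nil_sublist _)))))))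
  have g13 := c5a_8590_8200 (h.four (.cons_cons _ (.cons_cons _ (.cons_cons _ (.cons_cons _ (List.nil_sublist _))))))
  have s14 : T.X a p x y = true → False := fun n1 => by
    exact g9 n1 lxpw nyp
  have s15 : T.X a y x p = true → False := fun n1 => by
    exact g10 n1 hxyr hypr
  have s16 : T.X a q x y = true → False := fun n1 => by
    have u1 : T.X a y x p = false := bf (fun t => s15 t)
    have u2 : T.X a p x y = false := bf (fun t => s14 t)
    exact g11 u1 u2 n1 ju2
  have s17 : T.X a x y q = false → False := fun n1 => by
    have u1 : T.X a q x y = false := bf (fun t => s16 t)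
    exact g12 n1 u1 hxyr hyqr
  have u1 : T.X a y x p = false := bf (fun t => s15 t)
  have u2 : T.X a p x y = false := bf (fun t => s14 t)
  have u3 : T.X a x y q = true := bt (fun t => s17 t)
  exact g13 u1 u2 u3 ju1 ju2 hc

theorem f_grow_iso_57 {a x y p q r : V} (h : T.RotL a [x, y, p, q, r])
    (hxpr : T.X a r x p = true)
    (hypr : T.X a r y p = true)
    (hpqr : T.X a r p q = true)
    (hc : T.X x p y q = true)
    (ju2 : T.X a q x p = false)
    (jv : T.X a p y q = false → T.X a q y p = false → False) : False := by
  have g7 := c5a_2082_2082 (h.four (.cons _ (.cons_cons _ (.cons_cons _ (.cons_cons _ (.cons_cons _ (List.nil_sublist _)))))))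
  have g8 := c5a_12288_12288 (h.four (.cons_cons _ (.cons_cons _ (.cons_cons _ (.cons_cons _ (List.nil_sublist _))))))
  have g9 := c5a_2085_2080 (h.four (.cons_cons _ (.cons _ (.cons_cons _ (.cons_cons _ (.cons_cons _ (List.nil_sublist _)))))))
  have g10 := c5a_6208_2112 (h.four (.cons_cons _ (.cons_cons _ (.cons_cons _ (.cons_cons _ (List.nil_sublist _))))))
  have s11 : T.X a p y q = true → False := fun n1 => by
    exact g7 n1 hypr hpqr
  have s12 : T.X a q y p = false → False := fun n1 => by
    have u1 : T.X a p y q = false := bf (fun t => s11 t)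
    exact jv u1 n1
  have s13 : T.X x y p q = true → False := fun n1 => by
    exact g8 n1 hc
  have s14 : T.X a x p q = false → False := fun n1 => by
    exact g9 n1 ju2 hxpr hpqr
  have u1 : T.X a x p q = true := bt (fun t => s14 t)
  have u2 : T.X a q y p = true := bt (fun t => s12 t)
  have u3 : T.X x y p q = false := bf (fun t => s13 t)
  exact g10 u1 u2 u3

theorem f_grow_iso_58 {a x y p q r : V} (h : T.RotL a [x, y, p, q, r])
    (hxyr : T.X a r x y = true)
    (hypr : T.X a r y p = true)
    (hyqr : T.X a r y q = true)
    (hc : T.X x p y q = true)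
    (ju1 : T.X a p x q = false)
    (ju2 : T.X a q x p = false)
    (jv : T.X a x y p = false → T.X a y x p = false → False) : False := by
  have g8 := c5a_2085_2080 (h.four (.cons_cons _ (.cons_cons _ (.cons _ (.cons_cons _ (.cons_cons _ (List.nil_sublist _)))))))
  have g9 := c5a_2082_2082 (h.four (.cons_cons _ (.cons_cons _ (.cons_cons _ (.cons _ (.cons_cons _ (List.nil_sublist _)))))))
  have g10 := c5a_289_33 (h.four (.cons_cons _ (.cons_cons _ (.cons_cons _ (.cons_cons _ (List.nil_sublist _))))))
  have g11 := c5a_8585_8201 (h.four (.cons_cons _ (.cons_cons _ (.cons_cons _ (.cons_cons _ (List.nil_sublist _))))))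
  have s12 : T.X a x y q = false → T.X a q x y = false → False := fun n1 n2 => by
    exact g8 n1 n2 hxyr hyqr
  have s13 : T.X a y x p = true → False := fun n1 => by
    exact g9 n1 hxyr hypr
  have s14 : T.X a x y p = false → False := fun n1 => by
    have u1 : T.X a y x p = false := bf (fun t => s13 t)
    exact jv n1 u1
  have s15 : T.X a q x y = true → False := fun n1 => by
    have u1 : T.X a x y p = true := bt (fun t => s14 t)
    exact g10 u1 n1 ju2
  have s16 : T.X a x y q = false → False := fun n1 => by
    have u1 : T.X a q x y = false := bf (fun t => s15 t)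
    exact s12 n1 u1
  have u1 : T.X a x y p = true := bt (fun t => s14 t)
  have u2 : T.X a x y q = true := bt (fun t => s16 t)
  exact g11 u1 u2 ju1 ju2 hc

theorem f_grow_iso_59 {a x y p q w r : V} (h : T.RotL a [x, y, p, q, w, r])
    (hxyr : T.X a r x y = true)
    (hypr : T.X a r y p = true)
    (hyqr : T.X a r y q = true)
    (hc : T.X x p y q = true)
    (lxpw : T.X a w x p = false)
    (ju1 : T.X a x y q = false)
    (nyp : T.X a w y p = true) : False := by
  have g8 := c5a_2082_2082 (h.four (.cons_cons _ (.cons_cons _ (.cons_cons _ (.cons _ (.cons _ (.cons_cons _ (List.nil_sublist _))))))))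
  have g9 := c5a_2085_2080 (h.four (.cons_cons _ (.cons_cons _ (.cons _ (.cons_cons _ (.cons _ (.cons_cons _ (List.nil_sublist _))))))))
  have g10 := c5a_8230_8224 (h.four (.cons_cons _ (.cons_cons _ (.cons_cons _ (.cons_cons _ (List.nil_sublist _))))))
  have g11 := c5a_2308_2052 (h.four (.cons_cons _ (.cons_cons _ (.cons_cons _ (.cons _ (.cons_cons _ (List.nil_sublist _)))))))
  have s12 : T.X a y x p = true → False := fun n1 => by
    exact g8 n1 hxyr hypr
  have s13 : T.X a q x y = false → False := fun n1 => by
    exact g9 ju1 n1 hxyr hyqr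
  have s14 : T.X a p x y = false → False := fun n1 => by
    have u1 : T.X a y x p = false := bf (fun t => s12 t)
    have u2 : T.X a q x y = true := bt (fun t => s13 t)
    exact g10 u1 n1 u2 hc
  have u1 : T.X a p x y = true := bt (fun t => s14 t)
  exact g11 u1 lxpw nyp

theorem f_grow_iso_60 {a x y p q r w : V} (h : T.RotL a [x, y, p, q, r, w])
    (hxyr : T.X a r x y = true)
    (hypr : T.X a r y p = true)
    (hyqr : T.X a r y q = true)
    (hc : T.X x p y q = true)
    (lxpw : T.X a w x p = false)
    (ju1 : T.X a x y q = false)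
    (nyp : T.X a w y p = true) : False := by
  have g8 := c5a_2308_2052 (h.four (.cons_cons _ (.cons_cons _ (.cons_cons _ (.cons _ (.cons _ (.cons_cons _ (List.nil_sublist _))))))))
  have g9 := c5a_2085_2080 (h.four (.cons_cons _ (.cons_cons _ (.cons _ (.cons_cons _ (.cons_cons _ (List.nil_sublist _)))))))
  have g10 := c5a_8230_8224 (h.four (.cons_cons _ (.cons_cons _ (.cons_cons _ (.cons_cons _ (List.nil_sublist _))))))
  have g11 := c5a_2082_2082 (h.four (.cons_cons _ (.cons_cons _ (.cons_cons _ (.cons _ (.cons_cons _ (List.nil_sublist _)))))))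
  have s12 : T.X a p x y = true → False := fun n1 => by
    exact g8 n1 lxpw nyp
  have s13 : T.X a q x y = false → False := fun n1 => by
    exact g9 ju1 n1 hxyr hyqr
  have s14 : T.X a y x p = false → False := fun n1 => by
    have u1 : T.X a p x y = false := bf (fun t => s12 t)
    have u2 : T.X a q x y = true := bt (fun t => s13 t)
    exact g10 n1 u1 u2 hc
  have u1 : T.X a y x p = true := bt (fun t => s14 t)
  exact g11 u1 hxyr hypr

theorem f_grow_iso_61 {a x y p q r : V} (h : T.RotL a [x, y, p, q, r])
    (hxyr : T.X a r x y = true)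
    (hypr : T.X a r y p = true)
    (hyqr : T.X a r y q = true)
    (hpqr : T.X a r p q = true)
    (hc : T.X x p y q = true)
    (ju1 : T.X a x y q = false)
    (jv : T.X a p y q = false → T.X a q y p = false → False) : False := by
  have g8 := c5a_2085_2080 (h.four (.cons_cons _ (.cons_cons _ (.cons _ (.cons_cons _ (.cons_cons _ (List.nil_sublist _)))))))
  have g9 := c5a_2082_2082 (h.four (.cons _ (.cons_cons _ (.cons_cons _ (.cons_cons _ (.cons_cons _ (List.nil_sublist _)))))))
  have g10 := c5a_10272_10272 (h.four (.cons_cons _ (.cons_cons _ (.cons_cons _ (.cons_cons _ (List.nil_sublist _))))))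
  have s11 : T.X a q x y = false → False := fun n1 => by
    exact g8 ju1 n1 hxyr hyqr
  have s12 : T.X a p y q = true → False := fun n1 => by
    exact g9 n1 hypr hpqr
  have s13 : T.X a q y p = false → False := fun n1 => by
    have u1 : T.X a p y q = false := bf (fun t => s12 t)
    exact jv u1 n1
  have u1 : T.X a q x y = true := bt (fun t => s11 t)
  have u2 : T.X a q y p = true := bt (fun t => s13 t)
  exact g10 u1 u2 hc

theorem f_grow_iso_62 {a x y p q r : V} (h : T.RotL a [x, y, p, q, r])
    (hxyr : T.X a r x y = true)
    (hypr : T.X a r y p = true)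
    (hyqr : T.X a r y q = true)
    (hc : T.X x p y q = true)
    (ju1 : T.X a x y q = false)
    (jv : T.X a x y p = false → T.X a y x p = false → False) : False := by
  have g7 := c5a_2085_2080 (h.four (.cons_cons _ (.cons_cons _ (.cons _ (.cons_cons _ (.cons_cons _ (List.nil_sublist _)))))))
  have g8 := c5a_12288_12288 (h.four (.cons_cons _ (.cons_cons _ (.cons_cons _ (.cons_cons _ (List.nil_sublist _))))))
  have g9 := c5a_2082_2082 (h.four (.cons_cons _ (.cons_cons _ (.cons_cons _ (.cons _ (.cons_cons _ (List.nil_sublist _)))))))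
  have g10 := c5a_4129_33 (h.four (.cons_cons _ (.cons_cons _ (.cons_cons _ (.cons_cons _ (List.nil_sublist _))))))
  have s11 : T.X a q x y = false → False := fun n1 => by
    exact g7 ju1 n1 hxyr hyqr
  have s12 : T.X x y p q = true → False := fun n1 => by
    exact g8 n1 hc
  have s13 : T.X a y x p = true → False := fun n1 => by
    exact g9 n1 hxyr hypr
  have s14 : T.X a x y p = false → False := fun n1 => by
    have u1 : T.X a y x p = false := bf (fun t => s13 t)
    exact jv n1 u1
  have u1 : T.X a x y p = true := bt (fun t => s14 t)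
  have u2 : T.X a q x y = true := bt (fun t => s11 t)
  have u3 : T.X x y p q = false := bf (fun t => s12 t)
  exact g10 u1 u2 u3

theorem f_grow_anti_63 {a x y p q w o r : V} (h : T.RotL a [x, y, p, q, w, o, r])
    (hxyr : T.X a r x y = true)
    (hypr : T.X a r y p = true)
    (hc : T.X x q y p = true)
    (lxqw : T.X a w x q = false)
    (lypo : T.X a o y p = false)
    (nxp : T.X a o x p = true)
    (nyq : T.X a w y q = true) : False := by
  have g8 := c5a_2308_2052 (h.four (.cons_cons _ (.cons_cons _ (.cons _ (.cons_cons _ (.cons_cons _ (List.nil_sublist _)))))))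
  have g9 := c5a_16420_16388 (h.four (.cons_cons _ (.cons_cons _ (.cons_cons _ (.cons_cons _ (List.nil_sublist _))))))
  have g10 := c5a_2085_2080 (h.four (.cons_cons _ (.cons_cons _ (.cons_cons _ (.cons _ (.cons _ (.cons _ (.cons_cons _ (List.nil_sublist _)))))))))
  have g11 := c5a_2305_257 (h.four (.cons_cons _ (.cons_cons _ (.cons_cons _ (.cons _ (.cons _ (.cons_cons _ (List.nil_sublist _))))))))
  have s12 : T.X a q x y = true → False := fun n1 => by
    exact g8 n1 lxqw nyq
  have s13 : T.X a p x y = true → False := fun n1 => by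
    have u1 : T.X a q x y = false := bf (fun t => s12 t)
    exact g9 n1 u1 hc
  have s14 : T.X a x y p = false → False := fun n1 => by
    have u1 : T.X a p x y = false := bf (fun t => s13 t)
    exact g10 n1 u1 hxyr hypr
  have u1 : T.X a x y p = true := bt (fun t => s14 t)
  exact g11 u1 nxp lypo

theorem f_grow_anti_64 {a x y p q o r : V} (h : T.RotL a [x, y, p, q, o, r])
    (hxyr : T.X a r x y = true)
    (hypr : T.X a r y p = true)
    (hc : T.X x q y p = true)
    (lxqo : T.X a o x q = false)
    (lypo : T.X a o y p = false)
    (nxp : T.X a o x p = true)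
    (nyq : T.X a o y q = true) : False := by
  have g8 := c5a_2308_2052 (h.four (.cons_cons _ (.cons_cons _ (.cons _ (.cons_cons _ (.cons_cons _ (List.nil_sublist _)))))))
  have g9 := c5a_16420_16388 (h.four (.cons_cons _ (.cons_cons _ (.cons_cons _ (.cons_cons _ (List.nil_sublist _))))))
  have g10 := c5a_2085_2080 (h.four (.cons_cons _ (.cons_cons _ (.cons_cons _ (.cons _ (.cons _ (.cons_cons _ (List.nil_sublist _))))))))
  have g11 := c5a_2305_257 (h.four (.cons_cons _ (.cons_cons _ (.cons_cons _ (.cons _ (.cons_cons _ (List.nil_sublist _)))))))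
  have s12 : T.X a q x y = true → False := fun n1 => by
    exact g8 n1 lxqo nyq
  have s13 : T.X a p x y = true → False := fun n1 => by
    have u1 : T.X a q x y = false := bf (fun t => s12 t)
    exact g9 n1 u1 hc
  have s14 : T.X a x y p = false → False := fun n1 => by
    have u1 : T.X a p x y = false := bf (fun t => s13 t)
    exact g10 n1 u1 hxyr hypr
  have u1 : T.X a x y p = true := bt (fun t => s14 t)
  exact g11 u1 nxp lypo

theorem f_grow_anti_65 {a x y p q o w r : V} (h : T.RotL a [x, y, p, q, o, w, r])
    (hxyr : T.X a r x y = true)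
    (hypr : T.X a r y p = true)
    (hc : T.X x q y p = true)
    (lxqw : T.X a w x q = false)
    (lypo : T.X a o y p = false)
    (nxp : T.X a o x p = true)
    (nyq : T.X a w y q = true) : False := by
  have g8 := c5a_2308_2052 (h.four (.cons_cons _ (.cons_cons _ (.cons _ (.cons_cons _ (.cons _ (.cons_cons _ (List.nil_sublist _))))))))
  have g9 := c5a_16420_16388 (h.four (.cons_cons _ (.cons_cons _ (.cons_cons _ (.cons_cons _ (List.nil_sublist _))))))
  have g10 := c5a_2085_2080 (h.four (.cons_cons _ (.cons_cons _ (.cons_cons _ (.cons _ (.cons _ (.cons _ (.cons_cons _ (List.nil_sublist _)))))))))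
  have g11 := c5a_2305_257 (h.four (.cons_cons _ (.cons_cons _ (.cons_cons _ (.cons _ (.cons_cons _ (List.nil_sublist _)))))))
  have s12 : T.X a q x y = true → False := fun n1 => by
    exact g8 n1 lxqw nyq
  have s13 : T.X a p x y = true → False := fun n1 => by
    have u1 : T.X a q x y = false := bf (fun t => s12 t)
    exact g9 n1 u1 hc
  have s14 : T.X a x y p = false → False := fun n1 => by
    have u1 : T.X a p x y = false := bf (fun t => s13 t)
    exact g10 n1 u1 hxyr hypr
  have u1 : T.X a x y p = true := bt (fun t => s14 t)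
  exact g11 u1 nxp lypo

theorem f_grow_anti_66 {a x y p q o r w : V} (h : T.RotL a [x, y, p, q, o, r, w])
    (hxyr : T.X a r x y = true)
    (hypr : T.X a r y p = true)
    (hc : T.X x q y p = true)
    (lxqw : T.X a w x q = false)
    (lypo : T.X a o y p = false)
    (nxp : T.X a o x p = true)
    (nyq : T.X a w y q = true) : False := by
  have g8 := c5a_2308_2052 (h.four (.cons_cons _ (.cons_cons _ (.cons _ (.cons_cons _ (.cons _ (.cons _ (.cons_cons _ (List.nil_sublist _)))))))))
  have g9 := c5a_16420_16388 (h.four (.cons_cons _ (.cons_cons _ (.cons_cons _ (.cons_cons _ (List.nil_sublist _))))))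
  have g10 := c5a_2085_2080 (h.four (.cons_cons _ (.cons_cons _ (.cons_cons _ (.cons _ (.cons _ (.cons_cons _ (List.nil_sublist _))))))))
  have g11 := c5a_2305_257 (h.four (.cons_cons _ (.cons_cons _ (.cons_cons _ (.cons _ (.cons_cons _ (List.nil_sublist _)))))))
  have s12 : T.X a q x y = true → False := fun n1 => by
    exact g8 n1 lxqw nyq
  have s13 : T.X a p x y = true → False := fun n1 => by
    have u1 : T.X a q x y = false := bf (fun t => s12 t)
    exact g9 n1 u1 hc
  have s14 : T.X a x y p = false → False := fun n1 => by
    have u1 : T.X a p x y = false := bf (fun t => s13 t)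
    exact g10 n1 u1 hxyr hypr
  have u1 : T.X a x y p = true := bt (fun t => s14 t)
  exact g11 u1 nxp lypo

theorem f_grow_anti_67 {a x y p q w r o : V} (h : T.RotL a [x, y, p, q, w, r, o])
    (hxyr : T.X a r x y = true)
    (hypr : T.X a r y p = true)
    (hc : T.X x q y p = true)
    (lxqw : T.X a w x q = false)
    (lypo : T.X a o y p = false)
    (nxp : T.X a o x p = true)
    (nyq : T.X a w y q = true) : False := by
  have g8 := c5a_2305_257 (h.four (.cons_cons _ (.cons_cons _ (.cons_cons _ (.cons _ (.cons _ (.cons _ (.cons_cons _ (List.nil_sublist _)))))))))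
  have g9 := c5a_2085_2080 (h.four (.cons_cons _ (.cons_cons _ (.cons_cons _ (.cons _ (.cons _ (.cons_cons _ (List.nil_sublist _))))))))
  have g10 := c5a_16420_16388 (h.four (.cons_cons _ (.cons_cons _ (.cons_cons _ (.cons_cons _ (List.nil_sublist _))))))
  have g11 := c5a_2308_2052 (h.four (.cons_cons _ (.cons_cons _ (.cons _ (.cons_cons _ (.cons_cons _ (List.nil_sublist _)))))))
  have s12 : T.X a x y p = true → False := fun n1 => by
    exact g8 n1 nxp lypo
  have s13 : T.X a p x y = false → False := fun n1 => by
    have u1 : T.X a x y p = false := bf (fun t => s12 t)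
    exact g9 u1 n1 hxyr hypr
  have s14 : T.X a q x y = false → False := fun n1 => by
    have u1 : T.X a p x y = true := bt (fun t => s13 t)
    exact g10 u1 n1 hc
  have u1 : T.X a q x y = true := bt (fun t => s14 t)
  exact g11 u1 lxqw nyq

theorem f_grow_anti_68 {a x y p q r w o : V} (h : T.RotL a [x, y, p, q, r, w, o])
    (hxyr : T.X a r x y = true)
    (hypr : T.X a r y p = true)
    (hc : T.X x q y p = true)
    (lxqw : T.X a w x q = false)
    (lypo : T.X a o y p = false)
    (nxp : T.X a o x p = true)
    (nyq : T.X a w y q = true) : False := by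
  have g8 := c5a_2305_257 (h.four (.cons_cons _ (.cons_cons _ (.cons_cons _ (.cons _ (.cons _ (.cons _ (.cons_cons _ (List.nil_sublist _)))))))))
  have g9 := c5a_2085_2080 (h.four (.cons_cons _ (.cons_cons _ (.cons_cons _ (.cons _ (.cons_cons _ (List.nil_sublist _)))))))
  have g10 := c5a_16420_16388 (h.four (.cons_cons _ (.cons_cons _ (.cons_cons _ (.cons_cons _ (List.nil_sublist _))))))
  have g11 := c5a_2308_2052 (h.four (.cons_cons _ (.cons_cons _ (.cons _ (.cons_cons _ (.cons _ (.cons_cons _ (List.nil_sublist _))))))))
  have s12 : T.X a x y p = true → False := fun n1 => by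
    exact g8 n1 nxp lypo
  have s13 : T.X a p x y = false → False := fun n1 => by
    have u1 : T.X a x y p = false := bf (fun t => s12 t)
    exact g9 u1 n1 hxyr hypr
  have s14 : T.X a q x y = false → False := fun n1 => by
    have u1 : T.X a p x y = true := bt (fun t => s13 t)
    exact g10 u1 n1 hc
  have u1 : T.X a q x y = true := bt (fun t => s14 t)
  exact g11 u1 lxqw nyq

theorem f_grow_anti_69 {a x y p q r o : V} (h : T.RotL a [x, y, p, q, r, o])
    (hxyr : T.X a r x y = true)
    (hypr : T.X a r y p = true)
    (hc : T.X x q y p = true)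
    (lxqo : T.X a o x q = false)
    (lypo : T.X a o y p = false)
    (nxp : T.X a o x p = true)
    (nyq : T.X a o y q = true) : False := by
  have g8 := c5a_2305_257 (h.four (.cons_cons _ (.cons_cons _ (.cons_cons _ (.cons _ (.cons _ (.cons_cons _ (List.nil_sublist _))))))))
  have g9 := c5a_2085_2080 (h.four (.cons_cons _ (.cons_cons _ (.cons_cons _ (.cons _ (.cons_cons _ (List.nil_sublist _)))))))
  have g10 := c5a_16420_16388 (h.four (.cons_cons _ (.cons_cons _ (.cons_cons _ (.cons_cons _ (List.nil_sublist _))))))
  have g11 := c5a_2308_2052 (h.four (.cons_cons _ (.cons_cons _ (.cons _ (.cons_cons _ (.cons _ (.cons_cons _ (List.nil_sublist _))))))))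
  have s12 : T.X a x y p = true → False := fun n1 => by
    exact g8 n1 nxp lypo
  have s13 : T.X a p x y = false → False := fun n1 => by
    have u1 : T.X a x y p = false := bf (fun t => s12 t)
    exact g9 u1 n1 hxyr hypr
  have s14 : T.X a q x y = false → False := fun n1 => by
    have u1 : T.X a p x y = true := bt (fun t => s13 t)
    exact g10 u1 n1 hc
  have u1 : T.X a q x y = true := bt (fun t => s14 t)
  exact g11 u1 lxqo nyq

theorem f_grow_anti_70 {a x y p q r o w : V} (h : T.RotL a [x, y, p, q, r, o, w])
    (hxyr : T.X a r x y = true)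
    (hypr : T.X a r y p = true)
    (hc : T.X x q y p = true)
    (lxqw : T.X a w x q = false)
    (lypo : T.X a o y p = false)
    (nxp : T.X a o x p = true)
    (nyq : T.X a w y q = true) : False := by
  have g8 := c5a_2305_257 (h.four (.cons_cons _ (.cons_cons _ (.cons_cons _ (.cons _ (.cons _ (.cons_cons _ (List.nil_sublist _))))))))
  have g9 := c5a_2085_2080 (h.four (.cons_cons _ (.cons_cons _ (.cons_cons _ (.cons _ (.cons_cons _ (List.nil_sublist _)))))))
  have g10 := c5a_16420_16388 (h.four (.cons_cons _ (.cons_cons _ (.cons_cons _ (.cons_cons _ (List.nil_sublist _))))))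
  have g11 := c5a_2308_2052 (h.four (.cons_cons _ (.cons_cons _ (.cons _ (.cons_cons _ (.cons _ (.cons _ (.cons_cons _ (List.nil_sublist _)))))))))
  have s12 : T.X a x y p = true → False := fun n1 => by
    exact g8 n1 nxp lypo
  have s13 : T.X a p x y = false → False := fun n1 => by
    have u1 : T.X a x y p = false := bf (fun t => s12 t)
    exact g9 u1 n1 hxyr hypr
  have s14 : T.X a q x y = false → False := fun n1 => by
    have u1 : T.X a p x y = true := bt (fun t => s13 t)
    exact g10 u1 n1 hc
  have u1 : T.X a q x y = true := bt (fun t => s14 t)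
  exact g11 u1 lxqw nyq

theorem f_grow_anti_71 {a x y p q o r : V} (h : T.RotL a [x, y, p, q, o, r])
    (hxyr : T.X a r x y = true)
    (hypr : T.X a r y p = true)
    (hc : T.X x q y p = true)
    (lypo : T.X a o y p = false)
    (nxp : T.X a o x p = true)
    (jv1 : T.X a p y q = false)
    (jv2 : T.X a q y p = false) : False := by
  have g8 := c5a_19460_16388 (h.four (.cons_cons _ (.cons_cons _ (.cons_cons _ (.cons_cons _ (List.nil_sublist _))))))
  have g9 := c5a_2085_2080 (h.four (.cons_cons _ (.cons_cons _ (.cons_cons _ (.cons _ (.cons _ (.cons_cons _ (List.nil_sublist _))))))))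
  have g10 := c5a_2305_257 (h.four (.cons_cons _ (.cons_cons _ (.cons_cons _ (.cons _ (.cons_cons _ (List.nil_sublist _)))))))
  have s11 : T.X a p x y = true → False := fun n1 => by
    exact g8 n1 jv1 jv2 hc
  have s12 : T.X a x y p = false → False := fun n1 => by
    have u1 : T.X a p x y = false := bf (fun t => s11 t)
    exact g9 n1 u1 hxyr hypr
  have u1 : T.X a x y p = true := bt (fun t => s12 t)
  exact g10 u1 nxp lypo

theorem f_grow_anti_72 {a x y p q r o : V} (h : T.RotL a [x, y, p, q, r, o])
    (hxyr : T.X a r x y = true)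
    (hypr : T.X a r y p = true)
    (hc : T.X x q y p = true)
    (lypo : T.X a o y p = false)
    (nxp : T.X a o x p = true)
    (jv1 : T.X a p y q = false)
    (jv2 : T.X a q y p = false) : False := by
  have g8 := c5a_19460_16388 (h.four (.cons_cons _ (.cons_cons _ (.cons_cons _ (.cons_cons _ (List.nil_sublist _))))))
  have g9 := c5a_2305_257 (h.four (.cons_cons _ (.cons_cons _ (.cons_cons _ (.cons _ (.cons _ (.cons_cons _ (List.nil_sublist _))))))))
  have g10 := c5a_2085_2080 (h.four (.cons_cons _ (.cons_cons _ (.cons_cons _ (.cons _ (.cons_cons _ (List.nil_sublist _)))))))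
  have s11 : T.X a p x y = true → False := fun n1 => by
    exact g8 n1 jv1 jv2 hc
  have s12 : T.X a x y p = true → False := fun n1 => by
    exact g9 n1 nxp lypo
  have u1 : T.X a x y p = false := bf (fun t => s12 t)
  have u2 : T.X a p x y = false := bf (fun t => s11 t)
  exact g10 u1 u2 hxyr hypr

theorem f_grow_anti_73 {a x y p q o r : V} (h : T.RotL a [x, y, p, q, o, r])
    (hxyr : T.X a r x y = true)
    (hypr : T.X a r y p = true)
    (hc : T.X x q y p = true)
    (lypo : T.X a o y p = false)
    (nxp : T.X a o x p = true)
    (jv : T.X a x y q = false → T.X a y x q = false → False) : False := by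
  have g7 := c5a_20480_20480 (h.four (.cons_cons _ (.cons_cons _ (.cons_cons _ (.cons_cons _ (List.nil_sublist _))))))
  have g8 := c5a_2305_257 (h.four (.cons_cons _ (.cons_cons _ (.cons_cons _ (.cons _ (.cons_cons _ (List.nil_sublist _)))))))
  have g9 := c5a_2085_2080 (h.four (.cons_cons _ (.cons_cons _ (.cons_cons _ (.cons _ (.cons _ (.cons_cons _ (List.nil_sublist _))))))))
  have g10 := c5a_16396_16396 (h.four (.cons_cons _ (.cons_cons _ (.cons_cons _ (.cons_cons _ (List.nil_sublist _))))))
  have g11 := c5a_4116_20 (h.four (.cons_cons _ (.cons_cons _ (.cons_cons _ (.cons_cons _ (List.nil_sublist _))))))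
  have s12 : T.X x y p q = true → False := fun n1 => by
    exact g7 n1 hc
  have s13 : T.X a x y p = true → False := fun n1 => by
    exact g8 n1 nxp lypo
  have s14 : T.X a p x y = false → False := fun n1 => by
    have u1 : T.X a x y p = false := bf (fun t => s13 t)
    exact g9 u1 n1 hxyr hypr
  have s15 : T.X a x y q = true → False := fun n1 => by
    have u1 : T.X a p x y = true := bt (fun t => s14 t)
    exact g10 u1 n1 hc
  have s16 : T.X a y x q = false → False := fun n1 => by
    have u1 : T.X a x y q = false := bf (fun t => s15 t)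
    exact jv u1 n1
  have u1 : T.X a p x y = true := bt (fun t => s14 t)
  have u2 : T.X a y x q = true := bt (fun t => s16 t)
  have u3 : T.X x y p q = false := bf (fun t => s12 t)
  exact g11 u1 u2 u3

theorem f_grow_anti_74 {a x y p q r o : V} (h : T.RotL a [x, y, p, q, r, o])
    (hxyr : T.X a r x y = true)
    (hypr : T.X a r y p = true)
    (hc : T.X x q y p = true)
    (lypo : T.X a o y p = false)
    (nxp : T.X a o x p = true)
    (jv : T.X a x y q = false → T.X a y x q = false → False) : False := by
  have g7 := c5a_2305_257 (h.four (.cons_cons _ (.cons_cons _ (.cons_cons _ (.cons _ (.cons _ (.cons_cons _ (List.nil_sublist _))))))))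
  have g8 := c5a_2085_2080 (h.four (.cons_cons _ (.cons_cons _ (.cons_cons _ (.cons _ (.cons_cons _ (List.nil_sublist _)))))))
  have g9 := c5a_20480_20480 (h.four (.cons_cons _ (.cons_cons _ (.cons_cons _ (.cons_cons _ (List.nil_sublist _))))))
  have g10 := c5a_16396_16396 (h.four (.cons_cons _ (.cons_cons _ (.cons_cons _ (.cons_cons _ (List.nil_sublist _))))))
  have g11 := c5a_4116_20 (h.four (.cons_cons _ (.cons_cons _ (.cons_cons _ (.cons_cons _ (List.nil_sublist _))))))
  have s12 : T.X a x y p = true → False := fun n1 => by
    exact g7 n1 nxp lypo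
  have s13 : T.X a p x y = false → False := fun n1 => by
    have u1 : T.X a x y p = false := bf (fun t => s12 t)
    exact g8 u1 n1 hxyr hypr
  have s14 : T.X x y p q = true → False := fun n1 => by
    exact g9 n1 hc
  have s15 : T.X a x y q = true → False := fun n1 => by
    have u1 : T.X a p x y = true := bt (fun t => s13 t)
    exact g10 u1 n1 hc
  have s16 : T.X a y x q = false → False := fun n1 => by
    have u1 : T.X a x y q = false := bf (fun t => s15 t)
    exact jv u1 n1
  have u1 : T.X a p x y = true := bt (fun t => s13 t)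
  have u2 : T.X a y x q = true := bt (fun t => s16 t)
  have u3 : T.X x y p q = false := bf (fun t => s14 t)
  exact g11 u1 u2 u3

theorem f_grow_anti_75 {a x y p q w r : V} (h : T.RotL a [x, y, p, q, w, r])
    (hxyr : T.X a r x y = true)
    (hxpr : T.X a r x p = true)
    (hypr : T.X a r y p = true)
    (hyqr : T.X a r y q = true)
    (hpqr : T.X a r p q = true)
    (hc : T.X x q y p = true)
    (lxqw : T.X a w x q = false)
    (ju : T.X a p x q = false → T.X a q x p = false → False)
    (nyq : T.X a w y q = true) : False := by
  have g10 := c5a_2308_2052 (h.four (.cons_cons _ (.cons_cons _ (.cons _ (.cons_cons _ (.cons_cons _ (List.nil_sublist _)))))))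
  have g11 := c5a_2082_2082 (h.four (.cons_cons _ (.cons _ (.cons_cons _ (.cons_cons _ (.cons _ (.cons_cons _ (List.nil_sublist _))))))))
  have g12 := c5a_2082_2082 (h.four (.cons_cons _ (.cons_cons _ (.cons _ (.cons_cons _ (.cons _ (.cons_cons _ (List.nil_sublist _))))))))
  have g13 := c5a_16420_16388 (h.four (.cons_cons _ (.cons_cons _ (.cons_cons _ (.cons_cons _ (List.nil_sublist _))))))
  have g14 := c5a_2085_2080 (h.four (.cons_cons _ (.cons_cons _ (.cons_cons _ (.cons _ (.cons _ (.cons_cons _ (List.nil_sublist _))))))))
  have g15 := c5a_16657_16641 (h.four (.cons_cons _ (.cons_cons _ (.cons_cons _ (.cons_cons _ (List.nil_sublist _))))))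
  have s16 : T.X a q x y = true → False := fun n1 => by
    exact g10 n1 lxqw nyq
  have s17 : T.X a p x q = true → False := fun n1 => by
    exact g11 n1 hxpr hpqr
  have s18 : T.X a q x p = false → False := fun n1 => by
    have u1 : T.X a p x q = false := bf (fun t => s17 t)
    exact ju u1 n1
  have s19 : T.X a y x q = true → False := fun n1 => by
    exact g12 n1 hxyr hyqr
  have s20 : T.X a p x y = true → False := fun n1 => by
    have u1 : T.X a q x y = false := bf (fun t => s16 t)
    exact g13 n1 u1 hc
  have s21 : T.X a x y p = false → False := fun n1 => by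
    have u1 : T.X a p x y = false := bf (fun t => s20 t)
    exact g14 n1 u1 hxyr hypr
  have u1 : T.X a x y p = true := bt (fun t => s21 t)
  have u2 : T.X a y x q = false := bf (fun t => s19 t)
  have u3 : T.X a q x p = true := bt (fun t => s18 t)
  exact g15 u1 u2 u3 hc

theorem f_grow_anti_76 {a x y p q r w : V} (h : T.RotL a [x, y, p, q, r, w])
    (hxyr : T.X a r x y = true)
    (hxpr : T.X a r x p = true)
    (hyqr : T.X a r y q = true)
    (hpqr : T.X a r p q = true)
    (hc : T.X x q y p = true)
    (lxqw : T.X a w x q = false)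
    (ju : T.X a p x q = false → T.X a q x p = false → False)
    (nyq : T.X a w y q = true) : False := by
  have g9 := c5a_8456_264 (h.four (.cons_cons _ (.cons_cons _ (.cons_cons _ (.cons_cons _ (List.nil_sublist _))))))
  have g10 := c5a_2308_2052 (h.four (.cons_cons _ (.cons_cons _ (.cons _ (.cons_cons _ (.cons _ (.cons_cons _ (List.nil_sublist _))))))))
  have g11 := c5a_2082_2082 (h.four (.cons_cons _ (.cons _ (.cons_cons _ (.cons_cons _ (.cons_cons _ (List.nil_sublist _)))))))
  have g12 := c5a_2085_2080 (h.four (.cons_cons _ (.cons_cons _ (.cons _ (.cons_cons _ (.cons_cons _ (List.nil_sublist _)))))))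
  have g13 := c5a_24576_24576 (h.four (.cons_cons _ (.cons_cons _ (.cons_cons _ (.cons_cons _ (List.nil_sublist _))))))
  have s14 : T.X a q x y = true → False := fun n1 => by
    exact g10 n1 lxqw nyq
  have s15 : T.X a p x q = true → False := fun n1 => by
    exact g11 n1 hxpr hpqr
  have s16 : T.X a q x p = false → False := fun n1 => by
    have u1 : T.X a p x q = false := bf (fun t => s15 t)
    exact ju u1 n1
  have s17 : T.X a x y q = false → False := fun n1 => by
    have u1 : T.X a q x y = false := bf (fun t => s14 t)
    exact g12 n1 u1 hxyr hyqr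
  have s18 : T.X x p y q = false → False := fun n1 => by
    have u1 : T.X a x y q = true := bt (fun t => s17 t)
    have u2 : T.X a q x p = true := bt (fun t => s16 t)
    exact g9 u1 u2 n1
  have u1 : T.X x p y q = true := bt (fun t => s18 t)
  exact g13 u1 hc

theorem f_grow_anti_77 {a x y p q r : V} (h : T.RotL a [x, y, p, q, r])
    (hxyr : T.X a r x y = true)
    (hypr : T.X a r y p = true)
    (hc : T.X x q y p = true)
    (ju : T.X a p x q = false → T.X a q x p = false → False)
    (jv1 : T.X a p y q = false)
    (jv2 : T.X a q y p = false) : False := by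
  have g7 := c5a_19460_16388 (h.four (.cons_cons _ (.cons_cons _ (.cons_cons _ (.cons_cons _ (List.nil_sublist _))))))
  have g8 := c5a_2085_2080 (h.four (.cons_cons _ (.cons_cons _ (.cons_cons _ (.cons _ (.cons_cons _ (List.nil_sublist _)))))))
  have g9 := c5a_19585_16513 (h.four (.cons_cons _ (.cons_cons _ (.cons_cons _ (.cons_cons _ (List.nil_sublist _))))))
  have g10 := c5a_2305_257 (h.four (.cons_cons _ (.cons_cons _ (.cons_cons _ (.cons_cons _ (List.nil_sublist _))))))
  have s11 : T.X a p x y = true → False := fun n1 => by
    exact g7 n1 jv1 jv2 hc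
  have s12 : T.X a x y p = false → False := fun n1 => by
    have u1 : T.X a p x y = false := bf (fun t => s11 t)
    exact g8 n1 u1 hxyr hypr
  have s13 : T.X a p x q = true → False := fun n1 => by
    have u1 : T.X a x y p = true := bt (fun t => s12 t)
    exact g9 u1 n1 jv1 jv2 hc
  have s14 : T.X a q x p = false → False := fun n1 => by
    have u1 : T.X a p x q = false := bf (fun t => s13 t)
    exact ju u1 n1
  have u1 : T.X a x y p = true := bt (fun t => s12 t)
  have u2 : T.X a q x p = true := bt (fun t => s14 t)
  exact g10 u1 u2 jv2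

theorem f_grow_anti_78 {a x y p q r : V} (h : T.RotL a [x, y, p, q, r])
    (hxyr : T.X a r x y = true)
    (hxpr : T.X a r x p = true)
    (hyqr : T.X a r y q = true)
    (hpqr : T.X a r p q = true)
    (hc : T.X x q y p = true)
    (ju : T.X a p x q = false → T.X a q x p = false → False)
    (jv : T.X a x y q = false → T.X a y x q = false → False) : False := by
  have g8 := c5a_2082_2082 (h.four (.cons_cons _ (.cons _ (.cons_cons _ (.cons_cons _ (.cons_cons _ (List.nil_sublist _)))))))
  have g9 := c5a_24576_24576 (h.four (.cons_cons _ (.cons_cons _ (.cons_cons _ (.cons_cons _ (List.nil_sublist _))))))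
  have g10 := c5a_2082_2082 (h.four (.cons_cons _ (.cons_cons _ (.cons _ (.cons_cons _ (.cons_cons _ (List.nil_sublist _)))))))
  have g11 := c5a_8456_264 (h.four (.cons_cons _ (.cons_cons _ (.cons_cons _ (.cons_cons _ (List.nil_sublist _))))))
  have s12 : T.X a p x q = true → False := fun n1 => by
    exact g8 n1 hxpr hpqr
  have s13 : T.X a q x p = false → False := fun n1 => by
    have u1 : T.X a p x q = false := bf (fun t => s12 t)
    exact ju u1 n1
  have s14 : T.X x p y q = true → False := fun n1 => by
    exact g9 n1 hc
  have s15 : T.X a y x q = true → False := fun n1 => by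
    exact g10 n1 hxyr hyqr
  have s16 : T.X a x y q = false → False := fun n1 => by
    have u1 : T.X a y x q = false := bf (fun t => s15 t)
    exact jv n1 u1
  have u1 : T.X a x y q = true := bt (fun t => s16 t)
  have u2 : T.X a q x p = true := bt (fun t => s13 t)
  have u3 : T.X x p y q = false := bf (fun t => s14 t)
  exact g11 u1 u2 u3

theorem f_grow_anti_79 {a x y p q w r : V} (h : T.RotL a [x, y, p, q, w, r])
    (hxyr : T.X a r x y = true)
    (hypr : T.X a r y p = true)
    (hc : T.X x q y p = true)
    (lxqw : T.X a w x q = false)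
    (ju1 : T.X a x y p = false)
    (nyq : T.X a w y q = true) : False := by
  have g7 := c5a_2085_2080 (h.four (.cons_cons _ (.cons_cons _ (.cons_cons _ (.cons _ (.cons _ (.cons_cons _ (List.nil_sublist _))))))))
  have g8 := c5a_2308_2052 (h.four (.cons_cons _ (.cons_cons _ (.cons _ (.cons_cons _ (.cons_cons _ (List.nil_sublist _)))))))
  have g9 := c5a_16420_16388 (h.four (.cons_cons _ (.cons_cons _ (.cons_cons _ (.cons_cons _ (List.nil_sublist _))))))
  have s10 : T.X a p x y = false → False := fun n1 => by
    exact g7 ju1 n1 hxyr hypr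
  have s11 : T.X a q x y = true → False := fun n1 => by
    exact g8 n1 lxqw nyq
  have u1 : T.X a p x y = true := bt (fun t => s10 t)
  have u2 : T.X a q x y = false := bf (fun t => s11 t)
  exact g9 u1 u2 hc

theorem f_grow_anti_80 {a x y p q r w : V} (h : T.RotL a [x, y, p, q, r, w])
    (hxyr : T.X a r x y = true)
    (hypr : T.X a r y p = true)
    (hc : T.X x q y p = true)
    (lxqw : T.X a w x q = false)
    (ju1 : T.X a x y p = false)
    (nyq : T.X a w y q = true) : False := by
  have g7 := c5a_2085_2080 (h.four (.cons_cons _ (.cons_cons _ (.cons_cons _ (.cons _ (.cons_cons _ (List.nil_sublist _)))))))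
  have g8 := c5a_2308_2052 (h.four (.cons_cons _ (.cons_cons _ (.cons _ (.cons_cons _ (.cons _ (.cons_cons _ (List.nil_sublist _))))))))
  have g9 := c5a_16420_16388 (h.four (.cons_cons _ (.cons_cons _ (.cons_cons _ (.cons_cons _ (List.nil_sublist _))))))
  have s10 : T.X a p x y = false → False := fun n1 => by
    exact g7 ju1 n1 hxyr hypr
  have s11 : T.X a q x y = true → False := fun n1 => by
    exact g8 n1 lxqw nyq
  have u1 : T.X a p x y = true := bt (fun t => s10 t)
  have u2 : T.X a q x y = false := bf (fun t => s11 t)
  exact g9 u1 u2 hc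

theorem f_grow_anti_81 {a x y p q r : V} (h : T.RotL a [x, y, p, q, r])
    (hxyr : T.X a r x y = true)
    (hypr : T.X a r y p = true)
    (hc : T.X x q y p = true)
    (ju1 : T.X a x y p = false)
    (jv1 : T.X a p y q = false)
    (jv2 : T.X a q y p = false) : False := by
  have g7 := c5a_2085_2080 (h.four (.cons_cons _ (.cons_cons _ (.cons_cons _ (.cons _ (.cons_cons _ (List.nil_sublist _)))))))
  have g8 := c5a_19460_16388 (h.four (.cons_cons _ (.cons_cons _ (.cons_cons _ (.cons_cons _ (List.nil_sublist _))))))
  have s9 : T.X a p x y = false → False := fun n1 => by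
    exact g7 ju1 n1 hxyr hypr
  have u1 : T.X a p x y = true := bt (fun t => s9 t)
  exact g8 u1 jv1 jv2 hc

theorem f_grow_anti_82 {a x y p q r : V} (h : T.RotL a [x, y, p, q, r])
    (hxyr : T.X a r x y = true)
    (hypr : T.X a r y p = true)
    (hc : T.X x q y p = true)
    (ju1 : T.X a x y p = false)
    (jv : T.X a x y q = false → T.X a y x q = false → False) : False := by
  have g6 := c5a_2085_2080 (h.four (.cons_cons _ (.cons_cons _ (.cons_cons _ (.cons _ (.cons_cons _ (List.nil_sublist _)))))))
  have g7 := c5a_20480_20480 (h.four (.cons_cons _ (.cons_cons _ (.cons_cons _ (.cons_cons _ (List.nil_sublist _))))))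
  have g8 := c5a_16396_16396 (h.four (.cons_cons _ (.cons_cons _ (.cons_cons _ (.cons_cons _ (List.nil_sublist _))))))
  have g9 := c5a_4116_20 (h.four (.cons_cons _ (.cons_cons _ (.cons_cons _ (.cons_cons _ (List.nil_sublist _))))))
  have s10 : T.X a p x y = false → False := fun n1 => by
    exact g6 ju1 n1 hxyr hypr
  have s11 : T.X x y p q = true → False := fun n1 => by
    exact g7 n1 hc
  have s12 : T.X a x y q = true → False := fun n1 => by
    have u1 : T.X a p x y = true := bt (fun t => s10 t)
    exact g8 u1 n1 hc
  have s13 : T.X a y x q = false → False := fun n1 => by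
    have u1 : T.X a x y q = false := bf (fun t => s12 t)
    exact jv u1 n1
  have u1 : T.X a p x y = true := bt (fun t => s10 t)
  have u2 : T.X a y x q = true := bt (fun t => s13 t)
  have u3 : T.X x y p q = false := bf (fun t => s11 t)
  exact g9 u1 u2 u3

end H53P
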