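import Pool.Agent.Lib.H98S.CL1
import Pool.Agent.Lib.H98S.CL2
import Pool.Agent.Lib.H98S.Ord

/-! # H98S, finite facts, file SN: separation, order, preferences (generated) -/

set_option linter.unusedVariables false

namespace H53P

variable {V : Type*} {T : Table V}

theorem local5 {a p q r s : V} (h : T.RotL a [p, q, r, s])
    (h1 : T.X a r p q = false)
    (h2 : T.X a s p q = false)
    (h3 : T.X a p r s = false)
    (h4 : T.X a q r s = false)
    (h5 : T.X p q r s = true) : False := by
  have g6 := c5a_4642_4098 (h.four (.cons_cons _ (.cons_cons _ (.cons_cons _ (.cons_cons _ (List.nil_sublist _))))))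
  have g7 := c5a_4422_4096 (h.four (.cons_cons _ (.cons_cons _ (.cons_cons _ (.cons_cons _ (List.nil_sublist _))))))
  have g8 := c5a_4896_4352 (h.four (.cons_cons _ (.cons_cons _ (.cons_cons _ (.cons_cons _ (List.nil_sublist _))))))
  have s9 : T.X a q p r = true → False := fun n1 => by
    exact g6 n1 h2 h4 h5
  have s10 : T.X a s p r = false → False := fun n1 => by
    have u1 : T.X a q p r = false := bf (fun t => s9 t)
    exact g7 u1 h1 h3 n1 h5
  have u2 : T.X a s p r = true := bt (fun t => s10 t)
  exact g8 h2 u2 h4 h5

theorem sep_a {a x y p q o : V} (h : T.RotL a [x, y, p, q, o])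
    (h1 : T.X x y p q = true)
    (h2 : T.X a o x y = false)
    (h3 : T.X a o p q = false)
    (h4 : T.X a o x p = true)
    (h5 : T.X a q x p = false) : False := by
  have g6 := c5a_2081_33 (h.four (.cons _ (.cons_cons _ (.cons_cons _ (.cons_cons _ (.cons_cons _ (List.nil_sublist _)))))))
  have g7 := c5a_148_20 (h.four (.cons_cons _ (.cons_cons _ (.cons _ (.cons_cons _ (.cons_cons _ (List.nil_sublist _)))))))
  have g8 := c5a_2081_33 (h.four (.cons_cons _ (.cons _ (.cons_cons _ (.cons_cons _ (.cons_cons _ (List.nil_sublist _)))))))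
  have g9 := c5a_4422_4096 (h.four (.cons_cons _ (.cons_cons _ (.cons_cons _ (.cons_cons _ (List.nil_sublist _))))))
  have g10 := c5a_292_260 (h.four (.cons_cons _ (.cons_cons _ (.cons_cons _ (.cons _ (.cons_cons _ (List.nil_sublist _)))))))
  have g11 := c5a_2338_258 (h.four (.cons_cons _ (.cons_cons _ (.cons_cons _ (.cons _ (.cons_cons _ (List.nil_sublist _)))))))
  have g12 := c5a_306_258 (h.four (.cons_cons _ (.cons_cons _ (.cons_cons _ (.cons _ (.cons_cons _ (List.nil_sublist _)))))))
  have g13 := c5a_4642_4098 (h.four (.cons_cons _ (.cons_cons _ (.cons_cons _ (.cons_cons _ (List.nil_sublist _))))))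
  have g14 := c5a_164_160 (h.four (.cons_cons _ (.cons _ (.cons_cons _ (.cons_cons _ (.cons_cons _ (List.nil_sublist _)))))))
  have s15 : T.X a y p q = true → T.X a o y p = true → False := fun n1 n2 => by
    exact g6 n1 n2 h3
  have s16 : T.X a x p q = true → False := fun n1 => by
    exact g8 n1 h4 h3
  have s17 : T.X a y x p = false → T.X a p x y = false → False := fun n1 n2 => by
    have u1 : T.X a x p q = false := bf (fun t => s16 t)
    exact g9 n1 n2 u1 h5 h1
  have s18 : T.X a p x y = true → False := fun n1 => by
    exact g10 n1 h2 h4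
  have s19 : T.X a y x p = false → False := fun n1 => by
    have u1 : T.X a p x y = false := bf (fun t => s18 t)
    exact s17 n1 u1
  have s20 : T.X a o y p = false → False := fun n1 => by
    have u1 : T.X a y x p = true := bt (fun t => s19 t)
    exact g11 u1 h2 h4 n1
  have s21 : T.X a y p q = true → False := fun n1 => by
    have u1 : T.X a o y p = true := bt (fun t => s20 t)
    exact s15 n1 u1
  have s22 : T.X a y x o = false → False := fun n1 => by
    have u1 : T.X a y x p = true := bt (fun t => s19 t)
    exact g12 u1 n1 h2 h4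
  have s23 : T.X a q x y = false → False := fun n1 => by
    have u1 : T.X a y x p = true := bt (fun t => s19 t)
    have u2 : T.X a y p q = false := bf (fun t => s21 t)
    exact g13 u1 n1 u2 h1
  have s24 : T.X a q x o = false → False := fun n1 => by
    have u1 : T.X a q x y = true := bt (fun t => s23 t)
    have u2 : T.X a y x o = true := bt (fun t => s22 t)
    exact g7 u1 u2 n1
  have u3 : T.X a q x o = true := bt (fun t => s24 t)
  exact g14 h5 h4 u3

theorem sep_b {a x y p q o : V} (h : T.RotL a [x, y, p, q, o])
    (h1 : T.X x y p q = true)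
    (h2 : T.X a o x y = false)
    (h3 : T.X a o p q = false)
    (h4 : T.X a o y q = true)
    (h5 : T.X a x y q = false) : False := by
  have g6 := c5a_2084_2052 (h.four (.cons_cons _ (.cons_cons _ (.cons _ (.cons_cons _ (.cons_cons _ (List.nil_sublist _)))))))
  have g7 := c5a_521_513 (h.four (.cons_cons _ (.cons _ (.cons_cons _ (.cons_cons _ (.cons_cons _ (List.nil_sublist _)))))))
  have g8 := c5a_1608_64 (h.four (.cons_cons _ (.cons_cons _ (.cons_cons _ (.cons _ (.cons_cons _ (List.nil_sublist _)))))))
  have g9 := c5a_1068_4 (h.four (.cons_cons _ (.cons_cons _ (.cons_cons _ (.cons _ (.cons_cons _ (List.nil_sublist _)))))))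
  have g10 := c5a_2305_257 (h.four (.cons _ (.cons_cons _ (.cons_cons _ (.cons_cons _ (.cons_cons _ (List.nil_sublist _)))))))
  have g11 := c5a_5188_5120 (h.four (.cons_cons _ (.cons_cons _ (.cons_cons _ (.cons_cons _ (List.nil_sublist _))))))
  have g12 := c5a_5672_4096 (h.four (.cons_cons _ (.cons_cons _ (.cons_cons _ (.cons_cons _ (List.nil_sublist _))))))
  have g13 := c5a_2322_274 (h.four (.cons _ (.cons_cons _ (.cons_cons _ (.cons_cons _ (.cons_cons _ (List.nil_sublist _)))))))
  have g14 := c5a_786_258 (h.four (.cons _ (.cons_cons _ (.cons_cons _ (.cons_cons _ (.cons_cons _ (List.nil_sublist _)))))))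
  have g15 := c5a_2057_2056 (h.four (.cons_cons _ (.cons_cons _ (.cons _ (.cons_cons _ (.cons_cons _ (List.nil_sublist _)))))))
  have g16 := c5a_266_266 (h.four (.cons _ (.cons_cons _ (.cons_cons _ (.cons_cons _ (.cons_cons _ (List.nil_sublist _)))))))
  have s17 : T.X a q x y = true → False := fun n1 => by
    exact g6 n1 h2 h4
  have s18 : T.X a p x y = true → T.X a x y o = false → T.X a p y o = false → False := fun n1 n2 n3 => by
    exact g9 n1 n2 h2 n3
  have s19 : T.X a y p q = true → False := fun n1 => by
    exact g10 n1 h4 h3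
  have s20 : T.X a p x y = false → T.X a x p q = false → T.X a p y q = true → False := fun n1 n2 n3 => by
    exact g11 n1 n2 n3 h1
  have s21 : T.X a p y q = false → False := fun n1 => by
    have u2 : T.X a q x y = false := bf (fun t => s17 t)
    have u3 : T.X a y p q = false := bf (fun t => s19 t)
    exact g12 h5 u2 u3 n1 h1
  have s22 : T.X a p y o = true → False := fun n1 => by
    have u1 : T.X a p y q = true := bt (fun t => s21 t)
    exact g13 u1 n1 h4 h3
  have s23 : T.X a p q o = false → False := fun n1 => by
    have u1 : T.X a p y q = true := bt (fun t => s21 t)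
    have u2 : T.X a p y o = false := bf (fun t => s22 t)
    exact g14 u1 u2 h4 n1
  have s24 : T.X a x y o = true → False := fun n1 => by
    exact g15 h5 n1 h4
  have s25 : T.X a p x y = true → False := fun n1 => by
    have u1 : T.X a x y o = false := bf (fun t => s24 t)
    have u2 : T.X a p y o = false := bf (fun t => s22 t)
    exact s18 n1 u1 u2
  have s26 : T.X a x p q = false → False := fun n1 => by
    have u1 : T.X a p x y = false := bf (fun t => s25 t)
    have u2 : T.X a p y q = true := bt (fun t => s21 t)
    exact s20 u1 n1 u2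
  have s27 : T.X a x p o = false → False := fun n1 => by
    have u1 : T.X a x p q = true := bt (fun t => s26 t)
    have u2 : T.X a p q o = true := bt (fun t => s23 t)
    exact g7 u1 n1 u2
  have s28 : T.X a y p o = false → False := fun n1 => by
    have u1 : T.X a x p o = true := bt (fun t => s27 t)
    have u2 : T.X a x y o = false := bf (fun t => s24 t)
    have u3 : T.X a p y o = false := bf (fun t => s22 t)
    exact g8 u2 u1 n1 u3
  have u1 : T.X a p y q = true := bt (fun t => s21 t)
  have u2 : T.X a y p o = true := bt (fun t => s28 t)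
  exact g16 u1 u2 h4

theorem sep_c {a x y p q : V} (h : T.RotL a [x, y, p, q])
    (h1 : T.X x y p q = true)
    (h2 : T.X a q x p = true)
    (h3 : T.X a x y q = true) : False := by
  have g4 := c5a_4360_4360 (h.four (.cons_cons _ (.cons_cons _ (.cons_cons _ (.cons_cons _ (List.nil_sublist _))))))
  exact g4 h3 h2 h1

theorem n1_sh {a i j k o w : V} (h : T.RotL a [i, j, k, o, w])
    (h1 : T.X a o i j = true)
    (h2 : T.X a o j k = false)
    (h3 : T.X a w j k = true)
    (h4 : T.X a w i j = false) : False := by
  have g5 := c5a_2081_33 (h.four (.cons_cons _ (.cons_cons _ (.cons_cons _ (.cons_cons _ (List.nil_sublist _))))))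
  have g6 := c5a_2057_2056 (h.four (.cons_cons _ (.cons_cons _ (.cons_cons _ (.cons _ (.cons_cons _ (List.nil_sublist _)))))))
  have g7 := c5a_1068_4 (h.four (.cons_cons _ (.cons_cons _ (.cons _ (.cons_cons _ (.cons_cons _ (List.nil_sublist _)))))))
  have g8 := c5a_164_160 (h.four (.cons _ (.cons_cons _ (.cons_cons _ (.cons_cons _ (.cons_cons _ (List.nil_sublist _)))))))
  have s9 : T.X a i j k = true → False := fun n1 => by
    exact g5 n1 h1 h2
  have s10 : T.X a i j w = true → False := fun n1 => by
    have u1 : T.X a i j k = false := bf (fun t => s9 t)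
    exact g6 u1 n1 h3
  have s11 : T.X a o j w = false → False := fun n1 => by
    have u2 : T.X a i j w = false := bf (fun t => s10 t)
    exact g7 h1 u2 h4 n1
  have u3 : T.X a o j w = true := bt (fun t => s11 t)
  exact g8 h2 h3 u3

theorem n1_o {a i j k l o w : V} (h : T.RotL a [i, j, k, l, o, w])
    (h1 : T.X a o i j = true)
    (h2 : T.X a o k l = false)
    (h3 : T.X a w k l = true)
    (h4 : T.X a w i j = false)
    (h5 : T.X a o j k = true) : False := by
  have g6 := c5a_2084_2052 (h.four (.cons_cons _ (.cons_cons _ (.cons _ (.cons _ (.cons_cons _ (.cons_cons _ (List.nil_sublist _))))))))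
  have g7 := c5a_164_160 (h.four (.cons _ (.cons _ (.cons_cons _ (.cons_cons _ (.cons_cons _ (.cons_cons _ (List.nil_sublist _))))))))
  have g8 := c5a_2081_33 (h.four (.cons _ (.cons_cons _ (.cons_cons _ (.cons_cons _ (.cons_cons _ (List.nil_sublist _)))))))
  have g9 := c5_8209_8209 (h.five (.cons_cons _ (.cons_cons _ (.cons_cons _ (.cons _ (.cons_cons _ (.cons_cons _ (List.nil_sublist _))))))))
  have g10 := c5a_1156_132 (h.four (.cons _ (.cons_cons _ (.cons_cons _ (.cons _ (.cons_cons _ (.cons_cons _ (List.nil_sublist _))))))))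
  have g11 := c5a_8456_264 (h.four (.cons_cons _ (.cons_cons _ (.cons_cons _ (.cons _ (.cons _ (.cons_cons _ (List.nil_sublist _))))))))
  have g12 := c5a_2081_33 (h.four (.cons_cons _ (.cons _ (.cons_cons _ (.cons_cons _ (.cons_cons _ (List.nil_sublist _)))))))
  have g13 := c5a_3072_3072 (h.four (.cons_cons _ (.cons_cons _ (.cons_cons _ (.cons _ (.cons_cons _ (List.nil_sublist _)))))))
  have g14 := c5a_2057_2056 (h.four (.cons _ (.cons_cons _ (.cons_cons _ (.cons_cons _ (.cons _ (.cons_cons _ (List.nil_sublist _))))))))
  have g15 := c5a_1068_4 (h.four (.cons_cons _ (.cons _ (.cons_cons _ (.cons _ (.cons_cons _ (.cons_cons _ (List.nil_sublist _))))))))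
  have g16 := c5a_9482_0 (h.four (.cons _ (.cons_cons _ (.cons_cons _ (.cons _ (.cons_cons _ (.cons_cons _ (List.nil_sublist _))))))))
  have g17 := c5a_2336_2080 (h.four (.cons_cons _ (.cons_cons _ (.cons_cons _ (.cons _ (.cons_cons _ (List.nil_sublist _)))))))
  have g18 := c5a_1068_4 (h.four (.cons_cons _ (.cons_cons _ (.cons _ (.cons _ (.cons_cons _ (.cons_cons _ (List.nil_sublist _))))))))
  have g19 := c5a_292_260 (h.four (.cons_cons _ (.cons_cons _ (.cons_cons _ (.cons _ (.cons _ (.cons_cons _ (List.nil_sublist _))))))))
  have g20 := c5a_2057_2056 (h.four (.cons_cons _ (.cons _ (.cons_cons _ (.cons_cons _ (.cons _ (.cons_cons _ (List.nil_sublist _))))))))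
  have g21 := c5a_4644_32 (h.four (.cons_cons _ (.cons_cons _ (.cons_cons _ (.cons _ (.cons_cons _ (List.nil_sublist _)))))))
  have g22 := c5a_2560_2560 (h.four (.cons_cons _ (.cons_cons _ (.cons_cons _ (.cons _ (.cons_cons _ (List.nil_sublist _)))))))
  have s23 : T.X a w j o = true → False := fun n1 => by
    exact g6 h1 h4 n1
  have s24 : T.X a o k w = true → False := fun n1 => by
    exact g7 h2 h3 n1
  have s25 : T.X a j k l = true → False := fun n1 => by
    exact g8 n1 h5 h2
  have s26 : T.X a o j w = true → False := fun n1 => by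
    have u2 : T.X a o k w = false := bf (fun t => s24 t)
    exact g10 h5 n1 u2
  have s27 : T.X a i k l = true → T.X a o i k = true → False := fun n1 n2 => by
    exact g12 n1 n2 h2
  have s28 : T.X a k j o = true → False := fun n1 => by
    exact g13 n1 h5
  have s29 : T.X a j k w = true → False := fun n1 => by
    have u1 : T.X a j k l = false := bf (fun t => s25 t)
    exact g14 u1 n1 h3
  have s30 : T.X a o i k = true → T.X a i k w = false → T.X a w i k = false → False := fun n1 n2 n3 => by
    have u1 : T.X a o k w = false := bf (fun t => s24 t)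
    exact g15 n1 n2 n3 u1
  have s31 : T.X j o k w = false → False := fun n1 => by
    have u1 : T.X a k j o = false := bf (fun t => s28 t)
    have u2 : T.X a j k w = false := bf (fun t => s29 t)
    have u3 : T.X a w j o = false := bf (fun t => s23 t)
    have u4 : T.X a o k w = false := bf (fun t => s24 t)
    exact g16 u1 u2 u3 u4 n1
  have s32 : T.X a o i k = false → False := fun n1 => by
    exact g17 h1 n1 h5
  have s33 : T.X a i k l = true → False := fun n1 => by
    have u1 : T.X a o i k = true := bt (fun t => s32 t)
    exact s27 n1 u1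
  have s34 : T.X a i j w = false → False := fun n1 => by
    have u3 : T.X a o j w = false := bf (fun t => s26 t)
    exact g18 h1 n1 h4 u3
  have s35 : T.X a k i j = true → T.X a w i k = true → False := fun n1 n2 => by
    exact g19 n1 h4 n2
  have s36 : T.X a i k w = true → False := fun n1 => by
    have u1 : T.X a i k l = false := bf (fun t => s33 t)
    exact g20 u1 n1 h3
  have s37 : T.X a w i k = false → False := fun n1 => by
    have u1 : T.X a i k w = false := bf (fun t => s36 t)
    have u2 : T.X a o i k = true := bt (fun t => s32 t)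
    exact s30 u2 u1 n1
  have s38 : T.X i k j w = false → False := fun n1 => by
    have u1 : T.X a w i k = true := bt (fun t => s37 t)
    have u2 : T.X a i j w = true := bt (fun t => s34 t)
    exact g11 u2 u1 n1
  have s39 : T.X a k i j = true → False := fun n1 => by
    have u1 : T.X a w i k = true := bt (fun t => s37 t)
    exact s35 n1 u1
  have s40 : T.X i j k o = true → False := fun n1 => by
    have u1 : T.X i k j w = true := bt (fun t => s38 t)
    have u2 : T.X j o k w = true := bt (fun t => s31 t)
    exact g9 n1 u1 u2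
  have s41 : T.X a j k o = false → False := fun n1 => by
    have u1 : T.X a k i j = false := bf (fun t => s39 t)
    have u3 : T.X i j k o = false := bf (fun t => s40 t)
    exact g21 u1 h1 n1 u3
  have u1 : T.X a j k o = true := bt (fun t => s41 t)
  exact g22 u1 h5

theorem n1_w {a i j k l o w : V} (h : T.RotL a [i, j, k, l, o, w])
    (h1 : T.X a o i j = true)
    (h2 : T.X a o k l = false)
    (h3 : T.X a w k l = true)
    (h4 : T.X a w i j = false)
    (h5 : T.X a w j k = true) : False := by
  have g6 := c5a_2084_2052 (h.four (.cons_cons _ (.cons_cons _ (.cons_cons _ (.cons _ (.cons _ (.cons_cons _ (List.nil_sublist _))))))))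
  have g7 := c5_8209_8209 (h.five (.cons_cons _ (.cons_cons _ (.cons_cons _ (.cons _ (.cons_cons _ (.cons_cons _ (List.nil_sublist _))))))))
  have g8 := c5a_164_160 (h.four (.cons _ (.cons _ (.cons_cons _ (.cons_cons _ (.cons_cons _ (.cons_cons _ (List.nil_sublist _))))))))
  have g9 := c5a_9482_0 (h.four (.cons_cons _ (.cons _ (.cons_cons _ (.cons _ (.cons_cons _ (.cons_cons _ (List.nil_sublist _))))))))
  have g10 := c5a_2057_2056 (h.four (.cons_cons _ (.cons _ (.cons_cons _ (.cons_cons _ (.cons _ (.cons_cons _ (List.nil_sublist _))))))))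
  have g11 := c5a_4644_32 (h.four (.cons_cons _ (.cons_cons _ (.cons_cons _ (.cons _ (.cons_cons _ (List.nil_sublist _)))))))
  have g12 := c5a_292_260 (h.four (.cons_cons _ (.cons_cons _ (.cons _ (.cons _ (.cons_cons _ (.cons_cons _ (List.nil_sublist _))))))))
  have g13 := c5a_2084_2052 (h.four (.cons_cons _ (.cons_cons _ (.cons _ (.cons _ (.cons_cons _ (.cons_cons _ (List.nil_sublist _))))))))
  have g14 := c5a_1068_4 (h.four (.cons_cons _ (.cons_cons _ (.cons _ (.cons _ (.cons_cons _ (.cons_cons _ (List.nil_sublist _))))))))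
  have g15 := c5a_2336_2080 (h.four (.cons_cons _ (.cons_cons _ (.cons_cons _ (.cons _ (.cons_cons _ (List.nil_sublist _)))))))
  have g16 := c5a_1060_1056 (h.four (.cons_cons _ (.cons_cons _ (.cons_cons _ (.cons _ (.cons_cons _ (List.nil_sublist _)))))))
  have g17 := c5a_289_33 (h.four (.cons _ (.cons_cons _ (.cons_cons _ (.cons _ (.cons_cons _ (.cons_cons _ (List.nil_sublist _))))))))
  have g18 := c5a_164_160 (h.four (.cons_cons _ (.cons_cons _ (.cons_cons _ (.cons _ (.cons_cons _ (List.nil_sublist _)))))))
  have g19 := c5a_9252_8196 (h.four (.cons_cons _ (.cons _ (.cons_cons _ (.cons _ (.cons_cons _ (.cons_cons _ (List.nil_sublist _))))))))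
  have g20 := c5a_294_32 (h.four (.cons _ (.cons_cons _ (.cons_cons _ (.cons _ (.cons_cons _ (.cons_cons _ (List.nil_sublist _))))))))
  have g21 := c5a_8456_264 (h.four (.cons_cons _ (.cons_cons _ (.cons_cons _ (.cons _ (.cons _ (.cons_cons _ (List.nil_sublist _))))))))
  have g22 := c5a_1184_160 (h.four (.cons _ (.cons_cons _ (.cons_cons _ (.cons _ (.cons_cons _ (.cons_cons _ (List.nil_sublist _))))))))
  have g23 := c5a_2560_2560 (h.four (.cons_cons _ (.cons_cons _ (.cons_cons _ (.cons _ (.cons _ (.cons_cons _ (List.nil_sublist _))))))))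
  have g24 := c5a_2081_33 (h.four (.cons_cons _ (.cons _ (.cons_cons _ (.cons_cons _ (.cons_cons _ (List.nil_sublist _)))))))
  have g25 := c5a_9482_0 (h.four (.cons _ (.cons_cons _ (.cons_cons _ (.cons _ (.cons_cons _ (.cons_cons _ (List.nil_sublist _))))))))
  have s26 : T.X a k i j = true → False := fun n1 => by
    exact g6 n1 h4 h5
  have s27 : T.X a o k w = true → False := fun n1 => by
    exact g8 h2 h3 n1
  have s28 : T.X a k i o = false → T.X a i k w = false → T.X a w i o = false → T.X i o k w = false → False := fun n1 n2 n3 n4 => by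
    have u1 : T.X a o k w = false := bf (fun t => s27 t)
    exact g9 n1 n2 n3 u1 n4
  have s29 : T.X a i k l = false → T.X a i k w = true → False := fun n1 n2 => by
    exact g10 n1 n2 h3
  have s30 : T.X a j k o = false → T.X i j k o = false → False := fun n1 n2 => by
    have u1 : T.X a k i j = false := bf (fun t => s26 t)
    exact g11 u1 h1 n1 n2
  have s31 : T.X a w i o = true → False := fun n1 => by
    exact g12 h1 h4 n1
  have s32 : T.X a w j o = true → False := fun n1 => by
    exact g13 h1 h4 n1
  have s33 : T.X a i j w = false → T.X a o j w = false → False := fun n1 n2 => by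
    exact g14 h1 n1 h4 n2
  have s34 : T.X a o i k = false → T.X a o j k = true → False := fun n1 n2 => by
    exact g15 h1 n1 n2
  have s35 : T.X a k j o = true → False := fun n1 => by
    have u1 : T.X a k i j = false := bf (fun t => s26 t)
    exact g16 u1 h1 n1
  have s36 : T.X a j k o = true → False := fun n1 => by
    have u2 : T.X a w j o = false := bf (fun t => s32 t)
    exact g17 n1 h5 u2
  have s37 : T.X i j k o = false → False := fun n1 => by
    have u1 : T.X a j k o = false := bf (fun t => s36 t)
    exact s30 u1 n1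
  have s38 : T.X a k i o = true → False := fun n1 => by
    have u1 : T.X a k i j = false := bf (fun t => s26 t)
    exact g18 u1 h1 n1
  have s39 : T.X a o i k = true → T.X a w i k = false → T.X i o k w = true → False := fun n1 n2 n3 => by
    have u1 : T.X a o k w = false := bf (fun t => s27 t)
    exact g19 n1 n2 u1 n3
  have s40 : T.X a o j k = false → False := fun n1 => by
    have u1 : T.X a k j o = false := bf (fun t => s35 t)
    have u3 : T.X a w j o = false := bf (fun t => s32 t)
    exact g20 u1 n1 h5 u3
  have s41 : T.X a o i k = false → False := fun n1 => by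
    have u1 : T.X a o j k = true := bt (fun t => s40 t)
    exact s34 n1 u1
  have s42 : T.X a o j w = true → False := fun n1 => by
    have u2 : T.X a o k w = false := bf (fun t => s27 t)
    exact g22 h5 n1 u2
  have s43 : T.X a i j w = false → False := fun n1 => by
    have u1 : T.X a o j w = false := bf (fun t => s42 t)
    exact s33 n1 u1
  have s44 : T.X a j k w = true → False := fun n1 => by
    exact g23 n1 h5
  have s45 : T.X a i k l = true → False := fun n1 => by
    have u1 : T.X a o i k = true := bt (fun t => s41 t)
    exact g24 n1 u1 h2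
  have s46 : T.X a i k w = true → False := fun n1 => by
    have u1 : T.X a i k l = false := bf (fun t => s45 t)
    exact s29 u1 n1
  have s47 : T.X i o k w = false → False := fun n1 => by
    have u1 : T.X a i k w = false := bf (fun t => s46 t)
    have u2 : T.X a w i o = false := bf (fun t => s31 t)
    have u3 : T.X a k i o = false := bf (fun t => s38 t)
    exact s28 u3 u1 u2 n1
  have s48 : T.X a w i k = false → False := fun n1 => by
    have u1 : T.X i o k w = true := bt (fun t => s47 t)
    have u2 : T.X a o i k = true := bt (fun t => s41 t)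
    exact s39 u2 n1 u1
  have s49 : T.X i k j w = false → False := fun n1 => by
    have u1 : T.X a w i k = true := bt (fun t => s48 t)
    have u2 : T.X a i j w = true := bt (fun t => s43 t)
    exact g21 u2 u1 n1
  have s50 : T.X j o k w = true → False := fun n1 => by
    have u1 : T.X i k j w = true := bt (fun t => s49 t)
    have u2 : T.X i j k o = true := bt (fun t => s37 t)
    exact g7 u2 u1 n1
  have u1 : T.X a k j o = false := bf (fun t => s35 t)
  have u2 : T.X a j k w = false := bf (fun t => s44 t)
  have u3 : T.X a w j o = false := bf (fun t => s32 t)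
  have u4 : T.X a o k w = false := bf (fun t => s27 t)
  have u5 : T.X j o k w = false := bf (fun t => s50 t)
  exact g25 u1 u2 u3 u4 u5

theorem n1_z1 {a i j k l z o w : V} (h : T.RotL a [i, j, k, l, z, o, w])
    (h1 : T.X a o i j = true)
    (h2 : T.X a o k l = false)
    (h3 : T.X a w k l = true)
    (h4 : T.X a w i j = false)
    (h5 : T.X a z j k = true) : False := by
  have g6 := c5a_10369_8193 (h.four (.cons _ (.cons_cons _ (.cons_cons _ (.cons_cons _ (.cons _ (.cons_cons _ (List.nil_sublist _))))))))
  have g7 := c5a_2085_2080 (h.four (.cons _ (.cons_cons _ (.cons_cons _ (.cons_cons _ (.cons_cons _ (List.nil_sublist _)))))))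
  have g8 := c5a_2818_258 (h.four (.cons_cons _ (.cons _ (.cons_cons _ (.cons_cons _ (.cons _ (.cons_cons _ (List.nil_sublist _))))))))
  have g9 := c5a_577_513 (h.four (.cons_cons _ (.cons _ (.cons_cons _ (.cons_cons _ (.cons _ (.cons_cons _ (List.nil_sublist _))))))))
  have g10 := c5a_16960_16448 (h.four (.cons _ (.cons_cons _ (.cons_cons _ (.cons_cons _ (.cons _ (.cons_cons _ (List.nil_sublist _))))))))
  have g11 := c5a_2305_257 (h.four (.cons _ (.cons_cons _ (.cons_cons _ (.cons_cons _ (.cons _ (.cons_cons _ (List.nil_sublist _))))))))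
  have g12 := c5a_2081_33 (h.four (.cons _ (.cons _ (.cons_cons _ (.cons_cons _ (.cons _ (.cons_cons _ (.cons_cons _ (List.nil_sublist _)))))))))
  have g13 := c5a_2081_33 (h.four (.cons_cons _ (.cons_cons _ (.cons_cons _ (.cons _ (.cons _ (.cons_cons _ (List.nil_sublist _))))))))
  have g14 := c5a_2307_2048 (h.four (.cons_cons _ (.cons _ (.cons_cons _ (.cons_cons _ (.cons _ (.cons _ (.cons_cons _ (List.nil_sublist _)))))))))
  have g15 := c5a_9224_1032 (h.four (.cons _ (.cons_cons _ (.cons_cons _ (.cons_cons _ (.cons _ (.cons_cons _ (List.nil_sublist _))))))))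
  have g16 := c5a_292_260 (h.four (.cons _ (.cons_cons _ (.cons_cons _ (.cons _ (.cons_cons _ (.cons _ (.cons_cons _ (List.nil_sublist _)))))))))
  have g17 := c5a_9482_0 (h.four (.cons _ (.cons_cons _ (.cons _ (.cons_cons _ (.cons _ (.cons_cons _ (.cons_cons _ (List.nil_sublist _)))))))))
  have g18 := c5a_1060_1056 (h.four (.cons_cons _ (.cons_cons _ (.cons _ (.cons_cons _ (.cons _ (.cons_cons _ (List.nil_sublist _))))))))
  have g19 := c5a_1184_160 (h.four (.cons _ (.cons_cons _ (.cons _ (.cons_cons _ (.cons _ (.cons_cons _ (.cons_cons _ (List.nil_sublist _)))))))))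
  have g20 := c5a_1156_132 (h.four (.cons_cons _ (.cons_cons _ (.cons _ (.cons _ (.cons _ (.cons_cons _ (.cons_cons _ (List.nil_sublist _)))))))))
  have g21 := c5a_1068_4 (h.four (.cons_cons _ (.cons_cons _ (.cons _ (.cons_cons _ (.cons_cons _ (List.nil_sublist _)))))))
  have g22 := c5a_4644_32 (h.four (.cons _ (.cons _ (.cons_cons _ (.cons_cons _ (.cons _ (.cons_cons _ (.cons_cons _ (List.nil_sublist _)))))))))
  have g23 := c5_8209_8209 (h.five (.cons_cons _ (.cons_cons _ (.cons _ (.cons_cons _ (.cons _ (.cons_cons _ (.cons_cons _ (List.nil_sublist _)))))))))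
  have g24 := c5a_4240_4224 (h.four (.cons _ (.cons_cons _ (.cons _ (.cons_cons _ (.cons _ (.cons_cons _ (.cons_cons _ (List.nil_sublist _)))))))))
  have g25 := c5a_17674_16384 (h.four (.cons_cons _ (.cons _ (.cons _ (.cons_cons _ (.cons _ (.cons_cons _ (.cons_cons _ (List.nil_sublist _)))))))))
  have g26 := c5a_402_16 (h.four (.cons _ (.cons_cons _ (.cons _ (.cons_cons _ (.cons_cons _ (.cons _ (.cons_cons _ (List.nil_sublist _)))))))))
  have g27 := c5a_2081_33 (h.four (.cons_cons _ (.cons _ (.cons_cons _ (.cons_cons _ (.cons _ (.cons_cons _ (List.nil_sublist _))))))))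
  have g28 := c5a_18818_18432 (h.four (.cons _ (.cons_cons _ (.cons_cons _ (.cons_cons _ (.cons _ (.cons _ (.cons_cons _ (List.nil_sublist _)))))))))
  have g29 := c5a_656_640 (h.four (.cons _ (.cons_cons _ (.cons _ (.cons_cons _ (.cons _ (.cons_cons _ (.cons_cons _ (List.nil_sublist _)))))))))
  have g30 := c5a_289_33 (h.four (.cons _ (.cons_cons _ (.cons _ (.cons_cons _ (.cons _ (.cons_cons _ (.cons_cons _ (List.nil_sublist _)))))))))
  have g31 := c5a_1058_1058 (h.four (.cons_cons _ (.cons_cons _ (.cons _ (.cons_cons _ (.cons _ (.cons_cons _ (List.nil_sublist _))))))))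
  have g32 := c5a_2560_2560 (h.four (.cons_cons _ (.cons_cons _ (.cons _ (.cons_cons _ (.cons _ (.cons _ (.cons_cons _ (List.nil_sublist _)))))))))
  have g33 := c5a_16420_16416 (h.four (.cons _ (.cons _ (.cons_cons _ (.cons_cons _ (.cons _ (.cons_cons _ (.cons_cons _ (List.nil_sublist _)))))))))
  have g34 := c5a_1184_160 (h.four (.cons_cons _ (.cons_cons _ (.cons_cons _ (.cons _ (.cons _ (.cons_cons _ (List.nil_sublist _))))))))
  have g35 := c5a_2308_2052 (h.four (.cons _ (.cons_cons _ (.cons_cons _ (.cons_cons _ (.cons _ (.cons _ (.cons_cons _ (List.nil_sublist _)))))))))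
  have g36 := c5a_4644_32 (h.four (.cons_cons _ (.cons_cons _ (.cons _ (.cons_cons _ (.cons _ (.cons_cons _ (List.nil_sublist _))))))))
  have g37 := c5_4898_4352 (h.five (.cons _ (.cons_cons _ (.cons_cons _ (.cons_cons _ (.cons _ (.cons_cons _ (.cons_cons _ (List.nil_sublist _)))))))))
  have g38 := c5a_1176_128 (h.four (.cons_cons _ (.cons_cons _ (.cons_cons _ (.cons_cons _ (List.nil_sublist _))))))
  have g39 := c5a_2082_2082 (h.four (.cons _ (.cons_cons _ (.cons_cons _ (.cons_cons _ (.cons_cons _ (List.nil_sublist _)))))))
  have g40 := c5a_9482_0 (h.four (.cons_cons _ (.cons _ (.cons_cons _ (.cons _ (.cons _ (.cons_cons _ (.cons_cons _ (List.nil_sublist _)))))))))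
  have g41 := c5a_2336_2080 (h.four (.cons _ (.cons_cons _ (.cons_cons _ (.cons_cons _ (.cons _ (.cons _ (.cons_cons _ (List.nil_sublist _)))))))))
  have g42 := c5a_164_160 (h.four (.cons _ (.cons_cons _ (.cons_cons _ (.cons_cons _ (.cons_cons _ (List.nil_sublist _)))))))
  have g43 := c5a_146_130 (h.four (.cons _ (.cons_cons _ (.cons _ (.cons_cons _ (.cons _ (.cons_cons _ (.cons_cons _ (List.nil_sublist _)))))))))
  have g44 := c5a_294_32 (h.four (.cons _ (.cons _ (.cons_cons _ (.cons_cons _ (.cons_cons _ (.cons _ (.cons_cons _ (List.nil_sublist _)))))))))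
  have g45 := c5a_294_32 (h.four (.cons _ (.cons _ (.cons_cons _ (.cons_cons _ (.cons _ (.cons_cons _ (.cons_cons _ (List.nil_sublist _)))))))))
  have g46 := c5a_164_160 (h.four (.cons _ (.cons _ (.cons_cons _ (.cons_cons _ (.cons _ (.cons_cons _ (.cons_cons _ (List.nil_sublist _)))))))))
  have g47 := c5a_2113_2112 (h.four (.cons_cons _ (.cons _ (.cons_cons _ (.cons_cons _ (.cons _ (.cons _ (.cons_cons _ (List.nil_sublist _)))))))))
  have g48 := c5a_2336_2080 (h.four (.cons_cons _ (.cons_cons _ (.cons _ (.cons_cons _ (.cons _ (.cons_cons _ (List.nil_sublist _))))))))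
  have g49 := c5a_1060_1056 (h.four (.cons _ (.cons _ (.cons_cons _ (.cons_cons _ (.cons _ (.cons_cons _ (.cons_cons _ (List.nil_sublist _)))))))))
  have g50 := c5a_2305_257 (h.four (.cons_cons _ (.cons _ (.cons_cons _ (.cons_cons _ (.cons _ (.cons_cons _ (List.nil_sublist _))))))))
  have g51 := c5a_1060_1056 (h.four (.cons _ (.cons_cons _ (.cons_cons _ (.cons_cons _ (.cons_cons _ (List.nil_sublist _)))))))
  have g52 := c5a_2081_33 (h.four (.cons_cons _ (.cons_cons _ (.cons _ (.cons_cons _ (.cons _ (.cons_cons _ (List.nil_sublist _))))))))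
  have g53 := c5a_8456_264 (h.four (.cons_cons _ (.cons_cons _ (.cons _ (.cons_cons _ (.cons _ (.cons _ (.cons_cons _ (List.nil_sublist _)))))))))
  have g54 := c5a_18449_2048 (h.four (.cons_cons _ (.cons _ (.cons_cons _ (.cons_cons _ (.cons _ (.cons _ (.cons_cons _ (List.nil_sublist _)))))))))
  have g55 := c5a_402_16 (h.four (.cons_cons _ (.cons _ (.cons_cons _ (.cons _ (.cons _ (.cons_cons _ (.cons_cons _ (List.nil_sublist _)))))))))
  have g56 := c5a_2084_2052 (h.four (.cons _ (.cons_cons _ (.cons_cons _ (.cons _ (.cons_cons _ (.cons _ (.cons_cons _ (List.nil_sublist _)))))))))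
  have g57 := c5a_2081_33 (h.four (.cons _ (.cons_cons _ (.cons_cons _ (.cons_cons _ (.cons _ (.cons_cons _ (List.nil_sublist _))))))))
  have g58 := c5a_268_268 (h.four (.cons_cons _ (.cons_cons _ (.cons _ (.cons_cons _ (.cons _ (.cons _ (.cons_cons _ (List.nil_sublist _)))))))))
  have g59 := c5a_2084_2052 (h.four (.cons_cons _ (.cons_cons _ (.cons _ (.cons_cons _ (.cons _ (.cons _ (.cons_cons _ (List.nil_sublist _)))))))))
  have g60 := c5a_18560_2176 (h.four (.cons _ (.cons_cons _ (.cons_cons _ (.cons _ (.cons _ (.cons_cons _ (.cons_cons _ (List.nil_sublist _)))))))))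
  have g61 := c5a_401_17 (h.four (.cons _ (.cons_cons _ (.cons_cons _ (.cons_cons _ (.cons _ (.cons_cons _ (List.nil_sublist _))))))))
  have g62 := c5a_292_260 (h.four (.cons _ (.cons_cons _ (.cons_cons _ (.cons _ (.cons_cons _ (.cons_cons _ (List.nil_sublist _))))))))
  have g63 := c5a_18561_1 (h.four (.cons_cons _ (.cons _ (.cons_cons _ (.cons_cons _ (.cons _ (.cons_cons _ (List.nil_sublist _))))))))
  have g64 := c5a_4192_96 (h.four (.cons_cons _ (.cons_cons _ (.cons _ (.cons_cons _ (.cons _ (.cons_cons _ (List.nil_sublist _))))))))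
  have g65 := c5a_2057_2056 (h.four (.cons_cons _ (.cons _ (.cons_cons _ (.cons_cons _ (.cons _ (.cons _ (.cons_cons _ (List.nil_sublist _)))))))))
  have g66 := c5a_292_260 (h.four (.cons_cons _ (.cons_cons _ (.cons _ (.cons _ (.cons _ (.cons_cons _ (.cons_cons _ (List.nil_sublist _)))))))))
  have g67 := c5a_1184_160 (h.four (.cons_cons _ (.cons_cons _ (.cons _ (.cons_cons _ (.cons _ (.cons_cons _ (List.nil_sublist _))))))))
  have g68 := c5a_2085_2080 (h.four (.cons_cons _ (.cons_cons _ (.cons_cons _ (.cons _ (.cons_cons _ (List.nil_sublist _)))))))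
  have g69 := c5a_180_132 (h.four (.cons _ (.cons_cons _ (.cons_cons _ (.cons _ (.cons_cons _ (.cons _ (.cons_cons _ (List.nil_sublist _)))))))))
  have g70 := c5_18544_18496 (h.five (.cons_cons _ (.cons_cons _ (.cons_cons _ (.cons_cons _ (.cons _ (.cons_cons _ (List.nil_sublist _))))))))
  have g71 := c5a_2322_2064 (h.four (.cons _ (.cons_cons _ (.cons_cons _ (.cons_cons _ (.cons _ (.cons _ (.cons_cons _ (List.nil_sublist _)))))))))
  have g72 := c5a_2336_2080 (h.four (.cons _ (.cons_cons _ (.cons _ (.cons_cons _ (.cons _ (.cons_cons _ (.cons_cons _ (List.nil_sublist _)))))))))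
  have g73 := c5a_588_580 (h.four (.cons_cons _ (.cons_cons _ (.cons_cons _ (.cons_cons _ (List.nil_sublist _))))))
  have g74 := c5_18596_160 (h.five (.cons_cons _ (.cons _ (.cons_cons _ (.cons_cons _ (.cons _ (.cons_cons _ (.cons_cons _ (List.nil_sublist _)))))))))
  have g75 := c5a_16529_128 (h.four (.cons _ (.cons_cons _ (.cons_cons _ (.cons _ (.cons _ (.cons_cons _ (.cons_cons _ (List.nil_sublist _)))))))))
  have g76 := c5a_18577_16384 (h.four (.cons_cons _ (.cons _ (.cons_cons _ (.cons_cons _ (.cons _ (.cons_cons _ (List.nil_sublist _))))))))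
  have g77 := c5a_19488_16416 (h.four (.cons_cons _ (.cons_cons _ (.cons_cons _ (.cons _ (.cons _ (.cons_cons _ (List.nil_sublist _))))))))
  have g78 := c5a_18561_1 (h.four (.cons _ (.cons_cons _ (.cons_cons _ (.cons_cons _ (.cons _ (.cons_cons _ (List.nil_sublist _))))))))
  have g79 := c5a_294_32 (h.four (.cons _ (.cons_cons _ (.cons _ (.cons_cons _ (.cons _ (.cons_cons _ (.cons_cons _ (List.nil_sublist _)))))))))
  have g80 := c5a_2081_33 (h.four (.cons_cons _ (.cons_cons _ (.cons _ (.cons _ (.cons_cons _ (.cons_cons _ (List.nil_sublist _))))))))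
  have g81 := c5a_1068_4 (h.four (.cons_cons _ (.cons_cons _ (.cons _ (.cons _ (.cons _ (.cons_cons _ (.cons_cons _ (List.nil_sublist _)))))))))
  have g82 := c5a_8484_8224 (h.four (.cons_cons _ (.cons_cons _ (.cons_cons _ (.cons _ (.cons _ (.cons_cons _ (List.nil_sublist _))))))))
  have g83 := c5a_2084_2052 (h.four (.cons_cons _ (.cons_cons _ (.cons _ (.cons _ (.cons _ (.cons_cons _ (.cons_cons _ (List.nil_sublist _)))))))))
  have s84 : T.X a j k l = true → T.X a l j o = false → T.X j l k o = true → False := fun n1 n2 n3 => by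
    exact g6 n1 n2 h2 n3
  have s85 : T.X a j k l = false → T.X a l j k = false → T.X a z k l = true → False := fun n1 n2 n3 => by
    exact g7 n1 n2 h5 n3
  have s86 : T.X a k i l = true → T.X a o i l = true → T.X a k l o = false → False := fun n1 n2 n3 => by
    exact g8 n1 n2 n3 h2
  have s87 : T.X a j k l = true → T.X a o j l = true → False := fun n1 n2 => by
    exact g11 n1 n2 h2
  have s88 : T.X a k l o = true → T.X a w l o = false → False := fun n1 n2 => by
    exact g12 n1 h3 n2
  have s89 : T.X a i j k = true → T.X a o j k = false → False := fun n1 n2 => by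
    exact g13 n1 h1 n2
  have s90 : T.X a i k l = false → T.X a k i l = false → T.X a w i l = false → False := fun n1 n2 n3 => by
    exact g14 n1 n2 n3 h3
  have s91 : T.X a w j k = false → T.X a w j z = true → False := fun n1 n2 => by
    exact g16 h5 n1 n2
  have s92 : T.X a l i j = false → T.X a l j o = true → False := fun n1 n2 => by
    exact g18 n1 h1 n2
  have s93 : T.X a o i w = true → T.X a o j w = false → False := fun n1 n2 => by
    exact g20 h1 n1 n2
  have s94 : T.X a l o w = false → T.X k l o w = false → False := fun n1 n2 => by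
    exact g22 h2 h3 n1 n2
  have s95 : T.X a i k l = true → T.X a o i k = true → False := fun n1 n2 => by
    exact g27 n1 n2 h2
  have s96 : T.X a k j l = false → T.X a l j w = false → T.X a w j l = false → T.X j w k l = true → False := fun n1 n2 n3 n4 => by
    exact g28 n1 n2 n3 h3 n4
  have s97 : T.X a j i l = true → T.X a l j o = true → False := fun n1 n2 => by
    exact g31 n1 h1 n2
  have s98 : T.X k w l o = true → False := fun n1 => by
    exact g33 h2 h3 n1
  have s99 : T.X a k i o = true → T.X a k j o = false → False := fun n1 n2 => by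
    exact g34 h1 n1 n2
  have s100 : T.X a l j k = true → T.X a w j l = false → False := fun n1 n2 => by
    exact g35 n1 n2 h3
  have s101 : T.X a l i j = false → T.X a j l o = false → T.X i j l o = false → False := fun n1 n2 n3 => by
    exact g36 n1 h1 n2 n3
  have s102 : T.X a k j l = true → T.X a z k l = true → False := fun n1 n2 => by
    exact g39 n1 h5 n2
  have s103 : T.X a w j k = true → T.X a w j l = false → False := fun n1 n2 => by
    exact g41 n1 n2 h3
  have s104 : T.X a l j k = false → T.X a l j z = true → False := fun n1 n2 => by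
    exact g42 n1 h5 n2
  have s105 : T.X a l k z = false → T.X a z k l = false → T.X a w k z = false → False := fun n1 n2 n3 => by
    exact g44 n1 n2 h3 n3
  have s106 : T.X a l k o = false → T.X a w k o = false → False := fun n1 n2 => by
    exact g45 n1 h2 h3 n2
  have s107 : T.X a o k w = true → False := fun n1 => by
    exact g46 h2 h3 n1
  have s108 : T.X a i k l = false → T.X a i l w = true → False := fun n1 n2 => by
    exact g47 n1 n2 h3
  have s109 : T.X a o i l = false → T.X a o j l = true → False := fun n1 n2 => by
    exact g48 h1 n1 n2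
  have s110 : T.X a o l w = true → False := fun n1 => by
    exact g49 h2 h3 n1
  have s111 : T.X a i k l = true → T.X a o i l = true → False := fun n1 n2 => by
    exact g50 n1 n2 h2
  have s112 : T.X a l j k = false → T.X a l k z = true → False := fun n1 n2 => by
    exact g51 n1 h5 n2
  have s113 : T.X a i j l = true → T.X a o j l = false → False := fun n1 n2 => by
    exact g52 n1 h1 n2
  have s114 : T.X a i k l = false → T.X a k i w = false → T.X i w k l = false → False := fun n1 n2 n3 => by
    exact g54 n1 n2 h3 n3
  have s115 : T.X a w j k = false → T.X a w k z = true → False := fun n1 n2 => by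
    exact g56 h5 n1 n2
  have s116 : T.X a j k l = true → T.X a o j k = true → False := fun n1 n2 => by
    exact g57 n1 n2 h2
  have s117 : T.X a l i j = true → T.X a w j l = true → False := fun n1 n2 => by
    exact g59 n1 h4 n2
  have s118 : T.X a o j k = false → T.X a o j z = true → False := fun n1 n2 => by
    exact g62 h5 n1 n2
  have s119 : T.X a i k l = true → T.X a l i o = false → T.X i o k l = false → False := fun n1 n2 n3 => by
    exact g63 n1 n2 h2 n3
  have s120 : T.X a i l o = true → T.X i j l o = false → False := fun n1 n2 => by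
    exact g64 h1 n1 n2
  have s121 : T.X a i k l = false → T.X a i k w = true → False := fun n1 n2 => by
    exact g65 n1 n2 h3
  have s122 : T.X a w i o = true → False := fun n1 => by
    exact g66 h1 h4 n1
  have s123 : T.X a l i o = true → T.X a l j o = false → False := fun n1 n2 => by
    exact g67 h1 n1 n2
  have s124 : T.X a i j k = false → T.X a k i j = false → T.X a z i j = true → False := fun n1 n2 n3 => by
    exact g68 n1 n2 n3 h5
  have s125 : T.X a k j w = false → T.X a w j k = false → T.X a z j w = true → False := fun n1 n2 n3 => by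
    exact g69 h5 n1 n2 n3
  have s126 : T.X a k j l = false → T.X a k j w = true → T.X a w j l = false → False := fun n1 n2 n3 => by
    exact g71 n1 n2 n3 h3
  have s127 : T.X i o k l = false → T.X i w k l = true → T.X i o k w = true → T.X i w l o = false → False := fun n1 n2 n3 n4 => by
    have u1 : T.X k w l o = false := bf (fun t => s98 t)
    exact g74 n1 n2 n3 n4 u1
  have s128 : T.X a i k l = false → T.X a k i o = false → T.X a l i o = false → T.X i o k l = true → False := fun n1 n2 n3 n4 => by
    exact g76 n1 n2 n3 h2 n4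
  have s129 : T.X a k j o = false → T.X a o j k = false → T.X i o j k = true → False := fun n1 n2 n3 => by
    exact g77 h1 n1 n2 n3
  have s130 : T.X a j k l = true → T.X a l j o = false → T.X j o k l = false → False := fun n1 n2 n3 => by
    exact g78 n1 n2 h2 n3
  have s131 : T.X a i j z = true → T.X a o j z = false → False := fun n1 n2 => by
    exact g80 n1 h1 n2
  have s132 : T.X a i j w = false → T.X a o j w = false → False := fun n1 n2 => by
    exact g81 h1 n1 h4 n2
  have s133 : T.X a k i j = false → T.X a o i k = false → T.X i k j o = true → False := fun n1 n2 n3 => by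
    exact g82 n1 h1 n2 n3
  have s134 : T.X a w j o = true → False := fun n1 => by
    exact g83 h1 h4 n1
  have s135 : T.X a w j l = false → T.X j w k l = true → False := fun n1 n2 => by
    have u1 : T.X a l j k = false := bf (fun t => s100 t n1)
    have u2 : T.X a w j k = false := bf (fun t => s103 t n1)
    have u3 : T.X a l j z = false := bf (fun t => s104 u1 t)
    have u4 : T.X a l k z = false := bf (fun t => s112 u1 t)
    have u5 : T.X a w j z = false := bf (fun t => s91 u2 t)
    have u6 : T.X a w k z = false := bf (fun t => s115 u2 t)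
    have u7 : T.X a z k l = true := bt (fun t => s105 u4 t u6)
    have u8 : T.X a k j l = false := bf (fun t => s102 t u7)
    have u9 : T.X a k j w = false := bf (fun t => s126 u8 t n1)
    have u10 : T.X a l j w = true := bt (fun t => s96 u8 t n1 n2)
    have u11 : T.X a z j w = false := bf (fun t => s125 u9 u2 t)
    exact g26 u3 u10 u11 u5
  have s136 : T.X a w j l = true → T.X j o l w = true → False := fun n1 n2 => by
    have u1 : T.X a o l w = false := bf (fun t => s110 t)
    have u2 : T.X a w j o = false := bf (fun t => s134 t)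
    have u3 : T.X a o j w = false := bf (fun t => g19 n1 t u1)
    have u4 : T.X a j l o = false := bf (fun t => g30 t n1 u2)
    have u5 : T.X a l i j = false := bf (fun t => s117 t n1)
    have u6 : T.X a w l o = false := bf (fun t => g72 n1 u2 t)
    have u7 : T.X a i j w = true := bt (fun t => s132 t u3)
    have u8 : T.X i j l o = true := bt (fun t => s101 u5 u4 t)
    have u9 : T.X a l j o = false := bf (fun t => s92 u5 t)
    have u10 : T.X a k l o = false := bf (fun t => s88 t u6)
    have u11 : T.X i l j w = false := bf (fun t => g23 u8 t n2)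
    have u12 : T.X a o j l = true := bt (fun t => g79 u9 t n1 u2)
    have u13 : T.X a w i l = false := bf (fun t => g53 u7 t u11)
    have u14 : T.X a o i l = true := bt (fun t => s109 t u12)
    have u15 : T.X a i k l = false := bf (fun t => s111 t u14)
    have u16 : T.X a k i l = false := bf (fun t => s86 t u14 u10)
    exact s90 u15 u16 u13
  have s138 : T.X a i k l = true → T.X a l j o = false → T.X i j l o = true → T.X a j k l = true → False := fun n1 n2 n3 n4 => by
    have u1 : T.X a o j k = false := bf (fun t => s116 n4 t)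
    have u2 : T.X a o j l = false := bf (fun t => s87 n4 t)
    have u3 : T.X a k j o = false := bf (fun t => g61 n4 t n2 u2)
    have u4 : T.X i o j k = false := bf (fun t => s129 u3 u1 t)
    have u5 : T.X j o k l = true := bt (fun t => s130 n4 n2 t)
    have u6 : T.X a l i o = false := bf (fun t => s123 t n2)
    have u7 : T.X a i j l = false := bf (fun t => s113 t u2)
    have u8 : T.X a o i k = false := bf (fun t => s95 n1 t)
    have u9 : T.X i o k l = true := bt (fun t => s119 n1 u6 t)
    have u10 : T.X a k i j = false := bf (fun t => g73 t u7 n1 n4)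
    have u11 : T.X i k j o = true := bt (fun t => g70 t u4 n3 u9 u5)
    exact s133 u10 u8 u11
  have s139 : T.X a l j o = false → T.X i j l o = true → T.X a o i w = false → T.X a j k l = true → False := fun n1 n2 n3 n4 => by
    have u1 : T.X a o l w = false := bf (fun t => s110 t)
    have u2 : T.X a o k w = false := bf (fun t => s107 t)
    have u3 : T.X a w i o = false := bf (fun t => s122 t)
    have u4 : T.X a o j l = false := bf (fun t => s87 n4 t)
    have u5 : T.X a l i o = false := bf (fun t => s123 t n1)
    have u6 : T.X a k j o = false := bf (fun t => g61 n4 t n1 u4)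
    have u7 : T.X a k i o = false := bf (fun t => s99 t u6)
    have u8 : T.X a k i w = false := bf (fun t => g55 u7 t n3 u3)
    have u9 : T.X a i k l = false := bf (fun t => s138 t n1 n2 n4)
    have u10 : T.X a i l w = false := bf (fun t => s108 u9 t)
    have u11 : T.X a i k w = false := bf (fun t => s121 u9 t)
    have u12 : T.X i o k l = false := bf (fun t => s128 u9 u7 u5 t)
    have u13 : T.X i w k l = true := bt (fun t => s114 u9 u8 t)
    have u14 : T.X i w l o = false := bf (fun t => g25 u5 u10 u3 u1 t)
    have u15 : T.X i o k w = true := bt (fun t => g40 u7 u11 u3 u2 t)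
    exact s127 u12 u13 u15 u14
  have s140 : T.X a l j o = true → T.X a w i l = false → T.X a w j l = false → False := fun n1 n2 n3 => by
    have u1 : T.X a l j k = false := bf (fun t => s100 t n3)
    have u2 : T.X a l k z = false := bf (fun t => s112 u1 t)
    have u3 : T.X a w j k = false := bf (fun t => s103 t n3)
    have u4 : T.X a w k z = false := bf (fun t => s115 u3 t)
    have u5 : T.X a z k l = true := bt (fun t => s105 u2 t u4)
    have u6 : T.X a j k l = true := bt (fun t => s85 t u1 u5)
    have u7 : T.X a o j k = false := bf (fun t => s116 u6 t)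
    have u8 : T.X a o j z = false := bf (fun t => s118 u7 t)
    have u9 : T.X a i j z = false := bf (fun t => s131 t u8)
    have u10 : T.X a i j k = false := bf (fun t => s89 t u7)
    have u11 : T.X a o j l = false := bf (fun t => s87 u6 t)
    have u12 : T.X a i j l = false := bf (fun t => s113 t u11)
    have u13 : T.X a k j l = false := bf (fun t => s102 t u5)
    have u14 : T.X a l j z = false := bf (fun t => s104 u1 t)
    have u15 : T.X a l i j = true := bt (fun t => s92 t n1)
    have u16 : T.X a j i l = false := bf (fun t => s97 t n1)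
    have u17 : T.X a z i j = true := bt (fun t => g21 u15 u9 t u14)
    have u18 : T.X a k i l = false := bf (fun t => g38 u12 u16 t u13)
    have u19 : T.X a k i j = true := bt (fun t => s124 u10 t u17)
    have u20 : T.X a i k l = true := bt (fun t => s90 t u18 n2)
    exact g73 u19 u12 u20 u6
  have s141 : T.X a l j o = false → T.X a k l o = false → T.X a o i w = false → T.X a w j l = false → False := fun n1 n2 n3 n4 => by
    have u1 : T.X a o l w = false := bf (fun t => s110 t)
    have u2 : T.X a o k w = false := bf (fun t => s107 t)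
    have u3 : T.X a w i o = false := bf (fun t => s122 t)
    have u4 : T.X a l j k = false := bf (fun t => s100 t n4)
    have u5 : T.X a l k z = false := bf (fun t => s112 u4 t)
    have u6 : T.X a w j k = false := bf (fun t => s103 t n4)
    have u7 : T.X a w k z = false := bf (fun t => s115 u6 t)
    have u8 : T.X a z k l = true := bt (fun t => s105 u5 t u7)
    have u9 : T.X a j k l = true := bt (fun t => s85 t u4 u8)
    have u10 : T.X a o j k = false := bf (fun t => s116 u9 t)
    have u11 : T.X a o j z = false := bf (fun t => s118 u10 t)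
    have u12 : T.X a i j z = false := bf (fun t => s131 t u11)
    have u13 : T.X a i j k = false := bf (fun t => s89 t u10)
    have u14 : T.X a o j l = false := bf (fun t => s87 u9 t)
    have u15 : T.X a i j l = false := bf (fun t => s113 t u14)
    have u16 : T.X a l j z = false := bf (fun t => s104 u4 t)
    have u17 : T.X a l i o = false := bf (fun t => s123 t n1)
    have u18 : T.X j o k l = true := bt (fun t => s130 u9 n1 t)
    have u19 : T.X a k j o = false := bf (fun t => g61 u9 t n1 u14)
    have u20 : T.X i j l o = false := bf (fun t => s139 n1 t n3 u9)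
    have u21 : T.X a j l o = false := bf (fun t => g10 t n2 u18)
    have u22 : T.X a k i o = false := bf (fun t => s99 t u19)
    have u23 : T.X a l i j = true := bt (fun t => s101 t u21 u20)
    have u24 : T.X a k i w = false := bf (fun t => g55 u22 t n3 u3)
    have u25 : T.X a z i j = true := bt (fun t => g21 u23 u12 t u16)
    have u26 : T.X a k i j = true := bt (fun t => s124 u13 t u25)
    have u27 : T.X a i k l = false := bf (fun t => g73 u26 u15 t u9)
    have u28 : T.X a i l w = false := bf (fun t => s108 u27 t)
    have u29 : T.X a i k w = false := bf (fun t => s121 u27 t)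
    have u30 : T.X i o k l = false := bf (fun t => s128 u27 u22 u17 t)
    have u31 : T.X i w k l = true := bt (fun t => s114 u27 u24 t)
    have u32 : T.X i w l o = false := bf (fun t => g25 u17 u28 u3 u1 t)
    have u33 : T.X i o k w = true := bt (fun t => g40 u22 u29 u3 u2 t)
    exact s127 u30 u31 u33 u32
  have s142 : T.X a l j o = true → T.X a i j w = true → T.X a w j l = false → False := fun n1 n2 n3 => by
    have u1 : T.X a l i j = true := bt (fun t => s92 t n1)
    have u2 : T.X a w i l = true := bt (fun t => s140 n1 t n3)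
    exact g58 u1 n2 u2
  have s143 : T.X a o j w = false → T.X a w j l = false → False := fun n1 n2 => by
    have u1 : T.X a o l w = false := bf (fun t => s110 t)
    have u2 : T.X a o k w = false := bf (fun t => s107 t)
    have u3 : T.X a w i o = false := bf (fun t => s122 t)
    have u4 : T.X a l j k = false := bf (fun t => s100 t n2)
    have u5 : T.X a l k z = false := bf (fun t => s112 u4 t)
    have u6 : T.X a w j k = false := bf (fun t => s103 t n2)
    have u7 : T.X a w k z = false := bf (fun t => s115 u6 t)
    have u8 : T.X a z k l = true := bt (fun t => s105 u5 t u7)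
    have u9 : T.X a j k l = true := bt (fun t => s85 t u4 u8)
    have u10 : T.X a o j l = false := bf (fun t => s87 u9 t)
    have u11 : T.X a o i w = false := bf (fun t => s93 t n1)
    have u12 : T.X a i j w = true := bt (fun t => s132 t n1)
    have u13 : T.X a l j o = false := bf (fun t => s142 t u12 n2)
    have u14 : T.X a l i o = false := bf (fun t => s123 t u13)
    have u15 : T.X a k j o = false := bf (fun t => g61 u9 t u13 u10)
    have u16 : T.X i j l o = false := bf (fun t => s139 u13 t u11 u9)
    have u17 : T.X a k l o = true := bt (fun t => s141 u13 t u11 n2)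
    have u18 : T.X a k i o = false := bf (fun t => s99 t u15)
    have u19 : T.X a i l o = false := bf (fun t => s120 t u16)
    have u20 : T.X a i k l = false := bf (fun t => g9 t u19 u17)
    have u21 : T.X a k i w = false := bf (fun t => g55 u18 t u11 u3)
    have u22 : T.X a i l w = false := bf (fun t => s108 u20 t)
    have u23 : T.X a i k w = false := bf (fun t => s121 u20 t)
    have u24 : T.X i o k l = false := bf (fun t => s128 u20 u18 u14 t)
    have u25 : T.X i w k l = true := bt (fun t => s114 u20 u21 t)
    have u26 : T.X i w l o = false := bf (fun t => g25 u14 u22 u3 u1 t)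
    have u27 : T.X i o k w = true := bt (fun t => g40 u18 u23 u3 u2 t)
    exact s127 u24 u25 u27 u26
  have s144 : T.X a w j l = false → T.X k l o w = true → False := fun n1 n2 => by
    have u1 : T.X a l j k = false := bf (fun t => s100 t n1)
    have u2 : T.X a w j k = false := bf (fun t => s103 t n1)
    have u3 : T.X j w k l = false := bf (fun t => s135 n1 t)
    have u4 : T.X a l j z = false := bf (fun t => s104 u1 t)
    have u5 : T.X a l k z = false := bf (fun t => s112 u1 t)
    have u6 : T.X a w j z = false := bf (fun t => s91 u2 t)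
    have u7 : T.X a w k z = false := bf (fun t => s115 u2 t)
    have u8 : T.X a z k l = true := bt (fun t => s105 u5 t u7)
    have u9 : T.X a k j l = false := bf (fun t => s102 t u8)
    have u10 : T.X a j k l = true := bt (fun t => s85 t u1 u8)
    have u11 : T.X a k j w = false := bf (fun t => s126 u9 t n1)
    have u12 : T.X a z j w = false := bf (fun t => s125 u11 u2 t)
    have u13 : T.X a l j w = false := bf (fun t => g26 u4 t u12 u6)
    have u14 : T.X a o j w = true := bt (fun t => s143 t n1)
    have u15 : T.X j l o w = false := bf (fun t => g24 u13 u14 t)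
    have u16 : T.X a l j o = false := bf (fun t => g43 t u13 u14)
    have u17 : T.X j l k o = false := bf (fun t => s84 u10 u16 t)
    have u18 : T.X j w k o = false := bf (fun t => g37 u17 u3 t u15 n2)
    have u19 : T.X a w k o = false := bf (fun t => g60 u14 t u18)
    have u20 : T.X a j k o = true := bt (fun t => g75 t u11 u14 u18)
    have u21 : T.X a l k o = true := bt (fun t => s106 t u19)
    exact g15 u20 u21 u17
  have s145 : T.X a w j l = true → False := fun n1 => by
    have u1 : T.X a o l w = false := bf (fun t => s110 t)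
    have u2 : T.X a w j o = false := bf (fun t => s134 t)
    have u3 : T.X a j l w = false := bf (fun t => g32 t n1)
    have u4 : T.X a l i j = false := bf (fun t => s117 t n1)
    have u5 : T.X j o l w = false := bf (fun t => s136 n1 t)
    have u6 : T.X a l j o = true := bt (fun t => g17 t u3 u2 u1 u5)
    exact s92 u4 u6
  have s146 : T.X a l j k = true → False := fun n1 => by
    have u1 : T.X a w j l = false := bf (fun t => s145 t)
    exact s100 n1 u1
  have s147 : T.X a w j k = true → False := fun n1 => by
    have u1 : T.X a w j l = false := bf (fun t => s145 t)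
    exact s103 n1 u1
  have s149 : T.X a o j w = false → False := fun n1 => by
    have u1 : T.X a w j l = false := bf (fun t => s145 t)
    exact s143 n1 u1
  have s150 : T.X k l o w = true → False := fun n1 => by
    have u1 : T.X a w j l = false := bf (fun t => s145 t)
    exact s144 u1 n1
  have s151 : T.X a l j z = true → False := fun n1 => by
    have u1 : T.X a l j k = false := bf (fun t => s146 t)
    exact s104 u1 n1
  have s152 : T.X a l k z = true → False := fun n1 => by
    have u1 : T.X a l j k = false := bf (fun t => s146 t)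
    exact s112 u1 n1
  have s153 : T.X a w j z = true → False := fun n1 => by
    have u1 : T.X a w j k = false := bf (fun t => s147 t)
    exact s91 u1 n1
  have s154 : T.X a w k z = true → False := fun n1 => by
    have u1 : T.X a w j k = false := bf (fun t => s147 t)
    exact s115 u1 n1
  have s155 : T.X a l o w = false → False := fun n1 => by
    have u1 : T.X k l o w = false := bf (fun t => s150 t)
    exact s94 n1 u1
  have s156 : T.X a z k l = false → False := fun n1 => by
    have u1 : T.X a w k z = false := bf (fun t => s154 t)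
    have u2 : T.X a l k z = false := bf (fun t => s152 t)
    exact s105 u2 n1 u1
  have s157 : T.X a l j w = false → False := fun n1 => by
    have u1 : T.X a l o w = true := bt (fun t => s155 t)
    have u2 : T.X a o j w = true := bt (fun t => s149 t)
    exact g29 n1 u2 u1
  have s158 : T.X a k j l = true → False := fun n1 => by
    have u1 : T.X a z k l = true := bt (fun t => s156 t)
    exact s102 n1 u1
  have s160 : T.X a z j w = false → False := fun n1 => by
    have u1 : T.X a l j w = true := bt (fun t => s157 t)
    have u2 : T.X a l j z = false := bf (fun t => s151 t)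
    have u3 : T.X a w j z = false := bf (fun t => s153 t)
    exact g26 u2 u1 n1 u3
  have s161 : T.X a k j w = true → False := fun n1 => by
    have u1 : T.X a k j l = false := bf (fun t => s158 t)
    have u2 : T.X a w j l = false := bf (fun t => s145 t)
    exact s126 u1 n1 u2
  have u1 : T.X a k j w = false := bf (fun t => s161 t)
  have u2 : T.X a z j w = true := bt (fun t => s160 t)
  have u3 : T.X a w j k = false := bf (fun t => s147 t)
  exact s125 u1 u3 u2

theorem n1_z2 {a i j k l o z w : V} (h : T.RotL a [i, j, k, l, o, z, w])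
    (h1 : T.X a o i j = true)
    (h2 : T.X a o k l = false)
    (h3 : T.X a w k l = true)
    (h4 : T.X a w i j = false)
    (h5 : T.X a z j k = true) : False := by
  have g6 := c5a_9506_32 (h.four (.cons _ (.cons_cons _ (.cons_cons _ (.cons _ (.cons_cons _ (.cons _ (.cons_cons _ (List.nil_sublist _)))))))))
  have g7 := c5a_2082_2082 (h.four (.cons_cons _ (.cons_cons _ (.cons_cons _ (.cons _ (.cons _ (.cons_cons _ (List.nil_sublist _))))))))
  have g8 := c5a_1176_128 (h.four (.cons _ (.cons_cons _ (.cons _ (.cons_cons _ (.cons_cons _ (.cons_cons _ (List.nil_sublist _))))))))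
  have g9 := c5a_18592_16416 (h.four (.cons _ (.cons_cons _ (.cons_cons _ (.cons_cons _ (.cons_cons _ (List.nil_sublist _)))))))
  have g10 := c5a_289_33 (h.four (.cons _ (.cons _ (.cons_cons _ (.cons_cons _ (.cons _ (.cons_cons _ (.cons_cons _ (List.nil_sublist _)))))))))
  have g11 := c5a_16420_16416 (h.four (.cons_cons _ (.cons_cons _ (.cons_cons _ (.cons _ (.cons _ (.cons_cons _ (List.nil_sublist _))))))))
  have g12 := c5a_2057_2056 (h.four (.cons_cons _ (.cons_cons _ (.cons_cons _ (.cons _ (.cons _ (.cons_cons _ (List.nil_sublist _))))))))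
  have g13 := c5a_642_640 (h.four (.cons_cons _ (.cons_cons _ (.cons_cons _ (.cons_cons _ (List.nil_sublist _))))))
  have g14 := c5a_1060_1056 (h.four (.cons_cons _ (.cons_cons _ (.cons_cons _ (.cons _ (.cons_cons _ (List.nil_sublist _)))))))
  have g15 := c5a_1608_64 (h.four (.cons _ (.cons_cons _ (.cons_cons _ (.cons_cons _ (.cons _ (.cons_cons _ (List.nil_sublist _))))))))
  have g16 := c5a_164_160 (h.four (.cons _ (.cons_cons _ (.cons_cons _ (.cons_cons _ (.cons _ (.cons_cons _ (List.nil_sublist _))))))))
  have g17 := c5a_2084_2052 (h.four (.cons _ (.cons_cons _ (.cons_cons _ (.cons_cons _ (.cons _ (.cons _ (.cons_cons _ (List.nil_sublist _)))))))))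
  have g18 := c5a_18449_2048 (h.four (.cons _ (.cons_cons _ (.cons_cons _ (.cons_cons _ (.cons _ (.cons _ (.cons_cons _ (List.nil_sublist _)))))))))
  have g19 := c5a_9506_32 (h.four (.cons _ (.cons_cons _ (.cons _ (.cons_cons _ (.cons_cons _ (.cons _ (.cons_cons _ (List.nil_sublist _)))))))))
  have g20 := c5a_2084_2052 (h.four (.cons_cons _ (.cons_cons _ (.cons _ (.cons_cons _ (.cons _ (.cons _ (.cons_cons _ (List.nil_sublist _)))))))))
  have g21 := c5a_294_32 (h.four (.cons _ (.cons_cons _ (.cons_cons _ (.cons _ (.cons_cons _ (.cons _ (.cons_cons _ (List.nil_sublist _)))))))))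
  have g22 := c5a_1044_20 (h.four (.cons_cons _ (.cons_cons _ (.cons _ (.cons _ (.cons_cons _ (.cons_cons _ (List.nil_sublist _))))))))
  have g23 := c5a_2085_2080 (h.four (.cons _ (.cons_cons _ (.cons_cons _ (.cons_cons _ (.cons _ (.cons_cons _ (List.nil_sublist _))))))))
  have g24 := c5a_1068_4 (h.four (.cons_cons _ (.cons_cons _ (.cons _ (.cons _ (.cons_cons _ (.cons_cons _ (List.nil_sublist _))))))))
  have g25 := c5a_292_260 (h.four (.cons_cons _ (.cons_cons _ (.cons _ (.cons_cons _ (.cons _ (.cons _ (.cons_cons _ (List.nil_sublist _)))))))))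
  have g26 := c5a_164_160 (h.four (.cons _ (.cons _ (.cons_cons _ (.cons_cons _ (.cons_cons _ (.cons _ (.cons_cons _ (List.nil_sublist _)))))))))
  have g27 := c5_1188_1184 (h.five (.cons _ (.cons_cons _ (.cons_cons _ (.cons_cons _ (.cons_cons _ (.cons _ (.cons_cons _ (List.nil_sublist _)))))))))
  have g28 := c5a_2305_257 (h.four (.cons _ (.cons_cons _ (.cons_cons _ (.cons_cons _ (.cons_cons _ (List.nil_sublist _)))))))
  have g29 := c5a_2307_2048 (h.four (.cons_cons _ (.cons _ (.cons_cons _ (.cons_cons _ (.cons _ (.cons _ (.cons_cons _ (List.nil_sublist _)))))))))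
  have g30 := c5a_2081_33 (h.four (.cons_cons _ (.cons_cons _ (.cons _ (.cons_cons _ (.cons_cons _ (List.nil_sublist _)))))))
  have g31 := c5a_2084_2052 (h.four (.cons_cons _ (.cons_cons _ (.cons _ (.cons _ (.cons_cons _ (.cons _ (.cons_cons _ (List.nil_sublist _)))))))))
  have g32 := c5a_6145_6144 (h.four (.cons_cons _ (.cons_cons _ (.cons _ (.cons_cons _ (.cons _ (.cons_cons _ (List.nil_sublist _))))))))
  have g33 := c5a_2336_2080 (h.four (.cons _ (.cons_cons _ (.cons_cons _ (.cons_cons _ (.cons _ (.cons _ (.cons_cons _ (List.nil_sublist _)))))))))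
  have g34 := c5a_18449_2048 (h.four (.cons_cons _ (.cons_cons _ (.cons_cons _ (.cons _ (.cons _ (.cons_cons _ (List.nil_sublist _))))))))
  have g35 := c5a_1060_1056 (h.four (.cons _ (.cons _ (.cons_cons _ (.cons_cons _ (.cons_cons _ (.cons _ (.cons_cons _ (List.nil_sublist _)))))))))
  have g36 := c5a_3072_3072 (h.four (.cons_cons _ (.cons_cons _ (.cons_cons _ (.cons _ (.cons _ (.cons _ (.cons_cons _ (List.nil_sublist _)))))))))
  have g37 := c5a_1060_1056 (h.four (.cons _ (.cons_cons _ (.cons_cons _ (.cons_cons _ (.cons _ (.cons_cons _ (List.nil_sublist _))))))))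
  have g38 := c5a_2084_2052 (h.four (.cons _ (.cons_cons _ (.cons_cons _ (.cons _ (.cons _ (.cons_cons _ (.cons_cons _ (List.nil_sublist _)))))))))
  have g39 := c5a_4644_32 (h.four (.cons_cons _ (.cons_cons _ (.cons _ (.cons_cons _ (.cons _ (.cons_cons _ (List.nil_sublist _))))))))
  have g40 := c5a_1060_1056 (h.four (.cons_cons _ (.cons_cons _ (.cons _ (.cons_cons _ (.cons_cons _ (List.nil_sublist _)))))))
  have g41 := c5a_1060_1056 (h.four (.cons _ (.cons _ (.cons_cons _ (.cons_cons _ (.cons_cons _ (.cons_cons _ (List.nil_sublist _))))))))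
  have g42 := c5a_2084_2052 (h.four (.cons_cons _ (.cons_cons _ (.cons_cons _ (.cons _ (.cons _ (.cons _ (.cons_cons _ (List.nil_sublist _)))))))))
  have g43 := c5a_2336_2080 (h.four (.cons _ (.cons_cons _ (.cons_cons _ (.cons_cons _ (.cons _ (.cons_cons _ (List.nil_sublist _))))))))
  have g44 := c5a_588_580 (h.four (.cons_cons _ (.cons_cons _ (.cons_cons _ (.cons_cons _ (List.nil_sublist _))))))
  have g45 := c5a_2560_2560 (h.four (.cons_cons _ (.cons_cons _ (.cons_cons _ (.cons _ (.cons _ (.cons_cons _ (List.nil_sublist _))))))))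
  have g46 := c5a_2081_33 (h.four (.cons_cons _ (.cons_cons _ (.cons_cons _ (.cons _ (.cons_cons _ (List.nil_sublist _)))))))
  have g47 := c5a_2081_33 (h.four (.cons _ (.cons_cons _ (.cons_cons _ (.cons_cons _ (.cons_cons _ (List.nil_sublist _)))))))
  have g48 := c5a_294_32 (h.four (.cons _ (.cons _ (.cons_cons _ (.cons_cons _ (.cons _ (.cons_cons _ (.cons_cons _ (List.nil_sublist _)))))))))
  have s49 : T.X a j i k = true → T.X a z i j = true → False := fun n1 n2 => by
    exact g7 n1 n2 h5
  have s50 : T.X a o j k = true → T.X a l j o = false → T.X j o k l = true → False := fun n1 n2 n3 => by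
    exact g9 n1 n2 h2 n3
  have s51 : T.X a k l z = true → T.X a w k z = false → False := fun n1 n2 => by
    exact g10 n1 h3 n2
  have s52 : T.X a i j k = false → T.X a i j z = true → False := fun n1 n2 => by
    exact g12 n1 n2 h5
  have s53 : T.X a k i j = false → T.X a k j o = true → False := fun n1 n2 => by
    exact g14 n1 h1 n2
  have s54 : T.X a l j k = false → T.X a l j z = true → False := fun n1 n2 => by
    exact g16 n1 h5 n2
  have s55 : T.X a l j k = true → T.X a w j k = false → False := fun n1 n2 => by
    exact g17 n1 n2 h3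
  have s56 : T.X a j k l = false → T.X a k j w = false → T.X j w k l = false → False := fun n1 n2 n3 => by
    exact g18 n1 n2 h3 n3
  have s57 : T.X a l i j = true → T.X a w j l = true → False := fun n1 n2 => by
    exact g20 n1 h4 n2
  have s58 : T.X a j i z = true → T.X a o j z = false → False := fun n1 n2 => by
    exact g22 h1 n1 n2
  have s59 : T.X a j k l = false → T.X a l j k = false → T.X a z k l = true → False := fun n1 n2 n3 => by
    exact g23 n1 n2 h5 n3
  have s60 : T.X a i j z = false → T.X a z i j = false → T.X a o j z = false → False := fun n1 n2 n3 => by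
    exact g24 h1 n1 n2 n3
  have s61 : T.X a l i j = true → T.X a w i l = true → False := fun n1 n2 => by
    exact g25 n1 h4 n2
  have s62 : T.X a o k w = true → False := fun n1 => by
    exact g26 h2 h3 n1
  have s63 : T.X a j k l = true → T.X a o j l = true → False := fun n1 n2 => by
    exact g28 n1 n2 h2
  have s64 : T.X a i k l = false → T.X a k i l = false → T.X a w i l = false → False := fun n1 n2 n3 => by
    exact g29 n1 n2 n3 h3
  have s65 : T.X a i j l = true → T.X a o j l = false → False := fun n1 n2 => by
    exact g30 n1 h1 n2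
  have s66 : T.X a w j o = true → False := fun n1 => by
    exact g31 h1 h4 n1
  have s67 : T.X a w j k = true → T.X a w j l = false → False := fun n1 n2 => by
    exact g33 n1 n2 h3
  have s68 : T.X a i j k = false → T.X a j i z = false → T.X i z j k = false → False := fun n1 n2 n3 => by
    exact g34 n1 n2 h5 n3
  have s69 : T.X a o l w = true → False := fun n1 => by
    exact g35 h2 h3 n1
  have s70 : T.X a l j k = false → T.X a l k z = true → False := fun n1 n2 => by
    exact g37 n1 h5 n2
  have s71 : T.X a w j k = false → T.X a w k z = true → False := fun n1 n2 => by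
    exact g38 h5 n1 n2
  have s72 : T.X a l i j = false → T.X a l j o = true → False := fun n1 n2 => by
    exact g40 n1 h1 n2
  have s73 : T.X a z k l = true → T.X a o l z = true → False := fun n1 n2 => by
    exact g41 h2 n1 n2
  have s74 : T.X a k i j = true → T.X a w j k = true → False := fun n1 n2 => by
    exact g42 n1 h4 n2
  have s75 : T.X a z j l = false → T.X a z k l = true → False := fun n1 n2 => by
    exact g43 h5 n1 n2
  have s76 : T.X a j k z = true → False := fun n1 => by
    exact g45 n1 h5
  have s77 : T.X a i j k = true → T.X a o j k = false → False := fun n1 n2 => by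
    exact g46 n1 h1 n2
  have s78 : T.X a j k l = true → T.X a o j k = true → False := fun n1 n2 => by
    exact g47 n1 n2 h2
  have s79 : T.X a l k z = false → T.X a z k l = false → T.X a w k z = false → False := fun n1 n2 n3 => by
    exact g48 n1 n2 h3 n3
  have s80 : T.X a w j k = true → T.X j o k l = true → False := fun n1 n2 => by
    have u1 : T.X a w j o = false := bf (fun t => s66 t)
    have u2 : T.X a w j l = true := bt (fun t => s67 n1 t)
    have u3 : T.X a k i j = false := bf (fun t => s74 t n1)
    have u4 : T.X a l i j = false := bf (fun t => s57 t u2)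
    have u5 : T.X a k j o = false := bf (fun t => s53 u3 t)
    have u6 : T.X a l j o = false := bf (fun t => s72 u4 t)
    have u7 : T.X a o j k = true := bt (fun t => g21 u5 t n1 u1)
    exact s50 u7 u6 n2
  have s81 : T.X a w j k = false → False := fun n1 => by
    have u1 : T.X a j k z = false := bf (fun t => s76 t)
    have u2 : T.X a l j k = false := bf (fun t => s55 t n1)
    have u3 : T.X a w k z = false := bf (fun t => s71 n1 t)
    have u4 : T.X a l j z = false := bf (fun t => s54 u2 t)
    have u5 : T.X a l k z = false := bf (fun t => s70 u2 t)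
    have u6 : T.X a k l z = false := bf (fun t => s51 t u3)
    have u7 : T.X a z k l = true := bt (fun t => s79 u5 t u3)
    have u8 : T.X a j l z = false := bf (fun t => g15 u1 t u6 u5)
    have u9 : T.X a o l z = false := bf (fun t => s73 u7 t)
    have u10 : T.X a z j l = true := bt (fun t => s75 t u7)
    have u11 : T.X a j k l = true := bt (fun t => s59 t u2 u7)
    have u12 : T.X a o j z = false := bf (fun t => g8 u8 u4 t u9)
    have u13 : T.X a o j l = false := bf (fun t => s63 u11 t)
    have u14 : T.X a o j k = false := bf (fun t => s78 u11 t)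
    have u15 : T.X a j i z = false := bf (fun t => s58 t u12)
    have u16 : T.X a i j l = false := bf (fun t => s65 t u13)
    have u17 : T.X a i j k = false := bf (fun t => s77 t u14)
    have u18 : T.X i j l z = false := bf (fun t => g32 u16 u10 t)
    have u19 : T.X a i j z = false := bf (fun t => s52 u17 t)
    have u20 : T.X i z j k = true := bt (fun t => s68 u17 u15 t)
    have u21 : T.X a z i j = true := bt (fun t => s60 u19 t u12)
    have u22 : T.X a j i k = false := bf (fun t => s49 t u21)
    have u23 : T.X a k i j = true := bt (fun t => g11 t u21 u20)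
    have u24 : T.X a l i j = true := bt (fun t => g39 t u21 u8 u18)
    have u25 : T.X a k i l = false := bf (fun t => g13 u22 t u11)
    have u26 : T.X a i k l = false := bf (fun t => g44 u23 u16 t u11)
    have u27 : T.X a w i l = false := bf (fun t => s61 u24 t)
    exact s64 u26 u25 u27
  have s82 : T.X a w j l = false → False := fun n1 => by
    have u1 : T.X a w j k = true := bt (fun t => s81 t)
    exact s67 u1 n1
  have s83 : T.X a k j w = true → False := fun n1 => by
    have u1 : T.X a w j k = true := bt (fun t => s81 t)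
    exact g36 n1 u1
  have s84 : T.X a k i j = true → False := fun n1 => by
    have u1 : T.X a w j k = true := bt (fun t => s81 t)
    exact s74 n1 u1
  have s85 : T.X j o k l = true → False := fun n1 => by
    have u1 : T.X a w j k = true := bt (fun t => s81 t)
    exact s80 u1 n1
  have s86 : T.X a l i j = true → False := fun n1 => by
    have u1 : T.X a w j l = true := bt (fun t => s82 t)
    exact s57 n1 u1
  have s87 : T.X a k j o = true → False := fun n1 => by
    have u1 : T.X a k i j = false := bf (fun t => s84 t)
    exact s53 u1 n1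
  have s88 : T.X a l j o = true → False := fun n1 => by
    have u1 : T.X a l i j = false := bf (fun t => s86 t)
    exact s72 u1 n1
  have s89 : T.X j o k w = false → False := fun n1 => by
    have u1 : T.X a k j o = false := bf (fun t => s87 t)
    have u2 : T.X a w j o = false := bf (fun t => s66 t)
    have u3 : T.X a o k w = false := bf (fun t => s62 t)
    have u4 : T.X a w j k = true := bt (fun t => s81 t)
    exact g6 u1 u4 u2 u3 n1
  have s90 : T.X a o j k = false → False := fun n1 => by
    have u1 : T.X a k j o = false := bf (fun t => s87 t)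
    have u2 : T.X a w j k = true := bt (fun t => s81 t)
    have u3 : T.X a w j o = false := bf (fun t => s66 t)
    exact g21 u1 n1 u2 u3
  have s91 : T.X a j k l = true → False := fun n1 => by
    have u1 : T.X a o j k = true := bt (fun t => s90 t)
    exact s78 n1 u1
  have s92 : T.X j w k l = false → False := fun n1 => by
    have u1 : T.X a j k l = false := bf (fun t => s91 t)
    have u2 : T.X a k j w = false := bf (fun t => s83 t)
    exact s56 u1 u2 n1
  have s93 : T.X j o l w = false → False := fun n1 => by
    have u1 : T.X a l j o = false := bf (fun t => s88 t)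
    have u2 : T.X a w j o = false := bf (fun t => s66 t)
    have u3 : T.X a o l w = false := bf (fun t => s69 t)
    have u4 : T.X a w j l = true := bt (fun t => s82 t)
    exact g19 u1 u4 u2 u3 n1
  have u1 : T.X j w k l = true := bt (fun t => s92 t)
  have u2 : T.X j o k w = true := bt (fun t => s89 t)
  have u3 : T.X j o k l = false := bf (fun t => s85 t)
  have u4 : T.X j o l w = true := bt (fun t => s93 t)
  exact g27 u3 u1 u2 u4

theorem n1_z3 {a i j k l o w z : V} (h : T.RotL a [i, j, k, l, o, w, z])
    (h1 : T.X a o i j = true)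
    (h2 : T.X a o k l = false)
    (h3 : T.X a w k l = true)
    (h4 : T.X a w i j = false)
    (h5 : T.X a z j k = true) : False := by
  have g6 := c5a_1060_1056 (h.four (.cons_cons _ (.cons_cons _ (.cons _ (.cons_cons _ (.cons_cons _ (List.nil_sublist _)))))))
  have g7 := c5a_2336_2080 (h.four (.cons _ (.cons_cons _ (.cons_cons _ (.cons_cons _ (.cons _ (.cons_cons _ (List.nil_sublist _))))))))
  have g8 := c5a_292_260 (h.four (.cons_cons _ (.cons_cons _ (.cons _ (.cons_cons _ (.cons _ (.cons_cons _ (List.nil_sublist _))))))))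
  have g9 := c5a_1068_4 (h.four (.cons _ (.cons_cons _ (.cons_cons _ (.cons _ (.cons_cons _ (.cons_cons _ (List.nil_sublist _))))))))
  have g10 := c5a_4708_4096 (h.four (.cons_cons _ (.cons_cons _ (.cons _ (.cons_cons _ (.cons _ (.cons_cons _ (List.nil_sublist _))))))))
  have g11 := c5a_4644_32 (h.four (.cons_cons _ (.cons_cons _ (.cons _ (.cons_cons _ (.cons_cons _ (List.nil_sublist _)))))))
  have g12 := c5a_1060_1056 (h.four (.cons_cons _ (.cons_cons _ (.cons_cons _ (.cons_cons _ (List.nil_sublist _))))))
  have g13 := c5a_18449_2048 (h.four (.cons_cons _ (.cons _ (.cons_cons _ (.cons_cons _ (.cons _ (.cons_cons _ (List.nil_sublist _))))))))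
  have g14 := c5_6241_2112 (h.five (.cons_cons _ (.cons_cons _ (.cons_cons _ (.cons_cons _ (.cons _ (.cons_cons _ (List.nil_sublist _))))))))
  have g15 := c5a_2081_33 (h.four (.cons_cons _ (.cons_cons _ (.cons_cons _ (.cons _ (.cons_cons _ (List.nil_sublist _)))))))
  have g16 := c5a_8992_8736 (h.four (.cons _ (.cons_cons _ (.cons _ (.cons_cons _ (.cons_cons _ (.cons_cons _ (List.nil_sublist _))))))))
  have g17 := c5a_6145_6144 (h.four (.cons_cons _ (.cons_cons _ (.cons _ (.cons_cons _ (.cons _ (.cons _ (.cons_cons _ (List.nil_sublist _)))))))))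
  have g18 := c5a_289_33 (h.four (.cons _ (.cons_cons _ (.cons_cons _ (.cons_cons _ (.cons _ (.cons _ (.cons_cons _ (List.nil_sublist _)))))))))
  have g19 := c5a_1060_1056 (h.four (.cons _ (.cons_cons _ (.cons_cons _ (.cons_cons _ (.cons _ (.cons _ (.cons_cons _ (List.nil_sublist _)))))))))
  have g20 := c5a_2307_2048 (h.four (.cons_cons _ (.cons _ (.cons _ (.cons_cons _ (.cons_cons _ (.cons_cons _ (List.nil_sublist _))))))))
  have g21 := c5a_1068_4 (h.four (.cons_cons _ (.cons_cons _ (.cons _ (.cons _ (.cons_cons _ (.cons _ (.cons_cons _ (List.nil_sublist _)))))))))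
  have g22 := c5a_4240_4224 (h.four (.cons_cons _ (.cons_cons _ (.cons_cons _ (.cons _ (.cons _ (.cons_cons _ (List.nil_sublist _))))))))
  have g23 := c5a_164_160 (h.four (.cons _ (.cons _ (.cons_cons _ (.cons_cons _ (.cons_cons _ (.cons_cons _ (List.nil_sublist _))))))))
  have g24 := c5a_4644_32 (h.four (.cons_cons _ (.cons_cons _ (.cons _ (.cons_cons _ (.cons _ (.cons _ (.cons_cons _ (List.nil_sublist _)))))))))
  have g25 := c5a_2305_257 (h.four (.cons _ (.cons_cons _ (.cons_cons _ (.cons_cons _ (.cons_cons _ (List.nil_sublist _)))))))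
  have g26 := c5a_2057_2056 (h.four (.cons_cons _ (.cons_cons _ (.cons _ (.cons_cons _ (.cons _ (.cons _ (.cons_cons _ (List.nil_sublist _)))))))))
  have g27 := c5a_2081_33 (h.four (.cons_cons _ (.cons_cons _ (.cons _ (.cons_cons _ (.cons_cons _ (List.nil_sublist _)))))))
  have g28 := c5a_3081_1 (h.four (.cons_cons _ (.cons _ (.cons_cons _ (.cons_cons _ (.cons _ (.cons _ (.cons_cons _ (List.nil_sublist _)))))))))
  have g29 := c5a_9482_0 (h.four (.cons_cons _ (.cons _ (.cons _ (.cons_cons _ (.cons_cons _ (.cons_cons _ (List.nil_sublist _))))))))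
  have g30 := c5a_2081_33 (h.four (.cons _ (.cons_cons _ (.cons_cons _ (.cons_cons _ (.cons_cons _ (List.nil_sublist _)))))))
  have g31 := c5_9225_9217 (h.five (.cons_cons _ (.cons_cons _ (.cons _ (.cons_cons _ (.cons_cons _ (.cons_cons _ (List.nil_sublist _))))))))
  have g32 := c5a_2057_2056 (h.four (.cons _ (.cons_cons _ (.cons_cons _ (.cons_cons _ (.cons _ (.cons_cons _ (List.nil_sublist _))))))))
  have g33 := c5a_1060_1056 (h.four (.cons _ (.cons_cons _ (.cons_cons _ (.cons _ (.cons _ (.cons_cons _ (.cons_cons _ (List.nil_sublist _)))))))))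
  have g34 := c5a_802_544 (h.four (.cons_cons _ (.cons_cons _ (.cons_cons _ (.cons_cons _ (List.nil_sublist _))))))
  have g35 := c5a_16420_16388 (h.four (.cons_cons _ (.cons_cons _ (.cons_cons _ (.cons _ (.cons _ (.cons_cons _ (List.nil_sublist _))))))))
  have g36 := c5a_4192_96 (h.four (.cons_cons _ (.cons_cons _ (.cons _ (.cons_cons _ (.cons_cons _ (List.nil_sublist _)))))))
  have g37 := c5a_2113_2112 (h.four (.cons_cons _ (.cons_cons _ (.cons_cons _ (.cons _ (.cons _ (.cons _ (.cons_cons _ (List.nil_sublist _)))))))))
  have g38 := c5a_2308_2052 (h.four (.cons _ (.cons_cons _ (.cons_cons _ (.cons_cons _ (.cons _ (.cons_cons _ (List.nil_sublist _))))))))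
  have g39 := c5a_18560_2176 (h.four (.cons_cons _ (.cons _ (.cons_cons _ (.cons_cons _ (.cons _ (.cons_cons _ (List.nil_sublist _))))))))
  have g40 := c5a_2113_2112 (h.four (.cons _ (.cons_cons _ (.cons_cons _ (.cons_cons _ (.cons _ (.cons_cons _ (List.nil_sublist _))))))))
  have g41 := c5a_73_65 (h.four (.cons _ (.cons_cons _ (.cons_cons _ (.cons_cons _ (.cons _ (.cons _ (.cons_cons _ (List.nil_sublist _)))))))))
  have g42 := c5a_2085_2080 (h.four (.cons _ (.cons_cons _ (.cons_cons _ (.cons_cons _ (.cons _ (.cons _ (.cons_cons _ (List.nil_sublist _)))))))))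
  have g43 := c5a_8740_8224 (h.four (.cons _ (.cons_cons _ (.cons _ (.cons_cons _ (.cons_cons _ (.cons_cons _ (List.nil_sublist _))))))))
  have g44 := c5a_4452_4132 (h.four (.cons_cons _ (.cons_cons _ (.cons_cons _ (.cons_cons _ (List.nil_sublist _))))))
  have g45 := c5a_48_48 (h.four (.cons_cons _ (.cons_cons _ (.cons_cons _ (.cons_cons _ (List.nil_sublist _))))))
  have g46 := c5a_2085_2080 (h.four (.cons _ (.cons_cons _ (.cons_cons _ (.cons _ (.cons _ (.cons_cons _ (.cons_cons _ (List.nil_sublist _)))))))))
  have g47 := c5a_3081_1 (h.four (.cons_cons _ (.cons _ (.cons_cons _ (.cons _ (.cons _ (.cons_cons _ (.cons_cons _ (List.nil_sublist _)))))))))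
  have g48 := c5a_4196_4 (h.four (.cons_cons _ (.cons_cons _ (.cons_cons _ (.cons _ (.cons _ (.cons_cons _ (List.nil_sublist _))))))))
  have g49 := c5a_2308_2052 (h.four (.cons_cons _ (.cons _ (.cons_cons _ (.cons_cons _ (.cons _ (.cons_cons _ (List.nil_sublist _))))))))
  have g50 := c5a_164_160 (h.four (.cons _ (.cons_cons _ (.cons_cons _ (.cons _ (.cons_cons _ (.cons _ (.cons_cons _ (List.nil_sublist _)))))))))
  have g51 := c5a_2084_2052 (h.four (.cons_cons _ (.cons_cons _ (.cons _ (.cons _ (.cons_cons _ (.cons_cons _ (List.nil_sublist _))))))))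
  have g52 := c5a_2307_2048 (h.four (.cons _ (.cons_cons _ (.cons_cons _ (.cons_cons _ (.cons _ (.cons_cons _ (List.nil_sublist _))))))))
  have g53 := c5a_6464_6144 (h.four (.cons _ (.cons_cons _ (.cons_cons _ (.cons_cons _ (.cons _ (.cons_cons _ (List.nil_sublist _))))))))
  have g54 := c5a_1060_1056 (h.four (.cons _ (.cons _ (.cons_cons _ (.cons_cons _ (.cons_cons _ (.cons_cons _ (List.nil_sublist _))))))))
  have g55 := c5a_9482_0 (h.four (.cons _ (.cons_cons _ (.cons _ (.cons_cons _ (.cons_cons _ (.cons_cons _ (List.nil_sublist _))))))))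
  have g56 := c5a_2113_2112 (h.four (.cons_cons _ (.cons _ (.cons_cons _ (.cons_cons _ (.cons _ (.cons_cons _ (List.nil_sublist _))))))))
  have g57 := c5a_2084_2052 (h.four (.cons_cons _ (.cons_cons _ (.cons _ (.cons_cons _ (.cons _ (.cons_cons _ (List.nil_sublist _))))))))
  have g58 := c5a_164_160 (h.four (.cons_cons _ (.cons_cons _ (.cons _ (.cons_cons _ (.cons_cons _ (List.nil_sublist _)))))))
  have g59 := c5a_402_16 (h.four (.cons_cons _ (.cons_cons _ (.cons _ (.cons_cons _ (.cons _ (.cons_cons _ (List.nil_sublist _))))))))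
  have g60 := c5a_3081_1 (h.four (.cons _ (.cons_cons _ (.cons _ (.cons_cons _ (.cons_cons _ (.cons_cons _ (List.nil_sublist _))))))))
  have g61 := c5a_2305_257 (h.four (.cons_cons _ (.cons _ (.cons_cons _ (.cons_cons _ (.cons_cons _ (List.nil_sublist _)))))))
  have g62 := c5a_2336_2080 (h.four (.cons_cons _ (.cons_cons _ (.cons _ (.cons_cons _ (.cons_cons _ (List.nil_sublist _)))))))
  have g63 := c5a_4196_4 (h.four (.cons_cons _ (.cons_cons _ (.cons _ (.cons_cons _ (.cons _ (.cons_cons _ (List.nil_sublist _))))))))
  have g64 := c5a_2082_2082 (h.four (.cons_cons _ (.cons_cons _ (.cons_cons _ (.cons _ (.cons _ (.cons _ (.cons_cons _ (List.nil_sublist _)))))))))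
  have g65 := c5a_2560_2560 (h.four (.cons_cons _ (.cons_cons _ (.cons_cons _ (.cons _ (.cons _ (.cons _ (.cons_cons _ (List.nil_sublist _)))))))))
  have g66 := c5a_292_260 (h.four (.cons_cons _ (.cons_cons _ (.cons _ (.cons _ (.cons_cons _ (.cons_cons _ (List.nil_sublist _))))))))
  have s67 : T.X a l i j = false → T.X a l j o = true → False := fun n1 n2 => by
    exact g6 n1 h1 n2
  have s68 : T.X a w j k = true → T.X a w j l = false → False := fun n1 n2 => by
    exact g7 n1 n2 h3
  have s69 : T.X a l i j = true → T.X a w i l = true → False := fun n1 n2 => by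
    exact g8 n1 h4 n2
  have s70 : T.X a l i j = false → T.X a i l w = false → T.X a j l w = false → T.X i j l w = true → False := fun n1 n2 n3 n4 => by
    exact g10 n1 h4 n2 n3 n4
  have s71 : T.X a l i j = false → T.X a j l o = false → T.X i j l o = false → False := fun n1 n2 n3 => by
    exact g11 n1 h1 n2 n3
  have s72 : T.X a i k l = false → T.X a k i w = false → T.X i w k l = false → False := fun n1 n2 n3 => by
    exact g13 n1 n2 h3 n3
  have s73 : T.X a i j k = true → T.X a o j k = false → False := fun n1 n2 => by
    exact g15 n1 h1 n2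
  have s74 : T.X a j k l = true → T.X a z j l = false → False := fun n1 n2 => by
    exact g18 n1 h5 n2
  have s75 : T.X a l j k = false → T.X a l k z = true → False := fun n1 n2 => by
    exact g19 n1 h5 n2
  have s76 : T.X a i j z = false → T.X a z i j = false → T.X a o j z = false → False := fun n1 n2 n3 => by
    exact g21 h1 n1 n2 n3
  have s77 : T.X a o k w = true → False := fun n1 => by
    exact g23 h2 h3 n1
  have s78 : T.X a j k l = true → T.X a o j l = true → False := fun n1 n2 => by
    exact g25 n1 n2 h2
  have s79 : T.X a i j l = true → T.X a o j l = false → False := fun n1 n2 => by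
    exact g27 n1 h1 n2
  have s80 : T.X a j k l = true → T.X a o j k = true → False := fun n1 n2 => by
    exact g30 n1 n2 h2
  have s81 : T.X a j k l = false → T.X a j k w = true → False := fun n1 n2 => by
    exact g32 n1 n2 h3
  have s82 : T.X a w j k = false → T.X a w k z = true → False := fun n1 n2 => by
    exact g33 n1 h5 n2
  have s83 : T.X a k i j = true → T.X i w j k = true → False := fun n1 n2 => by
    exact g35 n1 h4 n2
  have s84 : T.X a i l o = true → T.X i j l o = false → False := fun n1 n2 => by
    exact g36 h1 n1 n2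
  have s85 : T.X a i j k = false → T.X a i k z = true → False := fun n1 n2 => by
    exact g37 n1 n2 h5
  have s86 : T.X a l j k = true → T.X a w j l = false → False := fun n1 n2 => by
    exact g38 n1 n2 h3
  have s87 : T.X a l i w = true → T.X i w k l = false → False := fun n1 n2 => by
    exact g39 n1 h3 n2
  have s88 : T.X a j k l = false → T.X a j l w = true → False := fun n1 n2 => by
    exact g40 n1 n2 h3
  have s89 : T.X a j k l = false → T.X a l j k = false → T.X a z k l = true → False := fun n1 n2 n3 => by
    exact g42 n1 n2 h5 n3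
  have s90 : T.X a j k w = false → T.X a w j k = false → T.X a z k w = true → False := fun n1 n2 n3 => by
    exact g46 n1 n2 h5 n3
  have s91 : T.X a k i j = true → T.X a i k w = false → T.X i j k w = false → False := fun n1 n2 n3 => by
    exact g48 n1 h4 n2 n3
  have s92 : T.X a l i k = true → T.X a w i l = false → False := fun n1 n2 => by
    exact g49 n1 n2 h3
  have s93 : T.X a o j k = false → T.X a o j z = true → False := fun n1 n2 => by
    exact g50 n1 h5 n2
  have s94 : T.X a w j o = true → False := fun n1 => by
    exact g51 h1 h4 n1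
  have s95 : T.X a j k l = false → T.X a k j l = false → T.X a w j l = false → False := fun n1 n2 n3 => by
    exact g52 n1 n2 n3 h3
  have s96 : T.X a j l w = false → T.X a w j l = false → T.X j k l w = true → False := fun n1 n2 n3 => by
    exact g53 n1 n2 h3 n3
  have s97 : T.X a o l w = true → False := fun n1 => by
    exact g54 h2 h3 n1
  have s98 : T.X a l j o = false → T.X a j l w = false → T.X j o l w = false → False := fun n1 n2 n3 => by
    have u1 : T.X a w j o = false := bf (fun t => s94 t)
    have u2 : T.X a o l w = false := bf (fun t => s97 t)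
    exact g55 n1 n2 u1 u2 n3
  have s99 : T.X a i k l = false → T.X a i l w = true → False := fun n1 n2 => by
    exact g56 n1 n2 h3
  have s100 : T.X a l i j = true → T.X a w j l = true → False := fun n1 n2 => by
    exact g57 n1 h4 n2
  have s101 : T.X a l i j = false → T.X a l i o = true → False := fun n1 n2 => by
    exact g58 n1 h1 n2
  have s102 : T.X a j l o = true → T.X a j l w = false → T.X a w l o = false → False := fun n1 n2 n3 => by
    have u1 : T.X a o l w = false := bf (fun t => s97 t)
    exact g60 n1 n2 u1 n3
  have s103 : T.X a i k l = true → T.X a o i l = true → False := fun n1 n2 => by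
    exact g61 n1 n2 h2
  have s104 : T.X a o i l = false → T.X a o j l = true → False := fun n1 n2 => by
    exact g62 h1 n1 n2
  have s105 : T.X a l i j = true → T.X a i l w = false → T.X i j l w = false → False := fun n1 n2 n3 => by
    exact g63 n1 h4 n2 n3
  have s106 : T.X a j i k = true → T.X a z i j = true → False := fun n1 n2 => by
    exact g64 n1 n2 h5
  have s107 : T.X a j k z = true → False := fun n1 => by
    exact g65 n1 h5
  have s108 : T.X a w i o = true → False := fun n1 => by
    exact g66 h1 h4 n1
  have s109 : T.X a j k l = true → T.X i j l z = true → False := fun n1 n2 => by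
    have u1 : T.X a z j l = true := bt (fun t => s74 n1 t)
    have u2 : T.X a o j l = false := bf (fun t => s78 n1 t)
    have u3 : T.X a i j l = true := bt (fun t => g17 t u1 n2)
    exact s79 u3 u2
  have s110 : T.X a j l w = false → T.X i o l w = true → T.X j k l w = true → T.X j o l w = true → False := fun n1 n2 n3 n4 => by
    have u1 : T.X a w j o = false := bf (fun t => s94 t)
    have u2 : T.X a w i o = false := bf (fun t => s108 t)
    have u3 : T.X a w j l = true := bt (fun t => s96 n1 t n3)
    have u4 : T.X a l i j = false := bf (fun t => s100 t u3)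
    have u5 : T.X a l o w = false := bf (fun t => g16 u3 u1 t n4)
    have u6 : T.X a l i o = false := bf (fun t => s101 u4 t)
    have u7 : T.X a o j l = true := bt (fun t => g43 t u3 u5 n4)
    have u8 : T.X a o i l = true := bt (fun t => s104 t u7)
    have u9 : T.X a i k l = false := bf (fun t => s103 t u8)
    have u10 : T.X a i l w = false := bf (fun t => s99 u9 t)
    have u11 : T.X i j l w = false := bf (fun t => s70 u4 u10 n1 t)
    have u12 : T.X i j l o = false := bf (fun t => g31 t u11 n2 n4)
    have u13 : T.X a i l o = false := bf (fun t => s84 t u12)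
    have u14 : T.X a j l o = true := bt (fun t => s71 u4 t u12)
    have u15 : T.X a w l o = false := bf (fun t => g20 u13 u6 u2 t)
    exact s102 u14 n1 u15
  have s111 : T.X a j k l = true → False := fun n1 => by
    have u1 : T.X a j k z = false := bf (fun t => s107 t)
    have u2 : T.X a z j l = true := bt (fun t => s74 n1 t)
    have u3 : T.X a o j l = false := bf (fun t => s78 n1 t)
    have u4 : T.X a o j k = false := bf (fun t => s80 n1 t)
    have u5 : T.X a j l z = false := bf (fun t => g41 n1 u1 t)
    have u6 : T.X i j l z = false := bf (fun t => s109 n1 t)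
    have u7 : T.X a i j l = false := bf (fun t => s79 t u3)
    have u8 : T.X a o j z = false := bf (fun t => s93 u4 t)
    have u9 : T.X a i j z = false := bf (fun t => g26 u7 t u2)
    have u10 : T.X a z i j = true := bt (fun t => s76 u9 t u8)
    have u11 : T.X a l i j = true := bt (fun t => g24 t u10 u5 u6)
    have u12 : T.X a j i k = false := bf (fun t => s106 t u10)
    have u13 : T.X a w i l = false := bf (fun t => s69 u11 t)
    have u14 : T.X a l i k = true := bt (fun t => g34 u12 u11 t n1)
    exact s92 u14 u13
  have s112 : T.X a j k w = true → False := fun n1 => by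
    have u1 : T.X a j k l = false := bf (fun t => s111 t)
    exact s81 u1 n1
  have s113 : T.X a j l w = true → False := fun n1 => by
    have u1 : T.X a j k l = false := bf (fun t => s111 t)
    exact s88 u1 n1
  have s114 : T.X j k l w = true → T.X j o l w = true → False := fun n1 n2 => by
    have u1 : T.X a j l w = false := bf (fun t => s113 t)
    have u2 : T.X a w j o = false := bf (fun t => s94 t)
    have u3 : T.X a o l w = false := bf (fun t => s97 t)
    have u4 : T.X a w i o = false := bf (fun t => s108 t)
    have u5 : T.X a w j l = true := bt (fun t => s96 u1 t n1)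
    have u6 : T.X i o l w = false := bf (fun t => s110 u1 t n1 n2)
    have u7 : T.X a l i j = false := bf (fun t => s100 t u5)
    have u8 : T.X a l o w = false := bf (fun t => g16 u5 u2 t n2)
    have u9 : T.X a l i o = false := bf (fun t => s101 u7 t)
    have u10 : T.X a o j l = true := bt (fun t => g43 t u5 u8 n2)
    have u11 : T.X a i l w = true := bt (fun t => g29 u9 t u4 u3 u6)
    have u12 : T.X a o i l = true := bt (fun t => s104 t u10)
    have u13 : T.X a i k l = true := bt (fun t => s99 t u11)
    exact s103 u13 u12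
  have s115 : T.X a l i j = true → T.X a i k l = false → T.X j k l w = false → False := fun n1 n2 n3 => by
    have u1 : T.X a j k l = false := bf (fun t => s111 t)
    have u2 : T.X a o k w = false := bf (fun t => s77 t)
    have u3 : T.X a j k w = false := bf (fun t => s112 t)
    have u4 : T.X a i l w = false := bf (fun t => s99 n2 t)
    have u5 : T.X a w i l = false := bf (fun t => s69 n1 t)
    have u6 : T.X a j i l = false := bf (fun t => g45 t n1)
    have u7 : T.X a w j l = false := bf (fun t => s100 n1 t)
    have u8 : T.X i j l w = true := bt (fun t => s105 n1 u4 t)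
    have u9 : T.X a l i k = false := bf (fun t => s92 t u5)
    have u10 : T.X a w j k = false := bf (fun t => s68 t u7)
    have u11 : T.X a k j l = true := bt (fun t => s95 u1 t u7)
    have u12 : T.X a w k z = false := bf (fun t => s82 u10 t)
    have u13 : T.X a z k w = false := bf (fun t => s90 u3 u10 t)
    have u14 : T.X a o j k = false := bf (fun t => g9 t u3 u10 u2)
    have u15 : T.X a k i j = true := bt (fun t => g12 t n1 u11)
    have u16 : T.X a i j k = false := bf (fun t => s73 t u14)
    have u17 : T.X i w j k = false := bf (fun t => s83 u15 t)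
    have u18 : T.X i j k l = false := bf (fun t => g44 u15 n1 n2 u9 t)
    have u19 : T.X a i k z = false := bf (fun t => s85 u16 t)
    have u20 : T.X i w k l = false := bf (fun t => g14 u18 u17 u8 t n3)
    have u21 : T.X a i k w = false := bf (fun t => g47 t u19 u12 u13)
    have u22 : T.X a l i w = false := bf (fun t => s87 t u20)
    have u23 : T.X a k i w = true := bt (fun t => s72 n2 t u20)
    have u24 : T.X i j k w = true := bt (fun t => s91 u15 u21 t)
    have u25 : T.X a j i w = false := bf (fun t => g59 u6 t u22 u5)
    exact g22 u25 u23 u24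
  have s116 : T.X a i k l = false → T.X j o l w = true → False := fun n1 n2 => by
    have u1 : T.X a o l w = false := bf (fun t => s97 t)
    have u2 : T.X a w i o = false := bf (fun t => s108 t)
    have u3 : T.X a j l w = false := bf (fun t => s113 t)
    have u4 : T.X j k l w = false := bf (fun t => s114 t n2)
    have u5 : T.X a i l w = false := bf (fun t => s99 n1 t)
    have u6 : T.X a l i j = false := bf (fun t => s115 t n1 u4)
    have u7 : T.X a l i o = false := bf (fun t => s101 u6 t)
    have u8 : T.X i j l w = false := bf (fun t => s70 u6 u5 u3 t)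
    have u9 : T.X i o l w = true := bt (fun t => g29 u7 u5 u2 u1 t)
    have u10 : T.X i j l o = false := bf (fun t => g31 t u8 u9 n2)
    have u11 : T.X a i l o = false := bf (fun t => s84 t u10)
    have u12 : T.X a j l o = true := bt (fun t => s71 u6 t u10)
    have u13 : T.X a w l o = false := bf (fun t => g20 u11 u7 u2 t)
    exact s102 u12 u3 u13
  have s118 : T.X a w j l = false → T.X a i k l = true → False := fun n1 n2 => by
    have u1 : T.X a o k w = false := bf (fun t => s77 t)
    have u2 : T.X a j k w = false := bf (fun t => s112 t)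
    have u3 : T.X a j k l = false := bf (fun t => s111 t)
    have u4 : T.X a w j k = false := bf (fun t => s68 t n1)
    have u5 : T.X a l j k = false := bf (fun t => s86 t n1)
    have u6 : T.X a o j k = false := bf (fun t => g9 t u2 u4 u1)
    have u7 : T.X a l k z = false := bf (fun t => s75 u5 t)
    have u8 : T.X a z k l = false := bf (fun t => s89 u3 u5 t)
    have u9 : T.X a i j k = false := bf (fun t => s73 t u6)
    have u10 : T.X a i k z = true := bt (fun t => g28 n2 t u7 u8)
    exact s85 u9 u10
  have s119 : T.X j o l w = true → False := fun n1 => by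
    have u1 : T.X a w j o = false := bf (fun t => s94 t)
    have u2 : T.X a i k l = true := bt (fun t => s116 t n1)
    have u3 : T.X a o i l = false := bf (fun t => s103 u2 t)
    have u4 : T.X a o j l = false := bf (fun t => s104 u3 t)
    have u5 : T.X a w j l = true := bt (fun t => s118 t u2)
    have u6 : T.X a l o w = false := bf (fun t => g16 u5 u1 t n1)
    exact g43 u4 u5 u6 n1
  have s120 : T.X a l j o = false → False := fun n1 => by
    have u1 : T.X j o l w = false := bf (fun t => s119 t)
    have u2 : T.X a j l w = false := bf (fun t => s113 t)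
    exact s98 n1 u2 u1
  have s121 : T.X a l i j = false → False := fun n1 => by
    have u1 : T.X a l j o = true := bt (fun t => s120 t)
    exact s67 n1 u1
  have s124 : T.X a w j l = true → False := fun n1 => by
    have u1 : T.X a l i j = true := bt (fun t => s121 t)
    exact s100 u1 n1
  have s128 : T.X j k l w = true → False := fun n1 => by
    have u1 : T.X a w j l = false := bf (fun t => s124 t)
    have u2 : T.X a j l w = false := bf (fun t => s113 t)
    exact s96 u2 u1 n1
  have s130 : T.X a i k l = true → False := fun n1 => by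
    have u1 : T.X a w j l = false := bf (fun t => s124 t)
    exact s118 u1 n1
  have u1 : T.X a i k l = false := bf (fun t => s130 t)
  have u2 : T.X j k l w = false := bf (fun t => s128 t)
  have u3 : T.X a l i j = true := bt (fun t => s121 t)
  exact s115 u3 u1 u2

theorem pt_b_pqs {a x p q s : V} (h : T.RotL a [x, p, q, s])
    (ja1 : T.X a p x q = false)
    (ja2 : T.X a q x p = false)
    (jb1 : T.X a q x s = false)
    (jb2 : T.X a s x q = false)
    (jc : T.X a p x s = false → T.X a s x p = false → False) : False := by
  have g6 := c5a_402_16 (h.four (.cons_cons _ (.cons_cons _ (.cons_cons _ (.cons_cons _ (List.nil_sublist _))))))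
  have g7 := c5a_294_32 (h.four (.cons_cons _ (.cons_cons _ (.cons_cons _ (.cons_cons _ (List.nil_sublist _))))))
  have s8 : T.X a p x s = true → False := fun n1 => by
    exact g6 ja1 n1 jb1 jb2
  have s9 : T.X a s x p = false → False := fun n1 => by
    have u1 : T.X a p x s = false := bf (fun t => s8 t)
    exact jc u1 n1
  have u3 : T.X a s x p = true := bt (fun t => s9 t)
  exact g7 ja1 ja2 u3 jb2

theorem pt_b_psq {a x p s q : V} (h : T.RotL a [x, p, s, q])
    (ja1 : T.X a p x q = false)
    (ja2 : T.X a q x p = false)
    (jb : T.X a q x s = false → T.X a s x q = false → False)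
    (jc : T.X a p x s = false → T.X a s x p = false → False) : False := by
  have g5 := c5a_180_132 (h.four (.cons_cons _ (.cons_cons _ (.cons_cons _ (.cons_cons _ (List.nil_sublist _))))))
  have g6 := c5a_146_130 (h.four (.cons_cons _ (.cons_cons _ (.cons_cons _ (.cons_cons _ (List.nil_sublist _))))))
  have g7 := c5a_306_258 (h.four (.cons_cons _ (.cons_cons _ (.cons_cons _ (.cons_cons _ (List.nil_sublist _))))))
  have g8 := c5a_292_260 (h.four (.cons_cons _ (.cons_cons _ (.cons_cons _ (.cons_cons _ (List.nil_sublist _))))))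
  have s9 : T.X a s x p = true → T.X a s x q = true → False := fun n1 n2 => by
    exact g5 n1 ja1 ja2 n2
  have s10 : T.X a p x s = true → T.X a s x q = true → False := fun n1 n2 => by
    exact g6 n1 ja1 n2
  have s11 : T.X a p x s = true → T.X a q x s = true → False := fun n1 n2 => by
    exact g7 n1 ja1 ja2 n2
  have s12 : T.X a s x p = true → T.X a q x s = true → False := fun n1 n2 => by
    exact g8 n1 ja2 n2
  have s13 : T.X a q x s = true → False := fun n1 => by
    have u1 : T.X a p x s = false := bf (fun t => s11 t n1)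
    have u2 : T.X a s x p = false := bf (fun t => s12 t n1)
    exact jc u1 u2
  have s14 : T.X a s x q = false → False := fun n1 => by
    have u1 : T.X a q x s = false := bf (fun t => s13 t)
    exact jb u1 n1
  have s15 : T.X a s x p = true → False := fun n1 => by
    have u1 : T.X a s x q = true := bt (fun t => s14 t)
    exact s9 n1 u1
  have s16 : T.X a p x s = true → False := fun n1 => by
    have u1 : T.X a s x q = true := bt (fun t => s14 t)
    exact s10 n1 u1
  have u1 : T.X a p x s = false := bf (fun t => s16 t)
  have u2 : T.X a s x p = false := bf (fun t => s15 t)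
  exact jc u1 u2

theorem pt_b_qps {a x q p s : V} (h : T.RotL a [x, q, p, s])
    (ja : T.X a p x q = false → T.X a q x p = false → False)
    (jb1 : T.X a q x s = false)
    (jb2 : T.X a s x q = false)
    (jc : T.X a p x s = false → T.X a s x p = false → False) : False := by
  have g5 := c5a_180_132 (h.four (.cons_cons _ (.cons_cons _ (.cons_cons _ (.cons_cons _ (List.nil_sublist _))))))
  have g6 := c5a_146_130 (h.four (.cons_cons _ (.cons_cons _ (.cons_cons _ (.cons_cons _ (List.nil_sublist _))))))
  have g7 := c5a_306_258 (h.four (.cons_cons _ (.cons_cons _ (.cons_cons _ (.cons_cons _ (List.nil_sublist _))))))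
  have g8 := c5a_292_260 (h.four (.cons_cons _ (.cons_cons _ (.cons_cons _ (.cons_cons _ (List.nil_sublist _))))))
  have s9 : T.X a p x q = true → T.X a p x s = true → False := fun n1 n2 => by
    exact g5 n1 jb1 jb2 n2
  have s10 : T.X a q x p = true → T.X a p x s = true → False := fun n1 n2 => by
    exact g6 n1 jb1 n2
  have s11 : T.X a q x p = true → T.X a s x p = true → False := fun n1 n2 => by
    exact g7 n1 jb1 jb2 n2
  have s12 : T.X a p x q = true → T.X a s x p = true → False := fun n1 n2 => by
    exact g8 n1 jb2 n2
  have s13 : T.X a s x p = true → False := fun n1 => by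
    have u1 : T.X a q x p = false := bf (fun t => s11 t n1)
    have u2 : T.X a p x q = false := bf (fun t => s12 t n1)
    exact ja u2 u1
  have s14 : T.X a p x s = false → False := fun n1 => by
    have u1 : T.X a s x p = false := bf (fun t => s13 t)
    exact jc n1 u1
  have s15 : T.X a p x q = true → False := fun n1 => by
    have u1 : T.X a p x s = true := bt (fun t => s14 t)
    exact s9 n1 u1
  have s16 : T.X a q x p = true → False := fun n1 => by
    have u1 : T.X a p x s = true := bt (fun t => s14 t)
    exact s10 n1 u1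
  have u1 : T.X a p x q = false := bf (fun t => s15 t)
  have u2 : T.X a q x p = false := bf (fun t => s16 t)
  exact ja u1 u2

theorem pt_b_qsp {a x q s p : V} (h : T.RotL a [x, q, s, p])
    (ja : T.X a p x q = false → T.X a q x p = false → False)
    (jb1 : T.X a q x s = false)
    (jb2 : T.X a s x q = false)
    (jc1 : T.X a p x s = false)
    (jc2 : T.X a s x p = false) : False := by
  have g6 := c5a_402_16 (h.four (.cons_cons _ (.cons_cons _ (.cons_cons _ (.cons_cons _ (List.nil_sublist _))))))
  have g7 := c5a_294_32 (h.four (.cons_cons _ (.cons_cons _ (.cons_cons _ (.cons_cons _ (List.nil_sublist _))))))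
  have s8 : T.X a q x p = true → False := fun n1 => by
    exact g6 jb1 n1 jc2 jc1
  have s9 : T.X a p x q = false → False := fun n1 => by
    have u1 : T.X a q x p = false := bf (fun t => s8 t)
    exact ja n1 u1
  have u3 : T.X a p x q = true := bt (fun t => s9 t)
  exact g7 jb1 jb2 u3 jc1

theorem pt_b_spq {a x s p q : V} (h : T.RotL a [x, s, p, q])
    (ja1 : T.X a p x q = false)
    (ja2 : T.X a q x p = false)
    (jb : T.X a q x s = false → T.X a s x q = false → False)
    (jc1 : T.X a p x s = false)
    (jc2 : T.X a s x p = false) : False := by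
  have g6 := c5a_402_16 (h.four (.cons_cons _ (.cons_cons _ (.cons_cons _ (.cons_cons _ (List.nil_sublist _))))))
  have g7 := c5a_294_32 (h.four (.cons_cons _ (.cons_cons _ (.cons_cons _ (.cons_cons _ (List.nil_sublist _))))))
  have s8 : T.X a s x q = true → False := fun n1 => by
    exact g6 jc2 n1 ja1 ja2
  have s9 : T.X a q x s = false → False := fun n1 => by
    have u1 : T.X a s x q = false := bf (fun t => s8 t)
    exact jb n1 u1
  have u3 : T.X a q x s = true := bt (fun t => s9 t)
  exact g7 jc2 jc1 u3 ja2

theorem pt_b_sqp {a x s q p : V} (h : T.RotL a [x, s, q, p])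
    (ja : T.X a p x q = false → T.X a q x p = false → False)
    (jb : T.X a q x s = false → T.X a s x q = false → False)
    (jc1 : T.X a p x s = false)
    (jc2 : T.X a s x p = false) : False := by
  have g5 := c5a_180_132 (h.four (.cons_cons _ (.cons_cons _ (.cons_cons _ (.cons_cons _ (List.nil_sublist _))))))
  have g6 := c5a_146_130 (h.four (.cons_cons _ (.cons_cons _ (.cons_cons _ (.cons_cons _ (List.nil_sublist _))))))
  have g7 := c5a_306_258 (h.four (.cons_cons _ (.cons_cons _ (.cons_cons _ (.cons_cons _ (List.nil_sublist _))))))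
  have g8 := c5a_292_260 (h.four (.cons_cons _ (.cons_cons _ (.cons_cons _ (.cons_cons _ (List.nil_sublist _))))))
  have s9 : T.X a q x s = true → T.X a q x p = true → False := fun n1 n2 => by
    exact g5 n1 jc2 jc1 n2
  have s10 : T.X a s x q = true → T.X a q x p = true → False := fun n1 n2 => by
    exact g6 n1 jc2 n2
  have s11 : T.X a s x q = true → T.X a p x q = true → False := fun n1 n2 => by
    exact g7 n1 jc2 jc1 n2
  have s12 : T.X a q x s = true → T.X a p x q = true → False := fun n1 n2 => by
    exact g8 n1 jc1 n2
  have s13 : T.X a p x q = true → False := fun n1 => by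
    have u1 : T.X a s x q = false := bf (fun t => s11 t n1)
    have u2 : T.X a q x s = false := bf (fun t => s12 t n1)
    exact jb u2 u1
  have s14 : T.X a q x p = false → False := fun n1 => by
    have u1 : T.X a p x q = false := bf (fun t => s13 t)
    exact ja u1 n1
  have s15 : T.X a q x s = true → False := fun n1 => by
    have u1 : T.X a q x p = true := bt (fun t => s14 t)
    exact s9 n1 u1
  have s16 : T.X a s x q = true → False := fun n1 => by
    have u1 : T.X a q x p = true := bt (fun t => s14 t)
    exact s10 n1 u1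
  have u1 : T.X a q x s = false := bf (fun t => s15 t)
  have u2 : T.X a s x q = false := bf (fun t => s16 t)
  exact jb u1 u2

theorem pt_f_pqs {a p q s x : V} (h : T.RotL a [p, q, s, x])
    (ja1 : T.X a p q x = false)
    (ja2 : T.X a q p x = false)
    (jb1 : T.X a q s x = false)
    (jb2 : T.X a s q x = false)
    (jc : T.X a p s x = false → T.X a s p x = false → False) : False := by
  have g6 := c5a_1608_64 (h.four (.cons_cons _ (.cons_cons _ (.cons_cons _ (.cons_cons _ (List.nil_sublist _))))))
  have g7 := c5a_1176_128 (h.four (.cons_cons _ (.cons_cons _ (.cons_cons _ (.cons_cons _ (List.nil_sublist _))))))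
  have s8 : T.X a p s x = true → False := fun n1 => by
    exact g6 ja1 n1 jb1 jb2
  have s9 : T.X a s p x = false → False := fun n1 => by
    have u1 : T.X a p s x = false := bf (fun t => s8 t)
    exact jc u1 n1
  have u3 : T.X a s p x = true := bt (fun t => s9 t)
  exact g7 ja1 ja2 u3 jb2

theorem pt_f_psq {a p s q x : V} (h : T.RotL a [p, s, q, x])
    (ja1 : T.X a p q x = false)
    (ja2 : T.X a q p x = false)
    (jb : T.X a q s x = false → T.X a s q x = false → False)
    (jc : T.X a p s x = false → T.X a s p x = false → False) : False := by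
  have g5 := c5a_720_528 (h.four (.cons_cons _ (.cons_cons _ (.cons_cons _ (.cons_cons _ (List.nil_sublist _))))))
  have g6 := c5a_584_520 (h.four (.cons_cons _ (.cons_cons _ (.cons_cons _ (.cons_cons _ (List.nil_sublist _))))))
  have g7 := c5a_1224_1032 (h.four (.cons_cons _ (.cons_cons _ (.cons_cons _ (.cons_cons _ (List.nil_sublist _))))))
  have g8 := c5a_1168_1040 (h.four (.cons_cons _ (.cons_cons _ (.cons_cons _ (.cons_cons _ (List.nil_sublist _))))))
  have s9 : T.X a s p x = true → T.X a s q x = true → False := fun n1 n2 => by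
    exact g5 n1 ja1 ja2 n2
  have s10 : T.X a p s x = true → T.X a s q x = true → False := fun n1 n2 => by
    exact g6 n1 ja1 n2
  have s11 : T.X a p s x = true → T.X a q s x = true → False := fun n1 n2 => by
    exact g7 n1 ja1 ja2 n2
  have s12 : T.X a s p x = true → T.X a q s x = true → False := fun n1 n2 => by
    exact g8 n1 ja2 n2
  have s13 : T.X a q s x = true → False := fun n1 => by
    have u1 : T.X a p s x = false := bf (fun t => s11 t n1)
    have u2 : T.X a s p x = false := bf (fun t => s12 t n1)
    exact jc u1 u2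
  have s14 : T.X a s q x = false → False := fun n1 => by
    have u1 : T.X a q s x = false := bf (fun t => s13 t)
    exact jb u1 n1
  have s15 : T.X a s p x = true → False := fun n1 => by
    have u1 : T.X a s q x = true := bt (fun t => s14 t)
    exact s9 n1 u1
  have s16 : T.X a p s x = true → False := fun n1 => by
    have u1 : T.X a s q x = true := bt (fun t => s14 t)
    exact s10 n1 u1
  have u1 : T.X a p s x = false := bf (fun t => s16 t)
  have u2 : T.X a s p x = false := bf (fun t => s15 t)
  exact jc u1 u2

theorem pt_f_qps {a q p s x : V} (h : T.RotL a [q, p, s, x])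
    (ja : T.X a p q x = false → T.X a q p x = false → False)
    (jb1 : T.X a q s x = false)
    (jb2 : T.X a s q x = false)
    (jc : T.X a p s x = false → T.X a s p x = false → False) : False := by
  have g5 := c5a_720_528 (h.four (.cons_cons _ (.cons_cons _ (.cons_cons _ (.cons_cons _ (List.nil_sublist _))))))
  have g6 := c5a_584_520 (h.four (.cons_cons _ (.cons_cons _ (.cons_cons _ (.cons_cons _ (List.nil_sublist _))))))
  have g7 := c5a_1224_1032 (h.four (.cons_cons _ (.cons_cons _ (.cons_cons _ (.cons_cons _ (List.nil_sublist _))))))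
  have g8 := c5a_1168_1040 (h.four (.cons_cons _ (.cons_cons _ (.cons_cons _ (.cons_cons _ (List.nil_sublist _))))))
  have s9 : T.X a p q x = true → T.X a p s x = true → False := fun n1 n2 => by
    exact g5 n1 jb1 jb2 n2
  have s10 : T.X a q p x = true → T.X a p s x = true → False := fun n1 n2 => by
    exact g6 n1 jb1 n2
  have s11 : T.X a q p x = true → T.X a s p x = true → False := fun n1 n2 => by
    exact g7 n1 jb1 jb2 n2
  have s12 : T.X a p q x = true → T.X a s p x = true → False := fun n1 n2 => by
    exact g8 n1 jb2 n2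
  have s13 : T.X a s p x = true → False := fun n1 => by
    have u1 : T.X a q p x = false := bf (fun t => s11 t n1)
    have u2 : T.X a p q x = false := bf (fun t => s12 t n1)
    exact ja u2 u1
  have s14 : T.X a p s x = false → False := fun n1 => by
    have u1 : T.X a s p x = false := bf (fun t => s13 t)
    exact jc n1 u1
  have s15 : T.X a p q x = true → False := fun n1 => by
    have u1 : T.X a p s x = true := bt (fun t => s14 t)
    exact s9 n1 u1
  have s16 : T.X a q p x = true → False := fun n1 => by
    have u1 : T.X a p s x = true := bt (fun t => s14 t)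
    exact s10 n1 u1
  have u1 : T.X a p q x = false := bf (fun t => s15 t)
  have u2 : T.X a q p x = false := bf (fun t => s16 t)
  exact ja u1 u2

theorem pt_f_qsp {a q s p x : V} (h : T.RotL a [q, s, p, x])
    (ja : T.X a p q x = false → T.X a q p x = false → False)
    (jb1 : T.X a q s x = false)
    (jb2 : T.X a s q x = false)
    (jc1 : T.X a p s x = false)
    (jc2 : T.X a s p x = false) : False := by
  have g6 := c5a_1608_64 (h.four (.cons_cons _ (.cons_cons _ (.cons_cons _ (.cons_cons _ (List.nil_sublist _))))))
  have g7 := c5a_1176_128 (h.four (.cons_cons _ (.cons_cons _ (.cons_cons _ (.cons_cons _ (List.nil_sublist _))))))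
  have s8 : T.X a q p x = true → False := fun n1 => by
    exact g6 jb1 n1 jc2 jc1
  have s9 : T.X a p q x = false → False := fun n1 => by
    have u1 : T.X a q p x = false := bf (fun t => s8 t)
    exact ja n1 u1
  have u3 : T.X a p q x = true := bt (fun t => s9 t)
  exact g7 jb1 jb2 u3 jc1

theorem pt_f_spq {a s p q x : V} (h : T.RotL a [s, p, q, x])
    (ja1 : T.X a p q x = false)
    (ja2 : T.X a q p x = false)
    (jb : T.X a q s x = false → T.X a s q x = false → False)
    (jc1 : T.X a p s x = false)
    (jc2 : T.X a s p x = false) : False := by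
  have g6 := c5a_1608_64 (h.four (.cons_cons _ (.cons_cons _ (.cons_cons _ (.cons_cons _ (List.nil_sublist _))))))
  have g7 := c5a_1176_128 (h.four (.cons_cons _ (.cons_cons _ (.cons_cons _ (.cons_cons _ (List.nil_sublist _))))))
  have s8 : T.X a s q x = true → False := fun n1 => by
    exact g6 jc2 n1 ja1 ja2
  have s9 : T.X a q s x = false → False := fun n1 => by
    have u1 : T.X a s q x = false := bf (fun t => s8 t)
    exact jb n1 u1
  have u3 : T.X a q s x = true := bt (fun t => s9 t)
  exact g7 jc2 jc1 u3 ja2

theorem pt_f_sqp {a s q p x : V} (h : T.RotL a [s, q, p, x])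
    (ja : T.X a p q x = false → T.X a q p x = false → False)
    (jb : T.X a q s x = false → T.X a s q x = false → False)
    (jc1 : T.X a p s x = false)
    (jc2 : T.X a s p x = false) : False := by
  have g5 := c5a_720_528 (h.four (.cons_cons _ (.cons_cons _ (.cons_cons _ (.cons_cons _ (List.nil_sublist _))))))
  have g6 := c5a_584_520 (h.four (.cons_cons _ (.cons_cons _ (.cons_cons _ (.cons_cons _ (List.nil_sublist _))))))
  have g7 := c5a_1224_1032 (h.four (.cons_cons _ (.cons_cons _ (.cons_cons _ (.cons_cons _ (List.nil_sublist _))))))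
  have g8 := c5a_1168_1040 (h.four (.cons_cons _ (.cons_cons _ (.cons_cons _ (.cons_cons _ (List.nil_sublist _))))))
  have s9 : T.X a q s x = true → T.X a q p x = true → False := fun n1 n2 => by
    exact g5 n1 jc2 jc1 n2
  have s10 : T.X a s q x = true → T.X a q p x = true → False := fun n1 n2 => by
    exact g6 n1 jc2 n2
  have s11 : T.X a s q x = true → T.X a p q x = true → False := fun n1 n2 => by
    exact g7 n1 jc2 jc1 n2
  have s12 : T.X a q s x = true → T.X a p q x = true → False := fun n1 n2 => by
    exact g8 n1 jc1 n2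
  have s13 : T.X a p q x = true → False := fun n1 => by
    have u1 : T.X a s q x = false := bf (fun t => s11 t n1)
    have u2 : T.X a q s x = false := bf (fun t => s12 t n1)
    exact jb u2 u1
  have s14 : T.X a q p x = false → False := fun n1 => by
    have u1 : T.X a p q x = false := bf (fun t => s13 t)
    exact ja u1 n1
  have s15 : T.X a q s x = true → False := fun n1 => by
    have u1 : T.X a q p x = true := bt (fun t => s14 t)
    exact s9 n1 u1
  have s16 : T.X a s q x = true → False := fun n1 => by
    have u1 : T.X a q p x = true := bt (fun t => s14 t)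
    exact s10 n1 u1
  have u1 : T.X a q s x = false := bf (fun t => s15 t)
  have u2 : T.X a s q x = false := bf (fun t => s16 t)
  exact jb u1 u2


theorem Table.local_free {a p q r s : V} (h : T.RotL a [p, q, r, s]) (h1 : T.X a r p q = false)
    (h2 : T.X a s p q = false) (h3 : T.X a p r s = false) (h4 : T.X a q r s = false) :
    T.X p q r s = false :=
  bf (fun h5 => local5 h h1 h2 h3 h4 h5)

theorem rot5 {a : V} {ρ : V → ℝ} (hρ : T.Ord a ρ) {x y p q o : V} (hx : x ≠ a) (hy : y ≠ a)
    (hp : p ≠ a) (hq : q ≠ a) (ho : o ≠ a) (xy : ρ x < ρ y) (yp : ρ y < ρ p) (pq : ρ p < ρ q)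
    (qo : ρ q < ρ o) : T.RotL a [x, y, p, q, o] :=
  hρ.rotL (by
    simp only [List.map_cons, List.map_nil, List.isChain_cons_cons, List.isChain_singleton, and_true]
    exact ⟨xy, yp, pq, qo⟩) (List.forall_mem_cons.2 ⟨hx, List.forall_mem_cons.2 ⟨hy,
      List.forall_mem_cons.2 ⟨hp, List.forall_mem_cons.2 ⟨hq, List.forall_mem_cons.2 ⟨ho,
      fun _ h => by cases h⟩⟩⟩⟩⟩)

theorem rot4 {a : V} {ρ : V → ℝ} (hρ : T.Ord a ρ) {x y p q : V} (hx : x ≠ a) (hy : y ≠ a)
    (hp : p ≠ a) (hq : q ≠ a) (xy : ρ x < ρ y) (yp : ρ y < ρ p) (pq : ρ p < ρ q) :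
    T.RotL a [x, y, p, q] :=
  hρ.rotL (by
    simp only [List.map_cons, List.map_nil, List.isChain_cons_cons, List.isChain_singleton, and_true]
    exact ⟨xy, yp, pq⟩) (List.forall_mem_cons.2 ⟨hx, List.forall_mem_cons.2 ⟨hy,
      List.forall_mem_cons.2 ⟨hp, List.forall_mem_cons.2 ⟨hq, fun _ h => by cases h⟩⟩⟩⟩)

theorem rot6 {a : V} {ρ : V → ℝ} (hρ : T.Ord a ρ) {x y p q o w : V} (hx : x ≠ a) (hy : y ≠ a)
    (hp : p ≠ a) (hq : q ≠ a) (ho : o ≠ a) (hw : w ≠ a) (xy : ρ x < ρ y) (yp : ρ y < ρ p)
    (pq : ρ p < ρ q) (qo : ρ q < ρ o) (ow : ρ o < ρ w) : T.RotL a [x, y, p, q, o, w] :=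
  hρ.rotL (by
    simp only [List.map_cons, List.map_nil, List.isChain_cons_cons, List.isChain_singleton, and_true]
    exact ⟨xy, yp, pq, qo, ow⟩) (List.forall_mem_cons.2 ⟨hx, List.forall_mem_cons.2 ⟨hy,
      List.forall_mem_cons.2 ⟨hp, List.forall_mem_cons.2 ⟨hq, List.forall_mem_cons.2 ⟨ho,
      List.forall_mem_cons.2 ⟨hw, fun _ h => by cases h⟩⟩⟩⟩⟩⟩)

theorem rot7 {a : V} {ρ : V → ℝ} (hρ : T.Ord a ρ) {x y p q o w z : V} (hx : x ≠ a) (hy : y ≠ a)
    (hp : p ≠ a) (hq : q ≠ a) (ho : o ≠ a) (hw : w ≠ a) (hz : z ≠ a) (xy : ρ x < ρ y)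
    (yp : ρ y < ρ p) (pq : ρ p < ρ q) (qo : ρ q < ρ o) (ow : ρ o < ρ w) (wz : ρ w < ρ z) :
    T.RotL a [x, y, p, q, o, w, z] :=
  hρ.rotL (by
    simp only [List.map_cons, List.map_nil, List.isChain_cons_cons, List.isChain_singleton, and_true]
    exact ⟨xy, yp, pq, qo, ow, wz⟩) (List.forall_mem_cons.2 ⟨hx, List.forall_mem_cons.2 ⟨hy,
      List.forall_mem_cons.2 ⟨hp, List.forall_mem_cons.2 ⟨hq, List.forall_mem_cons.2 ⟨ho,
      List.forall_mem_cons.2 ⟨hw, List.forall_mem_cons.2 ⟨hz, fun _ h => by cases h⟩⟩⟩⟩⟩⟩⟩)

/-- separated local edges do not cross -/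
theorem sep_free {a : V} {ρ : V → ℝ} (hρ : T.Ord a ρ) {O : Finset V} {x y p q : V}
    (hx : x ≠ a) (hy : y ≠ a) (hp : p ≠ a) (hq : q ≠ a) (hO : ∀ o ∈ O, o ≠ a)
    (xy : ρ x < ρ y) (yp : ρ y < ρ p) (pq : ρ p < ρ q) (qO : ∀ o ∈ O, ρ q < ρ o)
    (l1 : ∀ o ∈ O, T.X a o x y = false) (l2 : ∀ o ∈ O, T.X a o p q = false)
    (n1 : ∃ o ∈ O, T.X a o x p = true) (n2 : ∃ o ∈ O, T.X a o y q = true) :
    T.X x y p q = false := by
  apply bf
  intro hc
  obtain ⟨o, ho, h1⟩ := n1
  obtain ⟨w, hw, h2⟩ := n2
  have r1 := rot5 hρ hx hy hp hq (hO o ho) xy yp pq (qO o ho)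
  have r2 := rot5 hρ hx hy hp hq (hO w hw) xy yp pq (qO w hw)
  have s1 : T.X a q x p = true := bt (fun t => sep_a r1 hc (l1 o ho) (l2 o ho) h1 t)
  have s2 : T.X a x y q = true := bt (fun t => sep_b r2 hc (l1 w hw) (l2 w hw) h2 t)
  exact sep_c (rot4 hρ hx hy hp hq xy yp pq) hc s1 s2

/-- order of the rays crossed by two pairs with a common point -/
theorem n1_shared {a : V} {ρ : V → ℝ} (hρ : T.Ord a ρ) {i j k o w : V} (hi : i ≠ a) (hj : j ≠ a)
    (hk : k ≠ a) (ho : o ≠ a) (hw : w ≠ a) (ij : ρ i < ρ j) (jk : ρ j < ρ k) (ko : ρ k < ρ o)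
    (h1 : T.X a o i j = true) (h2 : T.X a o j k = false) (h3 : T.X a w j k = true)
    (h4 : T.X a w i j = false) : ρ w < ρ o := by
  by_contra hn
  rcases lt_or_eq_of_le (not_lt.1 hn) with h | h
  · exact n1_sh (rot5 hρ hi hj hk ho hw ij jk ko h) h1 h2 h3 h4
  · rw [hρ.1 _ _ ho hw h] at h1
    exact bcontra h1 h4

/-- order of the rays crossed by two separated pairs of a clique -/
theorem n1_disj {a : V} {ρ : V → ℝ} (hρ : T.Ord a ρ) {O : Finset V} {i j k l o w : V}
    (hi : i ≠ a) (hj : j ≠ a) (hk : k ≠ a) (hl : l ≠ a) (hO : ∀ o ∈ O, o ≠ a)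
    (ij : ρ i < ρ j) (jk : ρ j < ρ k) (kl : ρ k < ρ l) (lO : ∀ o ∈ O, ρ l < ρ o)
    (ho : o ∈ O) (hw : w ∈ O)
    (h1 : T.X a o i j = true) (h2 : T.X a o k l = false) (h3 : T.X a w k l = true)
    (h4 : T.X a w i j = false) (h5 : ∃ z ∈ O, T.X a z j k = true) : ρ w < ρ o := by
  by_contra hn
  obtain ⟨z, hz, h6⟩ := h5
  rcases lt_or_eq_of_le (not_lt.1 hn) with h | h
  · rcases lt_trichotomy (ρ z) (ρ o) with g | g | g
    · exact n1_z1 (rot7 hρ hi hj hk hl (hO z hz) (hO o ho) (hO w hw) ij jk kl (lO z hz) g h)
        h1 h2 h3 h4 h6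
    · rw [hρ.1 _ _ (hO z hz) (hO o ho) g] at h6
      exact n1_o (rot6 hρ hi hj hk hl (hO o ho) (hO w hw) ij jk kl (lO o ho) h) h1 h2 h3 h4 h6
    · rcases lt_trichotomy (ρ z) (ρ w) with g' | g' | g'
      · exact n1_z2 (rot7 hρ hi hj hk hl (hO o ho) (hO z hz) (hO w hw) ij jk kl (lO o ho) g g')
          h1 h2 h3 h4 h6
      · rw [hρ.1 _ _ (hO z hz) (hO w hw) g'] at h6
        exact n1_w (rot6 hρ hi hj hk hl (hO o ho) (hO w hw) ij jk kl (lO o ho) h) h1 h2 h3 h4 h6
      · exact n1_z3 (rot7 hρ hi hj hk hl (hO o ho) (hO w hw) (hO z hz) ij jk kl (lO o ho) h g')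
          h1 h2 h3 h4 h6
  · rw [hρ.1 _ _ (hO o ho) (hO w hw) h] at h1
    exact bcontra h1 h4

theorem adj_comm' (a u p q : V) : T.adj a u p q = T.adj a u q p := by
  unfold Table.adj
  exact Bool.or_comm _ _

/-- `x` prefers `p` to `q` -/
noncomputable def Table.pre (T : Table V) (ρ : V → ℝ) (a x p q : V) : Bool :=
  decide (ρ p < ρ q) ^^ T.adj a x p q

theorem pre_trans_b {a : V} {ρ : V → ℝ} (hρ : T.Ord a ρ) {x p q s : V} (hx : x ≠ a) (hp : p ≠ a)
    (hq : q ≠ a) (hs : s ≠ a) (xp : ρ x < ρ p) (xq : ρ x < ρ q) (xs : ρ x < ρ s)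
    (npq : p ≠ q) (nqs : q ≠ s) (nps : p ≠ s)
    (h1 : T.pre ρ a x p q = true) (h2 : T.pre ρ a x q s = true) : T.pre ρ a x p s = true := by
  apply bt
  intro h3
  unfold Table.pre at h1 h2 h3
  have lpq : ρ p ≠ ρ q := fun h => npq (hρ.1 _ _ hp hq h)
  have lqs : ρ q ≠ ρ s := fun h => nqs (hρ.1 _ _ hq hs h)
  have lps : ρ p ≠ ρ s := fun h => nps (hρ.1 _ _ hp hs h)
  rcases lt_or_gt_of_ne lpq with u | u <;> rcases lt_or_gt_of_ne lqs with v | v <;>
    rcases lt_or_gt_of_ne lps with w | w
  · rw [decide_eq_true u] at h1
    rw [decide_eq_true v] at h2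
    rw [decide_eq_true w] at h3
    have ea : T.adj a x p q = false := by cases e : T.adj a x p q <;> rw [e] at h1 <;> first | rfl | cases h1
    have eb : T.adj a x q s = false := by cases e : T.adj a x q s <;> rw [e] at h2 <;> first | rfl | cases h2
    have ec : T.adj a x p s = true := by cases e : T.adj a x p s <;> rw [e] at h3 <;> first | rfl | cases h3
    obtain ⟨ja1, ja2⟩ := adj_f ea
    obtain ⟨jb1, jb2⟩ := adj_f eb
    have jc : T.X a p x s = false → T.X a s x p = false → False := fun n1 n2 => adj_t ec n1 n2
    exact pt_b_pqs (rot4 hρ hx hp hq hs xp u v) ja1 ja2 jb1 jb2 jc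
  · exfalso; linarith
  · rw [decide_eq_true u] at h1
    rw [decide_eq_false (not_lt.2 v.le)] at h2
    rw [decide_eq_true w] at h3
    have ea : T.adj a x p q = false := by cases e : T.adj a x p q <;> rw [e] at h1 <;> first | rfl | cases h1
    have eb : T.adj a x q s = true := by cases e : T.adj a x q s <;> rw [e] at h2 <;> first | rfl | cases h2
    have ec : T.adj a x p s = true := by cases e : T.adj a x p s <;> rw [e] at h3 <;> first | rfl | cases h3
    obtain ⟨ja1, ja2⟩ := adj_f ea
    have jb : T.X a q x s = false → T.X a s x q = false → False := fun n1 n2 => adj_t eb n1 n2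
    have jc : T.X a p x s = false → T.X a s x p = false → False := fun n1 n2 => adj_t ec n1 n2
    exact pt_b_psq (rot4 hρ hx hp hs hq xp w v) ja1 ja2 jb jc
  · rw [decide_eq_true u] at h1
    rw [decide_eq_false (not_lt.2 v.le)] at h2
    rw [decide_eq_false (not_lt.2 w.le)] at h3
    have ea : T.adj a x p q = false := by cases e : T.adj a x p q <;> rw [e] at h1 <;> first | rfl | cases h1
    have eb : T.adj a x q s = true := by cases e : T.adj a x q s <;> rw [e] at h2 <;> first | rfl | cases h2
    have ec : T.adj a x p s = false := by cases e : T.adj a x p s <;> rw [e] at h3 <;> first | rfl | cases h3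
    obtain ⟨ja1, ja2⟩ := adj_f ea
    have jb : T.X a q x s = false → T.X a s x q = false → False := fun n1 n2 => adj_t eb n1 n2
    obtain ⟨jc1, jc2⟩ := adj_f ec
    exact pt_b_spq (rot4 hρ hx hs hp hq xs w u) ja1 ja2 jb jc1 jc2
  · rw [decide_eq_false (not_lt.2 u.le)] at h1
    rw [decide_eq_true v] at h2
    rw [decide_eq_true w] at h3
    have ea : T.adj a x p q = true := by cases e : T.adj a x p q <;> rw [e] at h1 <;> first | rfl | cases h1
    have eb : T.adj a x q s = false := by cases e : T.adj a x q s <;> rw [e] at h2 <;> first | rfl | cases h2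
    have ec : T.adj a x p s = true := by cases e : T.adj a x p s <;> rw [e] at h3 <;> first | rfl | cases h3
    have ja : T.X a p x q = false → T.X a q x p = false → False := fun n1 n2 => adj_t ea n1 n2
    obtain ⟨jb1, jb2⟩ := adj_f eb
    have jc : T.X a p x s = false → T.X a s x p = false → False := fun n1 n2 => adj_t ec n1 n2
    exact pt_b_qps (rot4 hρ hx hq hp hs xq u w) ja jb1 jb2 jc
  · rw [decide_eq_false (not_lt.2 u.le)] at h1
    rw [decide_eq_true v] at h2
    rw [decide_eq_false (not_lt.2 w.le)] at h3
    have ea : T.adj a x p q = true := by cases e : T.adj a x p q <;> rw [e] at h1 <;> first | rfl | cases h1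
    have eb : T.adj a x q s = false := by cases e : T.adj a x q s <;> rw [e] at h2 <;> first | rfl | cases h2
    have ec : T.adj a x p s = false := by cases e : T.adj a x p s <;> rw [e] at h3 <;> first | rfl | cases h3
    have ja : T.X a p x q = false → T.X a q x p = false → False := fun n1 n2 => adj_t ea n1 n2
    obtain ⟨jb1, jb2⟩ := adj_f eb
    obtain ⟨jc1, jc2⟩ := adj_f ec
    exact pt_b_qsp (rot4 hρ hx hq hs hp xq v w) ja jb1 jb2 jc1 jc2
  · exfalso; linarith
  · rw [decide_eq_false (not_lt.2 u.le)] at h1
    rw [decide_eq_false (not_lt.2 v.le)] at h2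
    rw [decide_eq_false (not_lt.2 w.le)] at h3
    have ea : T.adj a x p q = true := by cases e : T.adj a x p q <;> rw [e] at h1 <;> first | rfl | cases h1
    have eb : T.adj a x q s = true := by cases e : T.adj a x q s <;> rw [e] at h2 <;> first | rfl | cases h2
    have ec : T.adj a x p s = false := by cases e : T.adj a x p s <;> rw [e] at h3 <;> first | rfl | cases h3
    have ja : T.X a p x q = false → T.X a q x p = false → False := fun n1 n2 => adj_t ea n1 n2
    have jb : T.X a q x s = false → T.X a s x q = false → False := fun n1 n2 => adj_t eb n1 n2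
    obtain ⟨jc1, jc2⟩ := adj_f ec
    exact pt_b_sqp (rot4 hρ hx hs hq hp xs v u) ja jb jc1 jc2

theorem pre_trans_f {a : V} {ρ : V → ℝ} (hρ : T.Ord a ρ) {x p q s : V} (hx : x ≠ a) (hp : p ≠ a)
    (hq : q ≠ a) (hs : s ≠ a) (xp : ρ p < ρ x) (xq : ρ q < ρ x) (xs : ρ s < ρ x)
    (npq : p ≠ q) (nqs : q ≠ s) (nps : p ≠ s)
    (h1 : T.pre ρ a x p q = true) (h2 : T.pre ρ a x q s = true) : T.pre ρ a x p s = true := by
  apply bt
  intro h3
  unfold Table.pre at h1 h2 h3
  have lpq : ρ p ≠ ρ q := fun h => npq (hρ.1 _ _ hp hq h)
  have lqs : ρ q ≠ ρ s := fun h => nqs (hρ.1 _ _ hq hs h)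
  have lps : ρ p ≠ ρ s := fun h => nps (hρ.1 _ _ hp hs h)
  rcases lt_or_gt_of_ne lpq with u | u <;> rcases lt_or_gt_of_ne lqs with v | v <;>
    rcases lt_or_gt_of_ne lps with w | w
  · rw [decide_eq_true u] at h1
    rw [decide_eq_true v] at h2
    rw [decide_eq_true w] at h3
    have ea : T.adj a x p q = false := by cases e : T.adj a x p q <;> rw [e] at h1 <;> first | rfl | cases h1
    have eb : T.adj a x q s = false := by cases e : T.adj a x q s <;> rw [e] at h2 <;> first | rfl | cases h2
    have ec : T.adj a x p s = true := by cases e : T.adj a x p s <;> rw [e] at h3 <;> first | rfl | cases h3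
    obtain ⟨ja1, ja2⟩ := adj_f ea
    rw [T.xs2] at ja1
    rw [T.xs2] at ja2
    obtain ⟨jb1, jb2⟩ := adj_f eb
    rw [T.xs2] at jb1
    rw [T.xs2] at jb2
    have jc : T.X a p s x = false → T.X a s p x = false → False := fun n1 n2 => adj_t ec (by rw [T.xs2]; exact n1) (by rw [T.xs2]; exact n2)
    exact pt_f_pqs (rot4 hρ hp hq hs hx u v xs) ja1 ja2 jb1 jb2 jc
  · exfalso; linarith
  · rw [decide_eq_true u] at h1
    rw [decide_eq_false (not_lt.2 v.le)] at h2
    rw [decide_eq_true w] at h3
    have ea : T.adj a x p q = false := by cases e : T.adj a x p q <;> rw [e] at h1 <;> first | rfl | cases h1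
    have eb : T.adj a x q s = true := by cases e : T.adj a x q s <;> rw [e] at h2 <;> first | rfl | cases h2
    have ec : T.adj a x p s = true := by cases e : T.adj a x p s <;> rw [e] at h3 <;> first | rfl | cases h3
    obtain ⟨ja1, ja2⟩ := adj_f ea
    rw [T.xs2] at ja1
    rw [T.xs2] at ja2
    have jb : T.X a q s x = false → T.X a s q x = false → False := fun n1 n2 => adj_t eb (by rw [T.xs2]; exact n1) (by rw [T.xs2]; exact n2)
    have jc : T.X a p s x = false → T.X a s p x = false → False := fun n1 n2 => adj_t ec (by rw [T.xs2]; exact n1) (by rw [T.xs2]; exact n2)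
    exact pt_f_psq (rot4 hρ hp hs hq hx w v xq) ja1 ja2 jb jc
  · rw [decide_eq_true u] at h1
    rw [decide_eq_false (not_lt.2 v.le)] at h2
    rw [decide_eq_false (not_lt.2 w.le)] at h3
    have ea : T.adj a x p q = false := by cases e : T.adj a x p q <;> rw [e] at h1 <;> first | rfl | cases h1
    have eb : T.adj a x q s = true := by cases e : T.adj a x q s <;> rw [e] at h2 <;> first | rfl | cases h2
    have ec : T.adj a x p s = false := by cases e : T.adj a x p s <;> rw [e] at h3 <;> first | rfl | cases h3
    obtain ⟨ja1, ja2⟩ := adj_f ea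
    rw [T.xs2] at ja1
    rw [T.xs2] at ja2
    have jb : T.X a q s x = false → T.X a s q x = false → False := fun n1 n2 => adj_t eb (by rw [T.xs2]; exact n1) (by rw [T.xs2]; exact n2)
    obtain ⟨jc1, jc2⟩ := adj_f ec
    rw [T.xs2] at jc1
    rw [T.xs2] at jc2
    exact pt_f_spq (rot4 hρ hs hp hq hx w u xq) ja1 ja2 jb jc1 jc2
  · rw [decide_eq_false (not_lt.2 u.le)] at h1
    rw [decide_eq_true v] at h2
    rw [decide_eq_true w] at h3
    have ea : T.adj a x p q = true := by cases e : T.adj a x p q <;> rw [e] at h1 <;> first | rfl | cases h1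
    have eb : T.adj a x q s = false := by cases e : T.adj a x q s <;> rw [e] at h2 <;> first | rfl | cases h2
    have ec : T.adj a x p s = true := by cases e : T.adj a x p s <;> rw [e] at h3 <;> first | rfl | cases h3
    have ja : T.X a p q x = false → T.X a q p x = false → False := fun n1 n2 => adj_t ea (by rw [T.xs2]; exact n1) (by rw [T.xs2]; exact n2)
    obtain ⟨jb1, jb2⟩ := adj_f eb
    rw [T.xs2] at jb1
    rw [T.xs2] at jb2
    have jc : T.X a p s x = false → T.X a s p x = false → False := fun n1 n2 => adj_t ec (by rw [T.xs2]; exact n1) (by rw [T.xs2]; exact n2)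
    exact pt_f_qps (rot4 hρ hq hp hs hx u w xs) ja jb1 jb2 jc
  · rw [decide_eq_false (not_lt.2 u.le)] at h1
    rw [decide_eq_true v] at h2
    rw [decide_eq_false (not_lt.2 w.le)] at h3
    have ea : T.adj a x p q = true := by cases e : T.adj a x p q <;> rw [e] at h1 <;> first | rfl | cases h1
    have eb : T.adj a x q s = false := by cases e : T.adj a x q s <;> rw [e] at h2 <;> first | rfl | cases h2
    have ec : T.adj a x p s = false := by cases e : T.adj a x p s <;> rw [e] at h3 <;> first | rfl | cases h3
    have ja : T.X a p q x = false → T.X a q p x = false → False := fun n1 n2 => adj_t ea (by rw [T.xs2]; exact n1) (by rw [T.xs2]; exact n2)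
    obtain ⟨jb1, jb2⟩ := adj_f eb
    rw [T.xs2] at jb1
    rw [T.xs2] at jb2
    obtain ⟨jc1, jc2⟩ := adj_f ec
    rw [T.xs2] at jc1
    rw [T.xs2] at jc2
    exact pt_f_qsp (rot4 hρ hq hs hp hx v w xp) ja jb1 jb2 jc1 jc2
  · exfalso; linarith
  · rw [decide_eq_false (not_lt.2 u.le)] at h1
    rw [decide_eq_false (not_lt.2 v.le)] at h2
    rw [decide_eq_false (not_lt.2 w.le)] at h3
    have ea : T.adj a x p q = true := by cases e : T.adj a x p q <;> rw [e] at h1 <;> first | rfl | cases h1
    have eb : T.adj a x q s = true := by cases e : T.adj a x q s <;> rw [e] at h2 <;> first | rfl | cases h2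
    have ec : T.adj a x p s = false := by cases e : T.adj a x p s <;> rw [e] at h3 <;> first | rfl | cases h3
    have ja : T.X a p q x = false → T.X a q p x = false → False := fun n1 n2 => adj_t ea (by rw [T.xs2]; exact n1) (by rw [T.xs2]; exact n2)
    have jb : T.X a q s x = false → T.X a s q x = false → False := fun n1 n2 => adj_t eb (by rw [T.xs2]; exact n1) (by rw [T.xs2]; exact n2)
    obtain ⟨jc1, jc2⟩ := adj_f ec
    rw [T.xs2] at jc1
    rw [T.xs2] at jc2
    exact pt_f_sqp (rot4 hρ hs hq hp hx v u xp) ja jb jc1 jc2

end H53P
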