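import Pool.Agent.Lib.H98S.CL1
import Pool.Agent.Lib.H98S.CL2
import Pool.Agent.Lib.H98S.CL3
import Pool.Agent.Lib.H98S.SN

/-! # H98S, finite facts, file PAR: parity (generated) -/

set_option linter.unusedVariables false

namespace H53P

variable {V : Type*} {T : Table V}

theorem par_i {a g z h x y : V} (hL : T.RotL a [g, z, h, x, y])
    (h1 : T.X a x g h = false)
    (h2 : T.X a y g h = false)
    (h3 : T.X a z g h = false)
    (h4 : T.X a g x y = false)
    (h5 : T.X a h x y = false)
    (h6 : T.X a z x y = true) : False := by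
  have g7 := c5a_578_66 (hL.four (.cons _ (.cons_cons _ (.cons_cons _ (.cons_cons _ (.cons_cons _ (List.nil_sublist _)))))))
  have g8 := c5a_4708_4096 (hL.four (.cons_cons _ (.cons _ (.cons_cons _ (.cons_cons _ (.cons_cons _ (List.nil_sublist _)))))))
  have g9 := c5a_9482_0 (hL.four (.cons_cons _ (.cons_cons _ (.cons_cons _ (.cons _ (.cons_cons _ (List.nil_sublist _)))))))
  have g10 := c5a_82_80 (hL.four (.cons _ (.cons_cons _ (.cons_cons _ (.cons_cons _ (.cons_cons _ (List.nil_sublist _)))))))
  have g11 := c5a_294_32 (hL.four (.cons_cons _ (.cons_cons _ (.cons_cons _ (.cons _ (.cons_cons _ (List.nil_sublist _)))))))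
  have g12 := c5a_577_513 (hL.four (.cons_cons _ (.cons_cons _ (.cons _ (.cons_cons _ (.cons_cons _ (List.nil_sublist _)))))))
  have g13 := c5a_9482_0 (hL.four (.cons_cons _ (.cons_cons _ (.cons_cons _ (.cons_cons _ (List.nil_sublist _))))))
  have g14 := c5a_584_520 (hL.four (.cons_cons _ (.cons_cons _ (.cons _ (.cons_cons _ (.cons_cons _ (List.nil_sublist _)))))))
  have g15 := c5_594_82 (hL.five (.cons_cons _ (.cons_cons _ (.cons_cons _ (.cons_cons _ (.cons_cons _ (List.nil_sublist _)))))))
  have g16 := c5a_4704_512 (hL.four (.cons_cons _ (.cons_cons _ (.cons _ (.cons_cons _ (.cons_cons _ (List.nil_sublist _)))))))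
  have g17 := c5a_9252_8196 (hL.four (.cons_cons _ (.cons_cons _ (.cons_cons _ (.cons_cons _ (List.nil_sublist _))))))
  have g18 := c5a_4612_516 (hL.four (.cons_cons _ (.cons_cons _ (.cons _ (.cons_cons _ (.cons_cons _ (List.nil_sublist _)))))))
  have s19 : T.X a h z x = true → False := fun n1 => by
    exact g7 n1 h6 h5
  have s20 : T.X g h x y = true → False := fun n1 => by
    exact g8 h1 h2 h4 h5 n1
  have s21 : T.X a g z y = false → T.X a h z y = false → T.X g h z y = false → False := fun n1 n2 n3 => by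
    exact g9 h3 n1 h2 n2 n3
  have s22 : T.X a h z y = true → False := fun n1 => by
    have u1 : T.X a h z x = false := bf (fun t => s19 t)
    exact g10 u1 n1 h6
  have s23 : T.X a h g z = false → T.X a y g z = true → False := fun n1 n2 => by
    exact g11 h3 n1 n2 h2
  have s24 : T.X a g z x = true → False := fun n1 => by
    exact g12 n1 h4 h6
  have s25 : T.X g h z x = false → False := fun n1 => by
    have u2 : T.X a g z x = false := bf (fun t => s24 t)
    have u4 : T.X a h z x = false := bf (fun t => s19 t)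
    exact g13 h3 u2 h1 u4 n1
  have s26 : T.X a g z y = true → False := fun n1 => by
    exact g14 n1 h4 h6
  have s27 : T.X g h z y = false → False := fun n1 => by
    have u1 : T.X a g z y = false := bf (fun t => s26 t)
    have u2 : T.X a h z y = false := bf (fun t => s22 t)
    exact s21 u1 u2 n1
  have s28 : T.X g z x y = true → False := fun n1 => by
    have u1 : T.X g h z x = true := bt (fun t => s25 t)
    have u2 : T.X g h z y = true := bt (fun t => s27 t)
    have u3 : T.X g h x y = false := bf (fun t => s20 t)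
    exact g15 u1 u2 n1 u3
  have s29 : T.X a y g z = false → False := fun n1 => by
    have u3 : T.X g z x y = false := bf (fun t => s28 t)
    exact g16 n1 h4 h6 u3
  have s30 : T.X a h g z = false → False := fun n1 => by
    have u1 : T.X a y g z = true := bt (fun t => s29 t)
    exact s23 n1 u1
  have s31 : T.X a x g z = false → False := fun n1 => by
    have u1 : T.X a h g z = true := bt (fun t => s30 t)
    have u2 : T.X a h z x = false := bf (fun t => s19 t)
    have u3 : T.X g h z x = true := bt (fun t => s25 t)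
    exact g17 u1 n1 u2 u3
  have u1 : T.X a x g z = true := bt (fun t => s31 t)
  have u3 : T.X g z x y = false := bf (fun t => s28 t)
  exact g18 u1 h6 u3

theorem par_o {a g x y h z : V} (hL : T.RotL a [g, x, y, h, z])
    (h1 : T.X a x g h = false)
    (h2 : T.X a y g h = false)
    (h3 : T.X a z g h = false)
    (h4 : T.X a g x y = false)
    (h5 : T.X a h x y = false)
    (h6 : T.X a z x y = true) : False := by
  have g7 := c5a_2057_2056 (hL.four (.cons_cons _ (.cons_cons _ (.cons_cons _ (.cons _ (.cons_cons _ (List.nil_sublist _)))))))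
  have g8 := c5a_18449_2048 (hL.four (.cons_cons _ (.cons_cons _ (.cons_cons _ (.cons _ (.cons_cons _ (List.nil_sublist _)))))))
  have g9 := c5a_164_160 (hL.four (.cons _ (.cons_cons _ (.cons_cons _ (.cons_cons _ (.cons_cons _ (List.nil_sublist _)))))))
  have g10 := c5a_1060_1056 (hL.four (.cons _ (.cons_cons _ (.cons_cons _ (.cons_cons _ (.cons_cons _ (List.nil_sublist _)))))))
  have g11 := c5a_1176_128 (hL.four (.cons_cons _ (.cons _ (.cons_cons _ (.cons_cons _ (.cons_cons _ (List.nil_sublist _)))))))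
  have g12 := c5_1188_1184 (hL.five (.cons_cons _ (.cons_cons _ (.cons_cons _ (.cons_cons _ (.cons_cons _ (List.nil_sublist _)))))))
  have g13 := c5a_2113_2112 (hL.four (.cons_cons _ (.cons_cons _ (.cons_cons _ (.cons _ (.cons_cons _ (List.nil_sublist _)))))))
  have g14 := c5a_9482_0 (hL.four (.cons_cons _ (.cons_cons _ (.cons _ (.cons_cons _ (.cons_cons _ (List.nil_sublist _)))))))
  have g15 := c5a_402_16 (hL.four (.cons_cons _ (.cons_cons _ (.cons _ (.cons_cons _ (.cons_cons _ (List.nil_sublist _)))))))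
  have g16 := c5a_18577_16384 (hL.four (.cons_cons _ (.cons_cons _ (.cons_cons _ (.cons_cons _ (List.nil_sublist _))))))
  have g17 := c5a_9482_0 (hL.four (.cons_cons _ (.cons _ (.cons_cons _ (.cons_cons _ (.cons_cons _ (List.nil_sublist _)))))))
  have g18 := c5a_18560_2176 (hL.four (.cons_cons _ (.cons_cons _ (.cons_cons _ (.cons _ (.cons_cons _ (List.nil_sublist _)))))))
  have s19 : T.X a g x z = true → False := fun n1 => by
    exact g7 h4 n1 h6
  have s20 : T.X a x g z = false → T.X g z x y = false → False := fun n1 n2 => by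
    exact g8 h4 n1 h6 n2
  have s21 : T.X a h x z = true → False := fun n1 => by
    exact g9 h5 h6 n1
  have s22 : T.X a h y z = true → False := fun n1 => by
    exact g10 h5 h6 n1
  have s23 : T.X a g y z = false → T.X a y g z = false → T.X a h g z = true → False := fun n1 n2 n3 => by
    have u1 : T.X a h y z = false := bf (fun t => s22 t)
    exact g11 n1 n2 n3 u1
  have s24 : T.X a g y z = true → False := fun n1 => by
    exact g13 h4 n1 h6
  have s25 : T.X g h x z = false → False := fun n1 => by
    have u2 : T.X a g x z = false := bf (fun t => s19 t)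
    have u4 : T.X a h x z = false := bf (fun t => s21 t)
    exact g14 h1 u2 h3 u4 n1
  have s26 : T.X a x g z = true → T.X a h g z = false → False := fun n1 n2 => by
    exact g15 h1 n1 n2 h3
  have s27 : T.X g h x y = true → False := fun n1 => by
    exact g16 h4 h1 h2 h5 n1
  have s28 : T.X g h y z = false → False := fun n1 => by
    have u2 : T.X a g y z = false := bf (fun t => s24 t)
    have u4 : T.X a h y z = false := bf (fun t => s22 t)
    exact g17 h2 u2 h3 u4 n1
  have s29 : T.X g z x y = true → False := fun n1 => by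
    have u1 : T.X g h y z = true := bt (fun t => s28 t)
    have u2 : T.X g h x z = true := bt (fun t => s25 t)
    have u3 : T.X g h x y = false := bf (fun t => s27 t)
    exact g12 u3 n1 u2 u1
  have s30 : T.X a x g z = false → False := fun n1 => by
    have u1 : T.X g z x y = false := bf (fun t => s29 t)
    exact s20 n1 u1
  have s31 : T.X a h g z = false → False := fun n1 => by
    have u1 : T.X a x g z = true := bt (fun t => s30 t)
    exact s26 u1 n1
  have s32 : T.X a y g z = false → False := fun n1 => by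
    have u1 : T.X a h g z = true := bt (fun t => s31 t)
    have u2 : T.X a g y z = false := bf (fun t => s24 t)
    exact s23 u2 n1 u1
  have u1 : T.X a y g z = true := bt (fun t => s32 t)
  have u3 : T.X g z x y = false := bf (fun t => s29 t)
  exact g18 u1 h6 u3


variable {a : V} {ρ : V → ℝ}

theorem shift_ge (hρ : T.Ord a ρ) (c : ℝ) : ∃ σ : V → ℝ, T.Ord a σ ∧
    (∀ x y, c ≤ ρ x → c ≤ ρ y → (σ x < σ y ↔ ρ x < ρ y)) ∧
    (∀ x y, ρ x < c → ρ y < c → (σ x < σ y ↔ ρ x < ρ y)) ∧
    (∀ x y, c ≤ ρ x → ρ y < c → σ x < σ y) :=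
  ⟨fun x => shf c (ρ x), hρ.shift c, fun _ _ h1 h2 => shf_lt_same1 h1 h2,
    fun _ _ h1 h2 => shf_lt_same2 h1 h2, fun _ _ h1 h2 => shf_lt_diff h1 h2⟩

theorem xself (T : Table V) (a z x : V) : T.X a z x x = false := by
  cases h : T.X a z x x with
  | false => rfl
  | true => exact absurd rfl (T.ne _ _ _ _ h).2.1

/-- parity: the ray `z` inside the window of the chord `g h`, both ends of the edge outside -/
theorem par_in (hρ : T.Ord a ρ) {g h x y z : V} (hg : g ≠ a) (hh : h ≠ a) (hx : x ≠ a) (hy : y ≠ a)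
    (hz : z ≠ a) (gz : ρ g < ρ z) (zh : ρ z < ρ h) (ox : ρ x < ρ g ∨ ρ h < ρ x)
    (oy : ρ y < ρ g ∨ ρ h < ρ y) (h1 : T.X a x g h = false) (h2 : T.X a y g h = false)
    (h3 : T.X a z g h = false) (h4 : T.X a g x y = false) (h5 : T.X a h x y = false) :
    T.X a z x y = false := by
  apply bf
  intro h6
  obtain ⟨σ, hσ, s1, s2, s3⟩ := shift_ge hρ (ρ g)
  have gz' : σ g < σ z := (s1 _ _ le_rfl gz.le).2 gz
  have zh' : σ z < σ h := (s1 _ _ gz.le (gz.trans zh).le).2 zh
  have out : ∀ w, (ρ w < ρ g ∨ ρ h < ρ w) → σ h < σ w := by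
    intro w hw
    rcases hw with hw | hw
    · exact s3 _ _ (gz.trans zh).le hw
    · exact (s1 _ _ (gz.trans zh).le ((gz.trans zh).trans hw).le).2 hw
  have x' := out x ox
  have y' := out y oy
  rcases lt_trichotomy (σ x) (σ y) with t | t | t
  · exact par_i (rot5 hσ hg hz hh hx hy gz' zh' x' t) h1 h2 h3 h4 h5 h6
  · rw [hσ.1 _ _ hx hy t, xself] at h6
    cases h6
  · rw [T.xs2] at h4 h5 h6
    exact par_i (rot5 hσ hg hz hh hy hx gz' zh' y' t) h2 h1 h3 h4 h5 h6

/-- parity: the ray `z` outside the window of the chord `g h`, both ends of the edge inside -/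
theorem par_out (hρ : T.Ord a ρ) {g h x y z : V} (hg : g ≠ a) (hh : h ≠ a) (hx : x ≠ a) (hy : y ≠ a)
    (hz : z ≠ a) (oz : ρ z < ρ g ∨ ρ h < ρ z) (gx : ρ g < ρ x) (xh : ρ x < ρ h)
    (gy : ρ g < ρ y) (yh : ρ y < ρ h) (h1 : T.X a x g h = false) (h2 : T.X a y g h = false)
    (h3 : T.X a z g h = false) (h4 : T.X a g x y = false) (h5 : T.X a h x y = false) :
    T.X a z x y = false := by
  apply bf
  intro h6
  obtain ⟨σ, hσ, s1, s2, s3⟩ := shift_ge hρ (ρ g)
  have gh := gx.trans xh
  have gx' : σ g < σ x := (s1 _ _ le_rfl gx.le).2 gx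
  have gy' : σ g < σ y := (s1 _ _ le_rfl gy.le).2 gy
  have xh' : σ x < σ h := (s1 _ _ gx.le gh.le).2 xh
  have yh' : σ y < σ h := (s1 _ _ gy.le gh.le).2 yh
  have hz' : σ h < σ z := by
    rcases oz with hw | hw
    · exact s3 _ _ gh.le hw
    · exact (s1 _ _ gh.le (gh.trans hw).le).2 hw
  rcases lt_trichotomy (σ x) (σ y) with t | t | t
  · exact par_o (rot5 hσ hg hx hy hh hz gx' t yh' hz') h1 h2 h3 h4 h5 h6
  · rw [hσ.1 _ _ hx hy t, xself] at h6
    cases h6
  · rw [T.xs2] at h4 h5 h6
    exact par_o (rot5 hσ hg hy hx hh hz gy' t xh' hz') h2 h1 h3 h4 h5 h6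

end H53P
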