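import Pool.Agent.Lib.H98S.Ord

/-! # H98S, finite facts, file PQ: families of conditions on five points (for H38Q) -/

set_option linter.unusedVariables false

open H53P

namespace H98Q

variable {V : Type*} {T : Table V}

theorem rot4 {a : V} {ρ : V → ℝ} (hρ : T.Ord a ρ) {x y p q : V} (hx : x ≠ a) (hy : y ≠ a)
    (hp : p ≠ a) (hq : q ≠ a) (xy : ρ x < ρ y) (yp : ρ y < ρ p) (pq : ρ p < ρ q) :
    T.RotL a [x, y, p, q] :=
  hρ.rotL (by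
    simp only [List.map_cons, List.map_nil, List.isChain_cons_cons, List.isChain_singleton, and_true]
    exact ⟨xy, yp, pq⟩) (List.forall_mem_cons.2 ⟨hx, List.forall_mem_cons.2 ⟨hy,
      List.forall_mem_cons.2 ⟨hp, List.forall_mem_cons.2 ⟨hq, fun _ h => by cases h⟩⟩⟩⟩)

theorem rot5 {a : V} {ρ : V → ℝ} (hρ : T.Ord a ρ) {x y p q o : V} (hx : x ≠ a) (hy : y ≠ a)
    (hp : p ≠ a) (hq : q ≠ a) (ho : o ≠ a) (xy : ρ x < ρ y) (yp : ρ y < ρ p) (pq : ρ p < ρ q)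
    (qo : ρ q < ρ o) : T.RotL a [x, y, p, q, o] :=
  hρ.rotL (by
    simp only [List.map_cons, List.map_nil, List.isChain_cons_cons, List.isChain_singleton, and_true]
    exact ⟨xy, yp, pq, qo⟩) (List.forall_mem_cons.2 ⟨hx, List.forall_mem_cons.2 ⟨hy,
      List.forall_mem_cons.2 ⟨hp, List.forall_mem_cons.2 ⟨hq, List.forall_mem_cons.2 ⟨ho,
      fun _ h => by cases h⟩⟩⟩⟩⟩)

theorem adj_i {a u p q : V} (h1 : T.X a p u q = false) (h2 : T.X a q u p = false) :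
    T.adj a u p q = false := by
  unfold Table.adj
  rw [h1, h2]
  rfl

/-- conditions on five points -/
def okS1 (b0 b1 b2 b3 b4 b5 b6 b7 b8 b9 b10 b11 b12 b13 b14 : Bool) : Bool :=
  ((((b9 ^^ b12) ^^ b0) ^^ b3) ^^ b6) && ok5 b0 b1 b2 b3 b4 b5 b6 b7 b8 b9 b10 b11 b12 b13 b14

/-- conditions on five points -/
def _root_.H53P.Table.OkS1 (T : Table V) (p0 p1 p2 p3 p4 : V) : Prop :=
  okS1 (T.X p0 p1 p2 p3) (T.X p0 p2 p1 p3) (T.X p0 p3 p1 p2) (T.X p0 p1 p2 p4) (T.X p0 p2 p1 p4) (T.X p0 p4 p1 p2) (T.X p0 p1 p3 p4) (T.X p0 p3 p1 p4) (T.X p0 p4 p1 p3) (T.X p0 p2 p3 p4) (T.X p0 p3 p2 p4) (T.X p0 p4 p2 p3) (T.X p1 p2 p3 p4) (T.X p1 p3 p2 p4) (T.X p1 p4 p2 p3) = true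

theorem axS1 (T : Table V) (p0 p1 p2 p3 p4 : V) : T.alt p2 p0 p1 p3 p4 =
    ((((T.X p0 p2 p3 p4 ^^ T.X p1 p2 p3 p4) ^^ T.X p0 p1 p2 p3) ^^ T.X p0 p1 p2 p4) ^^ T.X p0 p1 p3 p4) := by
  unfold Table.alt altX
  rw [T.xs1 p2 p0 p3 p4, T.xs1 p2 p1 p3 p4]

theorem okS1_i {p0 p1 p2 p3 p4 : V} (h : T.Ok5 p0 p1 p2 p3 p4) (ha : T.alt p2 p0 p1 p3 p4 = true) : T.OkS1 p0 p1 p2 p3 p4 := by
  rw [axS1] at ha
  exact and_i ha h

/-- conditions on five points -/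
def okS2 (b0 b1 b2 b3 b4 b5 b6 b7 b8 b9 b10 b11 b12 b13 b14 : Bool) : Bool :=
  ((((b1 ^^ b13) ^^ b11) ^^ b5) ^^ b8) && ok5 b0 b1 b2 b3 b4 b5 b6 b7 b8 b9 b10 b11 b12 b13 b14

/-- conditions on five points -/
def _root_.H53P.Table.OkS2 (T : Table V) (p0 p1 p2 p3 p4 : V) : Prop :=
  okS2 (T.X p0 p1 p2 p3) (T.X p0 p2 p1 p3) (T.X p0 p3 p1 p2) (T.X p0 p1 p2 p4) (T.X p0 p2 p1 p4) (T.X p0 p4 p1 p2) (T.X p0 p1 p3 p4) (T.X p0 p3 p1 p4) (T.X p0 p4 p1 p3) (T.X p0 p2 p3 p4) (T.X p0 p3 p2 p4) (T.X p0 p4 p2 p3) (T.X p1 p2 p3 p4) (T.X p1 p3 p2 p4) (T.X p1 p4 p2 p3) = true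

theorem axS2 (T : Table V) (p0 p1 p2 p3 p4 : V) : T.alt p2 p0 p4 p3 p1 =
    ((((T.X p0 p2 p1 p3 ^^ T.X p1 p3 p2 p4) ^^ T.X p0 p4 p2 p3) ^^ T.X p0 p4 p1 p2) ^^ T.X p0 p4 p1 p3) := by
  unfold Table.alt altX
  rw [T.xs3 p2 p0 p3 p1, T.xs5 p2 p4 p3 p1, T.xs2 p0 p4 p2 p1, T.xs2 p0 p4 p3 p1]

theorem okS2_i {p0 p1 p2 p3 p4 : V} (h : T.Ok5 p0 p1 p2 p3 p4) (ha : T.alt p2 p0 p4 p3 p1 = true) : T.OkS2 p0 p1 p2 p3 p4 := by
  rw [axS2] at ha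
  exact and_i ha h

/-- conditions on five points -/
def okS3 (b0 b1 b2 b3 b4 b5 b6 b7 b8 b9 b10 b11 b12 b13 b14 : Bool) : Bool :=
  ((((b4 ^^ b14) ^^ b10) ^^ b2) ^^ b7) && ok5 b0 b1 b2 b3 b4 b5 b6 b7 b8 b9 b10 b11 b12 b13 b14

/-- conditions on five points -/
def _root_.H53P.Table.OkS3 (T : Table V) (p0 p1 p2 p3 p4 : V) : Prop :=
  okS3 (T.X p0 p1 p2 p3) (T.X p0 p2 p1 p3) (T.X p0 p3 p1 p2) (T.X p0 p1 p2 p4) (T.X p0 p2 p1 p4) (T.X p0 p4 p1 p2) (T.X p0 p1 p3 p4) (T.X p0 p3 p1 p4) (T.X p0 p4 p1 p3) (T.X p0 p2 p3 p4) (T.X p0 p3 p2 p4) (T.X p0 p4 p2 p3) (T.X p1 p2 p3 p4) (T.X p1 p3 p2 p4) (T.X p1 p4 p2 p3) = true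

theorem axS3 (T : Table V) (p0 p1 p2 p3 p4 : V) : T.alt p2 p0 p3 p4 p1 =
    ((((T.X p0 p2 p1 p4 ^^ T.X p1 p4 p2 p3) ^^ T.X p0 p3 p2 p4) ^^ T.X p0 p3 p1 p2) ^^ T.X p0 p3 p1 p4) := by
  unfold Table.alt altX
  rw [T.xs3 p2 p0 p4 p1, T.xs5 p2 p3 p4 p1, T.xs2 p0 p3 p2 p1, T.xs2 p0 p3 p4 p1]

theorem okS3_i {p0 p1 p2 p3 p4 : V} (h : T.Ok5 p0 p1 p2 p3 p4) (ha : T.alt p2 p0 p3 p4 p1 = true) : T.OkS3 p0 p1 p2 p3 p4 := by
  rw [axS3] at ha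
  exact and_i ha h

/-- conditions on five points -/
def okV1 (b0 b1 b2 b3 b4 b5 b6 b7 b8 b9 b10 b11 b12 b13 b14 : Bool) : Bool :=
  ((((b0 ^^ b14) ^^ b8) ^^ b5) ^^ b11) && ok5 b0 b1 b2 b3 b4 b5 b6 b7 b8 b9 b10 b11 b12 b13 b14

/-- conditions on five points -/
def _root_.H53P.Table.OkV1 (T : Table V) (p0 p1 p2 p3 p4 : V) : Prop :=
  okV1 (T.X p0 p1 p2 p3) (T.X p0 p2 p1 p3) (T.X p0 p3 p1 p2) (T.X p0 p1 p2 p4) (T.X p0 p2 p1 p4) (T.X p0 p4 p1 p2) (T.X p0 p1 p3 p4) (T.X p0 p3 p1 p4) (T.X p0 p4 p1 p3) (T.X p0 p2 p3 p4) (T.X p0 p3 p2 p4) (T.X p0 p4 p2 p3) (T.X p1 p2 p3 p4) (T.X p1 p3 p2 p4) (T.X p1 p4 p2 p3) = true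

theorem axV1 (T : Table V) (p0 p1 p2 p3 p4 : V) : T.alt p1 p0 p4 p3 p2 =
    ((((T.X p0 p1 p2 p3 ^^ T.X p1 p4 p2 p3) ^^ T.X p0 p4 p1 p3) ^^ T.X p0 p4 p1 p2) ^^ T.X p0 p4 p2 p3) := by
  unfold Table.alt altX
  rw [T.xs3 p1 p0 p3 p2, T.xs2 p1 p4 p3 p2, T.xs2 p0 p4 p3 p2]

theorem okV1_i {p0 p1 p2 p3 p4 : V} (h : T.Ok5 p0 p1 p2 p3 p4) (ha : T.alt p1 p0 p4 p3 p2 = true) : T.OkV1 p0 p1 p2 p3 p4 := by
  rw [axV1] at ha
  exact and_i ha h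

/-- conditions on five points -/
def okV2 (b0 b1 b2 b3 b4 b5 b6 b7 b8 b9 b10 b11 b12 b13 b14 : Bool) : Bool :=
  ((((b3 ^^ b13) ^^ b7) ^^ b2) ^^ b10) && ok5 b0 b1 b2 b3 b4 b5 b6 b7 b8 b9 b10 b11 b12 b13 b14

/-- conditions on five points -/
def _root_.H53P.Table.OkV2 (T : Table V) (p0 p1 p2 p3 p4 : V) : Prop :=
  okV2 (T.X p0 p1 p2 p3) (T.X p0 p2 p1 p3) (T.X p0 p3 p1 p2) (T.X p0 p1 p2 p4) (T.X p0 p2 p1 p4) (T.X p0 p4 p1 p2) (T.X p0 p1 p3 p4) (T.X p0 p3 p1 p4) (T.X p0 p4 p1 p3) (T.X p0 p2 p3 p4) (T.X p0 p3 p2 p4) (T.X p0 p4 p2 p3) (T.X p1 p2 p3 p4) (T.X p1 p3 p2 p4) (T.X p1 p4 p2 p3) = true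

theorem axV2 (T : Table V) (p0 p1 p2 p3 p4 : V) : T.alt p1 p0 p3 p4 p2 =
    ((((T.X p0 p1 p2 p4 ^^ T.X p1 p3 p2 p4) ^^ T.X p0 p3 p1 p4) ^^ T.X p0 p3 p1 p2) ^^ T.X p0 p3 p2 p4) := by
  unfold Table.alt altX
  rw [T.xs3 p1 p0 p4 p2, T.xs2 p1 p3 p4 p2, T.xs2 p0 p3 p4 p2]

theorem okV2_i {p0 p1 p2 p3 p4 : V} (h : T.Ok5 p0 p1 p2 p3 p4) (ha : T.alt p1 p0 p3 p4 p2 = true) : T.OkV2 p0 p1 p2 p3 p4 := by
  rw [axV2] at ha
  exact and_i ha h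

theorem axS1b (T : Table V) (p0 p1 p2 p3 p4 : V) : T.alt p2 p0 p1 p4 p3 =
    ((((T.X p0 p2 p3 p4 ^^ T.X p1 p2 p3 p4) ^^ T.X p0 p1 p2 p4) ^^ T.X p0 p1 p2 p3) ^^ T.X p0 p1 p3 p4) := by
  unfold Table.alt altX
  rw [T.xs3 p2 p0 p4 p3, T.xs3 p2 p1 p4 p3, T.xs2 p0 p1 p4 p3]

theorem alt_sw (T : Table V) (p q r s t : V) : T.alt p q r s t = T.alt p q r t s := by
  unfold Table.alt altX
  rw [T.xs2 p q s t, T.xs2 p r s t, T.xs2 q r s t]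
  cases T.X p q t s <;> cases T.X p r t s <;> cases T.X q r p s <;> cases T.X q r p t <;> cases T.X q r t s <;> rfl

theorem bc5_648_648 : ∀ b0 b1 b2 b4 b5 b6 b8 b10 b11 b12 b13 b14 : Bool,
    ok5 b0 b1 b2 true b4 b5 b6 true b8 true b10 b11 b12 b13 b14 = true → False := by
  decide +kernel

theorem c5_648_648 {p0 p1 p2 p3 p4 : V} (h : T.Ok5 p0 p1 p2 p3 p4)
    (n3 : T.X p0 p1 p2 p4 = true)
    (n7 : T.X p0 p3 p1 p4 = true)
    (n9 : T.X p0 p2 p3 p4 = true) : False := by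
  have h2 := h
  unfold Table.Ok5 at h2
  rw [n3, n7, n9] at h2
  exact bc5_648_648 _ _ _ _ _ _ _ _ _ _ _ _ h2

theorem bc5_1104_1104 : ∀ b0 b1 b2 b3 b5 b7 b8 b9 b11 b12 b13 b14 : Bool,
    ok5 b0 b1 b2 b3 true b5 true b7 b8 b9 true b11 b12 b13 b14 = true → False := by
  decide +kernel

theorem c5_1104_1104 {p0 p1 p2 p3 p4 : V} (h : T.Ok5 p0 p1 p2 p3 p4)
    (n4 : T.X p0 p2 p1 p4 = true)
    (n6 : T.X p0 p1 p3 p4 = true)
    (n10 : T.X p0 p3 p2 p4 = true) : False := by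
  have h2 := h
  unfold Table.Ok5 at h2
  rw [n4, n6, n10] at h2
  exact bc5_1104_1104 _ _ _ _ _ _ _ _ _ _ _ _ h2

theorem bc5a_5_5 : ∀ b1 b3 b4 b5 b6 b7 b8 b9 b10 b11 b12 b13 b14 : Bool,
    ok5a true b1 true b3 b4 b5 b6 b7 b8 b9 b10 b11 b12 b13 b14 = true → False := by
  decide +kernel

theorem c5a_5_5 {p0 p1 p2 p3 p4 : V} (h : T.Ok5a p0 p1 p2 p3 p4)
    (n0 : T.X p0 p1 p2 p3 = true)
    (n2 : T.X p0 p3 p1 p2 = true) : False := by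
  have h2 := h
  unfold Table.Ok5a at h2
  rw [n0, n2] at h2
  exact bc5a_5_5 _ _ _ _ _ _ _ _ _ _ _ _ _ h2

theorem bc5a_138_138 : ∀ b0 b2 b4 b5 b6 b8 b9 b10 b11 b12 b13 b14 : Bool,
    ok5a b0 true b2 true b4 b5 b6 true b8 b9 b10 b11 b12 b13 b14 = true → False := by
  decide +kernel

theorem c5a_138_138 {p0 p1 p2 p3 p4 : V} (h : T.Ok5a p0 p1 p2 p3 p4)
    (n1 : T.X p0 p2 p1 p3 = true)
    (n3 : T.X p0 p1 p2 p4 = true)
    (n7 : T.X p0 p3 p1 p4 = true) : False := by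
  have h2 := h
  unfold Table.Ok5a at h2
  rw [n1, n3, n7] at h2
  exact bc5a_138_138 _ _ _ _ _ _ _ _ _ _ _ _ h2

theorem bc5a_146_130 : ∀ b0 b2 b3 b5 b6 b8 b9 b10 b11 b12 b13 b14 : Bool,
    ok5a b0 true b2 b3 false b5 b6 true b8 b9 b10 b11 b12 b13 b14 = true → False := by
  decide +kernel

theorem c5a_146_130 {p0 p1 p2 p3 p4 : V} (h : T.Ok5a p0 p1 p2 p3 p4)
    (n1 : T.X p0 p2 p1 p3 = true)
    (n4 : T.X p0 p2 p1 p4 = false)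
    (n7 : T.X p0 p3 p1 p4 = true) : False := by
  have h2 := h
  unfold Table.Ok5a at h2
  rw [n1, n4, n7] at h2
  exact bc5a_146_130 _ _ _ _ _ _ _ _ _ _ _ _ h2

theorem bc5a_164_160 : ∀ b0 b1 b3 b4 b6 b8 b9 b10 b11 b12 b13 b14 : Bool,
    ok5a b0 b1 false b3 b4 true b6 true b8 b9 b10 b11 b12 b13 b14 = true → False := by
  decide +kernel

theorem c5a_164_160 {p0 p1 p2 p3 p4 : V} (h : T.Ok5a p0 p1 p2 p3 p4)
    (n2 : T.X p0 p3 p1 p2 = false)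
    (n5 : T.X p0 p4 p1 p2 = true)
    (n7 : T.X p0 p3 p1 p4 = true) : False := by
  have h2 := h
  unfold Table.Ok5a at h2
  rw [n2, n5, n7] at h2
  exact bc5a_164_160 _ _ _ _ _ _ _ _ _ _ _ _ h2

theorem bc5a_180_132 : ∀ b0 b1 b3 b6 b8 b9 b10 b11 b12 b13 b14 : Bool,
    ok5a b0 b1 true b3 false false b6 true b8 b9 b10 b11 b12 b13 b14 = true → False := by
  decide +kernel

theorem c5a_180_132 {p0 p1 p2 p3 p4 : V} (h : T.Ok5a p0 p1 p2 p3 p4)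
    (n2 : T.X p0 p3 p1 p2 = true)
    (n4 : T.X p0 p2 p1 p4 = false)
    (n5 : T.X p0 p4 p1 p2 = false)
    (n7 : T.X p0 p3 p1 p4 = true) : False := by
  have h2 := h
  unfold Table.Ok5a at h2
  rw [n2, n4, n5, n7] at h2
  exact bc5a_180_132 _ _ _ _ _ _ _ _ _ _ _ h2

theorem bc5a_192_192 : ∀ b0 b1 b2 b3 b4 b5 b8 b9 b10 b11 b12 b13 b14 : Bool,
    ok5a b0 b1 b2 b3 b4 b5 true true b8 b9 b10 b11 b12 b13 b14 = true → False := by
  decide +kernel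

theorem c5a_192_192 {p0 p1 p2 p3 p4 : V} (h : T.Ok5a p0 p1 p2 p3 p4)
    (n6 : T.X p0 p1 p3 p4 = true)
    (n7 : T.X p0 p3 p1 p4 = true) : False := by
  have h2 := h
  unfold Table.Ok5a at h2
  rw [n6, n7] at h2
  exact bc5a_192_192 _ _ _ _ _ _ _ _ _ _ _ _ _ h2

theorem bc5a_292_260 : ∀ b0 b1 b3 b4 b6 b7 b9 b10 b11 b12 b13 b14 : Bool,
    ok5a b0 b1 true b3 b4 false b6 b7 true b9 b10 b11 b12 b13 b14 = true → False := by
  decide +kernel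

theorem c5a_292_260 {p0 p1 p2 p3 p4 : V} (h : T.Ok5a p0 p1 p2 p3 p4)
    (n2 : T.X p0 p3 p1 p2 = true)
    (n5 : T.X p0 p4 p1 p2 = false)
    (n8 : T.X p0 p4 p1 p3 = true) : False := by
  have h2 := h
  unfold Table.Ok5a at h2
  rw [n2, n5, n8] at h2
  exact bc5a_292_260 _ _ _ _ _ _ _ _ _ _ _ _ h2

theorem bc5a_294_32 : ∀ b0 b3 b4 b6 b7 b9 b10 b11 b12 b13 b14 : Bool,
    ok5a b0 false false b3 b4 true b6 b7 false b9 b10 b11 b12 b13 b14 = true → False := by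
  decide +kernel

theorem c5a_294_32 {p0 p1 p2 p3 p4 : V} (h : T.Ok5a p0 p1 p2 p3 p4)
    (n1 : T.X p0 p2 p1 p3 = false)
    (n2 : T.X p0 p3 p1 p2 = false)
    (n5 : T.X p0 p4 p1 p2 = true)
    (n8 : T.X p0 p4 p1 p3 = false) : False := by
  have h2 := h
  unfold Table.Ok5a at h2
  rw [n1, n2, n5, n8] at h2
  exact bc5a_294_32 _ _ _ _ _ _ _ _ _ _ _ h2

theorem bc5a_306_258 : ∀ b0 b2 b3 b6 b7 b9 b10 b11 b12 b13 b14 : Bool,
    ok5a b0 true b2 b3 false false b6 b7 true b9 b10 b11 b12 b13 b14 = true → False := by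
  decide +kernel

theorem c5a_306_258 {p0 p1 p2 p3 p4 : V} (h : T.Ok5a p0 p1 p2 p3 p4)
    (n1 : T.X p0 p2 p1 p3 = true)
    (n4 : T.X p0 p2 p1 p4 = false)
    (n5 : T.X p0 p4 p1 p2 = false)
    (n8 : T.X p0 p4 p1 p3 = true) : False := by
  have h2 := h
  unfold Table.Ok5a at h2
  rw [n1, n4, n5, n8] at h2
  exact bc5a_306_258 _ _ _ _ _ _ _ _ _ _ _ h2

theorem bc5a_402_16 : ∀ b0 b2 b3 b5 b6 b9 b10 b11 b12 b13 b14 : Bool,
    ok5a b0 false b2 b3 true b5 b6 false false b9 b10 b11 b12 b13 b14 = true → False := by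
  decide +kernel

theorem c5a_402_16 {p0 p1 p2 p3 p4 : V} (h : T.Ok5a p0 p1 p2 p3 p4)
    (n1 : T.X p0 p2 p1 p3 = false)
    (n4 : T.X p0 p2 p1 p4 = true)
    (n7 : T.X p0 p3 p1 p4 = false)
    (n8 : T.X p0 p4 p1 p3 = false) : False := by
  have h2 := h
  unfold Table.Ok5a at h2
  rw [n1, n4, n7, n8] at h2
  exact bc5a_402_16 _ _ _ _ _ _ _ _ _ _ _ h2

theorem bc5a_556_516 : ∀ b0 b1 b4 b6 b7 b8 b10 b11 b12 b13 b14 : Bool,
    ok5a b0 b1 true false b4 false b6 b7 b8 true b10 b11 b12 b13 b14 = true → False := by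
  decide +kernel

theorem c5a_556_516 {p0 p1 p2 p3 p4 : V} (h : T.Ok5a p0 p1 p2 p3 p4)
    (n2 : T.X p0 p3 p1 p2 = true)
    (n3 : T.X p0 p1 p2 p4 = false)
    (n5 : T.X p0 p4 p1 p2 = false)
    (n9 : T.X p0 p2 p3 p4 = true) : False := by
  have h2 := h
  unfold Table.Ok5a at h2
  rw [n2, n3, n5, n9] at h2
  exact bc5a_556_516 _ _ _ _ _ _ _ _ _ _ _ h2

theorem bc5a_577_513 : ∀ b1 b2 b3 b4 b5 b7 b8 b10 b11 b12 b13 b14 : Bool,
    ok5a true b1 b2 b3 b4 b5 false b7 b8 true b10 b11 b12 b13 b14 = true → False := by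
  decide +kernel

theorem c5a_577_513 {p0 p1 p2 p3 p4 : V} (h : T.Ok5a p0 p1 p2 p3 p4)
    (n0 : T.X p0 p1 p2 p3 = true)
    (n6 : T.X p0 p1 p3 p4 = false)
    (n9 : T.X p0 p2 p3 p4 = true) : False := by
  have h2 := h
  unfold Table.Ok5a at h2
  rw [n0, n6, n9] at h2
  exact bc5a_577_513 _ _ _ _ _ _ _ _ _ _ _ _ h2

theorem bc5a_578_66 : ∀ b0 b2 b3 b4 b5 b7 b8 b10 b11 b12 b13 b14 : Bool,
    ok5a b0 true b2 b3 b4 b5 true b7 b8 false b10 b11 b12 b13 b14 = true → False := by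
  decide +kernel

theorem c5a_578_66 {p0 p1 p2 p3 p4 : V} (h : T.Ok5a p0 p1 p2 p3 p4)
    (n1 : T.X p0 p2 p1 p3 = true)
    (n6 : T.X p0 p1 p3 p4 = true)
    (n9 : T.X p0 p2 p3 p4 = false) : False := by
  have h2 := h
  unfold Table.Ok5a at h2
  rw [n1, n6, n9] at h2
  exact bc5a_578_66 _ _ _ _ _ _ _ _ _ _ _ _ h2

theorem bc5a_584_520 : ∀ b0 b1 b2 b4 b5 b7 b8 b10 b11 b12 b13 b14 : Bool,
    ok5a b0 b1 b2 true b4 b5 false b7 b8 true b10 b11 b12 b13 b14 = true → False := by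
  decide +kernel

theorem c5a_584_520 {p0 p1 p2 p3 p4 : V} (h : T.Ok5a p0 p1 p2 p3 p4)
    (n3 : T.X p0 p1 p2 p4 = true)
    (n6 : T.X p0 p1 p3 p4 = false)
    (n9 : T.X p0 p2 p3 p4 = true) : False := by
  have h2 := h
  unfold Table.Ok5a at h2
  rw [n3, n6, n9] at h2
  exact bc5a_584_520 _ _ _ _ _ _ _ _ _ _ _ _ h2

theorem bc5a_592_80 : ∀ b0 b1 b2 b3 b5 b7 b8 b10 b11 b12 b13 b14 : Bool,
    ok5a b0 b1 b2 b3 true b5 true b7 b8 false b10 b11 b12 b13 b14 = true → False := by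
  decide +kernel

theorem c5a_592_80 {p0 p1 p2 p3 p4 : V} (h : T.Ok5a p0 p1 p2 p3 p4)
    (n4 : T.X p0 p2 p1 p4 = true)
    (n6 : T.X p0 p1 p3 p4 = true)
    (n9 : T.X p0 p2 p3 p4 = false) : False := by
  have h2 := h
  unfold Table.Ok5a at h2
  rw [n4, n6, n9] at h2
  exact bc5a_592_80 _ _ _ _ _ _ _ _ _ _ _ _ h2

theorem bc5a_642_640 : ∀ b0 b2 b3 b4 b5 b6 b8 b10 b11 b12 b13 b14 : Bool,
    ok5a b0 false b2 b3 b4 b5 b6 true b8 true b10 b11 b12 b13 b14 = true → False := by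
  decide +kernel

theorem c5a_642_640 {p0 p1 p2 p3 p4 : V} (h : T.Ok5a p0 p1 p2 p3 p4)
    (n1 : T.X p0 p2 p1 p3 = false)
    (n7 : T.X p0 p3 p1 p4 = true)
    (n9 : T.X p0 p2 p3 p4 = true) : False := by
  have h2 := h
  unfold Table.Ok5a at h2
  rw [n1, n7, n9] at h2
  exact bc5a_642_640 _ _ _ _ _ _ _ _ _ _ _ _ h2

theorem bc5a_720_528 : ∀ b0 b1 b2 b3 b5 b8 b10 b11 b12 b13 b14 : Bool,
    ok5a b0 b1 b2 b3 true b5 false false b8 true b10 b11 b12 b13 b14 = true → False := by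
  decide +kernel

theorem c5a_720_528 {p0 p1 p2 p3 p4 : V} (h : T.Ok5a p0 p1 p2 p3 p4)
    (n4 : T.X p0 p2 p1 p4 = true)
    (n6 : T.X p0 p1 p3 p4 = false)
    (n7 : T.X p0 p3 p1 p4 = false)
    (n9 : T.X p0 p2 p3 p4 = true) : False := by
  have h2 := h
  unfold Table.Ok5a at h2
  rw [n4, n6, n7, n9] at h2
  exact bc5a_720_528 _ _ _ _ _ _ _ _ _ _ _ h2

theorem bc5a_786_258 : ∀ b0 b2 b3 b5 b6 b7 b10 b11 b12 b13 b14 : Bool,
    ok5a b0 true b2 b3 false b5 b6 b7 true false b10 b11 b12 b13 b14 = true → False := by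
  decide +kernel

theorem c5a_786_258 {p0 p1 p2 p3 p4 : V} (h : T.Ok5a p0 p1 p2 p3 p4)
    (n1 : T.X p0 p2 p1 p3 = true)
    (n4 : T.X p0 p2 p1 p4 = false)
    (n8 : T.X p0 p4 p1 p3 = true)
    (n9 : T.X p0 p2 p3 p4 = false) : False := by
  have h2 := h
  unfold Table.Ok5a at h2
  rw [n1, n4, n8, n9] at h2
  exact bc5a_786_258 _ _ _ _ _ _ _ _ _ _ _ h2

theorem bc5a_834_512 : ∀ b0 b2 b3 b4 b5 b7 b10 b11 b12 b13 b14 : Bool,
    ok5a b0 false b2 b3 b4 b5 false b7 false true b10 b11 b12 b13 b14 = true → False := by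
  decide +kernel

theorem c5a_834_512 {p0 p1 p2 p3 p4 : V} (h : T.Ok5a p0 p1 p2 p3 p4)
    (n1 : T.X p0 p2 p1 p3 = false)
    (n6 : T.X p0 p1 p3 p4 = false)
    (n8 : T.X p0 p4 p1 p3 = false)
    (n9 : T.X p0 p2 p3 p4 = true) : False := by
  have h2 := h
  unfold Table.Ok5a at h2
  rw [n1, n6, n8, n9] at h2
  exact bc5a_834_512 _ _ _ _ _ _ _ _ _ _ _ h2

theorem bc5a_1034_1034 : ∀ b0 b2 b4 b5 b6 b7 b8 b9 b11 b12 b13 b14 : Bool,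
    ok5a b0 true b2 true b4 b5 b6 b7 b8 b9 true b11 b12 b13 b14 = true → False := by
  decide +kernel

theorem c5a_1034_1034 {p0 p1 p2 p3 p4 : V} (h : T.Ok5a p0 p1 p2 p3 p4)
    (n1 : T.X p0 p2 p1 p3 = true)
    (n3 : T.X p0 p1 p2 p4 = true)
    (n10 : T.X p0 p3 p2 p4 = true) : False := by
  have h2 := h
  unfold Table.Ok5a at h2
  rw [n1, n3, n10] at h2
  exact bc5a_1034_1034 _ _ _ _ _ _ _ _ _ _ _ _ h2

theorem bc5a_1037_1032 : ∀ b1 b4 b5 b6 b7 b8 b9 b11 b12 b13 b14 : Bool,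
    ok5a false b1 false true b4 b5 b6 b7 b8 b9 true b11 b12 b13 b14 = true → False := by
  decide +kernel

theorem c5a_1037_1032 {p0 p1 p2 p3 p4 : V} (h : T.Ok5a p0 p1 p2 p3 p4)
    (n0 : T.X p0 p1 p2 p3 = false)
    (n2 : T.X p0 p3 p1 p2 = false)
    (n3 : T.X p0 p1 p2 p4 = true)
    (n10 : T.X p0 p3 p2 p4 = true) : False := by
  have h2 := h
  unfold Table.Ok5a at h2
  rw [n0, n2, n3, n10] at h2
  exact bc5a_1037_1032 _ _ _ _ _ _ _ _ _ _ _ h2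

theorem bc5a_1060_1056 : ∀ b0 b1 b3 b4 b6 b7 b8 b9 b11 b12 b13 b14 : Bool,
    ok5a b0 b1 false b3 b4 true b6 b7 b8 b9 true b11 b12 b13 b14 = true → False := by
  decide +kernel

theorem c5a_1060_1056 {p0 p1 p2 p3 p4 : V} (h : T.Ok5a p0 p1 p2 p3 p4)
    (n2 : T.X p0 p3 p1 p2 = false)
    (n5 : T.X p0 p4 p1 p2 = true)
    (n10 : T.X p0 p3 p2 p4 = true) : False := by
  have h2 := h
  unfold Table.Ok5a at h2
  rw [n2, n5, n10] at h2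
  exact bc5a_1060_1056 _ _ _ _ _ _ _ _ _ _ _ _ h2

theorem bc5a_1089_1089 : ∀ b1 b2 b3 b4 b5 b7 b8 b9 b11 b12 b13 b14 : Bool,
    ok5a true b1 b2 b3 b4 b5 true b7 b8 b9 true b11 b12 b13 b14 = true → False := by
  decide +kernel

theorem c5a_1089_1089 {p0 p1 p2 p3 p4 : V} (h : T.Ok5a p0 p1 p2 p3 p4)
    (n0 : T.X p0 p1 p2 p3 = true)
    (n6 : T.X p0 p1 p3 p4 = true)
    (n10 : T.X p0 p3 p2 p4 = true) : False := by
  have h2 := h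
  unfold Table.Ok5a at h2
  rw [n0, n6, n10] at h2
  exact bc5a_1089_1089 _ _ _ _ _ _ _ _ _ _ _ _ h2

theorem bc5a_1097_1032 : ∀ b1 b2 b4 b5 b7 b8 b9 b11 b12 b13 b14 : Bool,
    ok5a false b1 b2 true b4 b5 false b7 b8 b9 true b11 b12 b13 b14 = true → False := by
  decide +kernel

theorem c5a_1097_1032 {p0 p1 p2 p3 p4 : V} (h : T.Ok5a p0 p1 p2 p3 p4)
    (n0 : T.X p0 p1 p2 p3 = false)
    (n3 : T.X p0 p1 p2 p4 = true)
    (n6 : T.X p0 p1 p3 p4 = false)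
    (n10 : T.X p0 p3 p2 p4 = true) : False := by
  have h2 := h
  unfold Table.Ok5a at h2
  rw [n0, n3, n6, n10] at h2
  exact bc5a_1097_1032 _ _ _ _ _ _ _ _ _ _ _ h2

theorem bc5a_1156_132 : ∀ b0 b1 b3 b4 b5 b6 b8 b9 b11 b12 b13 b14 : Bool,
    ok5a b0 b1 true b3 b4 b5 b6 true b8 b9 false b11 b12 b13 b14 = true → False := by
  decide +kernel

theorem c5a_1156_132 {p0 p1 p2 p3 p4 : V} (h : T.Ok5a p0 p1 p2 p3 p4)
    (n2 : T.X p0 p3 p1 p2 = true)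
    (n7 : T.X p0 p3 p1 p4 = true)
    (n10 : T.X p0 p3 p2 p4 = false) : False := by
  have h2 := h
  unfold Table.Ok5a at h2
  rw [n2, n7, n10] at h2
  exact bc5a_1156_132 _ _ _ _ _ _ _ _ _ _ _ _ h2

theorem bc5a_1161_1033 : ∀ b1 b2 b4 b5 b6 b8 b9 b11 b12 b13 b14 : Bool,
    ok5a true b1 b2 true b4 b5 b6 false b8 b9 true b11 b12 b13 b14 = true → False := by
  decide +kernel

theorem c5a_1161_1033 {p0 p1 p2 p3 p4 : V} (h : T.Ok5a p0 p1 p2 p3 p4)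
    (n0 : T.X p0 p1 p2 p3 = true)
    (n3 : T.X p0 p1 p2 p4 = true)
    (n7 : T.X p0 p3 p1 p4 = false)
    (n10 : T.X p0 p3 p2 p4 = true) : False := by
  have h2 := h
  unfold Table.Ok5a at h2
  rw [n0, n3, n7, n10] at h2
  exact bc5a_1161_1033 _ _ _ _ _ _ _ _ _ _ _ h2

theorem bc5a_1164_1032 : ∀ b0 b1 b4 b5 b6 b8 b9 b11 b12 b13 b14 : Bool,
    ok5a b0 b1 false true b4 b5 b6 false b8 b9 true b11 b12 b13 b14 = true → False := by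
  decide +kernel

theorem c5a_1164_1032 {p0 p1 p2 p3 p4 : V} (h : T.Ok5a p0 p1 p2 p3 p4)
    (n2 : T.X p0 p3 p1 p2 = false)
    (n3 : T.X p0 p1 p2 p4 = true)
    (n7 : T.X p0 p3 p1 p4 = false)
    (n10 : T.X p0 p3 p2 p4 = true) : False := by
  have h2 := h
  unfold Table.Ok5a at h2
  rw [n2, n3, n7, n10] at h2
  exact bc5a_1164_1032 _ _ _ _ _ _ _ _ _ _ _ h2

theorem bc5a_1168_1040 : ∀ b0 b1 b2 b3 b5 b6 b8 b9 b11 b12 b13 b14 : Bool,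
    ok5a b0 b1 b2 b3 true b5 b6 false b8 b9 true b11 b12 b13 b14 = true → False := by
  decide +kernel

theorem c5a_1168_1040 {p0 p1 p2 p3 p4 : V} (h : T.Ok5a p0 p1 p2 p3 p4)
    (n4 : T.X p0 p2 p1 p4 = true)
    (n7 : T.X p0 p3 p1 p4 = false)
    (n10 : T.X p0 p3 p2 p4 = true) : False := by
  have h2 := h
  unfold Table.Ok5a at h2
  rw [n4, n7, n10] at h2
  exact bc5a_1168_1040 _ _ _ _ _ _ _ _ _ _ _ _ h2

theorem bc5a_1176_128 : ∀ b0 b1 b2 b5 b6 b8 b9 b11 b12 b13 b14 : Bool,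
    ok5a b0 b1 b2 false false b5 b6 true b8 b9 false b11 b12 b13 b14 = true → False := by
  decide +kernel

theorem c5a_1176_128 {p0 p1 p2 p3 p4 : V} (h : T.Ok5a p0 p1 p2 p3 p4)
    (n3 : T.X p0 p1 p2 p4 = false)
    (n4 : T.X p0 p2 p1 p4 = false)
    (n7 : T.X p0 p3 p1 p4 = true)
    (n10 : T.X p0 p3 p2 p4 = false) : False := by
  have h2 := h
  unfold Table.Ok5a at h2
  rw [n3, n4, n7, n10] at h2
  exact bc5a_1176_128 _ _ _ _ _ _ _ _ _ _ _ h2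

theorem bc5a_1281_1281 : ∀ b1 b2 b3 b4 b5 b6 b7 b9 b11 b12 b13 b14 : Bool,
    ok5a true b1 b2 b3 b4 b5 b6 b7 true b9 true b11 b12 b13 b14 = true → False := by
  decide +kernel

theorem c5a_1281_1281 {p0 p1 p2 p3 p4 : V} (h : T.Ok5a p0 p1 p2 p3 p4)
    (n0 : T.X p0 p1 p2 p3 = true)
    (n8 : T.X p0 p4 p1 p3 = true)
    (n10 : T.X p0 p3 p2 p4 = true) : False := by
  have h2 := h
  unfold Table.Ok5a at h2
  rw [n0, n8, n10] at h2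
  exact bc5a_1281_1281 _ _ _ _ _ _ _ _ _ _ _ _ h2

theorem bc5a_1288_1288 : ∀ b0 b1 b2 b4 b5 b6 b7 b9 b11 b12 b13 b14 : Bool,
    ok5a b0 b1 b2 true b4 b5 b6 b7 true b9 true b11 b12 b13 b14 = true → False := by
  decide +kernel

theorem c5a_1288_1288 {p0 p1 p2 p3 p4 : V} (h : T.Ok5a p0 p1 p2 p3 p4)
    (n3 : T.X p0 p1 p2 p4 = true)
    (n8 : T.X p0 p4 p1 p3 = true)
    (n10 : T.X p0 p3 p2 p4 = true) : False := by
  have h2 := h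
  unfold Table.Ok5a at h2
  rw [n3, n8, n10] at h2
  exact bc5a_1288_1288 _ _ _ _ _ _ _ _ _ _ _ _ h2

theorem bc5a_1536_1536 : ∀ b0 b1 b2 b3 b4 b5 b6 b7 b8 b11 b12 b13 b14 : Bool,
    ok5a b0 b1 b2 b3 b4 b5 b6 b7 b8 true true b11 b12 b13 b14 = true → False := by
  decide +kernel

theorem c5a_1536_1536 {p0 p1 p2 p3 p4 : V} (h : T.Ok5a p0 p1 p2 p3 p4)
    (n9 : T.X p0 p2 p3 p4 = true)
    (n10 : T.X p0 p3 p2 p4 = true) : False := by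
  have h2 := h
  unfold Table.Ok5a at h2
  rw [n9, n10] at h2
  exact bc5a_1536_1536 _ _ _ _ _ _ _ _ _ _ _ _ _ h2

theorem bc5a_1608_64 : ∀ b0 b1 b2 b4 b5 b7 b8 b11 b12 b13 b14 : Bool,
    ok5a b0 b1 b2 false b4 b5 true b7 b8 false false b11 b12 b13 b14 = true → False := by
  decide +kernel

theorem c5a_1608_64 {p0 p1 p2 p3 p4 : V} (h : T.Ok5a p0 p1 p2 p3 p4)
    (n3 : T.X p0 p1 p2 p4 = false)
    (n6 : T.X p0 p1 p3 p4 = true)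
    (n9 : T.X p0 p2 p3 p4 = false)
    (n10 : T.X p0 p3 p2 p4 = false) : False := by
  have h2 := h
  unfold Table.Ok5a at h2
  rw [n3, n6, n9, n10] at h2
  exact bc5a_1608_64 _ _ _ _ _ _ _ _ _ _ _ h2

theorem bc5a_2057_2056 : ∀ b1 b2 b4 b5 b6 b7 b8 b9 b10 b12 b13 b14 : Bool,
    ok5a false b1 b2 true b4 b5 b6 b7 b8 b9 b10 true b12 b13 b14 = true → False := by
  decide +kernel

theorem c5a_2057_2056 {p0 p1 p2 p3 p4 : V} (h : T.Ok5a p0 p1 p2 p3 p4)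
    (n0 : T.X p0 p1 p2 p3 = false)
    (n3 : T.X p0 p1 p2 p4 = true)
    (n11 : T.X p0 p4 p2 p3 = true) : False := by
  have h2 := h
  unfold Table.Ok5a at h2
  rw [n0, n3, n11] at h2
  exact bc5a_2057_2056 _ _ _ _ _ _ _ _ _ _ _ _ h2

theorem bc5a_2113_2112 : ∀ b1 b2 b3 b4 b5 b7 b8 b9 b10 b12 b13 b14 : Bool,
    ok5a false b1 b2 b3 b4 b5 true b7 b8 b9 b10 true b12 b13 b14 = true → False := by
  decide +kernel

theorem c5a_2113_2112 {p0 p1 p2 p3 p4 : V} (h : T.Ok5a p0 p1 p2 p3 p4)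
    (n0 : T.X p0 p1 p2 p3 = false)
    (n6 : T.X p0 p1 p3 p4 = true)
    (n11 : T.X p0 p4 p2 p3 = true) : False := by
  have h2 := h
  unfold Table.Ok5a at h2
  rw [n0, n6, n11] at h2
  exact bc5a_2113_2112 _ _ _ _ _ _ _ _ _ _ _ _ h2

theorem bc5a_2305_257 : ∀ b1 b2 b3 b4 b5 b6 b7 b9 b10 b12 b13 b14 : Bool,
    ok5a true b1 b2 b3 b4 b5 b6 b7 true b9 b10 false b12 b13 b14 = true → False := by
  decide +kernel

theorem c5a_2305_257 {p0 p1 p2 p3 p4 : V} (h : T.Ok5a p0 p1 p2 p3 p4)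
    (n0 : T.X p0 p1 p2 p3 = true)
    (n8 : T.X p0 p4 p1 p3 = true)
    (n11 : T.X p0 p4 p2 p3 = false) : False := by
  have h2 := h
  unfold Table.Ok5a at h2
  rw [n0, n8, n11] at h2
  exact bc5a_2305_257 _ _ _ _ _ _ _ _ _ _ _ _ h2

theorem bc5a_2307_2048 : ∀ b2 b3 b4 b5 b6 b7 b9 b10 b12 b13 b14 : Bool,
    ok5a false false b2 b3 b4 b5 b6 b7 false b9 b10 true b12 b13 b14 = true → False := by
  decide +kernel

theorem c5a_2307_2048 {p0 p1 p2 p3 p4 : V} (h : T.Ok5a p0 p1 p2 p3 p4)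
    (n0 : T.X p0 p1 p2 p3 = false)
    (n1 : T.X p0 p2 p1 p3 = false)
    (n8 : T.X p0 p4 p1 p3 = false)
    (n11 : T.X p0 p4 p2 p3 = true) : False := by
  have h2 := h
  unfold Table.Ok5a at h2
  rw [n0, n1, n8, n11] at h2
  exact bc5a_2307_2048 _ _ _ _ _ _ _ _ _ _ _ h2

theorem bc5a_3072_3072 : ∀ b0 b1 b2 b3 b4 b5 b6 b7 b8 b9 b12 b13 b14 : Bool,
    ok5a b0 b1 b2 b3 b4 b5 b6 b7 b8 b9 true true b12 b13 b14 = true → False := by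
  decide +kernel

theorem c5a_3072_3072 {p0 p1 p2 p3 p4 : V} (h : T.Ok5a p0 p1 p2 p3 p4)
    (n10 : T.X p0 p3 p2 p4 = true)
    (n11 : T.X p0 p4 p2 p3 = true) : False := by
  have h2 := h
  unfold Table.Ok5a at h2
  rw [n10, n11] at h2
  exact bc5a_3072_3072 _ _ _ _ _ _ _ _ _ _ _ _ _ h2

theorem bc5a_3081_1 : ∀ b1 b2 b4 b5 b6 b7 b8 b9 b12 b13 b14 : Bool,
    ok5a true b1 b2 false b4 b5 b6 b7 b8 b9 false false b12 b13 b14 = true → False := by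
  decide +kernel

theorem c5a_3081_1 {p0 p1 p2 p3 p4 : V} (h : T.Ok5a p0 p1 p2 p3 p4)
    (n0 : T.X p0 p1 p2 p3 = true)
    (n3 : T.X p0 p1 p2 p4 = false)
    (n10 : T.X p0 p3 p2 p4 = false)
    (n11 : T.X p0 p4 p2 p3 = false) : False := by
  have h2 := h
  unfold Table.Ok5a at h2
  rw [n0, n3, n10, n11] at h2
  exact bc5a_3081_1 _ _ _ _ _ _ _ _ _ _ _ h2

theorem bc5a_4612_516 : ∀ b0 b1 b3 b4 b5 b6 b7 b8 b10 b11 b13 b14 : Bool,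
    ok5a b0 b1 true b3 b4 b5 b6 b7 b8 true b10 b11 false b13 b14 = true → False := by
  decide +kernel

theorem c5a_4612_516 {p0 p1 p2 p3 p4 : V} (h : T.Ok5a p0 p1 p2 p3 p4)
    (n2 : T.X p0 p3 p1 p2 = true)
    (n9 : T.X p0 p2 p3 p4 = true)
    (n12 : T.X p1 p2 p3 p4 = false) : False := by
  have h2 := h
  unfold Table.Ok5a at h2
  rw [n2, n9, n12] at h2
  exact bc5a_4612_516 _ _ _ _ _ _ _ _ _ _ _ _ h2

theorem bc5a_4620_4616 : ∀ b0 b1 b4 b5 b6 b7 b8 b10 b11 b13 b14 : Bool,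
    ok5a b0 b1 false true b4 b5 b6 b7 b8 true b10 b11 true b13 b14 = true → False := by
  decide +kernel

theorem c5a_4620_4616 {p0 p1 p2 p3 p4 : V} (h : T.Ok5a p0 p1 p2 p3 p4)
    (n2 : T.X p0 p3 p1 p2 = false)
    (n3 : T.X p0 p1 p2 p4 = true)
    (n9 : T.X p0 p2 p3 p4 = true)
    (n12 : T.X p1 p2 p3 p4 = true) : False := by
  have h2 := h
  unfold Table.Ok5a at h2
  rw [n2, n3, n9, n12] at h2
  exact bc5a_4620_4616 _ _ _ _ _ _ _ _ _ _ _ h2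

theorem bc5a_4676_64 : ∀ b0 b1 b3 b4 b5 b7 b8 b10 b11 b13 b14 : Bool,
    ok5a b0 b1 false b3 b4 b5 true b7 b8 false b10 b11 false b13 b14 = true → False := by
  decide +kernel

theorem c5a_4676_64 {p0 p1 p2 p3 p4 : V} (h : T.Ok5a p0 p1 p2 p3 p4)
    (n2 : T.X p0 p3 p1 p2 = false)
    (n6 : T.X p0 p1 p3 p4 = true)
    (n9 : T.X p0 p2 p3 p4 = false)
    (n12 : T.X p1 p2 p3 p4 = false) : False := by
  have h2 := h
  unfold Table.Ok5a at h2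
  rw [n2, n6, n9, n12] at h2
  exact bc5a_4676_64 _ _ _ _ _ _ _ _ _ _ _ h2

theorem bc5a_4678_4672 : ∀ b0 b3 b4 b5 b7 b8 b10 b11 b13 b14 : Bool,
    ok5a b0 false false b3 b4 b5 true b7 b8 true b10 b11 true b13 b14 = true → False := by
  decide +kernel

theorem c5a_4678_4672 {p0 p1 p2 p3 p4 : V} (h : T.Ok5a p0 p1 p2 p3 p4)
    (n1 : T.X p0 p2 p1 p3 = false)
    (n2 : T.X p0 p3 p1 p2 = false)
    (n6 : T.X p0 p1 p3 p4 = true)
    (n9 : T.X p0 p2 p3 p4 = true)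
    (n12 : T.X p1 p2 p3 p4 = true) : False := by
  have h2 := h
  unfold Table.Ok5a at h2
  rw [n1, n2, n6, n9, n12] at h2
  exact bc5a_4678_4672 _ _ _ _ _ _ _ _ _ _ h2

theorem bc5a_5128_5128 : ∀ b0 b1 b2 b4 b5 b6 b7 b8 b9 b11 b13 b14 : Bool,
    ok5a b0 b1 b2 true b4 b5 b6 b7 b8 b9 true b11 true b13 b14 = true → False := by
  decide +kernel

theorem c5a_5128_5128 {p0 p1 p2 p3 p4 : V} (h : T.Ok5a p0 p1 p2 p3 p4)
    (n3 : T.X p0 p1 p2 p4 = true)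
    (n10 : T.X p0 p3 p2 p4 = true)
    (n12 : T.X p1 p2 p3 p4 = true) : False := by
  have h2 := h
  unfold Table.Ok5a at h2
  rw [n3, n10, n12] at h2
  exact bc5a_5128_5128 _ _ _ _ _ _ _ _ _ _ _ _ h2

theorem bc5a_8202_10 : ∀ b0 b2 b4 b5 b6 b7 b8 b9 b10 b11 b12 b14 : Bool,
    ok5a b0 true b2 true b4 b5 b6 b7 b8 b9 b10 b11 b12 false b14 = true → False := by
  decide +kernel

theorem c5a_8202_10 {p0 p1 p2 p3 p4 : V} (h : T.Ok5a p0 p1 p2 p3 p4)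
    (n1 : T.X p0 p2 p1 p3 = true)
    (n3 : T.X p0 p1 p2 p4 = true)
    (n13 : T.X p1 p3 p2 p4 = false) : False := by
  have h2 := h
  unfold Table.Ok5a at h2
  rw [n1, n3, n13] at h2
  exact bc5a_8202_10 _ _ _ _ _ _ _ _ _ _ _ _ h2

theorem bc5a_8257_8257 : ∀ b1 b2 b3 b4 b5 b7 b8 b9 b10 b11 b12 b14 : Bool,
    ok5a true b1 b2 b3 b4 b5 true b7 b8 b9 b10 b11 b12 true b14 = true → False := by
  decide +kernel

theorem c5a_8257_8257 {p0 p1 p2 p3 p4 : V} (h : T.Ok5a p0 p1 p2 p3 p4)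
    (n0 : T.X p0 p1 p2 p3 = true)
    (n6 : T.X p0 p1 p3 p4 = true)
    (n13 : T.X p1 p3 p2 p4 = true) : False := by
  have h2 := h
  unfold Table.Ok5a at h2
  rw [n0, n6, n13] at h2
  exact bc5a_8257_8257 _ _ _ _ _ _ _ _ _ _ _ _ h2

theorem bc5a_8329_8328 : ∀ b1 b2 b4 b5 b6 b8 b9 b10 b11 b12 b14 : Bool,
    ok5a false b1 b2 true b4 b5 b6 true b8 b9 b10 b11 b12 true b14 = true → False := by
  decide +kernel

theorem c5a_8329_8328 {p0 p1 p2 p3 p4 : V} (h : T.Ok5a p0 p1 p2 p3 p4)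
    (n0 : T.X p0 p1 p2 p3 = false)
    (n3 : T.X p0 p1 p2 p4 = true)
    (n7 : T.X p0 p3 p1 p4 = true)
    (n13 : T.X p1 p3 p2 p4 = true) : False := by
  have h2 := h
  unfold Table.Ok5a at h2
  rw [n0, n3, n7, n13] at h2
  exact bc5a_8329_8328 _ _ _ _ _ _ _ _ _ _ _ h2

theorem bc5a_8456_264 : ∀ b0 b1 b2 b4 b5 b6 b7 b9 b10 b11 b12 b14 : Bool,
    ok5a b0 b1 b2 true b4 b5 b6 b7 true b9 b10 b11 b12 false b14 = true → False := by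
  decide +kernel

theorem c5a_8456_264 {p0 p1 p2 p3 p4 : V} (h : T.Ok5a p0 p1 p2 p3 p4)
    (n3 : T.X p0 p1 p2 p4 = true)
    (n8 : T.X p0 p4 p1 p3 = true)
    (n13 : T.X p1 p3 p2 p4 = false) : False := by
  have h2 := h
  unfold Table.Ok5a at h2
  rw [n3, n8, n13] at h2
  exact bc5a_8456_264 _ _ _ _ _ _ _ _ _ _ _ _ h2

theorem bc5a_9224_1032 : ∀ b0 b1 b2 b4 b5 b6 b7 b8 b9 b11 b12 b14 : Bool,
    ok5a b0 b1 b2 true b4 b5 b6 b7 b8 b9 true b11 b12 false b14 = true → False := by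
  decide +kernel

theorem c5a_9224_1032 {p0 p1 p2 p3 p4 : V} (h : T.Ok5a p0 p1 p2 p3 p4)
    (n3 : T.X p0 p1 p2 p4 = true)
    (n10 : T.X p0 p3 p2 p4 = true)
    (n13 : T.X p1 p3 p2 p4 = false) : False := by
  have h2 := h
  unfold Table.Ok5a at h2
  rw [n3, n10, n13] at h2
  exact bc5a_9224_1032 _ _ _ _ _ _ _ _ _ _ _ _ h2

theorem bc5a_9345_8321 : ∀ b1 b2 b3 b4 b5 b6 b8 b9 b11 b12 b14 : Bool,
    ok5a true b1 b2 b3 b4 b5 b6 true b8 b9 false b11 b12 true b14 = true → False := by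
  decide +kernel

theorem c5a_9345_8321 {p0 p1 p2 p3 p4 : V} (h : T.Ok5a p0 p1 p2 p3 p4)
    (n0 : T.X p0 p1 p2 p3 = true)
    (n7 : T.X p0 p3 p1 p4 = true)
    (n10 : T.X p0 p3 p2 p4 = false)
    (n13 : T.X p1 p3 p2 p4 = true) : False := by
  have h2 := h
  unfold Table.Ok5a at h2
  rw [n0, n7, n10, n13] at h2
  exact bc5a_9345_8321 _ _ _ _ _ _ _ _ _ _ _ h2

theorem bc5a_9481_8201 : ∀ b1 b2 b4 b5 b6 b7 b9 b11 b12 b14 : Bool,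
    ok5a true b1 b2 true b4 b5 b6 b7 false b9 false b11 b12 true b14 = true → False := by
  decide +kernel

theorem c5a_9481_8201 {p0 p1 p2 p3 p4 : V} (h : T.Ok5a p0 p1 p2 p3 p4)
    (n0 : T.X p0 p1 p2 p3 = true)
    (n3 : T.X p0 p1 p2 p4 = true)
    (n8 : T.X p0 p4 p1 p3 = false)
    (n10 : T.X p0 p3 p2 p4 = false)
    (n13 : T.X p1 p3 p2 p4 = true) : False := by
  have h2 := h
  unfold Table.Ok5a at h2
  rw [n0, n3, n8, n10, n13] at h2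
  exact bc5a_9481_8201 _ _ _ _ _ _ _ _ _ _ h2

theorem bc5a_9482_8194 : ∀ b0 b2 b4 b5 b6 b7 b9 b11 b12 b14 : Bool,
    ok5a b0 true b2 false b4 b5 b6 b7 false b9 false b11 b12 true b14 = true → False := by
  decide +kernel

theorem c5a_9482_8194 {p0 p1 p2 p3 p4 : V} (h : T.Ok5a p0 p1 p2 p3 p4)
    (n1 : T.X p0 p2 p1 p3 = true)
    (n3 : T.X p0 p1 p2 p4 = false)
    (n8 : T.X p0 p4 p1 p3 = false)
    (n10 : T.X p0 p3 p2 p4 = false)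
    (n13 : T.X p1 p3 p2 p4 = true) : False := by
  have h2 := h
  unfold Table.Ok5a at h2
  rw [n1, n3, n8, n10, n13] at h2
  exact bc5a_9482_8194 _ _ _ _ _ _ _ _ _ _ h2

theorem bc5a_9482_8200 : ∀ b0 b2 b4 b5 b6 b7 b9 b11 b12 b14 : Bool,
    ok5a b0 false b2 true b4 b5 b6 b7 false b9 false b11 b12 true b14 = true → False := by
  decide +kernel

theorem c5a_9482_8200 {p0 p1 p2 p3 p4 : V} (h : T.Ok5a p0 p1 p2 p3 p4)
    (n1 : T.X p0 p2 p1 p3 = false)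
    (n3 : T.X p0 p1 p2 p4 = true)
    (n8 : T.X p0 p4 p1 p3 = false)
    (n10 : T.X p0 p3 p2 p4 = false)
    (n13 : T.X p1 p3 p2 p4 = true) : False := by
  have h2 := h
  unfold Table.Ok5a at h2
  rw [n1, n3, n8, n10, n13] at h2
  exact bc5a_9482_8200 _ _ _ _ _ _ _ _ _ _ h2

theorem bc5a_9482_8448 : ∀ b0 b2 b4 b5 b6 b7 b9 b11 b12 b14 : Bool,
    ok5a b0 false b2 false b4 b5 b6 b7 true b9 false b11 b12 true b14 = true → False := by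
  decide +kernel

theorem c5a_9482_8448 {p0 p1 p2 p3 p4 : V} (h : T.Ok5a p0 p1 p2 p3 p4)
    (n1 : T.X p0 p2 p1 p3 = false)
    (n3 : T.X p0 p1 p2 p4 = false)
    (n8 : T.X p0 p4 p1 p3 = true)
    (n10 : T.X p0 p3 p2 p4 = false)
    (n13 : T.X p1 p3 p2 p4 = true) : False := by
  have h2 := h
  unfold Table.Ok5a at h2
  rw [n1, n3, n8, n10, n13] at h2
  exact bc5a_9482_8448 _ _ _ _ _ _ _ _ _ _ h2

theorem bc5a_9482_9216 : ∀ b0 b2 b4 b5 b6 b7 b9 b11 b12 b14 : Bool,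
    ok5a b0 false b2 false b4 b5 b6 b7 false b9 true b11 b12 true b14 = true → False := by
  decide +kernel

theorem c5a_9482_9216 {p0 p1 p2 p3 p4 : V} (h : T.Ok5a p0 p1 p2 p3 p4)
    (n1 : T.X p0 p2 p1 p3 = false)
    (n3 : T.X p0 p1 p2 p4 = false)
    (n8 : T.X p0 p4 p1 p3 = false)
    (n10 : T.X p0 p3 p2 p4 = true)
    (n13 : T.X p1 p3 p2 p4 = true) : False := by
  have h2 := h
  unfold Table.Ok5a at h2
  rw [n1, n3, n8, n10, n13] at h2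
  exact bc5a_9482_9216 _ _ _ _ _ _ _ _ _ _ h2

theorem bc5a_10243_10240 : ∀ b2 b3 b4 b5 b6 b7 b8 b9 b10 b12 b14 : Bool,
    ok5a false false b2 b3 b4 b5 b6 b7 b8 b9 b10 true b12 true b14 = true → False := by
  decide +kernel

theorem c5a_10243_10240 {p0 p1 p2 p3 p4 : V} (h : T.Ok5a p0 p1 p2 p3 p4)
    (n0 : T.X p0 p1 p2 p3 = false)
    (n1 : T.X p0 p2 p1 p3 = false)
    (n11 : T.X p0 p4 p2 p3 = true)
    (n13 : T.X p1 p3 p2 p4 = true) : False := by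
  have h2 := h
  unfold Table.Ok5a at h2
  rw [n0, n1, n11, n13] at h2
  exact bc5a_10243_10240 _ _ _ _ _ _ _ _ _ _ _ h2

theorem bc5a_16420_16388 : ∀ b0 b1 b3 b4 b6 b7 b8 b9 b10 b11 b12 b13 : Bool,
    ok5a b0 b1 true b3 b4 false b6 b7 b8 b9 b10 b11 b12 b13 true = true → False := by
  decide +kernel

theorem c5a_16420_16388 {p0 p1 p2 p3 p4 : V} (h : T.Ok5a p0 p1 p2 p3 p4)
    (n2 : T.X p0 p3 p1 p2 = true)
    (n5 : T.X p0 p4 p1 p2 = false)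
    (n14 : T.X p1 p4 p2 p3 = true) : False := by
  have h2 := h
  unfold Table.Ok5a at h2
  rw [n2, n5, n14] at h2
  exact bc5a_16420_16388 _ _ _ _ _ _ _ _ _ _ _ _ h2

theorem bc5a_16529_128 : ∀ b1 b2 b3 b5 b6 b8 b9 b10 b11 b12 b13 : Bool,
    ok5a false b1 b2 b3 false b5 b6 true b8 b9 b10 b11 b12 b13 false = true → False := by
  decide +kernel

theorem c5a_16529_128 {p0 p1 p2 p3 p4 : V} (h : T.Ok5a p0 p1 p2 p3 p4)
    (n0 : T.X p0 p1 p2 p3 = false)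
    (n4 : T.X p0 p2 p1 p4 = false)
    (n7 : T.X p0 p3 p1 p4 = true)
    (n14 : T.X p1 p4 p2 p3 = false) : False := by
  have h2 := h
  unfold Table.Ok5a at h2
  rw [n0, n4, n7, n14] at h2
  exact bc5a_16529_128 _ _ _ _ _ _ _ _ _ _ _ h2

theorem bc5a_16531_16528 : ∀ b2 b3 b5 b6 b8 b9 b10 b11 b12 b13 : Bool,
    ok5a false false b2 b3 true b5 b6 true b8 b9 b10 b11 b12 b13 true = true → False := by
  decide +kernel

theorem c5a_16531_16528 {p0 p1 p2 p3 p4 : V} (h : T.Ok5a p0 p1 p2 p3 p4)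
    (n0 : T.X p0 p1 p2 p3 = false)
    (n1 : T.X p0 p2 p1 p3 = false)
    (n4 : T.X p0 p2 p1 p4 = true)
    (n7 : T.X p0 p3 p1 p4 = true)
    (n14 : T.X p1 p4 p2 p3 = true) : False := by
  have h2 := h
  unfold Table.Ok5a at h2
  rw [n0, n1, n4, n7, n14] at h2
  exact bc5a_16531_16528 _ _ _ _ _ _ _ _ _ _ h2

theorem bc5a_16537_16513 : ∀ b1 b2 b5 b6 b8 b9 b10 b11 b12 b13 : Bool,
    ok5a true b1 b2 false false b5 b6 true b8 b9 b10 b11 b12 b13 true = true → False := by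
  decide +kernel

theorem c5a_16537_16513 {p0 p1 p2 p3 p4 : V} (h : T.Ok5a p0 p1 p2 p3 p4)
    (n0 : T.X p0 p1 p2 p3 = true)
    (n3 : T.X p0 p1 p2 p4 = false)
    (n4 : T.X p0 p2 p1 p4 = false)
    (n7 : T.X p0 p3 p1 p4 = true)
    (n14 : T.X p1 p4 p2 p3 = true) : False := by
  have h2 := h
  unfold Table.Ok5a at h2
  rw [n0, n3, n4, n7, n14] at h2
  exact bc5a_16537_16513 _ _ _ _ _ _ _ _ _ _ h2

theorem bc5a_16648_16648 : ∀ b0 b1 b2 b4 b5 b6 b7 b9 b10 b11 b12 b13 : Bool,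
    ok5a b0 b1 b2 true b4 b5 b6 b7 true b9 b10 b11 b12 b13 true = true → False := by
  decide +kernel

theorem c5a_16648_16648 {p0 p1 p2 p3 p4 : V} (h : T.Ok5a p0 p1 p2 p3 p4)
    (n3 : T.X p0 p1 p2 p4 = true)
    (n8 : T.X p0 p4 p1 p3 = true)
    (n14 : T.X p1 p4 p2 p3 = true) : False := by
  have h2 := h
  unfold Table.Ok5a at h2
  rw [n3, n8, n14] at h2
  exact bc5a_16648_16648 _ _ _ _ _ _ _ _ _ _ _ _ h2

theorem bc5a_16657_16641 : ∀ b1 b2 b3 b5 b6 b7 b9 b10 b11 b12 b13 : Bool,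
    ok5a true b1 b2 b3 false b5 b6 b7 true b9 b10 b11 b12 b13 true = true → False := by
  decide +kernel

theorem c5a_16657_16641 {p0 p1 p2 p3 p4 : V} (h : T.Ok5a p0 p1 p2 p3 p4)
    (n0 : T.X p0 p1 p2 p3 = true)
    (n4 : T.X p0 p2 p1 p4 = false)
    (n8 : T.X p0 p4 p1 p3 = true)
    (n14 : T.X p1 p4 p2 p3 = true) : False := by
  have h2 := h
  unfold Table.Ok5a at h2
  rw [n0, n4, n8, n14] at h2
  exact bc5a_16657_16641 _ _ _ _ _ _ _ _ _ _ _ h2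

theorem bc5a_16771_16384 : ∀ b2 b3 b4 b5 b6 b9 b10 b11 b12 b13 : Bool,
    ok5a false false b2 b3 b4 b5 b6 false false b9 b10 b11 b12 b13 true = true → False := by
  decide +kernel

theorem c5a_16771_16384 {p0 p1 p2 p3 p4 : V} (h : T.Ok5a p0 p1 p2 p3 p4)
    (n0 : T.X p0 p1 p2 p3 = false)
    (n1 : T.X p0 p2 p1 p3 = false)
    (n7 : T.X p0 p3 p1 p4 = false)
    (n8 : T.X p0 p4 p1 p3 = false)
    (n14 : T.X p1 p4 p2 p3 = true) : False := by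
  have h2 := h
  unfold Table.Ok5a at h2
  rw [n0, n1, n7, n8, n14] at h2
  exact bc5a_16771_16384 _ _ _ _ _ _ _ _ _ _ h2

theorem bc5a_17416_17416 : ∀ b0 b1 b2 b4 b5 b6 b7 b8 b9 b11 b12 b13 : Bool,
    ok5a b0 b1 b2 true b4 b5 b6 b7 b8 b9 true b11 b12 b13 true = true → False := by
  decide +kernel

theorem c5a_17416_17416 {p0 p1 p2 p3 p4 : V} (h : T.Ok5a p0 p1 p2 p3 p4)
    (n3 : T.X p0 p1 p2 p4 = true)
    (n10 : T.X p0 p3 p2 p4 = true)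
    (n14 : T.X p1 p4 p2 p3 = true) : False := by
  have h2 := h
  unfold Table.Ok5a at h2
  rw [n3, n10, n14] at h2
  exact bc5a_17416_17416 _ _ _ _ _ _ _ _ _ _ _ _ h2

theorem bc5a_17433_16385 : ∀ b1 b2 b5 b6 b7 b8 b9 b11 b12 b13 : Bool,
    ok5a true b1 b2 false false b5 b6 b7 b8 b9 false b11 b12 b13 true = true → False := by
  decide +kernel

theorem c5a_17433_16385 {p0 p1 p2 p3 p4 : V} (h : T.Ok5a p0 p1 p2 p3 p4)
    (n0 : T.X p0 p1 p2 p3 = true)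
    (n3 : T.X p0 p1 p2 p4 = false)
    (n4 : T.X p0 p2 p1 p4 = false)
    (n10 : T.X p0 p3 p2 p4 = false)
    (n14 : T.X p1 p4 p2 p3 = true) : False := by
  have h2 := h
  unfold Table.Ok5a at h2
  rw [n0, n3, n4, n10, n14] at h2
  exact bc5a_17433_16385 _ _ _ _ _ _ _ _ _ _ h2

theorem bc5a_18450_16386 : ∀ b0 b2 b3 b5 b6 b7 b8 b9 b10 b12 b13 : Bool,
    ok5a b0 true b2 b3 false b5 b6 b7 b8 b9 b10 false b12 b13 true = true → False := by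
  decide +kernel

theorem c5a_18450_16386 {p0 p1 p2 p3 p4 : V} (h : T.Ok5a p0 p1 p2 p3 p4)
    (n1 : T.X p0 p2 p1 p3 = true)
    (n4 : T.X p0 p2 p1 p4 = false)
    (n11 : T.X p0 p4 p2 p3 = false)
    (n14 : T.X p1 p4 p2 p3 = true) : False := by
  have h2 := h
  unfold Table.Ok5a at h2
  rw [n1, n4, n11, n14] at h2
  exact bc5a_18450_16386 _ _ _ _ _ _ _ _ _ _ _ h2

theorem bc5a_18497_65 : ∀ b1 b2 b3 b4 b5 b7 b8 b9 b10 b12 b13 : Bool,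
    ok5a true b1 b2 b3 b4 b5 true b7 b8 b9 b10 false b12 b13 false = true → False := by
  decide +kernel

theorem c5a_18497_65 {p0 p1 p2 p3 p4 : V} (h : T.Ok5a p0 p1 p2 p3 p4)
    (n0 : T.X p0 p1 p2 p3 = true)
    (n6 : T.X p0 p1 p3 p4 = true)
    (n11 : T.X p0 p4 p2 p3 = false)
    (n14 : T.X p1 p4 p2 p3 = false) : False := by
  have h2 := h
  unfold Table.Ok5a at h2
  rw [n0, n6, n11, n14] at h2
  exact bc5a_18497_65 _ _ _ _ _ _ _ _ _ _ _ h2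

theorem bc5a_18560_2176 : ∀ b0 b1 b2 b3 b4 b5 b6 b8 b9 b10 b12 b13 : Bool,
    ok5a b0 b1 b2 b3 b4 b5 b6 true b8 b9 b10 true b12 b13 false = true → False := by
  decide +kernel

theorem c5a_18560_2176 {p0 p1 p2 p3 p4 : V} (h : T.Ok5a p0 p1 p2 p3 p4)
    (n7 : T.X p0 p3 p1 p4 = true)
    (n11 : T.X p0 p4 p2 p3 = true)
    (n14 : T.X p1 p4 p2 p3 = false) : False := by
  have h2 := h
  unfold Table.Ok5a at h2
  rw [n7, n11, n14] at h2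
  exact bc5a_18560_2176 _ _ _ _ _ _ _ _ _ _ _ _ h2

theorem bc5a_18561_1 : ∀ b1 b2 b3 b4 b5 b6 b8 b9 b10 b12 b13 : Bool,
    ok5a true b1 b2 b3 b4 b5 b6 false b8 b9 b10 false b12 b13 false = true → False := by
  decide +kernel

theorem c5a_18561_1 {p0 p1 p2 p3 p4 : V} (h : T.Ok5a p0 p1 p2 p3 p4)
    (n0 : T.X p0 p1 p2 p3 = true)
    (n7 : T.X p0 p3 p1 p4 = false)
    (n11 : T.X p0 p4 p2 p3 = false)
    (n14 : T.X p1 p4 p2 p3 = false) : False := by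
  have h2 := h
  unfold Table.Ok5a at h2
  rw [n0, n7, n11, n14] at h2
  exact bc5a_18561_1 _ _ _ _ _ _ _ _ _ _ _ h2

theorem bc5a_18562_16514 : ∀ b0 b2 b3 b4 b5 b6 b8 b9 b10 b12 b13 : Bool,
    ok5a b0 true b2 b3 b4 b5 b6 true b8 b9 b10 false b12 b13 true = true → False := by
  decide +kernel

theorem c5a_18562_16514 {p0 p1 p2 p3 p4 : V} (h : T.Ok5a p0 p1 p2 p3 p4)
    (n1 : T.X p0 p2 p1 p3 = true)
    (n7 : T.X p0 p3 p1 p4 = true)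
    (n11 : T.X p0 p4 p2 p3 = false)
    (n14 : T.X p1 p4 p2 p3 = true) : False := by
  have h2 := h
  unfold Table.Ok5a at h2
  rw [n1, n7, n11, n14] at h2
  exact bc5a_18562_16514 _ _ _ _ _ _ _ _ _ _ _ h2

theorem bc5a_18568_18440 : ∀ b0 b1 b2 b4 b5 b6 b8 b9 b10 b12 b13 : Bool,
    ok5a b0 b1 b2 true b4 b5 b6 false b8 b9 b10 true b12 b13 true = true → False := by
  decide +kernel

theorem c5a_18568_18440 {p0 p1 p2 p3 p4 : V} (h : T.Ok5a p0 p1 p2 p3 p4)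
    (n3 : T.X p0 p1 p2 p4 = true)
    (n7 : T.X p0 p3 p1 p4 = false)
    (n11 : T.X p0 p4 p2 p3 = true)
    (n14 : T.X p1 p4 p2 p3 = true) : False := by
  have h2 := h
  unfold Table.Ok5a at h2
  rw [n3, n7, n11, n14] at h2
  exact bc5a_18568_18440 _ _ _ _ _ _ _ _ _ _ _ h2

theorem bc5a_18569_16521 : ∀ b1 b2 b4 b5 b6 b8 b9 b10 b12 b13 : Bool,
    ok5a true b1 b2 true b4 b5 b6 true b8 b9 b10 false b12 b13 true = true → False := by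
  decide +kernel

theorem c5a_18569_16521 {p0 p1 p2 p3 p4 : V} (h : T.Ok5a p0 p1 p2 p3 p4)
    (n0 : T.X p0 p1 p2 p3 = true)
    (n3 : T.X p0 p1 p2 p4 = true)
    (n7 : T.X p0 p3 p1 p4 = true)
    (n11 : T.X p0 p4 p2 p3 = false)
    (n14 : T.X p1 p4 p2 p3 = true) : False := by
  have h2 := h
  unfold Table.Ok5a at h2
  rw [n0, n3, n7, n11, n14] at h2
  exact bc5a_18569_16521 _ _ _ _ _ _ _ _ _ _ h2

theorem bc5a_18577_16513 : ∀ b1 b2 b3 b5 b6 b8 b9 b10 b12 b13 : Bool,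
    ok5a true b1 b2 b3 false b5 b6 true b8 b9 b10 false b12 b13 true = true → False := by
  decide +kernel

theorem c5a_18577_16513 {p0 p1 p2 p3 p4 : V} (h : T.Ok5a p0 p1 p2 p3 p4)
    (n0 : T.X p0 p1 p2 p3 = true)
    (n4 : T.X p0 p2 p1 p4 = false)
    (n7 : T.X p0 p3 p1 p4 = true)
    (n11 : T.X p0 p4 p2 p3 = false)
    (n14 : T.X p1 p4 p2 p3 = true) : False := by
  have h2 := h
  unfold Table.Ok5a at h2
  rw [n0, n4, n7, n11, n14] at h2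
  exact bc5a_18577_16513 _ _ _ _ _ _ _ _ _ _ h2

theorem bc5a_18577_18433 : ∀ b1 b2 b3 b5 b6 b8 b9 b10 b12 b13 : Bool,
    ok5a true b1 b2 b3 false b5 b6 false b8 b9 b10 true b12 b13 true = true → False := by
  decide +kernel

theorem c5a_18577_18433 {p0 p1 p2 p3 p4 : V} (h : T.Ok5a p0 p1 p2 p3 p4)
    (n0 : T.X p0 p1 p2 p3 = true)
    (n4 : T.X p0 p2 p1 p4 = false)
    (n7 : T.X p0 p3 p1 p4 = false)
    (n11 : T.X p0 p4 p2 p3 = true)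
    (n14 : T.X p1 p4 p2 p3 = true) : False := by
  have h2 := h
  unfold Table.Ok5a at h2
  rw [n0, n4, n7, n11, n14] at h2
  exact bc5a_18577_18433 _ _ _ _ _ _ _ _ _ _ h2

theorem bc5a_18577_18448 : ∀ b1 b2 b3 b5 b6 b8 b9 b10 b12 b13 : Bool,
    ok5a false b1 b2 b3 true b5 b6 false b8 b9 b10 true b12 b13 true = true → False := by
  decide +kernel

theorem c5a_18577_18448 {p0 p1 p2 p3 p4 : V} (h : T.Ok5a p0 p1 p2 p3 p4)
    (n0 : T.X p0 p1 p2 p3 = false)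
    (n4 : T.X p0 p2 p1 p4 = true)
    (n7 : T.X p0 p3 p1 p4 = false)
    (n11 : T.X p0 p4 p2 p3 = true)
    (n14 : T.X p1 p4 p2 p3 = true) : False := by
  have h2 := h
  unfold Table.Ok5a at h2
  rw [n0, n4, n7, n11, n14] at h2
  exact bc5a_18577_18448 _ _ _ _ _ _ _ _ _ _ h2

theorem bc5a_18704_16640 : ∀ b0 b1 b2 b3 b5 b6 b7 b9 b10 b12 b13 : Bool,
    ok5a b0 b1 b2 b3 false b5 b6 b7 true b9 b10 false b12 b13 true = true → False := by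
  decide +kernel

theorem c5a_18704_16640 {p0 p1 p2 p3 p4 : V} (h : T.Ok5a p0 p1 p2 p3 p4)
    (n4 : T.X p0 p2 p1 p4 = false)
    (n8 : T.X p0 p4 p1 p3 = true)
    (n11 : T.X p0 p4 p2 p3 = false)
    (n14 : T.X p1 p4 p2 p3 = true) : False := by
  have h2 := h
  unfold Table.Ok5a at h2
  rw [n4, n8, n11, n14] at h2
  exact bc5a_18704_16640 _ _ _ _ _ _ _ _ _ _ _ h2

theorem bc5a_24576_24576 : ∀ b0 b1 b2 b3 b4 b5 b6 b7 b8 b9 b10 b11 b12 : Bool,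
    ok5a b0 b1 b2 b3 b4 b5 b6 b7 b8 b9 b10 b11 b12 true true = true → False := by
  decide +kernel

theorem c5a_24576_24576 {p0 p1 p2 p3 p4 : V} (h : T.Ok5a p0 p1 p2 p3 p4)
    (n13 : T.X p1 p3 p2 p4 = true)
    (n14 : T.X p1 p4 p2 p3 = true) : False := by
  have h2 := h
  unfold Table.Ok5a at h2
  rw [n13, n14] at h2
  exact bc5a_24576_24576 _ _ _ _ _ _ _ _ _ _ _ _ _ h2

theorem bcS1_73_9 : ∀ b1 b2 b4 b5 b7 b8 b9 b10 b11 b12 b13 b14 : Bool,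
    okS1 true b1 b2 true b4 b5 false b7 b8 b9 b10 b11 b12 b13 b14 = true → False := by
  decide +kernel

theorem cS1_73_9 {p0 p1 p2 p3 p4 : V} (h : T.OkS1 p0 p1 p2 p3 p4)
    (n0 : T.X p0 p1 p2 p3 = true)
    (n3 : T.X p0 p1 p2 p4 = true)
    (n6 : T.X p0 p1 p3 p4 = false) : False := by
  have h2 := h
  unfold Table.OkS1 at h2
  rw [n0, n3, n6] at h2
  exact bcS1_73_9 _ _ _ _ _ _ _ _ _ _ _ _ h2

theorem bcS1_9225_9 : ∀ b1 b2 b4 b5 b6 b7 b8 b9 b11 b12 b14 : Bool,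
    okS1 true b1 b2 true b4 b5 b6 b7 b8 b9 false b11 b12 false b14 = true → False := by
  decide +kernel

theorem cS1_9225_9 {p0 p1 p2 p3 p4 : V} (h : T.OkS1 p0 p1 p2 p3 p4)
    (n0 : T.X p0 p1 p2 p3 = true)
    (n3 : T.X p0 p1 p2 p4 = true)
    (n10 : T.X p0 p3 p2 p4 = false)
    (n13 : T.X p1 p3 p2 p4 = false) : False := by
  have h2 := h
  unfold Table.OkS1 at h2
  rw [n0, n3, n10, n13] at h2
  exact bcS1_9225_9 _ _ _ _ _ _ _ _ _ _ _ h2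

theorem bcS2_3201_129 : ∀ b1 b2 b3 b4 b5 b6 b8 b9 b12 b13 b14 : Bool,
    okS2 true b1 b2 b3 b4 b5 b6 true b8 b9 false false b12 b13 b14 = true → False := by
  decide +kernel

theorem cS2_3201_129 {p0 p1 p2 p3 p4 : V} (h : T.OkS2 p0 p1 p2 p3 p4)
    (n0 : T.X p0 p1 p2 p3 = true)
    (n7 : T.X p0 p3 p1 p4 = true)
    (n10 : T.X p0 p3 p2 p4 = false)
    (n11 : T.X p0 p4 p2 p3 = false) : False := by
  have h2 := h
  unfold Table.OkS2 at h2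
  rw [n0, n7, n10, n11] at h2
  exact bcS2_3201_129 _ _ _ _ _ _ _ _ _ _ _ h2

theorem bcS2_10505_9 : ∀ b1 b2 b4 b5 b6 b7 b9 b10 b12 b14 : Bool,
    okS2 true b1 b2 true b4 b5 b6 b7 false b9 b10 false b12 false b14 = true → False := by
  decide +kernel

theorem cS2_10505_9 {p0 p1 p2 p3 p4 : V} (h : T.OkS2 p0 p1 p2 p3 p4)
    (n0 : T.X p0 p1 p2 p3 = true)
    (n3 : T.X p0 p1 p2 p4 = true)
    (n8 : T.X p0 p4 p1 p3 = false)
    (n11 : T.X p0 p4 p2 p3 = false)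
    (n13 : T.X p1 p3 p2 p4 = false) : False := by
  have h2 := h
  unfold Table.OkS2 at h2
  rw [n0, n3, n8, n11, n13] at h2
  exact bcS2_10505_9 _ _ _ _ _ _ _ _ _ _ h2

theorem bcS2_18433_16385 : ∀ b1 b2 b3 b4 b5 b6 b7 b8 b9 b10 b12 b13 : Bool,
    okS2 true b1 b2 b3 b4 b5 b6 b7 b8 b9 b10 false b12 b13 true = true → False := by
  decide +kernel

theorem cS2_18433_16385 {p0 p1 p2 p3 p4 : V} (h : T.OkS2 p0 p1 p2 p3 p4)
    (n0 : T.X p0 p1 p2 p3 = true)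
    (n11 : T.X p0 p4 p2 p3 = false)
    (n14 : T.X p1 p4 p2 p3 = true) : False := by
  have h2 := h
  unfold Table.OkS2 at h2
  rw [n0, n11, n14] at h2
  exact bcS2_18433_16385 _ _ _ _ _ _ _ _ _ _ _ _ h2

theorem bcS3_2177_2177 : ∀ b1 b2 b3 b4 b5 b6 b8 b9 b10 b12 b13 b14 : Bool,
    okS3 true b1 b2 b3 b4 b5 b6 true b8 b9 b10 true b12 b13 b14 = true → False := by
  decide +kernel

theorem cS3_2177_2177 {p0 p1 p2 p3 p4 : V} (h : T.OkS3 p0 p1 p2 p3 p4)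
    (n0 : T.X p0 p1 p2 p3 = true)
    (n7 : T.X p0 p3 p1 p4 = true)
    (n11 : T.X p0 p4 p2 p3 = true) : False := by
  have h2 := h
  unfold Table.OkS3 at h2
  rw [n0, n7, n11] at h2
  exact bcS3_2177_2177 _ _ _ _ _ _ _ _ _ _ _ _ h2

theorem bcS3_2312_2056 : ∀ b0 b1 b2 b4 b5 b6 b7 b9 b10 b12 b13 b14 : Bool,
    okS3 b0 b1 b2 true b4 b5 b6 b7 false b9 b10 true b12 b13 b14 = true → False := by
  decide +kernel

theorem cS3_2312_2056 {p0 p1 p2 p3 p4 : V} (h : T.OkS3 p0 p1 p2 p3 p4)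
    (n3 : T.X p0 p1 p2 p4 = true)
    (n8 : T.X p0 p4 p1 p3 = false)
    (n11 : T.X p0 p4 p2 p3 = true) : False := by
  have h2 := h
  unfold Table.OkS3 at h2
  rw [n3, n8, n11] at h2
  exact bcS3_2312_2056 _ _ _ _ _ _ _ _ _ _ _ _ h2

theorem bcS3_8449_8193 : ∀ b1 b2 b3 b4 b5 b6 b7 b9 b10 b11 b12 b14 : Bool,
    okS3 true b1 b2 b3 b4 b5 b6 b7 false b9 b10 b11 b12 true b14 = true → False := by
  decide +kernel

theorem cS3_8449_8193 {p0 p1 p2 p3 p4 : V} (h : T.OkS3 p0 p1 p2 p3 p4)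
    (n0 : T.X p0 p1 p2 p3 = true)
    (n8 : T.X p0 p4 p1 p3 = false)
    (n13 : T.X p1 p3 p2 p4 = true) : False := by
  have h2 := h
  unfold Table.OkS3 at h2
  rw [n0, n8, n13] at h2
  exact bcS3_8449_8193 _ _ _ _ _ _ _ _ _ _ _ _ h2

theorem bcS3_17537_1153 : ∀ b1 b2 b3 b4 b5 b6 b8 b9 b11 b12 b13 : Bool,
    okS3 true b1 b2 b3 b4 b5 b6 true b8 b9 true b11 b12 b13 false = true → False := by
  decide +kernel

theorem cS3_17537_1153 {p0 p1 p2 p3 p4 : V} (h : T.OkS3 p0 p1 p2 p3 p4)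
    (n0 : T.X p0 p1 p2 p3 = true)
    (n7 : T.X p0 p3 p1 p4 = true)
    (n10 : T.X p0 p3 p2 p4 = true)
    (n14 : T.X p1 p4 p2 p3 = false) : False := by
  have h2 := h
  unfold Table.OkS3 at h2
  rw [n0, n7, n10, n14] at h2
  exact bcS3_17537_1153 _ _ _ _ _ _ _ _ _ _ _ h2

theorem bcS3_17544_16520 : ∀ b0 b1 b2 b4 b5 b6 b8 b9 b11 b12 b13 : Bool,
    okS3 b0 b1 b2 true b4 b5 b6 true b8 b9 false b11 b12 b13 true = true → False := by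
  decide +kernel

theorem cS3_17544_16520 {p0 p1 p2 p3 p4 : V} (h : T.OkS3 p0 p1 p2 p3 p4)
    (n3 : T.X p0 p1 p2 p4 = true)
    (n7 : T.X p0 p3 p1 p4 = true)
    (n10 : T.X p0 p3 p2 p4 = false)
    (n14 : T.X p1 p4 p2 p3 = true) : False := by
  have h2 := h
  unfold Table.OkS3 at h2
  rw [n3, n7, n10, n14] at h2
  exact bcS3_17544_16520 _ _ _ _ _ _ _ _ _ _ _ h2

theorem bcS3_18433_2049 : ∀ b1 b2 b3 b4 b5 b6 b7 b8 b9 b10 b12 b13 : Bool,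
    okS3 true b1 b2 b3 b4 b5 b6 b7 b8 b9 b10 true b12 b13 false = true → False := by
  decide +kernel

theorem cS3_18433_2049 {p0 p1 p2 p3 p4 : V} (h : T.OkS3 p0 p1 p2 p3 p4)
    (n0 : T.X p0 p1 p2 p3 = true)
    (n11 : T.X p0 p4 p2 p3 = true)
    (n14 : T.X p1 p4 p2 p3 = false) : False := by
  have h2 := h
  unfold Table.OkS3 at h2
  rw [n0, n11, n14] at h2
  exact bcS3_18433_2049 _ _ _ _ _ _ _ _ _ _ _ _ h2

theorem bcV1_16529_16385 : ∀ b1 b2 b3 b5 b6 b8 b9 b10 b11 b12 b13 : Bool,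
    okV1 true b1 b2 b3 false b5 b6 false b8 b9 b10 b11 b12 b13 true = true → False := by
  decide +kernel

theorem cV1_16529_16385 {p0 p1 p2 p3 p4 : V} (h : T.OkV1 p0 p1 p2 p3 p4)
    (n0 : T.X p0 p1 p2 p3 = true)
    (n4 : T.X p0 p2 p1 p4 = false)
    (n7 : T.X p0 p3 p1 p4 = false)
    (n14 : T.X p1 p4 p2 p3 = true) : False := by
  have h2 := h
  unfold Table.OkV1 at h2
  rw [n0, n4, n7, n14] at h2
  exact bcV1_16529_16385 _ _ _ _ _ _ _ _ _ _ _ h2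

theorem bcV1_18721_0 : ∀ b1 b2 b3 b4 b6 b7 b9 b10 b12 b13 : Bool,
    okV1 false b1 b2 b3 b4 false b6 b7 false b9 b10 false b12 b13 false = true → False := by
  decide +kernel

theorem cV1_18721_0 {p0 p1 p2 p3 p4 : V} (h : T.OkV1 p0 p1 p2 p3 p4)
    (n0 : T.X p0 p1 p2 p3 = false)
    (n5 : T.X p0 p4 p1 p2 = false)
    (n8 : T.X p0 p4 p1 p3 = false)
    (n11 : T.X p0 p4 p2 p3 = false)
    (n14 : T.X p1 p4 p2 p3 = false) : False := by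
  have h2 := h
  unfold Table.OkV1 at h2
  rw [n0, n5, n8, n11, n14] at h2
  exact bcV1_18721_0 _ _ _ _ _ _ _ _ _ _ h2

theorem bcV1_18721_2049 : ∀ b1 b2 b3 b4 b6 b7 b9 b10 b12 b13 : Bool,
    okV1 true b1 b2 b3 b4 false b6 b7 false b9 b10 true b12 b13 false = true → False := by
  decide +kernel

theorem cV1_18721_2049 {p0 p1 p2 p3 p4 : V} (h : T.OkV1 p0 p1 p2 p3 p4)
    (n0 : T.X p0 p1 p2 p3 = true)
    (n5 : T.X p0 p4 p1 p2 = false)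
    (n8 : T.X p0 p4 p1 p3 = false)
    (n11 : T.X p0 p4 p2 p3 = true)
    (n14 : T.X p1 p4 p2 p3 = false) : False := by
  have h2 := h
  unfold Table.OkV1 at h2
  rw [n0, n5, n8, n11, n14] at h2
  exact bcV1_18721_2049 _ _ _ _ _ _ _ _ _ _ h2

theorem bcV2_384_384 : ∀ b0 b1 b2 b3 b4 b5 b6 b9 b10 b11 b12 b13 b14 : Bool,
    okV2 b0 b1 b2 b3 b4 b5 b6 true true b9 b10 b11 b12 b13 b14 = true → False := by
  decide +kernel

theorem cV2_384_384 {p0 p1 p2 p3 p4 : V} (h : T.OkV2 p0 p1 p2 p3 p4)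
    (n7 : T.X p0 p3 p1 p4 = true)
    (n8 : T.X p0 p4 p1 p3 = true) : False := by
  have h2 := h
  unfold Table.OkV2 at h2
  rw [n7, n8] at h2
  exact bcV2_384_384 _ _ _ _ _ _ _ _ _ _ _ _ _ h2

theorem bcV2_2209_2177 : ∀ b1 b2 b3 b4 b6 b8 b9 b10 b12 b13 b14 : Bool,
    okV2 true b1 b2 b3 b4 false b6 true b8 b9 b10 true b12 b13 b14 = true → False := by
  decide +kernel

theorem cV2_2209_2177 {p0 p1 p2 p3 p4 : V} (h : T.OkV2 p0 p1 p2 p3 p4)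
    (n0 : T.X p0 p1 p2 p3 = true)
    (n5 : T.X p0 p4 p1 p2 = false)
    (n7 : T.X p0 p3 p1 p4 = true)
    (n11 : T.X p0 p4 p2 p3 = true) : False := by
  have h2 := h
  unfold Table.OkV2 at h2
  rw [n0, n5, n7, n11] at h2
  exact bcV2_2209_2177 _ _ _ _ _ _ _ _ _ _ _ h2

theorem bcV2_2337_256 : ∀ b1 b2 b3 b4 b6 b7 b9 b10 b12 b13 b14 : Bool,
    okV2 false b1 b2 b3 b4 false b6 b7 true b9 b10 false b12 b13 b14 = true → False := by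
  decide +kernel

theorem cV2_2337_256 {p0 p1 p2 p3 p4 : V} (h : T.OkV2 p0 p1 p2 p3 p4)
    (n0 : T.X p0 p1 p2 p3 = false)
    (n5 : T.X p0 p4 p1 p2 = false)
    (n8 : T.X p0 p4 p1 p3 = true)
    (n11 : T.X p0 p4 p2 p3 = false) : False := by
  have h2 := h
  unfold Table.OkV2 at h2
  rw [n0, n5, n8, n11] at h2
  exact bcV2_2337_256 _ _ _ _ _ _ _ _ _ _ _ h2

theorem bcV2_8488_256 : ∀ b0 b1 b2 b4 b6 b7 b9 b10 b11 b12 b14 : Bool,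
    okV2 b0 b1 b2 false b4 false b6 b7 true b9 b10 b11 b12 false b14 = true → False := by
  decide +kernel

theorem cV2_8488_256 {p0 p1 p2 p3 p4 : V} (h : T.OkV2 p0 p1 p2 p3 p4)
    (n3 : T.X p0 p1 p2 p4 = false)
    (n5 : T.X p0 p4 p1 p2 = false)
    (n8 : T.X p0 p4 p1 p3 = true)
    (n13 : T.X p1 p3 p2 p4 = false) : False := by
  have h2 := h
  unfold Table.OkV2 at h2
  rw [n3, n5, n8, n13] at h2
  exact bcV2_8488_256 _ _ _ _ _ _ _ _ _ _ _ h2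

theorem bcV2_10529_10497 : ∀ b1 b2 b3 b4 b6 b7 b9 b10 b12 b14 : Bool,
    okV2 true b1 b2 b3 b4 false b6 b7 true b9 b10 true b12 true b14 = true → False := by
  decide +kernel

theorem cV2_10529_10497 {p0 p1 p2 p3 p4 : V} (h : T.OkV2 p0 p1 p2 p3 p4)
    (n0 : T.X p0 p1 p2 p3 = true)
    (n5 : T.X p0 p4 p1 p2 = false)
    (n8 : T.X p0 p4 p1 p3 = true)
    (n11 : T.X p0 p4 p2 p3 = true)
    (n13 : T.X p1 p3 p2 p4 = true) : False := by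
  have h2 := h
  unfold Table.OkV2 at h2
  rw [n0, n5, n8, n11, n13] at h2
  exact bcV2_10529_10497 _ _ _ _ _ _ _ _ _ _ h2

theorem bcV2_18465_16384 : ∀ b1 b2 b3 b4 b6 b7 b8 b9 b10 b12 b13 : Bool,
    okV2 false b1 b2 b3 b4 false b6 b7 b8 b9 b10 false b12 b13 true = true → False := by
  decide +kernel

theorem cV2_18465_16384 {p0 p1 p2 p3 p4 : V} (h : T.OkV2 p0 p1 p2 p3 p4)
    (n0 : T.X p0 p1 p2 p3 = false)
    (n5 : T.X p0 p4 p1 p2 = false)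
    (n11 : T.X p0 p4 p2 p3 = false)
    (n14 : T.X p1 p4 p2 p3 = true) : False := by
  have h2 := h
  unfold Table.OkV2 at h2
  rw [n0, n5, n11, n14] at h2
  exact bcV2_18465_16384 _ _ _ _ _ _ _ _ _ _ _ h2

theorem bcV2_18689_1 : ∀ b1 b2 b3 b4 b5 b6 b7 b9 b10 b12 b13 : Bool,
    okV2 true b1 b2 b3 b4 b5 b6 b7 false b9 b10 false b12 b13 false = true → False := by
  decide +kernel

theorem cV2_18689_1 {p0 p1 p2 p3 p4 : V} (h : T.OkV2 p0 p1 p2 p3 p4)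
    (n0 : T.X p0 p1 p2 p3 = true)
    (n8 : T.X p0 p4 p1 p3 = false)
    (n11 : T.X p0 p4 p2 p3 = false)
    (n14 : T.X p1 p4 p2 p3 = false) : False := by
  have h2 := h
  unfold Table.OkV2 at h2
  rw [n0, n8, n11, n14] at h2
  exact bcV2_18689_1 _ _ _ _ _ _ _ _ _ _ _ h2

end H98Q
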