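import Pool.Agent.Lib.H98S.CL1
import Pool.Agent.Lib.H98S.CL2
import Pool.Agent.Lib.H98S.CL3
import Pool.Agent.Lib.H98S.CL4
import Pool.Agent.Lib.H98S.CL5

/-! # H98S, finite facts, file RAYF: facts on rays (generated) -/

set_option linter.unusedVariables false

namespace H53P

variable {V : Type*} {T : Table V}

theorem trans_f {a x y u w z : V} (hN : [a, x, y, u, w, z].Nodup)
    (hb1 : T.Okb a x y u w)
    (hb2 : T.Okb a x y w z)
    (hn : T.Okn a x y u z) : False := by
  have g1 := fun ha : T.alt a x y u w = true => cA0_100_100 (T.okA0 (T.n5 hN (.cons_cons _ (.cons_cons _ (.cons_cons _ (.cons_cons _ (.cons_cons _ (List.nil_sublist _))))))) ha)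
  have g2 := fun ha : T.alt a y z u w = true => cA2_770_768 (T.okA2 (T.n5 hN (.cons_cons _ (.cons _ (.cons_cons _ (.cons_cons _ (.cons_cons _ (.cons_cons _ (List.nil_sublist _)))))))) ha)
  have g3 := csp_8385_1 (T.sp5 hN (.cons_cons _ (.cons_cons _ (.cons_cons _ (.cons_cons _ (.cons_cons _ (.cons_cons _ (List.nil_sublist _))))))))
  have g4 := cb_4288_4096 hb1
  have g5 := cb_6656_4096 hb2
  have g6 := fun ha : T.alt a x y u z = true => cA0_100_100 (T.okA0 (T.n5 hN (.cons_cons _ (.cons_cons _ (.cons_cons _ (.cons_cons _ (.cons _ (.cons_cons _ (List.nil_sublist _)))))))) ha)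
  have g7 := fun ha : T.alt a x z y u = true => cA2_9248_1056 (T.okA2 (T.n5 hN (.cons_cons _ (.cons_cons _ (.cons_cons _ (.cons_cons _ (.cons _ (.cons_cons _ (List.nil_sublist _)))))))) ha)
  have g8 := cn_9472_0 hn
  have g9 := c5_1298_1296 (T.n5 hN (.cons_cons _ (.cons _ (.cons_cons _ (.cons_cons _ (.cons_cons _ (.cons_cons _ (List.nil_sublist _))))))))
  have g10 := cb_18560_0 hb1
  have g11 := cb_16_16 hb1
  have g12 := csp_17026_16384 (T.sp5 hN (.cons_cons _ (.cons_cons _ (.cons_cons _ (.cons_cons _ (.cons_cons _ (.cons_cons _ (List.nil_sublist _))))))))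
  have g13 := cn_8320_8320 hn
  have g14 := fun ha : T.alt a x y u z = true => cA0_548_548 (T.okA0 (T.n5 hN (.cons_cons _ (.cons_cons _ (.cons_cons _ (.cons_cons _ (.cons _ (.cons_cons _ (List.nil_sublist _)))))))) ha)
  have g15 := fun ha : T.alt a x y u w = true => cA0_4132_36 (T.okA0 (T.n5 hN (.cons_cons _ (.cons_cons _ (.cons_cons _ (.cons_cons _ (.cons_cons _ (List.nil_sublist _))))))) ha)
  have g16 := csp_16528_16 (T.sp5 hN (.cons_cons _ (.cons_cons _ (.cons_cons _ (.cons_cons _ (.cons_cons _ (.cons_cons _ (List.nil_sublist _))))))))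
  have g17 := fun ha : T.alt a x y w z = true => cA0_100_100 (T.okA0 (T.n5 hN (.cons_cons _ (.cons_cons _ (.cons_cons _ (.cons _ (.cons_cons _ (.cons_cons _ (List.nil_sublist _)))))))) ha)
  have g18 := cb_5120_5120 hb1
  have g19 := fun ha : T.alt a x u w z = true => cA0_642_130 (T.okA0 (T.n5 hN (.cons_cons _ (.cons_cons _ (.cons _ (.cons_cons _ (.cons_cons _ (.cons_cons _ (List.nil_sublist _)))))))) ha)
  have g20 := fun ha : T.alt a y w u z = true => c5a_4116_20 (T.okA1 (T.n5 hN (.cons_cons _ (.cons _ (.cons_cons _ (.cons_cons _ (.cons_cons _ (.cons_cons _ (List.nil_sublist _)))))))) ha)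
  have g21 := cn_5632_4096 hn
  have g22 := T.ae1 (T.n5 hN (.cons_cons _ (.cons_cons _ (.cons_cons _ (.cons _ (.cons_cons _ (.cons_cons _ (List.nil_sublist _))))))))
  have g23 := csp_16769_16384 (T.sp5 hN (.cons_cons _ (.cons_cons _ (.cons_cons _ (.cons_cons _ (.cons_cons _ (.cons_cons _ (List.nil_sublist _))))))))
  have g24 := cb_1280_1280 hb2
  have g25 := cb_9216_1024 hb2
  have g26 := cn_4224_4224 hn
  have g27 := fun ha : T.alt a x w y z = true => c5a_9476_8452 (T.okA1 (T.n5 hN (.cons_cons _ (.cons_cons _ (.cons_cons _ (.cons _ (.cons_cons _ (.cons_cons _ (List.nil_sublist _)))))))) ha)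
  have g28 := c5_4225_4225 (T.n5 hN (.cons _ (.cons_cons _ (.cons_cons _ (.cons_cons _ (.cons_cons _ (.cons_cons _ (List.nil_sublist _))))))))
  have g29 := fun ha : T.alt a x z y u = true => cA2_8452_260 (T.okA2 (T.n5 hN (.cons_cons _ (.cons_cons _ (.cons_cons _ (.cons_cons _ (.cons _ (.cons_cons _ (List.nil_sublist _)))))))) ha)
  have g30 := fun ha : T.alt a x z y u = true => cA2_8580_8196 (T.okA2 (T.n5 hN (.cons_cons _ (.cons_cons _ (.cons_cons _ (.cons_cons _ (.cons _ (.cons_cons _ (List.nil_sublist _)))))))) ha)
  have g31 := fun ha : T.alt a x y u z = true => cA0_2340_36 (T.okA0 (T.n5 hN (.cons_cons _ (.cons_cons _ (.cons_cons _ (.cons_cons _ (.cons _ (.cons_cons _ (List.nil_sublist _)))))))) ha)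
  have g32 := fun ha : T.alt a x y u w = true => cA0_548_548 (T.okA0 (T.n5 hN (.cons_cons _ (.cons_cons _ (.cons_cons _ (.cons_cons _ (.cons_cons _ (List.nil_sublist _))))))) ha)
  have g33 := csp_17427_0 (T.sp5 hN (.cons_cons _ (.cons_cons _ (.cons_cons _ (.cons_cons _ (.cons_cons _ (.cons_cons _ (List.nil_sublist _))))))))
  have g34 := csp_16642_16640 (T.sp5 hN (.cons_cons _ (.cons_cons _ (.cons_cons _ (.cons_cons _ (.cons_cons _ (.cons_cons _ (List.nil_sublist _))))))))
  have g35 := fun ha : T.alt a x u y w = true => c5a_17668_16388 (T.okA1 (T.n5 hN (.cons_cons _ (.cons_cons _ (.cons_cons _ (.cons_cons _ (.cons_cons _ (List.nil_sublist _))))))) ha)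
  have g36 := fun ha : T.alt a x y w z = true => cA0_548_548 (T.okA0 (T.n5 hN (.cons_cons _ (.cons_cons _ (.cons_cons _ (.cons _ (.cons_cons _ (.cons_cons _ (List.nil_sublist _)))))))) ha)
  have g37 := fun ha : T.alt a x w y z = true => c5a_9482_0 (T.okA1 (T.n5 hN (.cons_cons _ (.cons_cons _ (.cons_cons _ (.cons _ (.cons_cons _ (.cons_cons _ (List.nil_sublist _)))))))) ha)
  have g38 := csp_18433_1 (T.sp5 hN (.cons_cons _ (.cons_cons _ (.cons_cons _ (.cons_cons _ (.cons_cons _ (.cons_cons _ (List.nil_sublist _))))))))
  have g39 := cb_4288_4096 hb2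
  have g40 := fun ha : T.alt a x z u w = true => cA2_290_34 (T.okA2 (T.n5 hN (.cons_cons _ (.cons_cons _ (.cons _ (.cons_cons _ (.cons_cons _ (.cons_cons _ (List.nil_sublist _)))))))) ha)
  have g41 := csp_16552_0 (T.sp5 hN (.cons_cons _ (.cons_cons _ (.cons_cons _ (.cons_cons _ (.cons_cons _ (.cons_cons _ (List.nil_sublist _))))))))
  have g42 := fun ha : T.alt a x y w z = true => cA0_4132_36 (T.okA0 (T.n5 hN (.cons_cons _ (.cons_cons _ (.cons_cons _ (.cons _ (.cons_cons _ (.cons_cons _ (List.nil_sublist _)))))))) ha)
  have g43 := fun ha : T.alt a x w y z = true => c5a_2308_2052 (T.okA1 (T.n5 hN (.cons_cons _ (.cons_cons _ (.cons_cons _ (.cons _ (.cons_cons _ (.cons_cons _ (List.nil_sublist _)))))))) ha)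
  have g44 := fun ha : T.alt a x w u z = true => c5a_1176_128 (T.okA1 (T.n5 hN (.cons_cons _ (.cons_cons _ (.cons _ (.cons_cons _ (.cons_cons _ (.cons_cons _ (List.nil_sublist _)))))))) ha)
  have g45 := cn_6144_6144 hn
  have g46 := cb_16640_16640 hb1
  have g47 := T.ae1 (T.n5 hN (.cons_cons _ (.cons_cons _ (.cons_cons _ (.cons_cons _ (.cons_cons _ (List.nil_sublist _)))))))
  have g48 := cb_4_0 hb1
  have g49 := cb_8_8 hb2
  have g50 := cb_32_0 hb2
  have g51 := cb_6656_4096 hb1
  have g52 := fun ha : T.alt a x u y w = true => c5a_16544_160 (T.okA1 (T.n5 hN (.cons_cons _ (.cons_cons _ (.cons_cons _ (.cons_cons _ (.cons_cons _ (List.nil_sublist _))))))) ha)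
  have g53 := cb_8448_256 hb2
  have g54 := fun ha : T.alt a x w y z = true => c5a_8324_8324 (T.okA1 (T.n5 hN (.cons_cons _ (.cons_cons _ (.cons_cons _ (.cons _ (.cons_cons _ (.cons_cons _ (List.nil_sublist _)))))))) ha)
  have g55 := fun ha : T.alt a x y w z = true => cA0_8228_8228 (T.okA0 (T.n5 hN (.cons_cons _ (.cons_cons _ (.cons_cons _ (.cons _ (.cons_cons _ (.cons_cons _ (List.nil_sublist _)))))))) ha)
  have g56 := fun ha : T.alt a x y u z = true => cA0_4132_36 (T.okA0 (T.n5 hN (.cons_cons _ (.cons_cons _ (.cons_cons _ (.cons_cons _ (.cons _ (.cons_cons _ (List.nil_sublist _)))))))) ha)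
  have g57 := cb_17408_17408 hb1
  have g58 := csp_4132_4 (T.sp5 hN (.cons_cons _ (.cons_cons _ (.cons_cons _ (.cons_cons _ (.cons_cons _ (.cons_cons _ (List.nil_sublist _))))))))
  have g59 := cb_32_0 hb1
  have g60 := fun ha : T.alt a x u y w = true => c5a_18436_2052 (T.okA1 (T.n5 hN (.cons_cons _ (.cons_cons _ (.cons_cons _ (.cons_cons _ (.cons_cons _ (List.nil_sublist _))))))) ha)
  have g61 := cb_10368_8192 hb2
  have g62 := fun ha : T.alt a x z y u = true => cA2_1284_1284 (T.okA2 (T.n5 hN (.cons_cons _ (.cons_cons _ (.cons_cons _ (.cons_cons _ (.cons _ (.cons_cons _ (List.nil_sublist _)))))))) ha)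
  have g63 := fun ha : T.alt a y u w z = true => cA0_1122_1026 (T.okA0 (T.n5 hN (.cons_cons _ (.cons _ (.cons_cons _ (.cons_cons _ (.cons_cons _ (.cons_cons _ (List.nil_sublist _)))))))) ha)
  have g64 := cn_9472_8448 hn
  have g65 := csp_4208_4096 (T.sp5 hN (.cons_cons _ (.cons_cons _ (.cons_cons _ (.cons_cons _ (.cons_cons _ (.cons_cons _ (List.nil_sublist _))))))))
  have s66 : T.alt a x w y z = true → T.X a x y z = false → T.X a z x w = false → T.X a w y z = false → T.X x w y z = false → False := fun n1 n2 n3 n4 n5 => by
    have u1 : T.X a y x w = false := bf (fun t => g11 t)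
    exact g37 n1 u1 n2 n3 n4 n5
  have s67 : T.alt a x y w z = true → T.X a w x y = true → T.X x w y z = true → False := fun n1 n2 n3 => by
    have u1 : T.X a z x y = true := bt (fun t => g50 t)
    exact g55 n1 n2 u1 n3
  have s68 : T.alt a x y u z = true → T.X x y u z = false → False := fun n1 n2 => by
    have u1 : T.X a u x y = true := bt (fun t => g48 t)
    have u2 : T.X a z x y = true := bt (fun t => g50 t)
    exact g56 n1 u1 u2 n2
  have s69 : T.alt a x u y w = true → T.X a w y u = true → T.X x w y u = false → False := fun n1 n2 n3 => by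
    have u1 : T.X a u x y = true := bt (fun t => g48 t)
    exact g60 n1 u1 n2 n3
  have s70 : T.alt a x z y u = true → T.X a z x u = true → T.X a u y z = true → False := fun n1 n2 n3 => by
    have u1 : T.X a u x y = true := bt (fun t => g48 t)
    exact g62 n1 u1 n2 n3
  have s71 : T.X x w y z = false → T.alt a x w y z = true → False := fun n1 n2 => by
    have u1 : T.X a x y z = false := bf (fun t => g49 t)
    have u2 : T.X a w y z = false := bf (fun t => g25 t n1)
    have u3 : T.X a z x w = false := bf (fun t => g53 t n1)
    exact s66 n2 u1 u3 u2 n1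
  have s72 : T.X x w y z = true → T.alt a x w y z = true → False := fun n1 n2 => by
    have u1 : T.X a w x y = true := bt (fun t => g59 t)
    have u2 : T.X a w x z = false := bf (fun t => g54 n2 u1 t n1)
    have u3 : T.X a z y w = true := bt (fun t => g61 u2 t n1)
    have u4 : T.X a z x w = true := bt (fun t => g43 n2 u1 t u3)
    have u5 : T.X a w y z = false := bf (fun t => g24 u4 t)
    exact g27 n2 u1 u4 u5 n1
  have s73 : T.alt a x w y z = true → False := fun n1 => by
    have u1 : T.X x w y z = true := bt (fun t => s71 t n1)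
    exact s72 u1 n1
  have s75 : T.X a u y z = true → T.X a u x z = false → T.alt a x z y u = true → False := fun n1 n2 n3 => by
    have u1 : T.X a z x y = true := bt (fun t => g50 t)
    have u2 : T.X a u x y = true := bt (fun t => g48 t)
    have u3 : T.X x u y z = true := bt (fun t => g7 n3 u1 n1 t)
    have u4 : T.X a z x u = false := bf (fun t => s70 n3 t n1)
    exact g30 n3 u2 n2 u4 u3
  have s76 : T.X a z x u = false → T.X a u x z = false → T.alt a x z y u = true → False := fun n1 n2 n3 => by
    have u1 : T.X a u x y = true := bt (fun t => g48 t)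
    have u2 : T.X a u y z = false := bf (fun t => s75 t n2 n3)
    have u3 : T.X x u y z = false := bf (fun t => g30 n3 u1 n2 n1 t)
    exact g8 n1 u2 u3
  have s77 : T.X a u x z = false → T.alt a x z y u = true → False := fun n1 n2 => by
    have u1 : T.X a u x y = true := bt (fun t => g48 t)
    have u2 : T.X a u y z = false := bf (fun t => s75 t n1 n2)
    have u3 : T.X a z x u = true := bt (fun t => s76 t n1 n2)
    have u4 : T.X x u y z = true := bt (fun t => g29 n2 u1 u3 t)
    exact g64 u3 u2 u4
  have s78 : T.X x u y z = false → T.alt a x z y u = true → False := fun n1 n2 => by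
    have u1 : T.X a u x y = true := bt (fun t => g48 t)
    have u2 : T.X a z x y = true := bt (fun t => g50 t)
    have u3 : T.X a u y z = false := bf (fun t => g7 n2 u2 t n1)
    have u4 : T.X a z x u = false := bf (fun t => g29 n2 u1 t n1)
    exact g8 u4 u3 n1
  have s79 : T.alt a x z y u = true → False := fun n1 => by
    have u1 : T.X a u x z = true := bt (fun t => s77 t n1)
    have u2 : T.X x u y z = false := bf (fun t => g13 u1 t)
    exact s78 u2 n1
  have s81 : T.X x w y u = true → T.alt a x u y w = true → False := fun n1 n2 => by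
    have u1 : T.X a u x y = true := bt (fun t => g48 t)
    have u2 : T.X a w x u = false := bf (fun t => g46 t n1)
    have u3 : T.X a u y w = false := bf (fun t => g57 t n1)
    exact g35 n2 u1 u2 u3 n1
  have s82 : T.X x w y u = false → T.alt a x u y w = true → False := fun n1 n2 => by
    have u1 : T.X a w x y = true := bt (fun t => g59 t)
    have u2 : T.X a u x w = false := bf (fun t => g52 n2 u1 t n1)
    have u3 : T.X a w y u = true := bt (fun t => g10 u2 t n1)
    exact s69 n2 u3 n1
  have s83 : T.alt a x u y w = true → False := fun n1 => by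
    have u1 : T.X x w y u = false := bf (fun t => s81 t n1)
    exact s82 u1 n1
  have s84 : T.alt a x z y w = false → T.alt a y z u w = true → False := fun n1 n2 => by
    have u1 : T.alt a x u y w = false := bf (fun t => s83 t)
    have u2 : T.alt a x w y z = false := bf (fun t => s73 t)
    have u3 : T.X a z x y = true := bt (fun t => g50 t)
    have u4 : T.X a w x y = true := bt (fun t => g59 t)
    have u5 : T.X a u x y = true := bt (fun t => g48 t)
    have u6 : T.alt a x y u w = true := bt (fun t => g23 t u2 n1 n2)
    have u7 : T.alt a x y w z = true := bt (fun t => g22 t u2 n1)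
    have u8 : T.X a x u w = false := bf (fun t => g1 u6 u5 u4 t)
    have u9 : T.X x y u w = true := bt (fun t => g15 u6 u5 u4 t)
    have u10 : T.X a x w z = false := bf (fun t => g17 u7 u4 u3 t)
    have u11 : T.X a y w z = false := bf (fun t => g36 u7 u4 u3 t)
    have u12 : T.X x y w z = true := bt (fun t => g42 u7 u4 u3 t)
    have u13 : T.X a u y w = false := bf (fun t => g18 t u9)
    have u14 : T.X a u x w = true := bt (fun t => g4 u8 t u9)
    have u15 : T.X a w x z = true := bt (fun t => g39 u10 t u12)
    have u16 : T.X a z y w = true := bt (fun t => g5 u11 t u12)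
    have u17 : T.X a u w z = false := bf (fun t => g2 n2 u13 u16 t)
    have u18 : T.alt a x u w z = false := bf (fun t => g19 t u14 u15 u17)
    exact g12 u1 u2 u18 n2
  have s85 : T.alt a y z u w = true → False := fun n1 => by
    have u1 : T.alt a x u y w = false := bf (fun t => s83 t)
    have u2 : T.alt a x z y w = false := bf (fun t => g34 u1 t n1)
    exact s84 u2 n1
  have s86 : T.alt a x u y z = true → False := fun n1 => by
    have u1 : T.alt a x w y z = false := bf (fun t => s73 t)
    have u2 : T.alt a y z u w = false := bf (fun t => s85 t)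
    exact g16 n1 u1 u2
  have s87 : T.alt a x y u z = false → False := fun n1 => by
    have u1 : T.alt a y z u w = false := bf (fun t => s85 t)
    have u2 : T.alt a x w y z = false := bf (fun t => s73 t)
    have u3 : T.alt a x z y u = false := bf (fun t => s79 t)
    exact g41 n1 u3 u2 u1
  have s88 : T.X a x u z = true → False := fun n1 => by
    have u1 : T.alt a x y u z = true := bt (fun t => s87 t)
    have u2 : T.X a u x y = true := bt (fun t => g48 t)
    have u3 : T.X a z x y = true := bt (fun t => g50 t)
    exact g6 u1 u2 u3 n1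
  have s89 : T.X a y u z = true → False := fun n1 => by
    have u1 : T.alt a x y u z = true := bt (fun t => s87 t)
    have u2 : T.X a u x y = true := bt (fun t => g48 t)
    have u3 : T.X a z x y = true := bt (fun t => g50 t)
    exact g14 u1 u2 u3 n1
  have s90 : T.X x y u z = false → False := fun n1 => by
    have u1 : T.alt a x y u z = true := bt (fun t => s87 t)
    exact s68 u1 n1
  have s91 : T.X a u x z = true → False := fun n1 => by
    have u1 : T.X x y u z = true := bt (fun t => s90 t)
    exact g26 n1 u1
  have s92 : T.X a z y u = true → False := fun n1 => by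
    have u1 : T.X x y u z = true := bt (fun t => s90 t)
    exact g45 n1 u1
  have s93 : T.X a u y z = false → False := fun n1 => by
    have u1 : T.X x y u z = true := bt (fun t => s90 t)
    have u2 : T.X a y u z = false := bf (fun t => s89 t)
    exact g21 u2 n1 u1
  have s94 : T.X a z x u = false → False := fun n1 => by
    have u1 : T.X a z y u = false := bf (fun t => s92 t)
    have u2 : T.X a u x y = true := bt (fun t => g48 t)
    have u3 : T.X a z x y = true := bt (fun t => g50 t)
    have u4 : T.alt a x y u z = true := bt (fun t => s87 t)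
    exact g31 u4 u2 u3 n1 u1
  have s95 : T.alt a x y w z = true → T.X a u x w = true → False := fun n1 n2 => by
    have u1 : T.X a z x y = true := bt (fun t => g50 t)
    have u2 : T.X a w x y = true := bt (fun t => g59 t)
    have u3 : T.X a z x u = true := bt (fun t => s94 t)
    have u4 : T.alt a y z u w = false := bf (fun t => s85 t)
    have u5 : T.alt a x u y w = false := bf (fun t => s83 t)
    have u6 : T.alt a x u y z = false := bf (fun t => s86 t)
    have u7 : T.alt a x z y u = false := bf (fun t => s79 t)
    have u8 : T.X a u x z = false := bf (fun t => s91 t)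
    have u9 : T.X a x u z = false := bf (fun t => s88 t)
    have u10 : T.X a u y z = true := bt (fun t => s93 t)
    have u11 : T.X a z y u = false := bf (fun t => s92 t)
    have u12 : T.X a x w z = false := bf (fun t => g17 n1 u2 u1 t)
    have u13 : T.X a y w z = false := bf (fun t => g36 n1 u2 u1 t)
    have u14 : T.X x y w z = true := bt (fun t => g42 n1 u2 u1 t)
    have u15 : T.X x w y z = false := bf (fun t => s67 n1 u2 t)
    have u16 : T.X a w x z = true := bt (fun t => g39 u12 t u14)
    have u17 : T.X a z y w = true := bt (fun t => g5 u13 t u14)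
    have u18 : T.X a z x w = false := bf (fun t => g53 t u15)
    have u19 : T.alt a x z u w = false := bf (fun t => g40 t n2 u3 u18)
    have u20 : T.alt a x y u w = false := bf (fun t => g38 t u19 u4)
    have u21 : T.alt a x w y u = true := bt (fun t => g47 u20 u5 t)
    have u22 : T.alt a x w u z = true := bt (fun t => g33 u20 u5 u6 t u4)
    have u23 : T.alt a y u w z = true := bt (fun t => g58 u21 u7 t)
    have u24 : T.X a w u z = true := bt (fun t => g44 u22 u9 u8 u16 t)
    have u25 : T.X a u y w = true := bt (fun t => g9 t u10 u17 u24)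
    exact g63 u23 u25 u11 u13 u24
  have s96 : T.X a u x w = true → False := fun n1 => by
    have u1 : T.alt a x u y z = false := bf (fun t => s86 t)
    have u2 : T.alt a x z y u = false := bf (fun t => s79 t)
    have u3 : T.alt a x u y w = false := bf (fun t => s83 t)
    have u4 : T.alt a x w y z = false := bf (fun t => s73 t)
    have u5 : T.X a w x y = true := bt (fun t => g59 t)
    have u6 : T.X a u x y = true := bt (fun t => g48 t)
    have u7 : T.alt a y z u w = false := bf (fun t => s85 t)
    have u8 : T.X a z x u = true := bt (fun t => s94 t)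
    have u9 : T.X a u y z = true := bt (fun t => s93 t)
    have u10 : T.alt a x y w z = false := bf (fun t => s95 t n1)
    have u11 : T.alt a y u w z = false := bf (fun t => g65 u1 u2 u10 t)
    have u12 : T.alt a x w y u = false := bf (fun t => g58 t u2 u11)
    have u13 : T.alt a x y u w = true := bt (fun t => g47 t u3 u12)
    have u14 : T.alt a y w u z = true := bt (fun t => g3 u13 u10 u4 t)
    have u15 : T.X x y u w = true := bt (fun t => g15 u13 u6 u5 t)
    have u16 : T.X a y u w = false := bf (fun t => g32 u13 u6 u5 t)
    have u17 : T.alt a x z u w = true := bt (fun t => g38 u13 t u7)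
    have u18 : T.X a w y u = true := bt (fun t => g51 u16 t u15)
    have u19 : T.X a z x w = true := bt (fun t => g40 u17 n1 u8 t)
    have u20 : T.X y u w z = true := bt (fun t => g20 u14 u18 u9 t)
    have u21 : T.X x w y z = true := bt (fun t => g53 u19 t)
    exact g28 u15 u21 u20
  have s97 : T.alt a x y u w = true → False := fun n1 => by
    have u1 : T.X a w x y = true := bt (fun t => g59 t)
    have u2 : T.X a u x y = true := bt (fun t => g48 t)
    have u3 : T.X a u x w = false := bf (fun t => s96 t)
    have u4 : T.X a x u w = false := bf (fun t => g1 n1 u2 u1 t)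
    have u5 : T.X x y u w = true := bt (fun t => g15 n1 u2 u1 t)
    exact g4 u4 u3 u5
  have s98 : T.alt a x w y u = false → False := fun n1 => by
    have u1 : T.alt a x y u w = false := bf (fun t => s97 t)
    have u2 : T.alt a x u y w = false := bf (fun t => s83 t)
    exact g47 u1 u2 n1
  have s99 : T.alt a x w u z = false → False := fun n1 => by
    have u1 : T.alt a x y u w = false := bf (fun t => s97 t)
    have u2 : T.alt a x u y z = false := bf (fun t => s86 t)
    have u3 : T.alt a x u y w = false := bf (fun t => s83 t)
    have u4 : T.alt a y z u w = false := bf (fun t => s85 t)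
    exact g33 u1 u3 u2 n1 u4
  have s100 : T.alt a y u w z = false → False := fun n1 => by
    have u1 : T.alt a x w y u = true := bt (fun t => s98 t)
    have u2 : T.alt a x z y u = false := bf (fun t => s79 t)
    exact g58 u1 u2 n1
  have s101 : T.alt a x y w z = false → False := fun n1 => by
    have u1 : T.alt a y u w z = true := bt (fun t => s100 t)
    have u2 : T.alt a x z y u = false := bf (fun t => s79 t)
    have u3 : T.alt a x u y z = false := bf (fun t => s86 t)
    exact g65 u3 u2 n1 u1
  have s102 : T.X a x w z = true → False := fun n1 => by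
    have u1 : T.alt a x y w z = true := bt (fun t => s101 t)
    have u2 : T.X a z x y = true := bt (fun t => g50 t)
    have u3 : T.X a w x y = true := bt (fun t => g59 t)
    exact g17 u1 u3 u2 n1
  have s103 : T.X a y w z = true → False := fun n1 => by
    have u1 : T.alt a x y w z = true := bt (fun t => s101 t)
    have u2 : T.X a z x y = true := bt (fun t => g50 t)
    have u3 : T.X a w x y = true := bt (fun t => g59 t)
    exact g36 u1 u3 u2 n1
  have s104 : T.X x y w z = false → False := fun n1 => by
    have u1 : T.alt a x y w z = true := bt (fun t => s101 t)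
    have u2 : T.X a z x y = true := bt (fun t => g50 t)
    have u3 : T.X a w x y = true := bt (fun t => g59 t)
    exact g42 u1 u3 u2 n1
  have s106 : T.X a w x z = false → False := fun n1 => by
    have u1 : T.X x y w z = true := bt (fun t => s104 t)
    have u2 : T.X a x w z = false := bf (fun t => s102 t)
    exact g39 u2 n1 u1
  have s107 : T.X a z y w = false → False := fun n1 => by
    have u1 : T.X x y w z = true := bt (fun t => s104 t)
    have u2 : T.X a y w z = false := bf (fun t => s103 t)
    exact g5 u2 n1 u1
  have s110 : T.X a w u z = false → False := fun n1 => by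
    have u1 : T.X a w x z = true := bt (fun t => s106 t)
    have u2 : T.X a x u z = false := bf (fun t => s88 t)
    have u3 : T.alt a x w u z = true := bt (fun t => s99 t)
    have u4 : T.X a u x z = false := bf (fun t => s91 t)
    exact g44 u3 u2 u4 u1 n1
  have s111 : T.X a u y w = false → False := fun n1 => by
    have u1 : T.X a w u z = true := bt (fun t => s110 t)
    have u2 : T.X a z y w = true := bt (fun t => s107 t)
    have u3 : T.X a u y z = true := bt (fun t => s93 t)
    exact g9 n1 u3 u2 u1
  have u1 : T.X a u y w = true := bt (fun t => s111 t)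
  have u2 : T.X a w u z = true := bt (fun t => s110 t)
  have u3 : T.alt a y u w z = true := bt (fun t => s100 t)
  have u4 : T.X a z y u = false := bf (fun t => s92 t)
  have u5 : T.X a y w z = false := bf (fun t => s103 t)
  exact g63 u3 u1 u4 u5 u2

theorem par_f {a u v x y z : V} (hN : [a, u, v, x, y, z].Nodup)
    (rx : T.X a x u v = false)
    (ry : T.X a y u v = false)
    (rz : T.X a z u v = false)
    (h1 : T.X a z x y = true)
    (h2 : T.X a u x y = false)
    (h3 : T.X a v x y = false)
    (h4 : T.alt a u v x z = true)
    (h5 : T.alt a u v y z = true) : False := by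
  have g9 := fun ha : T.alt a u v y z = true => cA0_4708_0 (T.okA0 (T.n5 hN (.cons_cons _ (.cons_cons _ (.cons_cons _ (.cons _ (.cons_cons _ (.cons_cons _ (List.nil_sublist _)))))))) ha)
  have g10 := fun ha : T.alt a u x y z = true => cA0_10241_10240 (T.okA0 (T.n5 hN (.cons_cons _ (.cons_cons _ (.cons _ (.cons_cons _ (.cons_cons _ (.cons_cons _ (List.nil_sublist _)))))))) ha)
  have g11 := c5_4756_4224 (T.n5 hN (.cons_cons _ (.cons_cons _ (.cons_cons _ (.cons_cons _ (.cons _ (.cons_cons _ (List.nil_sublist _))))))))
  have g12 := fun ha : T.alt a v y x z = true => c5a_2057_2056 (T.okA1 (T.n5 hN (.cons_cons _ (.cons _ (.cons_cons _ (.cons_cons _ (.cons_cons _ (.cons_cons _ (List.nil_sublist _)))))))) ha)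
  have g13 := csp_8768_8256 (T.sp5 hN (.cons_cons _ (.cons_cons _ (.cons_cons _ (.cons_cons _ (.cons_cons _ (.cons_cons _ (List.nil_sublist _))))))))
  have g14 := fun ha : T.alt a u x y z = true => cA0_18561_2048 (T.okA0 (T.n5 hN (.cons_cons _ (.cons_cons _ (.cons _ (.cons_cons _ (.cons_cons _ (.cons_cons _ (List.nil_sublist _)))))))) ha)
  have g15 := fun ha : T.alt a v y x z = true => c5a_18560_2176 (T.okA1 (T.n5 hN (.cons_cons _ (.cons _ (.cons_cons _ (.cons_cons _ (.cons_cons _ (.cons_cons _ (List.nil_sublist _)))))))) ha)
  have g16 := fun ha : T.alt a v y x z = true => c5a_18449_2048 (T.okA1 (T.n5 hN (.cons_cons _ (.cons _ (.cons_cons _ (.cons_cons _ (.cons_cons _ (.cons_cons _ (List.nil_sublist _)))))))) ha)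
  have g17 := fun ha : T.alt a u x y z = true => cA0_2057_2056 (T.okA0 (T.n5 hN (.cons_cons _ (.cons_cons _ (.cons _ (.cons_cons _ (.cons_cons _ (.cons_cons _ (List.nil_sublist _)))))))) ha)
  have g18 := fun ha : T.alt a u y v x = true => cA2_4708_4096 (T.okA2 (T.n5 hN (.cons_cons _ (.cons_cons _ (.cons_cons _ (.cons_cons _ (.cons_cons _ (List.nil_sublist _))))))) ha)
  have g19 := csp_8258_8256 (T.sp5 hN (.cons_cons _ (.cons_cons _ (.cons_cons _ (.cons_cons _ (.cons_cons _ (.cons_cons _ (List.nil_sublist _))))))))
  have g20 := fun ha : T.alt a v x y z = true => cA0_2057_2056 (T.okA0 (T.n5 hN (.cons_cons _ (.cons _ (.cons_cons _ (.cons_cons _ (.cons_cons _ (.cons_cons _ (List.nil_sublist _)))))))) ha)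
  have g21 := fun ha : T.alt a u v x z = true => cA0_4708_0 (T.okA0 (T.n5 hN (.cons_cons _ (.cons_cons _ (.cons_cons _ (.cons_cons _ (.cons _ (.cons_cons _ (List.nil_sublist _)))))))) ha)
  have g22 := csp_9224_8 (T.sp5 hN (.cons_cons _ (.cons_cons _ (.cons_cons _ (.cons_cons _ (.cons_cons _ (.cons_cons _ (List.nil_sublist _))))))))
  have g23 := fun ha : T.alt a u y x z = true => c5a_18449_2048 (T.okA1 (T.n5 hN (.cons_cons _ (.cons_cons _ (.cons _ (.cons_cons _ (.cons_cons _ (.cons_cons _ (List.nil_sublist _)))))))) ha)
  have g24 := csp_8205_8 (T.sp5 hN (.cons_cons _ (.cons_cons _ (.cons_cons _ (.cons_cons _ (.cons_cons _ (.cons_cons _ (List.nil_sublist _))))))))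
  have g25 := c5_2121_2120 (T.n5 hN (.cons _ (.cons_cons _ (.cons_cons _ (.cons_cons _ (.cons_cons _ (.cons_cons _ (List.nil_sublist _))))))))
  have g26 := fun ha : T.alt a u y x z = true => c5a_2057_2056 (T.okA1 (T.n5 hN (.cons_cons _ (.cons_cons _ (.cons _ (.cons_cons _ (.cons_cons _ (.cons_cons _ (List.nil_sublist _)))))))) ha)
  have g27 := c5_4756_4112 (T.n5 hN (.cons_cons _ (.cons_cons _ (.cons_cons _ (.cons _ (.cons_cons _ (.cons_cons _ (List.nil_sublist _))))))))
  have g28 := fun ha : T.alt a v y x z = true => c5a_2113_2112 (T.okA1 (T.n5 hN (.cons_cons _ (.cons _ (.cons_cons _ (.cons_cons _ (.cons_cons _ (.cons_cons _ (List.nil_sublist _)))))))) ha)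
  have g29 := fun ha : T.alt a u y x z = true => c5a_2113_2112 (T.okA1 (T.n5 hN (.cons_cons _ (.cons_cons _ (.cons _ (.cons_cons _ (.cons_cons _ (.cons_cons _ (List.nil_sublist _)))))))) ha)
  have g30 := fun ha : T.alt a u y x z = true => c5a_18560_2176 (T.okA1 (T.n5 hN (.cons_cons _ (.cons_cons _ (.cons _ (.cons_cons _ (.cons_cons _ (.cons_cons _ (List.nil_sublist _)))))))) ha)
  have g31 := fun ha : T.alt a u x y z = true => cA0_2113_2112 (T.okA0 (T.n5 hN (.cons_cons _ (.cons_cons _ (.cons _ (.cons_cons _ (.cons_cons _ (.cons_cons _ (List.nil_sublist _)))))))) ha)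
  have g32 := fun ha : T.alt a u v y z = true => cA0_8804_8192 (T.okA0 (T.n5 hN (.cons_cons _ (.cons_cons _ (.cons_cons _ (.cons _ (.cons_cons _ (.cons_cons _ (List.nil_sublist _)))))))) ha)
  have g33 := fun ha : T.alt a u v x z = true => cA0_1068_1024 (T.okA0 (T.n5 hN (.cons_cons _ (.cons_cons _ (.cons_cons _ (.cons_cons _ (.cons _ (.cons_cons _ (List.nil_sublist _)))))))) ha)
  have g34 := T.ae1 (T.n5 hN (.cons_cons _ (.cons _ (.cons_cons _ (.cons_cons _ (.cons_cons _ (.cons_cons _ (List.nil_sublist _))))))))
  have g35 := c5_17545_16392 (T.n5 hN (.cons _ (.cons_cons _ (.cons_cons _ (.cons_cons _ (.cons_cons _ (.cons_cons _ (List.nil_sublist _))))))))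
  have g36 := csp_73_73 (T.sp5 hN (.cons_cons _ (.cons_cons _ (.cons_cons _ (.cons_cons _ (.cons_cons _ (.cons_cons _ (List.nil_sublist _))))))))
  have g37 := fun ha : T.alt a u x v y = true => c5a_4708_4096 (T.okA1 (T.n5 hN (.cons_cons _ (.cons_cons _ (.cons_cons _ (.cons_cons _ (.cons_cons _ (List.nil_sublist _))))))) ha)
  have g38 := csp_16393_16392 (T.sp5 hN (.cons_cons _ (.cons_cons _ (.cons_cons _ (.cons_cons _ (.cons_cons _ (.cons_cons _ (List.nil_sublist _))))))))
  have g39 := fun ha : T.alt a v x y z = true => cA0_2113_2112 (T.okA0 (T.n5 hN (.cons_cons _ (.cons _ (.cons_cons _ (.cons_cons _ (.cons_cons _ (.cons_cons _ (List.nil_sublist _)))))))) ha)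
  have g40 := c5_5256_4232 (T.n5 hN (.cons_cons _ (.cons_cons _ (.cons_cons _ (.cons _ (.cons_cons _ (.cons_cons _ (List.nil_sublist _))))))))
  have s41 : T.X a u y z = false → T.X a v y z = false → T.X u v y z = false → False := fun n1 n2 n3 => by
    exact g9 h5 ry rz n1 n2 n3
  have s42 : T.alt a u x y z = true → T.X u y x z = true → False := fun n1 n2 => by
    exact g10 n1 h2 h1 n2
  have s43 : T.X a v u z = false → T.X a x u z = true → T.X a v x z = false → T.X u v x z = true → False := fun n1 n2 n3 n4 => by
    exact g11 rx n1 n2 n3 n4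
  have s44 : T.alt a v y x z = true → T.X a v x z = true → False := fun n1 n2 => by
    exact g12 n1 h3 n2 h1
  have s45 : T.alt a u x y z = false → T.alt a v y x z = true → False := fun n1 n2 => by
    exact g13 h5 n1 n2
  have s46 : T.alt a u x y z = true → T.X a y u z = false → T.X u z x y = false → False := fun n1 n2 n3 => by
    exact g14 n1 h2 n2 h1 n3
  have s47 : T.alt a v y x z = true → T.X a y v z = true → T.X v z x y = false → False := fun n1 n2 n3 => by
    exact g15 n1 n2 h1 n3
  have s48 : T.alt a v y x z = true → T.X a x v z = false → T.X v z x y = false → False := fun n1 n2 n3 => by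
    exact g16 n1 h3 n2 h1 n3
  have s49 : T.alt a u x y z = true → T.X a u x z = true → False := fun n1 n2 => by
    exact g17 n1 h2 n2 h1
  have s50 : T.alt a u y v x = true → T.X u v x y = true → False := fun n1 n2 => by
    exact g18 n1 rx ry h2 h3 n2
  have s51 : T.alt a u x v y = false → T.alt a v y x z = true → False := fun n1 n2 => by
    exact g19 n1 h5 n2
  have s52 : T.alt a v x y z = true → T.X a v x z = true → False := fun n1 n2 => by
    exact g20 n1 h3 n2 h1
  have s53 : T.X a u x z = false → T.X a v x z = false → T.X u v x z = false → False := fun n1 n2 n3 => by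
    exact g21 h4 rx rz n1 n2 n3
  have s54 : T.alt a u y x z = false → T.alt a v y x z = false → False := fun n1 n2 => by
    exact g22 h4 n1 n2
  have s55 : T.alt a u y x z = true → T.X a x u z = false → T.X u z x y = false → False := fun n1 n2 n3 => by
    exact g23 n1 h2 n2 h1 n3
  have s56 : T.alt a u v x y = false → T.alt a u y v x = false → T.alt a v y x z = false → False := fun n1 n2 n3 => by
    exact g24 n1 n2 h4 n3
  have s57 : T.alt a u y x z = true → T.X a u x z = true → False := fun n1 n2 => by
    exact g26 n1 h2 n2 h1
  have s58 : T.X a v u z = true → T.X a y u z = false → T.X a v y z = false → T.X u v y z = true → False := fun n1 n2 n3 n4 => by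
    exact g27 ry n1 n2 n3 n4
  have s59 : T.alt a v y x z = true → T.X a v y z = true → False := fun n1 n2 => by
    exact g28 n1 h3 n2 h1
  have s60 : T.alt a u y x z = true → T.X a u y z = true → False := fun n1 n2 => by
    exact g29 n1 h2 n2 h1
  have s61 : T.alt a u y x z = true → T.X a y u z = true → T.X u z x y = false → False := fun n1 n2 n3 => by
    exact g30 n1 n2 h1 n3
  have s62 : T.alt a u x y z = true → T.X a u y z = true → False := fun n1 n2 => by
    exact g31 n1 h2 n2 h1
  have s63 : T.X a u y z = false → T.X a v y z = false → T.X u y v z = true → False := fun n1 n2 n3 => by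
    exact g32 h5 ry rz n1 n2 n3
  have s64 : T.X a u v z = false → T.X a x v z = true → False := fun n1 n2 => by
    exact g33 h4 rx n1 rz n2
  have s65 : T.alt a u v x y = true → False := fun n1 => by
    exact g36 n1 h4 h5
  have s66 : T.alt a u x v y = true → T.X u v x y = true → False := fun n1 n2 => by
    exact g37 n1 rx ry h2 h3 n2
  have s67 : T.alt a v z x y = true → False := fun n1 => by
    have u1 : T.alt a u v x y = false := bf (fun t => s65 t)
    exact g38 u1 h4 n1
  have s68 : T.alt a v x y z = true → T.X a v y z = true → False := fun n1 n2 => by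
    exact g39 n1 h3 n2 h1
  have s69 : T.alt a v y x z = true → False := fun n1 => by
    have u1 : T.X a v x z = false := bf (fun t => s44 n1 t)
    have u2 : T.alt a u x y z = true := bt (fun t => s45 t n1)
    have u3 : T.alt a u x v y = true := bt (fun t => s51 t n1)
    have u4 : T.X a v y z = false := bf (fun t => s59 n1 t)
    have u5 : T.X u y x z = false := bf (fun t => s42 u2 t)
    have u6 : T.X a u x z = false := bf (fun t => s49 u2 t)
    have u7 : T.X a u y z = false := bf (fun t => s62 u2 t)
    have u8 : T.X u v x y = false := bf (fun t => s66 u3 t)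
    have u9 : T.X u v y z = true := bt (fun t => s41 u7 u4 t)
    have u10 : T.X u y v z = false := bf (fun t => s63 u7 u4 t)
    have u11 : T.X u v x z = true := bt (fun t => s53 u6 u1 t)
    have u12 : T.X u z x y = false := bf (fun t => g25 u8 u11 u9 t)
    have u13 : T.X v z x y = false := bf (fun t => g35 u8 u11 u10 u5 t)
    have u14 : T.X a y u z = true := bt (fun t => s46 u2 t u12)
    have u15 : T.X a x v z = true := bt (fun t => s48 n1 t u13)
    have u16 : T.X a y v z = false := bf (fun t => s47 n1 t u13)
    have u17 : T.X a u v z = true := bt (fun t => s64 t u15)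
    exact g40 u17 u14 u16 u9
  have s70 : T.alt a u y x z = false → False := fun n1 => by
    have u1 : T.alt a v y x z = false := bf (fun t => s69 t)
    exact s54 n1 u1
  have s71 : T.alt a v x y z = false → False := fun n1 => by
    have u1 : T.alt a v y x z = false := bf (fun t => s69 t)
    have u2 : T.alt a v z x y = false := bf (fun t => s67 t)
    exact g34 n1 u1 u2
  have s72 : T.alt a u y v x = false → False := fun n1 => by
    have u1 : T.alt a v y x z = false := bf (fun t => s69 t)
    have u2 : T.alt a u v x y = false := bf (fun t => s65 t)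
    exact s56 u2 n1 u1
  have s73 : T.X a u x z = true → False := fun n1 => by
    have u1 : T.alt a u y x z = true := bt (fun t => s70 t)
    exact s57 u1 n1
  have s74 : T.X a u y z = true → False := fun n1 => by
    have u1 : T.alt a u y x z = true := bt (fun t => s70 t)
    exact s60 u1 n1
  have s75 : T.X a v x z = true → False := fun n1 => by
    have u1 : T.alt a v x y z = true := bt (fun t => s71 t)
    exact s52 u1 n1
  have s76 : T.X a v y z = true → False := fun n1 => by
    have u1 : T.alt a v x y z = true := bt (fun t => s71 t)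
    exact s68 u1 n1
  have s77 : T.X u v x y = true → False := fun n1 => by
    have u1 : T.alt a u y v x = true := bt (fun t => s72 t)
    exact s50 u1 n1
  have s78 : T.X u v x z = false → False := fun n1 => by
    have u1 : T.X a u x z = false := bf (fun t => s73 t)
    have u2 : T.X a v x z = false := bf (fun t => s75 t)
    exact s53 u1 u2 n1
  have s79 : T.X u v y z = false → False := fun n1 => by
    have u1 : T.X a v y z = false := bf (fun t => s76 t)
    have u2 : T.X a u y z = false := bf (fun t => s74 t)
    exact s41 u2 u1 n1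
  have s81 : T.X u z x y = true → False := fun n1 => by
    have u1 : T.X u v x y = false := bf (fun t => s77 t)
    have u2 : T.X u v x z = true := bt (fun t => s78 t)
    have u3 : T.X u v y z = true := bt (fun t => s79 t)
    exact g25 u1 u2 u3 n1
  have s82 : T.X a x u z = false → False := fun n1 => by
    have u1 : T.X u z x y = false := bf (fun t => s81 t)
    have u2 : T.alt a u y x z = true := bt (fun t => s70 t)
    exact s55 u2 n1 u1
  have s83 : T.X a y u z = true → False := fun n1 => by
    have u1 : T.X u z x y = false := bf (fun t => s81 t)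
    have u2 : T.alt a u y x z = true := bt (fun t => s70 t)
    exact s61 u2 n1 u1
  have s84 : T.X a v u z = false → False := fun n1 => by
    have u1 : T.X a x u z = true := bt (fun t => s82 t)
    have u2 : T.X a v x z = false := bf (fun t => s75 t)
    have u3 : T.X u v x z = true := bt (fun t => s78 t)
    exact s43 n1 u1 u2 u3
  have u1 : T.X a y u z = false := bf (fun t => s83 t)
  have u2 : T.X a v u z = true := bt (fun t => s84 t)
  have u3 : T.X a v y z = false := bf (fun t => s76 t)
  have u4 : T.X u v y z = true := bt (fun t => s79 t)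
  exact s58 u2 u1 u3 u4

theorem fb1_f {a x y z p s : V} (hN : [a, x, y, z, p, s].Nodup)
    (hg1 : T.Okg a x y z p)
    (hg2 : T.Okg a x y z s)
    (h1 : T.X a p x z = true)
    (h2 : T.X a s x p = true)
    (h3 : T.X a s x z = false) : False := by
  have g4 := cg_4_0 hg1
  have g5 := csp_16897_16896 (T.sp5 hN (.cons_cons _ (.cons_cons _ (.cons_cons _ (.cons_cons _ (.cons_cons _ (.cons_cons _ (List.nil_sublist _))))))))
  have g6 := T.ae1 (T.n5 hN (.cons_cons _ (.cons_cons _ (.cons _ (.cons_cons _ (.cons_cons _ (.cons_cons _ (List.nil_sublist _))))))))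
  have g7 := csp_4880_4608 (T.sp5 hN (.cons_cons _ (.cons_cons _ (.cons_cons _ (.cons_cons _ (.cons_cons _ (.cons_cons _ (List.nil_sublist _))))))))
  have g8 := csp_8706_8704 (T.sp5 hN (.cons_cons _ (.cons_cons _ (.cons_cons _ (.cons_cons _ (.cons_cons _ (.cons_cons _ (List.nil_sublist _))))))))
  have g9 := fun ha : T.alt a x y z p = true => cA0_4132_36 (T.okA0 (T.n5 hN (.cons_cons _ (.cons_cons _ (.cons_cons _ (.cons_cons _ (.cons_cons _ (List.nil_sublist _))))))) ha)
  have g10 := csp_16912_16896 (T.sp5 hN (.cons_cons _ (.cons_cons _ (.cons_cons _ (.cons_cons _ (.cons_cons _ (.cons_cons _ (List.nil_sublist _))))))))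
  have g11 := fun ha : T.alt a x y p s = true => cA0_294_256 (T.okA0 (T.n5 hN (.cons_cons _ (.cons_cons _ (.cons_cons _ (.cons _ (.cons_cons _ (.cons_cons _ (List.nil_sublist _)))))))) ha)
  have g12 := fun ha : T.alt a x p z s = true => c5a_292_260 (T.okA1 (T.n5 hN (.cons_cons _ (.cons_cons _ (.cons _ (.cons_cons _ (.cons_cons _ (.cons_cons _ (List.nil_sublist _)))))))) ha)
  have g13 := cg_18592_32 hg2
  have g14 := fun ha : T.alt a x z y p = true => c5a_18436_2052 (T.okA1 (T.n5 hN (.cons_cons _ (.cons_cons _ (.cons_cons _ (.cons_cons _ (.cons_cons _ (List.nil_sublist _))))))) ha)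
  have g15 := cg_272_272 hg1
  have g16 := csp_25472_512 (T.sp5 hN (.cons_cons _ (.cons_cons _ (.cons_cons _ (.cons_cons _ (.cons_cons _ (.cons_cons _ (List.nil_sublist _))))))))
  have g17 := cg_16640_16640 hg1
  have g18 := csp_25348_512 (T.sp5 hN (.cons_cons _ (.cons_cons _ (.cons_cons _ (.cons_cons _ (.cons_cons _ (.cons_cons _ (List.nil_sublist _))))))))
  have g19 := fun ha : T.alt a x p y z = true => cA2_292_260 (T.okA2 (T.n5 hN (.cons_cons _ (.cons_cons _ (.cons_cons _ (.cons_cons _ (.cons_cons _ (List.nil_sublist _))))))) ha)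
  have g20 := cg_4352_4352 hg1
  have g21 := c5_276_276 (T.n5 hN (.cons_cons _ (.cons_cons _ (.cons _ (.cons_cons _ (.cons_cons _ (.cons_cons _ (List.nil_sublist _))))))))
  have g22 := fun ha : T.alt a x z y s = true => c5a_16772_16388 (T.okA1 (T.n5 hN (.cons_cons _ (.cons_cons _ (.cons_cons _ (.cons_cons _ (.cons _ (.cons_cons _ (List.nil_sublist _)))))))) ha)
  have g23 := csp_16960_16896 (T.sp5 hN (.cons_cons _ (.cons_cons _ (.cons_cons _ (.cons_cons _ (.cons_cons _ (.cons_cons _ (List.nil_sublist _))))))))
  have g24 := fun ha : T.alt a x p y s = true => c5a_292_260 (T.okA1 (T.n5 hN (.cons_cons _ (.cons_cons _ (.cons_cons _ (.cons _ (.cons_cons _ (.cons_cons _ (List.nil_sublist _)))))))) ha)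
  have g25 := fun ha : T.alt a x z y s = true => c5a_2308_2052 (T.okA1 (T.n5 hN (.cons_cons _ (.cons_cons _ (.cons_cons _ (.cons_cons _ (.cons _ (.cons_cons _ (List.nil_sublist _)))))))) ha)
  have g26 := fun ha : T.alt a x z y p = true => c5a_292_260 (T.okA1 (T.n5 hN (.cons_cons _ (.cons_cons _ (.cons_cons _ (.cons_cons _ (.cons_cons _ (List.nil_sublist _))))))) ha)
  have g27 := fun ha : T.alt a x s z p = true => cA2_292_260 (T.okA2 (T.n5 hN (.cons_cons _ (.cons_cons _ (.cons _ (.cons_cons _ (.cons_cons _ (.cons_cons _ (List.nil_sublist _)))))))) ha)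
  have g28 := cg_2336_288 hg1
  have g29 := T.ae1 (T.n5 hN (.cons_cons _ (.cons _ (.cons_cons _ (.cons_cons _ (.cons_cons _ (.cons_cons _ (List.nil_sublist _))))))))
  have g30 := csp_770_768 (T.sp5 hN (.cons_cons _ (.cons_cons _ (.cons_cons _ (.cons_cons _ (.cons_cons _ (.cons_cons _ (List.nil_sublist _))))))))
  have s31 : T.alt a x y z p = true → T.X a p x y = true → T.X x y z p = false → False := fun n1 n2 n3 => by
    have u1 : T.X a z x y = true := bt (fun t => g4 t)
    exact g9 n1 u1 n2 n3
  have s32 : T.alt a x y p s = true → T.X a y x p = false → T.X a p x y = false → T.X a s x y = false → False := fun n1 n2 n3 n4 => by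
    exact g11 n1 n2 n3 n4 h2
  have s33 : T.alt a x p z s = true → False := fun n1 => by
    exact g12 n1 h1 h3 h2
  have s34 : T.alt a x z y p = true → T.X a p y z = true → T.X x p y z = false → False := fun n1 n2 n3 => by
    have u1 : T.X a z x y = true := bt (fun t => g4 t)
    exact g14 n1 u1 n2 n3
  have s35 : T.X a y x p = true → False := fun n1 => by
    exact g15 n1 h1
  have s36 : T.X x p y z = true → False := fun n1 => by
    exact g17 h1 n1
  have s37 : T.alt a x p y z = true → T.X a p x y = false → False := fun n1 n2 => by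
    have u1 : T.X a z x y = true := bt (fun t => g4 t)
    exact g19 n1 u1 n2 h1
  have s38 : T.X x y z p = true → False := fun n1 => by
    exact g20 h1 n1
  have s39 : T.X a z x s = true → False := fun n1 => by
    exact g21 h1 n1 h2
  have s40 : T.alt a x z y s = true → T.X x s y z = true → False := fun n1 n2 => by
    have u1 : T.X a z x y = true := bt (fun t => g4 t)
    have u2 : T.X a z x s = false := bf (fun t => s39 t)
    exact g22 n1 u1 u2 h3 n2
  have s41 : T.alt a x p y s = true → T.X a p x y = true → T.X a s x y = false → False := fun n1 n2 n3 => by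
    exact g24 n1 n2 n3 h2
  have s42 : T.alt a x z y s = true → T.X a s y z = true → False := fun n1 n2 => by
    have u1 : T.X a z x y = true := bt (fun t => g4 t)
    exact g25 n1 u1 h3 n2
  have s43 : T.alt a x z y p = true → T.X a p x y = false → False := fun n1 n2 => by
    have u1 : T.X a z x y = true := bt (fun t => g4 t)
    exact g26 n1 u1 n2 h1
  have s44 : T.alt a x s z p = true → False := fun n1 => by
    exact g27 n1 h1 h3 h2
  have s45 : T.alt a x z p s = false → False := fun n1 => by
    have u1 : T.alt a x s z p = false := bf (fun t => s44 t)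
    have u2 : T.alt a x p z s = false := bf (fun t => s33 t)
    exact g6 n1 u2 u1
  have s46 : T.X a p x y = true → T.X a p y z = false → False := fun n1 n2 => by
    exact g28 n1 h1 n2
  have s47 : T.alt a x z y p = false → T.alt a x s y p = true → False := fun n1 n2 => by
    have u1 : T.alt a x z p s = true := bt (fun t => s45 t)
    exact g30 n1 n2 u1
  have s48 : T.alt a y s z p = true → False := fun n1 => by
    have u1 : T.alt a x z p s = true := bt (fun t => s45 t)
    have u2 : T.X x y z p = false := bf (fun t => s38 t)
    have u3 : T.X a y x p = false := bf (fun t => s35 t)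
    have u4 : T.X a z x s = false := bf (fun t => s39 t)
    have u5 : T.alt a x y z p = true := bt (fun t => g5 t u1 n1)
    have u6 : T.alt a x z y s = true := bt (fun t => g10 t u1 n1)
    have u7 : T.alt a x y p s = true := bt (fun t => g23 t u1 n1)
    have u8 : T.X a p x y = false := bf (fun t => s31 u5 t u2)
    have u9 : T.X x s y z = false := bf (fun t => s40 u6 t)
    have u10 : T.X a s y z = false := bf (fun t => s42 u6 t)
    have u11 : T.X a s x y = true := bt (fun t => s32 u7 u3 u8 t)
    exact g13 u11 u4 u10 u9
  have s49 : T.alt a x z y p = true → False := fun n1 => by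
    have u1 : T.X x p y z = false := bf (fun t => s36 t)
    have u2 : T.X a p y z = false := bf (fun t => s34 n1 t u1)
    have u3 : T.X a p x y = true := bt (fun t => s43 n1 t)
    exact s46 u3 u2
  have s50 : T.alt a y p z s = true → False := fun n1 => by
    have u1 : T.alt a x z y p = false := bf (fun t => s49 t)
    have u2 : T.alt a x z p s = true := bt (fun t => s45 t)
    exact g8 u1 u2 n1
  have s51 : T.alt a x s y p = true → False := fun n1 => by
    have u1 : T.alt a x z y p = false := bf (fun t => s49 t)
    exact s47 u1 n1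
  have s52 : T.alt a y z p s = false → False := fun n1 => by
    have u1 : T.alt a y p z s = false := bf (fun t => s50 t)
    have u2 : T.alt a y s z p = false := bf (fun t => s48 t)
    exact g29 n1 u1 u2
  have s53 : T.alt a x p y z = false → False := fun n1 => by
    have u1 : T.alt a x s y p = false := bf (fun t => s51 t)
    have u2 : T.alt a x z p s = true := bt (fun t => s45 t)
    have u3 : T.alt a y p z s = false := bf (fun t => s50 t)
    have u4 : T.alt a y s z p = false := bf (fun t => s48 t)
    exact g18 n1 u1 u2 u3 u4
  have s54 : T.alt a x p y s = false → False := fun n1 => by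
    have u1 : T.alt a x s y p = false := bf (fun t => s51 t)
    have u2 : T.alt a x z p s = true := bt (fun t => s45 t)
    have u3 : T.alt a y p z s = false := bf (fun t => s50 t)
    have u4 : T.alt a y s z p = false := bf (fun t => s48 t)
    exact g16 n1 u1 u2 u3 u4
  have s55 : T.alt a x z y s = false → False := fun n1 => by
    have u1 : T.alt a y z p s = true := bt (fun t => s52 t)
    have u2 : T.alt a x z p s = true := bt (fun t => s45 t)
    have u3 : T.alt a x s y p = false := bf (fun t => s51 t)
    exact g7 n1 u3 u2 u1
  have s56 : T.X a p x y = false → False := fun n1 => by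
    have u1 : T.alt a x p y z = true := bt (fun t => s53 t)
    exact s37 u1 n1
  have s57 : T.X a s x y = false → False := fun n1 => by
    have u1 : T.alt a x p y s = true := bt (fun t => s54 t)
    have u2 : T.X a p x y = true := bt (fun t => s56 t)
    exact s41 u1 u2 n1
  have s58 : T.X x s y z = true → False := fun n1 => by
    have u1 : T.alt a x z y s = true := bt (fun t => s55 t)
    exact s40 u1 n1
  have s59 : T.X a s y z = true → False := fun n1 => by
    have u1 : T.alt a x z y s = true := bt (fun t => s55 t)
    exact s42 u1 n1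
  have u1 : T.X a s x y = true := bt (fun t => s57 t)
  have u2 : T.X a s y z = false := bf (fun t => s59 t)
  have u3 : T.X a z x s = false := bf (fun t => s39 t)
  have u4 : T.X x s y z = false := bf (fun t => s58 t)
  exact g13 u1 u3 u2 u4

theorem fb2_f {a x y z p s : V} (hN : [a, x, y, z, p, s].Nodup)
    (hg1 : T.Okg a x y z p)
    (hg2 : T.Okg a x y z s)
    (h1 : T.X a p x z = true)
    (h2 : T.X a s z p = true)
    (h3 : T.X a s x z = false) : False := by
  have g4 := cg_2_2 hg1
  have g5 := fun ha : T.alt a x y z p = true => cA0_4132_36 (T.okA0 (T.n5 hN (.cons_cons _ (.cons_cons _ (.cons_cons _ (.cons_cons _ (.cons_cons _ (List.nil_sublist _))))))) ha)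
  have g6 := fun ha : T.alt a x y z s = true => cA0_5160_5120 (T.okA0 (T.n5 hN (.cons_cons _ (.cons_cons _ (.cons_cons _ (.cons_cons _ (.cons _ (.cons_cons _ (List.nil_sublist _)))))))) ha)
  have g7 := fun ha : T.alt a x z y p = true => c5a_18436_2052 (T.okA1 (T.n5 hN (.cons_cons _ (.cons_cons _ (.cons_cons _ (.cons_cons _ (.cons_cons _ (List.nil_sublist _))))))) ha)
  have g8 := fun ha : T.alt a x z y s = true => c5a_4450_4128 (T.okA1 (T.n5 hN (.cons_cons _ (.cons_cons _ (.cons_cons _ (.cons_cons _ (.cons _ (.cons_cons _ (List.nil_sublist _)))))))) ha)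
  have g9 := cg_9248_1056 hg2
  have g10 := c5_2148_2116 (T.n5 hN (.cons_cons _ (.cons_cons _ (.cons _ (.cons_cons _ (.cons_cons _ (.cons_cons _ (List.nil_sublist _))))))))
  have g11 := fun ha : T.alt a y z p s = true => cA0_18448_2064 (T.okA0 (T.n5 hN (.cons_cons _ (.cons _ (.cons_cons _ (.cons_cons _ (.cons_cons _ (.cons_cons _ (List.nil_sublist _)))))))) ha)
  have g12 := fun ha : T.alt a x y z s = true => cA0_4172_4108 (T.okA0 (T.n5 hN (.cons_cons _ (.cons_cons _ (.cons_cons _ (.cons_cons _ (.cons _ (.cons_cons _ (List.nil_sublist _)))))))) ha)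
  have g13 := fun ha : T.alt a x y p s = true => cA0_8804_8192 (T.okA0 (T.n5 hN (.cons_cons _ (.cons_cons _ (.cons_cons _ (.cons _ (.cons_cons _ (.cons_cons _ (List.nil_sublist _)))))))) ha)
  have g14 := fun ha : T.alt a x z y s = true => c5a_4196_4 (T.okA1 (T.n5 hN (.cons_cons _ (.cons_cons _ (.cons_cons _ (.cons_cons _ (.cons _ (.cons_cons _ (List.nil_sublist _)))))))) ha)
  have g15 := csp_21000_512 (T.sp5 hN (.cons_cons _ (.cons_cons _ (.cons_cons _ (.cons_cons _ (.cons_cons _ (.cons_cons _ (List.nil_sublist _))))))))
  have g16 := c5_10276_10244 (T.n5 hN (.cons_cons _ (.cons_cons _ (.cons _ (.cons_cons _ (.cons_cons _ (.cons_cons _ (List.nil_sublist _))))))))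
  have g17 := cg_9472_256 hg1
  have g18 := c5_16394_16394 (T.n5 hN (.cons _ (.cons_cons _ (.cons_cons _ (.cons_cons _ (.cons_cons _ (.cons_cons _ (List.nil_sublist _))))))))
  have g19 := csp_17026_512 (T.sp5 hN (.cons_cons _ (.cons_cons _ (.cons_cons _ (.cons_cons _ (.cons_cons _ (.cons_cons _ (List.nil_sublist _))))))))
  have g20 := cg_768_768 hg1
  have g21 := fun ha : T.alt a x z y s = true => c5a_9540_9220 (T.okA1 (T.n5 hN (.cons_cons _ (.cons_cons _ (.cons_cons _ (.cons_cons _ (.cons _ (.cons_cons _ (List.nil_sublist _)))))))) ha)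
  have g22 := c5_18497_18496 (T.n5 hN (.cons_cons _ (.cons _ (.cons_cons _ (.cons_cons _ (.cons_cons _ (.cons_cons _ (List.nil_sublist _))))))))
  have g23 := cg_4352_4352 hg1
  have g24 := fun ha : T.alt a x p y s = true => c5a_5128_5128 (T.okA1 (T.n5 hN (.cons_cons _ (.cons_cons _ (.cons_cons _ (.cons _ (.cons_cons _ (.cons_cons _ (List.nil_sublist _)))))))) ha)
  have g25 := c5_2060_2060 (T.n5 hN (.cons_cons _ (.cons_cons _ (.cons _ (.cons_cons _ (.cons_cons _ (.cons_cons _ (List.nil_sublist _))))))))
  have g26 := T.ae1 (T.n5 hN (.cons_cons _ (.cons_cons _ (.cons _ (.cons_cons _ (.cons_cons _ (.cons_cons _ (List.nil_sublist _))))))))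
  have g27 := fun ha : T.alt a x z y p = true => c5a_292_260 (T.okA1 (T.n5 hN (.cons_cons _ (.cons_cons _ (.cons_cons _ (.cons_cons _ (.cons_cons _ (List.nil_sublist _))))))) ha)
  have g28 := c5_8778_10 (T.n5 hN (.cons _ (.cons_cons _ (.cons_cons _ (.cons_cons _ (.cons_cons _ (.cons_cons _ (List.nil_sublist _))))))))
  have g29 := c5_17545_136 (T.n5 hN (.cons _ (.cons_cons _ (.cons_cons _ (.cons_cons _ (.cons_cons _ (.cons_cons _ (List.nil_sublist _))))))))
  have g30 := cg_16640_16640 hg1
  have g31 := cg_9472_8192 hg2
  have g32 := fun ha : T.alt a y z p s = true => cA0_18561_2048 (T.okA0 (T.n5 hN (.cons_cons _ (.cons _ (.cons_cons _ (.cons_cons _ (.cons_cons _ (.cons_cons _ (List.nil_sublist _)))))))) ha)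
  have g33 := fun ha : T.alt a x z y s = true => c5a_9482_0 (T.okA1 (T.n5 hN (.cons_cons _ (.cons_cons _ (.cons_cons _ (.cons_cons _ (.cons _ (.cons_cons _ (List.nil_sublist _)))))))) ha)
  have g34 := c5_17545_16392 (T.n5 hN (.cons _ (.cons_cons _ (.cons_cons _ (.cons_cons _ (.cons_cons _ (.cons_cons _ (List.nil_sublist _))))))))
  have g35 := cg_272_272 hg1
  have g36 := fun ha : T.alt a x s z p = true => cA2_2084_2052 (T.okA2 (T.n5 hN (.cons_cons _ (.cons_cons _ (.cons _ (.cons_cons _ (.cons_cons _ (.cons_cons _ (List.nil_sublist _)))))))) ha)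
  have g37 := c5_6180_6148 (T.n5 hN (.cons_cons _ (.cons_cons _ (.cons _ (.cons_cons _ (.cons_cons _ (.cons_cons _ (List.nil_sublist _))))))))
  have g38 := csp_16897_16896 (T.sp5 hN (.cons_cons _ (.cons_cons _ (.cons_cons _ (.cons_cons _ (.cons_cons _ (.cons_cons _ (List.nil_sublist _))))))))
  have g39 := csp_16960_16896 (T.sp5 hN (.cons_cons _ (.cons_cons _ (.cons_cons _ (.cons_cons _ (.cons_cons _ (.cons_cons _ (List.nil_sublist _))))))))
  have g40 := fun ha : T.alt a y z p s = true => cA0_2082_2050 (T.okA0 (T.n5 hN (.cons_cons _ (.cons _ (.cons_cons _ (.cons_cons _ (.cons_cons _ (.cons_cons _ (List.nil_sublist _)))))))) ha)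
  have g41 := fun ha : T.alt a y s z p = true => cA2_18560_2176 (T.okA2 (T.n5 hN (.cons_cons _ (.cons _ (.cons_cons _ (.cons_cons _ (.cons_cons _ (.cons_cons _ (List.nil_sublist _)))))))) ha)
  have g42 := fun ha : T.alt a x y p s = true => cA0_9226_8 (T.okA0 (T.n5 hN (.cons_cons _ (.cons_cons _ (.cons_cons _ (.cons _ (.cons_cons _ (.cons_cons _ (List.nil_sublist _)))))))) ha)
  have g43 := csp_530_512 (T.sp5 hN (.cons_cons _ (.cons_cons _ (.cons_cons _ (.cons_cons _ (.cons_cons _ (.cons_cons _ (List.nil_sublist _))))))))
  have g44 := cg_2336_288 hg1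
  have g45 := cg_4_0 hg1
  have g46 := fun ha : T.alt a y s z p = true => cA2_18448_2064 (T.okA2 (T.n5 hN (.cons_cons _ (.cons _ (.cons_cons _ (.cons_cons _ (.cons_cons _ (.cons_cons _ (List.nil_sublist _)))))))) ha)
  have g47 := fun ha : T.alt a x z y s = true => c5a_4172_12 (T.okA1 (T.n5 hN (.cons_cons _ (.cons_cons _ (.cons_cons _ (.cons_cons _ (.cons _ (.cons_cons _ (List.nil_sublist _)))))))) ha)
  have g48 := fun ha : T.alt a y z p s = true => cA0_10241_10240 (T.okA0 (T.n5 hN (.cons_cons _ (.cons _ (.cons_cons _ (.cons_cons _ (.cons_cons _ (.cons_cons _ (List.nil_sublist _)))))))) ha)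
  have g49 := cg_6176_6144 hg2
  have g50 := fun ha : T.alt a x p z s = true => c5a_2084_2052 (T.okA1 (T.n5 hN (.cons_cons _ (.cons_cons _ (.cons _ (.cons_cons _ (.cons_cons _ (.cons_cons _ (List.nil_sublist _)))))))) ha)
  have s51 : T.alt a x z y s = true → T.X a s x y = true → T.X a x z s = false → T.X x y z s = true → False := fun n1 n2 n3 n4 => by
    have u1 : T.X a y x z = false := bf (fun t => g4 t)
    exact g8 n1 u1 n2 n3 h3 n4
  have s52 : T.X a x p s = true → False := fun n1 => by
    exact g10 h1 h3 n1 h2
  have s53 : T.alt a y z p s = true → T.X a z y s = true → T.X y s z p = false → False := fun n1 n2 n3 => by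
    exact g11 n1 n2 h2 n3
  have s54 : T.alt a x y p s = true → T.X a p x y = false → T.X a s x y = false → T.X a y p s = false → T.X x p y s = true → False := fun n1 n2 n3 n4 n5 => by
    have u1 : T.X a x p s = false := bf (fun t => s52 t)
    exact g13 n1 n2 n3 u1 n4 n5
  have s55 : T.X x p z s = true → False := fun n1 => by
    exact g16 h1 h3 h2 n1
  have s56 : T.X a z y p = false → T.X x z y p = false → False := fun n1 n2 => by
    exact g17 h1 n1 n2
  have s57 : T.X a y z p = true → False := fun n1 => by
    exact g20 h1 n1
  have s58 : T.alt a x z y s = true → T.X a z x y = true → T.X a x z s = false → T.X a z y s = true → T.X x z y s = true → False := fun n1 n2 n3 n4 n5 => by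
    exact g21 n1 n2 n3 h3 n4 n5
  have s59 : T.X a y p s = true → T.X y s z p = true → False := fun n1 n2 => by
    have u1 : T.X a y z p = false := bf (fun t => s57 t)
    exact g22 u1 n1 h2 n2
  have s60 : T.X x y z p = true → False := fun n1 => by
    exact g23 h1 n1
  have s61 : T.X a x z s = true → False := fun n1 => by
    exact g25 h1 n1 h2
  have s62 : T.alt a x z y p = true → T.X a z x y = true → T.X a p x y = false → False := fun n1 n2 n3 => by
    exact g27 n1 n2 n3 h1
  have s63 : T.X x y z s = true → T.X x p y s = true → T.X y s z p = false → False := fun n1 n2 n3 => by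
    have u1 : T.X x y z p = false := bf (fun t => s60 t)
    have u2 : T.X x p z s = false := bf (fun t => s55 t)
    exact g29 u1 n1 n2 u2 n3
  have s64 : T.X x p y z = true → False := fun n1 => by
    exact g30 h1 n1
  have s65 : T.X a z y s = false → T.X x z y s = true → False := fun n1 n2 => by
    exact g31 h3 n1 n2
  have s66 : T.alt a y z p s = true → T.X a p y s = false → T.X y s z p = false → False := fun n1 n2 n3 => by
    have u1 : T.X a y z p = false := bf (fun t => s57 t)
    exact g32 n1 u1 n2 h2 n3
  have s67 : T.alt a x z y s = true → T.X a x y s = false → T.X a z y s = false → T.X x z y s = false → False := fun n1 n2 n3 n4 => by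
    have u1 : T.X a y x z = false := bf (fun t => g4 t)
    exact g33 n1 u1 n2 h3 n3 n4
  have s68 : T.X x y z s = true → T.X x p y s = false → T.X y s z p = true → False := fun n1 n2 n3 => by
    have u1 : T.X x y z p = false := bf (fun t => s60 t)
    have u2 : T.X x p z s = false := bf (fun t => s55 t)
    exact g34 u1 n1 n2 u2 n3
  have s69 : T.X a y x p = true → False := fun n1 => by
    exact g35 n1 h1
  have s70 : T.alt a x s z p = true → False := fun n1 => by
    exact g36 n1 h1 h3 h2
  have s71 : T.X x z p s = true → False := fun n1 => by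
    exact g37 h1 h3 h2 n1
  have s72 : T.alt a y z p s = true → T.X a z y p = true → T.X a s y z = false → False := fun n1 n2 n3 => by
    exact g40 n1 n2 n3 h2
  have s73 : T.alt a y s z p = true → T.X a p y s = true → T.X y s z p = false → False := fun n1 n2 n3 => by
    exact g41 n1 n2 h2 n3
  have s74 : T.alt a x y p s = true → T.X a x y s = true → T.X a p y s = false → T.X x p y s = false → False := fun n1 n2 n3 n4 => by
    have u1 : T.X a y x p = false := bf (fun t => s69 t)
    exact g42 n1 u1 n2 n3 n4
  have s75 : T.X a p x y = true → T.X a p y z = false → False := fun n1 n2 => by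
    exact g44 n1 h1 n2
  have s76 : T.alt a y s z p = true → T.X a z y s = true → T.X y s z p = false → False := fun n1 n2 n3 => by
    exact g46 n1 n2 h2 n3
  have s77 : T.alt a x z y s = true → T.X a x y s = true → T.X x y z s = false → False := fun n1 n2 n3 => by
    have u1 : T.X a z x y = true := bt (fun t => g45 t)
    have u2 : T.X a x z s = false := bf (fun t => s61 t)
    exact g47 n1 u1 n2 u2 n3
  have s78 : T.alt a y z p s = true → T.X y p z s = true → False := fun n1 n2 => by
    have u1 : T.X a y z p = false := bf (fun t => s57 t)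
    exact g48 n1 u1 h2 n2
  have s79 : T.alt a x p z s = true → False := fun n1 => by
    exact g50 n1 h1 h3 h2
  have s80 : T.alt a x z p s = false → False := fun n1 => by
    have u1 : T.alt a x p z s = false := bf (fun t => s79 t)
    have u2 : T.alt a x s z p = false := bf (fun t => s70 t)
    exact g26 n1 u1 u2
  have s81 : T.X x z y s = true → T.alt a x z y s = true → False := fun n1 n2 => by
    have u1 : T.X a z x y = true := bt (fun t => g45 t)
    have u2 : T.X a x z s = false := bf (fun t => s61 t)
    have u3 : T.X a z y s = true := bt (fun t => s65 t n1)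
    exact s58 n2 u1 u2 u3 n1
  have s82 : T.X a s x y = true → T.alt a x z y s = true → False := fun n1 n2 => by
    have u1 : T.X a x z s = false := bf (fun t => s61 t)
    have u2 : T.X x z y s = false := bf (fun t => s81 t n2)
    have u3 : T.X x y z s = false := bf (fun t => s51 n2 n1 u1 t)
    have u4 : T.X a x y s = false := bf (fun t => s77 n2 t u3)
    have u5 : T.X a z y s = false := bf (fun t => g9 n1 t u2)
    exact s67 n2 u4 u5 u2
  have s83 : T.X y s z p = true → T.alt a y s z p = true → False := fun n1 n2 => by
    have u1 : T.X a x z s = false := bf (fun t => s61 t)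
    have u2 : T.X x y z p = false := bf (fun t => s60 t)
    have u3 : T.X a z x y = true := bt (fun t => g45 t)
    have u4 : T.alt a x z p s = true := bt (fun t => s80 t)
    have u5 : T.alt a x y z p = true := bt (fun t => g38 t u4 n2)
    have u6 : T.X a p x y = false := bf (fun t => g5 u5 u3 t u2)
    have u7 : T.alt a x z y p = false := bf (fun t => s62 t u3 u6)
    have u8 : T.alt a x z y s = true := bt (fun t => g43 u7 t u4)
    have u9 : T.X a s x y = false := bf (fun t => s82 t u8)
    have u10 : T.X x y z s = true := bt (fun t => g14 u8 u3 u9 u1 t)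
    have u11 : T.alt a x y p s = true := bt (fun t => g39 t u4 n2)
    have u12 : T.X a y p s = false := bf (fun t => s59 t n1)
    have u13 : T.X x p y s = false := bf (fun t => s54 u11 u6 u9 u12 t)
    exact s68 u10 u13 n1
  have s84 : T.alt a x y z s = true → T.alt a x z y s = true → False := fun n1 n2 => by
    have u1 : T.X a x z s = false := bf (fun t => s61 t)
    have u2 : T.X a z x y = true := bt (fun t => g45 t)
    have u3 : T.X a s x y = false := bf (fun t => s82 t n2)
    have u4 : T.X x y z s = true := bt (fun t => g14 n2 u2 u3 u1 t)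
    have u5 : T.X x z y s = false := bf (fun t => s81 t n2)
    have u6 : T.X a x y s = false := bf (fun t => g12 n1 u2 t u1 u4)
    have u7 : T.X a z y s = true := bt (fun t => s67 n2 u6 t u5)
    exact g6 n1 u6 u3 u7 u4
  have s85 : T.alt a y s z p = true → False := fun n1 => by
    have u1 : T.X x y z p = false := bf (fun t => s60 t)
    have u2 : T.alt a x z p s = true := bt (fun t => s80 t)
    have u3 : T.X a x z s = false := bf (fun t => s61 t)
    have u4 : T.X a z x y = true := bt (fun t => g45 t)
    have u5 : T.alt a x y z p = true := bt (fun t => g38 t u2 n1)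
    have u6 : T.alt a x y p s = true := bt (fun t => g39 t u2 n1)
    have u7 : T.X a p x y = false := bf (fun t => g5 u5 u4 t u1)
    have u8 : T.alt a x z y p = false := bf (fun t => s62 t u4 u7)
    have u9 : T.alt a x z y s = true := bt (fun t => g43 u8 t u2)
    have u10 : T.X x z y s = false := bf (fun t => s81 t u9)
    have u11 : T.X a s x y = false := bf (fun t => s82 t u9)
    have u12 : T.X x y z s = true := bt (fun t => g14 u9 u4 u11 u3 t)
    have u13 : T.X y s z p = false := bf (fun t => s83 t n1)
    have u14 : T.X x p y s = false := bf (fun t => s63 u12 t u13)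
    have u15 : T.X a p y s = false := bf (fun t => s73 n1 t u13)
    have u16 : T.X a z y s = false := bf (fun t => s76 n1 t u13)
    have u17 : T.X a x y s = false := bf (fun t => s74 u6 t u15 u14)
    exact s67 u9 u17 u16 u10
  have s86 : T.alt a x z y p = true → False := fun n1 => by
    have u1 : T.X x p y z = false := bf (fun t => s64 t)
    have u2 : T.X a z x y = true := bt (fun t => g45 t)
    have u3 : T.X a p y z = false := bf (fun t => g7 n1 u2 t u1)
    have u4 : T.X a p x y = true := bt (fun t => s62 n1 u2 t)
    exact s75 u4 u3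
  have s87 : T.alt a x z y s = false → False := fun n1 => by
    have u1 : T.alt a x z y p = false := bf (fun t => s86 t)
    have u2 : T.alt a x z p s = true := bt (fun t => s80 t)
    exact g43 u1 n1 u2
  have s88 : T.alt a x p y s = false → False := fun n1 => by
    have u1 : T.alt a x z y p = false := bf (fun t => s86 t)
    have u2 : T.alt a x z p s = true := bt (fun t => s80 t)
    have u3 : T.alt a y s z p = false := bf (fun t => s85 t)
    exact g19 u1 n1 u2 u3
  have s89 : T.X x z y s = true → False := fun n1 => by
    have u1 : T.alt a x z y s = true := bt (fun t => s87 t)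
    exact s81 n1 u1
  have s90 : T.X a s x y = true → False := fun n1 => by
    have u1 : T.alt a x z y s = true := bt (fun t => s87 t)
    exact s82 n1 u1
  have s91 : T.alt a x y z s = true → False := fun n1 => by
    have u1 : T.alt a x z y s = true := bt (fun t => s87 t)
    exact s84 n1 u1
  have s92 : T.alt a y z p s = false → False := fun n1 => by
    have u1 : T.alt a x y z s = false := bf (fun t => s91 t)
    have u2 : T.alt a x z p s = true := bt (fun t => s80 t)
    have u3 : T.alt a y s z p = false := bf (fun t => s85 t)
    exact g15 u1 u2 n1 u3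
  have s93 : T.X y p z s = true → False := fun n1 => by
    have u1 : T.alt a y z p s = true := bt (fun t => s92 t)
    exact s78 u1 n1
  have s94 : T.X x z y p = true → T.X x y z s = true → False := fun n1 n2 => by
    have u1 : T.alt a x p y s = true := bt (fun t => s88 t)
    have u2 : T.alt a x z y s = true := bt (fun t => s87 t)
    have u3 : T.X x z y s = false := bf (fun t => s89 t)
    have u4 : T.alt a y z p s = true := bt (fun t => s92 t)
    have u5 : T.X x z p s = false := bf (fun t => s71 t)
    have u6 : T.X y p z s = false := bf (fun t => s93 t)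
    have u7 : T.X y s z p = false := bf (fun t => g18 n1 n2 t)
    have u8 : T.X x y p s = true := bt (fun t => g28 n1 n2 t u5 u6)
    have u9 : T.X a z y s = false := bf (fun t => s53 u4 t u7)
    have u10 : T.X a p y s = true := bt (fun t => s66 u4 t u7)
    have u11 : T.X a x y s = true := bt (fun t => s67 u2 t u9 u3)
    exact g24 u1 u11 u10 u8
  have s95 : T.X x y z s = true → False := fun n1 => by
    have u1 : T.X a s x y = false := bf (fun t => s90 t)
    have u2 : T.alt a y z p s = true := bt (fun t => s92 t)
    have u3 : T.X a s y z = false := bf (fun t => g49 u1 t n1)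
    have u4 : T.X a z y p = false := bf (fun t => s72 u2 t u3)
    have u5 : T.X x z y p = true := bt (fun t => s56 u4 t)
    exact s94 u5 n1
  have u1 : T.X a s x y = false := bf (fun t => s90 t)
  have u2 : T.X x y z s = false := bf (fun t => s95 t)
  have u3 : T.X a z x y = true := bt (fun t => g45 t)
  have u4 : T.X a x z s = false := bf (fun t => s61 t)
  have u5 : T.alt a x z y s = true := bt (fun t => s87 t)
  exact g14 u5 u3 u1 u4 u2

theorem fc5_f {a x y z p q : V} (hN : [a, x, y, z, p, q].Nodup)
    (hg1 : T.Okg a x y z p)
    (hg2 : T.Okg a x y z q)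
    (h1 : T.X a p x z = true)
    (h2 : T.X a q x z = true)
    (h3 : T.X a y p q = true)
    (h5 : T.X a x p q = false)
    (h6 : T.X a z p q = false) : False := by
  have g6 := c5_6160_6160 (T.n5 hN (.cons _ (.cons_cons _ (.cons_cons _ (.cons_cons _ (.cons_cons _ (.cons_cons _ (List.nil_sublist _))))))))
  have g7 := c5_7716_4132 (T.n5 hN (.cons_cons _ (.cons_cons _ (.cons _ (.cons_cons _ (.cons_cons _ (.cons_cons _ (List.nil_sublist _))))))))
  have g8 := c5_5196_68 (T.n5 hN (.cons_cons _ (.cons _ (.cons_cons _ (.cons_cons _ (.cons_cons _ (.cons_cons _ (List.nil_sublist _))))))))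
  have g9 := fun ha : T.alt a x q z p = true => cA2_18577_0 (T.okA2 (T.n5 hN (.cons_cons _ (.cons_cons _ (.cons _ (.cons_cons _ (.cons_cons _ (.cons_cons _ (List.nil_sublist _)))))))) ha)
  have g10 := fun ha : T.alt a x z y q = true => c5a_9476_8452 (T.okA1 (T.n5 hN (.cons_cons _ (.cons_cons _ (.cons_cons _ (.cons_cons _ (.cons _ (.cons_cons _ (List.nil_sublist _)))))))) ha)
  have g11 := cg_272_272 hg2
  have g12 := cg_1288_264 hg2
  have g13 := cg_16640_16640 hg2
  have g14 := fun ha : T.alt a x y p q = true => cA0_770_768 (T.okA0 (T.n5 hN (.cons_cons _ (.cons_cons _ (.cons_cons _ (.cons _ (.cons_cons _ (.cons_cons _ (List.nil_sublist _)))))))) ha)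
  have g15 := fun ha : T.alt a y q z p = true => cA2_578_66 (T.okA2 (T.n5 hN (.cons_cons _ (.cons _ (.cons_cons _ (.cons_cons _ (.cons_cons _ (.cons_cons _ (List.nil_sublist _)))))))) ha)
  have g16 := fun ha : T.alt a x y z q = true => cA0_10241_10240 (T.okA0 (T.n5 hN (.cons_cons _ (.cons_cons _ (.cons_cons _ (.cons_cons _ (.cons _ (.cons_cons _ (List.nil_sublist _)))))))) ha)
  have g17 := csp_8481_8448 (T.sp5 hN (.cons_cons _ (.cons_cons _ (.cons_cons _ (.cons_cons _ (.cons_cons _ (.cons_cons _ (List.nil_sublist _))))))))
  have g18 := c5_4898_544 (T.n5 hN (.cons_cons _ (.cons_cons _ (.cons_cons _ (.cons _ (.cons_cons _ (.cons_cons _ (List.nil_sublist _))))))))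
  have g19 := fun ha : T.alt a y p z q = true => c5a_578_66 (T.okA1 (T.n5 hN (.cons_cons _ (.cons _ (.cons_cons _ (.cons_cons _ (.cons_cons _ (.cons_cons _ (List.nil_sublist _)))))))) ha)
  have g20 := fun ha : T.alt a x p y z = true => cA2_2308_260 (T.okA2 (T.n5 hN (.cons_cons _ (.cons_cons _ (.cons_cons _ (.cons_cons _ (.cons_cons _ (List.nil_sublist _))))))) ha)
  have g21 := cg_384_384 hg2
  have g22 := fun ha : T.alt a x y z p = true => cA0_4132_36 (T.okA0 (T.n5 hN (.cons_cons _ (.cons_cons _ (.cons_cons _ (.cons_cons _ (.cons_cons _ (List.nil_sublist _))))))) ha)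
  have g23 := fun ha : T.alt a y q z p = true => cA2_592_80 (T.okA2 (T.n5 hN (.cons_cons _ (.cons _ (.cons_cons _ (.cons_cons _ (.cons_cons _ (.cons_cons _ (List.nil_sublist _)))))))) ha)
  have g24 := c5_4756_516 (T.n5 hN (.cons_cons _ (.cons_cons _ (.cons_cons _ (.cons _ (.cons_cons _ (.cons_cons _ (List.nil_sublist _))))))))
  have g25 := fun ha : T.alt a y q z p = true => cA2_1089_1088 (T.okA2 (T.n5 hN (.cons_cons _ (.cons _ (.cons_cons _ (.cons_cons _ (.cons_cons _ (.cons_cons _ (List.nil_sublist _)))))))) ha)
  have g26 := csp_8450_8192 (T.sp5 hN (.cons_cons _ (.cons_cons _ (.cons_cons _ (.cons_cons _ (.cons_cons _ (.cons_cons _ (List.nil_sublist _))))))))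
  have g27 := cg_1288_264 hg1
  have g28 := cg_4_0 hg1
  have g29 := c5_4674_4162 (T.n5 hN (.cons _ (.cons_cons _ (.cons_cons _ (.cons_cons _ (.cons_cons _ (.cons_cons _ (List.nil_sublist _))))))))
  have g30 := cg_4352_4352 hg1
  have g31 := fun ha : T.alt a x z p q = true => cA0_3108_36 (T.okA0 (T.n5 hN (.cons_cons _ (.cons_cons _ (.cons _ (.cons_cons _ (.cons_cons _ (.cons_cons _ (List.nil_sublist _)))))))) ha)
  have g32 := fun ha : T.alt a x q y z = true => cA2_292_260 (T.okA2 (T.n5 hN (.cons_cons _ (.cons_cons _ (.cons_cons _ (.cons_cons _ (.cons _ (.cons_cons _ (List.nil_sublist _)))))))) ha)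
  have g33 := cg_9472_256 hg2
  have g34 := csp_25152_0 (T.sp5 hN (.cons_cons _ (.cons_cons _ (.cons_cons _ (.cons_cons _ (.cons_cons _ (.cons_cons _ (List.nil_sublist _))))))))
  have g35 := fun ha : T.alt a x p y z = true => cA2_292_260 (T.okA2 (T.n5 hN (.cons_cons _ (.cons_cons _ (.cons_cons _ (.cons_cons _ (.cons_cons _ (List.nil_sublist _))))))) ha)
  have g36 := fun ha : T.alt a x p y z = true => cA2_8452_260 (T.okA2 (T.n5 hN (.cons_cons _ (.cons_cons _ (.cons_cons _ (.cons_cons _ (.cons_cons _ (List.nil_sublist _))))))) ha)
  have g37 := cg_768_768 hg1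
  have g38 := csp_4610_4098 (T.sp5 hN (.cons_cons _ (.cons_cons _ (.cons_cons _ (.cons_cons _ (.cons_cons _ (.cons_cons _ (List.nil_sublist _))))))))
  have g39 := csp_16412_16384 (T.sp5 hN (.cons_cons _ (.cons_cons _ (.cons_cons _ (.cons_cons _ (.cons_cons _ (.cons_cons _ (List.nil_sublist _))))))))
  have g40 := cg_320_320 hg1
  have g41 := T.ae1 (T.n5 hN (.cons_cons _ (.cons _ (.cons_cons _ (.cons_cons _ (.cons_cons _ (.cons_cons _ (List.nil_sublist _))))))))
  have g42 := cg_272_272 hg1
  have g43 := cg_9472_256 hg1
  have g44 := csp_24612_0 (T.sp5 hN (.cons_cons _ (.cons_cons _ (.cons_cons _ (.cons_cons _ (.cons_cons _ (.cons_cons _ (List.nil_sublist _))))))))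
  have g45 := fun ha : T.alt a y p z q = true => c5a_8776_8256 (T.okA1 (T.n5 hN (.cons_cons _ (.cons _ (.cons_cons _ (.cons_cons _ (.cons_cons _ (.cons_cons _ (List.nil_sublist _)))))))) ha)
  have g46 := c5_4498_4114 (T.n5 hN (.cons _ (.cons_cons _ (.cons_cons _ (.cons_cons _ (.cons_cons _ (.cons_cons _ (List.nil_sublist _))))))))
  have g47 := fun ha : T.alt a y q z p = true => cA2_4704_64 (T.okA2 (T.n5 hN (.cons_cons _ (.cons _ (.cons_cons _ (.cons_cons _ (.cons_cons _ (.cons_cons _ (List.nil_sublist _)))))))) ha)
  have g48 := fun ha : T.alt a y p z q = true => c5a_16960_16448 (T.okA1 (T.n5 hN (.cons_cons _ (.cons _ (.cons_cons _ (.cons_cons _ (.cons_cons _ (.cons_cons _ (List.nil_sublist _)))))))) ha)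
  have g49 := fun ha : T.alt a x q y p = true => cA2_4676_512 (T.okA2 (T.n5 hN (.cons_cons _ (.cons_cons _ (.cons_cons _ (.cons _ (.cons_cons _ (.cons_cons _ (List.nil_sublist _)))))))) ha)
  have g50 := c5_8778_8704 (T.n5 hN (.cons_cons _ (.cons_cons _ (.cons_cons _ (.cons _ (.cons_cons _ (.cons_cons _ (List.nil_sublist _))))))))
  have g51 := fun ha : T.alt a x z y p = true => c5a_9476_8452 (T.okA1 (T.n5 hN (.cons_cons _ (.cons_cons _ (.cons_cons _ (.cons_cons _ (.cons_cons _ (List.nil_sublist _))))))) ha)
  have g52 := c5_16977_16896 (T.n5 hN (.cons_cons _ (.cons_cons _ (.cons_cons _ (.cons _ (.cons_cons _ (.cons_cons _ (List.nil_sublist _))))))))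
  have g53 := cg_768_768 hg2
  have g54 := fun ha : T.alt a x y p q = true => cA0_656_640 (T.okA0 (T.n5 hN (.cons_cons _ (.cons_cons _ (.cons_cons _ (.cons _ (.cons_cons _ (.cons_cons _ (List.nil_sublist _)))))))) ha)
  have g55 := fun ha : T.alt a y z p q = true => cA0_1096_1088 (T.okA0 (T.n5 hN (.cons_cons _ (.cons _ (.cons_cons _ (.cons_cons _ (.cons_cons _ (.cons_cons _ (List.nil_sublist _)))))))) ha)
  have g56 := c5_24658_82 (T.n5 hN (.cons _ (.cons_cons _ (.cons_cons _ (.cons_cons _ (.cons_cons _ (.cons_cons _ (List.nil_sublist _))))))))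
  have g57 := fun ha : T.alt a x q y z = true => cA2_8452_260 (T.okA2 (T.n5 hN (.cons_cons _ (.cons_cons _ (.cons_cons _ (.cons_cons _ (.cons _ (.cons_cons _ (List.nil_sublist _)))))))) ha)
  have g58 := fun ha : T.alt a x q y p = true => cA2_4640_544 (T.okA2 (T.n5 hN (.cons_cons _ (.cons_cons _ (.cons_cons _ (.cons _ (.cons_cons _ (.cons_cons _ (List.nil_sublist _)))))))) ha)
  have g59 := c5_6241_2112 (T.n5 hN (.cons _ (.cons_cons _ (.cons_cons _ (.cons_cons _ (.cons_cons _ (.cons_cons _ (List.nil_sublist _))))))))
  have g60 := csp_18438_0 (T.sp5 hN (.cons_cons _ (.cons_cons _ (.cons_cons _ (.cons_cons _ (.cons_cons _ (.cons_cons _ (List.nil_sublist _))))))))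
  have g61 := cg_1_1 hg1
  have g62 := fun ha : T.alt a y p z q = true => c5a_592_80 (T.okA1 (T.n5 hN (.cons_cons _ (.cons _ (.cons_cons _ (.cons_cons _ (.cons_cons _ (.cons_cons _ (List.nil_sublist _)))))))) ha)
  have g63 := fun ha : T.alt a y z p q = true => cA0_2113_2112 (T.okA0 (T.n5 hN (.cons_cons _ (.cons _ (.cons_cons _ (.cons_cons _ (.cons_cons _ (.cons_cons _ (List.nil_sublist _)))))))) ha)
  have s64 : T.X a p z q = false → T.X a q z p = false → T.X x z p q = true → False := fun n1 n2 n3 => by
    exact g7 h1 h2 h6 n1 n2 n3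
  have s65 : T.X a p y z = true → T.X a y z q = false → T.X a p z q = false → T.X y z p q = false → False := fun n1 n2 n3 n4 => by
    exact g8 n1 n2 h3 n3 n4
  have s66 : T.alt a x z y q = true → T.X a z x y = true → T.X a z y q = false → T.X x z y q = true → False := fun n1 n2 n3 n4 => by
    exact g10 n1 n2 h2 n3 n4
  have s67 : T.X a y x q = true → False := fun n1 => by
    exact g11 n1 h2
  have s68 : T.X a x y q = true → T.X a z y q = false → False := fun n1 n2 => by
    exact g12 n1 h2 n2
  have s69 : T.X x q y z = true → False := fun n1 => by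
    exact g13 h2 n1
  have s70 : T.alt a x y p q = true → T.X a y x p = false → T.X a q x p = true → False := fun n1 n2 n3 => by
    exact g14 n1 n2 n3 h3
  have s71 : T.alt a y q z p = true → T.X a z y p = true → False := fun n1 n2 => by
    exact g15 n1 n2 h3 h6
  have s72 : T.X a y x p = false → T.X a q x y = true → T.X a q x p = false → T.X x y p q = false → False := fun n1 n2 n3 n4 => by
    exact g18 n1 n2 n3 h3 n4
  have s73 : T.alt a y p z q = true → T.X a z y p = true → False := fun n1 n2 => by
    exact g19 n1 n2 h3 h6
  have s74 : T.alt a x p y z = true → T.X a z x y = true → T.X a p y z = false → False := fun n1 n2 n3 => by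
    exact g20 n1 n2 h1 n3
  have s75 : T.X a z x q = true → False := fun n1 => by
    exact g21 n1 h2
  have s76 : T.alt a y q z p = true → T.X a z y q = true → False := fun n1 n2 => by
    exact g23 n1 n2 h3 h6
  have s77 : T.X a p x y = true → T.X a p x q = false → T.X x y p q = false → False := fun n1 n2 n3 => by
    have u1 : T.X a y x q = false := bf (fun t => s67 t)
    exact g24 n1 u1 n2 h3 n3
  have s78 : T.alt a y q z p = true → T.X a y z p = false → T.X a p z q = true → False := fun n1 n2 n3 => by
    exact g25 n1 n2 h3 n3
  have s79 : T.X a x y p = true → T.X a z y p = false → False := fun n1 n2 => by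
    exact g27 n1 h1 n2
  have s80 : T.X x y z p = true → False := fun n1 => by
    exact g30 h1 n1
  have s81 : T.alt a x z p q = true → T.X a p z q = false → T.X a q z p = false → False := fun n1 n2 n3 => by
    exact g31 n1 h1 h2 n2 n3
  have s82 : T.alt a x q y z = true → T.X a q x y = false → False := fun n1 n2 => by
    have u1 : T.X a z x y = true := bt (fun t => g28 t)
    exact g32 n1 u1 n2 h2
  have s83 : T.X a z y q = false → T.X x z y q = false → False := fun n1 n2 => by
    exact g33 h2 n1 n2
  have s84 : T.alt a x p y z = true → T.X a p x y = false → False := fun n1 n2 => by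
    have u1 : T.X a z x y = true := bt (fun t => g28 t)
    exact g35 n1 u1 n2 h1
  have s85 : T.alt a x p y z = true → T.X x z y p = false → False := fun n1 n2 => by
    have u1 : T.X a z x y = true := bt (fun t => g28 t)
    exact g36 n1 u1 h1 n2
  have s86 : T.X a y z p = true → False := fun n1 => by
    exact g37 h1 n1
  have s87 : T.X a x z p = true → False := fun n1 => by
    exact g40 n1 h1
  have s88 : T.X a y x p = true → False := fun n1 => by
    exact g42 n1 h1
  have s89 : T.X a z y p = false → T.X x z y p = false → False := fun n1 n2 => by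
    exact g43 h1 n1 n2
  have s90 : T.alt a y p z q = true → T.X a y z q = false → T.X y p z q = true → False := fun n1 n2 n3 => by
    exact g45 n1 n2 h3 h6 n3
  have s91 : T.alt a y q z p = true → T.X a q y z = false → T.X y z p q = false → False := fun n1 n2 n3 => by
    exact g47 n1 n2 h3 h6 n3
  have s92 : T.alt a y p z q = true → T.X y q z p = true → False := fun n1 n2 => by
    exact g48 n1 h3 h6 n2
  have s93 : T.alt a x q y p = true → T.X a p x y = false → T.X x y p q = false → False := fun n1 n2 n3 => by
    exact g49 n1 n2 h5 h3 n3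
  have s94 : T.X a x y q = false → T.X x p y q = true → False := fun n1 n2 => by
    have u1 : T.X a y x p = false := bf (fun t => s88 t)
    exact g50 u1 n1 h5 h3 n2
  have s95 : T.alt a x z y p = true → T.X a z y p = false → T.X x z y p = true → False := fun n1 n2 n3 => by
    have u1 : T.X a z x y = true := bt (fun t => g28 t)
    exact g51 n1 u1 h1 n2 n3
  have s96 : T.X a x y p = false → T.X x q y p = true → False := fun n1 n2 => by
    have u1 : T.X a y x q = false := bf (fun t => s67 t)
    exact g52 n1 u1 h5 h3 n2
  have s97 : T.X a y z q = true → False := fun n1 => by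
    exact g53 h2 n1
  have s98 : T.alt a x y p q = true → T.X a p x q = true → False := fun n1 n2 => by
    have u1 : T.X a y x q = false := bf (fun t => s67 t)
    exact g54 n1 u1 n2 h3
  have s99 : T.alt a y z p q = true → T.X a p z q = true → False := fun n1 n2 => by
    have u1 : T.X a y z q = false := bf (fun t => s97 t)
    exact g55 n1 u1 h3 n2
  have s100 : T.alt a x q y z = true → T.X x z y q = false → False := fun n1 n2 => by
    have u1 : T.X a z x y = true := bt (fun t => g28 t)
    exact g57 n1 u1 h2 n2
  have s101 : T.alt a x q y p = true → T.X a q x y = true → T.X x y p q = false → False := fun n1 n2 n3 => by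
    exact g58 n1 n2 h3 n3
  have s102 : T.X x y p q = true → T.X x q z p = true → T.X y z p q = false → False := fun n1 n2 n3 => by
    have u1 : T.X x y z p = false := bf (fun t => s80 t)
    have u2 : T.X x q y z = false := bf (fun t => s69 t)
    exact g59 u1 u2 n1 n2 n3
  have s103 : T.alt a y p z q = true → T.X a z y q = true → False := fun n1 n2 => by
    exact g62 n1 n2 h3 h6
  have s104 : T.alt a y z p q = true → T.X a q z p = true → False := fun n1 n2 => by
    have u1 : T.X a y z p = false := bf (fun t => s86 t)
    exact g63 n1 u1 h3 n2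
  have s105 : T.alt a y q z p = true → False := fun n1 => by
    have u1 : T.X a y z p = false := bf (fun t => s86 t)
    have u2 : T.X a y z q = false := bf (fun t => s97 t)
    have u3 : T.X a z x y = true := bt (fun t => g28 t)
    have u4 : T.X a x y z = false := bf (fun t => g61 t)
    have u5 : T.X a z y p = false := bf (fun t => s71 n1 t)
    have u6 : T.X a z y q = false := bf (fun t => s76 n1 t)
    have u7 : T.X a p z q = false := bf (fun t => s78 n1 u1 t)
    have u8 : T.X a x y p = false := bf (fun t => s79 t u5)
    have u9 : T.X x z y p = true := bt (fun t => s89 u5 t)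
    have u10 : T.X a x y q = false := bf (fun t => s68 t u6)
    have u11 : T.X x z y q = true := bt (fun t => s83 u6 t)
    have u12 : T.X x q y p = false := bf (fun t => s96 u8 t)
    have u13 : T.X x p y q = false := bf (fun t => s94 u10 t)
    have u14 : T.X y z p q = false := bf (fun t => g46 u9 u11 u13 u12 t)
    have u15 : T.alt a x z y q = false := bf (fun t => s66 t u3 u6 u11)
    have u16 : T.X a p y z = false := bf (fun t => s65 t u2 u7 u14)
    have u17 : T.X a q y z = true := bt (fun t => s91 n1 t u14)
    have u18 : T.alt a x p y z = false := bf (fun t => s74 t u3 u16)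
    have u19 : T.alt a x y z q = false := bf (fun t => g16 t u4 u17 u11)
    exact g39 u18 u19 u15 n1
  have s106 : T.alt a y p z q = true → False := fun n1 => by
    have u1 : T.X a y z q = false := bf (fun t => s97 t)
    have u2 : T.X x y z p = false := bf (fun t => s80 t)
    have u3 : T.X a z x y = true := bt (fun t => g28 t)
    have u4 : T.X a z y p = false := bf (fun t => s73 n1 t)
    have u5 : T.X y p z q = false := bf (fun t => s90 n1 u1 t)
    have u6 : T.X y q z p = false := bf (fun t => s92 n1 t)
    have u7 : T.X a z y q = false := bf (fun t => s103 n1 t)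
    have u8 : T.X x z y p = true := bt (fun t => s89 u4 t)
    have u9 : T.X x z y q = true := bt (fun t => s83 u7 t)
    have u10 : T.alt a x z y p = false := bf (fun t => s95 t u4 u8)
    have u11 : T.X x y p q = false := bf (fun t => g56 u8 u9 t u5 u6)
    have u12 : T.alt a x q y p = true := bt (fun t => g26 u10 t n1)
    have u13 : T.X a p x y = true := bt (fun t => s93 u12 t u11)
    have u14 : T.X a q x y = false := bf (fun t => s101 u12 t u11)
    have u15 : T.alt a x y z p = false := bf (fun t => g22 t u3 u13 u2)
    have u16 : T.alt a x q y z = false := bf (fun t => s82 t u14)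
    exact g17 u15 u16 u12 n1
  have s107 : T.alt a y z p q = false → False := fun n1 => by
    have u1 : T.alt a y p z q = false := bf (fun t => s106 t)
    have u2 : T.alt a y q z p = false := bf (fun t => s105 t)
    exact g41 n1 u1 u2
  have s108 : T.X a p z q = true → False := fun n1 => by
    have u1 : T.alt a y z p q = true := bt (fun t => s107 t)
    exact s99 u1 n1
  have s109 : T.X a q z p = true → False := fun n1 => by
    have u1 : T.alt a y z p q = true := bt (fun t => s107 t)
    exact s104 u1 n1
  have s110 : T.X x z p q = true → False := fun n1 => by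
    have u1 : T.X a q z p = false := bf (fun t => s109 t)
    have u2 : T.X a p z q = false := bf (fun t => s108 t)
    exact s64 u2 u1 n1
  have s111 : T.alt a x z p q = true → False := fun n1 => by
    have u1 : T.X a q z p = false := bf (fun t => s109 t)
    have u2 : T.X a p z q = false := bf (fun t => s108 t)
    exact s81 n1 u2 u1
  have s112 : T.alt a x y p q = false → False := fun n1 => by
    have u1 : T.alt a x z p q = false := bf (fun t => s111 t)
    have u2 : T.alt a y p z q = false := bf (fun t => s106 t)
    have u3 : T.alt a y q z p = false := bf (fun t => s105 t)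
    exact g34 n1 u1 u2 u3
  have s113 : T.alt a x z y p = true → False := fun n1 => by
    have u1 : T.alt a x z p q = false := bf (fun t => s111 t)
    have u2 : T.alt a y z p q = true := bt (fun t => s107 t)
    exact g38 n1 u1 u2
  have s114 : T.X a q x p = true → False := fun n1 => by
    have u1 : T.alt a x y p q = true := bt (fun t => s112 t)
    have u2 : T.X a y x p = false := bf (fun t => s88 t)
    exact s70 u1 u2 n1
  have s115 : T.X a p x q = true → False := fun n1 => by
    have u1 : T.alt a x y p q = true := bt (fun t => s112 t)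
    exact s98 u1 n1
  have s116 : T.alt a x p y z = true → False := fun n1 => by
    have u1 : T.X a z x y = true := bt (fun t => g28 t)
    have u2 : T.X a p z q = false := bf (fun t => s108 t)
    have u3 : T.X a y z q = false := bf (fun t => s97 t)
    have u4 : T.X a p x q = false := bf (fun t => s115 t)
    have u5 : T.X x z p q = false := bf (fun t => s110 t)
    have u6 : T.X a p y z = true := bt (fun t => s74 n1 u1 t)
    have u7 : T.X a p x y = true := bt (fun t => s84 n1 t)
    have u8 : T.X x z y p = true := bt (fun t => s85 n1 t)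
    have u9 : T.X y z p q = true := bt (fun t => s65 u6 u3 u2 t)
    have u10 : T.X x y p q = true := bt (fun t => s77 u7 u4 t)
    exact g29 u8 u10 u5 u9
  have s117 : T.alt a x q y z = false → False := fun n1 => by
    have u1 : T.alt a x p y z = false := bf (fun t => s116 t)
    have u2 : T.alt a y p z q = false := bf (fun t => s106 t)
    have u3 : T.alt a y q z p = false := bf (fun t => s105 t)
    exact g44 u1 n1 u2 u3
  have s118 : T.X a q x y = false → False := fun n1 => by
    have u1 : T.alt a x q y z = true := bt (fun t => s117 t)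
    exact s82 u1 n1
  have s119 : T.X x z y q = false → False := fun n1 => by
    have u1 : T.alt a x q y z = true := bt (fun t => s117 t)
    exact s100 u1 n1
  have s120 : T.X x y p q = false → False := fun n1 => by
    have u1 : T.X a q x y = true := bt (fun t => s118 t)
    have u2 : T.X a y x p = false := bf (fun t => s88 t)
    have u3 : T.X a q x p = false := bf (fun t => s114 t)
    exact s72 u2 u1 u3 n1
  have s121 : T.X x q z p = true → False := fun n1 => by
    have u1 : T.X x z y q = true := bt (fun t => s119 t)
    have u2 : T.X x y p q = true := bt (fun t => s120 t)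
    have u3 : T.X y z p q = false := bf (fun t => g6 u1 n1 t)
    exact s102 u2 n1 u3
  have s122 : T.alt a x q z p = false → False := fun n1 => by
    have u1 : T.alt a x p y z = false := bf (fun t => s116 t)
    have u2 : T.alt a y q z p = false := bf (fun t => s105 t)
    have u3 : T.alt a x z y p = false := bf (fun t => s113 t)
    exact g60 u3 u1 n1 u2
  have u1 : T.alt a x q z p = true := bt (fun t => s122 t)
  have u2 : T.X x q z p = false := bf (fun t => s121 t)
  have u3 : T.X a z x q = false := bf (fun t => s75 t)
  have u4 : T.X a x z p = false := bf (fun t => s87 t)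
  have u5 : T.X a q z p = false := bf (fun t => s109 t)
  have u6 : T.X a p x q = false := bf (fun t => s115 t)
  exact g9 u1 u4 u3 u6 u5 u2

theorem fc_f {a x y z p q s : V} (hN : [a, x, y, z, p, q, s].Nodup)
    (hg1 : T.Okg a x y z p)
    (hg2 : T.Okg a x y z q)
    (hg3 : T.Okg a x y z s)
    (h1 : T.X a p x z = true)
    (h2 : T.X a q x z = true)
    (h3 : T.X a s p q = true)
    (h4 : T.X a s x z = false)
    (h5 : T.X a x p q = false)
    (h6 : T.X a z p q = false) : False := by
  have g7 := c5_4756_4224 (T.n5 hN (.cons_cons _ (.cons_cons _ (.cons_cons _ (.cons _ (.cons_cons _ (.cons _ (.cons_cons _ (List.nil_sublist _)))))))))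
  have g8 := fun ha : T.alt a x z y q = true => c5a_18436_2052 (T.okA1 (T.n5 hN (.cons_cons _ (.cons_cons _ (.cons_cons _ (.cons_cons _ (.cons _ (.cons_cons _ (List.nil_sublist _)))))))) ha)
  have g9 := csp_4617_8 (T.sp5 hN (.cons_cons _ (.cons_cons _ (.cons_cons _ (.cons _ (.cons_cons _ (.cons_cons _ (.cons_cons _ (List.nil_sublist _)))))))))
  have g10 := fun ha : T.alt a y q z p = true => cA2_2625_64 (T.okA2 (T.n5 hN (.cons_cons _ (.cons _ (.cons_cons _ (.cons_cons _ (.cons_cons _ (.cons_cons _ (List.nil_sublist _)))))))) ha)
  have g11 := fun ha : T.alt a x z y s = true => c5a_9482_0 (T.okA1 (T.n5 hN (.cons_cons _ (.cons_cons _ (.cons_cons _ (.cons_cons _ (.cons _ (.cons _ (.cons_cons _ (List.nil_sublist _))))))))) ha)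
  have g12 := fun ha : T.alt a x p q s = true => cA0_10241_10240 (T.okA0 (T.n5 hN (.cons_cons _ (.cons_cons _ (.cons _ (.cons _ (.cons_cons _ (.cons_cons _ (.cons_cons _ (List.nil_sublist _))))))))) ha)
  have g13 := fun ha : T.alt a z p q s = true => cA0_16642_16640 (T.okA0 (T.n5 hN (.cons_cons _ (.cons _ (.cons _ (.cons_cons _ (.cons_cons _ (.cons_cons _ (.cons_cons _ (List.nil_sublist _))))))))) ha)
  have g14 := fun ha : T.alt a x z y s = true => c5a_148_20 (T.okA1 (T.n5 hN (.cons_cons _ (.cons_cons _ (.cons_cons _ (.cons_cons _ (.cons _ (.cons _ (.cons_cons _ (List.nil_sublist _))))))))) ha)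
  have g15 := csp_2336_32 (T.sp5 hN (.cons_cons _ (.cons_cons _ (.cons _ (.cons_cons _ (.cons_cons _ (.cons_cons _ (.cons_cons _ (List.nil_sublist _)))))))))
  have g16 := csp_16673_256 (T.sp5 hN (.cons_cons _ (.cons_cons _ (.cons _ (.cons_cons _ (.cons_cons _ (.cons_cons _ (.cons_cons _ (List.nil_sublist _)))))))))
  have g17 := fun ha : T.alt a y s z q = true => cA2_2625_64 (T.okA2 (T.n5 hN (.cons_cons _ (.cons _ (.cons_cons _ (.cons_cons _ (.cons _ (.cons_cons _ (.cons_cons _ (List.nil_sublist _))))))))) ha)
  have g18 := fun ha : T.alt a y q p s = true => c5a_18560_2176 (T.okA1 (T.n5 hN (.cons_cons _ (.cons _ (.cons_cons _ (.cons _ (.cons_cons _ (.cons_cons _ (.cons_cons _ (List.nil_sublist _))))))))) ha)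
  have g19 := cg_4352_4352 hg2
  have g20 := c5_2121_2120 (T.n5 hN (.cons _ (.cons_cons _ (.cons_cons _ (.cons_cons _ (.cons_cons _ (.cons _ (.cons_cons _ (List.nil_sublist _)))))))))
  have g21 := fun ha : T.alt a x s z p = true => cA2_5128_5120 (T.okA2 (T.n5 hN (.cons_cons _ (.cons_cons _ (.cons _ (.cons_cons _ (.cons_cons _ (.cons _ (.cons_cons _ (List.nil_sublist _))))))))) ha)
  have g22 := fun ha : T.alt a x q z s = true => c5a_4196_4 (T.okA1 (T.n5 hN (.cons_cons _ (.cons_cons _ (.cons _ (.cons_cons _ (.cons _ (.cons_cons _ (.cons_cons _ (List.nil_sublist _))))))))) ha)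
  have g23 := fun ha : T.alt a x q z p = true => cA2_4708_4132 (T.okA2 (T.n5 hN (.cons_cons _ (.cons_cons _ (.cons _ (.cons_cons _ (.cons_cons _ (.cons_cons _ (List.nil_sublist _)))))))) ha)
  have g24 := fun ha : T.alt a x s z q = true => cA2_4644_4 (T.okA2 (T.n5 hN (.cons_cons _ (.cons_cons _ (.cons _ (.cons_cons _ (.cons _ (.cons_cons _ (.cons_cons _ (List.nil_sublist _))))))))) ha)
  have g25 := fun ha : T.alt a y p q s = true => cA0_18561_2048 (T.okA0 (T.n5 hN (.cons_cons _ (.cons _ (.cons_cons _ (.cons _ (.cons_cons _ (.cons_cons _ (.cons_cons _ (List.nil_sublist _))))))))) ha)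
  have g26 := c5_10505_2056 (T.n5 hN (.cons_cons _ (.cons_cons _ (.cons _ (.cons _ (.cons_cons _ (.cons_cons _ (.cons_cons _ (List.nil_sublist _)))))))))
  have g27 := csp_6145_4097 (T.sp5 hN (.cons_cons _ (.cons _ (.cons_cons _ (.cons_cons _ (.cons_cons _ (.cons_cons _ (.cons_cons _ (List.nil_sublist _)))))))))
  have g28 := fun ha : T.alt a x q z p = true => cA2_9248_1056 (T.okA2 (T.n5 hN (.cons_cons _ (.cons_cons _ (.cons _ (.cons_cons _ (.cons_cons _ (.cons_cons _ (List.nil_sublist _)))))))) ha)
  have g29 := fun ha : T.alt a y q p s = true => c5a_6145_6144 (T.okA1 (T.n5 hN (.cons_cons _ (.cons _ (.cons_cons _ (.cons _ (.cons_cons _ (.cons_cons _ (.cons_cons _ (List.nil_sublist _))))))))) ha)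
  have g30 := fun ha : T.alt a y s p q = true => cA2_2369_2049 (T.okA2 (T.n5 hN (.cons_cons _ (.cons _ (.cons_cons _ (.cons _ (.cons_cons _ (.cons_cons _ (.cons_cons _ (List.nil_sublist _))))))))) ha)
  have g31 := c5_10500_10244 (T.n5 hN (.cons_cons _ (.cons_cons _ (.cons _ (.cons_cons _ (.cons_cons _ (.cons_cons _ (List.nil_sublist _))))))))
  have g32 := fun ha : T.alt a y q p s = true => c5a_2113_2112 (T.okA1 (T.n5 hN (.cons_cons _ (.cons _ (.cons_cons _ (.cons _ (.cons_cons _ (.cons_cons _ (.cons_cons _ (List.nil_sublist _))))))))) ha)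
  have g33 := csp_6145_4097 (T.sp5 hN (.cons_cons _ (.cons_cons _ (.cons_cons _ (.cons_cons _ (.cons _ (.cons_cons _ (.cons_cons _ (List.nil_sublist _)))))))))
  have g34 := cg_9472_256 hg2
  have g35 := c5_4756_4224 (T.n5 hN (.cons_cons _ (.cons_cons _ (.cons_cons _ (.cons _ (.cons_cons _ (.cons_cons _ (List.nil_sublist _))))))))
  have g36 := fun ha : T.alt a x y q s = true => cA0_9226_8 (T.okA0 (T.n5 hN (.cons_cons _ (.cons_cons _ (.cons_cons _ (.cons _ (.cons _ (.cons_cons _ (.cons_cons _ (List.nil_sublist _))))))))) ha)
  have g37 := cg_16640_16640 hg1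
  have g38 := csp_10277_0 (T.sp5 hN (.cons_cons _ (.cons_cons _ (.cons _ (.cons_cons _ (.cons_cons _ (.cons_cons _ (.cons_cons _ (List.nil_sublist _)))))))))
  have g39 := fun ha : T.alt a x s z q = true => cA2_5128_5120 (T.okA2 (T.n5 hN (.cons_cons _ (.cons_cons _ (.cons _ (.cons_cons _ (.cons _ (.cons_cons _ (.cons_cons _ (List.nil_sublist _))))))))) ha)
  have g40 := csp_5124_5120 (T.sp5 hN (.cons_cons _ (.cons_cons _ (.cons_cons _ (.cons_cons _ (.cons_cons _ (.cons_cons _ (List.nil_sublist _))))))))
  have g41 := fun ha : T.alt a x p y z = true => cA2_292_260 (T.okA2 (T.n5 hN (.cons_cons _ (.cons_cons _ (.cons_cons _ (.cons_cons _ (.cons_cons _ (List.nil_sublist _))))))) ha)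
  have g42 := fun ha : T.alt a x s z q = true => cA2_2084_2052 (T.okA2 (T.n5 hN (.cons_cons _ (.cons_cons _ (.cons _ (.cons_cons _ (.cons _ (.cons_cons _ (.cons_cons _ (List.nil_sublist _))))))))) ha)
  have g43 := fun ha : T.alt a x p z s = true => c5a_1068_4 (T.okA1 (T.n5 hN (.cons_cons _ (.cons_cons _ (.cons _ (.cons_cons _ (.cons_cons _ (.cons _ (.cons_cons _ (List.nil_sublist _))))))))) ha)
  have g44 := T.ae1 (T.n5 hN (.cons_cons _ (.cons_cons _ (.cons _ (.cons_cons _ (.cons_cons _ (.cons_cons _ (List.nil_sublist _))))))))
  have g45 := cg_16640_16640 hg2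
  have g46 := csp_18433_1 (T.sp5 hN (.cons_cons _ (.cons_cons _ (.cons_cons _ (.cons _ (.cons_cons _ (.cons_cons _ (.cons_cons _ (List.nil_sublist _)))))))))
  have g47 := fun ha : T.alt a x z p s = true => cA0_1036_12 (T.okA0 (T.n5 hN (.cons_cons _ (.cons_cons _ (.cons _ (.cons_cons _ (.cons_cons _ (.cons _ (.cons_cons _ (List.nil_sublist _))))))))) ha)
  have g48 := fun ha : T.alt a x s z q = true => cA2_8228_8196 (T.okA2 (T.n5 hN (.cons_cons _ (.cons_cons _ (.cons _ (.cons_cons _ (.cons _ (.cons_cons _ (.cons_cons _ (List.nil_sublist _))))))))) ha)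
  have g49 := fun ha : T.alt a x z y s = true => c5a_1156_132 (T.okA1 (T.n5 hN (.cons_cons _ (.cons_cons _ (.cons_cons _ (.cons_cons _ (.cons _ (.cons _ (.cons_cons _ (List.nil_sublist _))))))))) ha)
  have g50 := fun ha : T.alt a x p z s = true => c5a_292_260 (T.okA1 (T.n5 hN (.cons_cons _ (.cons_cons _ (.cons _ (.cons_cons _ (.cons_cons _ (.cons _ (.cons_cons _ (List.nil_sublist _))))))))) ha)
  have g51 := c5_10305_10304 (T.n5 hN (.cons _ (.cons_cons _ (.cons_cons _ (.cons _ (.cons_cons _ (.cons_cons _ (.cons_cons _ (List.nil_sublist _)))))))))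
  have g52 := cg_40_40 hg3
  have g53 := fun ha : T.alt a x q y s = true => c5a_1044_20 (T.okA1 (T.n5 hN (.cons_cons _ (.cons_cons _ (.cons_cons _ (.cons _ (.cons _ (.cons_cons _ (.cons_cons _ (List.nil_sublist _))))))))) ha)
  have g54 := c5_16916_16900 (T.n5 hN (.cons _ (.cons_cons _ (.cons _ (.cons_cons _ (.cons_cons _ (.cons_cons _ (.cons_cons _ (List.nil_sublist _)))))))))
  have g55 := fun ha : T.alt a x q y p = true => cA2_8458_256 (T.okA2 (T.n5 hN (.cons_cons _ (.cons_cons _ (.cons_cons _ (.cons _ (.cons_cons _ (.cons_cons _ (List.nil_sublist _)))))))) ha)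
  have g56 := T.ae1 (T.n5 hN (.cons_cons _ (.cons _ (.cons _ (.cons_cons _ (.cons_cons _ (.cons_cons _ (.cons_cons _ (List.nil_sublist _)))))))))
  have g57 := fun ha : T.alt a x y z p = true => cA0_4132_36 (T.okA0 (T.n5 hN (.cons_cons _ (.cons_cons _ (.cons_cons _ (.cons_cons _ (.cons_cons _ (List.nil_sublist _))))))) ha)
  have g58 := fun ha : T.alt a x q z s = true => c5a_292_260 (T.okA1 (T.n5 hN (.cons_cons _ (.cons_cons _ (.cons _ (.cons_cons _ (.cons _ (.cons_cons _ (.cons_cons _ (List.nil_sublist _))))))))) ha)
  have g59 := cg_768_768 hg2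
  have g60 := fun ha : T.alt a x q y s = true => c5a_292_260 (T.okA1 (T.n5 hN (.cons_cons _ (.cons_cons _ (.cons_cons _ (.cons _ (.cons _ (.cons_cons _ (.cons_cons _ (List.nil_sublist _))))))))) ha)
  have g61 := fun ha : T.alt a x p z q = true => c5a_4708_4132 (T.okA1 (T.n5 hN (.cons_cons _ (.cons_cons _ (.cons _ (.cons_cons _ (.cons_cons _ (.cons_cons _ (List.nil_sublist _)))))))) ha)
  have g62 := fun ha : T.alt a x p y s = true => c5a_4196_4 (T.okA1 (T.n5 hN (.cons_cons _ (.cons_cons _ (.cons_cons _ (.cons _ (.cons_cons _ (.cons _ (.cons_cons _ (List.nil_sublist _))))))))) ha)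
  have g63 := cg_384_384 hg2
  have g64 := fun ha : T.alt a y p z q = true => c5a_1608_64 (T.okA1 (T.n5 hN (.cons_cons _ (.cons _ (.cons_cons _ (.cons_cons _ (.cons_cons _ (.cons_cons _ (List.nil_sublist _)))))))) ha)
  have g65 := cg_320_320 hg2
  have g66 := fun ha : T.alt a y p q s = true => cA0_2057_2056 (T.okA0 (T.n5 hN (.cons_cons _ (.cons _ (.cons_cons _ (.cons _ (.cons_cons _ (.cons_cons _ (.cons_cons _ (List.nil_sublist _))))))))) ha)
  have g67 := c5_18441_18440 (T.n5 hN (.cons_cons _ (.cons _ (.cons_cons _ (.cons _ (.cons_cons _ (.cons_cons _ (.cons_cons _ (List.nil_sublist _)))))))))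
  have g68 := fun ha : T.alt a z p q s = true => cA0_18689_2304 (T.okA0 (T.n5 hN (.cons_cons _ (.cons _ (.cons _ (.cons_cons _ (.cons_cons _ (.cons_cons _ (.cons_cons _ (List.nil_sublist _))))))))) ha)
  have g69 := fun ha : T.alt a x q p s = true => c5a_6145_6144 (T.okA1 (T.n5 hN (.cons_cons _ (.cons_cons _ (.cons _ (.cons _ (.cons_cons _ (.cons_cons _ (.cons_cons _ (List.nil_sublist _))))))))) ha)
  have g70 := fun ha : T.alt a y q p s = true => c5a_2057_2056 (T.okA1 (T.n5 hN (.cons_cons _ (.cons _ (.cons_cons _ (.cons _ (.cons_cons _ (.cons_cons _ (.cons_cons _ (List.nil_sublist _))))))))) ha)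
  have g71 := fun ha : T.alt a y p z q = true => c5a_18577_16384 (T.okA1 (T.n5 hN (.cons_cons _ (.cons _ (.cons_cons _ (.cons_cons _ (.cons_cons _ (.cons_cons _ (List.nil_sublist _)))))))) ha)
  have g72 := c5_4898_4352 (T.n5 hN (.cons_cons _ (.cons_cons _ (.cons_cons _ (.cons _ (.cons_cons _ (.cons_cons _ (List.nil_sublist _))))))))
  have g73 := fun ha : T.alt a z s p q = true => cA2_18560_2176 (T.okA2 (T.n5 hN (.cons_cons _ (.cons _ (.cons _ (.cons_cons _ (.cons_cons _ (.cons_cons _ (.cons_cons _ (List.nil_sublist _))))))))) ha)
  have g74 := csp_16528_128 (T.sp5 hN (.cons_cons _ (.cons_cons _ (.cons _ (.cons_cons _ (.cons_cons _ (.cons_cons _ (.cons_cons _ (List.nil_sublist _)))))))))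
  have g75 := fun ha : T.alt a x p y q = true => c5a_834_512 (T.okA1 (T.n5 hN (.cons_cons _ (.cons_cons _ (.cons_cons _ (.cons _ (.cons_cons _ (.cons_cons _ (List.nil_sublist _)))))))) ha)
  have g76 := fun ha : T.alt a x q y z = true => cA2_292_260 (T.okA2 (T.n5 hN (.cons_cons _ (.cons_cons _ (.cons_cons _ (.cons_cons _ (.cons _ (.cons_cons _ (List.nil_sublist _)))))))) ha)
  have g77 := fun ha : T.alt a z s p q = true => cA2_18448_2064 (T.okA2 (T.n5 hN (.cons_cons _ (.cons _ (.cons _ (.cons_cons _ (.cons_cons _ (.cons_cons _ (.cons_cons _ (List.nil_sublist _))))))))) ha)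
  have g78 := fun ha : T.alt a x y q s = true => cA0_294_256 (T.okA0 (T.n5 hN (.cons_cons _ (.cons_cons _ (.cons_cons _ (.cons _ (.cons _ (.cons_cons _ (.cons_cons _ (List.nil_sublist _))))))))) ha)
  have g79 := fun ha : T.alt a x y q s = true => cA0_2085_2048 (T.okA0 (T.n5 hN (.cons_cons _ (.cons_cons _ (.cons_cons _ (.cons _ (.cons _ (.cons_cons _ (.cons_cons _ (List.nil_sublist _))))))))) ha)
  have g80 := csp_3330_256 (T.sp5 hN (.cons_cons _ (.cons_cons _ (.cons_cons _ (.cons_cons _ (.cons _ (.cons_cons _ (.cons_cons _ (List.nil_sublist _)))))))))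
  have g81 := c5_17992_16456 (T.n5 hN (.cons _ (.cons_cons _ (.cons_cons _ (.cons _ (.cons_cons _ (.cons_cons _ (.cons_cons _ (List.nil_sublist _)))))))))
  have g82 := cg_4_0 hg1
  have g83 := fun ha : T.alt a y s z q = true => cA2_592_80 (T.okA2 (T.n5 hN (.cons_cons _ (.cons _ (.cons_cons _ (.cons_cons _ (.cons _ (.cons_cons _ (.cons_cons _ (List.nil_sublist _))))))))) ha)
  have g84 := cg_2_2 hg1
  have g85 := csp_6208_6144 (T.sp5 hN (.cons_cons _ (.cons _ (.cons_cons _ (.cons_cons _ (.cons_cons _ (.cons_cons _ (.cons_cons _ (List.nil_sublist _)))))))))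
  have g86 := csp_8706_8704 (T.sp5 hN (.cons_cons _ (.cons_cons _ (.cons_cons _ (.cons_cons _ (.cons_cons _ (.cons _ (.cons_cons _ (List.nil_sublist _)))))))))
  have g87 := c5_4898_768 (T.n5 hN (.cons_cons _ (.cons_cons _ (.cons_cons _ (.cons _ (.cons_cons _ (.cons_cons _ (List.nil_sublist _))))))))
  have g88 := csp_76_12 (T.sp5 hN (.cons_cons _ (.cons_cons _ (.cons_cons _ (.cons_cons _ (.cons_cons _ (.cons_cons _ (List.nil_sublist _))))))))
  have g89 := c5_6241_2112 (T.n5 hN (.cons_cons _ (.cons_cons _ (.cons _ (.cons _ (.cons_cons _ (.cons_cons _ (.cons_cons _ (List.nil_sublist _)))))))))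
  have g90 := c5_8460_268 (T.n5 hN (.cons_cons _ (.cons_cons _ (.cons_cons _ (.cons _ (.cons_cons _ (.cons_cons _ (List.nil_sublist _))))))))
  have g91 := fun ha : T.alt a x s z p = true => cA2_1036_12 (T.okA2 (T.n5 hN (.cons_cons _ (.cons_cons _ (.cons _ (.cons_cons _ (.cons_cons _ (.cons _ (.cons_cons _ (List.nil_sublist _))))))))) ha)
  have g92 := c5_5196_5120 (T.n5 hN (.cons_cons _ (.cons_cons _ (.cons_cons _ (.cons _ (.cons _ (.cons_cons _ (.cons_cons _ (List.nil_sublist _)))))))))
  have g93 := fun ha : T.alt a y p q s = true => cA0_17416_16392 (T.okA0 (T.n5 hN (.cons_cons _ (.cons _ (.cons_cons _ (.cons _ (.cons_cons _ (.cons_cons _ (.cons_cons _ (List.nil_sublist _))))))))) ha)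
  have g94 := csp_643_512 (T.sp5 hN (.cons_cons _ (.cons_cons _ (.cons_cons _ (.cons_cons _ (.cons_cons _ (.cons _ (.cons_cons _ (List.nil_sublist _)))))))))
  have g95 := c5_3072_3072 (T.n5 hN (.cons_cons _ (.cons_cons _ (.cons _ (.cons _ (.cons_cons _ (.cons_cons _ (.cons_cons _ (List.nil_sublist _)))))))))
  have g96 := fun ha : T.alt a x y z q = true => cA0_4132_36 (T.okA0 (T.n5 hN (.cons_cons _ (.cons_cons _ (.cons_cons _ (.cons_cons _ (.cons _ (.cons_cons _ (List.nil_sublist _)))))))) ha)
  have g97 := csp_16528_128 (T.sp5 hN (.cons_cons _ (.cons _ (.cons_cons _ (.cons_cons _ (.cons_cons _ (.cons_cons _ (.cons_cons _ (List.nil_sublist _)))))))))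
  have g98 := fun ha : T.alt a z q p s = true => c5a_2057_2056 (T.okA1 (T.n5 hN (.cons_cons _ (.cons _ (.cons _ (.cons_cons _ (.cons_cons _ (.cons_cons _ (.cons_cons _ (List.nil_sublist _))))))))) ha)
  have g99 := T.ae01 (T.n5 hN (.cons_cons _ (.cons_cons _ (.cons _ (.cons_cons _ (.cons_cons _ (.cons _ (.cons_cons _ (List.nil_sublist _)))))))))
  have g100 := fun ha : T.alt a x p z s = true => c5a_4196_4 (T.okA1 (T.n5 hN (.cons_cons _ (.cons_cons _ (.cons _ (.cons_cons _ (.cons_cons _ (.cons _ (.cons_cons _ (List.nil_sublist _))))))))) ha)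
  have g101 := csp_522_10 (T.sp5 hN (.cons_cons _ (.cons_cons _ (.cons _ (.cons_cons _ (.cons_cons _ (.cons_cons _ (.cons_cons _ (List.nil_sublist _)))))))))
  have g102 := fun ha : T.alt a y s p q = true => cA2_18560_2176 (T.okA2 (T.n5 hN (.cons_cons _ (.cons _ (.cons_cons _ (.cons _ (.cons_cons _ (.cons_cons _ (.cons_cons _ (List.nil_sublist _))))))))) ha)
  have g103 := fun ha : T.alt a x q y s = true => c5a_836_516 (T.okA1 (T.n5 hN (.cons_cons _ (.cons_cons _ (.cons_cons _ (.cons _ (.cons _ (.cons_cons _ (.cons_cons _ (List.nil_sublist _))))))))) ha)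
  have g104 := fun ha : T.alt a x p q s = true => cA0_2085_2048 (T.okA0 (T.n5 hN (.cons_cons _ (.cons_cons _ (.cons _ (.cons _ (.cons_cons _ (.cons_cons _ (.cons_cons _ (List.nil_sublist _))))))))) ha)
  have g105 := csp_6528_2048 (T.sp5 hN (.cons_cons _ (.cons_cons _ (.cons _ (.cons_cons _ (.cons_cons _ (.cons_cons _ (.cons_cons _ (List.nil_sublist _)))))))))
  have g106 := csp_18433_2048 (T.sp5 hN (.cons_cons _ (.cons_cons _ (.cons _ (.cons_cons _ (.cons_cons _ (.cons_cons _ (.cons_cons _ (List.nil_sublist _)))))))))
  have g107 := fun ha : T.alt a x s z q = true => cA2_292_260 (T.okA2 (T.n5 hN (.cons_cons _ (.cons_cons _ (.cons _ (.cons_cons _ (.cons _ (.cons_cons _ (.cons_cons _ (List.nil_sublist _))))))))) ha)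
  have g108 := fun ha : T.alt a y q p s = true => c5a_18449_2048 (T.okA1 (T.n5 hN (.cons_cons _ (.cons _ (.cons_cons _ (.cons _ (.cons_cons _ (.cons_cons _ (.cons_cons _ (List.nil_sublist _))))))))) ha)
  have g109 := c5_14408_2120 (T.n5 hN (.cons _ (.cons_cons _ (.cons_cons _ (.cons _ (.cons_cons _ (.cons_cons _ (.cons_cons _ (List.nil_sublist _)))))))))
  have g110 := T.ae1 (T.n5 hN (.cons_cons _ (.cons_cons _ (.cons_cons _ (.cons_cons _ (.cons_cons _ (List.nil_sublist _)))))))
  have g111 := csp_5329_0 (T.sp5 hN (.cons_cons _ (.cons _ (.cons_cons _ (.cons_cons _ (.cons_cons _ (.cons_cons _ (.cons_cons _ (List.nil_sublist _)))))))))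
  have g112 := csp_1290_1024 (T.sp5 hN (.cons_cons _ (.cons_cons _ (.cons_cons _ (.cons _ (.cons_cons _ (.cons_cons _ (.cons_cons _ (List.nil_sublist _)))))))))
  have g113 := csp_16552_0 (T.sp5 hN (.cons_cons _ (.cons_cons _ (.cons _ (.cons_cons _ (.cons_cons _ (.cons_cons _ (.cons_cons _ (List.nil_sublist _)))))))))
  have g114 := fun ha : T.alt a z p q s = true => cA0_2085_2048 (T.okA0 (T.n5 hN (.cons_cons _ (.cons _ (.cons _ (.cons_cons _ (.cons_cons _ (.cons_cons _ (.cons_cons _ (List.nil_sublist _))))))))) ha)
  have g115 := fun ha : T.alt a z p q s = true => cA0_18561_2048 (T.okA0 (T.n5 hN (.cons_cons _ (.cons _ (.cons _ (.cons_cons _ (.cons_cons _ (.cons_cons _ (.cons_cons _ (List.nil_sublist _))))))))) ha)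
  have g116 := c5_2114_2114 (T.n5 hN (.cons _ (.cons_cons _ (.cons_cons _ (.cons _ (.cons_cons _ (.cons_cons _ (.cons_cons _ (List.nil_sublist _)))))))))
  have g117 := cg_9248_1056 hg3
  have g118 := fun ha : T.alt a x q p s = true => c5a_2308_2052 (T.okA1 (T.n5 hN (.cons_cons _ (.cons_cons _ (.cons _ (.cons _ (.cons_cons _ (.cons_cons _ (.cons_cons _ (List.nil_sublist _))))))))) ha)
  have g119 := c5_16457_16456 (T.n5 hN (.cons _ (.cons_cons _ (.cons _ (.cons_cons _ (.cons_cons _ (.cons_cons _ (.cons_cons _ (List.nil_sublist _)))))))))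
  have g120 := fun ha : T.alt a x q y p = true => cA2_4676_512 (T.okA2 (T.n5 hN (.cons_cons _ (.cons_cons _ (.cons_cons _ (.cons _ (.cons_cons _ (.cons_cons _ (List.nil_sublist _)))))))) ha)
  have g121 := fun ha : T.alt a x p y s = true => c5a_5672_4096 (T.okA1 (T.n5 hN (.cons_cons _ (.cons_cons _ (.cons_cons _ (.cons _ (.cons_cons _ (.cons _ (.cons_cons _ (List.nil_sublist _))))))))) ha)
  have g122 := c5_5324_5132 (T.n5 hN (.cons_cons _ (.cons_cons _ (.cons_cons _ (.cons _ (.cons_cons _ (.cons _ (.cons_cons _ (List.nil_sublist _)))))))))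
  have g123 := csp_2336_2048 (T.sp5 hN (.cons_cons _ (.cons_cons _ (.cons _ (.cons_cons _ (.cons_cons _ (.cons_cons _ (.cons_cons _ (List.nil_sublist _)))))))))
  have g124 := fun ha : T.alt a x s z p = true => cA2_8228_8196 (T.okA2 (T.n5 hN (.cons_cons _ (.cons_cons _ (.cons _ (.cons_cons _ (.cons_cons _ (.cons _ (.cons_cons _ (List.nil_sublist _))))))))) ha)
  have g125 := fun ha : T.alt a x p y s = true => c5a_292_260 (T.okA1 (T.n5 hN (.cons_cons _ (.cons_cons _ (.cons_cons _ (.cons _ (.cons_cons _ (.cons _ (.cons_cons _ (List.nil_sublist _))))))))) ha)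
  have g126 := csp_1156_4 (T.sp5 hN (.cons_cons _ (.cons_cons _ (.cons _ (.cons_cons _ (.cons_cons _ (.cons_cons _ (.cons_cons _ (List.nil_sublist _)))))))))
  have g127 := fun ha : T.alt a x z y p = true => c5a_18436_2052 (T.okA1 (T.n5 hN (.cons_cons _ (.cons_cons _ (.cons_cons _ (.cons_cons _ (.cons_cons _ (List.nil_sublist _))))))) ha)
  have g128 := cg_384_384 hg1
  have g129 := c5_18497_18496 (T.n5 hN (.cons_cons _ (.cons _ (.cons _ (.cons_cons _ (.cons_cons _ (.cons_cons _ (.cons_cons _ (List.nil_sublist _)))))))))
  have g130 := fun ha : T.alt a x p q s = true => cA0_18448_2064 (T.okA0 (T.n5 hN (.cons_cons _ (.cons_cons _ (.cons _ (.cons _ (.cons_cons _ (.cons_cons _ (.cons_cons _ (List.nil_sublist _))))))))) ha)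
  have g131 := csp_8450_256 (T.sp5 hN (.cons_cons _ (.cons_cons _ (.cons _ (.cons_cons _ (.cons_cons _ (.cons_cons _ (.cons_cons _ (List.nil_sublist _)))))))))
  have g132 := fun ha : T.alt a z s p q = true => cA2_2306_2050 (T.okA2 (T.n5 hN (.cons_cons _ (.cons _ (.cons _ (.cons_cons _ (.cons_cons _ (.cons_cons _ (.cons_cons _ (List.nil_sublist _))))))))) ha)
  have g133 := csp_17420_1032 (T.sp5 hN (.cons_cons _ (.cons_cons _ (.cons_cons _ (.cons _ (.cons_cons _ (.cons_cons _ (.cons_cons _ (List.nil_sublist _)))))))))
  have g134 := fun ha : T.alt a y p q s = true => cA0_18448_2064 (T.okA0 (T.n5 hN (.cons_cons _ (.cons _ (.cons_cons _ (.cons _ (.cons_cons _ (.cons_cons _ (.cons_cons _ (List.nil_sublist _))))))))) ha)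
  have g135 := csp_580_580 (T.sp5 hN (.cons_cons _ (.cons_cons _ (.cons_cons _ (.cons_cons _ (.cons_cons _ (.cons _ (.cons_cons _ (List.nil_sublist _)))))))))
  have g136 := csp_3090_0 (T.sp5 hN (.cons_cons _ (.cons_cons _ (.cons_cons _ (.cons_cons _ (.cons_cons _ (.cons _ (.cons_cons _ (List.nil_sublist _)))))))))
  have g137 := T.ae12 (T.n5 hN (.cons_cons _ (.cons _ (.cons _ (.cons_cons _ (.cons_cons _ (.cons_cons _ (.cons_cons _ (List.nil_sublist _)))))))))
  have g138 := fun ha : T.alt a z p q s = true => cA0_2069_2064 (T.okA0 (T.n5 hN (.cons_cons _ (.cons _ (.cons _ (.cons_cons _ (.cons_cons _ (.cons_cons _ (.cons_cons _ (List.nil_sublist _))))))))) ha)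
  have g139 := fun ha : T.alt a x q z s = true => c5a_1068_4 (T.okA1 (T.n5 hN (.cons_cons _ (.cons_cons _ (.cons _ (.cons_cons _ (.cons _ (.cons_cons _ (.cons_cons _ (List.nil_sublist _))))))))) ha)
  have g140 := c5_1162_138 (T.n5 hN (.cons _ (.cons_cons _ (.cons_cons _ (.cons _ (.cons_cons _ (.cons_cons _ (.cons_cons _ (List.nil_sublist _)))))))))
  have g141 := fun ha : T.alt a x q z p = true => cA2_18577_0 (T.okA2 (T.n5 hN (.cons_cons _ (.cons_cons _ (.cons _ (.cons_cons _ (.cons_cons _ (.cons_cons _ (List.nil_sublist _)))))))) ha)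
  have g142 := csp_21552_1024 (T.sp5 hN (.cons_cons _ (.cons_cons _ (.cons_cons _ (.cons_cons _ (.cons_cons _ (.cons_cons _ (List.nil_sublist _))))))))
  have g143 := csp_9224_1024 (T.sp5 hN (.cons_cons _ (.cons_cons _ (.cons_cons _ (.cons _ (.cons_cons _ (.cons_cons _ (.cons_cons _ (List.nil_sublist _)))))))))
  have g144 := fun ha : T.alt a x s z q = true => cA2_1036_12 (T.okA2 (T.n5 hN (.cons_cons _ (.cons_cons _ (.cons _ (.cons_cons _ (.cons _ (.cons_cons _ (.cons_cons _ (List.nil_sublist _))))))))) ha)
  have g145 := fun ha : T.alt a x p z q = true => c5a_9482_0 (T.okA1 (T.n5 hN (.cons_cons _ (.cons_cons _ (.cons _ (.cons_cons _ (.cons_cons _ (.cons_cons _ (List.nil_sublist _)))))))) ha)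
  have g146 := fun ha : T.alt a x z y q = true => c5a_292_260 (T.okA1 (T.n5 hN (.cons_cons _ (.cons_cons _ (.cons_cons _ (.cons_cons _ (.cons _ (.cons_cons _ (List.nil_sublist _)))))))) ha)
  have g147 := c5_16977_80 (T.n5 hN (.cons _ (.cons_cons _ (.cons_cons _ (.cons _ (.cons_cons _ (.cons_cons _ (.cons_cons _ (List.nil_sublist _)))))))))
  have g148 := csp_147_16 (T.sp5 hN (.cons_cons _ (.cons_cons _ (.cons_cons _ (.cons_cons _ (.cons _ (.cons_cons _ (.cons_cons _ (List.nil_sublist _)))))))))
  have g149 := csp_4124_0 (T.sp5 hN (.cons_cons _ (.cons_cons _ (.cons_cons _ (.cons_cons _ (.cons_cons _ (.cons_cons _ (List.nil_sublist _))))))))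
  have g150 := fun ha : T.alt a y s p q = true => cA2_18448_2064 (T.okA2 (T.n5 hN (.cons_cons _ (.cons _ (.cons_cons _ (.cons _ (.cons_cons _ (.cons_cons _ (.cons_cons _ (List.nil_sublist _))))))))) ha)
  have g151 := csp_21512_0 (T.sp5 hN (.cons_cons _ (.cons_cons _ (.cons _ (.cons_cons _ (.cons_cons _ (.cons_cons _ (.cons_cons _ (List.nil_sublist _)))))))))
  have g152 := fun ha : T.alt a x s z p = true => cA2_292_260 (T.okA2 (T.n5 hN (.cons_cons _ (.cons_cons _ (.cons _ (.cons_cons _ (.cons_cons _ (.cons _ (.cons_cons _ (List.nil_sublist _))))))))) ha)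
  have g153 := fun ha : T.alt a y q z p = true => cA2_578_66 (T.okA2 (T.n5 hN (.cons_cons _ (.cons _ (.cons_cons _ (.cons_cons _ (.cons_cons _ (.cons_cons _ (List.nil_sublist _)))))))) ha)
  have g154 := fun ha : T.alt a x y p q = true => cA0_9474_256 (T.okA0 (T.n5 hN (.cons_cons _ (.cons_cons _ (.cons_cons _ (.cons _ (.cons_cons _ (.cons_cons _ (List.nil_sublist _)))))))) ha)
  have g155 := c5_16977_80 (T.n5 hN (.cons _ (.cons_cons _ (.cons_cons _ (.cons_cons _ (.cons_cons _ (.cons_cons _ (List.nil_sublist _))))))))
  have g156 := fun ha : T.alt a x z y s = true => c5a_4196_4 (T.okA1 (T.n5 hN (.cons_cons _ (.cons_cons _ (.cons_cons _ (.cons_cons _ (.cons _ (.cons _ (.cons_cons _ (List.nil_sublist _))))))))) ha)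
  have g157 := fun ha : T.alt a x q p s = true => c5a_10497_10240 (T.okA1 (T.n5 hN (.cons_cons _ (.cons_cons _ (.cons _ (.cons _ (.cons_cons _ (.cons_cons _ (.cons_cons _ (List.nil_sublist _))))))))) ha)
  have g158 := fun ha : T.alt a x s z p = true => cA2_4644_4 (T.okA2 (T.n5 hN (.cons_cons _ (.cons_cons _ (.cons _ (.cons_cons _ (.cons_cons _ (.cons _ (.cons_cons _ (List.nil_sublist _))))))))) ha)
  have g159 := fun ha : T.alt a x p z q = true => c5a_18436_2052 (T.okA1 (T.n5 hN (.cons_cons _ (.cons_cons _ (.cons _ (.cons_cons _ (.cons_cons _ (.cons_cons _ (List.nil_sublist _)))))))) ha)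
  have g160 := fun ha : T.alt a z q p s = true => c5a_18449_2048 (T.okA1 (T.n5 hN (.cons_cons _ (.cons _ (.cons _ (.cons_cons _ (.cons_cons _ (.cons_cons _ (.cons_cons _ (List.nil_sublist _))))))))) ha)
  have g161 := cg_9472_256 hg1
  have g162 := fun ha : T.alt a x q y s = true => c5a_1068_4 (T.okA1 (T.n5 hN (.cons_cons _ (.cons_cons _ (.cons_cons _ (.cons _ (.cons _ (.cons_cons _ (.cons_cons _ (List.nil_sublist _))))))))) ha)
  have g163 := csp_18433_16384 (T.sp5 hN (.cons_cons _ (.cons_cons _ (.cons _ (.cons_cons _ (.cons_cons _ (.cons_cons _ (.cons_cons _ (List.nil_sublist _)))))))))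
  have g164 := fun ha : T.alt a x q z s = true => c5a_1097_1032 (T.okA1 (T.n5 hN (.cons_cons _ (.cons_cons _ (.cons _ (.cons_cons _ (.cons _ (.cons_cons _ (.cons_cons _ (List.nil_sublist _))))))))) ha)
  have g165 := csp_9281_1 (T.sp5 hN (.cons_cons _ (.cons_cons _ (.cons_cons _ (.cons_cons _ (.cons _ (.cons_cons _ (.cons_cons _ (List.nil_sublist _)))))))))
  have g166 := c5_16452_16452 (T.n5 hN (.cons _ (.cons_cons _ (.cons _ (.cons_cons _ (.cons_cons _ (.cons_cons _ (.cons_cons _ (List.nil_sublist _)))))))))
  have g167 := T.ae1 (T.n5 hN (.cons_cons _ (.cons_cons _ (.cons_cons _ (.cons_cons _ (.cons _ (.cons_cons _ (List.nil_sublist _))))))))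
  have g168 := fun ha : T.alt a x z p s = true => cA0_148_20 (T.okA0 (T.n5 hN (.cons_cons _ (.cons_cons _ (.cons _ (.cons_cons _ (.cons_cons _ (.cons _ (.cons_cons _ (List.nil_sublist _))))))))) ha)
  have g169 := csp_577_513 (T.sp5 hN (.cons_cons _ (.cons_cons _ (.cons_cons _ (.cons_cons _ (.cons_cons _ (.cons _ (.cons_cons _ (List.nil_sublist _)))))))))
  have g170 := fun ha : T.alt a z p q s = true => cA0_18448_2064 (T.okA0 (T.n5 hN (.cons_cons _ (.cons _ (.cons _ (.cons_cons _ (.cons_cons _ (.cons_cons _ (.cons_cons _ (List.nil_sublist _))))))))) ha)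
  have g171 := cg_272_272 hg2
  have g172 := csp_4617_4096 (T.sp5 hN (.cons_cons _ (.cons_cons _ (.cons _ (.cons_cons _ (.cons_cons _ (.cons_cons _ (.cons_cons _ (List.nil_sublist _)))))))))
  have g173 := fun ha : T.alt a x s p q = true => cA2_2084_2052 (T.okA2 (T.n5 hN (.cons_cons _ (.cons_cons _ (.cons _ (.cons _ (.cons_cons _ (.cons_cons _ (.cons_cons _ (List.nil_sublist _))))))))) ha)
  have g174 := fun ha : T.alt a x y p s = true => cA0_294_256 (T.okA0 (T.n5 hN (.cons_cons _ (.cons_cons _ (.cons_cons _ (.cons _ (.cons_cons _ (.cons _ (.cons_cons _ (List.nil_sublist _))))))))) ha)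
  have g175 := cg_2336_288 hg1
  have g176 := fun ha : T.alt a x s p q = true => cA2_2306_2050 (T.okA2 (T.n5 hN (.cons_cons _ (.cons_cons _ (.cons _ (.cons _ (.cons_cons _ (.cons_cons _ (.cons_cons _ (List.nil_sublist _))))))))) ha)
  have g177 := csp_530_512 (T.sp5 hN (.cons_cons _ (.cons_cons _ (.cons_cons _ (.cons_cons _ (.cons_cons _ (.cons_cons _ (List.nil_sublist _))))))))
  have g178 := c5_17538_17410 (T.n5 hN (.cons _ (.cons_cons _ (.cons _ (.cons_cons _ (.cons_cons _ (.cons_cons _ (.cons_cons _ (List.nil_sublist _)))))))))
  have g179 := csp_6404_2048 (T.sp5 hN (.cons_cons _ (.cons_cons _ (.cons _ (.cons_cons _ (.cons_cons _ (.cons_cons _ (.cons_cons _ (List.nil_sublist _)))))))))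
  have g180 := fun ha : T.alt a x p y s = true => c5a_180_132 (T.okA1 (T.n5 hN (.cons_cons _ (.cons_cons _ (.cons_cons _ (.cons _ (.cons_cons _ (.cons _ (.cons_cons _ (List.nil_sublist _))))))))) ha)
  have g181 := fun ha : T.alt a x z y s = true => c5a_9482_9216 (T.okA1 (T.n5 hN (.cons_cons _ (.cons_cons _ (.cons_cons _ (.cons_cons _ (.cons _ (.cons _ (.cons_cons _ (List.nil_sublist _))))))))) ha)
  have g182 := fun ha : T.alt a x q p s = true => c5a_2307_2048 (T.okA1 (T.n5 hN (.cons_cons _ (.cons_cons _ (.cons _ (.cons _ (.cons_cons _ (.cons_cons _ (.cons_cons _ (List.nil_sublist _))))))))) ha)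
  have g183 := fun ha : T.alt a x y q s = true => cA0_4708_0 (T.okA0 (T.n5 hN (.cons_cons _ (.cons_cons _ (.cons_cons _ (.cons _ (.cons _ (.cons_cons _ (.cons_cons _ (List.nil_sublist _))))))))) ha)
  have g184 := fun ha : T.alt a z p q s = true => cA0_2113_2112 (T.okA0 (T.n5 hN (.cons_cons _ (.cons _ (.cons _ (.cons_cons _ (.cons_cons _ (.cons_cons _ (.cons_cons _ (List.nil_sublist _))))))))) ha)
  have g185 := c5_18596_2052 (T.n5 hN (.cons_cons _ (.cons_cons _ (.cons _ (.cons_cons _ (.cons_cons _ (.cons _ (.cons_cons _ (List.nil_sublist _)))))))))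
  have g186 := fun ha : T.alt a y p q s = true => cA0_18434_2050 (T.okA0 (T.n5 hN (.cons_cons _ (.cons _ (.cons_cons _ (.cons _ (.cons_cons _ (.cons_cons _ (.cons_cons _ (List.nil_sublist _))))))))) ha)
  have g187 := fun ha : T.alt a z s p q = true => cA2_2084_2052 (T.okA2 (T.n5 hN (.cons_cons _ (.cons _ (.cons _ (.cons_cons _ (.cons_cons _ (.cons_cons _ (.cons_cons _ (List.nil_sublist _))))))))) ha)
  have g188 := fun ha : T.alt a x q y s = true => c5a_180_132 (T.okA1 (T.n5 hN (.cons_cons _ (.cons_cons _ (.cons_cons _ (.cons _ (.cons _ (.cons_cons _ (.cons_cons _ (List.nil_sublist _))))))))) ha)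
  have g189 := fun ha : T.alt a y p z q = true => c5a_1168_1040 (T.okA1 (T.n5 hN (.cons_cons _ (.cons _ (.cons_cons _ (.cons_cons _ (.cons_cons _ (.cons_cons _ (List.nil_sublist _)))))))) ha)
  have g190 := csp_16656_16640 (T.sp5 hN (.cons_cons _ (.cons_cons _ (.cons _ (.cons_cons _ (.cons_cons _ (.cons_cons _ (.cons_cons _ (List.nil_sublist _)))))))))
  have g191 := fun ha : T.alt a x z y p = true => c5a_292_260 (T.okA1 (T.n5 hN (.cons_cons _ (.cons_cons _ (.cons_cons _ (.cons_cons _ (.cons_cons _ (List.nil_sublist _))))))) ha)
  have g192 := cg_768_768 hg1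
  have g193 := fun ha : T.alt a x p y s = true => c5a_834_512 (T.okA1 (T.n5 hN (.cons_cons _ (.cons_cons _ (.cons_cons _ (.cons _ (.cons_cons _ (.cons _ (.cons_cons _ (List.nil_sublist _))))))))) ha)
  have g194 := csp_10310_2048 (T.sp5 hN (.cons_cons _ (.cons_cons _ (.cons_cons _ (.cons_cons _ (.cons_cons _ (.cons_cons _ (List.nil_sublist _))))))))
  have g195 := fun ha : T.alt a x y p s = true => cA0_9226_8 (T.okA0 (T.n5 hN (.cons_cons _ (.cons_cons _ (.cons_cons _ (.cons _ (.cons_cons _ (.cons _ (.cons_cons _ (List.nil_sublist _))))))))) ha)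
  have g196 := c5_2114_2114 (T.n5 hN (.cons _ (.cons_cons _ (.cons_cons _ (.cons_cons _ (.cons_cons _ (.cons_cons _ (List.nil_sublist _))))))))
  have g197 := csp_1304_1024 (T.sp5 hN (.cons_cons _ (.cons_cons _ (.cons_cons _ (.cons_cons _ (.cons_cons _ (.cons_cons _ (List.nil_sublist _))))))))
  have g198 := fun ha : T.alt a x y q s = true => cA0_4272_4224 (T.okA0 (T.n5 hN (.cons_cons _ (.cons_cons _ (.cons_cons _ (.cons _ (.cons _ (.cons_cons _ (.cons_cons _ (List.nil_sublist _))))))))) ha)
  have g199 := fun ha : T.alt a y s p q = true => cA2_2306_2050 (T.okA2 (T.n5 hN (.cons_cons _ (.cons _ (.cons_cons _ (.cons _ (.cons_cons _ (.cons_cons _ (.cons_cons _ (List.nil_sublist _))))))))) ha)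
  have g200 := cg_272_272 hg1
  have g201 := fun ha : T.alt a x y p s = true => cA0_4708_0 (T.okA0 (T.n5 hN (.cons_cons _ (.cons_cons _ (.cons_cons _ (.cons _ (.cons_cons _ (.cons _ (.cons_cons _ (List.nil_sublist _))))))))) ha)
  have g202 := fun ha : T.alt a x q y s = true => c5a_2084_2052 (T.okA1 (T.n5 hN (.cons_cons _ (.cons_cons _ (.cons_cons _ (.cons _ (.cons _ (.cons_cons _ (.cons_cons _ (List.nil_sublist _))))))))) ha)
  have g203 := fun ha : T.alt a x p z s = true => c5a_1097_1032 (T.okA1 (T.n5 hN (.cons_cons _ (.cons_cons _ (.cons _ (.cons_cons _ (.cons_cons _ (.cons _ (.cons_cons _ (List.nil_sublist _))))))))) ha)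
  have g204 := fun ha : T.alt a x p q s = true => cA0_2113_2112 (T.okA0 (T.n5 hN (.cons_cons _ (.cons_cons _ (.cons _ (.cons _ (.cons_cons _ (.cons_cons _ (.cons_cons _ (List.nil_sublist _))))))))) ha)
  have g205 := fun ha : T.alt a z q p s = true => c5a_18560_2176 (T.okA1 (T.n5 hN (.cons_cons _ (.cons _ (.cons _ (.cons_cons _ (.cons_cons _ (.cons_cons _ (.cons_cons _ (List.nil_sublist _))))))))) ha)
  have g206 := csp_20738_0 (T.sp5 hN (.cons_cons _ (.cons_cons _ (.cons _ (.cons_cons _ (.cons_cons _ (.cons_cons _ (.cons_cons _ (List.nil_sublist _)))))))))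
  have g207 := cg_9472_8192 hg3
  have g208 := c5_16394_16394 (T.n5 hN (.cons _ (.cons_cons _ (.cons_cons _ (.cons _ (.cons_cons _ (.cons_cons _ (.cons_cons _ (List.nil_sublist _)))))))))
  have g209 := T.ae01 (T.n5 hN (.cons_cons _ (.cons _ (.cons _ (.cons_cons _ (.cons_cons _ (.cons_cons _ (.cons_cons _ (List.nil_sublist _)))))))))
  have g210 := fun ha : T.alt a x q y s = true => c5a_4196_4 (T.okA1 (T.n5 hN (.cons_cons _ (.cons_cons _ (.cons_cons _ (.cons _ (.cons _ (.cons_cons _ (.cons_cons _ (List.nil_sublist _))))))))) ha)
  have g211 := fun ha : T.alt a x s z p = true => cA2_2084_2052 (T.okA2 (T.n5 hN (.cons_cons _ (.cons_cons _ (.cons _ (.cons_cons _ (.cons_cons _ (.cons _ (.cons_cons _ (List.nil_sublist _))))))))) ha)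
  have g212 := csp_18433_1 (T.sp5 hN (.cons_cons _ (.cons_cons _ (.cons_cons _ (.cons_cons _ (.cons _ (.cons_cons _ (.cons_cons _ (List.nil_sublist _)))))))))
  have g213 := cg_320_320 hg1
  have g214 := fun ha : T.alt a x p q s = true => cA0_18561_2048 (T.okA0 (T.n5 hN (.cons_cons _ (.cons_cons _ (.cons _ (.cons _ (.cons_cons _ (.cons_cons _ (.cons_cons _ (List.nil_sublist _))))))))) ha)
  have g215 := cg_2336_288 hg2
  have g216 := cg_4352_4352 hg1
  have s217 : T.alt a y q z p = true → T.X a y z p = false → T.X a y p q = true → T.X a q z p = false → False := fun n1 n2 n3 n4 => by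
    exact g10 n1 n2 n3 h6 n4
  have s218 : T.alt a x z y s = true → T.X a y x z = false → T.X a x y s = false → T.X a z y s = false → T.X x z y s = false → False := fun n1 n2 n3 n4 n5 => by
    exact g11 n1 n2 n3 h4 n4 n5
  have s219 : T.alt a x p q s = true → T.X x q p s = true → False := fun n1 n2 => by
    exact g12 n1 h5 h3 n2
  have s220 : T.alt a y q p s = true → T.X a q y s = true → T.X y s p q = false → False := fun n1 n2 n3 => by
    exact g18 n1 n2 h3 n3
  have s221 : T.X x y z q = true → False := fun n1 => by
    exact g19 h2 n1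
  have s222 : T.alt a x q z s = true → T.X a x q s = false → T.X x z q s = false → False := fun n1 n2 n3 => by
    exact g22 n1 h2 h4 n2 n3
  have s223 : T.alt a x q z p = true → T.X x z p q = true → False := fun n1 n2 => by
    exact g23 n1 h1 h2 h5 h6 n2
  have s224 : T.alt a x s z q = true → T.X a z q s = false → T.X x z q s = false → False := fun n1 n2 n3 => by
    exact g24 n1 h2 h4 n2 n3
  have s225 : T.alt a y p q s = true → T.X a y p q = false → T.X a q y s = false → T.X y s p q = false → False := fun n1 n2 n3 n4 => by
    exact g25 n1 n2 n3 h3 n4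
  have s226 : T.X a x p s = true → T.X a s x q = false → T.X x q p s = false → False := fun n1 n2 n3 => by
    exact g26 h5 n1 n2 h3 n3
  have s227 : T.alt a x q z p = true → T.X a p z q = true → T.X x p z q = false → False := fun n1 n2 n3 => by
    exact g28 n1 h2 n2 n3
  have s228 : T.alt a y q p s = true → T.X a y p q = false → T.X y p q s = true → False := fun n1 n2 n3 => by
    exact g29 n1 n2 h3 n3
  have s229 : T.alt a y s p q = true → T.X a y p q = true → T.X a y q s = false → T.X a s y q = false → False := fun n1 n2 n3 n4 => by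
    exact g30 n1 n2 n3 n4 h3
  have s230 : T.X a q x p = false → T.X a q z p = true → T.X x p z q = true → False := fun n1 n2 n3 => by
    exact g31 h1 n1 n2 n3
  have s231 : T.alt a y q p s = true → T.X a y p q = false → T.X a y q s = true → False := fun n1 n2 n3 => by
    exact g32 n1 n2 n3 h3
  have s232 : T.X a z y q = false → T.X x z y q = false → False := fun n1 n2 => by
    exact g34 h2 n1 n2
  have s233 : T.X x p y z = true → False := fun n1 => by
    exact g37 h1 n1
  have s234 : T.alt a x p y z = true → T.X a z x y = true → T.X a p x y = false → False := fun n1 n2 n3 => by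
    exact g41 n1 n2 n3 h1
  have s235 : T.alt a x s z q = true → T.X a s z q = true → False := fun n1 n2 => by
    exact g42 n1 h2 h4 n2
  have s236 : T.alt a x p z s = true → T.X a x z s = false → T.X a p z s = false → False := fun n1 n2 n3 => by
    exact g43 n1 h1 n2 h4 n3
  have s237 : T.X x q y z = true → False := fun n1 => by
    exact g45 h2 n1
  have s238 : T.alt a x z p s = true → T.X a x z s = true → T.X a p z s = false → False := fun n1 n2 n3 => by
    exact g47 n1 h1 n2 n3
  have s239 : T.alt a x s z q = true → T.X x q z s = true → False := fun n1 n2 => by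
    exact g48 n1 h2 h4 n2
  have s240 : T.alt a x p z s = true → T.X a s x p = true → False := fun n1 n2 => by
    exact g50 n1 h1 h4 n2
  have s241 : T.alt a x q z s = true → T.X a s x q = true → False := fun n1 n2 => by
    exact g58 n1 h2 h4 n2
  have s242 : T.X a y z q = true → False := fun n1 => by
    exact g59 h2 n1
  have s243 : T.alt a x p z q = true → T.X x z p q = true → False := fun n1 n2 => by
    exact g61 n1 h1 h2 h5 h6 n2
  have s244 : T.X a z x q = true → False := fun n1 => by
    exact g63 n1 h2
  have s245 : T.alt a y p z q = true → T.X a y p q = true → T.X a p z q = false → False := fun n1 n2 n3 => by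
    have u1 : T.X a y z q = false := bf (fun t => s242 t)
    exact g64 n1 u1 n2 h6 n3
  have s246 : T.X a x z q = true → False := fun n1 => by
    exact g65 n1 h2
  have s247 : T.alt a y p q s = true → T.X a y p q = false → T.X a y p s = true → False := fun n1 n2 n3 => by
    exact g66 n1 n2 n3 h3
  have s248 : T.X a y p q = false → T.X a y p s = true → T.X y s p q = true → False := fun n1 n2 n3 => by
    exact g67 n1 n2 h3 n3
  have s249 : T.alt a z p q s = true → T.X a s z q = true → T.X z s p q = false → False := fun n1 n2 n3 => by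
    exact g68 n1 h6 n2 h3 n3
  have s250 : T.alt a x q p s = true → T.X x p q s = true → False := fun n1 n2 => by
    exact g69 n1 h5 h3 n2
  have s251 : T.alt a y q p s = true → T.X a y p q = false → T.X a y p s = true → False := fun n1 n2 n3 => by
    exact g70 n1 n2 n3 h3
  have s252 : T.alt a z s p q = true → T.X a q z s = true → T.X z s p q = false → False := fun n1 n2 n3 => by
    exact g73 n1 n2 h3 n3
  have s253 : T.alt a x p y q = true → T.X a y x p = false → T.X a q x p = false → T.X a y p q = true → False := fun n1 n2 n3 n4 => by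
    exact g75 n1 n2 h5 n3 n4
  have s254 : T.alt a x q y z = true → T.X a z x y = true → T.X a q x y = false → False := fun n1 n2 n3 => by
    exact g76 n1 n2 n3 h2
  have s255 : T.alt a z s p q = true → T.X a p z s = true → T.X z s p q = false → False := fun n1 n2 n3 => by
    exact g77 n1 n2 h3 n3
  have s256 : T.X a s x p = false → T.X a x q s = true → T.X x p q s = false → False := fun n1 n2 n3 => by
    exact g89 h5 n1 n2 h3 n3
  have s257 : T.alt a x s z p = true → T.X a x z s = true → T.X a p z s = false → False := fun n1 n2 n3 => by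
    exact g91 n1 h1 n2 n3
  have s258 : T.X a q p s = true → False := fun n1 => by
    exact g95 n1 h3
  have s259 : T.alt a x y z q = true → T.X a q x y = true → False := fun n1 n2 => by
    have u1 : T.X a z x y = true := bt (fun t => g82 t)
    have u2 : T.X x y z q = false := bf (fun t => s221 t)
    exact g96 n1 u1 n2 u2
  have s260 : T.alt a z q p s = true → T.X a z p s = true → False := fun n1 n2 => by
    exact g98 n1 h6 n2 h3
  have s261 : T.alt a x p z s = true → T.X a x p s = false → T.X x z p s = false → False := fun n1 n2 n3 => by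
    exact g100 n1 h1 h4 n2 n3
  have s262 : T.alt a y s p q = true → T.X a q y s = true → T.X y s p q = false → False := fun n1 n2 n3 => by
    exact g102 n1 n2 h3 n3
  have s263 : T.alt a x p q s = true → T.X a q x p = false → T.X a s x p = false → False := fun n1 n2 n3 => by
    exact g104 n1 h5 n2 n3 h3
  have s264 : T.alt a x s z q = true → T.X a s x q = true → False := fun n1 n2 => by
    exact g107 n1 h2 h4 n2
  have s265 : T.alt a y q p s = true → T.X a y p q = false → T.X a p y s = false → T.X y s p q = false → False := fun n1 n2 n3 n4 => by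
    exact g108 n1 n2 n3 h3 n4
  have s266 : T.alt a z p q s = true → T.X a q z p = false → T.X a s z p = false → False := fun n1 n2 n3 => by
    exact g114 n1 h6 n2 n3 h3
  have s267 : T.alt a z p q s = true → T.X a q z s = false → T.X z s p q = false → False := fun n1 n2 n3 => by
    exact g115 n1 h6 n2 h3 n3
  have s268 : T.alt a x q p s = true → T.X a q x p = true → T.X a s x q = false → False := fun n1 n2 n3 => by
    exact g118 n1 n2 n3 h3
  have s269 : T.alt a x q y p = true → T.X a p x y = false → T.X a y p q = true → T.X x y p q = false → False := fun n1 n2 n3 n4 => by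
    exact g120 n1 n2 h5 n3 n4
  have s270 : T.alt a x s z p = true → T.X x p z s = true → False := fun n1 n2 => by
    exact g124 n1 h1 h4 n2
  have s271 : T.alt a x z y p = true → T.X a p y z = true → False := fun n1 n2 => by
    have u1 : T.X a z x y = true := bt (fun t => g82 t)
    have u2 : T.X x p y z = false := bf (fun t => s233 t)
    exact g127 n1 u1 n2 u2
  have s272 : T.X a z x p = true → False := fun n1 => by
    exact g128 n1 h1
  have s273 : T.X a z q s = true → T.X z s p q = true → False := fun n1 n2 => by
    exact g129 h6 n1 h3 n2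
  have s274 : T.alt a x p q s = true → T.X a p x s = true → T.X x s p q = false → False := fun n1 n2 n3 => by
    exact g130 n1 n2 h3 n3
  have s275 : T.alt a z s p q = true → T.X a p z q = true → T.X a s z q = false → False := fun n1 n2 n3 => by
    exact g132 n1 n2 n3 h3
  have s276 : T.alt a y p q s = true → T.X a p y s = true → T.X y s p q = false → False := fun n1 n2 n3 => by
    exact g134 n1 n2 h3 n3
  have s277 : T.alt a z p q s = true → T.X a q z p = false → T.X a p z s = true → False := fun n1 n2 n3 => by
    exact g138 n1 h6 n2 n3 h3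
  have s278 : T.alt a x q z s = true → T.X a x z s = false → T.X a q z s = false → False := fun n1 n2 n3 => by
    exact g139 n1 h2 n2 h4 n3
  have s279 : T.alt a x q z p = true → T.X a x z p = false → T.X a p x q = false → T.X a q z p = false → T.X x q z p = false → False := fun n1 n2 n3 n4 n5 => by
    have u1 : T.X a z x q = false := bf (fun t => s244 t)
    exact g141 n1 n2 u1 n3 n4 n5
  have s280 : T.alt a x s z q = true → T.X a x z s = true → T.X a q z s = false → False := fun n1 n2 n3 => by
    exact g144 n1 h2 n2 n3
  have s281 : T.alt a x p z q = true → T.X a q x p = false → T.X a p z q = false → T.X x p z q = false → False := fun n1 n2 n3 n4 => by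
    have u1 : T.X a z x p = false := bf (fun t => s272 t)
    have u2 : T.X a x z q = false := bf (fun t => s246 t)
    exact g145 n1 u1 u2 n2 n3 n4
  have s282 : T.alt a x z y q = true → T.X a q x y = false → False := fun n1 n2 => by
    have u1 : T.X a z x y = true := bt (fun t => g82 t)
    exact g146 n1 u1 n2 h2
  have s283 : T.alt a y s p q = true → T.X a p y s = true → T.X y s p q = false → False := fun n1 n2 n3 => by
    exact g150 n1 n2 h3 n3
  have s284 : T.alt a x s z p = true → T.X a s x p = true → False := fun n1 n2 => by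
    exact g152 n1 h1 h4 n2
  have s285 : T.alt a y q z p = true → T.X a z y p = true → T.X a y p q = true → False := fun n1 n2 n3 => by
    exact g153 n1 n2 n3 h6
  have s286 : T.alt a x z y s = true → T.X a s x y = false → T.X a x z s = false → T.X x y z s = false → False := fun n1 n2 n3 n4 => by
    have u1 : T.X a z x y = true := bt (fun t => g82 t)
    exact g156 n1 u1 n2 n3 n4
  have s287 : T.alt a x q p s = true → T.X a s x q = false → T.X x q p s = true → False := fun n1 n2 n3 => by
    exact g157 n1 h5 n2 h3 n3
  have s288 : T.alt a x s z p = true → T.X a z p s = false → T.X x z p s = false → False := fun n1 n2 n3 => by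
    exact g158 n1 h1 h4 n2 n3
  have s289 : T.alt a x p z q = true → T.X a q z p = true → T.X x q z p = false → False := fun n1 n2 n3 => by
    exact g159 n1 h1 n2 n3
  have s290 : T.alt a z q p s = true → T.X a p z s = false → T.X z s p q = false → False := fun n1 n2 n3 => by
    exact g160 n1 h6 n2 h3 n3
  have s291 : T.X a z y p = false → T.X x z y p = false → False := fun n1 n2 => by
    exact g161 h1 n1 n2
  have s292 : T.alt a x q z s = true → T.X a x z s = true → T.X a x q s = false → T.X a q z s = true → False := fun n1 n2 n3 n4 => by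
    have u1 : T.X a x z q = false := bf (fun t => s246 t)
    exact g164 n1 u1 n2 n3 n4
  have s293 : T.alt a x z p s = true → T.X a z x s = true → T.X a p x s = false → False := fun n1 n2 n3 => by
    exact g168 n1 h1 n2 n3
  have s294 : T.alt a z p q s = true → T.X a p z s = true → T.X z s p q = false → False := fun n1 n2 n3 => by
    exact g170 n1 n2 h3 n3
  have s295 : T.X a y x q = true → False := fun n1 => by
    exact g171 n1 h2
  have s296 : T.alt a x s p q = true → T.X a q x p = true → T.X a s x p = false → False := fun n1 n2 n3 => by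
    exact g173 n1 n2 n3 h3
  have s297 : T.X a p x y = true → T.X a p y z = false → False := fun n1 n2 => by
    exact g175 n1 h1 n2
  have s298 : T.alt a x s p q = true → T.X a p x q = true → T.X a s x q = false → False := fun n1 n2 n3 => by
    exact g176 n1 n2 n3 h3
  have s299 : T.alt a x z y s = true → T.X a x y s = false → T.X a z y s = true → T.X x z y s = true → False := fun n1 n2 n3 n4 => by
    have u1 : T.X a y x z = false := bf (fun t => g84 t)
    exact g181 n1 u1 n2 h4 n3 n4
  have s300 : T.alt a x q p s = true → T.X a p x q = false → T.X a s x q = false → False := fun n1 n2 n3 => by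
    exact g182 n1 h5 n2 n3 h3
  have s301 : T.alt a z p q s = true → T.X a z q s = true → False := fun n1 n2 => by
    exact g184 n1 h6 n2 h3
  have s302 : T.X a p x s = false → T.X a s z p = true → T.X x s z p = false → False := fun n1 n2 n3 => by
    exact g185 h1 h4 n1 n2 n3
  have s303 : T.alt a y p q s = true → T.X a p y q = true → T.X y s p q = false → False := fun n1 n2 n3 => by
    exact g186 n1 n2 h3 n3
  have s304 : T.alt a z s p q = true → T.X a q z p = true → T.X a s z p = false → False := fun n1 n2 n3 => by
    exact g187 n1 n2 n3 h3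
  have s305 : T.alt a x z y p = true → T.X a p x y = false → False := fun n1 n2 => by
    have u1 : T.X a z x y = true := bt (fun t => g82 t)
    exact g191 n1 u1 n2 h1
  have s306 : T.X a y z p = true → False := fun n1 => by
    exact g192 h1 n1
  have s307 : T.alt a y s p q = true → T.X a p y q = true → T.X a s y q = false → False := fun n1 n2 n3 => by
    exact g199 n1 n2 n3 h3
  have s308 : T.X a y x p = true → False := fun n1 => by
    exact g200 n1 h1
  have s309 : T.alt a x p q s = true → T.X a x q s = true → False := fun n1 n2 => by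
    exact g204 n1 h5 n2 h3
  have s310 : T.alt a z q p s = true → T.X a q z s = true → T.X z s p q = false → False := fun n1 n2 n3 => by
    exact g205 n1 n2 h3 n3
  have s311 : T.X a z y s = false → T.X x z y s = true → False := fun n1 n2 => by
    exact g207 h4 n1 n2
  have s312 : T.alt a x s z p = true → T.X a s z p = true → False := fun n1 n2 => by
    exact g211 n1 h1 h4 n2
  have s313 : T.X a x z p = true → False := fun n1 => by
    exact g213 n1 h1
  have s314 : T.alt a x p q s = true → T.X a q x s = false → T.X x s p q = false → False := fun n1 n2 n3 => by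
    exact g214 n1 h5 n2 h3 n3
  have s315 : T.X a q x y = true → T.X a q y z = false → False := fun n1 n2 => by
    exact g215 n1 h2 n2
  have s316 : T.X x y z p = true → False := fun n1 => by
    exact g216 h1 n1
  have s318 : T.X a s z p = false → T.alt a z p q s = true → T.alt a z s p q = true → False := fun n1 n2 n3 => by
    have u1 : T.X a q z p = true := bt (fun t => s266 n2 t n1)
    exact s304 n3 u1 n1
  have s319 : T.alt a x z y q = true → False := fun n1 => by
    have u1 : T.X x q y z = false := bf (fun t => s237 t)
    have u2 : T.X a z x y = true := bt (fun t => g82 t)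
    have u3 : T.X a q y z = false := bf (fun t => g8 n1 u2 t u1)
    have u4 : T.X a q x y = true := bt (fun t => s282 n1 t)
    exact s315 u4 u3
  have s320 : T.alt a x s p q = true → T.X a p z s = false → T.alt a z p q s = true → T.alt a z s p q = true → False := fun n1 n2 n3 n4 => by
    have u1 : T.X a s z p = true := bt (fun t => s318 t n3 n4)
    have u2 : T.alt a x s z p = false := bf (fun t => s312 t u1)
    have u3 : T.X a z q s = false := bf (fun t => s301 n3 t)
    have u4 : T.alt a z q p s = false := bf (fun t => g137 t n4)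
    have u5 : T.alt a x s z q = true := bt (fun t => g123 u2 t n1)
    have u6 : T.X x z q s = true := bt (fun t => s224 u5 u3 t)
    have u7 : T.X a s z q = false := bf (fun t => s235 u5 t)
    have u8 : T.X x q z s = false := bf (fun t => s239 u5 t)
    have u9 : T.X a s x q = false := bf (fun t => s264 u5 t)
    have u10 : T.alt a x p z q = true := bt (fun t => g131 t u5 u4)
    have u11 : T.alt a x p z s = true := bt (fun t => g190 t u5 n4)
    have u12 : T.X a p z q = false := bf (fun t => s275 n4 t u7)
    have u13 : T.X x z p q = false := bf (fun t => s243 u10 t)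
    have u14 : T.X a s x p = false := bf (fun t => s240 u11 t)
    have u15 : T.X a x z s = true := bt (fun t => s236 u11 t n2)
    have u16 : T.X a q x p = false := bf (fun t => s296 n1 t u14)
    have u17 : T.X a q z s = true := bt (fun t => s280 u5 u15 t)
    have u18 : T.X x p z q = true := bt (fun t => s281 u10 u16 u12 t)
    have u19 : T.X z s p q = true := bt (fun t => s252 n4 u17 t)
    have u20 : T.X x z p s = false := bf (fun t => g119 u13 t u6 u19)
    have u21 : T.X x q p s = false := bf (fun t => g178 u18 u8 t u19)
    have u22 : T.X a x p s = true := bt (fun t => s261 u11 t u20)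
    exact s226 u22 u9 u21
  have s321 : T.alt a x z y p = true → False := fun n1 => by
    have u1 : T.X a p y z = false := bf (fun t => s271 n1 t)
    have u2 : T.X a p x y = true := bt (fun t => s305 n1 t)
    exact s297 u2 u1
  have s322 : T.alt a x z p q = true → False := fun n1 => by
    have u1 : T.alt a x z y p = false := bf (fun t => s321 t)
    have u2 : T.alt a x z y q = false := bf (fun t => s319 t)
    exact g177 u1 u2 n1
  have s323 : T.alt a z p q s = true → T.alt a z s p q = true → False := fun n1 n2 => by
    have u1 : T.alt a x z p q = false := bf (fun t => s322 t)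
    have u2 : T.alt a x s p q = true := bt (fun t => g163 u1 t n2)
    have u3 : T.alt a z q p s = false := bf (fun t => g137 t n2)
    have u4 : T.X a z q s = false := bf (fun t => s301 n1 t)
    have u5 : T.X a s z p = true := bt (fun t => s318 t n1 n2)
    have u6 : T.X a p z s = true := bt (fun t => s320 u2 t n1 n2)
    have u7 : T.alt a x s z p = false := bf (fun t => s312 t u5)
    have u8 : T.X z s p q = true := bt (fun t => s255 n2 u6 t)
    have u9 : T.X a q z p = true := bt (fun t => s277 n1 t u6)
    have u10 : T.alt a x s z q = true := bt (fun t => g123 u7 t u2)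
    have u11 : T.X x z q s = true := bt (fun t => s224 u10 u4 t)
    have u12 : T.alt a x p z q = true := bt (fun t => g131 t u10 u3)
    have u13 : T.X x q z p = false := bf (fun t => g166 t u11 u8)
    exact s289 u12 u9 u13
  have s324 : T.X z s p q = true → T.X x p z q = true → T.X x z p q = false → T.alt a x p z s = true → T.alt a x s z q = true → False := fun n1 n2 n3 n4 n5 => by
    have u1 : T.X a s x q = false := bf (fun t => s264 n5 t)
    have u2 : T.X x q z s = false := bf (fun t => s239 n5 t)
    have u3 : T.X a z q s = false := bf (fun t => s273 t n1)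
    have u4 : T.X x q p s = false := bf (fun t => g178 n2 u2 t n1)
    have u5 : T.X x z q s = true := bt (fun t => s224 n5 u3 t)
    have u6 : T.X a x p s = false := bf (fun t => s226 t u1 u4)
    have u7 : T.X x z p s = false := bf (fun t => g119 n3 t u5 n1)
    exact s261 n4 u6 u7
  have s325 : T.alt a x s z q = true → T.alt a z s p q = true → False := fun n1 n2 => by
    have u1 : T.alt a x z p q = false := bf (fun t => s322 t)
    have u2 : T.alt a x s p q = true := bt (fun t => g163 u1 t n2)
    have u3 : T.alt a z q p s = false := bf (fun t => g137 t n2)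
    have u4 : T.X a s z q = false := bf (fun t => s235 n1 t)
    have u5 : T.alt a x p z q = true := bt (fun t => g131 t n1 u3)
    have u6 : T.alt a x p z s = true := bt (fun t => g190 t n1 n2)
    have u7 : T.X a p z q = false := bf (fun t => s275 n2 t u4)
    have u8 : T.X x z p q = false := bf (fun t => s243 u5 t)
    have u9 : T.X a s x p = false := bf (fun t => s240 u6 t)
    have u10 : T.X a q x p = false := bf (fun t => s296 u2 t u9)
    have u11 : T.X x p z q = true := bt (fun t => s281 u5 u10 u7 t)
    have u12 : T.X z s p q = false := bf (fun t => s324 t u11 u8 u6 n1)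
    have u13 : T.X a q z s = false := bf (fun t => s252 n2 t u12)
    have u14 : T.X a p z s = false := bf (fun t => s255 n2 t u12)
    have u15 : T.X a x z s = false := bf (fun t => s280 n1 t u13)
    exact s236 u6 u15 u14
  have s326 : T.X z s p q = false → T.alt a z s p q = true → False := fun n1 n2 => by
    have u1 : T.alt a x z p q = false := bf (fun t => s322 t)
    have u2 : T.alt a z p q s = false := bf (fun t => s323 t n2)
    have u3 : T.alt a x s p q = true := bt (fun t => g163 u1 t n2)
    have u4 : T.alt a x s z q = false := bf (fun t => s325 t n2)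
    have u5 : T.alt a x q z s = true := bt (fun t => g105 t u4 u3 u2)
    have u6 : T.alt a x s z p = true := bt (fun t => g123 t u4 u3)
    have u7 : T.X a q z s = false := bf (fun t => s252 n2 t n1)
    have u8 : T.X a p z s = false := bf (fun t => s255 n2 t n1)
    have u9 : T.X a x z s = true := bt (fun t => s278 u5 t u7)
    exact s257 u6 u9 u8
  have s327 : T.alt a z s p q = true → False := fun n1 => by
    have u1 : T.alt a x z p q = false := bf (fun t => s322 t)
    have u2 : T.X a x z p = false := bf (fun t => s313 t)
    have u3 : T.alt a x s p q = true := bt (fun t => g163 u1 t n1)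
    have u4 : T.alt a z p q s = false := bf (fun t => s323 t n1)
    have u5 : T.alt a x s z q = false := bf (fun t => s325 t n1)
    have u6 : T.alt a x s z p = true := bt (fun t => g123 t u5 u3)
    have u7 : T.alt a x q z p = true := bt (fun t => g179 t u5 u3 u4)
    have u8 : T.alt a x q z s = true := bt (fun t => g105 t u5 u3 u4)
    have u9 : T.X x p z s = false := bf (fun t => s270 u6 t)
    have u10 : T.X a s x p = false := bf (fun t => s284 u6 t)
    have u11 : T.X a s z p = false := bf (fun t => s312 u6 t)
    have u12 : T.X a s x q = false := bf (fun t => s241 u8 t)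
    have u13 : T.X a q z p = false := bf (fun t => s304 n1 t u11)
    have u14 : T.X a p x q = false := bf (fun t => s298 u3 t u12)
    have u15 : T.X x q z p = true := bt (fun t => s279 u7 u2 u14 u13 t)
    have u16 : T.X z s p q = true := bt (fun t => s326 t n1)
    have u17 : T.X x p q s = false := bf (fun t => g54 u15 u9 t u16)
    have u18 : T.X x z q s = false := bf (fun t => g166 u15 t u16)
    have u19 : T.X a x q s = false := bf (fun t => s256 u10 t u17)
    exact s222 u8 u19 u18
  have s328 : T.alt a x s p q = true → False := fun n1 => by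
    have u1 : T.alt a x z p q = false := bf (fun t => s322 t)
    have u2 : T.alt a z s p q = false := bf (fun t => s327 t)
    exact g106 u1 n1 u2
  have s329 : T.alt a x p z q = true → T.X z s p q = true → T.alt a x s z p = true → False := fun n1 n2 n3 => by
    have u1 : T.alt a x s p q = false := bf (fun t => s328 t)
    have u2 : T.alt a z s p q = false := bf (fun t => s327 t)
    have u3 : T.alt a x s z q = true := bt (fun t => g15 n3 t u1)
    have u4 : T.X a z q s = false := bf (fun t => s273 t n2)
    have u5 : T.X x z q s = true := bt (fun t => s224 u3 u4 t)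
    have u6 : T.X x q z p = false := bf (fun t => g166 t u5 n2)
    have u7 : T.X a s z p = false := bf (fun t => s312 n3 t)
    have u8 : T.X x z p q = false := bf (fun t => s243 n1 t)
    have u9 : T.X a q z p = false := bf (fun t => s289 n1 t u6)
    have u10 : T.X x z p s = false := bf (fun t => g119 u8 t u5 n2)
    have u11 : T.alt a z p q s = false := bf (fun t => s266 t u9 u7)
    have u12 : T.X a z p s = true := bt (fun t => s288 n3 t u10)
    have u13 : T.alt a z q p s = true := bt (fun t => g56 u11 t u2)
    exact s260 u13 u12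
  have s330 : T.X z s p q = true → T.alt a x s z p = true → False := fun n1 n2 => by
    have u1 : T.alt a x s p q = false := bf (fun t => s328 t)
    have u2 : T.alt a x z p q = false := bf (fun t => s322 t)
    have u3 : T.alt a x s z q = true := bt (fun t => g15 n2 t u1)
    have u4 : T.X a z q s = false := bf (fun t => s273 t n1)
    have u5 : T.X x z q s = true := bt (fun t => s224 u3 u4 t)
    have u6 : T.alt a x p z q = false := bf (fun t => s329 t n1 n2)
    have u7 : T.alt a x q z p = true := bt (fun t => g44 u2 u6 t)
    have u8 : T.alt a z q p s = true := bt (fun t => g131 u6 u3 t)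
    have u9 : T.X x z p q = false := bf (fun t => s223 u7 t)
    have u10 : T.X a z p s = false := bf (fun t => s260 u8 t)
    have u11 : T.X x z p s = false := bf (fun t => g119 u9 t u5 n1)
    exact s288 n2 u10 u11
  have s331 : T.alt a z q p s = true → T.alt a x s z p = true → False := fun n1 n2 => by
    have u1 : T.alt a x s p q = false := bf (fun t => s328 t)
    have u2 : T.X z s p q = false := bf (fun t => s330 t n2)
    have u3 : T.alt a x s z q = true := bt (fun t => g15 n2 t u1)
    have u4 : T.X a z p s = false := bf (fun t => s260 n1 t)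
    have u5 : T.X a p z s = true := bt (fun t => s290 n1 t u2)
    have u6 : T.X a q z s = false := bf (fun t => s310 n1 t u2)
    have u7 : T.X x z p s = true := bt (fun t => s288 n2 u4 t)
    have u8 : T.X a x z s = true := bt (fun t => g21 n2 t u5 u7)
    exact s280 u3 u8 u6
  have s332 : T.alt a x s z p = true → False := fun n1 => by
    have u1 : T.alt a x s p q = false := bf (fun t => s328 t)
    have u2 : T.alt a z s p q = false := bf (fun t => s327 t)
    have u3 : T.alt a x s z q = true := bt (fun t => g15 n1 t u1)
    have u4 : T.X z s p q = false := bf (fun t => s330 t n1)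
    have u5 : T.alt a z q p s = false := bf (fun t => s331 t n1)
    have u6 : T.alt a z p q s = true := bt (fun t => g56 t u5 u2)
    have u7 : T.X a z q s = false := bf (fun t => s301 u6 t)
    have u8 : T.X a q z s = true := bt (fun t => s267 u6 t u4)
    have u9 : T.X a p z s = false := bf (fun t => s294 u6 t u4)
    have u10 : T.X x z q s = true := bt (fun t => s224 u3 u7 t)
    have u11 : T.X a x z s = true := bt (fun t => g39 u3 t u8 u10)
    exact s257 n1 u11 u9
  have s333 : T.alt a x s z q = true → False := fun n1 => by
    have u1 : T.alt a x s z p = false := bf (fun t => s332 t)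
    have u2 : T.alt a x z p q = false := bf (fun t => s322 t)
    have u3 : T.alt a z s p q = false := bf (fun t => s327 t)
    exact g16 u2 u1 n1 u3
  have s334 : T.X a x z s = true → T.X a p z s = false → T.X a q z s = true → T.alt a z p q s = true → False := fun n1 n2 n3 n4 => by
    have u1 : T.alt a z s p q = false := bf (fun t => s327 t)
    have u2 : T.alt a x s z p = false := bf (fun t => s332 t)
    have u3 : T.alt a x z p q = false := bf (fun t => s322 t)
    have u4 : T.alt a x z p s = false := bf (fun t => s238 t n1 n2)
    have u5 : T.alt a x q z s = true := bt (fun t => g113 u4 u2 t u1)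
    have u6 : T.alt a x p q s = true := bt (fun t => g172 u3 u4 t n4)
    have u7 : T.X a x q s = true := bt (fun t => s292 u5 n1 t n3)
    exact s309 u6 u7
  have s335 : T.X x p y q = false → T.X a p x y = true → T.alt a x q y p = true → T.X a q x p = true → False := fun n1 n2 n3 n4 => by
    have u1 : T.X a y x p = false := bf (fun t => s308 t)
    have u2 : T.X a x y q = false := bf (fun t => g90 n2 t n4 n1)
    exact g55 n3 u1 u2 n4 n1
  have s336 : T.X x z y s = true → T.X a x y s = false → T.alt a x z y s = true → False := fun n1 n2 n3 => by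
    have u1 : T.X a z y s = true := bt (fun t => s311 t n1)
    exact s299 n3 n2 u1 n1
  have s337 : T.X a s x y = true → T.alt a x z y s = true → False := fun n1 n2 => by
    have u1 : T.X a y x z = false := bf (fun t => g84 t)
    have u2 : T.X a x y s = false := bf (fun t => g52 t n1)
    have u3 : T.X x z y s = false := bf (fun t => s336 t u2 n2)
    have u4 : T.X a z y s = false := bf (fun t => g117 n1 t u3)
    exact s218 n2 u1 u2 u4 u3
  have s338 : T.X a q x y = false → T.X a s x q = true → T.alt a x p z s = false → False := fun n1 n2 n3 => by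
    have u1 : T.alt a z s p q = false := bf (fun t => s327 t)
    have u2 : T.alt a x z y p = false := bf (fun t => s321 t)
    have u3 : T.alt a x s z p = false := bf (fun t => s332 t)
    have u4 : T.X a z x y = true := bt (fun t => g82 t)
    have u5 : T.X a y x q = false := bf (fun t => s295 t)
    have u6 : T.alt a x z y q = false := bf (fun t => s319 t)
    have u7 : T.alt a x z y s = true := bt (fun t => g136 u2 t n3 u3)
    have u8 : T.X a s x y = false := bf (fun t => s337 t u7)
    have u9 : T.alt a x q z s = false := bf (fun t => g74 n3 t u1)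
    have u10 : T.alt a x z p s = true := bt (fun t => g113 t u3 u9 u1)
    have u11 : T.alt a y p z s = false := bf (fun t => g86 u2 u10 t)
    have u12 : T.alt a y q z s = false := bf (fun t => g97 u11 t u1)
    have u13 : T.alt a x q y z = false := bf (fun t => s254 t u4 n1)
    have u14 : T.alt a x y q s = false := bf (fun t => g78 t u5 n1 u8 n2)
    have u15 : T.alt a x y z q = true := bt (fun t => g167 t u6 u13)
    exact g165 u15 u14 u9 u12
  have s339 : T.X a s x q = true → T.alt a x p z s = false → False := fun n1 n2 => by
    have u1 : T.alt a x z y p = false := bf (fun t => s321 t)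
    have u2 : T.alt a x s z p = false := bf (fun t => s332 t)
    have u3 : T.alt a x z y q = false := bf (fun t => s319 t)
    have u4 : T.alt a x z y s = true := bt (fun t => g136 u1 t n2 u2)
    have u5 : T.X a s x y = false := bf (fun t => s337 t u4)
    have u6 : T.X a q x y = true := bt (fun t => s338 t n1 n2)
    have u7 : T.alt a x y z q = false := bf (fun t => s259 t u6)
    have u8 : T.alt a x q y s = false := bf (fun t => g60 t u6 u5 n1)
    exact g148 u7 u3 u4 u8
  have s340 : T.alt a x y z p = true → T.X a s x p = true → T.X a s x y = false → T.alt a x z p s = true → False := fun n1 n2 n3 n4 => by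
    have u1 : T.X x y z p = false := bf (fun t => s316 t)
    have u2 : T.X a z x y = true := bt (fun t => g82 t)
    have u3 : T.X a y x p = false := bf (fun t => s308 t)
    have u4 : T.X a p x y = false := bf (fun t => g57 n1 u2 t u1)
    have u5 : T.alt a x y p s = true := bt (fun t => g169 n1 t n4)
    exact g174 u5 u3 u4 n3 n2
  have s341 : T.X a s x p = true → T.alt a x z p s = true → T.X a s x y = false → False := fun n1 n2 n3 => by
    have u1 : T.X a z x y = true := bt (fun t => g82 t)
    have u2 : T.alt a x z y p = false := bf (fun t => s321 t)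
    have u3 : T.alt a x y z p = false := bf (fun t => s340 t n1 n3 n2)
    have u4 : T.alt a x p y z = true := bt (fun t => g110 u3 u2 t)
    have u5 : T.alt a x p y s = true := bt (fun t => g94 u3 u2 t n2)
    have u6 : T.X a p x y = true := bt (fun t => s234 u4 u1 t)
    exact g125 u5 u6 n3 n1
  have s342 : T.alt a z q p s = false → T.alt a x p z q = true → T.X z s p q = false → False := fun n1 n2 n3 => by
    have u1 : T.alt a x s p q = false := bf (fun t => s328 t)
    have u2 : T.alt a x z p q = false := bf (fun t => s322 t)
    have u3 : T.alt a x z y p = false := bf (fun t => s321 t)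
    have u4 : T.alt a z s p q = false := bf (fun t => s327 t)
    have u5 : T.alt a x s z p = false := bf (fun t => s332 t)
    have u6 : T.alt a z p q s = true := bt (fun t => g56 t n1 u4)
    have u7 : T.alt a x q z p = true := bt (fun t => g38 u2 t u5 u1 n1)
    have u8 : T.X a q z s = true := bt (fun t => s267 u6 t n3)
    have u9 : T.X a p z s = false := bf (fun t => s294 u6 t n3)
    have u10 : T.X a x z s = false := bf (fun t => s334 t u9 u8 u6)
    have u11 : T.alt a x p z s = false := bf (fun t => s236 t u10 u9)
    have u12 : T.alt a x q z s = false := bf (fun t => g74 u11 t u4)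
    have u13 : T.alt a x z y s = true := bt (fun t => g136 u3 t u11 u5)
    have u14 : T.alt a x z p s = true := bt (fun t => g113 t u5 u12 u4)
    have u15 : T.alt a x q p s = true := bt (fun t => g126 u7 u12 t)
    have u16 : T.alt a x p q s = true := bt (fun t => g101 n2 u14 t)
    have u17 : T.X a s x y = false := bf (fun t => s337 t u13)
    have u18 : T.X a s x q = false := bf (fun t => s339 t u11)
    have u19 : T.X a q x p = false := bf (fun t => s268 u15 t u18)
    have u20 : T.X a s x p = true := bt (fun t => s263 u16 u19 t)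
    exact s341 u20 u14 u17
  have s343 : T.X x p y q = true → T.X a x y s = true → T.alt a y s p q = true → T.alt a x y q s = true → T.X x y p s = true → T.X x q p s = false → False := fun n1 n2 n3 n4 n5 n6 => by
    have u1 : T.X a y x q = false := bf (fun t => s295 t)
    have u2 : T.X y s p q = false := bf (fun t => g208 n1 n5 t)
    have u3 : T.X x q y s = false := bf (fun t => g140 n1 n5 t n6)
    have u4 : T.X a q y s = false := bf (fun t => s262 n3 t u2)
    exact g36 n4 u1 n2 u4 u3
  have s344 : T.X x p y q = false → T.alt a x y p q = true → T.alt a x y q s = true → T.X a q x y = false → T.X a p x y = true → T.X a q x p = true → T.X a s x y = false → False := fun n1 n2 n3 n4 n5 n6 n7 => by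
    have u1 : T.alt a x s p q = false := bf (fun t => s328 t)
    have u2 : T.X a y x p = false := bf (fun t => s308 t)
    have u3 : T.alt a y s p q = true := bt (fun t => g46 n2 u1 t)
    have u4 : T.X a x y q = false := bf (fun t => g90 n5 t n6 n1)
    have u5 : T.X a p y q = true := bt (fun t => g154 n2 u2 n6 t n1)
    have u6 : T.X a s y q = false := bf (fun t => g79 n3 u4 n4 n7 t)
    exact s307 u3 u5 u6
  have s345 : T.alt a x y z q = true → T.X a y p s = false → T.X x y p s = true → T.alt a x p y s = true → T.alt a x p y z = true → T.X a q x p = true → T.X x q p s = false → T.alt a x q z s = false → T.alt a y q z s = false → T.X a s x y = false → False := fun n1 n2 n3 n4 n5 n6 n7 n8 n9 n10 => by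
    have u1 : T.X a z x y = true := bt (fun t => g82 t)
    have u2 : T.alt a x s p q = false := bf (fun t => s328 t)
    have u3 : T.X a p x y = true := bt (fun t => s234 n5 u1 t)
    have u4 : T.X a q x y = false := bf (fun t => s259 n1 t)
    have u5 : T.alt a x y q s = true := bt (fun t => g165 n1 t n8 n9)
    have u6 : T.alt a x y p q = true := bt (fun t => g88 n5 n1 t)
    have u7 : T.alt a y s p q = true := bt (fun t => g46 u6 u2 t)
    have u8 : T.X x p y q = true := bt (fun t => s344 t u6 u5 u4 u3 n6 n10)
    have u9 : T.X y s p q = false := bf (fun t => g208 u8 n3 t)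
    have u10 : T.X a x y s = false := bf (fun t => s343 u8 t u7 u5 n3 n7)
    have u11 : T.X a p y s = false := bf (fun t => s283 u7 t u9)
    exact g121 n4 u10 n10 n2 u11 n3
  have s346 : T.alt a x p y z = true → T.alt a x z p s = true → T.X a s x y = false → T.alt a x p z q = true → False := fun n1 n2 n3 n4 => by
    have u1 : T.alt a z s p q = false := bf (fun t => s327 t)
    have u2 : T.alt a x s z p = false := bf (fun t => s332 t)
    have u3 : T.X x y z p = false := bf (fun t => s316 t)
    have u4 : T.alt a x z y p = false := bf (fun t => s321 t)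
    have u5 : T.X a y x p = false := bf (fun t => s308 t)
    have u6 : T.alt a x z y q = false := bf (fun t => s319 t)
    have u7 : T.X a z x y = true := bt (fun t => g82 t)
    have u8 : T.alt a x p q s = true := bt (fun t => g101 n4 n2 t)
    have u9 : T.X x q p s = false := bf (fun t => s219 u8 t)
    have u10 : T.alt a x p z s = false := bf (fun t => g99 n2 t)
    have u11 : T.X a s x q = false := bf (fun t => s339 t u10)
    have u12 : T.X a x p s = false := bf (fun t => s226 t u11 u9)
    have u13 : T.X a s x p = false := bf (fun t => s341 t n2 n3)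
    have u14 : T.X a q x p = true := bt (fun t => s263 u8 t u13)
    have u15 : T.X a x q s = false := bf (fun t => s309 u8 t)
    have u16 : T.alt a x z y s = true := bt (fun t => g136 u4 t u10 u2)
    have u17 : T.alt a x q z s = false := bf (fun t => g74 u10 t u1)
    have u18 : T.alt a y p z s = false := bf (fun t => g86 u4 n2 t)
    have u19 : T.alt a y q z s = false := bf (fun t => g97 u18 t u1)
    have u20 : T.X a p x y = true := bt (fun t => s234 n1 u7 t)
    have u21 : T.alt a x y z p = false := bf (fun t => g57 t u7 u20 u3)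
    have u22 : T.alt a x p y s = true := bt (fun t => g94 u21 u4 t n2)
    have u23 : T.X x y p s = true := bt (fun t => g62 u22 u20 n3 u12 t)
    have u24 : T.X a y p s = false := bf (fun t => g193 u22 u5 u12 u13 t)
    have u25 : T.alt a x y z q = false := bf (fun t => s345 t u24 u23 u22 n1 u14 u9 u17 u19 n3)
    have u26 : T.alt a x q y p = true := bt (fun t => g197 u25 u6 t n4)
    have u27 : T.alt a x q y z = true := bt (fun t => g167 u25 u6 t)
    have u28 : T.alt a x q y s = true := bt (fun t => g148 u25 u6 u16 t)
    have u29 : T.X x p y q = true := bt (fun t => s335 t u20 u26 u14)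
    have u30 : T.X a q x y = true := bt (fun t => s254 u27 u7 t)
    have u31 : T.X x y q s = true := bt (fun t => g210 u28 u30 n3 u15 t)
    have u32 : T.X x s p q = false := bf (fun t => g116 u29 u31 t)
    have u33 : T.X a p x s = false := bf (fun t => s274 u8 t u32)
    have u34 : T.X a q x s = true := bt (fun t => s314 u8 t u32)
    have u35 : T.X a z x s = false := bf (fun t => s293 n2 t u33)
    have u36 : T.X a y x s = true := bt (fun t => g188 u28 u30 t n3 u34)
    exact g14 u16 u7 u36 u35
  have s349 : T.X a y p q = true → T.alt a y q z p = true → T.X a q x y = false → T.X a q x p = true → T.alt a x p z q = true → False := fun n1 n2 n3 n4 n5 => by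
    have u1 : T.X a y z p = false := bf (fun t => s306 t)
    have u2 : T.X a y x p = false := bf (fun t => s308 t)
    have u3 : T.X a q z p = true := bt (fun t => s217 n2 u1 n1 t)
    have u4 : T.X x y p q = true := bt (fun t => g87 u2 n3 n4 n1 t)
    have u5 : T.X a z y p = false := bf (fun t => s285 n2 t n1)
    have u6 : T.X x q z p = true := bt (fun t => s289 n5 u3 t)
    have u7 : T.X x z y p = false := bf (fun t => g196 t u4 u6)
    exact s291 u5 u7
  have s350 : T.X x s p q = false → T.X x y q s = true → T.alt a x y q s = true → T.alt a x p q s = true → T.alt a x z p s = true → T.X a s x y = false → False := fun n1 n2 n3 n4 n5 n6 => by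
    have u1 : T.alt a x z y p = false := bf (fun t => s321 t)
    have u2 : T.alt a x s z p = false := bf (fun t => s332 t)
    have u3 : T.X a z x y = true := bt (fun t => g82 t)
    have u4 : T.alt a x p z s = false := bf (fun t => g99 n5 t)
    have u5 : T.alt a x z y s = true := bt (fun t => g136 u1 t u4 u2)
    have u6 : T.X a p x s = false := bf (fun t => s274 n4 t n1)
    have u7 : T.X a q x s = true := bt (fun t => s314 n4 t n1)
    have u8 : T.X a z x s = false := bf (fun t => s293 n5 t u6)
    have u9 : T.X a y x s = true := bt (fun t => g198 n3 t n6 u7 n2)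
    exact g14 u5 u3 u9 u8
  have s351 : T.alt a x z p s = true → T.X a s x y = false → T.alt a z p q s = false → T.alt a x p z q = true → False := fun n1 n2 n3 n4 => by
    have u1 : T.alt a z s p q = false := bf (fun t => s327 t)
    have u2 : T.alt a x z y p = false := bf (fun t => s321 t)
    have u3 : T.X x y z p = false := bf (fun t => s316 t)
    have u4 : T.alt a x s z q = false := bf (fun t => s333 t)
    have u5 : T.X a z x y = true := bt (fun t => g82 t)
    have u6 : T.alt a x z y q = false := bf (fun t => s319 t)
    have u7 : T.X a y x p = false := bf (fun t => s308 t)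
    have u8 : T.alt a y p z s = false := bf (fun t => g86 u2 n1 t)
    have u9 : T.alt a x p z s = false := bf (fun t => g99 n1 t)
    have u10 : T.alt a x p q s = true := bt (fun t => g101 n4 n1 t)
    have u11 : T.X a s x p = false := bf (fun t => s341 t n1 n2)
    have u12 : T.alt a y q z s = false := bf (fun t => g97 u8 t u1)
    have u13 : T.alt a x q z s = false := bf (fun t => g74 u9 t u1)
    have u14 : T.X a s x q = false := bf (fun t => s339 t u9)
    have u15 : T.X x q p s = false := bf (fun t => s219 u10 t)
    have u16 : T.X a x q s = false := bf (fun t => s309 u10 t)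
    have u17 : T.X a q x p = true := bt (fun t => s263 u10 t u11)
    have u18 : T.X a x p s = false := bf (fun t => s226 t u14 u15)
    have u19 : T.alt a x p y z = false := bf (fun t => s346 t n1 n2 n4)
    have u20 : T.alt a x y z p = true := bt (fun t => g110 t u2 u19)
    have u21 : T.alt a y z p q = false := bf (fun t => g40 u19 n4 t)
    have u22 : T.X a p x y = false := bf (fun t => g57 u20 u5 t u3)
    have u23 : T.alt a x y p s = true := bt (fun t => g169 u20 t n1)
    have u24 : T.alt a x y z q = true := bt (fun t => g149 u19 t u6 u21)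
    have u25 : T.X a q x y = false := bf (fun t => s259 u24 t)
    have u26 : T.alt a y z q s = false := bf (fun t => g33 u24 u4 t)
    have u27 : T.alt a x y q s = true := bt (fun t => g165 u24 t u13 u12)
    have u28 : T.alt a x q y z = false := bf (fun t => s254 t u5 u25)
    have u29 : T.alt a y q p s = true := bt (fun t => g111 u21 u8 u26 u12 t n3)
    have u30 : T.alt a y q z p = true := bt (fun t => g142 u6 u28 n4 u21 t)
    have u31 : T.X a y p q = false := bf (fun t => s349 t u30 u25 u17 n4)
    have u32 : T.X a y p s = false := bf (fun t => s251 u29 u31 t)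
    have u33 : T.X y p q s = false := bf (fun t => s228 u29 u31 t)
    have u34 : T.X a y q s = false := bf (fun t => s231 u29 u31 t)
    have u35 : T.X x y p q = false := bf (fun t => g72 u7 u25 u17 u31 t)
    have u36 : T.X x y p s = true := bt (fun t => g201 u23 u22 n2 u18 u32 t)
    have u37 : T.X x y q s = true := bt (fun t => g183 u27 u25 n2 u16 u34 t)
    have u38 : T.X x s p q = true := bt (fun t => s350 t u37 u27 u10 n1 n2)
    have u39 : T.X y q p s = false := bf (fun t => g51 u35 u37 u38 t)
    exact g109 u36 u37 u38 u33 u39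
  have s352 : T.alt a x z p s = false → T.X a q z s = false → T.X a p z s = true → T.alt a z p q s = false → False := fun n1 n2 n3 n4 => by
    have u1 : T.alt a x s z p = false := bf (fun t => s332 t)
    have u2 : T.alt a z s p q = false := bf (fun t => s327 t)
    have u3 : T.X a x z p = false := bf (fun t => s313 t)
    have u4 : T.alt a x q p s = true := bt (fun t => g151 n1 t n4 u2)
    have u5 : T.alt a x q z s = true := bt (fun t => g113 n1 u1 t u2)
    have u6 : T.X a s x q = false := bf (fun t => s241 u5 t)
    have u7 : T.alt a x p z s = true := bt (fun t => g74 t u5 u2)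
    have u8 : T.X a x z s = true := bt (fun t => s278 u5 t n2)
    have u9 : T.X x q p s = false := bf (fun t => s287 u4 u6 t)
    have u10 : T.X a x p s = false := bf (fun t => s226 t u6 u9)
    exact g203 u7 u3 u8 u10 n3
  have s353 : T.alt a x p z q = true → T.X z s p q = false → False := fun n1 n2 => by
    have u1 : T.alt a x z y p = false := bf (fun t => s321 t)
    have u2 : T.alt a x s z p = false := bf (fun t => s332 t)
    have u3 : T.alt a z q p s = true := bt (fun t => s342 t n1 n2)
    have u4 : T.alt a z p q s = false := bf (fun t => g209 t u3)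
    have u5 : T.X a p z s = true := bt (fun t => s290 u3 t n2)
    have u6 : T.X a q z s = false := bf (fun t => s310 u3 t n2)
    have u7 : T.alt a x z p s = true := bt (fun t => s352 t u6 u5 u4)
    have u8 : T.alt a x p z s = false := bf (fun t => g99 u7 t)
    have u9 : T.X a s x y = true := bt (fun t => s351 u7 t u4 n1)
    have u10 : T.alt a x z y s = true := bt (fun t => g136 u1 t u8 u2)
    exact s337 u9 u10
  have s355 : T.X a p y q = false → T.X a q z p = false → T.X a p z q = true → T.X x y p q = true → T.alt a y p z q = true → T.X x z p q = false → False := fun n1 n2 n3 n4 n5 n6 => by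
    have u1 : T.X a y z p = false := bf (fun t => s306 t)
    have u2 : T.X x y z p = false := bf (fun t => s316 t)
    have u3 : T.X a z y q = false := bf (fun t => g189 n5 t n1 n3)
    have u4 : T.X x z y q = true := bt (fun t => s232 u3 t)
    have u5 : T.X y q z p = false := bf (fun t => g71 n5 u1 u3 n1 n2 t)
    exact g155 u2 u4 n4 n6 u5
  have s356 : T.X y s p q = true → T.alt a y p q s = true → T.alt a x y p s = true → T.X a p x y = false → T.X x y q s = true → T.X z s p q = false → False := fun n1 n2 n3 n4 n5 n6 => by
    have u1 : T.alt a x z y p = false := bf (fun t => s321 t)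
    have u2 : T.alt a x s z p = false := bf (fun t => s332 t)
    have u3 : T.alt a x s z q = false := bf (fun t => s333 t)
    have u4 : T.alt a z s p q = false := bf (fun t => s327 t)
    have u5 : T.alt a x z p q = false := bf (fun t => s322 t)
    have u6 : T.X a q p s = false := bf (fun t => s258 t)
    have u7 : T.alt a x p z q = false := bf (fun t => s353 t n6)
    have u8 : T.alt a x q z p = true := bt (fun t => g44 u5 u7 t)
    have u9 : T.alt a z p q s = true := bt (fun t => g206 u7 u3 t u4)
    have u10 : T.X a p z s = false := bf (fun t => s294 u9 t n6)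
    have u11 : T.X a q z s = true := bt (fun t => s267 u9 t n6)
    have u12 : T.X a x z s = false := bf (fun t => s334 t u10 u11 u9)
    have u13 : T.alt a x p z s = false := bf (fun t => s236 t u12 u10)
    have u14 : T.alt a x q z s = false := bf (fun t => g74 u13 t u4)
    have u15 : T.alt a x q p s = true := bt (fun t => g126 u8 u14 t)
    have u16 : T.X x p q s = false := bf (fun t => s250 u15 t)
    have u17 : T.X a s x q = false := bf (fun t => s339 t u13)
    have u18 : T.X x q p s = false := bf (fun t => s287 u15 u17 t)
    have u19 : T.X a x p s = false := bf (fun t => s226 t u17 u18)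
    have u20 : T.alt a x z y s = true := bt (fun t => g136 u1 t u13 u2)
    have u21 : T.X a s x y = false := bf (fun t => s337 t u20)
    have u22 : T.X a y p s = false := bf (fun t => g93 n2 t u6 n1)
    have u23 : T.X x y p s = false := bf (fun t => g81 t n5 u16 u18 n1)
    exact g201 n3 n4 u21 u19 u22 u23
  have s357 : T.X a y p q = true → T.X a p y q = false → T.alt a x q y p = true → T.X a p x y = false → T.alt a y p z q = true → T.X z s p q = false → False := fun n1 n2 n3 n4 n5 n6 => by
    have u1 : T.alt a x s z q = false := bf (fun t => s333 t)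
    have u2 : T.alt a z s p q = false := bf (fun t => s327 t)
    have u3 : T.alt a x z p q = false := bf (fun t => s322 t)
    have u4 : T.alt a x p z q = false := bf (fun t => s353 t n6)
    have u5 : T.alt a x q z p = true := bt (fun t => g44 u3 u4 t)
    have u6 : T.alt a z p q s = true := bt (fun t => g206 u4 u1 t u2)
    have u7 : T.X a p z s = false := bf (fun t => s294 u6 t n6)
    have u8 : T.X a q z s = true := bt (fun t => s267 u6 t n6)
    have u9 : T.X a x z s = false := bf (fun t => s334 t u7 u8 u6)
    have u10 : T.alt a x p z s = false := bf (fun t => s236 t u9 u7)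
    have u11 : T.alt a x q z s = false := bf (fun t => g74 u10 t u2)
    have u12 : T.alt a x q p s = true := bt (fun t => g126 u5 u11 t)
    have u13 : T.X a s x q = false := bf (fun t => s339 t u10)
    have u14 : T.X a q x p = false := bf (fun t => s268 u12 t u13)
    have u15 : T.X x z p q = false := bf (fun t => s223 u5 t)
    have u16 : T.X a p z q = true := bt (fun t => s245 n5 n1 t)
    have u17 : T.X x y p q = true := bt (fun t => s269 n3 n4 n1 t)
    have u18 : T.X x p z q = true := bt (fun t => s227 u5 u16 t)
    have u19 : T.X a q z p = true := bt (fun t => s355 n2 t u16 u17 n5 u15)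
    exact s230 u14 u19 u18
  have s358 : T.alt a x y z q = true → T.X a y q s = false → T.X z s p q = false → False := fun n1 n2 n3 => by
    have u1 : T.alt a x s z p = false := bf (fun t => s332 t)
    have u2 : T.alt a z s p q = false := bf (fun t => s327 t)
    have u3 : T.alt a x z p q = false := bf (fun t => s322 t)
    have u4 : T.alt a x s z q = false := bf (fun t => s333 t)
    have u5 : T.alt a x s p q = false := bf (fun t => s328 t)
    have u6 : T.alt a x z y p = false := bf (fun t => s321 t)
    have u7 : T.X x y z p = false := bf (fun t => s316 t)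
    have u8 : T.X a z x y = true := bt (fun t => g82 t)
    have u9 : T.X a y x q = false := bf (fun t => s295 t)
    have u10 : T.X a y x p = false := bf (fun t => s308 t)
    have u11 : T.alt a x p z q = false := bf (fun t => s353 t n3)
    have u12 : T.alt a x q z p = true := bt (fun t => g44 u3 u11 t)
    have u13 : T.alt a z p q s = true := bt (fun t => g206 u11 u4 t u2)
    have u14 : T.X a p z s = false := bf (fun t => s294 u13 t n3)
    have u15 : T.X a q z s = true := bt (fun t => s267 u13 t n3)
    have u16 : T.X a x z s = false := bf (fun t => s334 t u14 u15 u13)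
    have u17 : T.alt a x p z s = false := bf (fun t => s236 t u16 u14)
    have u18 : T.alt a x q z s = false := bf (fun t => g74 u17 t u2)
    have u19 : T.alt a x q p s = true := bt (fun t => g126 u12 u18 t)
    have u20 : T.X x p q s = false := bf (fun t => s250 u19 t)
    have u21 : T.alt a x z p s = true := bt (fun t => g113 t u1 u18 u2)
    have u22 : T.alt a x z y s = true := bt (fun t => g136 u6 t u17 u1)
    have u23 : T.X a s x y = false := bf (fun t => s337 t u22)
    have u24 : T.X a s x p = false := bf (fun t => s341 t u21 u23)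
    have u25 : T.X a x q s = false := bf (fun t => s256 u24 t u20)
    have u26 : T.X a s x q = false := bf (fun t => s339 t u17)
    have u27 : T.X a q x p = false := bf (fun t => s268 u19 t u26)
    have u28 : T.alt a x p q s = false := bf (fun t => s263 t u27 u24)
    have u29 : T.alt a y p z s = false := bf (fun t => g86 u6 u21 t)
    have u30 : T.alt a y q z s = false := bf (fun t => g97 u29 t u2)
    have u31 : T.X a p x q = true := bt (fun t => s300 u19 t u26)
    have u32 : T.X a q x y = false := bf (fun t => s259 n1 t)
    have u33 : T.alt a y z q s = false := bf (fun t => g33 n1 u4 t)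
    have u34 : T.alt a x y q s = true := bt (fun t => g165 n1 t u18 u30)
    have u35 : T.alt a y s p q = false := bf (fun t => g85 u33 t u13)
    have u36 : T.X x y q s = true := bt (fun t => g183 u34 u32 u23 u25 n2 t)
    have u37 : T.alt a x y p q = false := bf (fun t => g46 t u5 u35)
    have u38 : T.alt a x p y z = false := bf (fun t => g88 t n1 u37)
    have u39 : T.alt a y p z q = true := bt (fun t => g194 u6 u38 u37 u12 t)
    have u40 : T.alt a x y z p = true := bt (fun t => g110 t u6 u38)
    have u41 : T.X a p x y = false := bf (fun t => g57 u40 u8 t u7)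
    have u42 : T.alt a x y p s = true := bt (fun t => g169 u40 t u21)
    have u43 : T.alt a y p q s = true := bt (fun t => g9 u37 u42 u28 t)
    have u44 : T.alt a x q y p = true := bt (fun t => g133 t u42 u19 u35)
    have u45 : T.X y s p q = false := bf (fun t => s356 t u43 u42 u41 u36 n3)
    have u46 : T.X a p y q = false := bf (fun t => s303 u43 t u45)
    have u47 : T.X a p y s = false := bf (fun t => s276 u43 t u45)
    have u48 : T.X a y p q = false := bf (fun t => s357 t u46 u44 u41 u39 n3)
    have u49 : T.X x y p q = false := bf (fun t => g35 u41 u9 u31 u48 t)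
    have u50 : T.X a q y s = true := bt (fun t => s225 u43 u48 t u45)
    have u51 : T.X x p y s = false := bf (fun t => g147 u49 t u36 u20 u45)
    have u52 : T.X a x y s = true := bt (fun t => g92 u32 t u25 u50 u36)
    exact g195 u42 u10 u52 u47 u51
  have s360 : T.X y s p q = false → T.X x y p q = false → T.alt a y s p q = true → T.alt a x y p s = true → T.alt a x y z q = false → T.X z s p q = false → False := fun n1 n2 n3 n4 n5 n6 => by
    have u1 : T.alt a x z y q = false := bf (fun t => s319 t)
    have u2 : T.X a z x y = true := bt (fun t => g82 t)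
    have u3 : T.alt a x z y p = false := bf (fun t => s321 t)
    have u4 : T.alt a x s z p = false := bf (fun t => s332 t)
    have u5 : T.alt a x s z q = false := bf (fun t => s333 t)
    have u6 : T.alt a z s p q = false := bf (fun t => s327 t)
    have u7 : T.alt a x z p q = false := bf (fun t => s322 t)
    have u8 : T.X a y x p = false := bf (fun t => s308 t)
    have u9 : T.alt a x p z q = false := bf (fun t => s353 t n6)
    have u10 : T.alt a x q z p = true := bt (fun t => g44 u7 u9 t)
    have u11 : T.alt a z p q s = true := bt (fun t => g206 u9 u5 t u6)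
    have u12 : T.X a p z s = false := bf (fun t => s294 u11 t n6)
    have u13 : T.X a q z s = true := bt (fun t => s267 u11 t n6)
    have u14 : T.X a x z s = false := bf (fun t => s334 t u12 u13 u11)
    have u15 : T.alt a x p z s = false := bf (fun t => s236 t u14 u12)
    have u16 : T.alt a x q z s = false := bf (fun t => g74 u15 t u6)
    have u17 : T.alt a x q p s = true := bt (fun t => g126 u10 u16 t)
    have u18 : T.X x p q s = false := bf (fun t => s250 u17 t)
    have u19 : T.alt a x z p s = true := bt (fun t => g113 t u4 u16 u6)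
    have u20 : T.alt a x z y s = true := bt (fun t => g136 u3 t u15 u4)
    have u21 : T.X a s x y = false := bf (fun t => s337 t u20)
    have u22 : T.X a s x p = false := bf (fun t => s341 t u19 u21)
    have u23 : T.X a x q s = false := bf (fun t => s256 u22 t u18)
    have u24 : T.alt a x q y z = true := bt (fun t => g167 n5 u1 t)
    have u25 : T.X a q x y = true := bt (fun t => s254 u24 u2 t)
    have u26 : T.alt a x q y s = true := bt (fun t => g148 n5 u1 u20 t)
    have u27 : T.X x y q s = true := bt (fun t => g210 u26 u25 u21 u23 t)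
    have u28 : T.X a q y s = false := bf (fun t => s262 n3 t n1)
    have u29 : T.X a p y s = false := bf (fun t => s283 n3 t n1)
    have u30 : T.X x p y s = false := bf (fun t => g147 n2 t u27 u18 n1)
    have u31 : T.X a x y s = true := bt (fun t => g162 u26 u25 t u21 u28)
    exact g195 n4 u8 u31 u29 u30
  have s361 : T.X a p x y = false → T.X a y q s = false → T.X z s p q = false → False := fun n1 n2 n3 => by
    have u1 : T.alt a x s z p = false := bf (fun t => s332 t)
    have u2 : T.alt a x s z q = false := bf (fun t => s333 t)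
    have u3 : T.alt a z s p q = false := bf (fun t => s327 t)
    have u4 : T.alt a x z p q = false := bf (fun t => s322 t)
    have u5 : T.X a z x y = true := bt (fun t => g82 t)
    have u6 : T.alt a x z y p = false := bf (fun t => s321 t)
    have u7 : T.alt a x z y q = false := bf (fun t => s319 t)
    have u8 : T.X a y x q = false := bf (fun t => s295 t)
    have u9 : T.alt a x p z q = false := bf (fun t => s353 t n3)
    have u10 : T.alt a x q z p = true := bt (fun t => g44 u4 u9 t)
    have u11 : T.alt a z p q s = true := bt (fun t => g206 u9 u2 t u3)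
    have u12 : T.X a p z s = false := bf (fun t => s294 u11 t n3)
    have u13 : T.X a q z s = true := bt (fun t => s267 u11 t n3)
    have u14 : T.X a x z s = false := bf (fun t => s334 t u12 u13 u11)
    have u15 : T.alt a x p z s = false := bf (fun t => s236 t u14 u12)
    have u16 : T.alt a x q z s = false := bf (fun t => g74 u15 t u3)
    have u17 : T.alt a x q p s = true := bt (fun t => g126 u10 u16 t)
    have u18 : T.X x p q s = false := bf (fun t => s250 u17 t)
    have u19 : T.alt a x z p s = true := bt (fun t => g113 t u1 u16 u3)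
    have u20 : T.alt a x z y s = true := bt (fun t => g136 u6 t u15 u1)
    have u21 : T.X a s x y = false := bf (fun t => s337 t u20)
    have u22 : T.X a s x p = false := bf (fun t => s341 t u19 u21)
    have u23 : T.X a x q s = false := bf (fun t => s256 u22 t u18)
    have u24 : T.alt a x y z q = false := bf (fun t => s358 t n2 n3)
    have u25 : T.alt a x q y z = true := bt (fun t => g167 u24 u7 t)
    have u26 : T.X a q x y = true := bt (fun t => s254 u25 u5 t)
    have u27 : T.alt a x q y s = true := bt (fun t => g148 u24 u7 u20 t)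
    have u28 : T.X x y q s = true := bt (fun t => g210 u27 u26 u21 u23 t)
    have u29 : T.X a s y q = false := bf (fun t => g202 u27 u26 u21 t)
    have u30 : T.X a s x q = false := bf (fun t => s339 t u15)
    have u31 : T.X a p x q = true := bt (fun t => s300 u17 t u30)
    have u32 : T.X x q p s = false := bf (fun t => s287 u17 u30 t)
    have u33 : T.X a x p s = false := bf (fun t => s226 t u30 u32)
    have u34 : T.alt a x p y z = false := bf (fun t => s234 t u5 n1)
    have u35 : T.alt a x y z p = true := bt (fun t => g110 t u6 u34)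
    have u36 : T.alt a y z p q = true := bt (fun t => g149 u34 u24 u7 t)
    have u37 : T.alt a x y p s = true := bt (fun t => g169 u35 t u19)
    have u38 : T.alt a y s p q = true := bt (fun t => g27 u36 t u11)
    have u39 : T.X a y p q = false := bf (fun t => s229 u38 t n2 u29)
    have u40 : T.X x y p q = false := bf (fun t => g35 n1 u8 u31 u39 t)
    have u41 : T.X y s p q = true := bt (fun t => s360 t u40 u38 u37 u24 n3)
    have u42 : T.X a y p s = false := bf (fun t => s248 u39 t u41)
    have u43 : T.X x y p s = false := bf (fun t => g81 t u28 u18 u32 u41)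
    exact g201 u37 n1 u21 u33 u42 u43
  have s362 : T.X a y q s = false → T.X z s p q = false → False := fun n1 n2 => by
    have u1 : T.alt a x s z p = false := bf (fun t => s332 t)
    have u2 : T.alt a x s z q = false := bf (fun t => s333 t)
    have u3 : T.alt a z s p q = false := bf (fun t => s327 t)
    have u4 : T.alt a x z p q = false := bf (fun t => s322 t)
    have u5 : T.alt a x z y q = false := bf (fun t => s319 t)
    have u6 : T.X x y z p = false := bf (fun t => s316 t)
    have u7 : T.X a z x y = true := bt (fun t => g82 t)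
    have u8 : T.alt a x z y p = false := bf (fun t => s321 t)
    have u9 : T.X a y x p = false := bf (fun t => s308 t)
    have u10 : T.alt a x p z q = false := bf (fun t => s353 t n2)
    have u11 : T.alt a x q z p = true := bt (fun t => g44 u4 u10 t)
    have u12 : T.alt a z p q s = true := bt (fun t => g206 u10 u2 t u3)
    have u13 : T.X a p z s = false := bf (fun t => s294 u12 t n2)
    have u14 : T.X a q z s = true := bt (fun t => s267 u12 t n2)
    have u15 : T.X a x z s = false := bf (fun t => s334 t u13 u14 u12)
    have u16 : T.alt a x p z s = false := bf (fun t => s236 t u15 u13)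
    have u17 : T.alt a x q z s = false := bf (fun t => g74 u16 t u3)
    have u18 : T.alt a x q p s = true := bt (fun t => g126 u11 u17 t)
    have u19 : T.X x p q s = false := bf (fun t => s250 u18 t)
    have u20 : T.alt a x z p s = true := bt (fun t => g113 t u1 u17 u3)
    have u21 : T.alt a x z y s = true := bt (fun t => g136 u8 t u16 u1)
    have u22 : T.X a s x y = false := bf (fun t => s337 t u21)
    have u23 : T.X a s x p = false := bf (fun t => s341 t u20 u22)
    have u24 : T.X a x q s = false := bf (fun t => s256 u23 t u19)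
    have u25 : T.X a s x q = false := bf (fun t => s339 t u16)
    have u26 : T.X a q x p = false := bf (fun t => s268 u18 t u25)
    have u27 : T.X x q p s = false := bf (fun t => s287 u18 u25 t)
    have u28 : T.X a x p s = false := bf (fun t => s226 t u25 u27)
    have u29 : T.alt a x s y q = false := bf (fun t => g80 u5 t u17 u2)
    have u30 : T.alt a x y z q = false := bf (fun t => s358 t n1 n2)
    have u31 : T.alt a x q y z = true := bt (fun t => g167 u30 u5 t)
    have u32 : T.alt a x q y s = true := bt (fun t => g148 u30 u5 u21 t)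
    have u33 : T.X a q x y = true := bt (fun t => s254 u31 u7 t)
    have u34 : T.X x y q s = true := bt (fun t => g210 u32 u33 u22 u24 t)
    have u35 : T.X a p x y = true := bt (fun t => s361 t n1 n2)
    have u36 : T.alt a x y z p = false := bf (fun t => g57 t u7 u35 u6)
    have u37 : T.alt a x p y z = true := bt (fun t => g110 u36 u8 t)
    have u38 : T.alt a x p y s = true := bt (fun t => g94 u36 u8 t u20)
    have u39 : T.alt a x y p s = false := bf (fun t => g135 u37 t u20)
    have u40 : T.X x y p s = true := bt (fun t => g62 u38 u35 u22 u28 t)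
    have u41 : T.alt a y q p s = true := bt (fun t => g143 u39 u18 t)
    have u42 : T.alt a x p y q = true := bt (fun t => g112 t u39 u29 u18)
    have u43 : T.X y s p q = false := bf (fun t => g81 u40 u34 u19 u27 t)
    have u44 : T.X a q y s = false := bf (fun t => s220 u41 t u43)
    have u45 : T.X a y p q = false := bf (fun t => s253 u42 u9 u26 t)
    have u46 : T.X a y x s = false := bf (fun t => g53 u32 u33 t u44)
    have u47 : T.X a x y s = true := bt (fun t => g162 u32 u33 t u22 u44)
    have u48 : T.X a p y s = true := bt (fun t => s265 u41 u45 t u43)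
    have u49 : T.X a p x s = false := bf (fun t => g180 u38 u35 u46 u22 t)
    exact g122 u35 u47 u28 u49 u48 u40
  have s363 : T.X z s p q = false → False := fun n1 => by
    have u1 : T.alt a x z p q = false := bf (fun t => s322 t)
    have u2 : T.alt a x z y p = false := bf (fun t => s321 t)
    have u3 : T.alt a z s p q = false := bf (fun t => s327 t)
    have u4 : T.alt a x s z p = false := bf (fun t => s332 t)
    have u5 : T.X a y z q = false := bf (fun t => s242 t)
    have u6 : T.alt a x s z q = false := bf (fun t => s333 t)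
    have u7 : T.alt a x z y q = false := bf (fun t => s319 t)
    have u8 : T.X a z x y = true := bt (fun t => g82 t)
    have u9 : T.alt a x p z q = false := bf (fun t => s353 t n1)
    have u10 : T.alt a x q z p = true := bt (fun t => g44 u1 u9 t)
    have u11 : T.alt a z p q s = true := bt (fun t => g206 u9 u6 t u3)
    have u12 : T.X a z q s = false := bf (fun t => s301 u11 t)
    have u13 : T.X a q z s = true := bt (fun t => s267 u11 t n1)
    have u14 : T.X a p z s = false := bf (fun t => s294 u11 t n1)
    have u15 : T.X a s z q = false := bf (fun t => s249 u11 t n1)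
    have u16 : T.X a x z s = false := bf (fun t => s334 t u14 u13 u11)
    have u17 : T.alt a x p z s = false := bf (fun t => s236 t u16 u14)
    have u18 : T.alt a x q z s = false := bf (fun t => g74 u17 t u3)
    have u19 : T.alt a x z y s = true := bt (fun t => g136 u2 t u17 u4)
    have u20 : T.X a s x q = false := bf (fun t => s339 t u17)
    have u21 : T.alt a x z p s = true := bt (fun t => g113 t u4 u18 u3)
    have u22 : T.alt a x q p s = true := bt (fun t => g126 u10 u18 t)
    have u23 : T.X a s x y = false := bf (fun t => s337 t u19)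
    have u24 : T.X x p q s = false := bf (fun t => s250 u22 t)
    have u25 : T.X a s x p = false := bf (fun t => s341 t u21 u23)
    have u26 : T.X a x q s = false := bf (fun t => s256 u25 t u24)
    have u27 : T.X a y q s = true := bt (fun t => s362 t n1)
    have u28 : T.alt a y s z q = false := bf (fun t => g17 t u5 u27 u12 u15)
    have u29 : T.alt a x y z q = false := bf (fun t => g212 t u6 u28)
    have u30 : T.alt a x q y z = true := bt (fun t => g167 u29 u7 t)
    have u31 : T.alt a x q y s = true := bt (fun t => g148 u29 u7 u19 t)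
    have u32 : T.X a q x y = true := bt (fun t => s254 u30 u8 t)
    exact g103 u31 u32 u26 u20 u27
  have s364 : T.X a z q s = true → False := fun n1 => by
    have u1 : T.X z s p q = true := bt (fun t => s363 t)
    exact s273 n1 u1
  have s365 : T.alt a x z p s = true → T.alt a x q p s = false → T.X a s x y = false → T.alt a x p y z = true → False := fun n1 n2 n3 n4 => by
    have u1 : T.alt a z s p q = false := bf (fun t => s327 t)
    have u2 : T.alt a x z p q = false := bf (fun t => s322 t)
    have u3 : T.alt a x p z s = false := bf (fun t => g99 n1 t)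
    have u4 : T.alt a x p z q = false := bf (fun t => s346 n4 n1 n3 t)
    have u5 : T.alt a x q z s = false := bf (fun t => g74 u3 t u1)
    have u6 : T.alt a x q z p = true := bt (fun t => g44 u2 u4 t)
    exact g126 u6 u5 n2
  have s366 : T.alt a x z p s = false → T.alt a x q p s = false → False := fun n1 n2 => by
    have u1 : T.X z s p q = true := bt (fun t => s363 t)
    have u2 : T.alt a x z p q = false := bf (fun t => s322 t)
    have u3 : T.alt a x s p q = false := bf (fun t => s328 t)
    have u4 : T.alt a x s z p = false := bf (fun t => s332 t)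
    have u5 : T.alt a z s p q = false := bf (fun t => s327 t)
    have u6 : T.alt a z p q s = true := bt (fun t => g151 n1 n2 t u5)
    have u7 : T.alt a x q z s = true := bt (fun t => g113 n1 u4 t u5)
    have u8 : T.alt a x p q s = true := bt (fun t => g172 u2 n1 t u6)
    have u9 : T.alt a z q p s = false := bf (fun t => g209 u6 t)
    have u10 : T.X a s x q = false := bf (fun t => s241 u7 t)
    have u11 : T.alt a x p z s = true := bt (fun t => g74 t u7 u5)
    have u12 : T.X x q p s = false := bf (fun t => s219 u8 t)
    have u13 : T.X a x q s = false := bf (fun t => s309 u8 t)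
    have u14 : T.alt a x q z p = true := bt (fun t => g38 u2 t u4 u3 u9)
    have u15 : T.X a x p s = false := bf (fun t => s226 t u10 u12)
    have u16 : T.X x z q s = true := bt (fun t => s222 u7 u13 t)
    have u17 : T.X x z p q = false := bf (fun t => s223 u14 t)
    have u18 : T.X x z p s = true := bt (fun t => s261 u11 u15 t)
    exact g119 u17 u18 u16 u1
  have s367 : T.alt a x q p s = false → T.X a s x y = false → T.alt a x p y z = true → False := fun n1 n2 n3 => by
    have u1 : T.alt a x z p s = false := bf (fun t => s365 t n1 n2 n3)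
    exact s366 u1 n1
  have s368 : T.alt a x z p s = false → T.alt a x q p s = true → False := fun n1 n2 => by
    have u1 : T.alt a x s z p = false := bf (fun t => s332 t)
    have u2 : T.alt a x z p q = false := bf (fun t => s322 t)
    have u3 : T.alt a z s p q = false := bf (fun t => s327 t)
    have u4 : T.alt a x s z q = false := bf (fun t => s333 t)
    have u5 : T.X z s p q = true := bt (fun t => s363 t)
    have u6 : T.X x p q s = false := bf (fun t => s250 n2 t)
    have u7 : T.alt a x q z s = true := bt (fun t => g113 n1 u1 t u3)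
    have u8 : T.X a s x q = false := bf (fun t => s241 u7 t)
    have u9 : T.alt a x p z s = true := bt (fun t => g74 t u7 u3)
    have u10 : T.X x q p s = false := bf (fun t => s287 n2 u8 t)
    have u11 : T.X a x p s = false := bf (fun t => s226 t u8 u10)
    have u12 : T.X a q x p = false := bf (fun t => s268 n2 t u8)
    have u13 : T.X a s x p = false := bf (fun t => s240 u9 t)
    have u14 : T.X x z p s = true := bt (fun t => s261 u9 u11 t)
    have u15 : T.alt a x p q s = false := bf (fun t => s263 t u12 u13)
    have u16 : T.X a x q s = false := bf (fun t => s256 u13 t u6)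
    have u17 : T.alt a z p q s = false := bf (fun t => g172 u2 n1 u15 t)
    have u18 : T.X x z q s = true := bt (fun t => s222 u7 u16 t)
    have u19 : T.alt a x p z q = true := bt (fun t => g206 t u4 u17 u3)
    have u20 : T.X x z p q = true := bt (fun t => g119 t u14 u18 u5)
    exact s243 u19 u20
  have s369 : T.X a s x y = false → T.X a y p q = false → T.X y s p q = false → T.alt a x y p s = false → T.X a p x y = true → False := fun n1 n2 n3 n4 n5 => by
    have u1 : T.X x y z p = false := bf (fun t => s316 t)
    have u2 : T.alt a x s p q = false := bf (fun t => s328 t)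
    have u3 : T.X a z x y = true := bt (fun t => g82 t)
    have u4 : T.alt a x s z p = false := bf (fun t => s332 t)
    have u5 : T.alt a x z y p = false := bf (fun t => s321 t)
    have u6 : T.alt a x z y q = false := bf (fun t => s319 t)
    have u7 : T.alt a x y z p = false := bf (fun t => g57 t u3 n5 u1)
    have u8 : T.alt a x p y z = true := bt (fun t => g110 u7 u5 t)
    have u9 : T.alt a x q p s = true := bt (fun t => s367 t n1 u8)
    have u10 : T.alt a y q p s = true := bt (fun t => g143 n4 u9 t)
    have u11 : T.X a q y s = false := bf (fun t => s220 u10 t n3)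
    have u12 : T.X a p y s = true := bt (fun t => s265 u10 n2 t n3)
    have u13 : T.alt a y s p q = false := bf (fun t => s283 t u12 n3)
    have u14 : T.alt a x y p q = false := bf (fun t => g46 t u2 u13)
    have u15 : T.alt a x y z q = false := bf (fun t => g88 u8 t u14)
    have u16 : T.alt a x q y z = true := bt (fun t => g167 u15 u6 t)
    have u17 : T.X a q x y = true := bt (fun t => s254 u16 u3 t)
    have u18 : T.alt a x z p s = true := bt (fun t => s368 t u9)
    have u19 : T.alt a x p z s = false := bf (fun t => g99 u18 t)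
    have u20 : T.alt a x p y s = true := bt (fun t => g94 u7 u5 t u18)
    have u21 : T.alt a x z y s = true := bt (fun t => g136 u5 t u19 u4)
    have u22 : T.X a s x q = false := bf (fun t => s339 t u19)
    have u23 : T.alt a x q y s = true := bt (fun t => g148 u15 u6 u21 t)
    have u24 : T.X x q p s = false := bf (fun t => s287 u9 u22 t)
    have u25 : T.X a x p s = false := bf (fun t => s226 t u22 u24)
    have u26 : T.X a y x s = false := bf (fun t => g53 u23 u17 t u11)
    have u27 : T.X a x y s = true := bt (fun t => g162 u23 u17 t n1 u11)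
    have u28 : T.X x y p s = true := bt (fun t => g62 u20 n5 n1 u25 t)
    have u29 : T.X a p x s = false := bf (fun t => g180 u20 n5 u26 n1 t)
    exact g122 n5 u27 u25 u29 u12 u28
  have s370 : T.alt a x z p s = false → False := fun n1 => by
    have u1 : T.alt a x q p s = true := bt (fun t => s366 n1 t)
    exact s368 n1 u1
  have s371 : T.alt a y p z s = true → False := fun n1 => by
    have u1 : T.alt a x z p s = true := bt (fun t => s370 t)
    have u2 : T.alt a x z y p = false := bf (fun t => s321 t)
    exact g86 u2 u1 n1
  have s372 : T.alt a x p z s = true → False := fun n1 => by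
    have u1 : T.alt a x z p s = true := bt (fun t => s370 t)
    exact g99 u1 n1
  have s373 : T.alt a y q z s = true → False := fun n1 => by
    have u1 : T.alt a y p z s = false := bf (fun t => s371 t)
    have u2 : T.alt a z s p q = false := bf (fun t => s327 t)
    exact g97 u1 n1 u2
  have s374 : T.alt a x q z s = true → False := fun n1 => by
    have u1 : T.alt a x p z s = false := bf (fun t => s372 t)
    have u2 : T.alt a z s p q = false := bf (fun t => s327 t)
    exact g74 u1 n1 u2
  have s375 : T.alt a x z y s = false → False := fun n1 => by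
    have u1 : T.alt a x p z s = false := bf (fun t => s372 t)
    have u2 : T.alt a x z y p = false := bf (fun t => s321 t)
    have u3 : T.alt a x s z p = false := bf (fun t => s332 t)
    exact g136 u2 n1 u1 u3
  have s376 : T.X a s x q = true → False := fun n1 => by
    have u1 : T.alt a x p z s = false := bf (fun t => s372 t)
    exact s339 n1 u1
  have s377 : T.alt a x s y q = true → False := fun n1 => by
    have u1 : T.alt a x q z s = false := bf (fun t => s374 t)
    have u2 : T.alt a x z y q = false := bf (fun t => s319 t)
    have u3 : T.alt a x s z q = false := bf (fun t => s333 t)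
    exact g80 u2 n1 u1 u3
  have s378 : T.X a s x y = true → False := fun n1 => by
    have u1 : T.alt a x z y s = true := bt (fun t => s375 t)
    exact s337 n1 u1
  have s379 : T.X a s x p = true → False := fun n1 => by
    have u1 : T.X a s x y = false := bf (fun t => s378 t)
    have u2 : T.alt a x z p s = true := bt (fun t => s370 t)
    exact s341 n1 u2 u1
  have s380 : T.alt a x y z q = false → T.X x y q s = false → T.X a x q s = false → False := fun n1 n2 n3 => by
    have u1 : T.alt a x z y q = false := bf (fun t => s319 t)
    have u2 : T.alt a x z y s = true := bt (fun t => s375 t)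
    have u3 : T.X a z x y = true := bt (fun t => g82 t)
    have u4 : T.X a s x y = false := bf (fun t => s378 t)
    have u5 : T.alt a x q y z = true := bt (fun t => g167 n1 u1 t)
    have u6 : T.alt a x q y s = true := bt (fun t => g148 n1 u1 u2 t)
    have u7 : T.X a q x y = true := bt (fun t => s254 u5 u3 t)
    exact g210 u6 u7 u4 n3 n2
  have s381 : T.alt a x y p s = false → T.X a p x y = true → False := fun n1 n2 => by
    have u1 : T.X a s x p = false := bf (fun t => s379 t)
    have u2 : T.X a s x q = false := bf (fun t => s376 t)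
    have u3 : T.alt a x z p s = true := bt (fun t => s370 t)
    have u4 : T.X a z x y = true := bt (fun t => g82 t)
    have u5 : T.X x y z p = false := bf (fun t => s316 t)
    have u6 : T.alt a x z y p = false := bf (fun t => s321 t)
    have u7 : T.alt a x s y q = false := bf (fun t => s377 t)
    have u8 : T.X a y x p = false := bf (fun t => s308 t)
    have u9 : T.alt a y q z s = false := bf (fun t => s373 t)
    have u10 : T.alt a x q z s = false := bf (fun t => s374 t)
    have u11 : T.X a s x y = false := bf (fun t => s378 t)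
    have u12 : T.alt a x y z p = false := bf (fun t => g57 t u4 n2 u5)
    have u13 : T.alt a x p y s = true := bt (fun t => g94 u12 u6 t u3)
    have u14 : T.alt a x p y z = true := bt (fun t => g110 u12 u6 t)
    have u15 : T.alt a x q p s = true := bt (fun t => s367 t u11 u14)
    have u16 : T.X x q p s = false := bf (fun t => s287 u15 u2 t)
    have u17 : T.X a x p s = false := bf (fun t => s226 t u2 u16)
    have u18 : T.X x y p s = true := bt (fun t => g62 u13 n2 u11 u17 t)
    have u19 : T.X x p q s = false := bf (fun t => s250 u15 t)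
    have u20 : T.X a x q s = false := bf (fun t => s256 u1 t u19)
    have u21 : T.X a q x p = false := bf (fun t => s268 u15 t u2)
    have u22 : T.alt a y q p s = true := bt (fun t => g143 n1 u15 t)
    have u23 : T.alt a x p y q = true := bt (fun t => g112 t n1 u7 u15)
    have u24 : T.X a y p q = false := bf (fun t => s253 u23 u8 u21 t)
    have u25 : T.X a y q s = false := bf (fun t => s231 u22 u24 t)
    have u26 : T.X y s p q = true := bt (fun t => s369 u11 u24 t n1 n2)
    have u27 : T.X x y q s = false := bf (fun t => g81 u18 t u19 u16 u26)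
    have u28 : T.alt a x y z q = true := bt (fun t => s380 t u27 u20)
    have u29 : T.X a q x y = false := bf (fun t => s259 u28 t)
    have u30 : T.alt a x y q s = true := bt (fun t => g165 u28 t u10 u9)
    exact g183 u30 u29 u11 u20 u25 u27
  have s382 : T.X a p x y = true → False := fun n1 => by
    have u1 : T.X x y z p = false := bf (fun t => s316 t)
    have u2 : T.X a z x y = true := bt (fun t => g82 t)
    have u3 : T.alt a x z y p = false := bf (fun t => s321 t)
    have u4 : T.alt a x z p s = true := bt (fun t => s370 t)
    have u5 : T.alt a x y z p = false := bf (fun t => g57 t u2 n1 u1)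
    have u6 : T.alt a x p y z = true := bt (fun t => g110 u5 u3 t)
    have u7 : T.alt a x y p s = true := bt (fun t => s381 t n1)
    exact g135 u6 u7 u4
  have s383 : T.alt a x p y z = true → False := fun n1 => by
    have u1 : T.X a p x y = false := bf (fun t => s382 t)
    have u2 : T.X a z x y = true := bt (fun t => g82 t)
    exact s234 n1 u2 u1
  have s384 : T.alt a x y z p = false → False := fun n1 => by
    have u1 : T.alt a x p y z = false := bf (fun t => s383 t)
    have u2 : T.alt a x z y p = false := bf (fun t => s321 t)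
    exact g110 n1 u2 u1
  have s385 : T.alt a x y p s = false → False := fun n1 => by
    have u1 : T.alt a x y z p = true := bt (fun t => s384 t)
    have u2 : T.alt a x z p s = true := bt (fun t => s370 t)
    exact g169 u1 n1 u2
  have s386 : T.X a q x p = false → T.X a y x s = false → T.X a s z q = true → T.X x y p s = true → T.alt a y z q s = false → T.X y s p q = true → False := fun n1 n2 n3 n4 n5 n6 => by
    have u1 : T.X a s x p = false := bf (fun t => s379 t)
    have u2 : T.alt a x z p q = false := bf (fun t => s322 t)
    have u3 : T.alt a z s p q = false := bf (fun t => s327 t)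
    have u4 : T.alt a x s z q = false := bf (fun t => s333 t)
    have u5 : T.X z s p q = true := bt (fun t => s363 t)
    have u6 : T.alt a x s p q = false := bf (fun t => s328 t)
    have u7 : T.alt a x y p s = true := bt (fun t => s385 t)
    have u8 : T.X a q p s = false := bf (fun t => s258 t)
    have u9 : T.X a p x y = false := bf (fun t => s382 t)
    have u10 : T.alt a x z p s = true := bt (fun t => s370 t)
    have u11 : T.alt a x z y s = true := bt (fun t => s375 t)
    have u12 : T.X a s x y = false := bf (fun t => s378 t)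
    have u13 : T.X x y z p = false := bf (fun t => s316 t)
    have u14 : T.alt a x p q s = false := bf (fun t => s263 t n1 u1)
    have u15 : T.alt a x p z q = false := bf (fun t => g101 t u10 u14)
    have u16 : T.alt a x q z p = true := bt (fun t => g44 u2 u15 t)
    have u17 : T.alt a z p q s = true := bt (fun t => g206 u15 u4 t u3)
    have u18 : T.alt a y s p q = false := bf (fun t => g85 n5 t u17)
    have u19 : T.X a p z q = true := bt (fun t => g13 u17 t n3 u5)
    have u20 : T.alt a x y p q = false := bf (fun t => g46 t u6 u18)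
    have u21 : T.X x p z q = true := bt (fun t => s227 u16 u19 t)
    have u22 : T.alt a y p q s = true := bt (fun t => g9 u20 u7 u14 t)
    have u23 : T.X a q z p = false := bf (fun t => s230 n1 t u21)
    have u24 : T.X a y p s = false := bf (fun t => g93 u22 t u8 n6)
    have u25 : T.X a s z p = true := bt (fun t => s266 u17 u23 t)
    have u26 : T.X a p z s = false := bf (fun t => s277 u17 u23 t)
    have u27 : T.X a p x s = false := bf (fun t => g7 u9 n2 t u24 n4)
    have u28 : T.X a x z s = false := bf (fun t => s238 u10 t u26)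
    have u29 : T.X x s z p = true := bt (fun t => s302 u27 u25 t)
    have u30 : T.X x y z s = true := bt (fun t => s286 u11 u12 u28 t)
    exact g20 u13 u30 n4 u29
  have s387 : T.alt a x q z p = false → False := fun n1 => by
    have u1 : T.alt a x s z p = false := bf (fun t => s332 t)
    have u2 : T.alt a x s p q = false := bf (fun t => s328 t)
    have u3 : T.alt a x z p q = false := bf (fun t => s322 t)
    have u4 : T.alt a x z p s = true := bt (fun t => s370 t)
    have u5 : T.X a s x y = false := bf (fun t => s378 t)
    have u6 : T.alt a z q p s = true := bt (fun t => g38 u3 n1 u1 u2 t)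
    have u7 : T.alt a x p z q = true := bt (fun t => g44 u3 t n1)
    have u8 : T.alt a z p q s = false := bf (fun t => g209 t u6)
    exact s351 u4 u5 u8 u7
  have s388 : T.X x z p q = true → False := fun n1 => by
    have u1 : T.alt a x q z p = true := bt (fun t => s387 t)
    exact s223 u1 n1
  have s389 : T.alt a x q p s = false → False := fun n1 => by
    have u1 : T.alt a x q z p = true := bt (fun t => s387 t)
    have u2 : T.alt a x q z s = false := bf (fun t => s374 t)
    exact g126 u1 u2 n1
  have s390 : T.X x p q s = true → False := fun n1 => by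
    have u1 : T.alt a x q p s = true := bt (fun t => s389 t)
    exact s250 u1 n1
  have s391 : T.X a q x p = true → False := fun n1 => by
    have u1 : T.alt a x q p s = true := bt (fun t => s389 t)
    have u2 : T.X a s x q = false := bf (fun t => s376 t)
    exact s268 u1 n1 u2
  have s392 : T.X a p x q = false → False := fun n1 => by
    have u1 : T.alt a x q p s = true := bt (fun t => s389 t)
    have u2 : T.X a s x q = false := bf (fun t => s376 t)
    exact s300 u1 n1 u2
  have s393 : T.X a x q s = true → False := fun n1 => by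
    have u1 : T.X x p q s = false := bf (fun t => s390 t)
    have u2 : T.X a s x p = false := bf (fun t => s379 t)
    exact s256 u2 n1 u1
  have s394 : T.alt a x p q s = true → False := fun n1 => by
    have u1 : T.X a q x p = false := bf (fun t => s391 t)
    have u2 : T.X a s x p = false := bf (fun t => s379 t)
    exact s263 n1 u1 u2
  have s395 : T.alt a x p z q = true → False := fun n1 => by
    have u1 : T.alt a x p q s = false := bf (fun t => s394 t)
    have u2 : T.alt a x z p s = true := bt (fun t => s370 t)
    exact g101 n1 u2 u1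
  have s396 : T.alt a z p q s = false → False := fun n1 => by
    have u1 : T.alt a x p z q = false := bf (fun t => s395 t)
    have u2 : T.alt a x s z q = false := bf (fun t => s333 t)
    have u3 : T.alt a z s p q = false := bf (fun t => s327 t)
    exact g206 u1 u2 n1 u3
  have s398 : T.alt a x y z q = true → T.X y s p q = true → T.X x q p s = false → False := fun n1 n2 n3 => by
    have u1 : T.X a s x q = false := bf (fun t => s376 t)
    have u2 : T.alt a x s z q = false := bf (fun t => s333 t)
    have u3 : T.alt a y q z s = false := bf (fun t => s373 t)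
    have u4 : T.alt a x q z s = false := bf (fun t => s374 t)
    have u5 : T.alt a z p q s = true := bt (fun t => s396 t)
    have u6 : T.alt a x s p q = false := bf (fun t => s328 t)
    have u7 : T.alt a x p q s = false := bf (fun t => s394 t)
    have u8 : T.X a q p s = false := bf (fun t => s258 t)
    have u9 : T.alt a x y p s = true := bt (fun t => s385 t)
    have u10 : T.X a p x y = false := bf (fun t => s382 t)
    have u11 : T.X x p q s = false := bf (fun t => s390 t)
    have u12 : T.X a x q s = false := bf (fun t => s393 t)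
    have u13 : T.X a s x y = false := bf (fun t => s378 t)
    have u14 : T.X a y z q = false := bf (fun t => s242 t)
    have u15 : T.X a z q s = false := bf (fun t => s364 t)
    have u16 : T.X a q x p = false := bf (fun t => s391 t)
    have u17 : T.alt a x z y s = true := bt (fun t => s375 t)
    have u18 : T.X a z x y = true := bt (fun t => g82 t)
    have u19 : T.X a x p s = false := bf (fun t => s226 t u1 n3)
    have u20 : T.X a q x y = false := bf (fun t => s259 n1 t)
    have u21 : T.alt a y s z q = true := bt (fun t => g212 n1 u2 t)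
    have u22 : T.alt a y z q s = false := bf (fun t => g33 n1 u2 t)
    have u23 : T.alt a x y q s = true := bt (fun t => g165 n1 t u4 u3)
    have u24 : T.alt a y s p q = false := bf (fun t => g85 u22 t u5)
    have u25 : T.alt a x y p q = false := bf (fun t => g46 t u6 u24)
    have u26 : T.alt a y p q s = true := bt (fun t => g9 u25 u9 u7 t)
    have u27 : T.X a y p s = false := bf (fun t => g93 u26 t u8 n2)
    have u28 : T.X x y p s = true := bt (fun t => g201 u9 u10 u13 u19 u27 t)
    have u29 : T.X x y q s = false := bf (fun t => g81 u28 t u11 n3 n2)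
    have u30 : T.X a y q s = true := bt (fun t => g183 u23 u20 u13 u12 t u29)
    have u31 : T.X a s z q = true := bt (fun t => g17 u21 u14 u30 u15 t)
    have u32 : T.X a z y s = false := bf (fun t => g83 u21 t u30 u15)
    have u33 : T.X a y x s = true := bt (fun t => s386 u16 t u31 u28 u22 n2)
    have u34 : T.X a z x s = false := bf (fun t => g49 u17 u18 t u32)
    exact g14 u17 u18 u33 u34
  have s399 : T.X y s p q = true → T.X x q p s = false → False := fun n1 n2 => by
    have u1 : T.alt a x z y s = true := bt (fun t => s375 t)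
    have u2 : T.alt a x p y z = false := bf (fun t => s383 t)
    have u3 : T.alt a x z y q = false := bf (fun t => s319 t)
    have u4 : T.X a z x y = true := bt (fun t => g82 t)
    have u5 : T.X x p q s = false := bf (fun t => s390 t)
    have u6 : T.alt a z p q s = true := bt (fun t => s396 t)
    have u7 : T.X a x q s = false := bf (fun t => s393 t)
    have u8 : T.X a s x q = false := bf (fun t => s376 t)
    have u9 : T.alt a x y p s = true := bt (fun t => s385 t)
    have u10 : T.X a s x y = false := bf (fun t => s378 t)
    have u11 : T.X a p x y = false := bf (fun t => s382 t)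
    have u12 : T.X a x p s = false := bf (fun t => s226 t u8 n2)
    have u13 : T.alt a x y z q = false := bf (fun t => s398 t n1 n2)
    have u14 : T.alt a x q y z = true := bt (fun t => g167 u13 u3 t)
    have u15 : T.alt a x q y s = true := bt (fun t => g148 u13 u3 u1 t)
    have u16 : T.X x y q s = true := bt (fun t => s380 u13 t u7)
    have u17 : T.alt a y z p q = true := bt (fun t => g149 u2 u13 u3 t)
    have u18 : T.X a q x y = true := bt (fun t => s254 u14 u4 t)
    have u19 : T.X a s y q = false := bf (fun t => g202 u15 u18 u10 t)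
    have u20 : T.X x y p s = false := bf (fun t => g81 t u16 u5 n2 n1)
    have u21 : T.alt a y s p q = true := bt (fun t => g27 u17 t u6)
    have u22 : T.X a y q s = false := bf (fun t => g103 u15 u18 u7 u8 t)
    have u23 : T.X a y p s = true := bt (fun t => g201 u9 u11 u10 u12 t u20)
    have u24 : T.X a y p q = false := bf (fun t => s229 u21 t u22 u19)
    exact s248 u24 u23 n1
  have s400 : T.alt a x y z q = false → T.X y s p q = false → False := fun n1 n2 => by
    have u1 : T.alt a x z y s = true := bt (fun t => s375 t)
    have u2 : T.alt a x p y z = false := bf (fun t => s383 t)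
    have u3 : T.alt a x z y q = false := bf (fun t => s319 t)
    have u4 : T.X a z x y = true := bt (fun t => g82 t)
    have u5 : T.alt a z p q s = true := bt (fun t => s396 t)
    have u6 : T.X a x q s = false := bf (fun t => s393 t)
    have u7 : T.X a s x q = false := bf (fun t => s376 t)
    have u8 : T.X a p x y = false := bf (fun t => s382 t)
    have u9 : T.X a p x q = true := bt (fun t => s392 t)
    have u10 : T.X a y x q = false := bf (fun t => s295 t)
    have u11 : T.X a s x y = false := bf (fun t => s378 t)
    have u12 : T.X x p q s = false := bf (fun t => s390 t)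
    have u13 : T.alt a x y p s = true := bt (fun t => s385 t)
    have u14 : T.X a y x p = false := bf (fun t => s308 t)
    have u15 : T.alt a x q y z = true := bt (fun t => g167 n1 u3 t)
    have u16 : T.alt a x q y s = true := bt (fun t => g148 n1 u3 u1 t)
    have u17 : T.X x y q s = true := bt (fun t => s380 n1 t u6)
    have u18 : T.alt a y z p q = true := bt (fun t => g149 u2 n1 u3 t)
    have u19 : T.X a q x y = true := bt (fun t => s254 u15 u4 t)
    have u20 : T.X a s y q = false := bf (fun t => g202 u16 u19 u11 t)
    have u21 : T.alt a y s p q = true := bt (fun t => g27 u18 t u5)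
    have u22 : T.X a y q s = false := bf (fun t => g103 u16 u19 u6 u7 t)
    have u23 : T.X a y p q = false := bf (fun t => s229 u21 t u22 u20)
    have u24 : T.X a p y s = false := bf (fun t => s283 u21 t n2)
    have u25 : T.X a q y s = false := bf (fun t => s262 u21 t n2)
    have u26 : T.X x y p q = false := bf (fun t => g35 u8 u10 u9 u23 t)
    have u27 : T.X a x y s = true := bt (fun t => g162 u16 u19 t u11 u25)
    have u28 : T.X x p y s = false := bf (fun t => g147 u26 t u17 u12 n2)
    exact g195 u13 u14 u27 u24 u28
  have s401 : T.X a y p q = false → T.X x y q s = true → T.X y s p q = false → False := fun n1 n2 n3 => by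
    have u1 : T.alt a x s z q = false := bf (fun t => s333 t)
    have u2 : T.alt a z p q s = true := bt (fun t => s396 t)
    have u3 : T.alt a x s p q = false := bf (fun t => s328 t)
    have u4 : T.alt a x p q s = false := bf (fun t => s394 t)
    have u5 : T.X a p x y = false := bf (fun t => s382 t)
    have u6 : T.X a p x q = true := bt (fun t => s392 t)
    have u7 : T.X a y x q = false := bf (fun t => s295 t)
    have u8 : T.X x p q s = false := bf (fun t => s390 t)
    have u9 : T.X a x q s = false := bf (fun t => s393 t)
    have u10 : T.alt a x y p s = true := bt (fun t => s385 t)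
    have u11 : T.X a y x p = false := bf (fun t => s308 t)
    have u12 : T.alt a x y z q = true := bt (fun t => s400 t n3)
    have u13 : T.alt a y z q s = false := bf (fun t => g33 u12 u1 t)
    have u14 : T.alt a y s p q = false := bf (fun t => g85 u13 t u2)
    have u15 : T.alt a x y p q = false := bf (fun t => g46 t u3 u14)
    have u16 : T.alt a y p q s = true := bt (fun t => g9 u15 u10 u4 t)
    have u17 : T.X a p y s = false := bf (fun t => s276 u16 t n3)
    have u18 : T.X a q x y = false := bf (fun t => s259 u12 t)
    have u19 : T.X x y p q = false := bf (fun t => g35 u5 u7 u6 n1 t)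
    have u20 : T.X a q y s = true := bt (fun t => s225 u16 n1 t n3)
    have u21 : T.X x p y s = false := bf (fun t => g147 u19 t n2 u8 n3)
    have u22 : T.X a x y s = true := bt (fun t => g92 u18 t u9 u20 n2)
    exact g195 u10 u11 u22 u17 u21
  have s402 : T.X a y p q = true → T.X y s p q = false → False := fun n1 n2 => by
    have u1 : T.alt a x q p s = true := bt (fun t => s389 t)
    have u2 : T.alt a x p y z = false := bf (fun t => s383 t)
    have u3 : T.alt a x z y p = false := bf (fun t => s321 t)
    have u4 : T.alt a x s z q = false := bf (fun t => s333 t)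
    have u5 : T.alt a z p q s = true := bt (fun t => s396 t)
    have u6 : T.alt a x s p q = false := bf (fun t => s328 t)
    have u7 : T.alt a x p q s = false := bf (fun t => s394 t)
    have u8 : T.alt a x y p s = true := bt (fun t => s385 t)
    have u9 : T.X a p x y = false := bf (fun t => s382 t)
    have u10 : T.alt a x q z p = true := bt (fun t => s387 t)
    have u11 : T.X x z p q = false := bf (fun t => s388 t)
    have u12 : T.X a q x p = false := bf (fun t => s391 t)
    have u13 : T.alt a x y z q = true := bt (fun t => s400 t n2)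
    have u14 : T.alt a y z q s = false := bf (fun t => g33 u13 u4 t)
    have u15 : T.alt a y s p q = false := bf (fun t => g85 u14 t u5)
    have u16 : T.alt a x y p q = false := bf (fun t => g46 t u6 u15)
    have u17 : T.alt a y p q s = true := bt (fun t => g9 u16 u8 u7 t)
    have u18 : T.X a p y q = false := bf (fun t => s303 u17 t n2)
    have u19 : T.alt a y p z q = true := bt (fun t => g194 u3 u2 u16 u10 t)
    have u20 : T.alt a x q y p = true := bt (fun t => g133 t u8 u1 u15)
    have u21 : T.X a p z q = true := bt (fun t => s245 u19 n1 t)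
    have u22 : T.X x y p q = true := bt (fun t => s269 u20 u9 n1 t)
    have u23 : T.X x p z q = true := bt (fun t => s227 u10 u21 t)
    have u24 : T.X a q z p = true := bt (fun t => s355 u18 t u21 u22 u19 u11)
    exact s230 u12 u24 u23
  have s403 : T.X x q p s = false → False := fun n1 => by
    have u1 : T.X a s x q = false := bf (fun t => s376 t)
    have u2 : T.alt a x s z q = false := bf (fun t => s333 t)
    have u3 : T.alt a y q z s = false := bf (fun t => s373 t)
    have u4 : T.alt a x q z s = false := bf (fun t => s374 t)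
    have u5 : T.alt a x s p q = false := bf (fun t => s328 t)
    have u6 : T.alt a x p q s = false := bf (fun t => s394 t)
    have u7 : T.alt a x y p s = true := bt (fun t => s385 t)
    have u8 : T.X a x q s = false := bf (fun t => s393 t)
    have u9 : T.X a y z q = false := bf (fun t => s242 t)
    have u10 : T.X a z q s = false := bf (fun t => s364 t)
    have u11 : T.X z s p q = true := bt (fun t => s363 t)
    have u12 : T.alt a x q z p = true := bt (fun t => s387 t)
    have u13 : T.X a z x y = true := bt (fun t => g82 t)
    have u14 : T.X a q x p = false := bf (fun t => s391 t)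
    have u15 : T.X a p x y = false := bf (fun t => s382 t)
    have u16 : T.alt a z p q s = true := bt (fun t => s396 t)
    have u17 : T.alt a x z p s = true := bt (fun t => s370 t)
    have u18 : T.X x y z p = false := bf (fun t => s316 t)
    have u19 : T.alt a x z y s = true := bt (fun t => s375 t)
    have u20 : T.X a s x y = false := bf (fun t => s378 t)
    have u21 : T.X a x p s = false := bf (fun t => s226 t u1 n1)
    have u22 : T.X y s p q = false := bf (fun t => s399 t n1)
    have u23 : T.alt a x y z q = true := bt (fun t => s400 t u22)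
    have u24 : T.X a q x y = false := bf (fun t => s259 u23 t)
    have u25 : T.alt a y s z q = true := bt (fun t => g212 u23 u2 t)
    have u26 : T.alt a y z q s = false := bf (fun t => g33 u23 u2 t)
    have u27 : T.alt a x y q s = true := bt (fun t => g165 u23 t u4 u3)
    have u28 : T.alt a y s p q = false := bf (fun t => g85 u26 t u16)
    have u29 : T.alt a x y p q = false := bf (fun t => g46 t u5 u28)
    have u30 : T.alt a y p q s = true := bt (fun t => g9 u29 u7 u6 t)
    have u31 : T.X a y p q = false := bf (fun t => s402 t u22)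
    have u32 : T.X a y p s = false := bf (fun t => s247 u30 u31 t)
    have u33 : T.X x y q s = false := bf (fun t => s401 u31 t u22)
    have u34 : T.X x y p s = true := bt (fun t => g201 u7 u15 u20 u21 u32 t)
    have u35 : T.X a y q s = true := bt (fun t => g183 u27 u24 u20 u8 t u33)
    have u36 : T.X a s z q = true := bt (fun t => g17 u25 u9 u35 u10 t)
    have u37 : T.X a z y s = false := bf (fun t => g83 u25 t u35 u10)
    have u38 : T.X a p z q = true := bt (fun t => g13 u16 t u36 u11)
    have u39 : T.X a z x s = false := bf (fun t => g49 u19 u13 t u37)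
    have u40 : T.X x p z q = true := bt (fun t => s227 u12 u38 t)
    have u41 : T.X a y x s = false := bf (fun t => g14 u19 u13 t u39)
    have u42 : T.X a q z p = false := bf (fun t => s230 u14 t u40)
    have u43 : T.X a p x s = false := bf (fun t => g7 u15 u41 t u32 u34)
    have u44 : T.X a s z p = true := bt (fun t => s266 u16 u42 t)
    have u45 : T.X a p z s = false := bf (fun t => s277 u16 u42 t)
    have u46 : T.X x s z p = true := bt (fun t => s302 u43 u44 t)
    have u47 : T.X a x z s = false := bf (fun t => s238 u17 t u45)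
    have u48 : T.X x y z s = false := bf (fun t => g20 u18 t u34 u46)
    exact s286 u19 u20 u47 u48
  have u1 : T.X x q p s = true := bt (fun t => s403 t)
  have u2 : T.alt a x q p s = true := bt (fun t => s389 t)
  have u3 : T.X a s x q = false := bf (fun t => s376 t)
  exact s287 u2 u3 u1

theorem loop_f {a l0 l1 l2 s x X t : V} {b1 : Bool} {b2 : Bool} (hL : T.RotL a [l0, l1, l2, s, x, X, t])
    (b1il1 : b1 = true → T.X a l1 l0 l2 = false → False)
    (b1os : b1 = false → T.X a s l0 l2 = false → False)
    (b1ot : b1 = false → T.X a t l0 l2 = false → False)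
    (b2onx : b2 = true → T.X a x l1 l2 = true → False)
    (b2onX : b2 = true → T.X a X l1 l2 = true → False)
    (b2ol0 : b2 = false → T.X a l0 l1 l2 = false → False)
    (hl0 : T.X a l0 x X = true)
    (hl2 : T.X a l2 x X = true)
    (hl1 : T.X a l1 x X = false)
    (hs : T.X a s x X = false)
    (ht : T.X a t x X = false) : False := by
  have g12 := c5a_18450_16386 (hL.four (.cons_cons _ (.cons_cons _ (.cons_cons _ (.cons _ (.cons_cons _ (List.nil_sublist _)))))))
  have g13 := c5_5140_5136 (hL.five (.cons_cons _ (.cons_cons _ (.cons_cons _ (.cons _ (.cons_cons _ (.cons_cons _ (List.nil_sublist _))))))))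
  have g14 := c5a_3_3 (hL.four (.cons_cons _ (.cons_cons _ (.cons_cons _ (.cons_cons _ (List.nil_sublist _))))))
  have g15 := c5a_1608_64 (hL.four (.cons_cons _ (.cons_cons _ (.cons _ (.cons _ (.cons_cons _ (.cons_cons _ (List.nil_sublist _))))))))
  have g16 := c5a_610_608 (hL.four (.cons_cons _ (.cons _ (.cons_cons _ (.cons _ (.cons_cons _ (.cons_cons _ (List.nil_sublist _))))))))
  have g17 := c5a_8202_10 (hL.four (.cons_cons _ (.cons_cons _ (.cons_cons _ (.cons _ (.cons _ (.cons_cons _ (List.nil_sublist _))))))))
  have g18 := c5a_148_20 (hL.four (.cons_cons _ (.cons _ (.cons_cons _ (.cons_cons _ (.cons_cons _ (List.nil_sublist _)))))))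
  have g19 := c5a_2305_257 (hL.four (.cons_cons _ (.cons _ (.cons _ (.cons _ (.cons_cons _ (.cons_cons _ (.cons_cons _ (List.nil_sublist _)))))))))
  have g20 := c5a_578_66 (hL.four (.cons_cons _ (.cons_cons _ (.cons_cons _ (.cons _ (.cons _ (.cons_cons _ (List.nil_sublist _))))))))
  have g21 := c5a_148_20 (hL.four (.cons_cons _ (.cons _ (.cons_cons _ (.cons_cons _ (.cons _ (.cons_cons _ (List.nil_sublist _))))))))
  have g22 := c5a_8778_576 (hL.four (.cons_cons _ (.cons _ (.cons_cons _ (.cons _ (.cons_cons _ (.cons_cons _ (List.nil_sublist _))))))))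
  have g23 := c5a_584_520 (hL.four (.cons _ (.cons_cons _ (.cons_cons _ (.cons _ (.cons_cons _ (.cons_cons _ (List.nil_sublist _))))))))
  have g24 := c5a_294_32 (hL.four (.cons_cons _ (.cons _ (.cons_cons _ (.cons _ (.cons _ (.cons_cons _ (.cons_cons _ (List.nil_sublist _)))))))))
  have g25 := c5a_146_130 (hL.four (.cons_cons _ (.cons_cons _ (.cons_cons _ (.cons _ (.cons_cons _ (List.nil_sublist _)))))))
  have g26 := c5a_656_640 (hL.four (.cons _ (.cons_cons _ (.cons_cons _ (.cons _ (.cons_cons _ (.cons_cons _ (List.nil_sublist _))))))))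
  have g27 := c5a_578_66 (hL.four (.cons_cons _ (.cons _ (.cons _ (.cons_cons _ (.cons_cons _ (.cons_cons _ (List.nil_sublist _))))))))
  have g28 := c5a_9218_1026 (hL.four (.cons_cons _ (.cons_cons _ (.cons_cons _ (.cons _ (.cons _ (.cons_cons _ (List.nil_sublist _))))))))
  have g29 := c5a_82_80 (hL.four (.cons_cons _ (.cons _ (.cons _ (.cons_cons _ (.cons_cons _ (.cons_cons _ (List.nil_sublist _))))))))
  have g30 := c5a_578_66 (hL.four (.cons_cons _ (.cons_cons _ (.cons _ (.cons _ (.cons_cons _ (.cons_cons _ (List.nil_sublist _))))))))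
  have g31 := c5a_4704_512 (hL.four (.cons _ (.cons_cons _ (.cons_cons _ (.cons _ (.cons_cons _ (.cons_cons _ (List.nil_sublist _))))))))
  have s32 : T.X a l0 l1 X = false → T.X a x l1 X = false → False := fun n1 n2 => by
    exact g15 n1 hl0 hl1 n2
  have s33 : T.X a l2 l0 x = false → T.X a X l0 l2 = true → False := fun n1 n2 => by
    exact g16 n1 n2 hl0 hl2
  have s34 : T.X a t l0 X = true → False := fun n1 => by
    exact g19 hl0 n1 ht
  have s35 : T.X a l2 l0 x = false → T.X a l0 l2 X = false → T.X l0 x l2 X = false → False := fun n1 n2 n3 => by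
    exact g22 n1 n2 hl0 hl2 n3
  have s36 : T.X a l1 l2 X = true → False := fun n1 => by
    exact g23 n1 hl1 hl2
  have s37 : T.X a l2 l0 X = false → T.X a X l0 l2 = false → T.X a t l0 l2 = true → False := fun n1 n2 n3 => by
    have u1 : T.X a t l0 X = false := bf (fun t => s34 t)
    exact g24 n1 n2 n3 u1
  have s38 : T.X a l2 l1 X = false → T.X a x l1 X = true → False := fun n1 n2 => by
    exact g26 n1 n2 hl2
  have s39 : T.X a s l0 x = true → False := fun n1 => by
    exact g27 n1 hl0 hs
  have s40 : T.X a s l0 X = true → False := fun n1 => by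
    have u1 : T.X a s l0 x = false := bf (fun t => s39 t)
    exact g29 u1 n1 hl0
  have s41 : T.X a l1 l0 x = true → False := fun n1 => by
    exact g30 n1 hl0 hl1
  have s42 : T.X a X l1 l2 = false → T.X l1 l2 x X = false → False := fun n1 n2 => by
    exact g31 n1 hl1 hl2 n2
  have s43 : T.X l0 l2 l1 X = false → T.X a l1 l0 l2 = true → False := fun n1 n2 => by
    have u1 : T.X a l0 l1 X = false := bf (fun t => g17 n2 t n1)
    have u2 : T.X a l2 l1 X = false := bf (fun t => g28 n2 t n1)
    have u3 : T.X a x l1 X = true := bt (fun t => s32 u1 t)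
    exact s38 u2 u3
  have s44 : T.X a l1 l0 l2 = true → b2 = true → False := fun n1 n2 => by
    have u1 : T.X a l1 l2 X = false := bf (fun t => s36 t)
    have u2 : T.X a l1 l0 x = false := bf (fun t => s41 t)
    have u3 : T.X a X l1 l2 = false := bf (fun t => b2onX n2 t)
    have u4 : T.X l1 l2 x X = true := bt (fun t => s42 u3 t)
    have u5 : T.X a x l1 l2 = false := bf (fun t => b2onx n2 t)
    have u6 : T.X a l0 l2 X = false := bf (fun t => g20 n1 t u1)
    have u7 : T.X a l2 l0 x = false := bf (fun t => g25 n1 u2 t)
    have u8 : T.X l0 x l1 l2 = false := bf (fun t => g12 n1 u2 u5 t)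
    have u9 : T.X l0 x l2 X = true := bt (fun t => s35 u7 u6 t)
    have u10 : T.X l0 l2 l1 X = false := bf (fun t => g13 u8 t u9 u4)
    exact s43 u10 n1
  have s45 : b1 = false → False := fun n1 => by
    have u1 : T.X a s l0 x = false := bf (fun t => s39 t)
    have u2 : T.X a s l0 X = false := bf (fun t => s40 t)
    have u3 : T.X a s l0 l2 = true := bt (fun t => b1os n1 t)
    have u4 : T.X a t l0 l2 = true := bt (fun t => b1ot n1 t)
    have u5 : T.X a l2 l0 x = false := bf (fun t => g18 u3 t u1)
    have u6 : T.X a l2 l0 X = false := bf (fun t => g21 u3 t u2)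
    have u7 : T.X a X l0 l2 = false := bf (fun t => s33 u5 t)
    exact s37 u6 u7 u4
  have s46 : T.X a l1 l0 l2 = false → False := fun n1 => by
    have u1 : b1 = true := bt (fun t => s45 t)
    exact b1il1 u1 n1
  have s47 : T.X a l0 l1 l2 = true → False := fun n1 => by
    have u1 : T.X a l1 l0 l2 = true := bt (fun t => s46 t)
    exact g14 n1 u1
  have s51 : b2 = true → False := fun n1 => by
    have u1 : T.X a l1 l0 l2 = true := bt (fun t => s46 t)
    exact s44 u1 n1
  have u1 : b2 = false := bf (fun t => s51 t)
  have u2 : T.X a l0 l1 l2 = false := bf (fun t => s47 t)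
  exact b2ol0 u1 u2

end H53P
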