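import Pool.Agent.Lib.H98S.K5

/-! # H98S, finite facts, file Rot: rotations as lists -/

namespace H53P

variable {V : Type*} (T : Table V)

/-- the vertices of the list occur in this cyclic order around `a` -/
def Table.RotL (a : V) (l : List V) : Prop :=
  (a :: l).Nodup ∧ ∀ p q r s, List.Sublist [p, q, r, s] l → T.alt a p r q s = true

/-- the conditions on the 15 crossings of `a` and four points in cyclic order around `a` -/
def ok5a (b0 b1 b2 b3 b4 b5 b6 b7 b8 b9 b10 b11 b12 b13 b14 : Bool) : Bool :=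
  ((((b3 ^^ b10) ^^ b1) ^^ b8) ^^ b13) && ok5 b0 b1 b2 b3 b4 b5 b6 b7 b8 b9 b10 b11 b12 b13 b14

/-- five points, the last four in cyclic order around the first -/
def Table.Ok5a (p0 p1 p2 p3 p4 : V) : Prop :=
  ok5a (T.X p0 p1 p2 p3) (T.X p0 p2 p1 p3) (T.X p0 p3 p1 p2) (T.X p0 p1 p2 p4) (T.X p0 p2 p1 p4)
    (T.X p0 p4 p1 p2) (T.X p0 p1 p3 p4) (T.X p0 p3 p1 p4) (T.X p0 p4 p1 p3) (T.X p0 p2 p3 p4)
    (T.X p0 p3 p2 p4) (T.X p0 p4 p2 p3) (T.X p1 p2 p3 p4) (T.X p1 p3 p2 p4) (T.X p1 p4 p2 p3) = true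

variable {T} in
theorem Table.RotL.five {a : V} {l : List V} (h : T.RotL a l) {p q r s t : V}
    (hs : List.Sublist [p, q, r, s, t] l) : T.Ok5 p q r s t := by
  have h1 : [p, q, r, s, t].Nodup := (h.1.sublist (List.sublist_cons_self a l)).sublist hs
  simp only [List.nodup_cons, List.mem_cons, List.not_mem_nil, not_or, or_false, not_false_iff,
    List.nodup_nil, and_true] at h1
  obtain ⟨⟨a1, a2, a3, a4⟩, ⟨a5, a6, a7⟩, ⟨a8, a9⟩, a10⟩ := h1
  exact T.ok5 a1 a2 a3 a4 a5 a6 a7 a8 a9 a10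

variable {T} in
theorem Table.RotL.four {a : V} {l : List V} (h : T.RotL a l) {p q r s : V}
    (hs : List.Sublist [p, q, r, s] l) : T.Ok5a a p q r s := by
  have h1 : [a, p, q, r, s].Nodup := h.1.sublist (hs.cons_cons a)
  simp only [List.nodup_cons, List.mem_cons, List.not_mem_nil, not_or, or_false, not_false_iff,
    List.nodup_nil, and_true] at h1
  obtain ⟨⟨a1, a2, a3, a4⟩, ⟨a5, a6, a7⟩, ⟨a8, a9⟩, a10⟩ := h1
  have h2 := h.2 p q r s hs
  unfold Table.alt altX at h2
  rw [T.xs4 p r a q, T.xs4 p r a s] at h2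
  exact and_i h2 (T.ok5 a1 a2 a3 a4 a5 a6 a7 a8 a9 a10)

theorem bt {b : Bool} (h : b = false → False) : b = true := by
  cases b with
  | false => exact (h rfl).elim
  | true => rfl

theorem bf {b : Bool} (h : b = true → False) : b = false := by
  cases b with
  | false => rfl
  | true => exact (h rfl).elim

end H53P
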